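import Pool.Agent.Strip051.PB.Pair

/-! # Small rests: cells and trees -/

namespace Pool.Agent.Strip051.LC.E0.Ch

open Pool.Agent.Strip051.PB

/-- the test `f` on the cell `(z1, z2, z3)`; the first argument of `f` is the hint -/
noncomputable def onCell (P1 W1 P2 W2 P3 W3 : ℕ) (f : ℕ → ℕ → ℕ → ℕ → Bool) (h z1 z2 z3 : ℕ) :
    Bool :=
  frc (pX1 (ccen P1 W1 z1) (cwid W1 z1)) fun A => frc (pX2 (ccen P2 W2 z2) (cwid W2 z2)) fun B =>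
    frc (pX3 (ccen P3 W3 z3) (cwid W3 z3)) fun C => f h A B C

/-- A tree for the test `f` exists. -/
def Tree (P1 W1 P2 W2 P3 W3 : ℕ) (f : ℕ → ℕ → ℕ → ℕ → Bool) : Prop :=
  ∃ t, chk3 (onCell P1 W1 P2 W2 P3 W3 f) t 1 1 1 = true

theorem Tree.sound {P1 W1 P2 W2 P3 W3 : ℕ} {f : ℕ → ℕ → ℕ → ℕ → Bool} {Q : ℝ → ℝ → ℝ → Prop}
    (ht : Tree P1 W1 P2 W2 P3 W3 f)
    (hf : ∀ {E : Pt} {h A B C : ℕ} {p q x : ℝ}, Enc E A p → Enc E B q → Enc E C x →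
      f h A B C = true → Q p q x)
    {p q x : ℝ} (hp : (P1 : ℝ) / S ≤ p) (hp' : p ≤ ((P1 : ℝ) + W1) / S) (hq : (P2 : ℝ) / S ≤ q)
    (hq' : q ≤ ((P2 : ℝ) + W2) / S) (hx : (P3 : ℝ) / S ≤ x) (hx' : x ≤ ((P3 : ℝ) + W3) / S) :
    Q p q x := by
  obtain ⟨t, ht⟩ := ht
  have e : ∀ P W : ℕ, ((P : ℝ) + W) / S = (P : ℝ) / S + (W : ℝ) / S := fun P W => by ring
  rw [e] at hp' hq' hx'
  refine chk3_sound (f := onCell P1 W1 P2 W2 P3 W3 f) ?_ t 1 1 1 le_rfl le_rfl le_rfl ht p q x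
    (inC_root hp hp') (inC_root hq hq') (inC_root hx hx')
  intro h z1 z2 z3 g1 g2 g3 hh u v w hu hv hw
  have k : ∀ {P W z : ℕ} {x : ℝ}, 1 ≤ z → InC ((P : ℝ) / S) ((W : ℝ) / S) z x →
      |(S : ℝ) * x - (ccen P W z : ℕ)| ≤ (cwid W z : ℕ) := by
    intro P W z x hz hi
    have := cell_enc (n := 0) hS hz (x := x) (P := P) (W := W) (by simpa using hi)
    simpa using this
  obtain ⟨E, e1, e2, e3⟩ := pt_of (k g1 hu) (k g2 hv) (k g3 hw)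
  simp only [onCell, frc_eq] at hh
  exact hf e1 e2 e3 hh

end Pool.Agent.Strip051.LC.E0.Ch
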