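import Pool.Agent.Strip051.LC.E0.Ch.Good

/-! # Small rests: the functions of the chart t1a_W -/

set_option linter.unusedVariables false
set_option linter.unusedSimpArgs false

namespace Pool.Agent.Strip051.LC.E0.Ch

open Pool.Agent.Strip051.PB

theorem g_t1a_W_f {x w z xi : ℝ} (hxi : xi = -(x * G.om w x) - G.xiw z x) (D : Dom 8 x w z (1 /
    2) xi) (hz : 0 ≤ z) (hl : G.xiw (w + z) x ≤ xi) (hb : x * (xi - G.xiw (w + z) x) ≤ 3 / 20 *
    G.dwu (w + z) x) (h0 : 0 < w + z) :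
    Good R_t1a_W_f 8 false w z x
      (RowC .far .pp x w z (1 / 2) xi (G.S12 w x) (-G.NWu z x) (G.P2u xi (w + z) x)) := by
  have hX : R_t1a_W_f.XI w z x = xi := by
    simp only [RowF.XI, R_t1a_W_f, xi_T1APW, zx_val, xi1_val, xi3_val, xiw_val]
    linarith
  have hU : R_t1a_W_f.U w z x = xi - G.xiw (w + z) x := by
    simp only [RowF.U, R_t1a_W_f, u_T1APWPWbc, xi_T1APW, zx_val, xi1_val, xi3_val, xiw_val]
    linarith
  have hG : R_t1a_W_f.G w z = w + z - w * (1 / 2) := by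
    show gf1.v w (w + z) = _
    rw [gf1_val]; ring
  have hx0 := D.x0
  have hx1 := D.x1
  have e1 := th_PWb (xi := xi) (z := (w + z)) (x := x)
  have hu1 : 0 ≤ R_t1a_W_f.U w z x := by
    rw [hU]
    linarith
  have hL0 : 0 < R_t1a_W_f.L w z := by
    show 0 < w + z
    linarith
  have hp : PatF .pp R_t1a_W_f := ⟨rfl, rfl, rfl, rfl⟩
  have hD : Dm R_t1a_W_f 8 false w z x := 
    dm_of (P := .pp) hp hz D (by norm_num) (by norm_num) hG hX hL0
    (fun _ => hu1)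
    (fun e => absurd e Bool.false_ne_true)
  have hn : R_t1a_W_f.K23 w z x = (-G.NWu z x).1 := by
    unfold RowF.K23
    simp only [R_t1a_W_f, kwu_zn]
    rw [kwu_val]; rfl
  have gn : R_t1a_W_f.C23 w z x = (-G.NWu z x).2.1 := by
    unfold RowF.C23
    simp only [R_t1a_W_f, xw_zn]
    rw [xw_val]; rfl
  have ht3 : R_t1a_W_f.K13 w z x = (G.P2u xi (w + z) x).1 := by
    unfold RowF.K13
    rw [hU]
    simp only [R_t1a_W_f, k_PWb_tp]
    rw [e1]
  have gt3 : R_t1a_W_f.C13 w z x = (G.P2u xi (w + z) x).2.1 := by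
    unfold RowF.C13
    rw [hU]
    simp only [R_t1a_W_f, xw_tp]
    rw [xw_val]; rfl
  exact far_good hp ⟨rfl, rfl, rfl, rfl⟩ hD hG hX hn ht3 gn gt3

theorem g_t1a_W_n {x w z xi : ℝ} (hxi : xi = -(x * G.om w x) - G.xiw z x) (D : Dom 8 x w z (1 /
    2) xi) (hz : 0 ≤ z) (hl : G.xiw (w + z) x ≤ xi) (hb : x * (xi - G.xiw (w + z) x) ≤ 3 / 20 *
    G.dwu (w + z) x) (h0 : 0 < w + z) :
    Good R_t1a_W_n 8 false w z x
      (RowC .near .pp x w z (1 / 2) xi (G.S12 w x) (-G.NWu z x) (G.P2u xi (w + z) x)) := by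
  have hX : R_t1a_W_n.XI w z x = xi := by
    simp only [RowF.XI, R_t1a_W_n, xi_T1APW, zx_val, xi1_val, xi3_val, xiw_val]
    linarith
  have hU : R_t1a_W_n.U w z x = xi - G.xiw (w + z) x := by
    simp only [RowF.U, R_t1a_W_n, u_T1APWPWbc, xi_T1APW, zx_val, xi1_val, xi3_val, xiw_val]
    linarith
  have hG : R_t1a_W_n.G w z = w + z - w * (1 / 2) := by
    show gf1.v w (w + z) = _
    rw [gf1_val]; ring
  have hx0 := D.x0
  have hx1 := D.x1
  have e1 := th_PWb (xi := xi) (z := (w + z)) (x := x)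
  have hu1 : 0 ≤ R_t1a_W_n.U w z x := by
    rw [hU]
    linarith
  have hL0 : 0 < R_t1a_W_n.L w z := by
    show 0 < w + z
    linarith
  have hp : PatF .pp R_t1a_W_n := ⟨rfl, rfl, rfl, rfl⟩
  have hD : Dm R_t1a_W_n 8 false w z x := 
    dm_of (P := .pp) hp hz D (by norm_num) (by norm_num) hG hX hL0
    (fun _ => hu1)
    (fun e => absurd e Bool.false_ne_true)
  have hn : R_t1a_W_n.K23 w z x = nk x (-G.NWu z x).1 ((1 / 2) - 1) (-G.NWu z x).2.2 := by
    unfold RowF.K23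
    simp only [R_t1a_W_n, kwu_zn_m1_2_i, kwu_zn, r2u_zn]
    rw [kwu_val, r2u_val]; exact nkf_nk _ _ _ (by push_cast; norm_num)
  have gn : R_t1a_W_n.C23 w z x = (-G.NWu z x).2.1 := by
    unfold RowF.C23
    simp only [R_t1a_W_n, xw_zn]
    rw [xw_val]; rfl
  have ht3 : R_t1a_W_n.K13 w z x = nk x (G.P2u xi (w + z) x).1 (1 / 2) (G.P2u xi (w + z) x).2.2
    := by
    unfold RowF.K13
    rw [hU]
    simp only [R_t1a_W_n, k_PWb_tp_1_2_i, k_PWb_tp, r2u_tp]
    rw [e1, r2u_val]; exact nkf_nk _ _ _ (by push_cast; norm_num)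
  have gt3 : R_t1a_W_n.C13 w z x = (G.P2u xi (w + z) x).2.1 := by
    unfold RowF.C13
    rw [hU]
    simp only [R_t1a_W_n, xw_tp]
    rw [xw_val]; rfl
  exact near_good hp ⟨rfl, rfl, rfl, rfl⟩ hD hG hX hn ht3 gn gt3

end Pool.Agent.Strip051.LC.E0.Ch
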