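import Pool.Agent.Strip051.LC.E0.Ch.Good

/-! # Small rests: the functions of the chart t1a_c1_d -/

set_option linter.unusedVariables false
set_option linter.unusedSimpArgs false

namespace Pool.Agent.Strip051.LC.E0.Ch

open Pool.Agent.Strip051.PB

theorem g_t1a_c1_d_f {x w z xi : ℝ} (hxi : xi = -(x * G.om w x) - G.xi1 z x) (D : Dom 6 x w z (1
    / 2) xi) (hz : z ≤ 0) (ht : 0 ≤ w + z) (hl : G.xi1 (w + z) x ≤ xi) (hr : xi ≤ G.xiw (w + z)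
    x) (h0 : 0 < w) :
    Good R_t1a_c1_d_f 6 false w z x
      (RowC .far .pnp x w z (1 / 2) xi (G.S12 w x) (-G.N1d z x) (G.P1u xi (w + z) x)) := by
  have hX : R_t1a_c1_d_f.XI w z x = xi := by
    simp only [RowF.XI, R_t1a_c1_d_f, xi_T1AP1m, zx_val, xi1_val, xi3_val, xiw_val]
    linarith
  have hU : R_t1a_c1_d_f.U w z x = xi - G.xi1 (w + z) x := by
    simp only [RowF.U, R_t1a_c1_d_f, u_T1AP1mP1Wc, xi_T1AP1m, zx_val, xi1_val, xi3_val, xiw_val]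
    linarith
  have hG : R_t1a_c1_d_f.G w z = w + z - w * (1 / 2) := by
    show gf1.v w (w + z) = _
    rw [gf1_val]; ring
  have hx0 := D.x0
  have hx1 := D.x1
  have h0t : 0 ≤ w + z := by
    have := D.w0
    linarith
  obtain ⟨e1, e2, e3⟩ := th_P1Wc D.x0 D.x1 h0t D.xu hl hr
  have hu1 : 0 ≤ R_t1a_c1_d_f.U w z x := by
    rw [hU]
    linarith
  have hL0 : 0 < R_t1a_c1_d_f.L w z := by
    show 0 < w
    linarith
  have hp : PatF .pnp R_t1a_c1_d_f := ⟨rfl, rfl, rfl, rfl⟩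
  have hD : Dm R_t1a_c1_d_f 6 false w z x := 
    dm_of (P := .pnp) hp ⟨hz, ht⟩ D (by norm_num) (by norm_num) hG hX hL0
    (fun _ => hu1)
    (fun e => absurd e Bool.false_ne_true)
  have hn : R_t1a_c1_d_f.K23 w z x = (-G.N1d z x).1 := by
    unfold RowF.K23
    simp only [R_t1a_c1_d_f, k1m_zn]
    rw [k1m_val]; rfl
  have gn : R_t1a_c1_d_f.C23 w z x = (-G.N1d z x).2.1 := by
    unfold RowF.C23
    simp only [R_t1a_c1_d_f, x1m_zn]
    rw [x1m_val]; rfl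
  have ht3 : R_t1a_c1_d_f.K13 w z x = (G.P1u xi (w + z) x).1 := by
    unfold RowF.K13
    rw [hU]
    simp only [R_t1a_c1_d_f, k_P1Wc_tp]
    rw [e1]
  have gt3 : R_t1a_c1_d_f.C13 w z x = (G.P1u xi (w + z) x).2.1 := by
    unfold RowF.C13
    rw [hU]
    simp only [R_t1a_c1_d_f, c_P1Wc_tp]
    rw [e2]
  exact far_good hp ⟨rfl, rfl, rfl, rfl⟩ hD hG hX hn ht3 gn gt3

theorem g_t1a_c1_d_fw {x w z xi : ℝ} (hxi : xi = -(x * G.om w x) - G.xi1 z x) (D : Dom 6 x w z (1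
    / 2) xi) (hz : z ≤ 0) (ht : 0 ≤ w + z) (hl : G.xi1 (w + z) x ≤ xi) (hr : xi ≤ G.xiw (w + z)
    x) (h0 : 0 < w) :
    Good R_t1a_c1_d_fw 6 false w z x
      (RowC .far .pnp x w z (1 / 2) xi (G.S12 w x) (-G.N1d z x) (G.P1u xi (w + z) x)) := by
  have hX : R_t1a_c1_d_fw.XI w z x = xi := by
    simp only [RowF.XI, R_t1a_c1_d_fw, xi_T1AP1m, zx_val, xi1_val, xi3_val, xiw_val]
    linarith
  have hU : R_t1a_c1_d_fw.U w z x = G.xiw (w + z) x - xi := by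
    simp only [RowF.U, R_t1a_c1_d_fw, u_T1AP1mP1Ww, xi_T1AP1m, zx_val, xi1_val, xi3_val, xiw_val]
    linarith
  have hG : R_t1a_c1_d_fw.G w z = w + z - w * (1 / 2) := by
    show gf1.v w (w + z) = _
    rw [gf1_val]; ring
  have hx0 := D.x0
  have hx1 := D.x1
  have h0t : 0 ≤ w + z := by
    have := D.w0
    linarith
  obtain ⟨e1, e2, e3⟩ := th_P1Ww D.x0 D.x1 h0t D.xu hl hr
  have hu1 : 0 ≤ R_t1a_c1_d_fw.U w z x := by
    rw [hU]
    linarith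
  have hL0 : 0 < R_t1a_c1_d_fw.L w z := by
    show 0 < w
    linarith
  have hp : PatF .pnp R_t1a_c1_d_fw := ⟨rfl, rfl, rfl, rfl⟩
  have hD : Dm R_t1a_c1_d_fw 6 false w z x := 
    dm_of (P := .pnp) hp ⟨hz, ht⟩ D (by norm_num) (by norm_num) hG hX hL0
    (fun _ => hu1)
    (fun e => absurd e Bool.false_ne_true)
  have hn : R_t1a_c1_d_fw.K23 w z x = (-G.N1d z x).1 := by
    unfold RowF.K23
    simp only [R_t1a_c1_d_fw, k1m_zn]
    rw [k1m_val]; rfl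
  have gn : R_t1a_c1_d_fw.C23 w z x = (-G.N1d z x).2.1 := by
    unfold RowF.C23
    simp only [R_t1a_c1_d_fw, x1m_zn]
    rw [x1m_val]; rfl
  have ht3 : R_t1a_c1_d_fw.K13 w z x = (G.P1u xi (w + z) x).1 := by
    unfold RowF.K13
    rw [hU]
    simp only [R_t1a_c1_d_fw, k_P1Ww_tp]
    rw [e1]
  have gt3 : R_t1a_c1_d_fw.C13 w z x = (G.P1u xi (w + z) x).2.1 := by
    unfold RowF.C13
    rw [hU]
    simp only [R_t1a_c1_d_fw, c_P1Ww_tp]
    rw [e2]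
  exact far_good hp ⟨rfl, rfl, rfl, rfl⟩ hD hG hX hn ht3 gn gt3

theorem g_t1a_c1_d_n {x w z xi : ℝ} (hxi : xi = -(x * G.om w x) - G.xi1 z x) (D : Dom 6 x w z (1
    / 2) xi) (hz : z ≤ 0) (ht : 0 ≤ w + z) (hl : G.xi1 (w + z) x ≤ xi) (hr : xi ≤ G.xiw (w + z)
    x) (h0 : 0 < w) :
    Good R_t1a_c1_d_n 6 false w z x
      (RowC .near .pnp x w z (1 / 2) xi (G.S12 w x) (-G.N1d z x) (G.P1u xi (w + z) x)) := by
  have hX : R_t1a_c1_d_n.XI w z x = xi := by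
    simp only [RowF.XI, R_t1a_c1_d_n, xi_T1AP1m, zx_val, xi1_val, xi3_val, xiw_val]
    linarith
  have hU : R_t1a_c1_d_n.U w z x = xi - G.xi1 (w + z) x := by
    simp only [RowF.U, R_t1a_c1_d_n, u_T1AP1mP1Wc, xi_T1AP1m, zx_val, xi1_val, xi3_val, xiw_val]
    linarith
  have hG : R_t1a_c1_d_n.G w z = w + z - w * (1 / 2) := by
    show gf1.v w (w + z) = _
    rw [gf1_val]; ring
  have hx0 := D.x0
  have hx1 := D.x1
  have h0t : 0 ≤ w + z := by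
    have := D.w0
    linarith
  obtain ⟨e1, e2, e3⟩ := th_P1Wc D.x0 D.x1 h0t D.xu hl hr
  have hu1 : 0 ≤ R_t1a_c1_d_n.U w z x := by
    rw [hU]
    linarith
  have hL0 : 0 < R_t1a_c1_d_n.L w z := by
    show 0 < w
    linarith
  have hp : PatF .pnp R_t1a_c1_d_n := ⟨rfl, rfl, rfl, rfl⟩
  have hD : Dm R_t1a_c1_d_n 6 false w z x := 
    dm_of (P := .pnp) hp ⟨hz, ht⟩ D (by norm_num) (by norm_num) hG hX hL0
    (fun _ => hu1)
    (fun e => absurd e Bool.false_ne_true)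
  have hn : R_t1a_c1_d_n.K23 w z x = nk x (-G.N1d z x).1 ((1 / 2) - 1) 0 := by
    unfold RowF.K23
    simp only [R_t1a_c1_d_n, k1m_zn_m1_2_o, k1m_zn]
    rw [k1m_val]; exact nk0_nk _ _ (by push_cast; norm_num)
  have gn : R_t1a_c1_d_n.C23 w z x = (-G.N1d z x).2.1 := by
    unfold RowF.C23
    simp only [R_t1a_c1_d_n, x1m_zn]
    rw [x1m_val]; rfl
  have ht3 : R_t1a_c1_d_n.K13 w z x = nk x (G.P1u xi (w + z) x).1 (1 / 2) (G.P1u xi (w + z)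
    x).2.2 := by
    unfold RowF.K13
    rw [hU]
    simp only [R_t1a_c1_d_n, k_P1Wc_tp_1_2_i, k_P1Wc_tp, r_P1Wc_tp]
    rw [e1, e3]; exact nkf_nk _ _ _ (by push_cast; norm_num)
  have gt3 : R_t1a_c1_d_n.C13 w z x = (G.P1u xi (w + z) x).2.1 := by
    unfold RowF.C13
    rw [hU]
    simp only [R_t1a_c1_d_n, c_P1Wc_tp]
    rw [e2]
  rw [show (0 : ℝ) = (-G.N1d z x).2.2 from neg_zero.symm] at hn
  exact near_good hp ⟨rfl, rfl, rfl, rfl⟩ hD hG hX hn ht3 gn gt3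

theorem g_t1a_c1_d_m {x w z xi : ℝ} (hxi : xi = -(x * G.om w x) - G.xi1 z x) (D : Dom 6 x w z (1
    / 2) xi) (hz : z ≤ 0) (ht : 0 ≤ w + z) (hl : G.xi1 (w + z) x ≤ xi) (hr : xi ≤ G.xiw (w + z)
    x) (h0 : 0 < w) :
    GoodM R_t1a_c1_d_m M_t1a_c1_d_m 6 false w z x
      (RowC .near .pnp x w z (1 / 2) xi (G.S12 w x) (-G.N1d z x) (G.P1u xi (w + z) x)) := by
  have hX : R_t1a_c1_d_m.XI w z x = xi := by
    simp only [RowF.XI, R_t1a_c1_d_m, xi_T1AP1m, zx_val, xi1_val, xi3_val, xiw_val]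
    linarith
  have hU : R_t1a_c1_d_m.U w z x = xi - G.xi1 (w + z) x := by
    simp only [RowF.U, R_t1a_c1_d_m, u_T1AP1mP1Wc, xi_T1AP1m, zx_val, xi1_val, xi3_val, xiw_val]
    linarith
  have hG : R_t1a_c1_d_m.G w z = w + z - w * (1 / 2) := by
    show gf1.v w (w + z) = _
    rw [gf1_val]; ring
  have hx0 := D.x0
  have hx1 := D.x1
  have h0t : 0 ≤ w + z := by
    have := D.w0
    linarith
  obtain ⟨e1, e2, e3⟩ := th_P1Wc D.x0 D.x1 h0t D.xu hl hr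
  have hu1 : 0 ≤ R_t1a_c1_d_m.U w z x := by
    rw [hU]
    linarith
  have hL0 : 0 < R_t1a_c1_d_m.L w z := by
    show 0 < w
    linarith
  have hp : PatF .pnp R_t1a_c1_d_m := ⟨rfl, rfl, rfl, rfl⟩
  have hD : Dm R_t1a_c1_d_m 6 false w z x := 
    dm_of (P := .pnp) hp ⟨hz, ht⟩ D (by norm_num) (by norm_num) hG hX hL0
    (fun _ => hu1)
    (fun e => absurd e Bool.false_ne_true)
  have hn : R_t1a_c1_d_m.K23 w z x = nk x (-G.N1d z x).1 ((1 / 2) - 1) 0 := by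
    unfold RowF.K23
    simp only [R_t1a_c1_d_m, k1m_zn_m1_2_o, k1m_zn]
    rw [k1m_val]; exact nk0_nk _ _ (by push_cast; norm_num)
  have gn : R_t1a_c1_d_m.C23 w z x = (-G.N1d z x).2.1 := by
    unfold RowF.C23
    simp only [R_t1a_c1_d_m, x1m_zn]
    rw [x1m_val]; rfl
  have ht3 : R_t1a_c1_d_m.K13 w z x = nk x (G.P1u xi (w + z) x).1 (1 / 2) 0 := by
    unfold RowF.K13
    rw [hU]
    simp only [R_t1a_c1_d_m, k_P1Wc_tp_1_2_o, k_P1Wc_tp]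
    rw [e1]; exact nk0_nk _ _ (by push_cast; norm_num)
  have gt3 : R_t1a_c1_d_m.C13 w z x = (G.P1u xi (w + z) x).2.1 := by
    unfold RowF.C13
    rw [hU]
    simp only [R_t1a_c1_d_m, c_P1Wc_tp]
    rw [e2]
  have hr4 : |M_t1a_c1_d_m.rt.v (R_t1a_c1_d_m.U w z x) z (w + z) x| = |(-G.N1d z x).2.2| +
    |(G.P1u xi (w + z) x).2.2| := by
    rw [show |(-G.N1d z x).2.2| = 0 by rw [show (-G.N1d z x).2.2 = 0 from neg_zero, abs_zero],
    zero_add]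
    show |r_P1Wc.v (R_t1a_c1_d_m.U w z x) (w + z) x| = _
    rw [hU, e3]
  exact near_goodM hp ⟨rfl, rfl, rfl, rfl⟩ rfl hD hG hX hn ht3 gn gt3 hr4

theorem g_t1a_c1_d_nw {x w z xi : ℝ} (hxi : xi = -(x * G.om w x) - G.xi1 z x) (D : Dom 6 x w z (1
    / 2) xi) (hz : z ≤ 0) (ht : 0 ≤ w + z) (hl : G.xi1 (w + z) x ≤ xi) (hr : xi ≤ G.xiw (w + z)
    x) (h0 : 0 < w) :
    Good R_t1a_c1_d_nw 6 false w z x
      (RowC .near .pnp x w z (1 / 2) xi (G.S12 w x) (-G.N1d z x) (G.P1u xi (w + z) x)) := by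
  have hX : R_t1a_c1_d_nw.XI w z x = xi := by
    simp only [RowF.XI, R_t1a_c1_d_nw, xi_T1AP1m, zx_val, xi1_val, xi3_val, xiw_val]
    linarith
  have hU : R_t1a_c1_d_nw.U w z x = G.xiw (w + z) x - xi := by
    simp only [RowF.U, R_t1a_c1_d_nw, u_T1AP1mP1Ww, xi_T1AP1m, zx_val, xi1_val, xi3_val, xiw_val]
    linarith
  have hG : R_t1a_c1_d_nw.G w z = w + z - w * (1 / 2) := by
    show gf1.v w (w + z) = _
    rw [gf1_val]; ring
  have hx0 := D.x0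
  have hx1 := D.x1
  have h0t : 0 ≤ w + z := by
    have := D.w0
    linarith
  obtain ⟨e1, e2, e3⟩ := th_P1Ww D.x0 D.x1 h0t D.xu hl hr
  have hu1 : 0 ≤ R_t1a_c1_d_nw.U w z x := by
    rw [hU]
    linarith
  have hL0 : 0 < R_t1a_c1_d_nw.L w z := by
    show 0 < w
    linarith
  have hp : PatF .pnp R_t1a_c1_d_nw := ⟨rfl, rfl, rfl, rfl⟩
  have hD : Dm R_t1a_c1_d_nw 6 false w z x := 
    dm_of (P := .pnp) hp ⟨hz, ht⟩ D (by norm_num) (by norm_num) hG hX hL0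
    (fun _ => hu1)
    (fun e => absurd e Bool.false_ne_true)
  have hn : R_t1a_c1_d_nw.K23 w z x = nk x (-G.N1d z x).1 ((1 / 2) - 1) 0 := by
    unfold RowF.K23
    simp only [R_t1a_c1_d_nw, k1m_zn_m1_2_o, k1m_zn]
    rw [k1m_val]; exact nk0_nk _ _ (by push_cast; norm_num)
  have gn : R_t1a_c1_d_nw.C23 w z x = (-G.N1d z x).2.1 := by
    unfold RowF.C23
    simp only [R_t1a_c1_d_nw, x1m_zn]
    rw [x1m_val]; rfl
  have ht3 : R_t1a_c1_d_nw.K13 w z x = nk x (G.P1u xi (w + z) x).1 (1 / 2) (G.P1u xi (w + z)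
    x).2.2 := by
    unfold RowF.K13
    rw [hU]
    simp only [R_t1a_c1_d_nw, k_P1Ww_tp_1_2_i, k_P1Ww_tp, r_P1Ww_tp]
    rw [e1, e3]; exact nkf_nk _ _ _ (by push_cast; norm_num)
  have gt3 : R_t1a_c1_d_nw.C13 w z x = (G.P1u xi (w + z) x).2.1 := by
    unfold RowF.C13
    rw [hU]
    simp only [R_t1a_c1_d_nw, c_P1Ww_tp]
    rw [e2]
  rw [show (0 : ℝ) = (-G.N1d z x).2.2 from neg_zero.symm] at hn
  exact near_good hp ⟨rfl, rfl, rfl, rfl⟩ hD hG hX hn ht3 gn gt3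

end Pool.Agent.Strip051.LC.E0.Ch
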