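import Pool.Agent.Strip051.LC.E0.Ch.Lu

/-! # Small rests: the lines of the chart t1a_c1_d, near vertex -/

set_option linter.unusedVariables false
set_option linter.unusedSimpArgs false

namespace Pool.Agent.Strip051.LC.E0.Ch

open Pool.Agent.Strip051.PB BaseP

theorem lb_t1a_c1_d_n_0 {x : ℝ} (hx : 0 < x) (hx1 : x ≤ 4 / 125) (t : ℝ) :
    LnB R_t1a_c1_d_nw true true false t t 0 x := by
  have hG : R_t1a_c1_d_nw.G t 0 = t / 2 := by
    show gf1.v t (t + 0) = _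
    rw [gf1_val]; ring
  have hX : R_t1a_c1_d_nw.XI t 0 x = -(x * G.om t x) := by
    simp only [RowF.XI, R_t1a_c1_d_nw, xi_T1AP1m, zx_val, xi1_val, G.xiw, add_zero, zero_add,
        add_neg_cancel, neg_neg, neg_zero, mul_zero, zero_mul, sub_zero, zero_sub, om_neg, kwu_0,
        kwl_0, k1p_0, k1m_0, k3p_0, k3m_0, xw_0, xa_0, x1p_0, x1m_0, x3p_0, x3m_0, xi1_0, xi3_0,
        om_0, gh_0]
    try ring
  have hU : R_t1a_c1_d_nw.U t 0 x = 0 := by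
    simp only [RowF.U, R_t1a_c1_d_nw, u_T1AP1mP1Ww, xi_T1AP1m, xiw_val, zx_val, xi1_val, G.xiw,
        add_zero, zero_add, add_neg_cancel, neg_neg, neg_zero, mul_zero, zero_mul, sub_zero,
        zero_sub, om_neg, kwu_0, kwl_0, k1p_0, k1m_0, k3p_0, k3m_0, xw_0, xa_0, x1p_0, x1m_0,
        x3p_0, x3m_0, xi1_0, xi3_0, om_0, gh_0]
    try ring
  have h23 : R_t1a_c1_d_nw.K23 t 0 x = -(G.lb x / 2) := by
    unfold RowF.K23
    rw [hU]
    simp only [R_t1a_c1_d_nw, k1m_zn_m1_2_o, k1m_zn, nk0_val, k1m_val, add_zero, zero_add,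
        add_neg_cancel, neg_neg, neg_zero, mul_zero, zero_mul, sub_zero, zero_sub, om_neg, kwu_0,
        kwl_0, k1p_0, k1m_0, k3p_0, k3m_0, xw_0, xa_0, x1p_0, x1m_0, x3p_0, x3m_0, xi1_0, xi3_0,
        om_0, gh_0]
    try push_cast
    try ring
  have h13 : R_t1a_c1_d_nw.K13 t 0 x = G.kwu t x * (1 + x * G.lb x) + G.lb x * (1 / 2 + G.rwu x *
      G.gh t) := by
    unfold RowF.K13
    rw [hU]
    simp only [R_t1a_c1_d_nw, k_P1Ww_tp_1_2_i, k_P1Ww_tp, k_P1Ww, r_P1Ww_tp, r_P1Ww, nkf_val,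
        kwu_val, su_val, r2u_val, add_zero, zero_add, add_neg_cancel, neg_neg, neg_zero,
        mul_zero, zero_mul, sub_zero, zero_sub, om_neg, kwu_0, kwl_0, k1p_0, k1m_0, k3p_0, k3m_0,
        xw_0, xa_0, x1p_0, x1m_0, x3p_0, x3m_0, xi1_0, xi3_0, om_0, gh_0]
    try push_cast
    try ring
  have g23 : R_t1a_c1_d_nw.C23 t 0 x = 0 := by
    unfold RowF.C23
    rw [hU]
    simp only [R_t1a_c1_d_nw, x1m_zn, x1m_val, add_zero, zero_add, add_neg_cancel, neg_neg,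
        neg_zero, mul_zero, zero_mul, sub_zero, zero_sub, om_neg, kwu_0, kwl_0, k1p_0, k1m_0,
        k3p_0, k3m_0, xw_0, xa_0, x1p_0, x1m_0, x3p_0, x3m_0, xi1_0, xi3_0, om_0, gh_0]
    try push_cast
    try ring
  have g13 : R_t1a_c1_d_nw.C13 t 0 x = G.xw t x := by
    unfold RowF.C13
    rw [hU]
    simp only [R_t1a_c1_d_nw, c_P1Ww_tp, c_P1Ww, xw_val, add_zero, zero_add, add_neg_cancel,
        neg_neg, neg_zero, mul_zero, zero_mul, sub_zero, zero_sub, om_neg, kwu_0, kwl_0, k1p_0,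
        k1m_0, k3p_0, k3m_0, xw_0, xa_0, x1p_0, x1m_0, x3p_0, x3m_0, xi1_0, xi3_0, om_0, gh_0]
    try push_cast
    try ring
  exact l1n hx hx1 (P := .pnp) ⟨rfl, rfl, rfl, rfl⟩ nofun ⟨rfl, rfl, rfl, rfl⟩ hG hX h23 h13 g23
      g13

theorem hu_t1a_c1_d_n_0 (w z x : ℝ) : R_t1a_c1_d_nw.U w 0 x = 0 := by
  simp only [RowF.U, R_t1a_c1_d_nw, u_T1AP1mP1Ww, xi_T1AP1m, xiw_val, zx_val, xi1_val, G.xiw,
      add_zero, zero_add, add_neg_cancel, neg_neg, neg_zero, mul_zero, zero_mul, sub_zero,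
      zero_sub, om_neg, kwu_0, kwl_0, k1p_0, k1m_0, k3p_0, k3m_0, xw_0, xa_0, x1p_0, x1m_0,
      x3p_0, x3m_0, xi1_0, xi3_0, om_0, gh_0]
  try ring

end Pool.Agent.Strip051.LC.E0.Ch
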