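import Pool.Agent.Strip051.LC.E0.Ch.Lu

/-! # Small rests: the lines of the chart t1a_c1_u, far vertex -/

set_option linter.unusedVariables false
set_option linter.unusedSimpArgs false

namespace Pool.Agent.Strip051.LC.E0.Ch

open Pool.Agent.Strip051.PB BaseP

theorem lb_t1a_c1_u_f_0 {x : ℝ} (hx : 0 < x) (hx1 : x ≤ 4 / 125) (t : ℝ) :
    LnB R_t1a_c1_u_f true false false t t 0 x := by
  have hG : R_t1a_c1_u_f.G t 0 = t / 2 := by
    show gf1.v t (t + 0) = _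
    rw [gf1_val]; ring
  have hX : R_t1a_c1_u_f.XI t 0 x = -(x * G.om t x) := by
    simp only [RowF.XI, R_t1a_c1_u_f, xi_T1AP1p, zx_val, xi1_val, G.xiw, add_zero, zero_add,
        add_neg_cancel, neg_neg, neg_zero, mul_zero, zero_mul, sub_zero, zero_sub, om_neg, kwu_0,
        kwl_0, k1p_0, k1m_0, k3p_0, k3m_0, xw_0, xa_0, x1p_0, x1m_0, x3p_0, x3m_0, xi1_0, xi3_0,
        om_0, gh_0]
    try ring
  have hU : R_t1a_c1_u_f.U t 0 x = 0 := by
    simp only [RowF.U, R_t1a_c1_u_f, u_T1AP1pPWbc, xi_T1AP1p, xiw_val, zx_val, xi1_val, G.xiw,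
        add_zero, zero_add, add_neg_cancel, neg_neg, neg_zero, mul_zero, zero_mul, sub_zero,
        zero_sub, om_neg, kwu_0, kwl_0, k1p_0, k1m_0, k3p_0, k3m_0, xw_0, xa_0, x1p_0, x1m_0,
        x3p_0, x3m_0, xi1_0, xi3_0, om_0, gh_0]
    try ring
  have h23 : R_t1a_c1_u_f.K23 t 0 x = 0 := by
    unfold RowF.K23
    rw [hU]
    simp only [R_t1a_c1_u_f, k1p_zn, k1p_val, add_zero, zero_add, add_neg_cancel, neg_neg,
        neg_zero, mul_zero, zero_mul, sub_zero, zero_sub, om_neg, kwu_0, kwl_0, k1p_0, k1m_0,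
        k3p_0, k3m_0, xw_0, xa_0, x1p_0, x1m_0, x3p_0, x3m_0, xi1_0, xi3_0, om_0, gh_0]
    try push_cast
    try ring
  have h13 : R_t1a_c1_u_f.K13 t 0 x = G.kwu t x := by
    unfold RowF.K13
    rw [hU]
    simp only [R_t1a_c1_u_f, k_PWb_tp, k_PWb, kwu_val, add_zero, zero_add, add_neg_cancel,
        neg_neg, neg_zero, mul_zero, zero_mul, sub_zero, zero_sub, om_neg, kwu_0, kwl_0, k1p_0,
        k1m_0, k3p_0, k3m_0, xw_0, xa_0, x1p_0, x1m_0, x3p_0, x3m_0, xi1_0, xi3_0, om_0, gh_0]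
    try push_cast
    try ring
  have g23 : R_t1a_c1_u_f.C23 t 0 x = 0 := by
    unfold RowF.C23
    rw [hU]
    simp only [R_t1a_c1_u_f, x1p_zn, x1p_val, add_zero, zero_add, add_neg_cancel, neg_neg,
        neg_zero, mul_zero, zero_mul, sub_zero, zero_sub, om_neg, kwu_0, kwl_0, k1p_0, k1m_0,
        k3p_0, k3m_0, xw_0, xa_0, x1p_0, x1m_0, x3p_0, x3m_0, xi1_0, xi3_0, om_0, gh_0]
    try push_cast
    try ring
  have g13 : R_t1a_c1_u_f.C13 t 0 x = G.xw t x := by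
    unfold RowF.C13
    rw [hU]
    simp only [R_t1a_c1_u_f, xw_tp, xw_val, add_zero, zero_add, add_neg_cancel, neg_neg,
        neg_zero, mul_zero, zero_mul, sub_zero, zero_sub, om_neg, kwu_0, kwl_0, k1p_0, k1m_0,
        k3p_0, k3m_0, xw_0, xa_0, x1p_0, x1m_0, x3p_0, x3m_0, xi1_0, xi3_0, om_0, gh_0]
    try push_cast
    try ring
  exact l1f hx hx1 (P := .pp) ⟨rfl, rfl, rfl, rfl⟩ nofun ⟨rfl, rfl, rfl, rfl⟩ hG hX h23 h13 g23
      g13

end Pool.Agent.Strip051.LC.E0.Ch
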