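import Pool.Agent.Strip051.LC.E0.Ch.Pt
import Pool.Agent.Strip051.LC.E0.Ch.L_t1a_c1_u
import Pool.Agent.Strip051.LC.E0.Ch.B_t1a_c1_u
import Pool.Agent.Strip051.LC.E0.Ch.Cert.X_t1a_c1_u_n_M
import Pool.Agent.Strip051.LC.E0.Ch.Cert.X_t1a_c1_u_n_C
import Pool.Agent.Strip051.LC.E0.Ch.Ln_t1a_c1_u_n

/-! # Small rests: the chart t1a_c1_u, near vertex -/

set_option linter.unusedVariables false
set_option linter.unusedSimpArgs false

namespace Pool.Agent.Strip051.LC.E0.Ch

open Pool.Agent.Strip051.PB BaseP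

theorem r_t1a_c1_u_n {x w z xi : ℝ} (hxi : xi = -(x * G.om w x) - G.xi1 z x) (D : Dom 6 x w z (1
    / 2) xi) (hz : 0 ≤ z) (hl : G.xiw (w + z) x ≤ xi) (hb : x * (xi - G.xiw (w + z) x) ≤ 3 / 20 *
    G.dwu (w + z) x) (h0 : 0 < w + z) :
    RowC .near .pp x w z (1 / 2) xi (G.S12 w x) (-G.N1u z x) (G.P2u xi (w + z) x) := by
  have hx := D.x0
  have hx1 := D.x1
  have hw := D.w0
  have hw1 := D.w1
  have hz0 := D.z0
  have hz1 := D.z1
  have hu0 := D.u0
  have hu1 := D.u1
  have g := g_t1a_c1_u_n hxi D hz hl hb h0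
  rcases le_or_gt (w + z) (1 / 4) with hc | hc
  · have hN : 0 < (w + z) := h0
    have hp0 : (0 : ℝ) ≤ z / (w + z) := by
      rw [le_div_iff₀ hN]
      linarith
    have hp1 : z / (w + z) ≤ 1 := by
      rw [div_le_iff₀ hN]
      linarith
    have hpe : (w + z) * (z / (w + z)) = z := mul_div_cancel₀ z hN.ne'
    have hww : w = (w + z) * (1 - z / (w + z)) := by
      linear_combination hpe
    exact tree_pt x_t1a_c1_u_n_C
      (blo (m := 0) hN.le (by unfold S; norm_num))
      (bhi (m := (1 / 4)) hc (by unfold S; norm_num))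
      (blo (m := 0) hp0 (by unfold S; norm_num))
      (bhi (m := 1) hp1 (by unfold S; norm_num))
      (blo (m := 0) D.x0.le (by unfold S; norm_num))
      (bhi (m := (4 / 125)) D.x1 (by unfold S; norm_num))
      fun hA hB hX h => corT_good hA hB hX hN (cb_t1a_c1_u_n x) (Or.inl ⟨rfl, hww, hpe.symm⟩) g
          (fun _ _ e => noc e) h
  · exact tree_pt x_t1a_c1_u_n_M
      (blo (m := 0) hw (by unfold S; norm_num))
      (bhi (m := 6) hw1 (by unfold S; norm_num))
      (blo (m := 0) hz (by unfold S; norm_num))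
      (bhi (m := 6) hz1 (by unfold S; norm_num))
      (blo (m := 0) D.x0.le (by unfold S; norm_num))
      (bhi (m := (4 / 125)) D.x1 (by unfold S; norm_num))
      fun hA hB hX h => mZ_sound hA hB hX g ndec (fun _ => hc)
        (fun hZ k e => twoL_sound (fun j e => lM1p_sound hA hZ hX hz (g_t1a_c1_u_n hxi D hz hl hb
            h0) (fun e => absurd e Bool.false_ne_true) (lb_t1a_c1_u_n_0 D.x0 D.x1 w) rfl (show (w
            : ℝ) + z = w + z by ring) rfl e) (fun _ e => nol e) e) h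

end Pool.Agent.Strip051.LC.E0.Ch
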