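import Pool.Agent.Strip051.LC.E0.Ch.Sb

/-! # Small rests: the base points of the chart t1b_c1_d -/

set_option linter.unusedVariables false
set_option linter.unusedSimpArgs false

namespace Pool.Agent.Strip051.LC.E0.Ch

open Pool.Agent.Strip051.PB BaseP

theorem sb_t1b_c1_d_f {w x : ℝ} (hx : 0 < x) (hx1 : x ≤ 4 / 125) (hw : 0 ≤ w) (hw1 : w ≤ 6) (w0 :
    w ≠ 0) :
    SBase R_t1b_c1_d_f w (-kw1.v w x) x ∧ 0 ≤ R_t1b_c1_d_f.V1 w (-kw1.v w x) x ∧ 0 ≤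
    R_t1b_c1_d_f.V2 w (-kw1.v w x) x := by
  have hw8 : w ≤ 8 := by linarith
  have hz : -kw1.v w x = -(w / 2) - x * G.om w x := by
    rw [kw1_val]; ring
  generalize -kw1.v w x = z at hz ⊢
  have ht : w + z = w / 2 - x * G.om w x := by rw [hz]; ring
  have ez := E2_xi1 hx hx1 hw hw8
  have et := E1_xi1 hx hx1 hw hw8
  have cz := E2_x1m hx hx1 hw hw8
  have ct := E1_x1p hx hx1 hw hw8
  rw [← hz] at ez cz
  rw [← ht] at et ct
  have hX : R_t1b_c1_d_f.XI w z x = G.xi1 (w + z) x := by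
    simp only [RowF.XI, R_t1b_c1_d_f, xi_T1BP1p, zx_val, xi1_val, xi3_val, xiw_val]
    try linarith
  have hU : R_t1b_c1_d_f.U w z x = 0 := by
    simp only [RowF.U, R_t1b_c1_d_f, u_T1BP1pP1ac, xi_T1BP1p, zx_val, xi1_val, xi3_val, xiw_val]
    try linarith
  have hG : R_t1b_c1_d_f.G w z = w + z - w * (1 / 2) := by
    show gf1.v w (w + z) = _
    rw [gf1_val]; ring
  have h12 : R_t1b_c1_d_f.K12 w x = (1 : ℝ) * -G.dt w + (0 : ℝ) := by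
    show ka.v w x = _
    rw [ka_val]; ring
  have h23 : R_t1b_c1_d_f.K23 w z x = (1 : ℝ) * -G.k1m z x - (0 : ℝ) / 2 := by
    unfold RowF.K23
    rw [hU]
    simp only [R_t1b_c1_d_f, k_P1a_zn, k_P1a, su_val, sl_val, sbc_val, k1m_val, k1p_val, k3m_val,
    k3p_val, kwu_val, kwl_val]
    try ring
  have h13 : R_t1b_c1_d_f.K13 w z x = (1 : ℝ) * G.k1p (w + z) x + (0 : ℝ) / 2 := by
    unfold RowF.K13
    rw [hU]
    simp only [R_t1b_c1_d_f, k1p_tp, su_val, sl_val, sbc_val, k1m_val, k1p_val, k3m_val, k3p_val,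
    kwu_val, kwl_val]
    try ring
  have SB := sb_T1 (R := R_t1b_c1_d_f) (c := (1 : ℝ)) (L := (0 : ℝ)) hx hx1 hw hw8 hz (by ring)
    rfl rfl w0 hG hX hU h12 h23 h13
  have g23 : R_t1b_c1_d_f.C23 w z x = -(G.xb (w / 2)) := by
    unfold RowF.C23
    rw [hU]
    simp only [R_t1b_c1_d_f, x1m_zn, x1m_val, x1p_val, x3m_val, x3p_val, xw_val, xwl_val]
    rw [cz]
    try ring
  have g13 : R_t1b_c1_d_f.C13 w z x = G.xa w x - G.xb (w / 2) := by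
    unfold RowF.C13
    rw [hU]
    simp only [R_t1b_c1_d_f, x1p_tp, x1m_val, x1p_val, x3m_val, x3p_val, xw_val, xwl_val]
    rw [ct]
    try ring
  have f12 : R_t1b_c1_d_f.C12 w x = G.xa w x := xa_val w x
  have v1 : R_t1b_c1_d_f.V1 w z x = 0 := by
    unfold RowF.V1
    show vf1.v _ _ _ _ _ _ _ = 0
    rw [vf1_val, f12, g23, g13]; ring
  have v2 : R_t1b_c1_d_f.V2 w z x = 0 := by
    unfold RowF.V2
    show vf2.v _ _ _ _ _ _ _ = 0
    rw [vf2_val, f12, g23, g13]; ring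
  exact ⟨SB, v1.ge, v2.ge⟩

theorem sb_t1b_c1_d_m {w x : ℝ} (hx : 0 < x) (hx1 : x ≤ 4 / 125) (hw : 0 ≤ w) (hw1 : w ≤ 6) (w0 :
    w ≠ 0) :
    SBase R_t1b_c1_d_m w (-kw1.v w x) x ∧ G.ep x * G.lb x * |M_t1b_c1_d_m.r12.v w x| ≤
    R_t1b_c1_d_m.V1 w (-kw1.v w x) x ∧
      G.ep x * G.lb x * |M_t1b_c1_d_m.r12.v w x| ≤ R_t1b_c1_d_m.V2 w (-kw1.v w x) x ∧
      M_t1b_c1_d_m.rt.v (R_t1b_c1_d_m.U w (-kw1.v w x) x) (-kw1.v w x) (w + (-kw1.v w x)) x = 0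
    := by
  have hw8 : w ≤ 8 := by linarith
  have hz : -kw1.v w x = -(w / 2) - x * G.om w x := by
    rw [kw1_val]; ring
  generalize -kw1.v w x = z at hz ⊢
  have ht : w + z = w / 2 - x * G.om w x := by rw [hz]; ring
  have ez := E2_xi1 hx hx1 hw hw8
  have et := E1_xi1 hx hx1 hw hw8
  have cz := E2_x1m hx hx1 hw hw8
  have ct := E1_x1p hx hx1 hw hw8
  rw [← hz] at ez cz
  rw [← ht] at et ct
  have hX : R_t1b_c1_d_m.XI w z x = G.xi1 (w + z) x := by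
    simp only [RowF.XI, R_t1b_c1_d_m, xi_T1BP1p, zx_val, xi1_val, xi3_val, xiw_val]
    try linarith
  have hU : R_t1b_c1_d_m.U w z x = 0 := by
    simp only [RowF.U, R_t1b_c1_d_m, u_T1BP1pP1ac, xi_T1BP1p, zx_val, xi1_val, xi3_val, xiw_val]
    try linarith
  have hG : R_t1b_c1_d_m.G w z = w + z - w * (1 / 2) := by
    show gf1.v w (w + z) = _
    rw [gf1_val]; ring
  have h12 : R_t1b_c1_d_m.K12 w x = (1 + x * G.lb x) * -G.dt w + G.lb x := by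
    show k12m.v w x = _
    rw [k12m_nk]; unfold nk; ring
  have h23 : R_t1b_c1_d_m.K23 w z x = (1 + x * G.lb x) * -G.k1m z x - G.lb x / 2 := by
    unfold RowF.K23
    rw [hU]
    simp only [R_t1b_c1_d_m, k_P1a_zn_m1_2_o, k_P1a_zn, k_P1a, su_val, sl_val, sbc_val, k1m_val,
    k1p_val, k3m_val, k3p_val, kwu_val, kwl_val]
    rw [nk0_val]
    push_cast
    try ring
  have h13 : R_t1b_c1_d_m.K13 w z x = (1 + x * G.lb x) * G.k1p (w + z) x + G.lb x / 2 := by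
    unfold RowF.K13
    rw [hU]
    simp only [R_t1b_c1_d_m, k1p_tp_1_2_o, k1p_tp, su_val, sl_val, sbc_val, k1m_val, k1p_val,
    k3m_val, k3p_val, kwu_val, kwl_val]
    rw [nk0_val]
    push_cast
    try ring
  have SB := sb_T1 (R := R_t1b_c1_d_m) (c := (1 + x * G.lb x)) (L := G.lb x) hx hx1 hw hw8 hz (by
    ring) rfl rfl w0 hG hX hU h12 h23 h13
  have g23 : R_t1b_c1_d_m.C23 w z x = -(G.xb (w / 2)) := by
    unfold RowF.C23
    rw [hU]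
    simp only [R_t1b_c1_d_m, x1m_zn, x1m_val, x1p_val, x3m_val, x3p_val, xw_val, xwl_val]
    rw [cz]
    try ring
  have g13 : R_t1b_c1_d_m.C13 w z x = G.xa w x - G.xb (w / 2) := by
    unfold RowF.C13
    rw [hU]
    simp only [R_t1b_c1_d_m, x1p_tp, x1m_val, x1p_val, x3m_val, x3p_val, xw_val, xwl_val]
    rw [ct]
    try ring
  have f12 : R_t1b_c1_d_m.C12 w x = G.xa w x := xa_val w x
  obtain ⟨a1, a2⟩ := vb_T1 hx hx1 hw hw8 hz (G.xa w x) (G.xb (w / 2))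
  have hb := vb_ge hx hx1 hw hw1
  have v1 : G.ep x * G.lb x * |M_t1b_c1_d_m.r12.v w x| ≤ R_t1b_c1_d_m.V1 w z x := by
    unfold RowF.V1
    show _ ≤ ml1.v _ _ _ _ _ _ _
    rw [ml1_val, f12, g23, g13, a1]
    exact hb
  have v2 : G.ep x * G.lb x * |M_t1b_c1_d_m.r12.v w x| ≤ R_t1b_c1_d_m.V2 w z x := by
    unfold RowF.V2
    show _ ≤ ml2.v _ _ _ _ _ _ _
    rw [ml2_val, f12, g23, g13, a2]
    exact hb
  have hr : M_t1b_c1_d_m.rt.v (R_t1b_c1_d_m.U w z x) z (w + z) x = 0 := by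
    show zr4.v _ _ _ _ = 0
    simp [zr4]
  exact ⟨SB, v1, v2, hr⟩

theorem cb_t1b_c1_d_n (x : ℝ) : CBase R_t1b_c1_d_n x := by
  have hX : R_t1b_c1_d_n.XI 0 0 x = 0 := by
    simp only [RowF.XI, R_t1b_c1_d_n, xi_T1BP1p, zx_val, xi1_val, xi3_val, xiw_val, add_zero,
    xi1_0, xi3_0, xiw_0, om_0]
    try simp
  have hU : R_t1b_c1_d_n.U 0 0 x = 0 := by
    simp only [RowF.U, R_t1b_c1_d_n, u_T1BP1pP1ac, xi_T1BP1p, zx_val, xi1_val, xi3_val, xiw_val,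
    add_zero, xi1_0, xi3_0, xiw_0, om_0]
    try simp
  have h12 : R_t1b_c1_d_n.K12 0 x = G.lb x := by
    show k12n.v 0 x = _
    rw [k12n_nk, dt_0, gh_0]; unfold nk; ring
  have h13 : R_t1b_c1_d_n.K13 0 0 x = G.lb x * (1 / 2) := by
    unfold RowF.K13
    rw [hU]
    simp only [R_t1b_c1_d_n, k1p_tp_1_2_o, k1p_tp, su_val, sl_val, sbc_val, saw_val, k1m_val,
    k1p_val, k3m_val, k3p_val, kwu_val, kwl_val, add_zero, k1p_0, k1m_0, k3p_0, k3m_0, kwu_0,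
    kwl_0, neg_zero]
    rw [nk0_val]
    push_cast
    try ring
  have h23 : R_t1b_c1_d_n.K23 0 0 x = G.lb x * ((1 / 2) - 1) := by
    unfold RowF.K23
    rw [hU]
    simp only [R_t1b_c1_d_n, k_P1a_zn_m1_2_o, k_P1a_zn, k_P1a, su_val, sl_val, sbc_val, saw_val,
    k1m_val, k1p_val, k3m_val, k3p_val, kwu_val, kwl_val, add_zero, k1p_0, k1m_0, k3p_0, k3m_0,
    kwu_0, kwl_0, neg_zero]
    rw [nk0_val]
    push_cast
    try ring
  have g13 : R_t1b_c1_d_n.C13 0 0 x = 0 := by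
    unfold RowF.C13
    rw [hU]
    simp only [R_t1b_c1_d_n, x1p_tp, x1m_val, x1p_val, x3m_val, x3p_val, xw_val, xwl_val,
    add_zero, x1p_0, x1m_0, x3p_0, x3m_0, xw_0, neg_zero]
    try ring
  have g23 : R_t1b_c1_d_n.C23 0 0 x = 0 := by
    unfold RowF.C23
    rw [hU]
    simp only [R_t1b_c1_d_n, x1m_zn, x1m_val, x1p_val, x3m_val, x3p_val, xw_val, xwl_val,
    add_zero, x1p_0, x1m_0, x3p_0, x3m_0, xw_0, neg_zero]
    try ring
  have f12 : R_t1b_c1_d_n.C12 0 x = 0 := by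
    show xa.v 0 x = 0
    rw [xa_val, xa_0]
  have v1 : R_t1b_c1_d_n.V1 0 0 x = 0 := by
    unfold RowF.V1
    show ml1.v _ _ _ _ _ _ _ = 0
    rw [ml1_val, f12, g23, g13]; ring
  have v2 : R_t1b_c1_d_n.V2 0 0 x = 0 := by
    unfold RowF.V2
    show ml2.v _ _ _ _ _ _ _ = 0
    rw [ml2_val, f12, g23, g13]; ring
  have hG : R_t1b_c1_d_n.G 0 0 = 0 := by
    show gf1.v 0 (0 + 0) = 0
    rw [gf1_val]; ring
  have hK : R_t1b_c1_d_n.K12 0 x + R_t1b_c1_d_n.K23 0 0 x - R_t1b_c1_d_n.K13 0 0 x = 0 := by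
    rw [h12, h23, h13]; ring
  have CB := cb_of (R := R_t1b_c1_d_n) (x := x) (Or.inr (Or.inl rfl)) hG hU hK v1 v2
  exact CB

theorem cb_t1b_c1_d_m (x : ℝ) : CBase R_t1b_c1_d_m x ∧ M_t1b_c1_d_m.r12.v 0 x = 0 ∧
    M_t1b_c1_d_m.rt.v (R_t1b_c1_d_m.U 0 0 x) 0 (0 + 0) x = 0 := by
  have hX : R_t1b_c1_d_m.XI 0 0 x = 0 := by
    simp only [RowF.XI, R_t1b_c1_d_m, xi_T1BP1p, zx_val, xi1_val, xi3_val, xiw_val, add_zero,
    xi1_0, xi3_0, xiw_0, om_0]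
    try simp
  have hU : R_t1b_c1_d_m.U 0 0 x = 0 := by
    simp only [RowF.U, R_t1b_c1_d_m, u_T1BP1pP1ac, xi_T1BP1p, zx_val, xi1_val, xi3_val, xiw_val,
    add_zero, xi1_0, xi3_0, xiw_0, om_0]
    try simp
  have h12 : R_t1b_c1_d_m.K12 0 x = G.lb x := by
    show k12m.v 0 x = _
    rw [k12m_nk, dt_0]; unfold nk; ring
  have h13 : R_t1b_c1_d_m.K13 0 0 x = G.lb x * (1 / 2) := by
    unfold RowF.K13
    rw [hU]
    simp only [R_t1b_c1_d_m, k1p_tp_1_2_o, k1p_tp, su_val, sl_val, sbc_val, saw_val, k1m_val,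
    k1p_val, k3m_val, k3p_val, kwu_val, kwl_val, add_zero, k1p_0, k1m_0, k3p_0, k3m_0, kwu_0,
    kwl_0, neg_zero]
    rw [nk0_val]
    push_cast
    try ring
  have h23 : R_t1b_c1_d_m.K23 0 0 x = G.lb x * ((1 / 2) - 1) := by
    unfold RowF.K23
    rw [hU]
    simp only [R_t1b_c1_d_m, k_P1a_zn_m1_2_o, k_P1a_zn, k_P1a, su_val, sl_val, sbc_val, saw_val,
    k1m_val, k1p_val, k3m_val, k3p_val, kwu_val, kwl_val, add_zero, k1p_0, k1m_0, k3p_0, k3m_0,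
    kwu_0, kwl_0, neg_zero]
    rw [nk0_val]
    push_cast
    try ring
  have g13 : R_t1b_c1_d_m.C13 0 0 x = 0 := by
    unfold RowF.C13
    rw [hU]
    simp only [R_t1b_c1_d_m, x1p_tp, x1m_val, x1p_val, x3m_val, x3p_val, xw_val, xwl_val,
    add_zero, x1p_0, x1m_0, x3p_0, x3m_0, xw_0, neg_zero]
    try ring
  have g23 : R_t1b_c1_d_m.C23 0 0 x = 0 := by
    unfold RowF.C23
    rw [hU]
    simp only [R_t1b_c1_d_m, x1m_zn, x1m_val, x1p_val, x3m_val, x3p_val, xw_val, xwl_val,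
    add_zero, x1p_0, x1m_0, x3p_0, x3m_0, xw_0, neg_zero]
    try ring
  have f12 : R_t1b_c1_d_m.C12 0 x = 0 := by
    show xa.v 0 x = 0
    rw [xa_val, xa_0]
  have v1 : R_t1b_c1_d_m.V1 0 0 x = 0 := by
    unfold RowF.V1
    show ml1.v _ _ _ _ _ _ _ = 0
    rw [ml1_val, f12, g23, g13]; ring
  have v2 : R_t1b_c1_d_m.V2 0 0 x = 0 := by
    unfold RowF.V2
    show ml2.v _ _ _ _ _ _ _ = 0
    rw [ml2_val, f12, g23, g13]; ring
  have hG : R_t1b_c1_d_m.G 0 0 = 0 := by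
    show gf1.v 0 (0 + 0) = 0
    rw [gf1_val]; ring
  have hK : R_t1b_c1_d_m.K12 0 x + R_t1b_c1_d_m.K23 0 0 x - R_t1b_c1_d_m.K13 0 0 x = 0 := by
    rw [h12, h23, h13]; ring
  have CB := cb_of (R := R_t1b_c1_d_m) (x := x) (Or.inr (Or.inl rfl)) hG hU hK v1 v2
  refine ⟨CB, ?_, ?_⟩
  · show r2a.v 0 x = 0
    rw [r2a_val, gh_0, mul_zero]
  · show zr4.v _ _ _ _ = 0
    simp [zr4]

end Pool.Agent.Strip051.LC.E0.Ch
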