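import Pool.Agent.Strip051.LC.E0.Ch.Good

/-! # Small rests: the functions of the chart t1b_c1_u -/

set_option linter.unusedVariables false
set_option linter.unusedSimpArgs false

namespace Pool.Agent.Strip051.LC.E0.Ch

open Pool.Agent.Strip051.PB

theorem g_t1b_c1_u_f {x w z xi xi' : ℝ} (hxi : xi = G.xi1 (w + z) x) (hxi' : xi' = -(x * G.om w
    x) - xi) (D : Dom 6 x w z (1 / 2) xi) (hz : 0 ≤ z) (hl : G.xiw z x ≤ xi') (hb : x * (xi' -
    G.xiw z x) ≤ 3 / 20 * G.dwu z x) (h0 : 0 < w + z) :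
    Good R_t1b_c1_u_f 6 false w z x
      (RowC .far .pp x w z (1 / 2) xi (G.S12 w x) (-G.P2u xi' z x) (G.N1u (w + z) x)) := by
  have hX : R_t1b_c1_u_f.XI w z x = xi := by
    simp only [RowF.XI, R_t1b_c1_u_f, xi_T1BP1p, zx_val, xi1_val, xi3_val, xiw_val]
    linarith
  have hU : R_t1b_c1_u_f.U w z x = xi' - G.xiw z x := by
    simp only [RowF.U, R_t1b_c1_u_f, u_T1BP1pPWbc, xi_T1BP1p, zx_val, xi1_val, xi3_val, xiw_val]
    linarith
  have hG : R_t1b_c1_u_f.G w z = w + z - w * (1 / 2) := by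
    show gf1.v w (w + z) = _
    rw [gf1_val]; ring
  have hx0 := D.x0
  have hx1 := D.x1
  have e1 := th_PWb (xi := xi') (z := z) (x := x)
  have hu1 : 0 ≤ R_t1b_c1_u_f.U w z x := by
    rw [hU]
    linarith
  have hL0 : 0 < R_t1b_c1_u_f.L w z := by
    show 0 < w + z
    linarith
  have hp : PatF .pp R_t1b_c1_u_f := ⟨rfl, rfl, rfl, rfl⟩
  have hD : Dm R_t1b_c1_u_f 6 false w z x := 
    dm_of (P := .pp) hp hz D (by norm_num) (by norm_num) hG hX hL0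
    (fun _ => hu1)
    (fun e => absurd e Bool.false_ne_true)
  have hn : R_t1b_c1_u_f.K13 w z x = (G.N1u (w + z) x).1 := by
    unfold RowF.K13
    simp only [R_t1b_c1_u_f, k1p_tp]
    rw [k1p_val]; rfl
  have gn : R_t1b_c1_u_f.C13 w z x = (G.N1u (w + z) x).2.1 := by
    unfold RowF.C13
    simp only [R_t1b_c1_u_f, x1p_tp]
    rw [x1p_val]; rfl
  have ht3 : R_t1b_c1_u_f.K23 w z x = (-G.P2u xi' z x).1 := by
    unfold RowF.K23
    rw [hU]
    simp only [R_t1b_c1_u_f, k_PWb_zn]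
    rw [e1]; rfl
  have gt3 : R_t1b_c1_u_f.C23 w z x = (-G.P2u xi' z x).2.1 := by
    unfold RowF.C23
    rw [hU]
    simp only [R_t1b_c1_u_f, xw_zn]
    rw [xw_val]; rfl
  exact far_good hp ⟨rfl, rfl, rfl, rfl⟩ hD hG hX ht3 hn gt3 gn

theorem g_t1b_c1_u_n {x w z xi xi' : ℝ} (hxi : xi = G.xi1 (w + z) x) (hxi' : xi' = -(x * G.om w
    x) - xi) (D : Dom 6 x w z (1 / 2) xi) (hz : 0 ≤ z) (hl : G.xiw z x ≤ xi') (hb : x * (xi' -
    G.xiw z x) ≤ 3 / 20 * G.dwu z x) (h0 : 0 < w + z) :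
    Good R_t1b_c1_u_n 6 false w z x
      (RowC .near .pp x w z (1 / 2) xi (G.S12 w x) (-G.P2u xi' z x) (G.N1u (w + z) x)) := by
  have hX : R_t1b_c1_u_n.XI w z x = xi := by
    simp only [RowF.XI, R_t1b_c1_u_n, xi_T1BP1p, zx_val, xi1_val, xi3_val, xiw_val]
    linarith
  have hU : R_t1b_c1_u_n.U w z x = xi' - G.xiw z x := by
    simp only [RowF.U, R_t1b_c1_u_n, u_T1BP1pPWbc, xi_T1BP1p, zx_val, xi1_val, xi3_val, xiw_val]
    linarith
  have hG : R_t1b_c1_u_n.G w z = w + z - w * (1 / 2) := by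
    show gf1.v w (w + z) = _
    rw [gf1_val]; ring
  have hx0 := D.x0
  have hx1 := D.x1
  have e1 := th_PWb (xi := xi') (z := z) (x := x)
  have hu1 : 0 ≤ R_t1b_c1_u_n.U w z x := by
    rw [hU]
    linarith
  have hL0 : 0 < R_t1b_c1_u_n.L w z := by
    show 0 < w + z
    linarith
  have hp : PatF .pp R_t1b_c1_u_n := ⟨rfl, rfl, rfl, rfl⟩
  have hD : Dm R_t1b_c1_u_n 6 false w z x := 
    dm_of (P := .pp) hp hz D (by norm_num) (by norm_num) hG hX hL0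
    (fun _ => hu1)
    (fun e => absurd e Bool.false_ne_true)
  have hn : R_t1b_c1_u_n.K13 w z x = nk x (G.N1u (w + z) x).1 (1 / 2) 0 := by
    unfold RowF.K13
    simp only [R_t1b_c1_u_n, k1p_tp_1_2_o, k1p_tp]
    rw [k1p_val]; exact nk0_nk _ _ (by push_cast; norm_num)
  have gn : R_t1b_c1_u_n.C13 w z x = (G.N1u (w + z) x).2.1 := by
    unfold RowF.C13
    simp only [R_t1b_c1_u_n, x1p_tp]
    rw [x1p_val]; rfl
  have ht3 : R_t1b_c1_u_n.K23 w z x = nk x (-G.P2u xi' z x).1 ((1 / 2) - 1) (-G.P2u xi' z x).2.2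
    := by
    unfold RowF.K23
    rw [hU]
    simp only [R_t1b_c1_u_n, k_PWb_zn_m1_2_i, k_PWb_zn, r2u_zn]
    rw [e1, r2u_val]; exact nkf_nk _ _ _ (by push_cast; norm_num)
  have gt3 : R_t1b_c1_u_n.C23 w z x = (-G.P2u xi' z x).2.1 := by
    unfold RowF.C23
    rw [hU]
    simp only [R_t1b_c1_u_n, xw_zn]
    rw [xw_val]; rfl
  rw [show (0 : ℝ) = (G.N1u (w + z) x).2.2 from rfl] at hn
  exact near_good hp ⟨rfl, rfl, rfl, rfl⟩ hD hG hX ht3 hn gt3 gn

end Pool.Agent.Strip051.LC.E0.Ch
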