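import Pool.Agent.Strip051.LC.E0.Ch.Lu

/-! # Small rests: the lines of the chart t2a_W, far vertex -/

set_option linter.unusedVariables false
set_option linter.unusedSimpArgs false

namespace Pool.Agent.Strip051.LC.E0.Ch

open Pool.Agent.Strip051.PB BaseP

theorem lb_t2a_W_f_0 {x : ℝ} (hx : 0 < x) (hx1 : x ≤ 4 / 125) (t : ℝ) :
    LnB R_t2a_W_f false false false t t (-t) x := by
  have hG : R_t2a_W_f.G t (-t) = t / 2 := by
    show gf2.v t (t + (-t)) = _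
    rw [gf2_val]; ring
  have hX : R_t2a_W_f.XI t (-t) x = 0 := by
    simp only [RowF.XI, R_t2a_W_f, xi_T2AQW, zx_val, xiw_val, G.xiw, add_zero, zero_add,
        add_neg_cancel, neg_neg, neg_zero, mul_zero, zero_mul, sub_zero, zero_sub, om_neg, kwu_0,
        kwl_0, k1p_0, k1m_0, k3p_0, k3m_0, xw_0, xa_0, x1p_0, x1m_0, x3p_0, x3m_0, xi1_0, xi3_0,
        om_0, gh_0]
    try ring
  have hU : R_t2a_W_f.U t (-t) x = 0 := by
    simp only [RowF.U, R_t2a_W_f, u_T2AQWPWbc, xi_T2AQW, xiw_val, zx_val, G.xiw, add_zero,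
        zero_add, add_neg_cancel, neg_neg, neg_zero, mul_zero, zero_mul, sub_zero, zero_sub,
        om_neg, kwu_0, kwl_0, k1p_0, k1m_0, k3p_0, k3m_0, xw_0, xa_0, x1p_0, x1m_0, x3p_0, x3m_0,
        xi1_0, xi3_0, om_0, gh_0]
    try ring
  have h23 : R_t2a_W_f.K23 t (-t) x = -G.kwl (-t) x := by
    unfold RowF.K23
    rw [hU]
    simp only [R_t2a_W_f, kwl_zn, kwl_val, add_zero, zero_add, add_neg_cancel, neg_neg, neg_zero,
        mul_zero, zero_mul, sub_zero, zero_sub, om_neg, kwu_0, kwl_0, k1p_0, k1m_0, k3p_0, k3m_0,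
        xw_0, xa_0, x1p_0, x1m_0, x3p_0, x3m_0, xi1_0, xi3_0, om_0, gh_0]
    try push_cast
    try ring
  have h13 : R_t2a_W_f.K13 t (-t) x = 0 := by
    unfold RowF.K13
    rw [hU]
    simp only [R_t2a_W_f, k_PWb_tn, k_PWb, kwu_val, add_zero, zero_add, add_neg_cancel, neg_neg,
        neg_zero, mul_zero, zero_mul, sub_zero, zero_sub, om_neg, kwu_0, kwl_0, k1p_0, k1m_0,
        k3p_0, k3m_0, xw_0, xa_0, x1p_0, x1m_0, x3p_0, x3m_0, xi1_0, xi3_0, om_0, gh_0]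
    try push_cast
    try ring
  have g23 : R_t2a_W_f.C23 t (-t) x = -G.xw t x := by
    unfold RowF.C23
    rw [hU]
    simp only [R_t2a_W_f, xwl_zn, xwl_val, add_zero, zero_add, add_neg_cancel, neg_neg, neg_zero,
        mul_zero, zero_mul, sub_zero, zero_sub, om_neg, kwu_0, kwl_0, k1p_0, k1m_0, k3p_0, k3m_0,
        xw_0, xa_0, x1p_0, x1m_0, x3p_0, x3m_0, xi1_0, xi3_0, om_0, gh_0]
    try push_cast
    try ring
  have g13 : R_t2a_W_f.C13 t (-t) x = 0 := by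
    unfold RowF.C13
    rw [hU]
    simp only [R_t2a_W_f, xw_tn, xw_val, add_zero, zero_add, add_neg_cancel, neg_neg, neg_zero,
        mul_zero, zero_mul, sub_zero, zero_sub, om_neg, kwu_0, kwl_0, k1p_0, k1m_0, k3p_0, k3m_0,
        xw_0, xa_0, x1p_0, x1m_0, x3p_0, x3m_0, xi1_0, xi3_0, om_0, gh_0]
    try push_cast
    try ring
  exact l3f hx hx1 (P := .pnp) ⟨rfl, rfl, rfl, rfl⟩ nofun ⟨rfl, rfl, rfl, rfl⟩ hG hX h23 h13 g23
      g13

theorem lz_t2a_W_f_0 {x : ℝ} (hx : 0 < x) (hx1 : x ≤ 4 / 125) (z : ℝ) :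
    LnB R_t2a_W_f false false false (-z) (-z) z x := by
  have h := lb_t2a_W_f_0 hx hx1 (-z)
  rwa [neg_neg] at h

theorem lb_t2a_W_f_1 {x : ℝ} (hx : 0 < x) (hx1 : x ≤ 4 / 125) (t : ℝ) :
    LnB R_t2a_W_f true true true t t 0 x := by
  have hG : R_t2a_W_f.G t 0 = 3 / 2 * t := by
    show gf2.v t (t + 0) = _
    rw [gf2_val]; ring
  have hX : R_t2a_W_f.XI t 0 x = -(x * G.om t x) := by
    simp only [RowF.XI, R_t2a_W_f, xi_T2AQW, zx_val, xiw_val, G.xiw, add_zero, zero_add,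
        add_neg_cancel, neg_neg, neg_zero, mul_zero, zero_mul, sub_zero, zero_sub, om_neg, kwu_0,
        kwl_0, k1p_0, k1m_0, k3p_0, k3m_0, xw_0, xa_0, x1p_0, x1m_0, x3p_0, x3m_0, xi1_0, xi3_0,
        om_0, gh_0]
    try ring
  have hU : R_t2a_W_f.U t 0 x = 2 * (x * G.om t x) := by
    simp only [RowF.U, R_t2a_W_f, u_T2AQWPWbc, xi_T2AQW, xiw_val, zx_val, G.xiw, add_zero,
        zero_add, add_neg_cancel, neg_neg, neg_zero, mul_zero, zero_mul, sub_zero, zero_sub,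
        om_neg, kwu_0, kwl_0, k1p_0, k1m_0, k3p_0, k3m_0, xw_0, xa_0, x1p_0, x1m_0, x3p_0, x3m_0,
        xi1_0, xi3_0, om_0, gh_0]
    try ring
  have h23 : R_t2a_W_f.K23 t 0 x = 0 := by
    unfold RowF.K23
    rw [hU]
    simp only [R_t2a_W_f, kwl_zn, kwl_val, add_zero, zero_add, add_neg_cancel, neg_neg, neg_zero,
        mul_zero, zero_mul, sub_zero, zero_sub, om_neg, kwu_0, kwl_0, k1p_0, k1m_0, k3p_0, k3m_0,
        xw_0, xa_0, x1p_0, x1m_0, x3p_0, x3m_0, xi1_0, xi3_0, om_0, gh_0]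
    try push_cast
    try ring
  have h13 : R_t2a_W_f.K13 t 0 x = -G.kwu t x - 353 / 250 * (x * G.om t x) := by
    unfold RowF.K13
    rw [hU]
    simp only [R_t2a_W_f, k_PWb_tn, k_PWb, kwu_val, add_zero, zero_add, add_neg_cancel, neg_neg,
        neg_zero, mul_zero, zero_mul, sub_zero, zero_sub, om_neg, kwu_0, kwl_0, k1p_0, k1m_0,
        k3p_0, k3m_0, xw_0, xa_0, x1p_0, x1m_0, x3p_0, x3m_0, xi1_0, xi3_0, om_0, gh_0]
    try push_cast
    try ring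
  have g23 : R_t2a_W_f.C23 t 0 x = 0 := by
    unfold RowF.C23
    rw [hU]
    simp only [R_t2a_W_f, xwl_zn, xwl_val, add_zero, zero_add, add_neg_cancel, neg_neg, neg_zero,
        mul_zero, zero_mul, sub_zero, zero_sub, om_neg, kwu_0, kwl_0, k1p_0, k1m_0, k3p_0, k3m_0,
        xw_0, xa_0, x1p_0, x1m_0, x3p_0, x3m_0, xi1_0, xi3_0, om_0, gh_0]
    try push_cast
    try ring
  have g13 : R_t2a_W_f.C13 t 0 x = -G.xw t x := by
    unfold RowF.C13
    rw [hU]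
    simp only [R_t2a_W_f, xw_tn, xw_val, add_zero, zero_add, add_neg_cancel, neg_neg, neg_zero,
        mul_zero, zero_mul, sub_zero, zero_sub, om_neg, kwu_0, kwl_0, k1p_0, k1m_0, k3p_0, k3m_0,
        xw_0, xa_0, x1p_0, x1m_0, x3p_0, x3m_0, xi1_0, xi3_0, om_0, gh_0]
    try push_cast
    try ring
  exact l8a hx hx1 (P := .pnp) ⟨rfl, rfl, rfl, rfl⟩ nofun ⟨rfl, rfl, rfl, rfl⟩ hG hX h23 h13 g23
      g13

end Pool.Agent.Strip051.LC.E0.Ch
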