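import Pool.Agent.Strip051.LC.E0.Ch.Good

/-! # Small rests: the functions of the chart t2a_c3_dd -/

set_option linter.unusedVariables false
set_option linter.unusedSimpArgs false

namespace Pool.Agent.Strip051.LC.E0.Ch

open Pool.Agent.Strip051.PB

theorem g_t2a_c3_dd_f {x w z xi xi' : ℝ} (hxi' : xi' = G.xi3 z x + x * G.om w x) (hxi : xi =
    -xi') (D : Dom 6 x w z (-(1 / 2)) xi) (ht : w + z ≤ 0) (hl : G.xi1 (w + z) x ≤ xi') (hb : x *
    (xi' - G.xi1 (w + z) x) ≤ 1 / 3 * G.dwl (w + z) x) (h0 : z < 0) :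
    Good R_t2a_c3_dd_f 6 false w z x
      (RowC .far .pnn x w z (-(1 / 2)) xi (G.S12 w x) (-G.N3d z x) (-G.P1d xi' (w + z) x)) := by
  have hX : R_t2a_c3_dd_f.XI w z x = xi := by
    simp only [RowF.XI, R_t2a_c3_dd_f, xi_T2AQ3m, zx_val, xi1_val, xi3_val, xiw_val]
    linarith
  have hU : R_t2a_c3_dd_f.U w z x = xi' - G.xi1 (w + z) x := by
    simp only [RowF.U, R_t2a_c3_dd_f, u_T2AQ3mP1ac, xi_T2AQ3m, zx_val, xi1_val, xi3_val, xiw_val]
    linarith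
  have hG : R_t2a_c3_dd_f.G w z = w + z - w * (-(1 / 2)) := by
    show gf2.v w (w + z) = _
    rw [gf2_val]; ring
  have hx0 := D.x0
  have hx1 := D.x1
  have e1 := th_P1a (xi := xi') (z := (w + z)) (x := x)
  have hu1 : 0 ≤ R_t2a_c3_dd_f.U w z x := by
    rw [hU]
    linarith
  have hL0 : 0 < R_t2a_c3_dd_f.L w z := by
    show 0 < -z
    linarith
  have hp : PatF .pnn R_t2a_c3_dd_f := ⟨rfl, rfl, rfl, rfl⟩
  have hD : Dm R_t2a_c3_dd_f 6 false w z x := 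
    dm_of (P := .pnn) hp ht D (by norm_num) (by norm_num) hG hX hL0
    (fun _ => hu1)
    (fun e => absurd e Bool.false_ne_true)
  have hn : R_t2a_c3_dd_f.K23 w z x = (-G.N3d z x).1 := by
    unfold RowF.K23
    simp only [R_t2a_c3_dd_f, k3m_zn]
    rw [k3m_val]; rfl
  have gn : R_t2a_c3_dd_f.C23 w z x = (-G.N3d z x).2.1 := by
    unfold RowF.C23
    simp only [R_t2a_c3_dd_f, x3m_zn]
    rw [x3m_val]; rfl
  have ht3 : R_t2a_c3_dd_f.K13 w z x = (-G.P1d xi' (w + z) x).1 := by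
    unfold RowF.K13
    rw [hU]
    simp only [R_t2a_c3_dd_f, k_P1a_tn]
    rw [e1]; rfl
  have gt3 : R_t2a_c3_dd_f.C13 w z x = (-G.P1d xi' (w + z) x).2.1 := by
    unfold RowF.C13
    rw [hU]
    simp only [R_t2a_c3_dd_f, x1m_tn]
    rw [x1m_val]; rfl
  exact far_good hp ⟨rfl, rfl, rfl, rfl⟩ hD hG hX hn ht3 gn gt3

theorem g_t2a_c3_dd_n {x w z xi xi' : ℝ} (hxi' : xi' = G.xi3 z x + x * G.om w x) (hxi : xi =
    -xi') (D : Dom 6 x w z (-(1 / 2)) xi) (ht : w + z ≤ 0) (hl : G.xi1 (w + z) x ≤ xi') (hb : x *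
    (xi' - G.xi1 (w + z) x) ≤ 1 / 3 * G.dwl (w + z) x) (h0 : z < 0) :
    Good R_t2a_c3_dd_n 6 false w z x
      (RowC .near .pnn x w z (-(1 / 2)) xi (G.S12 w x) (-G.N3d z x) (-G.P1d xi' (w + z) x)) := by
  have hX : R_t2a_c3_dd_n.XI w z x = xi := by
    simp only [RowF.XI, R_t2a_c3_dd_n, xi_T2AQ3m, zx_val, xi1_val, xi3_val, xiw_val]
    linarith
  have hU : R_t2a_c3_dd_n.U w z x = xi' - G.xi1 (w + z) x := by
    simp only [RowF.U, R_t2a_c3_dd_n, u_T2AQ3mP1ac, xi_T2AQ3m, zx_val, xi1_val, xi3_val, xiw_val]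
    linarith
  have hG : R_t2a_c3_dd_n.G w z = w + z - w * (-(1 / 2)) := by
    show gf2.v w (w + z) = _
    rw [gf2_val]; ring
  have hx0 := D.x0
  have hx1 := D.x1
  have e1 := th_P1a (xi := xi') (z := (w + z)) (x := x)
  have hu1 : 0 ≤ R_t2a_c3_dd_n.U w z x := by
    rw [hU]
    linarith
  have hL0 : 0 < R_t2a_c3_dd_n.L w z := by
    show 0 < -z
    linarith
  have hp : PatF .pnn R_t2a_c3_dd_n := ⟨rfl, rfl, rfl, rfl⟩
  have hD : Dm R_t2a_c3_dd_n 6 false w z x := 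
    dm_of (P := .pnn) hp ht D (by norm_num) (by norm_num) hG hX hL0
    (fun _ => hu1)
    (fun e => absurd e Bool.false_ne_true)
  have hn : R_t2a_c3_dd_n.K23 w z x = nk x (-G.N3d z x).1 ((-(1 / 2)) - 1) 0 := by
    unfold RowF.K23
    simp only [R_t2a_c3_dd_n, k3m_zn_m3_2_o, k3m_zn]
    rw [k3m_val]; exact nk0_nk _ _ (by push_cast; norm_num)
  have gn : R_t2a_c3_dd_n.C23 w z x = (-G.N3d z x).2.1 := by
    unfold RowF.C23
    simp only [R_t2a_c3_dd_n, x3m_zn]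
    rw [x3m_val]; rfl
  have ht3 : R_t2a_c3_dd_n.K13 w z x = nk x (-G.P1d xi' (w + z) x).1 (-(1 / 2)) 0 := by
    unfold RowF.K13
    rw [hU]
    simp only [R_t2a_c3_dd_n, k_P1a_tn_m1_2_o, k_P1a_tn]
    rw [e1]; exact nk0_nk _ _ (by push_cast; norm_num)
  have gt3 : R_t2a_c3_dd_n.C13 w z x = (-G.P1d xi' (w + z) x).2.1 := by
    unfold RowF.C13
    rw [hU]
    simp only [R_t2a_c3_dd_n, x1m_tn]
    rw [x1m_val]; rfl
  rw [show (0 : ℝ) = (-G.N3d z x).2.2 from neg_zero.symm] at hn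
  rw [show (0 : ℝ) = (-G.P1d xi' (w + z) x).2.2 from neg_zero.symm] at ht3
  exact near_good hp ⟨rfl, rfl, rfl, rfl⟩ hD hG hX hn ht3 gn gt3

theorem g_t2a_c3_dd_m {x w z xi xi' : ℝ} (hxi' : xi' = G.xi3 z x + x * G.om w x) (hxi : xi =
    -xi') (D : Dom 6 x w z (-(1 / 2)) xi) (ht : w + z ≤ 0) (hl : G.xi1 (w + z) x ≤ xi') (hb : x *
    (xi' - G.xi1 (w + z) x) ≤ 1 / 3 * G.dwl (w + z) x) (h0 : z < 0) :
    GoodM R_t2a_c3_dd_m M_t2a_c3_dd_m 6 false w z x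
      (RowC .near .pnn x w z (-(1 / 2)) xi (G.S12 w x) (-G.N3d z x) (-G.P1d xi' (w + z) x)) := by
  have hX : R_t2a_c3_dd_m.XI w z x = xi := by
    simp only [RowF.XI, R_t2a_c3_dd_m, xi_T2AQ3m, zx_val, xi1_val, xi3_val, xiw_val]
    linarith
  have hU : R_t2a_c3_dd_m.U w z x = xi' - G.xi1 (w + z) x := by
    simp only [RowF.U, R_t2a_c3_dd_m, u_T2AQ3mP1ac, xi_T2AQ3m, zx_val, xi1_val, xi3_val, xiw_val]
    linarith
  have hG : R_t2a_c3_dd_m.G w z = w + z - w * (-(1 / 2)) := by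
    show gf2.v w (w + z) = _
    rw [gf2_val]; ring
  have hx0 := D.x0
  have hx1 := D.x1
  have e1 := th_P1a (xi := xi') (z := (w + z)) (x := x)
  have hu1 : 0 ≤ R_t2a_c3_dd_m.U w z x := by
    rw [hU]
    linarith
  have hL0 : 0 < R_t2a_c3_dd_m.L w z := by
    show 0 < -z
    linarith
  have hp : PatF .pnn R_t2a_c3_dd_m := ⟨rfl, rfl, rfl, rfl⟩
  have hD : Dm R_t2a_c3_dd_m 6 false w z x := 
    dm_of (P := .pnn) hp ht D (by norm_num) (by norm_num) hG hX hL0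
    (fun _ => hu1)
    (fun e => absurd e Bool.false_ne_true)
  have hn : R_t2a_c3_dd_m.K23 w z x = nk x (-G.N3d z x).1 ((-(1 / 2)) - 1) 0 := by
    unfold RowF.K23
    simp only [R_t2a_c3_dd_m, k3m_zn_m3_2_o, k3m_zn]
    rw [k3m_val]; exact nk0_nk _ _ (by push_cast; norm_num)
  have gn : R_t2a_c3_dd_m.C23 w z x = (-G.N3d z x).2.1 := by
    unfold RowF.C23
    simp only [R_t2a_c3_dd_m, x3m_zn]
    rw [x3m_val]; rfl
  have ht3 : R_t2a_c3_dd_m.K13 w z x = nk x (-G.P1d xi' (w + z) x).1 (-(1 / 2)) 0 := by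
    unfold RowF.K13
    rw [hU]
    simp only [R_t2a_c3_dd_m, k_P1a_tn_m1_2_o, k_P1a_tn]
    rw [e1]; exact nk0_nk _ _ (by push_cast; norm_num)
  have gt3 : R_t2a_c3_dd_m.C13 w z x = (-G.P1d xi' (w + z) x).2.1 := by
    unfold RowF.C13
    rw [hU]
    simp only [R_t2a_c3_dd_m, x1m_tn]
    rw [x1m_val]; rfl
  have hr4 : |M_t2a_c3_dd_m.rt.v (R_t2a_c3_dd_m.U w z x) z (w + z) x| = |(-G.N3d z x).2.2| +
    |(-G.P1d xi' (w + z) x).2.2| := by
    rw [show |(-G.N3d z x).2.2| = 0 by rw [show (-G.N3d z x).2.2 = 0 from neg_zero, abs_zero],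
    show |(-G.P1d xi' (w + z) x).2.2| = 0 by rw [show (-G.P1d xi' (w + z) x).2.2 = 0 from
    neg_zero, abs_zero]]
    show |zr4.v _ _ _ _| = _
    simp [zr4]
  exact near_goodM hp ⟨rfl, rfl, rfl, rfl⟩ rfl hD hG hX hn ht3 gn gt3 hr4

end Pool.Agent.Strip051.LC.E0.Ch
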