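import Pool.Agent.Strip051.LC.E0.Ch.Pt
import Pool.Agent.Strip051.LC.E0.Ch.L_t2a_c3_dd
import Pool.Agent.Strip051.LC.E0.Ch.B_t2a_c3_dd
import Pool.Agent.Strip051.LC.E0.Ch.Cert.X_t2a_c3_dd_n_M
import Pool.Agent.Strip051.LC.E0.Ch.Cert.X_t2a_c3_dd_n_C
import Pool.Agent.Strip051.LC.E0.Ch.Cert.X_t2a_c3_dd_n_G

/-! # Small rests: the chart t2a_c3_dd, near vertex -/

set_option linter.unusedVariables false
set_option linter.unusedSimpArgs false

namespace Pool.Agent.Strip051.LC.E0.Ch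

open Pool.Agent.Strip051.PB BaseP

theorem r_t2a_c3_dd_n {x w z xi xi' : ℝ} (hxi' : xi' = G.xi3 z x + x * G.om w x) (hxi : xi =
    -xi') (D : Dom 6 x w z (-(1 / 2)) xi) (ht : w + z ≤ 0) (hl : G.xi1 (w + z) x ≤ xi') (hb : x *
    (xi' - G.xi1 (w + z) x) ≤ 1 / 3 * G.dwl (w + z) x) (h0 : z < 0) :
    RowC .near .pnn x w z (-(1 / 2)) xi (G.S12 w x) (-G.N3d z x) (-G.P1d xi' (w + z) x) := by
  have hx := D.x0
  have hx1 := D.x1
  have hw := D.w0
  have hw1 := D.w1
  have hz0 := D.z0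
  have hz1 := D.z1
  have hu0 := D.u0
  have hu1 := D.u1
  have g := g_t2a_c3_dd_n hxi' hxi D ht hl hb h0
  have hv0 := V2 hx hx1 hw (by linarith) (by linarith) D.xz D.xu (by linarith)
  have hv4 := V4 hx hx1 hw hw1
  have hv : 0 ≤ z + kw2.v w x := by
    rw [kw2_val]
    linarith
  have hv2 : z + kw2.v w x ≤ (7 / 2) := by
    rw [kw2_val]
    linarith
  have w0 : w ≠ 0 := by
    intro h
    rw [h, om_0] at hv0
    linarith
  have gm := g_t2a_c3_dd_m hxi' hxi D ht hl hb h0
  obtain ⟨SB, b1, b2, hrz⟩ := sb_t2a_c3_dd_m hx hx1 hw hw1 w0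
  have hG : R_t2a_c3_dd_m.G w z = R_t2a_c3_dd_m.G w (-kw2.v w x) + (z + kw2.v w x) := by
    show gf2.v w (w + z) = gf2.v w (w + -kw2.v w x) + _
    rw [gf2_val, gf2_val]; ring
  rcases le_or_gt (w) (1 / 4) with hc | hc
  · have hwq : w ≤ 1 / 4 := by linarith
    have hom := om_sm hx hx1 hw hwq
    have hom0 := om_nn hx hw
    have hvq : z + kw2.v w x ≤ 1 / 4 := by
      rw [kw2_val]
      linarith
    have hgp : 0 ≤ R_t2a_c3_dd_m.GP w z x := by
      refine tree_pt x_t2a_c3_dd_n_G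
        (blo (m := 0) hw (by unfold S; norm_num))
        (bhi (m := (1 / 4)) hwq (by unfold S; norm_num))
        (blo (m := 0) hv (by unfold S; norm_num))
        (bhi (m := (1 / 4)) hvq (by unfold S; norm_num))
        (blo (m := 0) D.x0.le (by unfold S; norm_num))
        (bhi (m := (4 / 125)) D.x1 (by unfold S; norm_num)) ?_
      intro E h A B X hA hB hX ht
      have := gpT_sound hA hB hX hv SB ht
      rwa [show z + kw2.v w x - kw2.v w x = z by ring] at this
    have hN : 0 < w := (lt_of_le_of_ne hw w0.symm)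
    have hp0 : (1 : ℝ) ≤ -z / w := by
      rw [le_div_iff₀ hN]
      linarith
    have hp1 : -z / w ≤ (38 / 25) := by
      rw [div_le_iff₀ hN]
      linarith
    have hpe : w * (-z / w) = -z := mul_div_cancel₀ (-z) hN.ne'
    have hzz : z = -(w * (-z / w)) := by
      linear_combination hpe
    obtain ⟨CBm, r1, r2⟩ := cb_t2a_c3_dd_m x
    exact tree_pt x_t2a_c3_dd_n_C
      (blo (m := 0) hN.le (by unfold S; norm_num))
      (bhi (m := (1 / 4)) hc (by unfold S; norm_num))
      (blo (m := 1) hp0 (by unfold S; norm_num))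
      (bhi (m := (38 / 25)) hp1 (by unfold S; norm_num))
      (blo (m := 0) D.x0.le (by unfold S; norm_num))
      (bhi (m := (4 / 125)) D.x1 (by unfold S; norm_num))
      fun hA hB hX h => corT_good hA hB hX hN (cb_t2a_c3_dd_n x) (Or.inr ⟨rfl, rfl, hzz⟩) g (fun
          h1 h2 h3 => conM_good h1 h2 hX hN CBm hgp r1 r2 gm h3) h
  · exact tree_pt x_t2a_c3_dd_n_M
      (blo (m := 0) hw (by unfold S; norm_num))
      (bhi (m := 6) hw1 (by unfold S; norm_num))
      (blo (m := 0) hv (by unfold S; norm_num))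
      (bhi (m := (7 / 2)) hv2 (by unfold S; norm_num))
      (blo (m := 0) D.x0.le (by unfold S; norm_num))
      (bhi (m := (4 / 125)) D.x1 (by unfold S; norm_num))
      fun hA hB hX h => mVn_sound hA hB hX hv g gm SB hG hrz b1 b2 (fun _ => hc) ndec
        (fun _ _ e => nol e) h

end Pool.Agent.Strip051.LC.E0.Ch
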