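import Pool.Agent.Strip051.LC.E0.Ch.Sb

/-! # Small rests: the base points of the chart t2a_c3_u1 -/

set_option linter.unusedVariables false
set_option linter.unusedSimpArgs false

namespace Pool.Agent.Strip051.LC.E0.Ch

open Pool.Agent.Strip051.PB BaseP

theorem cb_t2a_c3_u1_f (x : ℝ) : CBase R_t2a_c3_u1_f x := by
  have hX : R_t2a_c3_u1_f.XI 0 0 x = 0 := by
    simp only [RowF.XI, R_t2a_c3_u1_f, xi_T2AQ3p, zx_val, xi1_val, xi3_val, xiw_val, add_zero,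
    xi1_0, xi3_0, xiw_0, om_0]
    try simp
  have hU : R_t2a_c3_u1_f.U 0 0 x = 0 := by
    simp only [RowF.U, R_t2a_c3_u1_f, u_T2AQ3pP1Wc, xi_T2AQ3p, zx_val, xi1_val, xi3_val, xiw_val,
    add_zero, xi1_0, xi3_0, xiw_0, om_0]
    try simp
  have h12 : R_t2a_c3_u1_f.K12 0 x = 0 := by
    show ka.v 0 x = _
    rw [ka_val, dt_0, neg_zero]
  have h23 : R_t2a_c3_u1_f.K23 0 0 x = 0 := by
    unfold RowF.K23
    rw [hU]
    simp only [R_t2a_c3_u1_f, k3p_zn, su_val, sl_val, sbc_val, saw_val, k1m_val, k1p_val,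
    k3m_val, k3p_val, kwu_val, kwl_val, add_zero, k1p_0, k1m_0, k3p_0, k3m_0, kwu_0, kwl_0,
    neg_zero]
    try ring
  have h13 : R_t2a_c3_u1_f.K13 0 0 x = 0 := by
    unfold RowF.K13
    rw [hU]
    simp only [R_t2a_c3_u1_f, k_P1Wc_tn, k_P1Wc, su_val, sl_val, sbc_val, saw_val, k1m_val,
    k1p_val, k3m_val, k3p_val, kwu_val, kwl_val, add_zero, k1p_0, k1m_0, k3p_0, k3m_0, kwu_0,
    kwl_0, neg_zero]
    try ring
  have g23 : R_t2a_c3_u1_f.C23 0 0 x = 0 := by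
    unfold RowF.C23
    rw [hU]
    simp only [R_t2a_c3_u1_f, x3p_zn, x1m_val, x1p_val, x3m_val, x3p_val, xw_val, xwl_val,
    add_zero, x1p_0, x1m_0, x3p_0, x3m_0, xw_0, neg_zero]
    try ring
  have g13 : R_t2a_c3_u1_f.C13 0 0 x = 0 := by
    unfold RowF.C13
    rw [hU]
    simp only [R_t2a_c3_u1_f, c_P1Wc_tn, c_P1Wc, x1m_val, x1p_val, x3m_val, x3p_val, xw_val,
    xwl_val, add_zero, x1p_0, x1m_0, x3p_0, x3m_0, xw_0, neg_zero]
    try ring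
  have f12 : R_t2a_c3_u1_f.C12 0 x = 0 := by
    show xa.v 0 x = 0
    rw [xa_val, xa_0]
  have v1 : R_t2a_c3_u1_f.V1 0 0 x = 0 := by
    unfold RowF.V1
    show vf1.v _ _ _ _ _ _ _ = 0
    rw [vf1_val, f12, g23, g13]; ring
  have v2 : R_t2a_c3_u1_f.V2 0 0 x = 0 := by
    unfold RowF.V2
    show vf2.v _ _ _ _ _ _ _ = 0
    rw [vf2_val, f12, g23, g13]; ring
  have hG : R_t2a_c3_u1_f.G 0 0 = 0 := by
    show gf2.v 0 (0 + 0) = 0
    rw [gf2_val]; ring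
  have hK : R_t2a_c3_u1_f.K12 0 x + R_t2a_c3_u1_f.K23 0 0 x - R_t2a_c3_u1_f.K13 0 0 x = 0 := by
    rw [h12, h23, h13]; ring
  have CB := cb_of (R := R_t2a_c3_u1_f) (x := x) (Or.inl rfl) hG hU hK v1 v2
  exact CB

theorem cb_t2a_c3_u1_n (x : ℝ) : CBase R_t2a_c3_u1_n x := by
  have hX : R_t2a_c3_u1_n.XI 0 0 x = 0 := by
    simp only [RowF.XI, R_t2a_c3_u1_n, xi_T2AQ3p, zx_val, xi1_val, xi3_val, xiw_val, add_zero,
    xi1_0, xi3_0, xiw_0, om_0]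
    try simp
  have hU : R_t2a_c3_u1_n.U 0 0 x = 0 := by
    simp only [RowF.U, R_t2a_c3_u1_n, u_T2AQ3pP1Wc, xi_T2AQ3p, zx_val, xi1_val, xi3_val, xiw_val,
    add_zero, xi1_0, xi3_0, xiw_0, om_0]
    try simp
  have h12 : R_t2a_c3_u1_n.K12 0 x = G.lb x := by
    show k12n.v 0 x = _
    rw [k12n_nk, dt_0, gh_0]; unfold nk; ring
  have h23 : R_t2a_c3_u1_n.K23 0 0 x = G.lb x * ((-(1 / 2)) - 1) := by
    unfold RowF.K23
    rw [hU]
    simp only [R_t2a_c3_u1_n, k3p_zn_m3_2_o, k3p_zn, su_val, sl_val, sbc_val, saw_val, k1m_val,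
    k1p_val, k3m_val, k3p_val, kwu_val, kwl_val, add_zero, k1p_0, k1m_0, k3p_0, k3m_0, kwu_0,
    kwl_0, neg_zero]
    rw [nk0_val]
    push_cast
    try ring
  have h13 : R_t2a_c3_u1_n.K13 0 0 x = G.lb x * (-(1 / 2)) := by
    unfold RowF.K13
    rw [hU]
    simp only [R_t2a_c3_u1_n, k_P1Wc_tn_m1_2_i, k_P1Wc_tn, k_P1Wc, r_P1Wc_tn, r_P1Wc, su_val,
    sl_val, sbc_val, saw_val, k1m_val, k1p_val, k3m_val, k3p_val, kwu_val, kwl_val, r2u_val,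
    r2l_val, rwu_val, rwl_val, add_zero, k1p_0, k1m_0, k3p_0, k3m_0, kwu_0, kwl_0, gh_0, neg_zero]
    rw [nkf_val]
    push_cast
    try ring
  have g23 : R_t2a_c3_u1_n.C23 0 0 x = 0 := by
    unfold RowF.C23
    rw [hU]
    simp only [R_t2a_c3_u1_n, x3p_zn, x1m_val, x1p_val, x3m_val, x3p_val, xw_val, xwl_val,
    add_zero, x1p_0, x1m_0, x3p_0, x3m_0, xw_0, neg_zero]
    try ring
  have g13 : R_t2a_c3_u1_n.C13 0 0 x = 0 := by
    unfold RowF.C13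
    rw [hU]
    simp only [R_t2a_c3_u1_n, c_P1Wc_tn, c_P1Wc, x1m_val, x1p_val, x3m_val, x3p_val, xw_val,
    xwl_val, add_zero, x1p_0, x1m_0, x3p_0, x3m_0, xw_0, neg_zero]
    try ring
  have f12 : R_t2a_c3_u1_n.C12 0 x = 0 := by
    show xa.v 0 x = 0
    rw [xa_val, xa_0]
  have v1 : R_t2a_c3_u1_n.V1 0 0 x = 0 := by
    unfold RowF.V1
    show ml1.v _ _ _ _ _ _ _ = 0
    rw [ml1_val, f12, g23, g13]; ring
  have v2 : R_t2a_c3_u1_n.V2 0 0 x = 0 := by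
    unfold RowF.V2
    show ml2.v _ _ _ _ _ _ _ = 0
    rw [ml2_val, f12, g23, g13]; ring
  have hG : R_t2a_c3_u1_n.G 0 0 = 0 := by
    show gf2.v 0 (0 + 0) = 0
    rw [gf2_val]; ring
  have hK : R_t2a_c3_u1_n.K12 0 x + R_t2a_c3_u1_n.K23 0 0 x - R_t2a_c3_u1_n.K13 0 0 x = 0 := by
    rw [h12, h23, h13]; ring
  have CB := cb_of (R := R_t2a_c3_u1_n) (x := x) (Or.inl rfl) hG hU hK v1 v2
  exact CB

end Pool.Agent.Strip051.LC.E0.Ch
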