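import Pool.Agent.Strip051.LC.E0.Ch.Pt
import Pool.Agent.Strip051.LC.E0.Ch.L_t2b_W_d
import Pool.Agent.Strip051.LC.E0.Ch.B_t2b_W_d
import Pool.Agent.Strip051.LC.E0.Ch.Cert.X_t2b_W_d_f_M
import Pool.Agent.Strip051.LC.E0.Ch.Cert.X_t2b_W_d_f_C
import Pool.Agent.Strip051.LC.E0.Ch.Ln_t2b_W_d_f

/-! # Small rests: the chart t2b_W_d, far vertex -/

set_option linter.unusedVariables false
set_option linter.unusedSimpArgs false

namespace Pool.Agent.Strip051.LC.E0.Ch

open Pool.Agent.Strip051.PB BaseP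

theorem r_t2b_W_d_f {x w z xi xi' : ℝ} (hxi : xi = -G.xiw (w + z) x) (hxi' : xi' = -(x * G.om w
    x) - xi) (D : Dom 8 x w z (-(1 / 2)) xi) (hz : z ≤ 0) (ht : 0 ≤ w + z) (hb : x * (G.xiw z x -
    xi') ≤ 2 / 3 * G.dwl z x) (hr : xi' ≤ G.xiw z x) (h0 : 0 < w) :
    RowC .far .pnp x w z (-(1 / 2)) xi (G.S12 w x) (-G.P2d xi' z x) (-G.NWu (w + z) x) := by
  have hx := D.x0
  have hx1 := D.x1
  have hw := D.w0
  have hw1 := D.w1
  have hz0 := D.z0
  have hz1 := D.z1
  have hu0 := D.u0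
  have hu1 := D.u1
  have g := g_t2b_W_d_f hxi hxi' D hz ht hb hr h0
  rcases le_or_gt (w) (1 / 4) with hc | hc
  · have hN : 0 < w := h0
    have hp0 : (0 : ℝ) ≤ -z / w := by
      rw [le_div_iff₀ hN]
      linarith
    have hp1 : -z / w ≤ 1 := by
      rw [div_le_iff₀ hN]
      linarith
    have hpe : w * (-z / w) = -z := mul_div_cancel₀ (-z) hN.ne'
    have hzz : z = -(w * (-z / w)) := by
      linear_combination hpe
    exact tree_pt x_t2b_W_d_f_C
      (blo (m := 0) hN.le (by unfold S; norm_num))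
      (bhi (m := (1 / 4)) hc (by unfold S; norm_num))
      (blo (m := 0) hp0 (by unfold S; norm_num))
      (bhi (m := 1) hp1 (by unfold S; norm_num))
      (blo (m := 0) D.x0.le (by unfold S; norm_num))
      (bhi (m := (4 / 125)) D.x1 (by unfold S; norm_num))
      fun hA hB hX h => corT_good hA hB hX hN (cb_t2b_W_d_f x) (Or.inr ⟨rfl, rfl, hzz⟩) g (fun _
          _ e => noc e) h
  · exact tree_pt x_t2b_W_d_f_M
      (blo (m := 0) hw (by unfold S; norm_num))
      (bhi (m := 8) hw1 (by unfold S; norm_num))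
      (blo (m := 0) ht (by unfold S; norm_num))
      (bhi (m := 8) hu1 (by unfold S; norm_num))
      (blo (m := 0) D.x0.le (by unfold S; norm_num))
      (bhi (m := (4 / 125)) D.x1 (by unfold S; norm_num))
      fun hA hB hX h => mU_sound hA hB hX g (fun _ => hc) ndec
        (fun hZ k e => twoL_sound (fun j e => lM3p_sound hA hZ hX ht (g_t2b_W_d_f hxi hxi' D hz
            ht hb hr h0) (fun _ => hu_t2b_W_d_f_0 w z x) (lz_t2b_W_d_f_0 D.x0 D.x1 z) rfl (show
            (w + z : ℝ) + -z = w by ring) (show w = -z + (w + z) by ring) e) (fun j e =>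
            lM1n_sound hA hZ hX hz (g_t2b_W_d_f hxi hxi' D hz ht hb hr h0) (fun e => absurd e
            Bool.false_ne_true) (lb_t2b_W_d_f_1 D.x0 D.x1 w) rfl (show (w + z : ℝ) + -z = w by
            ring) rfl e) e) h

end Pool.Agent.Strip051.LC.E0.Ch
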