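import Pool.Agent.Strip051.LC.E0.Ch.Good

/-! # Small rests: the functions of the chart t2b_c1_dd -/

set_option linter.unusedVariables false
set_option linter.unusedSimpArgs false

namespace Pool.Agent.Strip051.LC.E0.Ch

open Pool.Agent.Strip051.PB

theorem g_t2b_c1_dd_f {x w z xi xi' : ℝ} (hxi : xi = -G.xi1 (w + z) x) (hxi' : xi' = -(x * G.om w
    x) - xi) (D : Dom 6 x w z (-(1 / 2)) xi) (ht : w + z ≤ 0) (hl : G.xiw z x ≤ xi') (hr : xi' ≤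
    G.xi3 z x) (h0 : z < 0) :
    Good R_t2b_c1_dd_f 6 false w z x
      (RowC .far .pnn x w z (-(1 / 2)) xi (G.S12 w x) (-G.P3d xi' z x) (-G.N1d (w + z) x)) := by
  have hX : R_t2b_c1_dd_f.XI w z x = xi := by
    simp only [RowF.XI, R_t2b_c1_dd_f, xi_T2BP1m, zx_val, xi1_val, xi3_val, xiw_val]
    linarith
  have hU : R_t2b_c1_dd_f.U w z x = G.xi3 z x - xi' := by
    simp only [RowF.U, R_t2b_c1_dd_f, u_T2BP1mQW3c, xi_T2BP1m, zx_val, xi1_val, xi3_val, xiw_val]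
    linarith
  have hG : R_t2b_c1_dd_f.G w z = w + z - w * (-(1 / 2)) := by
    show gf2.v w (w + z) = _
    rw [gf2_val]; ring
  have hx0 := D.x0
  have hx1 := D.x1
  have h0t : z ≤ 0 := by
    have := D.w0
    linarith
  have h1t : -z ≤ 10 := by
    have := D.z0
    linarith
  obtain ⟨e1, e2, e3⟩ := th_QW3c D.x0 D.x1 h0t h1t hl hr
  have hu1 : 0 ≤ R_t2b_c1_dd_f.U w z x := by
    rw [hU]
    linarith
  have hL0 : 0 < R_t2b_c1_dd_f.L w z := by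
    show 0 < -z
    linarith
  have hp : PatF .pnn R_t2b_c1_dd_f := ⟨rfl, rfl, rfl, rfl⟩
  have hD : Dm R_t2b_c1_dd_f 6 false w z x := 
    dm_of (P := .pnn) hp ht D (by norm_num) (by norm_num) hG hX hL0
    (fun _ => hu1)
    (fun e => absurd e Bool.false_ne_true)
  have hn : R_t2b_c1_dd_f.K13 w z x = (-G.N1d (w + z) x).1 := by
    unfold RowF.K13
    simp only [R_t2b_c1_dd_f, k1m_tn]
    rw [k1m_val]; rfl
  have gn : R_t2b_c1_dd_f.C13 w z x = (-G.N1d (w + z) x).2.1 := by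
    unfold RowF.C13
    simp only [R_t2b_c1_dd_f, x1m_tn]
    rw [x1m_val]; rfl
  have ht3 : R_t2b_c1_dd_f.K23 w z x = (-G.P3d xi' z x).1 := by
    unfold RowF.K23
    rw [hU]
    simp only [R_t2b_c1_dd_f, k_QW3c_zn]
    rw [e1]; rfl
  have gt3 : R_t2b_c1_dd_f.C23 w z x = (-G.P3d xi' z x).2.1 := by
    unfold RowF.C23
    rw [hU]
    simp only [R_t2b_c1_dd_f, c_QW3c_zn]
    rw [e2]; rfl
  exact far_good hp ⟨rfl, rfl, rfl, rfl⟩ hD hG hX ht3 hn gt3 gn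

theorem g_t2b_c1_dd_fw {x w z xi xi' : ℝ} (hxi : xi = -G.xi1 (w + z) x) (hxi' : xi' = -(x * G.om
    w x) - xi) (D : Dom 6 x w z (-(1 / 2)) xi) (ht : w + z ≤ 0) (hl : G.xiw z x ≤ xi') (hr : xi'
    ≤ G.xi3 z x) (h0 : z < 0) :
    Good R_t2b_c1_dd_fw 6 false w z x
      (RowC .far .pnn x w z (-(1 / 2)) xi (G.S12 w x) (-G.P3d xi' z x) (-G.N1d (w + z) x)) := by
  have hX : R_t2b_c1_dd_fw.XI w z x = xi := by
    simp only [RowF.XI, R_t2b_c1_dd_fw, xi_T2BP1m, zx_val, xi1_val, xi3_val, xiw_val]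
    linarith
  have hU : R_t2b_c1_dd_fw.U w z x = xi' - G.xiw z x := by
    simp only [RowF.U, R_t2b_c1_dd_fw, u_T2BP1mQW3w, xi_T2BP1m, zx_val, xi1_val, xi3_val, xiw_val]
    linarith
  have hG : R_t2b_c1_dd_fw.G w z = w + z - w * (-(1 / 2)) := by
    show gf2.v w (w + z) = _
    rw [gf2_val]; ring
  have hx0 := D.x0
  have hx1 := D.x1
  have h0t : z ≤ 0 := by
    have := D.w0
    linarith
  have h1t : -z ≤ 10 := by
    have := D.z0
    linarith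
  obtain ⟨e1, e2, e3⟩ := th_QW3w D.x0 D.x1 h0t h1t hl hr
  have hu1 : 0 ≤ R_t2b_c1_dd_fw.U w z x := by
    rw [hU]
    linarith
  have hL0 : 0 < R_t2b_c1_dd_fw.L w z := by
    show 0 < -z
    linarith
  have hp : PatF .pnn R_t2b_c1_dd_fw := ⟨rfl, rfl, rfl, rfl⟩
  have hD : Dm R_t2b_c1_dd_fw 6 false w z x := 
    dm_of (P := .pnn) hp ht D (by norm_num) (by norm_num) hG hX hL0
    (fun _ => hu1)
    (fun e => absurd e Bool.false_ne_true)
  have hn : R_t2b_c1_dd_fw.K13 w z x = (-G.N1d (w + z) x).1 := by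
    unfold RowF.K13
    simp only [R_t2b_c1_dd_fw, k1m_tn]
    rw [k1m_val]; rfl
  have gn : R_t2b_c1_dd_fw.C13 w z x = (-G.N1d (w + z) x).2.1 := by
    unfold RowF.C13
    simp only [R_t2b_c1_dd_fw, x1m_tn]
    rw [x1m_val]; rfl
  have ht3 : R_t2b_c1_dd_fw.K23 w z x = (-G.P3d xi' z x).1 := by
    unfold RowF.K23
    rw [hU]
    simp only [R_t2b_c1_dd_fw, k_QW3w_zn]
    rw [e1]; rfl
  have gt3 : R_t2b_c1_dd_fw.C23 w z x = (-G.P3d xi' z x).2.1 := by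
    unfold RowF.C23
    rw [hU]
    simp only [R_t2b_c1_dd_fw, c_QW3w_zn]
    rw [e2]; rfl
  exact far_good hp ⟨rfl, rfl, rfl, rfl⟩ hD hG hX ht3 hn gt3 gn

theorem g_t2b_c1_dd_n {x w z xi xi' : ℝ} (hxi : xi = -G.xi1 (w + z) x) (hxi' : xi' = -(x * G.om w
    x) - xi) (D : Dom 6 x w z (-(1 / 2)) xi) (ht : w + z ≤ 0) (hl : G.xiw z x ≤ xi') (hr : xi' ≤
    G.xi3 z x) (h0 : z < 0) :
    Good R_t2b_c1_dd_n 6 false w z x
      (RowC .near .pnn x w z (-(1 / 2)) xi (G.S12 w x) (-G.P3d xi' z x) (-G.N1d (w + z) x)) := by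
  have hX : R_t2b_c1_dd_n.XI w z x = xi := by
    simp only [RowF.XI, R_t2b_c1_dd_n, xi_T2BP1m, zx_val, xi1_val, xi3_val, xiw_val]
    linarith
  have hU : R_t2b_c1_dd_n.U w z x = G.xi3 z x - xi' := by
    simp only [RowF.U, R_t2b_c1_dd_n, u_T2BP1mQW3c, xi_T2BP1m, zx_val, xi1_val, xi3_val, xiw_val]
    linarith
  have hG : R_t2b_c1_dd_n.G w z = w + z - w * (-(1 / 2)) := by
    show gf2.v w (w + z) = _
    rw [gf2_val]; ring
  have hx0 := D.x0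
  have hx1 := D.x1
  have h0t : z ≤ 0 := by
    have := D.w0
    linarith
  have h1t : -z ≤ 10 := by
    have := D.z0
    linarith
  obtain ⟨e1, e2, e3⟩ := th_QW3c D.x0 D.x1 h0t h1t hl hr
  have hu1 : 0 ≤ R_t2b_c1_dd_n.U w z x := by
    rw [hU]
    linarith
  have hL0 : 0 < R_t2b_c1_dd_n.L w z := by
    show 0 < -z
    linarith
  have hp : PatF .pnn R_t2b_c1_dd_n := ⟨rfl, rfl, rfl, rfl⟩
  have hD : Dm R_t2b_c1_dd_n 6 false w z x := 
    dm_of (P := .pnn) hp ht D (by norm_num) (by norm_num) hG hX hL0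
    (fun _ => hu1)
    (fun e => absurd e Bool.false_ne_true)
  have hn : R_t2b_c1_dd_n.K13 w z x = nk x (-G.N1d (w + z) x).1 (-(1 / 2)) 0 := by
    unfold RowF.K13
    simp only [R_t2b_c1_dd_n, k1m_tn_m1_2_o, k1m_tn]
    rw [k1m_val]; exact nk0_nk _ _ (by push_cast; norm_num)
  have gn : R_t2b_c1_dd_n.C13 w z x = (-G.N1d (w + z) x).2.1 := by
    unfold RowF.C13
    simp only [R_t2b_c1_dd_n, x1m_tn]
    rw [x1m_val]; rfl
  have ht3 : R_t2b_c1_dd_n.K23 w z x = nk x (-G.P3d xi' z x).1 ((-(1 / 2)) - 1) (-G.P3d xi' z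
    x).2.2 := by
    unfold RowF.K23
    rw [hU]
    simp only [R_t2b_c1_dd_n, k_QW3c_zn_m3_2_i, k_QW3c_zn, r_QW3c_zn]
    rw [e1, e3]; exact nkf_nk _ _ _ (by push_cast; norm_num)
  have gt3 : R_t2b_c1_dd_n.C23 w z x = (-G.P3d xi' z x).2.1 := by
    unfold RowF.C23
    rw [hU]
    simp only [R_t2b_c1_dd_n, c_QW3c_zn]
    rw [e2]; rfl
  rw [show (0 : ℝ) = (-G.N1d (w + z) x).2.2 from neg_zero.symm] at hn
  exact near_good hp ⟨rfl, rfl, rfl, rfl⟩ hD hG hX ht3 hn gt3 gn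

theorem g_t2b_c1_dd_m {x w z xi xi' : ℝ} (hxi : xi = -G.xi1 (w + z) x) (hxi' : xi' = -(x * G.om w
    x) - xi) (D : Dom 6 x w z (-(1 / 2)) xi) (ht : w + z ≤ 0) (hl : G.xiw z x ≤ xi') (hr : xi' ≤
    G.xi3 z x) (h0 : z < 0) :
    GoodM R_t2b_c1_dd_m M_t2b_c1_dd_m 6 false w z x
      (RowC .near .pnn x w z (-(1 / 2)) xi (G.S12 w x) (-G.P3d xi' z x) (-G.N1d (w + z) x)) := by
  have hX : R_t2b_c1_dd_m.XI w z x = xi := by
    simp only [RowF.XI, R_t2b_c1_dd_m, xi_T2BP1m, zx_val, xi1_val, xi3_val, xiw_val]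
    linarith
  have hU : R_t2b_c1_dd_m.U w z x = G.xi3 z x - xi' := by
    simp only [RowF.U, R_t2b_c1_dd_m, u_T2BP1mQW3c, xi_T2BP1m, zx_val, xi1_val, xi3_val, xiw_val]
    linarith
  have hG : R_t2b_c1_dd_m.G w z = w + z - w * (-(1 / 2)) := by
    show gf2.v w (w + z) = _
    rw [gf2_val]; ring
  have hx0 := D.x0
  have hx1 := D.x1
  have h0t : z ≤ 0 := by
    have := D.w0
    linarith
  have h1t : -z ≤ 10 := by
    have := D.z0
    linarith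
  obtain ⟨e1, e2, e3⟩ := th_QW3c D.x0 D.x1 h0t h1t hl hr
  have hu1 : 0 ≤ R_t2b_c1_dd_m.U w z x := by
    rw [hU]
    linarith
  have hL0 : 0 < R_t2b_c1_dd_m.L w z := by
    show 0 < -z
    linarith
  have hp : PatF .pnn R_t2b_c1_dd_m := ⟨rfl, rfl, rfl, rfl⟩
  have hD : Dm R_t2b_c1_dd_m 6 false w z x := 
    dm_of (P := .pnn) hp ht D (by norm_num) (by norm_num) hG hX hL0
    (fun _ => hu1)
    (fun e => absurd e Bool.false_ne_true)
  have hn : R_t2b_c1_dd_m.K13 w z x = nk x (-G.N1d (w + z) x).1 (-(1 / 2)) 0 := by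
    unfold RowF.K13
    simp only [R_t2b_c1_dd_m, k1m_tn_m1_2_o, k1m_tn]
    rw [k1m_val]; exact nk0_nk _ _ (by push_cast; norm_num)
  have gn : R_t2b_c1_dd_m.C13 w z x = (-G.N1d (w + z) x).2.1 := by
    unfold RowF.C13
    simp only [R_t2b_c1_dd_m, x1m_tn]
    rw [x1m_val]; rfl
  have ht3 : R_t2b_c1_dd_m.K23 w z x = nk x (-G.P3d xi' z x).1 ((-(1 / 2)) - 1) 0 := by
    unfold RowF.K23
    rw [hU]
    simp only [R_t2b_c1_dd_m, k_QW3c_zn_m3_2_o, k_QW3c_zn]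
    rw [e1]; exact nk0_nk _ _ (by push_cast; norm_num)
  have gt3 : R_t2b_c1_dd_m.C23 w z x = (-G.P3d xi' z x).2.1 := by
    unfold RowF.C23
    rw [hU]
    simp only [R_t2b_c1_dd_m, c_QW3c_zn]
    rw [e2]; rfl
  have hr4 : |M_t2b_c1_dd_m.rt.v (R_t2b_c1_dd_m.U w z x) z (w + z) x| = |(-G.P3d xi' z x).2.2| +
    |(-G.N1d (w + z) x).2.2| := by
    rw [show |(-G.N1d (w + z) x).2.2| = 0 by rw [show (-G.N1d (w + z) x).2.2 = 0 from neg_zero,
    abs_zero], add_zero]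
    show |-(r_QW3c.v (R_t2b_c1_dd_m.U w z x) z x)| = _
    rw [hU, e3]; rfl
  exact near_goodM hp ⟨rfl, rfl, rfl, rfl⟩ rfl hD hG hX ht3 hn gt3 gn hr4

theorem g_t2b_c1_dd_nw {x w z xi xi' : ℝ} (hxi : xi = -G.xi1 (w + z) x) (hxi' : xi' = -(x * G.om
    w x) - xi) (D : Dom 6 x w z (-(1 / 2)) xi) (ht : w + z ≤ 0) (hl : G.xiw z x ≤ xi') (hr : xi'
    ≤ G.xi3 z x) (h0 : z < 0) :
    Good R_t2b_c1_dd_nw 6 false w z x
      (RowC .near .pnn x w z (-(1 / 2)) xi (G.S12 w x) (-G.P3d xi' z x) (-G.N1d (w + z) x)) := by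
  have hX : R_t2b_c1_dd_nw.XI w z x = xi := by
    simp only [RowF.XI, R_t2b_c1_dd_nw, xi_T2BP1m, zx_val, xi1_val, xi3_val, xiw_val]
    linarith
  have hU : R_t2b_c1_dd_nw.U w z x = xi' - G.xiw z x := by
    simp only [RowF.U, R_t2b_c1_dd_nw, u_T2BP1mQW3w, xi_T2BP1m, zx_val, xi1_val, xi3_val, xiw_val]
    linarith
  have hG : R_t2b_c1_dd_nw.G w z = w + z - w * (-(1 / 2)) := by
    show gf2.v w (w + z) = _
    rw [gf2_val]; ring
  have hx0 := D.x0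
  have hx1 := D.x1
  have h0t : z ≤ 0 := by
    have := D.w0
    linarith
  have h1t : -z ≤ 10 := by
    have := D.z0
    linarith
  obtain ⟨e1, e2, e3⟩ := th_QW3w D.x0 D.x1 h0t h1t hl hr
  have hu1 : 0 ≤ R_t2b_c1_dd_nw.U w z x := by
    rw [hU]
    linarith
  have hL0 : 0 < R_t2b_c1_dd_nw.L w z := by
    show 0 < -z
    linarith
  have hp : PatF .pnn R_t2b_c1_dd_nw := ⟨rfl, rfl, rfl, rfl⟩
  have hD : Dm R_t2b_c1_dd_nw 6 false w z x := 
    dm_of (P := .pnn) hp ht D (by norm_num) (by norm_num) hG hX hL0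
    (fun _ => hu1)
    (fun e => absurd e Bool.false_ne_true)
  have hn : R_t2b_c1_dd_nw.K13 w z x = nk x (-G.N1d (w + z) x).1 (-(1 / 2)) 0 := by
    unfold RowF.K13
    simp only [R_t2b_c1_dd_nw, k1m_tn_m1_2_o, k1m_tn]
    rw [k1m_val]; exact nk0_nk _ _ (by push_cast; norm_num)
  have gn : R_t2b_c1_dd_nw.C13 w z x = (-G.N1d (w + z) x).2.1 := by
    unfold RowF.C13
    simp only [R_t2b_c1_dd_nw, x1m_tn]
    rw [x1m_val]; rfl
  have ht3 : R_t2b_c1_dd_nw.K23 w z x = nk x (-G.P3d xi' z x).1 ((-(1 / 2)) - 1) (-G.P3d xi' z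
    x).2.2 := by
    unfold RowF.K23
    rw [hU]
    simp only [R_t2b_c1_dd_nw, k_QW3w_zn_m3_2_i, k_QW3w_zn, r_QW3w_zn]
    rw [e1, e3]; exact nkf_nk _ _ _ (by push_cast; norm_num)
  have gt3 : R_t2b_c1_dd_nw.C23 w z x = (-G.P3d xi' z x).2.1 := by
    unfold RowF.C23
    rw [hU]
    simp only [R_t2b_c1_dd_nw, c_QW3w_zn]
    rw [e2]; rfl
  rw [show (0 : ℝ) = (-G.N1d (w + z) x).2.2 from neg_zero.symm] at hn
  exact near_good hp ⟨rfl, rfl, rfl, rfl⟩ hD hG hX ht3 hn gt3 gn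

end Pool.Agent.Strip051.LC.E0.Ch
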