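import Pool.Agent.Strip051.LC.E0.Ch.Good

/-! # Small rests: the functions of the chart t2b_c1_du -/

set_option linter.unusedVariables false
set_option linter.unusedSimpArgs false

namespace Pool.Agent.Strip051.LC.E0.Ch

open Pool.Agent.Strip051.PB

theorem g_t2b_c1_du_f {x w z xi xi' : ℝ} (hxi : xi = -G.xi1 (w + z) x) (hxi' : xi' = -(x * G.om w
    x) - xi) (D : Dom 6 x w z (-(1 / 2)) xi) (hz : z ≤ 0) (ht : 0 ≤ w + z) (hb : x * (G.xiw z x -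
    xi') ≤ 2 / 3 * G.dwl z x) (hr : xi' ≤ G.xiw z x) (h0 : 0 < w) :
    Good R_t2b_c1_du_f 6 true w z x
      (RowC .far .pnp x w z (-(1 / 2)) xi (G.S12 w x) (-G.P2d xi' z x) (-G.N1u (w + z) x)) := by
  have hX : R_t2b_c1_du_f.XI w z x = xi := by
    simp only [RowF.XI, R_t2b_c1_du_f, xi_T2BP1p, zx_val, xi1_val, xi3_val, xiw_val]
    linarith
  have hU : R_t2b_c1_du_f.U w z x = xi' - G.xiw z x := by
    simp only [RowF.U, R_t2b_c1_du_f, u_T2BP1pQaWc, xi_T2BP1p, zx_val, xi1_val, xi3_val, xiw_val]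
    linarith
  have hG : R_t2b_c1_du_f.G w z = w + z - w * (-(1 / 2)) := by
    show gf2.v w (w + z) = _
    rw [gf2_val]; ring
  have hx0 := D.x0
  have hx1 := D.x1
  obtain ⟨e1, e2, e3⟩ := th_QaW (xi := xi') (z := z) (x := x)
  have hu1 : R_t2b_c1_du_f.U w z x ≤ 0 := by
    rw [hU]
    linarith
  have hL0 : 0 < R_t2b_c1_du_f.L w z := by
    show 0 < w
    linarith
  have hp : PatF .pnp R_t2b_c1_du_f := ⟨rfl, rfl, rfl, rfl⟩
  have hD : Dm R_t2b_c1_du_f 6 true w z x := 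
    dm_of (P := .pnp) hp ⟨hz, ht⟩ D (by norm_num) (by norm_num) hG hX hL0
    (fun e => absurd e.symm Bool.false_ne_true)
    (fun _ => hu1)
  have hn : R_t2b_c1_du_f.K13 w z x = (-G.N1u (w + z) x).1 := by
    unfold RowF.K13
    simp only [R_t2b_c1_du_f, k1p_tn]
    rw [k1p_val]; rfl
  have gn : R_t2b_c1_du_f.C13 w z x = (-G.N1u (w + z) x).2.1 := by
    unfold RowF.C13
    simp only [R_t2b_c1_du_f, x1p_tn]
    rw [x1p_val]; rfl
  have ht3 : R_t2b_c1_du_f.K23 w z x = (-G.P2d xi' z x).1 := by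
    unfold RowF.K23
    rw [hU]
    simp only [R_t2b_c1_du_f, k_QaW_zn]
    rw [e1]; rfl
  have gt3 : R_t2b_c1_du_f.C23 w z x = (-G.P2d xi' z x).2.1 := by
    unfold RowF.C23
    rw [hU]
    simp only [R_t2b_c1_du_f, c_QaW_zn]
    rw [e2]; rfl
  exact far_good hp ⟨rfl, rfl, rfl, rfl⟩ hD hG hX ht3 hn gt3 gn

theorem g_t2b_c1_du_n {x w z xi xi' : ℝ} (hxi : xi = -G.xi1 (w + z) x) (hxi' : xi' = -(x * G.om w
    x) - xi) (D : Dom 6 x w z (-(1 / 2)) xi) (hz : z ≤ 0) (ht : 0 ≤ w + z) (hb : x * (G.xiw z x -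
    xi') ≤ 2 / 3 * G.dwl z x) (hr : xi' ≤ G.xiw z x) (h0 : 0 < w) :
    Good R_t2b_c1_du_n 6 true w z x
      (RowC .near .pnp x w z (-(1 / 2)) xi (G.S12 w x) (-G.P2d xi' z x) (-G.N1u (w + z) x)) := by
  have hX : R_t2b_c1_du_n.XI w z x = xi := by
    simp only [RowF.XI, R_t2b_c1_du_n, xi_T2BP1p, zx_val, xi1_val, xi3_val, xiw_val]
    linarith
  have hU : R_t2b_c1_du_n.U w z x = xi' - G.xiw z x := by
    simp only [RowF.U, R_t2b_c1_du_n, u_T2BP1pQaWc, xi_T2BP1p, zx_val, xi1_val, xi3_val, xiw_val]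
    linarith
  have hG : R_t2b_c1_du_n.G w z = w + z - w * (-(1 / 2)) := by
    show gf2.v w (w + z) = _
    rw [gf2_val]; ring
  have hx0 := D.x0
  have hx1 := D.x1
  obtain ⟨e1, e2, e3⟩ := th_QaW (xi := xi') (z := z) (x := x)
  have hu1 : R_t2b_c1_du_n.U w z x ≤ 0 := by
    rw [hU]
    linarith
  have hL0 : 0 < R_t2b_c1_du_n.L w z := by
    show 0 < w
    linarith
  have hp : PatF .pnp R_t2b_c1_du_n := ⟨rfl, rfl, rfl, rfl⟩
  have hD : Dm R_t2b_c1_du_n 6 true w z x := 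
    dm_of (P := .pnp) hp ⟨hz, ht⟩ D (by norm_num) (by norm_num) hG hX hL0
    (fun e => absurd e.symm Bool.false_ne_true)
    (fun _ => hu1)
  have hn : R_t2b_c1_du_n.K13 w z x = nk x (-G.N1u (w + z) x).1 (-(1 / 2)) 0 := by
    unfold RowF.K13
    simp only [R_t2b_c1_du_n, k1p_tn_m1_2_o, k1p_tn]
    rw [k1p_val]; exact nk0_nk _ _ (by push_cast; norm_num)
  have gn : R_t2b_c1_du_n.C13 w z x = (-G.N1u (w + z) x).2.1 := by
    unfold RowF.C13
    simp only [R_t2b_c1_du_n, x1p_tn]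
    rw [x1p_val]; rfl
  have ht3 : R_t2b_c1_du_n.K23 w z x = nk x (-G.P2d xi' z x).1 ((-(1 / 2)) - 1) (-G.P2d xi' z
    x).2.2 := by
    unfold RowF.K23
    rw [hU]
    simp only [R_t2b_c1_du_n, k_QaW_zn_m3_2_i, k_QaW_zn, r_QaW_zn]
    rw [e1, e3]; exact nkf_nk _ _ _ (by push_cast; norm_num)
  have gt3 : R_t2b_c1_du_n.C23 w z x = (-G.P2d xi' z x).2.1 := by
    unfold RowF.C23
    rw [hU]
    simp only [R_t2b_c1_du_n, c_QaW_zn]
    rw [e2]; rfl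
  rw [show (0 : ℝ) = (-G.N1u (w + z) x).2.2 from neg_zero.symm] at hn
  exact near_good hp ⟨rfl, rfl, rfl, rfl⟩ hD hG hX ht3 hn gt3 gn

end Pool.Agent.Strip051.LC.E0.Ch
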