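import Pool.Agent.Strip051.LC.E0.Ch.Pt
import Pool.Agent.Strip051.LC.E0.Ch.L_t3a_c1
import Pool.Agent.Strip051.LC.E0.Ch.B_t3a_c1
import Pool.Agent.Strip051.LC.E0.Ch.Cert.X_t3a_c1_n_M
import Pool.Agent.Strip051.LC.E0.Ch.Cert.X_t3a_c1_n_C
import Pool.Agent.Strip051.LC.E0.Ch.Cert.X_t3a_c1_n_G

/-! # Small rests: the chart t3a_c1, near vertex -/

set_option linter.unusedVariables false
set_option linter.unusedSimpArgs false

namespace Pool.Agent.Strip051.LC.E0.Ch

open Pool.Agent.Strip051.PB BaseP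

theorem r_t3a_c1_n {x w z xi : ℝ} (hxi : xi = -(x * G.om w x) + G.xi1 z x) (D : Dom 6 x w z (3 /
    2) xi) (hz : 0 ≤ z) (hb : x * (G.xi3 (w + z) x - xi) ≤ 17 / 20 * G.dwu (w + z) x) (hr : xi ≤
    G.xi3 (w + z) x) (h0 : 0 < w + z) :
    RowC .near .pp x w z (3 / 2) xi (G.S12 w x) (G.N1u z x) (G.P3u xi (w + z) x) := by
  have hx := D.x0
  have hx1 := D.x1
  have hw := D.w0
  have hw1 := D.w1
  have hz0 := D.z0
  have hz1 := D.z1
  have hu0 := D.u0
  have hu1 := D.u1
  have g := g_t3a_c1_n hxi D hz hb hr h0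
  have hv0 := V3 hx hx1 hw (by linarith) (by linarith) D.xz D.xu (by linarith)
  have hv4 := V4 hx hx1 hw hw1
  have hv : 0 ≤ z + kw3.v w x := by
    rw [kw3_val]
    linarith
  have hv2 : z + kw3.v w x ≤ (13 / 2) := by
    rw [kw3_val]
    linarith
  have gm := g_t3a_c1_m hxi D hz hb hr h0
  obtain ⟨SB, b1, b2, hrz⟩ := sb_t3a_c1_m hx hx1 hw hw1
  have hG : R_t3a_c1_m.G w z = R_t3a_c1_m.G w (-kw3.v w x) + (z + kw3.v w x) := by
    show gf3.v w (w + z) = gf3.v w (w + -kw3.v w x) + _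
    rw [gf3_val, gf3_val]; ring
  rcases le_or_gt (w + z) (1 / 4) with hc | hc
  · have hwq : w ≤ 1 / 4 := by linarith
    have hom := om_sm hx hx1 hw hwq
    have hom0 := om_nn hx hw
    have hvq : z + kw3.v w x ≤ 1 / 4 := by
      rw [kw3_val]
      linarith
    have hgp : 0 ≤ R_t3a_c1_m.GP w z x := by
      refine tree_pt x_t3a_c1_n_G
        (blo (m := 0) hw (by unfold S; norm_num))
        (bhi (m := (1 / 4)) hwq (by unfold S; norm_num))
        (blo (m := 0) hv (by unfold S; norm_num))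
        (bhi (m := (1 / 4)) hvq (by unfold S; norm_num))
        (blo (m := 0) D.x0.le (by unfold S; norm_num))
        (bhi (m := (4 / 125)) D.x1 (by unfold S; norm_num)) ?_
      intro E h A B X hA hB hX ht
      have := gpT_sound hA hB hX hv SB ht
      rwa [show z + kw3.v w x - kw3.v w x = z by ring] at this
    have hN : 0 < (w + z) := h0
    have hp0 : (0 : ℝ) ≤ z / (w + z) := by
      rw [le_div_iff₀ hN]
      linarith
    have hp1 : z / (w + z) ≤ 1 := by
      rw [div_le_iff₀ hN]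
      linarith
    have hpe : (w + z) * (z / (w + z)) = z := mul_div_cancel₀ z hN.ne'
    have hww : w = (w + z) * (1 - z / (w + z)) := by
      linear_combination hpe
    obtain ⟨CBm, r1, r2⟩ := cb_t3a_c1_m x
    exact tree_pt x_t3a_c1_n_C
      (blo (m := 0) hN.le (by unfold S; norm_num))
      (bhi (m := (1 / 4)) hc (by unfold S; norm_num))
      (blo (m := 0) hp0 (by unfold S; norm_num))
      (bhi (m := 1) hp1 (by unfold S; norm_num))
      (blo (m := 0) D.x0.le (by unfold S; norm_num))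
      (bhi (m := (4 / 125)) D.x1 (by unfold S; norm_num))
      fun hA hB hX h => corT_good hA hB hX hN (cb_t3a_c1_n x) (Or.inl ⟨rfl, hww, hpe.symm⟩) g
          (fun h1 h2 h3 => conM_good h1 h2 hX hN CBm hgp r1 r2 gm h3) h
  · exact tree_pt x_t3a_c1_n_M
      (blo (m := 0) hw (by unfold S; norm_num))
      (bhi (m := 6) hw1 (by unfold S; norm_num))
      (blo (m := 0) hv (by unfold S; norm_num))
      (bhi (m := (13 / 2)) hv2 (by unfold S; norm_num))
      (blo (m := 0) D.x0.le (by unfold S; norm_num))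
      (bhi (m := (4 / 125)) D.x1 (by unfold S; norm_num))
      fun hA hB hX h => mVn_sound hA hB hX hv g gm SB hG hrz b1 b2 ndec (fun _ => hc)
        (fun _ _ e => nol e) h

end Pool.Agent.Strip051.LC.E0.Ch
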