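import Pool.Agent.Strip051.LC.E0.Ch.Good

/-! # Small rests: the functions of the chart t3a_c1_x -/

set_option linter.unusedVariables false
set_option linter.unusedSimpArgs false

namespace Pool.Agent.Strip051.LC.E0.Ch

open Pool.Agent.Strip051.PB

theorem g_t3a_c1_f_x {x w z xi : ℝ} (hxi : xi = -(x * G.om w x) + G.xi1 z x) (D : Dom (46 / 5) x
    w z (3 / 2) xi) (hw4 : w ≤ 4) (ht6 : 6 ≤ w + z) (hz : 0 ≤ z) (hb : x * (G.xi3 (w + z) x - xi)
    ≤ 17 / 20 * G.dwu (w + z) x) (hr : xi ≤ G.xi3 (w + z) x) :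
    Good R_t3a_c1_f 10 true w z x
      (RowC .far .pp x w z (3 / 2) xi (G.S12 w x) (G.N1u z x) (G.P3u xi (w + z) x)) := by
  have hX : R_t3a_c1_f.XI w z x = xi := by
    simp only [RowF.XI, R_t3a_c1_f, xi_T2pAP1p, zx_val, xi1_val, xi3_val, xiw_val]
    linarith
  have hU : R_t3a_c1_f.U w z x = xi - G.xi3 (w + z) x := by
    simp only [RowF.U, R_t3a_c1_f, u_T2pAP1pQb3c, xi_T2pAP1p, zx_val, xi1_val, xi3_val, xiw_val]
    linarith
  have hG : R_t3a_c1_f.G w z = w + z - w * (3 / 2) := by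
    show gf3.v w (w + z) = _
    rw [gf3_val]; ring
  have hx0 := D.x0
  have hx1 := D.x1
  obtain ⟨e1, e2, e3⟩ := th_Qb3 (xi := xi) (z := (w + z)) (x := x)
  have hu1 : R_t3a_c1_f.U w z x ≤ 0 := by
    rw [hU]
    linarith
  have hL0 : 0 < R_t3a_c1_f.L w z := by
    show 0 < w + z
    linarith
  have hp : PatF .pp R_t3a_c1_f := ⟨rfl, rfl, rfl, rfl⟩
  have hD : Dm R_t3a_c1_f 10 true w z x := 
    dm_of (P := .pp) hp hz D (by norm_num) (by norm_num) hG hX hL0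
    (fun e => absurd e.symm Bool.false_ne_true)
    (fun _ => hu1)
  have hn : R_t3a_c1_f.K23 w z x = (G.N1u z x).1 := by
    unfold RowF.K23
    simp only [R_t3a_c1_f, k1p_zp]
    rw [k1p_val]; rfl
  have gn : R_t3a_c1_f.C23 w z x = (G.N1u z x).2.1 := by
    unfold RowF.C23
    simp only [R_t3a_c1_f, x1p_zp]
    rw [x1p_val]; rfl
  have ht3 : R_t3a_c1_f.K13 w z x = (G.P3u xi (w + z) x).1 := by
    unfold RowF.K13
    rw [hU]
    simp only [R_t3a_c1_f, k_Qb3_tp]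
    rw [e1]
  have gt3 : R_t3a_c1_f.C13 w z x = (G.P3u xi (w + z) x).2.1 := by
    unfold RowF.C13
    rw [hU]
    simp only [R_t3a_c1_f, c_Qb3_tp]
    rw [e2]
  exact far_good hp ⟨rfl, rfl, rfl, rfl⟩ hD hG hX hn ht3 gn gt3

theorem g_t3a_c1_n_x {x w z xi : ℝ} (hxi : xi = -(x * G.om w x) + G.xi1 z x) (D : Dom (46 / 5) x
    w z (3 / 2) xi) (hw4 : w ≤ 4) (ht6 : 6 ≤ w + z) (hz : 0 ≤ z) (hb : x * (G.xi3 (w + z) x - xi)
    ≤ 17 / 20 * G.dwu (w + z) x) (hr : xi ≤ G.xi3 (w + z) x) :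
    Good R_t3a_c1_n 10 true w z x
      (RowC .near .pp x w z (3 / 2) xi (G.S12 w x) (G.N1u z x) (G.P3u xi (w + z) x)) := by
  have hX : R_t3a_c1_n.XI w z x = xi := by
    simp only [RowF.XI, R_t3a_c1_n, xi_T2pAP1p, zx_val, xi1_val, xi3_val, xiw_val]
    linarith
  have hU : R_t3a_c1_n.U w z x = xi - G.xi3 (w + z) x := by
    simp only [RowF.U, R_t3a_c1_n, u_T2pAP1pQb3c, xi_T2pAP1p, zx_val, xi1_val, xi3_val, xiw_val]
    linarith
  have hG : R_t3a_c1_n.G w z = w + z - w * (3 / 2) := by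
    show gf3.v w (w + z) = _
    rw [gf3_val]; ring
  have hx0 := D.x0
  have hx1 := D.x1
  obtain ⟨e1, e2, e3⟩ := th_Qb3 (xi := xi) (z := (w + z)) (x := x)
  have hu1 : R_t3a_c1_n.U w z x ≤ 0 := by
    rw [hU]
    linarith
  have hL0 : 0 < R_t3a_c1_n.L w z := by
    show 0 < w + z
    linarith
  have hp : PatF .pp R_t3a_c1_n := ⟨rfl, rfl, rfl, rfl⟩
  have hD : Dm R_t3a_c1_n 10 true w z x := 
    dm_of (P := .pp) hp hz D (by norm_num) (by norm_num) hG hX hL0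
    (fun e => absurd e.symm Bool.false_ne_true)
    (fun _ => hu1)
  have hn : R_t3a_c1_n.K23 w z x = nk x (G.N1u z x).1 ((3 / 2) - 1) 0 := by
    unfold RowF.K23
    simp only [R_t3a_c1_n, k1p_zp_1_2_o, k1p_zp]
    rw [k1p_val]; exact nk0_nk _ _ (by push_cast; norm_num)
  have gn : R_t3a_c1_n.C23 w z x = (G.N1u z x).2.1 := by
    unfold RowF.C23
    simp only [R_t3a_c1_n, x1p_zp]
    rw [x1p_val]; rfl
  have ht3 : R_t3a_c1_n.K13 w z x = nk x (G.P3u xi (w + z) x).1 (3 / 2) (G.P3u xi (w + z) x).2.2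
    := by
    unfold RowF.K13
    rw [hU]
    simp only [R_t3a_c1_n, k_Qb3_tp_3_2_i, k_Qb3_tp, r_Qb3_tp]
    rw [e1, e3]; exact nkf_nk _ _ _ (by push_cast; norm_num)
  have gt3 : R_t3a_c1_n.C13 w z x = (G.P3u xi (w + z) x).2.1 := by
    unfold RowF.C13
    rw [hU]
    simp only [R_t3a_c1_n, c_Qb3_tp]
    rw [e2]
  rw [show (0 : ℝ) = (G.N1u z x).2.2 from rfl] at hn
  exact near_good hp ⟨rfl, rfl, rfl, rfl⟩ hD hG hX hn ht3 gn gt3

theorem g_t3a_c1_m_x {x w z xi : ℝ} (hxi : xi = -(x * G.om w x) + G.xi1 z x) (D : Dom (46 / 5) x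
    w z (3 / 2) xi) (hw4 : w ≤ 4) (ht6 : 6 ≤ w + z) (hz : 0 ≤ z) (hb : x * (G.xi3 (w + z) x - xi)
    ≤ 17 / 20 * G.dwu (w + z) x) (hr : xi ≤ G.xi3 (w + z) x) :
    GoodM R_t3a_c1_m M_t3a_c1_m 10 true w z x
      (RowC .near .pp x w z (3 / 2) xi (G.S12 w x) (G.N1u z x) (G.P3u xi (w + z) x)) := by
  have hX : R_t3a_c1_m.XI w z x = xi := by
    simp only [RowF.XI, R_t3a_c1_m, xi_T2pAP1p, zx_val, xi1_val, xi3_val, xiw_val]
    linarith
  have hU : R_t3a_c1_m.U w z x = xi - G.xi3 (w + z) x := by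
    simp only [RowF.U, R_t3a_c1_m, u_T2pAP1pQb3c, xi_T2pAP1p, zx_val, xi1_val, xi3_val, xiw_val]
    linarith
  have hG : R_t3a_c1_m.G w z = w + z - w * (3 / 2) := by
    show gf3.v w (w + z) = _
    rw [gf3_val]; ring
  have hx0 := D.x0
  have hx1 := D.x1
  obtain ⟨e1, e2, e3⟩ := th_Qb3 (xi := xi) (z := (w + z)) (x := x)
  have hu1 : R_t3a_c1_m.U w z x ≤ 0 := by
    rw [hU]
    linarith
  have hL0 : 0 < R_t3a_c1_m.L w z := by
    show 0 < w + z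
    linarith
  have hp : PatF .pp R_t3a_c1_m := ⟨rfl, rfl, rfl, rfl⟩
  have hD : Dm R_t3a_c1_m 10 true w z x := 
    dm_of (P := .pp) hp hz D (by norm_num) (by norm_num) hG hX hL0
    (fun e => absurd e.symm Bool.false_ne_true)
    (fun _ => hu1)
  have hn : R_t3a_c1_m.K23 w z x = nk x (G.N1u z x).1 ((3 / 2) - 1) 0 := by
    unfold RowF.K23
    simp only [R_t3a_c1_m, k1p_zp_1_2_o, k1p_zp]
    rw [k1p_val]; exact nk0_nk _ _ (by push_cast; norm_num)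
  have gn : R_t3a_c1_m.C23 w z x = (G.N1u z x).2.1 := by
    unfold RowF.C23
    simp only [R_t3a_c1_m, x1p_zp]
    rw [x1p_val]; rfl
  have ht3 : R_t3a_c1_m.K13 w z x = nk x (G.P3u xi (w + z) x).1 (3 / 2) 0 := by
    unfold RowF.K13
    rw [hU]
    simp only [R_t3a_c1_m, k_Qb3_tp_3_2_o, k_Qb3_tp]
    rw [e1]; exact nk0_nk _ _ (by push_cast; norm_num)
  have gt3 : R_t3a_c1_m.C13 w z x = (G.P3u xi (w + z) x).2.1 := by
    unfold RowF.C13
    rw [hU]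
    simp only [R_t3a_c1_m, c_Qb3_tp]
    rw [e2]
  have hr4 : |M_t3a_c1_m.rt.v (R_t3a_c1_m.U w z x) z (w + z) x| = |(G.N1u z x).2.2| + |(G.P3u xi
    (w + z) x).2.2| := by
    rw [show |(G.N1u z x).2.2| = 0 by rw [show (G.N1u z x).2.2 = 0 from rfl, abs_zero], zero_add]
    show |r_Qb3.v (R_t3a_c1_m.U w z x) (w + z) x| = _
    rw [hU, e3]
  exact near_goodM hp ⟨rfl, rfl, rfl, rfl⟩ rfl hD hG hX hn ht3 gn gt3 hr4

end Pool.Agent.Strip051.LC.E0.Ch
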