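import Pool.Agent.Strip051.LC.E0.Ch.Pt
import Pool.Agent.Strip051.LC.E0.Ch.L_t3a_c1_x
import Pool.Agent.Strip051.LC.E0.Ch.B_t3a_c1
import Pool.Agent.Strip051.LC.E0.Ch.Cert.X_t3a_c1_x_f_M

/-! # Small rests: the chart t3a_c1_x, far vertex -/

set_option linter.unusedVariables false
set_option linter.unusedSimpArgs false

namespace Pool.Agent.Strip051.LC.E0.Ch

open Pool.Agent.Strip051.PB BaseP

theorem r_t3a_c1_x_f {x w z xi : ℝ} (hxi : xi = -(x * G.om w x) + G.xi1 z x) (D : Dom (46 / 5) x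
    w z (3 / 2) xi) (hw4 : w ≤ 4) (ht6 : 6 ≤ w + z) (hz : 0 ≤ z) (hb : x * (G.xi3 (w + z) x - xi)
    ≤ 17 / 20 * G.dwu (w + z) x) (hr : xi ≤ G.xi3 (w + z) x) :
    RowC .far .pp x w z (3 / 2) xi (G.S12 w x) (G.N1u z x) (G.P3u xi (w + z) x) := by
  have hx := D.x0
  have hx1 := D.x1
  have hw := D.w0
  have hw1 := D.w1
  have hz0 := D.z0
  have hz1 := D.z1
  have hu0 := D.u0
  have hu1 := D.u1
  have g := g_t3a_c1_f_x hxi D hw4 ht6 hz hb hr
  have hw6 : w ≤ 6 := by linarith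
  have hv0 := V3 hx hx1 hw (by linarith) hz0 D.xz D.xu (by linarith)
  have hv4 := V4 hx hx1 hw hw6
  have hv : 0 ≤ z + kw3.v w x := by
    rw [kw3_val]
    linarith
  have hv2 : z + kw3.v w x ≤ 10 := by
    rw [kw3_val]
    linarith
  obtain ⟨SB, b1, b2⟩ := sb_t3a_c1_f hx hx1 hw hw6
  have hG : R_t3a_c1_f.G w z = R_t3a_c1_f.G w (-kw3.v w x) + (z + kw3.v w x) := by
    show gf3.v w (w + z) = gf3.v w (w + -kw3.v w x) + _
    rw [gf3_val, gf3_val]; ring
  exact tree_pt x_t3a_c1_x_f_M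
    (blo (m := 0) hw (by unfold S; norm_num))
    (bhi (m := 4) hw4 (by unfold S; norm_num))
    (blo (m := 0) hv (by unfold S; norm_num))
    (bhi (m := 10) hv2 (by unfold S; norm_num))
    (blo (m := 0) D.x0.le (by unfold S; norm_num))
    (bhi (m := (4 / 125)) D.x1 (by unfold S; norm_num))
    fun hA hB hX h => mVf_sound hA hB hX hv g SB hG b1 b2
      (fun _ _ e => nol e) h

end Pool.Agent.Strip051.LC.E0.Ch
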