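import Pool.Agent.Strip051.LC.E0.Ch.Pt
import Pool.Agent.Strip051.LC.E0.Ch.B_t2a_c3_dd
import Pool.Agent.Strip051.LC.E0.Ch.B_t2b_c1_dd

/-! # Small rests: the charts t2a_c3_dd, t2b_c1_dd for `z ≤ -6` -/

set_option linter.unusedVariables false
set_option linter.unusedSimpArgs false

namespace Pool.Agent.Strip051.LC.E0.Ch

open Pool.Agent.Strip051.PB BaseP


noncomputable def T_t2a_c3_dd_x_f : ℕ → ℕ → ℕ → ℕ → Bool :=
  mVf S_t2a_c3_dd_f_z kw2 7 false noL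

theorem x_t2a_c3_dd_x_f_M : Tree 3865470566 429496730 0 536870912 0 34359739 T_t2a_c3_dd_x_f :=
  ⟨(.b (.c (.l 38) (.l 38)) (.c (.l 34) (.l 34))), by decide +kernel⟩

theorem g_t2a_c3_dd_f_x {x w z xi xi' : ℝ} (hxi' : xi' = G.xi3 z x + x * G.om w x) (hxi : xi =
    -xi') (D : Dom (31 / 5) x w z (-(1 / 2)) xi) (hw4 : w ≤ 4) (hz6 : z ≤ -6) (ht : w + z ≤ 0)
    (hl : G.xi1 (w + z) x ≤ xi') (hb : x * (xi' - G.xi1 (w + z) x) ≤ 1 / 3 * G.dwl (w + z) x) :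
    Good R_t2a_c3_dd_f 7 false w z x
      (RowC .far .pnn x w z (-(1 / 2)) xi (G.S12 w x) (-G.N3d z x) (-G.P1d xi' (w + z) x)) := by
  have hX : R_t2a_c3_dd_f.XI w z x = xi := by
    simp only [RowF.XI, R_t2a_c3_dd_f, xi_T2AQ3m, zx_val, xi1_val, xi3_val, xiw_val]
    linarith
  have hU : R_t2a_c3_dd_f.U w z x = xi' - G.xi1 (w + z) x := by
    simp only [RowF.U, R_t2a_c3_dd_f, u_T2AQ3mP1ac, xi_T2AQ3m, zx_val, xi1_val, xi3_val, xiw_val]
    linarith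
  have hG : R_t2a_c3_dd_f.G w z = w + z - w * (-(1 / 2)) := by
    show gf2.v w (w + z) = _
    rw [gf2_val]; ring
  have hx0 := D.x0
  have hx1 := D.x1
  have e1 := th_P1a (xi := xi') (z := (w + z)) (x := x)
  have hu1 : 0 ≤ R_t2a_c3_dd_f.U w z x := by
    rw [hU]
    linarith
  have hL0 : 0 < R_t2a_c3_dd_f.L w z := by
    show 0 < -z
    linarith
  have hp : PatF .pnn R_t2a_c3_dd_f := ⟨rfl, rfl, rfl, rfl⟩
  have hD : Dm R_t2a_c3_dd_f 7 false w z x := 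
    dm_of (P := .pnn) hp ht D (by norm_num) (by norm_num) hG hX hL0
    (fun _ => hu1)
    (fun e => absurd e Bool.false_ne_true)
  have hn : R_t2a_c3_dd_f.K23 w z x = (-G.N3d z x).1 := by
    unfold RowF.K23
    simp only [R_t2a_c3_dd_f, k3m_zn]
    rw [k3m_val]; rfl
  have gn : R_t2a_c3_dd_f.C23 w z x = (-G.N3d z x).2.1 := by
    unfold RowF.C23
    simp only [R_t2a_c3_dd_f, x3m_zn]
    rw [x3m_val]; rfl
  have ht3 : R_t2a_c3_dd_f.K13 w z x = (-G.P1d xi' (w + z) x).1 := by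
    unfold RowF.K13
    rw [hU]
    simp only [R_t2a_c3_dd_f, k_P1a_tn]
    rw [e1]; rfl
  have gt3 : R_t2a_c3_dd_f.C13 w z x = (-G.P1d xi' (w + z) x).2.1 := by
    unfold RowF.C13
    rw [hU]
    simp only [R_t2a_c3_dd_f, x1m_tn]
    rw [x1m_val]; rfl
  exact far_good hp ⟨rfl, rfl, rfl, rfl⟩ hD hG hX hn ht3 gn gt3

theorem r_t2a_c3_dd_x_f {x w z xi xi' : ℝ} (hxi' : xi' = G.xi3 z x + x * G.om w x) (hxi : xi =
    -xi') (D : Dom (31 / 5) x w z (-(1 / 2)) xi) (hw4 : w ≤ 4) (hz6 : z ≤ -6) (ht : w + z ≤ 0)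
    (hl : G.xi1 (w + z) x ≤ xi') (hb : x * (xi' - G.xi1 (w + z) x) ≤ 1 / 3 * G.dwl (w + z) x) :
    RowC .far .pnn x w z (-(1 / 2)) xi (G.S12 w x) (-G.N3d z x) (-G.P1d xi' (w + z) x) := by
  have hx := D.x0
  have hx1 := D.x1
  have hw := D.w0
  have hz0 := D.z0
  have g := g_t2a_c3_dd_f_x hxi' hxi D hw4 hz6 ht hl hb
  have hw6 : w ≤ 6 := by linarith
  have hv0 := V2 hx hx1 hw (by linarith) (by linarith) D.xz D.xu (by linarith)
  have hv4 := V4 hx hx1 hw hw6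
  have hv : 0 ≤ z + kw2.v w x := by
    rw [kw2_val]
    linarith
  have hv2 : z + kw2.v w x ≤ 1 / 2 := by
    rw [kw2_val]
    linarith
  have hwl : 18 / 5 ≤ w := by linarith
  have w0 : w ≠ 0 := by linarith
  obtain ⟨SB, b1, b2⟩ := sb_t2a_c3_dd_f hx hx1 hw hw6 w0
  have hG : R_t2a_c3_dd_f.G w z = R_t2a_c3_dd_f.G w (-kw2.v w x) + (z + kw2.v w x) := by
    show gf2.v w (w + z) = gf2.v w (w + -kw2.v w x) + _
    rw [gf2_val, gf2_val]; ring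
  exact tree_pt x_t2a_c3_dd_x_f_M
    (blo (m := (18 / 5)) hwl (by unfold S; norm_num))
    (bhi (m := 4) hw4 (by unfold S; norm_num))
    (blo (m := 0) hv (by unfold S; norm_num))
    (bhi (m := (1 / 2)) hv2 (by unfold S; norm_num))
    (blo (m := 0) D.x0.le (by unfold S; norm_num))
    (bhi (m := (4 / 125)) D.x1 (by unfold S; norm_num))
    fun hA hB hX h => mVf_sound hA hB hX hv g SB hG b1 b2 (fun _ _ e => nol e) h

noncomputable def T_t2a_c3_dd_x_n : ℕ → ℕ → ℕ → ℕ → Bool :=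
  mVn R_t2a_c3_dd_n S_t2a_c3_dd_m_z M_t2a_c3_dd_m N_t2a_c3_dd_m kw2 7 1 0 false noL

theorem x_t2a_c3_dd_x_n_M : Tree 3865470566 429496730 0 536870912 0 34359739 T_t2a_c3_dd_x_n :=
  ⟨(.b (.c (.l 38) (.l 38)) (.c (.l 34) (.l 34))), by decide +kernel⟩

theorem g_t2a_c3_dd_n_x {x w z xi xi' : ℝ} (hxi' : xi' = G.xi3 z x + x * G.om w x) (hxi : xi =
    -xi') (D : Dom (31 / 5) x w z (-(1 / 2)) xi) (hw4 : w ≤ 4) (hz6 : z ≤ -6) (ht : w + z ≤ 0)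
    (hl : G.xi1 (w + z) x ≤ xi') (hb : x * (xi' - G.xi1 (w + z) x) ≤ 1 / 3 * G.dwl (w + z) x) :
    Good R_t2a_c3_dd_n 7 false w z x
      (RowC .near .pnn x w z (-(1 / 2)) xi (G.S12 w x) (-G.N3d z x) (-G.P1d xi' (w + z) x)) := by
  have hX : R_t2a_c3_dd_n.XI w z x = xi := by
    simp only [RowF.XI, R_t2a_c3_dd_n, xi_T2AQ3m, zx_val, xi1_val, xi3_val, xiw_val]
    linarith
  have hU : R_t2a_c3_dd_n.U w z x = xi' - G.xi1 (w + z) x := by
    simp only [RowF.U, R_t2a_c3_dd_n, u_T2AQ3mP1ac, xi_T2AQ3m, zx_val, xi1_val, xi3_val, xiw_val]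
    linarith
  have hG : R_t2a_c3_dd_n.G w z = w + z - w * (-(1 / 2)) := by
    show gf2.v w (w + z) = _
    rw [gf2_val]; ring
  have hx0 := D.x0
  have hx1 := D.x1
  have e1 := th_P1a (xi := xi') (z := (w + z)) (x := x)
  have hu1 : 0 ≤ R_t2a_c3_dd_n.U w z x := by
    rw [hU]
    linarith
  have hL0 : 0 < R_t2a_c3_dd_n.L w z := by
    show 0 < -z
    linarith
  have hp : PatF .pnn R_t2a_c3_dd_n := ⟨rfl, rfl, rfl, rfl⟩
  have hD : Dm R_t2a_c3_dd_n 7 false w z x := 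
    dm_of (P := .pnn) hp ht D (by norm_num) (by norm_num) hG hX hL0
    (fun _ => hu1)
    (fun e => absurd e Bool.false_ne_true)
  have hn : R_t2a_c3_dd_n.K23 w z x = nk x (-G.N3d z x).1 ((-(1 / 2)) - 1) 0 := by
    unfold RowF.K23
    simp only [R_t2a_c3_dd_n, k3m_zn_m3_2_o, k3m_zn]
    rw [k3m_val]; exact nk0_nk _ _ (by push_cast; norm_num)
  have gn : R_t2a_c3_dd_n.C23 w z x = (-G.N3d z x).2.1 := by
    unfold RowF.C23
    simp only [R_t2a_c3_dd_n, x3m_zn]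
    rw [x3m_val]; rfl
  have ht3 : R_t2a_c3_dd_n.K13 w z x = nk x (-G.P1d xi' (w + z) x).1 (-(1 / 2)) 0 := by
    unfold RowF.K13
    rw [hU]
    simp only [R_t2a_c3_dd_n, k_P1a_tn_m1_2_o, k_P1a_tn]
    rw [e1]; exact nk0_nk _ _ (by push_cast; norm_num)
  have gt3 : R_t2a_c3_dd_n.C13 w z x = (-G.P1d xi' (w + z) x).2.1 := by
    unfold RowF.C13
    rw [hU]
    simp only [R_t2a_c3_dd_n, x1m_tn]
    rw [x1m_val]; rfl
  rw [show (0 : ℝ) = (-G.N3d z x).2.2 from neg_zero.symm] at hn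
  rw [show (0 : ℝ) = (-G.P1d xi' (w + z) x).2.2 from neg_zero.symm] at ht3
  exact near_good hp ⟨rfl, rfl, rfl, rfl⟩ hD hG hX hn ht3 gn gt3

theorem g_t2a_c3_dd_m_x {x w z xi xi' : ℝ} (hxi' : xi' = G.xi3 z x + x * G.om w x) (hxi : xi =
    -xi') (D : Dom (31 / 5) x w z (-(1 / 2)) xi) (hw4 : w ≤ 4) (hz6 : z ≤ -6) (ht : w + z ≤ 0)
    (hl : G.xi1 (w + z) x ≤ xi') (hb : x * (xi' - G.xi1 (w + z) x) ≤ 1 / 3 * G.dwl (w + z) x) :
    GoodM R_t2a_c3_dd_m M_t2a_c3_dd_m 7 false w z x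
      (RowC .near .pnn x w z (-(1 / 2)) xi (G.S12 w x) (-G.N3d z x) (-G.P1d xi' (w + z) x)) := by
  have hX : R_t2a_c3_dd_m.XI w z x = xi := by
    simp only [RowF.XI, R_t2a_c3_dd_m, xi_T2AQ3m, zx_val, xi1_val, xi3_val, xiw_val]
    linarith
  have hU : R_t2a_c3_dd_m.U w z x = xi' - G.xi1 (w + z) x := by
    simp only [RowF.U, R_t2a_c3_dd_m, u_T2AQ3mP1ac, xi_T2AQ3m, zx_val, xi1_val, xi3_val, xiw_val]
    linarith
  have hG : R_t2a_c3_dd_m.G w z = w + z - w * (-(1 / 2)) := by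
    show gf2.v w (w + z) = _
    rw [gf2_val]; ring
  have hx0 := D.x0
  have hx1 := D.x1
  have e1 := th_P1a (xi := xi') (z := (w + z)) (x := x)
  have hu1 : 0 ≤ R_t2a_c3_dd_m.U w z x := by
    rw [hU]
    linarith
  have hL0 : 0 < R_t2a_c3_dd_m.L w z := by
    show 0 < -z
    linarith
  have hp : PatF .pnn R_t2a_c3_dd_m := ⟨rfl, rfl, rfl, rfl⟩
  have hD : Dm R_t2a_c3_dd_m 7 false w z x := 
    dm_of (P := .pnn) hp ht D (by norm_num) (by norm_num) hG hX hL0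
    (fun _ => hu1)
    (fun e => absurd e Bool.false_ne_true)
  have hn : R_t2a_c3_dd_m.K23 w z x = nk x (-G.N3d z x).1 ((-(1 / 2)) - 1) 0 := by
    unfold RowF.K23
    simp only [R_t2a_c3_dd_m, k3m_zn_m3_2_o, k3m_zn]
    rw [k3m_val]; exact nk0_nk _ _ (by push_cast; norm_num)
  have gn : R_t2a_c3_dd_m.C23 w z x = (-G.N3d z x).2.1 := by
    unfold RowF.C23
    simp only [R_t2a_c3_dd_m, x3m_zn]
    rw [x3m_val]; rfl
  have ht3 : R_t2a_c3_dd_m.K13 w z x = nk x (-G.P1d xi' (w + z) x).1 (-(1 / 2)) 0 := by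
    unfold RowF.K13
    rw [hU]
    simp only [R_t2a_c3_dd_m, k_P1a_tn_m1_2_o, k_P1a_tn]
    rw [e1]; exact nk0_nk _ _ (by push_cast; norm_num)
  have gt3 : R_t2a_c3_dd_m.C13 w z x = (-G.P1d xi' (w + z) x).2.1 := by
    unfold RowF.C13
    rw [hU]
    simp only [R_t2a_c3_dd_m, x1m_tn]
    rw [x1m_val]; rfl
  have hr4 : |M_t2a_c3_dd_m.rt.v (R_t2a_c3_dd_m.U w z x) z (w + z) x| = |(-G.N3d z x).2.2| +
      |(-G.P1d xi' (w + z) x).2.2| := by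
    rw [show |(-G.N3d z x).2.2| = 0 by rw [show (-G.N3d z x).2.2 = 0 from neg_zero, abs_zero],
        show |(-G.P1d xi' (w + z) x).2.2| = 0 by rw [show (-G.P1d xi' (w + z) x).2.2 = 0 from
        neg_zero, abs_zero]]
    show |zr4.v _ _ _ _| = _
    simp [zr4]
  exact near_goodM hp ⟨rfl, rfl, rfl, rfl⟩ rfl hD hG hX hn ht3 gn gt3 hr4

theorem r_t2a_c3_dd_x_n {x w z xi xi' : ℝ} (hxi' : xi' = G.xi3 z x + x * G.om w x) (hxi : xi =
    -xi') (D : Dom (31 / 5) x w z (-(1 / 2)) xi) (hw4 : w ≤ 4) (hz6 : z ≤ -6) (ht : w + z ≤ 0)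
    (hl : G.xi1 (w + z) x ≤ xi') (hb : x * (xi' - G.xi1 (w + z) x) ≤ 1 / 3 * G.dwl (w + z) x) :
    RowC .near .pnn x w z (-(1 / 2)) xi (G.S12 w x) (-G.N3d z x) (-G.P1d xi' (w + z) x) := by
  have hx := D.x0
  have hx1 := D.x1
  have hw := D.w0
  have hz0 := D.z0
  have g := g_t2a_c3_dd_n_x hxi' hxi D hw4 hz6 ht hl hb
  have hw6 : w ≤ 6 := by linarith
  have hv0 := V2 hx hx1 hw (by linarith) (by linarith) D.xz D.xu (by linarith)
  have hv4 := V4 hx hx1 hw hw6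
  have hv : 0 ≤ z + kw2.v w x := by
    rw [kw2_val]
    linarith
  have hv2 : z + kw2.v w x ≤ 1 / 2 := by
    rw [kw2_val]
    linarith
  have hwl : 18 / 5 ≤ w := by linarith
  have w0 : w ≠ 0 := by linarith
  have gm := g_t2a_c3_dd_m_x hxi' hxi D hw4 hz6 ht hl hb
  obtain ⟨SB, b1, b2, hrz⟩ := sb_t2a_c3_dd_m hx hx1 hw hw6 w0
  have hG : R_t2a_c3_dd_m.G w z = R_t2a_c3_dd_m.G w (-kw2.v w x) + (z + kw2.v w x) := by
    show gf2.v w (w + z) = gf2.v w (w + -kw2.v w x) + _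
    rw [gf2_val, gf2_val]; ring
  have hc : 1 / 4 < w := by linarith
  exact tree_pt x_t2a_c3_dd_x_n_M
    (blo (m := (18 / 5)) hwl (by unfold S; norm_num))
    (bhi (m := 4) hw4 (by unfold S; norm_num))
    (blo (m := 0) hv (by unfold S; norm_num))
    (bhi (m := (1 / 2)) hv2 (by unfold S; norm_num))
    (blo (m := 0) D.x0.le (by unfold S; norm_num))
    (bhi (m := (4 / 125)) D.x1 (by unfold S; norm_num))
    fun hA hB hX h => mVn_sound hA hB hX hv g gm SB hG hrz b1 b2 (fun _ => hc) ndec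
      (fun _ _ e => nol e) h

noncomputable def T_t2b_c1_dd_x_f : ℕ → ℕ → ℕ → ℕ → Bool :=
  mVf S_t2b_c1_dd_f_z kw2 7 false noL

theorem x_t2b_c1_dd_x_f_M : Tree 3865470566 429496730 0 536870912 0 34359739 T_t2b_c1_dd_x_f :=
  ⟨(.b (.c (.l 38) (.b (.l 38) (.l 38))) (.c (.l 34) (.l 34))), by decide +kernel⟩

theorem g_t2b_c1_dd_f_x {x w z xi xi' : ℝ} (hxi : xi = -G.xi1 (w + z) x) (hxi' : xi' = -(x * G.om
    w x) - xi) (D : Dom (31 / 5) x w z (-(1 / 2)) xi) (hw4 : w ≤ 4) (hz6 : z ≤ -6) (ht : w + z ≤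
    0) (hl : G.xiw z x ≤ xi') (hr : xi' ≤ G.xi3 z x) :
    Good R_t2b_c1_dd_f 7 false w z x
      (RowC .far .pnn x w z (-(1 / 2)) xi (G.S12 w x) (-G.P3d xi' z x) (-G.N1d (w + z) x)) := by
  have hX : R_t2b_c1_dd_f.XI w z x = xi := by
    simp only [RowF.XI, R_t2b_c1_dd_f, xi_T2BP1m, zx_val, xi1_val, xi3_val, xiw_val]
    linarith
  have hU : R_t2b_c1_dd_f.U w z x = G.xi3 z x - xi' := by
    simp only [RowF.U, R_t2b_c1_dd_f, u_T2BP1mQW3c, xi_T2BP1m, zx_val, xi1_val, xi3_val, xiw_val]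
    linarith
  have hG : R_t2b_c1_dd_f.G w z = w + z - w * (-(1 / 2)) := by
    show gf2.v w (w + z) = _
    rw [gf2_val]; ring
  have hx0 := D.x0
  have hx1 := D.x1
  have h0t : z ≤ 0 := by
    have := D.w0
    linarith
  have h1t : -z ≤ 10 := by
    have := D.z0
    linarith
  obtain ⟨e1, e2, e3⟩ := th_QW3c D.x0 D.x1 h0t h1t hl hr
  have hu1 : 0 ≤ R_t2b_c1_dd_f.U w z x := by
    rw [hU]
    linarith
  have hL0 : 0 < R_t2b_c1_dd_f.L w z := by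
    show 0 < -z
    linarith
  have hp : PatF .pnn R_t2b_c1_dd_f := ⟨rfl, rfl, rfl, rfl⟩
  have hD : Dm R_t2b_c1_dd_f 7 false w z x := 
    dm_of (P := .pnn) hp ht D (by norm_num) (by norm_num) hG hX hL0
    (fun _ => hu1)
    (fun e => absurd e Bool.false_ne_true)
  have hn : R_t2b_c1_dd_f.K13 w z x = (-G.N1d (w + z) x).1 := by
    unfold RowF.K13
    simp only [R_t2b_c1_dd_f, k1m_tn]
    rw [k1m_val]; rfl
  have gn : R_t2b_c1_dd_f.C13 w z x = (-G.N1d (w + z) x).2.1 := by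
    unfold RowF.C13
    simp only [R_t2b_c1_dd_f, x1m_tn]
    rw [x1m_val]; rfl
  have ht3 : R_t2b_c1_dd_f.K23 w z x = (-G.P3d xi' z x).1 := by
    unfold RowF.K23
    rw [hU]
    simp only [R_t2b_c1_dd_f, k_QW3c_zn]
    rw [e1]; rfl
  have gt3 : R_t2b_c1_dd_f.C23 w z x = (-G.P3d xi' z x).2.1 := by
    unfold RowF.C23
    rw [hU]
    simp only [R_t2b_c1_dd_f, c_QW3c_zn]
    rw [e2]; rfl
  exact far_good hp ⟨rfl, rfl, rfl, rfl⟩ hD hG hX ht3 hn gt3 gn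

theorem r_t2b_c1_dd_x_f {x w z xi xi' : ℝ} (hxi : xi = -G.xi1 (w + z) x) (hxi' : xi' = -(x * G.om
    w x) - xi) (D : Dom (31 / 5) x w z (-(1 / 2)) xi) (hw4 : w ≤ 4) (hz6 : z ≤ -6) (ht : w + z ≤
    0) (hl : G.xiw z x ≤ xi') (hr : xi' ≤ G.xi3 z x) :
    RowC .far .pnn x w z (-(1 / 2)) xi (G.S12 w x) (-G.P3d xi' z x) (-G.N1d (w + z) x) := by
  have hx := D.x0
  have hx1 := D.x1
  have hw := D.w0
  have hz0 := D.z0
  have g := g_t2b_c1_dd_f_x hxi hxi' D hw4 hz6 ht hl hr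
  have hw6 : w ≤ 6 := by linarith
  have hv0 := V2 hx hx1 hw (by linarith) (by linarith) D.xz D.xu (by linarith)
  have hv4 := V4 hx hx1 hw hw6
  have hv : 0 ≤ z + kw2.v w x := by
    rw [kw2_val]
    linarith
  have hv2 : z + kw2.v w x ≤ 1 / 2 := by
    rw [kw2_val]
    linarith
  have hwl : 18 / 5 ≤ w := by linarith
  have w0 : w ≠ 0 := by linarith
  obtain ⟨SB, b1, b2⟩ := sb_t2b_c1_dd_f hx hx1 hw hw6 w0
  have hG : R_t2b_c1_dd_f.G w z = R_t2b_c1_dd_f.G w (-kw2.v w x) + (z + kw2.v w x) := by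
    show gf2.v w (w + z) = gf2.v w (w + -kw2.v w x) + _
    rw [gf2_val, gf2_val]; ring
  exact tree_pt x_t2b_c1_dd_x_f_M
    (blo (m := (18 / 5)) hwl (by unfold S; norm_num))
    (bhi (m := 4) hw4 (by unfold S; norm_num))
    (blo (m := 0) hv (by unfold S; norm_num))
    (bhi (m := (1 / 2)) hv2 (by unfold S; norm_num))
    (blo (m := 0) D.x0.le (by unfold S; norm_num))
    (bhi (m := (4 / 125)) D.x1 (by unfold S; norm_num))
    fun hA hB hX h => mVf_sound hA hB hX hv g SB hG b1 b2 (fun _ _ e => nol e) h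

noncomputable def T_t2b_c1_dd_x_n : ℕ → ℕ → ℕ → ℕ → Bool :=
  mVn R_t2b_c1_dd_n S_t2b_c1_dd_m_z M_t2b_c1_dd_m N_t2b_c1_dd_m kw2 7 1 0 false noL

theorem x_t2b_c1_dd_x_n_M : Tree 3865470566 429496730 0 536870912 0 34359739 T_t2b_c1_dd_x_n :=
  ⟨(.b (.c (.l 38) (.b (.l 38) (.l 38))) (.c (.l 34) (.l 34))), by decide +kernel⟩

theorem g_t2b_c1_dd_n_x {x w z xi xi' : ℝ} (hxi : xi = -G.xi1 (w + z) x) (hxi' : xi' = -(x * G.om
    w x) - xi) (D : Dom (31 / 5) x w z (-(1 / 2)) xi) (hw4 : w ≤ 4) (hz6 : z ≤ -6) (ht : w + z ≤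
    0) (hl : G.xiw z x ≤ xi') (hr : xi' ≤ G.xi3 z x) :
    Good R_t2b_c1_dd_n 7 false w z x
      (RowC .near .pnn x w z (-(1 / 2)) xi (G.S12 w x) (-G.P3d xi' z x) (-G.N1d (w + z) x)) := by
  have hX : R_t2b_c1_dd_n.XI w z x = xi := by
    simp only [RowF.XI, R_t2b_c1_dd_n, xi_T2BP1m, zx_val, xi1_val, xi3_val, xiw_val]
    linarith
  have hU : R_t2b_c1_dd_n.U w z x = G.xi3 z x - xi' := by
    simp only [RowF.U, R_t2b_c1_dd_n, u_T2BP1mQW3c, xi_T2BP1m, zx_val, xi1_val, xi3_val, xiw_val]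
    linarith
  have hG : R_t2b_c1_dd_n.G w z = w + z - w * (-(1 / 2)) := by
    show gf2.v w (w + z) = _
    rw [gf2_val]; ring
  have hx0 := D.x0
  have hx1 := D.x1
  have h0t : z ≤ 0 := by
    have := D.w0
    linarith
  have h1t : -z ≤ 10 := by
    have := D.z0
    linarith
  obtain ⟨e1, e2, e3⟩ := th_QW3c D.x0 D.x1 h0t h1t hl hr
  have hu1 : 0 ≤ R_t2b_c1_dd_n.U w z x := by
    rw [hU]
    linarith
  have hL0 : 0 < R_t2b_c1_dd_n.L w z := by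
    show 0 < -z
    linarith
  have hp : PatF .pnn R_t2b_c1_dd_n := ⟨rfl, rfl, rfl, rfl⟩
  have hD : Dm R_t2b_c1_dd_n 7 false w z x := 
    dm_of (P := .pnn) hp ht D (by norm_num) (by norm_num) hG hX hL0
    (fun _ => hu1)
    (fun e => absurd e Bool.false_ne_true)
  have hn : R_t2b_c1_dd_n.K13 w z x = nk x (-G.N1d (w + z) x).1 (-(1 / 2)) 0 := by
    unfold RowF.K13
    simp only [R_t2b_c1_dd_n, k1m_tn_m1_2_o, k1m_tn]
    rw [k1m_val]; exact nk0_nk _ _ (by push_cast; norm_num)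
  have gn : R_t2b_c1_dd_n.C13 w z x = (-G.N1d (w + z) x).2.1 := by
    unfold RowF.C13
    simp only [R_t2b_c1_dd_n, x1m_tn]
    rw [x1m_val]; rfl
  have ht3 : R_t2b_c1_dd_n.K23 w z x = nk x (-G.P3d xi' z x).1 ((-(1 / 2)) - 1) (-G.P3d xi' z
      x).2.2 := by
    unfold RowF.K23
    rw [hU]
    simp only [R_t2b_c1_dd_n, k_QW3c_zn_m3_2_i, k_QW3c_zn, r_QW3c_zn]
    rw [e1, e3]; exact nkf_nk _ _ _ (by push_cast; norm_num)
  have gt3 : R_t2b_c1_dd_n.C23 w z x = (-G.P3d xi' z x).2.1 := by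
    unfold RowF.C23
    rw [hU]
    simp only [R_t2b_c1_dd_n, c_QW3c_zn]
    rw [e2]; rfl
  rw [show (0 : ℝ) = (-G.N1d (w + z) x).2.2 from neg_zero.symm] at hn
  exact near_good hp ⟨rfl, rfl, rfl, rfl⟩ hD hG hX ht3 hn gt3 gn

theorem g_t2b_c1_dd_m_x {x w z xi xi' : ℝ} (hxi : xi = -G.xi1 (w + z) x) (hxi' : xi' = -(x * G.om
    w x) - xi) (D : Dom (31 / 5) x w z (-(1 / 2)) xi) (hw4 : w ≤ 4) (hz6 : z ≤ -6) (ht : w + z ≤
    0) (hl : G.xiw z x ≤ xi') (hr : xi' ≤ G.xi3 z x) :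
    GoodM R_t2b_c1_dd_m M_t2b_c1_dd_m 7 false w z x
      (RowC .near .pnn x w z (-(1 / 2)) xi (G.S12 w x) (-G.P3d xi' z x) (-G.N1d (w + z) x)) := by
  have hX : R_t2b_c1_dd_m.XI w z x = xi := by
    simp only [RowF.XI, R_t2b_c1_dd_m, xi_T2BP1m, zx_val, xi1_val, xi3_val, xiw_val]
    linarith
  have hU : R_t2b_c1_dd_m.U w z x = G.xi3 z x - xi' := by
    simp only [RowF.U, R_t2b_c1_dd_m, u_T2BP1mQW3c, xi_T2BP1m, zx_val, xi1_val, xi3_val, xiw_val]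
    linarith
  have hG : R_t2b_c1_dd_m.G w z = w + z - w * (-(1 / 2)) := by
    show gf2.v w (w + z) = _
    rw [gf2_val]; ring
  have hx0 := D.x0
  have hx1 := D.x1
  have h0t : z ≤ 0 := by
    have := D.w0
    linarith
  have h1t : -z ≤ 10 := by
    have := D.z0
    linarith
  obtain ⟨e1, e2, e3⟩ := th_QW3c D.x0 D.x1 h0t h1t hl hr
  have hu1 : 0 ≤ R_t2b_c1_dd_m.U w z x := by
    rw [hU]
    linarith
  have hL0 : 0 < R_t2b_c1_dd_m.L w z := by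
    show 0 < -z
    linarith
  have hp : PatF .pnn R_t2b_c1_dd_m := ⟨rfl, rfl, rfl, rfl⟩
  have hD : Dm R_t2b_c1_dd_m 7 false w z x := 
    dm_of (P := .pnn) hp ht D (by norm_num) (by norm_num) hG hX hL0
    (fun _ => hu1)
    (fun e => absurd e Bool.false_ne_true)
  have hn : R_t2b_c1_dd_m.K13 w z x = nk x (-G.N1d (w + z) x).1 (-(1 / 2)) 0 := by
    unfold RowF.K13
    simp only [R_t2b_c1_dd_m, k1m_tn_m1_2_o, k1m_tn]
    rw [k1m_val]; exact nk0_nk _ _ (by push_cast; norm_num)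
  have gn : R_t2b_c1_dd_m.C13 w z x = (-G.N1d (w + z) x).2.1 := by
    unfold RowF.C13
    simp only [R_t2b_c1_dd_m, x1m_tn]
    rw [x1m_val]; rfl
  have ht3 : R_t2b_c1_dd_m.K23 w z x = nk x (-G.P3d xi' z x).1 ((-(1 / 2)) - 1) 0 := by
    unfold RowF.K23
    rw [hU]
    simp only [R_t2b_c1_dd_m, k_QW3c_zn_m3_2_o, k_QW3c_zn]
    rw [e1]; exact nk0_nk _ _ (by push_cast; norm_num)
  have gt3 : R_t2b_c1_dd_m.C23 w z x = (-G.P3d xi' z x).2.1 := by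
    unfold RowF.C23
    rw [hU]
    simp only [R_t2b_c1_dd_m, c_QW3c_zn]
    rw [e2]; rfl
  have hr4 : |M_t2b_c1_dd_m.rt.v (R_t2b_c1_dd_m.U w z x) z (w + z) x| = |(-G.P3d xi' z x).2.2| +
      |(-G.N1d (w + z) x).2.2| := by
    rw [show |(-G.N1d (w + z) x).2.2| = 0 by rw [show (-G.N1d (w + z) x).2.2 = 0 from neg_zero,
        abs_zero], add_zero]
    show |-(r_QW3c.v (R_t2b_c1_dd_m.U w z x) z x)| = _
    rw [hU, e3]; rfl
  exact near_goodM hp ⟨rfl, rfl, rfl, rfl⟩ rfl hD hG hX ht3 hn gt3 gn hr4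

theorem r_t2b_c1_dd_x_n {x w z xi xi' : ℝ} (hxi : xi = -G.xi1 (w + z) x) (hxi' : xi' = -(x * G.om
    w x) - xi) (D : Dom (31 / 5) x w z (-(1 / 2)) xi) (hw4 : w ≤ 4) (hz6 : z ≤ -6) (ht : w + z ≤
    0) (hl : G.xiw z x ≤ xi') (hr : xi' ≤ G.xi3 z x) :
    RowC .near .pnn x w z (-(1 / 2)) xi (G.S12 w x) (-G.P3d xi' z x) (-G.N1d (w + z) x) := by
  have hx := D.x0
  have hx1 := D.x1
  have hw := D.w0
  have hz0 := D.z0
  have g := g_t2b_c1_dd_n_x hxi hxi' D hw4 hz6 ht hl hr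
  have hw6 : w ≤ 6 := by linarith
  have hv0 := V2 hx hx1 hw (by linarith) (by linarith) D.xz D.xu (by linarith)
  have hv4 := V4 hx hx1 hw hw6
  have hv : 0 ≤ z + kw2.v w x := by
    rw [kw2_val]
    linarith
  have hv2 : z + kw2.v w x ≤ 1 / 2 := by
    rw [kw2_val]
    linarith
  have hwl : 18 / 5 ≤ w := by linarith
  have w0 : w ≠ 0 := by linarith
  have gm := g_t2b_c1_dd_m_x hxi hxi' D hw4 hz6 ht hl hr
  obtain ⟨SB, b1, b2, hrz⟩ := sb_t2b_c1_dd_m hx hx1 hw hw6 w0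
  have hG : R_t2b_c1_dd_m.G w z = R_t2b_c1_dd_m.G w (-kw2.v w x) + (z + kw2.v w x) := by
    show gf2.v w (w + z) = gf2.v w (w + -kw2.v w x) + _
    rw [gf2_val, gf2_val]; ring
  have hc : 1 / 4 < w := by linarith
  exact tree_pt x_t2b_c1_dd_x_n_M
    (blo (m := (18 / 5)) hwl (by unfold S; norm_num))
    (bhi (m := 4) hw4 (by unfold S; norm_num))
    (blo (m := 0) hv (by unfold S; norm_num))
    (bhi (m := (1 / 2)) hv2 (by unfold S; norm_num))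
    (blo (m := 0) D.x0.le (by unfold S; norm_num))
    (bhi (m := (4 / 125)) D.x1 (by unfold S; norm_num))
    fun hA hB hX h => mVn_sound hA hB hX hv g gm SB hG hrz b1 b2 (fun _ => hc) ndec
      (fun _ _ e => nol e) h

end Pool.Agent.Strip051.LC.E0.Ch
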