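import Pool.Agent.Strip051.LC.E0.Ch.Pt

/-! # Small rests: the tests of the functions of the lines -/

set_option linter.unusedVariables false

namespace Pool.Agent.Strip051.LC.E0.Ch

open Pool.Agent.Strip051.PB BaseP

attribute [local irreducible] padd psub pneg pmul psq pinv psqrt psqrtg pabs pps pmax pmin pphi plam
  pcase phf pnat prat pscale pnorm pdc pnc pone ppos pnn Enc

/-- slope from `t = 1`, below; kind 0: slope, else direct -/
noncomputable def tI {F : Fn2} (S : Sl_vc F) (h A B X : ℕ) : Bool :=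
  Bool.rec (motive := fun _ => Bool) (pnn (F.t A X)) (pnn (S.s A pone (pneg pone) X))
    (Nat.beq h 0)

/-- the same, the slope is at least `1 / 60`; kind 1: direct; else `1 - t ≤ 8 x` -/
noncomputable def tQ {F : Fn2} (S : Sl_vc F) (h A B X : ℕ) : Bool :=
  Bool.rec (motive := fun _ => Bool)
    (Bool.rec (motive := fun _ => Bool) (pnn (psub (pnat 8 X) (psub pone A))) (pnn (F.t A X))
      (Nat.beq h 1))
    (pnn (psub (S.s A pone (pneg pone) X) (prat 1 60))) (Nat.beq h 0)

/-- slope from `t = 1`, above -/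
noncomputable def tO {F : Fn2} (S : Sl_vc F) (h A B X : ℕ) : Bool :=
  pnn (S.s A pone pone X)

/-- direct -/
noncomputable def tD (F : Fn2) (h A B X : ℕ) : Bool := pnn (F.t A X)

/-- at least `1 / n` -/
noncomputable def tE (F : Fn2) (n h A B X : ℕ) : Bool := pnn (psub (F.t A X) (prat 1 n))

/-- the quadratic form next to `t = 1`; the first coordinate is `(1 - t) / x` -/
noncomputable def tB {F : Fn2} (S : Sl_vc F) (h A B X : ℕ) : Bool :=
  frc (pnorm (psub pone (pmul A X))) fun T =>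
    pnn (vb5.t A X T (pnorm (S.s T pone (pneg pone) X)))

section

variable {E : Pt} {F : Fn2} {S : Sl_vc F} {h A B X : ℕ} {t x n : ℝ}

theorem slI (ht : Enc E A t) (hx : Enc E X x) :
    ∃ d, Enc E (S.s A pone (pneg pone) X) d ∧ F.v t x - F.v 1 x = (1 - t) * d :=
  (S.snd (N := 1 - t) ⟨ht, enc_one E, -1, enc_neg (enc_one E), by ring⟩ hx).d

theorem tI_sound {c : ℕ} (ht : Enc E A t) (hx : Enc E X x) (h1 : t ≤ 1) (hb : 0 ≤ F.v 1 x)
    (h : tI S c A B X = true) : 0 ≤ F.v t x := by
  unfold tI at h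
  rcases e0 : Nat.beq c 0 with _ | _ <;> rw [e0] at h
  · exact pnn_sound (F.enc ht hx) h
  · obtain ⟨d, k, e⟩ := slI (S := S) ht hx
    have := pnn_sound k h
    have := mul_nonneg (by linarith : 0 ≤ 1 - t) this
    linarith

theorem tQ_sound {c : ℕ} (ht : Enc E A t) (hx : Enc E X x) (h1 : t ≤ 1) (h8 : 8 * x < 1 - t)
    (h : tQ S c A B X = true) : 0 ≤ F.v t x ∨ F.v 1 x + (1 - t) / 60 ≤ F.v t x := by
  unfold tQ at h
  rcases e0 : Nat.beq c 0 with _ | _ <;> rw [e0] at h
  · rcases e1 : Nat.beq c 1 with _ | _ <;> rw [e1] at h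
    · exfalso
      have := pnn_sound (enc_sub (enc_nat 8 hx) (enc_sub (enc_one E) ht)) h
      push_cast at this
      linarith
    · exact Or.inl (pnn_sound (F.enc ht hx) h)
  · obtain ⟨d, k, e⟩ := slI (S := S) ht hx
    have := pnn_sound (enc_sub k (enc_rat E 1 60)) h
    push_cast at this
    have := mul_nonneg (by linarith : 0 ≤ 1 - t) this
    right
    linarith

theorem tO_sound {c : ℕ} (ht : Enc E A t) (hx : Enc E X x) (h1 : 1 ≤ t)
    (h : tO S c A B X = true) : F.v 1 x ≤ F.v t x := by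
  unfold tO at h
  obtain ⟨d, k, e⟩ := (S.snd (N := t - 1) ⟨ht, enc_one E, 1, enc_one E, by ring⟩ hx).d
  have := pnn_sound k h
  have := mul_nonneg (by linarith : 0 ≤ t - 1) this
  linarith

theorem tD_sound {c : ℕ} (ht : Enc E A t) (hx : Enc E X x) (h : tD F c A B X = true) :
    0 ≤ F.v t x := pnn_sound (F.enc ht hx) h

theorem tE_sound {c k : ℕ} (ht : Enc E A t) (hx : Enc E X x) (h : tE F k c A B X = true) :
    1 / (k : ℝ) ≤ F.v t x := by
  have := pnn_sound (enc_sub (F.enc ht hx) (enc_rat E 1 k)) h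
  push_cast at this
  linarith

theorem tB_sound {c : ℕ} (hn : Enc E A n) (hx : Enc E X x) (e : t = 1 - n * x)
    (h : tB S c A B X = true) :
    ∃ s, F.v t x - F.v 1 x = (1 - t) * s ∧ 0 ≤ vb5.v n x t s := by
  unfold tB at h
  rw [frc_eq] at h
  have ht : Enc E (pnorm (psub pone (pmul A X))) t := by
    rw [e]
    exact enc_norm (enc_sub (enc_one E) (enc_mul hn hx))
  obtain ⟨d, k, ed⟩ := slI (S := S) ht hx
  exact ⟨d, ed, pnn_sound (vb5.enc hn hx ht (enc_norm k)) h⟩

end

end Pool.Agent.Strip051.LC.E0.Ch
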