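import Pool.Agent.Strip051.LC.E0.Ch.StripM

/-! # Small rests: leaves near the corner -/

set_option linter.unusedVariables false

namespace Pool.Agent.Strip051.LC.E0.Ch

open Pool.Agent.Strip051.PB

attribute [local irreducible] padd psub pneg pmul psq pinv psqrt psqrtg pabs pps pmax pmin pphi plam
  pcase phf pnat prat pscale pnorm pdc pnc pone ppos pnn Enc

/-- The corner. -/
structure CBase (R : RowF) (x : ℝ) : Prop where
  u : R.U 0 0 x = 0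
  d : R.DL 0 0 x = 0
  gp : R.GP 0 0 x = 0
  bn : R.BN 0 0 x = 0
  v1 : R.V1 0 0 x = 0
  v2 : R.V2 0 0 x = 0

theorem CBase.ds {R : RowF} {x : ℝ} (h : CBase R x) : R.DS 0 0 x = 0 := by
  unfold RowF.DS
  rw [h.d, dsf_val, zero_mul]

/-- leaf at the corner -/
noncomputable def conT {R : RowF} (S : RowS R true) (k s Wa Wd Za Zd X : ℕ) : Bool :=
  pval S true Wa pzero Wd Za pzero Zd X fun Ta Tb Td Ua Ub Ud Ga Gb Gd La Lb Ld Aa Ab Ad Ba Bb Bd
      Ma Mb Md Da Db Dd Sa Sb Sd Pa Pb Pd V1a V1b V1d V2a V2b V2d Na Nb Nd =>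
    band (Nat.ble k 1) (tst false k s X La Aa Ba Nd pzero Dd Pd V1d V2d)

/-- leaf at the corner, with the cost of the second kernel -/
noncomputable def conM {R : RowF} (S : RowS R true) (m : RowM) (ms : RowMS m true)
    (k s Wa Wd Za Zd X : ℕ) : Bool :=
  pval S true Wa pzero Wd Za pzero Zd X fun Ta Tb Td Ua Ub Ud Ga Gb Gd La Lb Ld Aa Ab Ad Ba Bb Bd
      Ma Mb Md Da Db Dd Sa Sb Sd Pa Pb Pd V1a V1b V1d V2a V2b V2d Na Nb Nd =>
    frc (pmul (pmul (ep.t X) (lb.t X)) (pnorm (padd (pabs (ms.s12.s Wa pzero Wd X))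
      (pabs (ms.st.s Ua Ub Ud Za pzero Zd Ta Tb Td X))))) fun EC =>
    frc (psub V1d EC) fun V1 => frc (psub V2d EC) fun V2 =>
    band (Nat.ble k 1) (tst true k s X La Aa Ba Nd pzero Dd Pd V1 V2)

section

variable {E : Pt} {R : RowF} {S : RowS R true} {M : ℕ} {up : Bool} {k s Wa Wd Za Zd X : ℕ}
  {N w z x lev : ℝ}

theorem conT_sound (hw : Pr E N Wa pzero Wd w 0) (hz : Pr E N Za pzero Zd z 0) (hx : Enc E X x)
    (hN : 0 < N) (D : Dm R M up w z x) (C : CBase R x) (hlev : R.Lv w z x lev)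
    (h : conT S k s Wa Wd Za Zd X = true) : R.Sk w z x lev := by
  unfold conT at h
  obtain ⟨Ta, Tb, Td, Ua, Ub, Ud, Ga, Gb, Gd, La, Lb, Ld, Aa, Ab, Ad, Ba, Bb, Bd, Ma, Mb, Md, Da,
    Db, Dd, Sa, Sb, Sd, Pa, Pb, Pd, V1a, V1b, V1d, V2a, V2b, V2d, Na, Nb, Nd, h, F⟩ :=
    pval_sound hw hz hx (fun _ => C.u) (fun _ => C.d) h
  obtain ⟨h0, h⟩ := band_true h
  obtain ⟨dsd, kd, ed⟩ := F.ds.d
  obtain ⟨gpd, kp, eg⟩ := F.gp.d
  obtain ⟨bnd, kn, en⟩ := F.bn.d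
  obtain ⟨v1d, k1, e1⟩ := F.v1.d
  obtain ⟨v2d, k2, e2⟩ := F.v2.d
  rw [C.ds, sub_zero] at ed
  rw [C.gp, sub_zero] at eg
  rw [C.bn, sub_zero] at en
  rw [C.v1, sub_zero] at e1
  rw [C.v2, sub_zero] at e2
  have r := (tst_sound2 hx F.l.l F.a.l F.b.l kn kd kp k1 k2 h0 h ((R.G w z / (2 * x) *
    (1 - 1 / R.L w z) ^ 2 + R.BR w z x -
    abf.v x (R.L w z) (R.A w z) (R.B w z) (R.DS w z x) (R.GP w z x)) / N)).scale hN
  refine sk_of_res D en ed eg (fun e => absurd e Bool.false_ne_true)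
    (le_of_eq (mul_div_cancel₀ _ hN.ne')) (fun F' g1 g2 => ?_) r
  exact hlev F' (by linarith) (by linarith)

theorem conM_sound {m : RowM} {ms : RowMS m true} (hw : Pr E N Wa pzero Wd w 0)
    (hz : Pr E N Za pzero Zd z 0) (hx : Enc E X x) (hN : 0 < N) (D : Dm R M up w z x)
    (C : CBase R x) (hgp : 0 ≤ R.GP w z x) (r1 : m.r12.v 0 x = 0)
    (r2 : m.rt.v (R.U 0 0 x) 0 (0 + 0) x = 0) (hlev : m.Lv R w z x lev)
    (h : conM S m ms k s Wa Wd Za Zd X = true) : R.Sk w z x lev := by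
  unfold conM at h
  obtain ⟨Ta, Tb, Td, Ua, Ub, Ud, Ga, Gb, Gd, La, Lb, Ld, Aa, Ab, Ad, Ba, Bb, Bd, Ma, Mb, Md, Da,
    Db, Dd, Sa, Sb, Sd, Pa, Pb, Pd, V1a, V1b, V1d, V2a, V2b, V2d, Na, Nb, Nd, h, F⟩ :=
    pval_sound hw hz hx (fun _ => C.u) (fun _ => C.d) h
  simp only [frc_eq] at h
  obtain ⟨h0, h⟩ := band_true h
  obtain ⟨dsd, kd, ed⟩ := F.ds.d
  obtain ⟨gpd, kp, eg⟩ := F.gp.d
  obtain ⟨bnd, kn, en⟩ := F.bn.d
  obtain ⟨v1d, k1, e1⟩ := F.v1.d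
  obtain ⟨v2d, k2, e2⟩ := F.v2.d
  obtain ⟨rd, kr, er⟩ := (ms.st.snd F.u (fun _ => C.u) hz F.t hx).d
  obtain ⟨qd, kq, eq⟩ := (ms.s12.snd hw hx).d
  rw [C.ds, sub_zero] at ed
  rw [C.gp, sub_zero] at eg
  rw [C.bn, sub_zero] at en
  rw [C.v1, sub_zero] at e1
  rw [C.v2, sub_zero] at e2
  rw [r1, sub_zero] at eq
  rw [r2, sub_zero] at er
  have hEC := enc_mul (enc_mul (ep.enc hx) (lb.enc hx))
    (enc_norm (enc_add (enc_abs kq) (enc_abs kr)))
  have j1 := enc_sub k1 hEC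
  have j2 := enc_sub k2 hEC
  have hc : m.C R w z x = N * (G.ep x * G.lb x * (|qd| + |rd|)) := by
    unfold RowM.C
    rw [er, eq, abs_mul, abs_mul, abs_of_pos hN]
    ring
  unfold RowM.Lv at hlev
  rw [hc] at hlev
  have r := (tst_sound2 hx F.l.l F.a.l F.b.l kn kd kp j1 j2 h0 h ((R.G w z / (2 * x) *
    (1 - 1 / R.L w z) ^ 2 + R.BR w z x -
    abf.v x (R.L w z) (R.A w z) (R.B w z) (R.DS w z x) (R.GP w z x)) / N)).scale hN
  refine sk_of_res D en ed eg (fun _ => hgp)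
    (le_of_eq (mul_div_cancel₀ _ hN.ne')) (fun F' g1 g2 => ?_) r
  rw [epl] at g1 g2
  exact hlev F' (by linarith) (by linarith)

end

/-- exit by the side of `u` -/
noncomputable def cex {R : RowF} (S : RowS R true) (up : Bool) (Wa Wd Za Zd X : ℕ) : Bool :=
  frc (S.u.s Wa pzero Wd Za pzero Zd X) fun U =>
    ppos (Bool.rec (motive := fun _ => ℕ) (pneg U) U up)

theorem cex_sound {E : Pt} {R : RowF} {S : RowS R true} {M : ℕ} {up : Bool}
    {Wa Wd Za Zd X : ℕ} {N w z x : ℝ} (hw : Pr E N Wa pzero Wd w 0)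
    (hz : Pr E N Za pzero Zd z 0) (hx : Enc E X x) (hN : 0 < N) (D : Dm R M up w z x)
    (C : CBase R x) (h : cex S up Wa Wd Za Zd X = true) : False := by
  unfold cex at h
  rw [frc_eq] at h
  obtain ⟨d, k, e⟩ := (S.u.snd hw hz hx).d
  have e0 : R.u.v 0 0 x = 0 := C.u
  rw [e0, sub_zero] at e
  rcases up with _ | _
  · have h1 := ppos_sound (enc_neg k) h
    have h2 : 0 ≤ R.u.v w z x := D.u rfl
    rw [e] at h2
    have := mul_pos hN (by linarith : 0 < -d)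
    linarith
  · have h1 := ppos_sound k h
    have h2 : R.u.v w z x ≤ 0 := D.u' rfl
    rw [e] at h2
    have := mul_pos hN h1
    linarith

/-! ### The leaf of a corner chart -/

/-- `pp = true`: coordinates `w = N (1 - p)`, `z = N p`; `pp = false`: `w = N`, `z = -N p`.
Kinds: 0, 1 slopes; 3 exits; 4, 5 slopes with the cost. -/
noncomputable def corT {R : RowF} (S : RowS R true) (M : ℕ) (up pp : Bool)
    (f : ℕ → ℕ → ℕ → ℕ → ℕ → ℕ → ℕ → Bool) (h A B X : ℕ) : Bool :=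
  frc (Nat.mod h 16) fun k => frc (Nat.div h 16) fun s =>
  frc (Bool.rec (motive := fun _ => ℕ) A (pmul A (psub pone B)) pp) fun Wa =>
  frc (Bool.rec (motive := fun _ => ℕ) pone (psub pone B) pp) fun Wd =>
  frc (Bool.rec (motive := fun _ => ℕ) (pneg (pmul A B)) (pmul A B) pp) fun Za =>
  frc (Bool.rec (motive := fun _ => ℕ) (pneg B) B pp) fun Zd =>
  Bool.rec (motive := fun _ => Bool)
    (Bool.rec (motive := fun _ => Bool)
      (f (Nat.sub k 4) s Wa Wd Za Zd X)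
      (Bool.rec (motive := fun _ => Bool)
        (ex0 R M 0 0 s Wa Za X) (cex S up Wa Wd Za Zd X) (Nat.beq s 7))
      (Nat.beq k 3))
    (conT S k s Wa Wd Za Zd X) (Nat.ble k 1)

end Pool.Agent.Strip051.LC.E0.Ch
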