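import Pool.Agent.Strip051.LC.E0.Ch.Res
import Pool.Agent.Strip051.LC.E0.Ch.Cell

/-! # Small rests: direct leaves and exits -/

set_option linter.unusedVariables false

namespace Pool.Agent.Strip051.LC.E0.Ch

open Pool.Agent.Strip051.PB

attribute [local irreducible] padd psub pneg pmul psq pinv psqrt psqrtg pabs pps pmax pmin pphi plam
  pcase phf pnat prat pscale pnorm pdc pnc pone ppos pnn Enc

/-- The slack of a row at a point. -/
def RowF.Sk (R : RowF) (w z x lev : ℝ) : Prop :=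
  G.Slk x (R.A w z) (R.B w z) (R.L w z) (R.G w z) (R.GM w z x) (R.DL w z x) (R.BS w z x) lev

/-- The domain of a row; `up` is the side of `u`. -/
structure Dm (R : RowF) (M : ℕ) (up : Bool) (w z x : ℝ) : Prop where
  x0 : 0 < x
  x1 : x ≤ 4 / 125
  a0 : 0 ≤ R.A w z
  b0 : 0 ≤ R.B w z
  l0 : 0 < R.L w z
  l8 : R.L w z ≤ 16
  xz : x * z ≤ 3 / 25
  xt : x * (w + z) ≤ 3 / 25
  z0 : -(M : ℝ) ≤ z
  t1 : w + z ≤ M
  ex : exv.v x (R.G w z) (R.BS w z x) ≤ 79 / 25
  u : up = false → 0 ≤ R.U w z x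
  u' : up = true → R.U w z x ≤ 0

/-- The level is at most the two bounds. -/
def RowF.Lv (R : RowF) (w z x lev : ℝ) : Prop :=
  ∀ F : ℝ, 0 ≤ F + R.V1 w z x → 0 ≤ F + R.V2 w z x → 0 ≤ F - lev

/-- the sign condition of the kind 2 -/
noncomputable def gk (k G : ℕ) : Bool :=
  Bool.rec (motive := fun _ => Bool) (pnn G) true (Nat.ble k 1)

theorem tst_sound2 {E : Pt} {X L A B BN FO DS GP V1 V2 : ℕ} {x l a b bn ds gp v1 v2 : ℝ}
    {g : Bool} {k s : ℕ} (hx : Enc E X x) (hl : Enc E L l) (ha : Enc E A a)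
    (hb : Enc E B b) (hn : Enc E BN bn) (hd : Enc E DS ds) (hg : Enc E GP gp)
    (h1 : Enc E V1 v1) (h2 : Enc E V2 v2) (hk : Nat.ble k 1 = true)
    (h : tst g k s X L A B BN FO DS GP V1 V2 = true) (fo : ℝ) :
    Res g x l a b bn fo ds gp v1 v2 := by
  have hk' : k ≤ 1 := Nat.le_of_ble_eq_true hk
  unfold tst at h
  rcases e0 : Nat.beq k 0 with _ | _
  · rw [e0] at h
    rcases e1 : Nat.beq k 1 with _ | _
    · exfalso
      interval_cases k
      · exact absurd e0 (by decide)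
      · exact absurd e1 (by decide)
    · rw [e1] at h
      obtain ⟨t1, t2⟩ := band_true h
      refine Or.inr (Or.inl ⟨sgS_sound hd (crS_sound hx hn (enc_neg hd) h1 h2)
        (crS_sound hx hn hd h1 h2) t1, fun e => ?_⟩)
      rw [e] at t2
      exact pnn_sound hg t2
  · rw [e0] at h
    exact Or.inl (sgS_sound hd (inS_sound hx hl hb ha hn (enc_neg hd) hg h1 h2)
      (inS_sound hx hl ha hb hn hd hg h1 h2) h)

/-- direct test -/
noncomputable def dirT (R : RowF) (k s W Z X : ℕ) : Bool :=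
  dval R W Z X fun XI U G L A B GM DS BS GP V1 V2 BN =>
    band (gk k G) (tst false k s X L A B BN
      (outd.t X L A B G (brf.t X L A B G GM DS BS) DS GP) DS GP V1 V2)

theorem outd_le {x l a b g br ds gp : ℝ} (hx : 0 < x) (hx1 : x ≤ 4 / 125) (hg : 0 ≤ g) :
    outd.v x l a b g br ds gp ≤ g / (2 * x) * (1 - 1 / l) ^ 2 + br - abf.v x l a b ds gp := by
  rw [outd_val, one_div]
  have h1 : 125 / 8 * (g * (1 - l⁻¹) ^ 2) ≤ g / (2 * x) * (1 - l⁻¹) ^ 2 := by
    have h2 : 125 / 8 ≤ 1 / (2 * x) := by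
      rw [le_div_iff₀ (by positivity)]
      linarith
    have h3 : 0 ≤ g * (1 - l⁻¹) ^ 2 := by positivity
    calc 125 / 8 * (g * (1 - l⁻¹) ^ 2) ≤ 1 / (2 * x) * (g * (1 - l⁻¹) ^ 2) :=
          mul_le_mul_of_nonneg_right h2 h3
      _ = g / (2 * x) * (1 - l⁻¹) ^ 2 := by ring
  linarith

theorem dirT_sound {E : Pt} {R : RowF} {M : ℕ} {up : Bool} {k s W Z X : ℕ} {w z x lev : ℝ}
    (hw : Enc E W w) (hz : Enc E Z z) (hx : Enc E X x) (D : Dm R M up w z x)
    (hlev : R.Lv w z x lev) (h : dirT R k s W Z X = true) : R.Sk w z x lev := by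
  obtain ⟨XI, U, G', L, A, B, GM, DS, BS, GP, V1, V2, BN, h, F⟩ := dval_sound hw hz hx h
  obtain ⟨g0, h⟩ := band_true h
  have key : ∃ fo : ℝ, fo ≤ R.G w z / (2 * x) * (1 - 1 / R.L w z) ^ 2 + R.BR w z x -
      abf.v x (R.L w z) (R.A w z) (R.B w z) (R.DS w z x) (R.GP w z x) ∧
      Res false x (R.L w z) (R.A w z) (R.B w z) (R.BN w z x) fo (R.DS w z x) (R.GP w z x)
        (R.V1 w z x) (R.V2 w z x) := by
    rcases hk : Nat.ble k 1 with _ | _
    · unfold gk at g0
      rw [hk] at g0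
      exact ⟨_, outd_le D.x0 D.x1 (pnn_sound F.g g0),
        tst_sound hx F.l F.a F.b F.bn (outd.enc hx F.l F.a F.b F.g
          (brf.enc hx F.l F.a F.b F.g F.gm F.ds F.bs) F.ds F.gp) F.ds F.gp F.v1 F.v2 h⟩
    · exact ⟨_, le_rfl, tst_sound2 hx F.l F.a F.b F.bn F.ds F.gp F.v1 F.v2 hk h _⟩
  obtain ⟨fo, h1, h2⟩ := key
  have e1 : R.DS w z x = R.DL w z x * (1 - x * R.L w z) := by
    unfold RowF.DS; rw [dsf_val, shf_val]
  have e2 : R.GP w z x = R.G w z + x * R.GM w z x := by unfold RowF.GP; rw [gpf_val]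
  have e3 : R.BR w z x = brf.v x (R.L w z) (R.A w z) (R.B w z) (R.G w z) (R.GM w z x)
      (R.DS w z x) (R.BS w z x) := rfl
  rw [e3] at h1
  rw [e1, e2] at h1 h2
  exact slk_of_res D.x0 D.x1 D.a0 D.b0 D.l0 D.l8 (fun e => absurd e Bool.false_ne_true) h1 hlev h2

/-! ### Exits -/

/-- exits which need only the coordinates -/
noncomputable def ex0 (R : RowF) (M cw ct e W Z X : ℕ) : Bool :=
  frc (pnorm (padd W Z)) fun T =>
  Bool.rec (motive := fun _ => Bool)
    (Bool.rec (motive := fun _ => Bool)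
      (Bool.rec (motive := fun _ => Bool)
        (Bool.rec (motive := fun _ => Bool)
          (Bool.rec (motive := fun _ => Bool)
            (Bool.rec (motive := fun _ => Bool)
              (Bool.rec (motive := fun _ => Bool)
                false
                (Bool.rec (motive := fun _ => Bool)
                  (Bool.rec (motive := fun _ => Bool) false
                    (pnn (psub (prat 1 4) T)) (Nat.beq ct 1))
                  (pnn (psub (prat 1 4) W)) (Nat.beq cw 1))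
                (Nat.beq e 8))
              (ppos (psub T (pnc M))) (Nat.beq e 5))
            (ppos (psub (pneg Z) (pnc M))) (Nat.beq e 4))
          (ppos (psub (pmul X (pnorm T)) (prat 3 25))) (Nat.beq e 3))
        (ppos (psub (pmul X (pnorm Z)) (prat 3 25))) (Nat.beq e 2))
      (ppos (pneg (R.b.t W Z T))) (Nat.beq e 1))
    (ppos (pneg (R.a.t W Z T))) (Nat.beq e 0)

/-- the exit by the excess (6) or by the side of `u` (7) -/
noncomputable def ex1 (R : RowF) (up : Bool) (e W Z X : ℕ) : Bool :=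
  Bool.rec (motive := fun _ => Bool)
    (frc (R.u.t W Z X) fun U => ppos (Bool.rec (motive := fun _ => ℕ) (pneg U) U up))
    (frc (pnorm (padd W Z)) fun T => frc (R.xi.t W Z X) fun XI => frc (R.gf.t W T) fun G =>
      ppos (psub (exv.t X G (bsf.t W T X XI)) (prat 79 25)))
    (Nat.beq e 6)

/-- all exits -/
noncomputable def exT (R : RowF) (M cw ct : ℕ) (up : Bool) (e W Z X : ℕ) : Bool :=
  Bool.rec (motive := fun _ => Bool)
    (Bool.rec (motive := fun _ => Bool) (ex0 R M cw ct e W Z X) (ex1 R up e W Z X) (Nat.beq e 7))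
    (ex1 R up e W Z X) (Nat.beq e 6)

theorem ex0_sound {E : Pt} {R : RowF} {M cw ct e : ℕ} {up : Bool} {W Z X : ℕ} {w z x : ℝ}
    (hw : Enc E W w) (hz : Enc E Z z) (hx : Enc E X x) (D : Dm R M up w z x)
    (hcw : Nat.beq cw 1 = true → 1 / 4 < w) (hct : Nat.beq ct 1 = true → 1 / 4 < w + z)
    (h : ex0 R M cw ct e W Z X = true) : False := by
  have hT : Enc E (pnorm (padd W Z)) (w + z) := enc_norm (enc_add hw hz)
  unfold ex0 at h
  rw [frc_eq] at h
  rcases e0 : Nat.beq e 0 with _ | _ <;> rw [e0] at h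
  swap
  · have h1 := ppos_sound (enc_neg (R.a.enc hw hz hT)) h
    have h2 : 0 ≤ R.a.v w z (w + z) := D.a0
    linarith
  rcases e1 : Nat.beq e 1 with _ | _ <;> rw [e1] at h
  swap
  · have h1 := ppos_sound (enc_neg (R.b.enc hw hz hT)) h
    have h2 : 0 ≤ R.b.v w z (w + z) := D.b0
    linarith
  rcases e2 : Nat.beq e 2 with _ | _ <;> rw [e2] at h
  swap
  · have h1 := ppos_sound (enc_sub (enc_mul hx (enc_norm hz)) (enc_rat _ 3 25)) h
    have h2 := D.xz
    push_cast at h1
    linarith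
  rcases e3 : Nat.beq e 3 with _ | _ <;> rw [e3] at h
  swap
  · have h1 := ppos_sound (enc_sub (enc_mul hx (enc_norm hT)) (enc_rat _ 3 25)) h
    have h2 := D.xt
    push_cast at h1
    linarith
  rcases e4 : Nat.beq e 4 with _ | _ <;> rw [e4] at h
  swap
  · have h1 := ppos_sound (enc_sub (enc_neg hz) (enc_pnc _ M)) h
    have h2 := D.z0
    linarith
  rcases e5 : Nat.beq e 5 with _ | _ <;> rw [e5] at h
  swap
  · have h1 := ppos_sound (enc_sub hT (enc_pnc _ M)) h
    have h2 := D.t1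
    linarith
  rcases e8 : Nat.beq e 8 with _ | _ <;> rw [e8] at h
  · exact Bool.false_ne_true h
  rcases f1 : Nat.beq cw 1 with _ | _ <;> rw [f1] at h
  swap
  · have h1 := pnn_sound (enc_sub (enc_rat _ 1 4) hw) h
    have h2 := hcw f1
    push_cast at h1
    linarith
  rcases f2 : Nat.beq ct 1 with _ | _ <;> rw [f2] at h
  · exact Bool.false_ne_true h
  · have h1 := pnn_sound (enc_sub (enc_rat _ 1 4) hT) h
    have h2 := hct f2
    push_cast at h1
    linarith

theorem ex1_sound {E : Pt} {R : RowF} {M e : ℕ} {up : Bool} {W Z X : ℕ} {w z x : ℝ}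
    (hw : Enc E W w) (hz : Enc E Z z) (hx : Enc E X x) (D : Dm R M up w z x)
    (h : ex1 R up e W Z X = true) : False := by
  have hT : Enc E (pnorm (padd W Z)) (w + z) := enc_norm (enc_add hw hz)
  unfold ex1 at h
  simp only [frc_eq] at h
  rcases e0 : Nat.beq e 6 with _ | _ <;> rw [e0] at h
  · rcases up with _ | _
    · have h1 := ppos_sound (enc_neg (R.u.enc hw hz hx)) h
      have h2 : 0 ≤ R.u.v w z x := D.u rfl
      linarith
    · have h1 := ppos_sound (R.u.enc hw hz hx) h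
      have h2 : R.u.v w z x ≤ 0 := D.u' rfl
      linarith
  · have h1 := ppos_sound (enc_sub (exv.enc hx (R.gf.enc hw hT)
      (bsf.enc hw hT hx (R.xi.enc hw hz hx))) (enc_rat _ 79 25)) h
    have h2 : exv.v x (R.gf.v w (w + z)) (bsf.v w (w + z) x (R.xi.v w z x)) ≤ 79 / 25 := D.ex
    push_cast at h1
    linarith

theorem exT_sound {E : Pt} {R : RowF} {M cw ct e : ℕ} {up : Bool} {W Z X : ℕ} {w z x : ℝ}
    (hw : Enc E W w) (hz : Enc E Z z) (hx : Enc E X x) (D : Dm R M up w z x)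
    (hcw : Nat.beq cw 1 = true → 1 / 4 < w) (hct : Nat.beq ct 1 = true → 1 / 4 < w + z)
    (h : exT R M cw ct up e W Z X = true) : False := by
  unfold exT at h
  rcases e0 : Nat.beq e 6 with _ | _ <;> rw [e0] at h
  · rcases e1 : Nat.beq e 7 with _ | _ <;> rw [e1] at h
    · exact ex0_sound hw hz hx D hcw hct h
    · exact ex1_sound hw hz hx D h
  · exact ex1_sound hw hz hx D h

end Pool.Agent.Strip051.LC.E0.Ch
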