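import Pool.Agent.Strip051.LC.E0.Ch.Pr

/-! # Small rests: functions with enclosures -/

namespace Pool.Agent.Strip051.LC.E0.Ch

open Pool.Agent.Strip051.PB

attribute [local irreducible] padd psub pneg pmul psq pinv psqrt psqrtg pabs pps pmax pmin pphi plam
  pcase phf pnat prat pscale pnorm pdc pnc pone ppos pnn Enc

noncomputable def dlf : Fn3 := ⟨_, _, fun h1 h2 h3 => (enc_norm (enc_sub (enc_add h1 h2) h3))⟩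
noncomputable def shf : Fn2 := ⟨_, _, fun h1 h2 => (enc_norm (enc_sub (enc_pnc _ 1) (enc_mul h1 h2)))⟩
noncomputable def dsf : Fn2 := ⟨_, _, fun h1 h2 => (enc_norm (enc_mul h1 h2))⟩
noncomputable def qw : Fn2 := ⟨_, _, fun h1 h2 => (enc_sqrt (enc_sub (enc_pnc _ 1) (enc_scale 3 4 (enc_mul (enc_sq h2) (enc_sq h1)))))⟩
noncomputable def om : Fn2 := ⟨_, _, fun h1 h2 => (enc_norm (enc_scale 3 4 (enc_mul (enc_sq h1) (enc_inv (enc_add (enc_pnc _ 1) (qw.enc h1 h2))))))⟩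
noncomputable def bsf : Fn4 := ⟨_, _, fun h1 h2 h3 h4 => (enc_norm (enc_neg (enc_half (enc_add (enc_mul (om.enc h1 h3) (enc_norm (enc_add (enc_pnc _ 1) (enc_mul h3 h2)))) (enc_mul h4 h1)))))⟩
noncomputable def gs : Fn1 := ⟨_, _, fun h1 => (enc_sqrt (enc_sub (enc_pnc _ 1) (enc_scale 3 4 (enc_sq h1))))⟩
noncomputable def ic : Fn1 := ⟨_, _, fun h1 => (enc_inv (enc_add (enc_pnc _ 1) (gs.enc h1)))⟩
noncomputable def ep : Fn1 := ⟨_, _, fun h1 => (enc_norm (enc_sub (enc_rat _ 1 2) (enc_scale 3 4 (enc_mul h1 (ic.enc h1)))))⟩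
noncomputable def bnf : Fn4 := ⟨_, _, fun h1 h2 h3 h4 => (enc_norm (enc_sub (enc_add (enc_scale 3 4 (enc_mul (ic.enc h1) h2)) h3) (enc_mul (ep.enc h1) h4)))⟩
noncomputable def gpf : Fn3 := ⟨_, _, fun h1 h2 h3 => (enc_norm (enc_add h2 (enc_mul h1 h3)))⟩
noncomputable def exv : Fn3 := ⟨_, _, fun h1 h2 h3 => (enc_norm (enc_add h2 (enc_nat 2 (enc_mul h1 h3))))⟩
noncomputable def ix : Fn1 := ⟨_, _, fun h1 => (enc_inv (enc_sub (enc_pnc _ 1) h1))⟩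
noncomputable def ei : Fn1 := ⟨_, _, fun h1 => (enc_norm (enc_mul (ep.enc h1) (ix.enc h1)))⟩
noncomputable def finf_7 : Fn6 := ⟨_, _, fun h1 h2 h3 h4 h5 h6 => (enc_mul h1 h5)⟩
noncomputable def finf : Fn6 := ⟨_, _, fun h1 h2 h3 h4 h5 h6 => (enc_norm (enc_sub (enc_sub h4 (enc_mul (ei.enc h1) (enc_norm (enc_mul h5 (enc_norm (enc_sub (enc_pnc _ 1) h2)))))) (enc_mul (enc_norm (enc_mul (enc_norm (enc_mul (ei.enc h1) h2)) (enc_norm (enc_mul h3 (enc_norm (enc_mul (enc_norm (finf_7.enc h1 h2 h3 h4 h5 h6)) h5)))))) (enc_inv (enc_add h6 (enc_mul (enc_norm (finf_7.enc h1 h2 h3 h4 h5 h6)) h3))))))⟩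
noncomputable def cinf : Fn4 := ⟨_, _, fun h1 h2 h3 h4 => (enc_norm (enc_sub h4 (enc_mul h1 (enc_norm (enc_mul h3 h2)))))⟩
noncomputable def fcrf : Fn3 := ⟨_, _, fun h1 h2 h3 => (enc_norm (enc_sub h2 (enc_mul (ei.enc h1) h3)))⟩
noncomputable def couf : Fn5 := ⟨_, _, fun h1 h2 h3 h4 h5 => (enc_norm (enc_sub (enc_mul (enc_norm (enc_subn 1 h2)) h5) (enc_mul h1 (enc_norm (enc_mul h4 h3)))))⟩
noncomputable def m2f : Fn1 := ⟨_, _, fun h1 => (enc_sq (enc_norm (enc_sub (enc_pnc _ 1) (enc_inv h1))))⟩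
noncomputable def et : Fn1 := ⟨_, _, fun h1 => (enc_norm (enc_mul (enc_norm (enc_sub (enc_pnc _ 1) (enc_scale 3 2 (ic.enc h1)))) (ix.enc h1)))⟩
noncomputable def kx : Fn1 := ⟨_, _, fun h1 => (enc_norm (enc_add (enc_pnc _ 1) (enc_mul h1 (et.enc h1))))⟩
noncomputable def abf_6 : Fn6 := ⟨_, _, fun h1 h2 h3 h4 h5 h6 => (enc_inv h2)⟩
noncomputable def abf : Fn6 := ⟨_, _, fun h1 h2 h3 h4 h5 h6 => (enc_norm (enc_half (enc_mul (enc_norm (enc_mul (kx.enc h1) (enc_norm (enc_mul (enc_norm (enc_mul h3 (abf_6.enc h1 h2 h3 h4 h5 h6))) (enc_norm (enc_mul h4 (abf_6.enc h1 h2 h3 h4 h5 h6))))))) (enc_norm (enc_mul (enc_norm (enc_mul h1 (enc_sq h5))) (enc_inv h6))))))⟩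
noncomputable def outd : Fn8 := ⟨_, _, fun h1 h2 h3 h4 h5 h6 h7 h8 => (enc_norm (enc_sub (enc_add (enc_scale 125 8 (enc_mul h5 (m2f.enc h2))) h6) (abf.enc h1 h2 h3 h4 h7 h8)))⟩
noncomputable def outs : Fn7 := ⟨_, _, fun h1 h2 h3 h4 h5 h6 h7 => (enc_norm (enc_sub (enc_add (enc_scale 125 8 (m2f.enc h2)) h5) (abf.enc h1 h2 h3 h4 h6 h7)))⟩
noncomputable def brf_8 : Fn8 := ⟨_, _, fun h1 h2 h3 h4 h5 h6 h7 h8 => (enc_inv h2)⟩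
noncomputable def brf_12 : Fn8 := ⟨_, _, fun h1 h2 h3 h4 h5 h6 h7 h8 => (enc_sub (enc_pnc _ 1) (enc_half (brf_8.enc h1 h2 h3 h4 h5 h6 h7 h8)))⟩
noncomputable def brf : Fn8 := ⟨_, _, fun h1 h2 h3 h4 h5 h6 h7 h8 => (enc_norm (enc_sub (enc_add (enc_mul h5 (enc_norm (enc_sub (enc_half (kx.enc h1)) (enc_mul (et.enc h1) (enc_norm (enc_mul (enc_norm (brf_12.enc h1 h2 h3 h4 h5 h6 h7 h8)) (brf_8.enc h1 h2 h3 h4 h5 h6 h7 h8))))))) h8) (enc_mul (kx.enc h1) (enc_norm (enc_add (enc_mul h6 (enc_norm (enc_mul (enc_norm (enc_sub (brf_12.enc h1 h2 h3 h4 h5 h6 h7 h8) (enc_half (enc_mul h1 h2)))) (brf_8.enc h1 h2 h3 h4 h5 h6 h7 h8)))) (enc_half (enc_mul (enc_norm (enc_mul (enc_norm (enc_sub h3 h4)) (brf_8.enc h1 h2 h3 h4 h5 h6 h7 h8))) (enc_norm (enc_mul h7 (enc_norm (enc_sub (enc_pnc _ 1) (brf_8.enc h1 h2 h3 h4 h5 h6 h7 h8))))))))))))⟩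
noncomputable def brs : Fn4 := ⟨_, _, fun h1 h2 h3 h4 => (enc_norm (enc_sub h4 (enc_half (enc_mul (om.enc h1 h2) (m2f.enc h3)))))⟩
noncomputable def lnf : Fn4 := ⟨_, _, fun h1 h2 h3 h4 => (enc_norm (enc_sub h3 (enc_mul (ei.enc h1) (enc_norm (enc_mul h4 (enc_norm (enc_sub (enc_pnc _ 1) h2)))))))⟩
noncomputable def ltf_7 : Fn5 := ⟨_, _, fun h1 h2 h3 h4 h5 => (enc_mul h1 h4)⟩
noncomputable def ltf : Fn5 := ⟨_, _, fun h1 h2 h3 h4 h5 => (enc_norm (enc_mul (enc_norm (enc_mul (enc_norm (enc_mul (ei.enc h1) h2)) (enc_norm (enc_mul (enc_norm (ltf_7.enc h1 h2 h3 h4 h5)) h4)))) (enc_inv (enc_add h5 (enc_mul (enc_norm (ltf_7.enc h1 h2 h3 h4 h5)) h3)))))⟩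
noncomputable def lof : Fn4 := ⟨_, _, fun h1 h2 h3 h4 => (enc_norm (enc_add (enc_half (enc_mul h3 (m2f.enc h2))) h4))⟩
noncomputable def lab_6 : Fn5 := ⟨_, _, fun h1 h2 h3 h4 h5 => (enc_inv h2)⟩
noncomputable def lab : Fn5 := ⟨_, _, fun h1 h2 h3 h4 h5 => (enc_norm (enc_half (enc_mul (enc_norm (enc_mul (kx.enc h1) (enc_norm (enc_mul (enc_norm (enc_mul h3 (lab_6.enc h1 h2 h3 h4 h5))) (lab_6.enc h1 h2 h3 h4 h5))))) (enc_norm (enc_mul (enc_norm (enc_mul h1 (enc_sq h4))) (enc_inv h5))))))⟩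
noncomputable def col : Fn4 := ⟨_, _, fun h1 h2 h3 h4 => (enc_norm (enc_sub h4 (enc_nat 17 (enc_mul (enc_norm (enc_mul h1 h2)) h3))))⟩
noncomputable def ch : Fn1 := ⟨_, _, fun h1 => (enc_norm (enc_scale 3 4 (enc_mul (enc_norm (enc_subn 1 (enc_nat 2 (gs.enc h1)))) (ic.enc h1))))⟩
noncomputable def mu : Fn1 := ⟨_, _, fun h1 => (enc_inv (enc_add (enc_nat 2 (gs.enc h1)) (enc_pnc _ 3)))⟩
noncomputable def lb : Fn1 := ⟨_, _, fun h1 => (enc_norm (enc_mul (enc_norm (enc_mul (ch.enc h1) (mu.enc h1))) (enc_inv (ep.enc h1))))⟩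
noncomputable def nkf : Fn4 := ⟨_, _, fun h1 h2 h3 h4 => (enc_norm (enc_add (enc_mul h2 (enc_norm (enc_add (enc_pnc _ 1) (enc_mul h1 (lb.enc h1))))) (enc_mul (lb.enc h1) (enc_norm (enc_add h3 h4)))))⟩
noncomputable def nk0 : Fn3 := ⟨_, _, fun h1 h2 h3 => (enc_norm (enc_add (enc_mul h2 (enc_norm (enc_add (enc_pnc _ 1) (enc_mul h1 (lb.enc h1))))) (enc_mul (lb.enc h1) h3)))⟩
noncomputable def dt_2 : Fn1 := ⟨_, _, fun h1 => (enc_sqrt (enc_pnc _ 3))⟩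
noncomputable def dt_5 : Fn1 := ⟨_, _, fun h1 => (enc_pos (enc_subn 1 h1))⟩
noncomputable def dt_8 : Fn1 := ⟨_, _, fun h1 => (enc_subr 221 250 (enc_scale 8 3 (dt_2.enc h1)))⟩
noncomputable def dt : Fn1 := ⟨_, _, fun h1 => (enc_norm (enc_add (enc_add (enc_add (enc_sub (enc_mul h1 (enc_norm (enc_add (enc_scale 111 1000 h1) (enc_rat _ 13 40)))) (enc_mul (dt_5.enc h1) (enc_norm (enc_add (enc_scale 111 1000 (dt_5.enc h1)) (enc_rat _ 37 1000))))) (enc_scale 1 8 (enc_pos (enc_subr 3 2 h1)))) (enc_mul (enc_pos (enc_subr 5 2 h1)) (enc_norm (enc_subr 127 200 (dt_8.enc h1))))) (enc_mul (enc_pos (enc_subn 4 h1)) (enc_norm (enc_sub (dt_2.enc h1) (dt_8.enc h1))))))⟩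
noncomputable def ka : Fn2 := ⟨_, _, fun h1 h2 => (enc_neg (dt.enc h1))⟩
noncomputable def mm : Fn1 := ⟨_, _, fun h1 => (enc_norm (enc_add (enc_sub (enc_sub (enc_rat _ 109 250) (enc_scale 3 4 (enc_mul h1 (ic.enc h1)))) (enc_scale 3 2 (enc_mul (enc_norm (enc_sub (enc_rat _ 3 2) (gs.enc h1))) (enc_inv (gs.enc h1))))) (enc_scale 3 2 (enc_mul (enc_norm (enc_sub (enc_pnc _ 1) (enc_scale 109 250 h1))) (ic.enc h1)))))⟩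
noncomputable def xa_8 : Fn2 := ⟨_, _, fun h1 h2 => (enc_sub (mm.enc h2) (ch.enc h2))⟩
noncomputable def xa_19 : Fn2 := ⟨_, _, fun h1 h2 => (enc_sub (enc_rat _ 957 1000) (enc_add (ch.enc h2) (enc_half (mm.enc h2))))⟩
noncomputable def xa : Fn2 := ⟨_, _, fun h1 h2 => (enc_norm (enc_add (enc_add (enc_add (enc_sub (enc_mul h1 (enc_norm (enc_add (enc_sub (enc_nat 2 (ch.enc h2)) (mm.enc h2)) (enc_mul (enc_norm (xa_8.enc h1 h2)) h1)))) (enc_mul (enc_norm (xa_8.enc h1 h2)) (enc_sq (enc_pos (enc_subn 1 h1))))) (enc_mul (enc_pos (enc_subr 3 2 h1)) (enc_norm (enc_sub (xa_19.enc h1 h2) (mm.enc h2))))) (enc_mul (enc_pos (enc_subr 5 2 h1)) (enc_norm (enc_sub (enc_neg (enc_rat _ 319 500)) (xa_19.enc h1 h2))))) (enc_scale 319 500 (enc_pos (enc_subn 4 h1)))))⟩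
noncomputable def rf : Fn1 := ⟨_, _, fun h1 => (enc_norm (enc_add (enc_sub (enc_add (enc_scale 3 4 (enc_mul (enc_sq h1) (enc_inv (gs.enc h1)))) (enc_half h1)) (enc_sub (enc_pnc _ 1) (enc_scale 109 250 h1))) (enc_mul (enc_norm (enc_mul (gs.enc h1) (mm.enc h1))) (enc_inv (ch.enc h1)))))⟩
noncomputable def gh : Fn1 := ⟨_, _, fun h1 => (enc_norm (enc_add (enc_sub h1 (enc_scale 4 3 (enc_pos (enc_subn 1 h1)))) (enc_scale 1 3 (enc_pos (enc_subn 4 h1)))))⟩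
noncomputable def r2a : Fn2 := ⟨_, _, fun h1 h2 => (enc_norm (enc_mul (rf.enc h2) (gh.enc h1)))⟩
noncomputable def zx : Fn2 := ⟨_, _, fun h1 h2 => (enc_norm (enc_neg (enc_mul h2 (om.enc h1 h2))))⟩
noncomputable def cc1 : Fn2 := ⟨_, _, fun h1 h2 => (enc_sqrt (enc_sub (enc_pnc _ 1) (enc_scale 3 4 (enc_sq (enc_norm (enc_add (enc_pnc _ 1) (enc_mul h2 h1)))))))⟩
noncomputable def xi1 : Fn2 := ⟨_, _, fun h1 h2 => (enc_norm (enc_neg (enc_scale 3 4 (enc_mul (enc_norm (enc_mul h1 (enc_norm (enc_add (enc_pnc _ 2) (enc_mul h2 h1))))) (enc_inv (enc_add (enc_rat _ 1 2) (cc1.enc h1 h2)))))))⟩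
noncomputable def sg1 : Fn2 := ⟨_, _, fun h1 h2 => (enc_norm (enc_sub (enc_half h1) (xi1.enc h1 h2)))⟩
noncomputable def k1m_4 : Fn2 := ⟨_, _, fun h1 h2 => (dt.enc (enc_neg (sg1.enc h1 h2)))⟩
noncomputable def k1m : Fn2 := ⟨_, _, fun h1 h2 => (enc_norm (enc_sub (enc_neg (enc_half (k1m_4.enc h1 h2))) (enc_scale 3 4 (enc_mul (enc_norm (enc_mul (sg1.enc h1 h2) (enc_inv (enc_add (enc_pnc _ 1) (enc_add (enc_half (cc1.enc h1 h2)) (enc_scale 3 4 (enc_add (enc_pnc _ 1) (enc_mul h2 h1)))))))) (enc_norm (enc_sub (enc_pnc _ 1) (enc_mul h2 (k1m_4.enc h1 h2))))))))⟩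
noncomputable def xb_3 : Fn1 := ⟨_, _, fun h1 => (enc_pos (enc_subn 1 h1))⟩
noncomputable def xb : Fn1 := ⟨_, _, fun h1 => (enc_norm (enc_add (enc_sub (enc_mul h1 (enc_norm (enc_add (enc_scale 209 1000 h1) (enc_rat _ 181 500)))) (enc_mul (xb_3.enc h1) (enc_norm (enc_add (enc_scale 209 1000 (xb_3.enc h1)) (enc_rat _ 1741 1500))))) (enc_scale 571 1500 (enc_pos (enc_subr 5 2 h1)))))⟩
noncomputable def x1m : Fn2 := ⟨_, _, fun h1 h2 => (xb.enc (enc_neg (enc_half (sg1.enc h1 h2))))⟩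
noncomputable def k1p_3 : Fn2 := ⟨_, _, fun h1 h2 => (dt.enc (sg1.enc h1 h2))⟩
noncomputable def k1p : Fn2 := ⟨_, _, fun h1 h2 => (enc_norm (enc_sub (enc_neg (enc_half (k1p_3.enc h1 h2))) (enc_scale 3 4 (enc_mul (enc_norm (enc_mul (sg1.enc h1 h2) (enc_inv (enc_add (enc_pnc _ 1) (enc_add (enc_half (cc1.enc h1 h2)) (enc_scale 3 4 (enc_add (enc_pnc _ 1) (enc_mul h2 h1)))))))) (enc_norm (enc_sub (enc_pnc _ 1) (enc_mul h2 (k1p_3.enc h1 h2))))))))⟩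
noncomputable def x1p : Fn2 := ⟨_, _, fun h1 h2 => (enc_norm (enc_sub (xa.enc (sg1.enc h1 h2) h2) (xb.enc (enc_half (sg1.enc h1 h2)))))⟩
noncomputable def pq : Fn1 := ⟨_, _, fun h1 => (enc_scale 3 8 (enc_inv (enc_mul (enc_norm (enc_mul (gs.enc h1) (enc_norm (enc_add (enc_pnc _ 1) (gs.enc h1))))) (ep.enc h1))))⟩
noncomputable def xiw : Fn2 := ⟨_, _, fun h1 h2 => (enc_norm (enc_neg (enc_mul h2 (om.enc h1 h2))))⟩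
noncomputable def pu : Fn1 := ⟨_, _, fun h1 => (enc_norm (enc_mul (enc_norm (enc_sub (enc_subr 109 250 (pq.enc h1)) (k1p.enc (enc_pnc _ 1) h1))) (enc_inv (enc_sub (xiw.enc (enc_pnc _ 1) h1) (xi1.enc (enc_pnc _ 1) h1)))))⟩
noncomputable def su : Fn2 := ⟨_, _, fun h1 h2 => (enc_norm (enc_case (enc_subn 2 h1) (enc_add (enc_rat _ 92 125) (enc_mul (enc_norm (enc_subr 92 125 (pu.enc h2))) (enc_norm (enc_min h1 (enc_pnc _ 1))))) (enc_subn 3 (enc_nat 2 (enc_sqrt (enc_pnc _ 3))))))⟩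
noncomputable def kwu : Fn2 := ⟨_, _, fun h1 h2 => (enc_norm (enc_add (k1p.enc h1 h2) (enc_mul (su.enc h1 h2) (enc_norm (enc_sub (xiw.enc h1 h2) (xi1.enc h1 h2))))))⟩
noncomputable def xw_5 : Fn2 := ⟨_, _, fun h1 h2 => (enc_add (ch.enc h2) (enc_half (mm.enc h2)))⟩
noncomputable def xw_8 : Fn2 := ⟨_, _, fun h1 h2 => (enc_sub (mm.enc h2) (ch.enc h2))⟩
noncomputable def xw : Fn2 := ⟨_, _, fun h1 h2 => (enc_norm (enc_add (enc_sub (enc_sub (enc_mul h1 (enc_norm (enc_add (enc_sub (enc_nat 2 (ch.enc h2)) (mm.enc h2)) (enc_mul (enc_norm (xw_8.enc h1 h2)) h1)))) (enc_mul (enc_norm (xw_8.enc h1 h2)) (enc_sq (enc_pos (enc_subn 1 h1))))) (enc_mul (enc_pos (enc_subr 3 2 h1)) (enc_norm (enc_add (xw_5.enc h1 h2) (mm.enc h2))))) (enc_mul (enc_pos (enc_subr 5 2 h1)) (enc_norm (xw_5.enc h1 h2)))))⟩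
noncomputable def pp2 : Fn1 := ⟨_, _, fun h1 => (enc_norm (enc_sub (enc_rat _ 1 2) (enc_mul h1 (pq.enc h1))))⟩
noncomputable def rwu : Fn1 := ⟨_, _, fun h1 => (enc_norm (enc_sub (enc_add (rf.enc h1) (pp2.enc h1)) (enc_half (enc_mul (mm.enc h1) (enc_inv (ch.enc h1))))))⟩
noncomputable def r2u : Fn2 := ⟨_, _, fun h1 h2 => (enc_norm (enc_mul (rwu.enc h2) (gh.enc h1)))⟩
noncomputable def cc3 : Fn2 := ⟨_, _, fun h1 h2 => (enc_sqrt (enc_sub (enc_pnc _ 3) (enc_scale 3 4 (enc_sq (enc_norm (enc_add (enc_pnc _ 1) (enc_mul h2 h1)))))))⟩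
noncomputable def xi3 : Fn2 := ⟨_, _, fun h1 h2 => (enc_norm (enc_neg (enc_scale 3 4 (enc_mul (enc_norm (enc_mul h1 (enc_norm (enc_add (enc_pnc _ 2) (enc_mul h2 h1))))) (enc_inv (enc_add (enc_rat _ 3 2) (cc3.enc h1 h2)))))))⟩
noncomputable def sg3 : Fn2 := ⟨_, _, fun h1 h2 => (enc_norm (enc_sub (enc_half h1) (enc_scale 1 3 (xi3.enc h1 h2))))⟩
noncomputable def k3m_4 : Fn2 := ⟨_, _, fun h1 h2 => (dt.enc (enc_neg (sg3.enc h1 h2)))⟩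
noncomputable def k3m : Fn2 := ⟨_, _, fun h1 h2 => (enc_norm (enc_sub (enc_neg (enc_scale 3 2 (k3m_4.enc h1 h2))) (enc_scale 3 4 (enc_mul (enc_norm (enc_mul (sg3.enc h1 h2) (enc_inv (enc_add (enc_pnc _ 1) (enc_add (enc_half (cc3.enc h1 h2)) (enc_scale 1 4 (enc_add (enc_pnc _ 1) (enc_mul h2 h1)))))))) (enc_norm (enc_sub (enc_pnc _ 1) (enc_mul h2 (k3m_4.enc h1 h2))))))))⟩
noncomputable def pl_2 : Fn1 := ⟨_, _, fun h1 => (enc_neg (enc_pnc _ 1))⟩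
noncomputable def pl : Fn1 := ⟨_, _, fun h1 => (enc_norm (enc_mul (enc_norm (enc_add (enc_add (k3m.enc (pl_2.enc h1) h1) (enc_rat _ 109 250)) (pq.enc h1))) (enc_inv (enc_sub (xi3.enc (pl_2.enc h1) h1) (xiw.enc (pl_2.enc h1) h1)))))⟩
noncomputable def sl_2 : Fn2 := ⟨_, _, fun h1 h2 => (enc_neg h1)⟩
noncomputable def sl : Fn2 := ⟨_, _, fun h1 h2 => (enc_norm (enc_case (enc_subn 2 (sl_2.enc h1 h2)) (enc_mul (pl.enc h2) (enc_norm (enc_min (sl_2.enc h1 h2) (enc_pnc _ 1)))) (enc_rat _ 27 20)))⟩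
noncomputable def kwl : Fn2 := ⟨_, _, fun h1 h2 => (enc_norm (enc_sub (k3m.enc h1 h2) (enc_mul (sl.enc h1 h2) (enc_norm (enc_sub (xi3.enc h1 h2) (xiw.enc h1 h2))))))⟩
noncomputable def xwl : Fn2 := ⟨_, _, fun h1 h2 => (xw.enc (enc_neg h1) h2)⟩
noncomputable def rwl : Fn1 := ⟨_, _, fun h1 => (enc_norm (enc_add (enc_sub (rf.enc h1) (pp2.enc h1)) (enc_half (enc_mul (mm.enc h1) (enc_inv (ch.enc h1))))))⟩
noncomputable def r2l : Fn2 := ⟨_, _, fun h1 h2 => (enc_norm (enc_mul (rwl.enc h2) (gh.enc (enc_neg h1))))⟩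
noncomputable def x3m : Fn2 := ⟨_, _, fun h1 h2 => (enc_norm (enc_add (xa.enc (enc_neg (sg3.enc h1 h2)) h2) (xb.enc (enc_neg (enc_half (sg3.enc h1 h2))))))⟩
noncomputable def k3p_3 : Fn2 := ⟨_, _, fun h1 h2 => (dt.enc (sg3.enc h1 h2))⟩
noncomputable def k3p : Fn2 := ⟨_, _, fun h1 h2 => (enc_norm (enc_sub (enc_neg (enc_scale 3 2 (k3p_3.enc h1 h2))) (enc_scale 3 4 (enc_mul (enc_norm (enc_mul (sg3.enc h1 h2) (enc_inv (enc_add (enc_pnc _ 1) (enc_add (enc_half (cc3.enc h1 h2)) (enc_scale 1 4 (enc_add (enc_pnc _ 1) (enc_mul h2 h1)))))))) (enc_norm (enc_sub (enc_pnc _ 1) (enc_mul h2 (k3p_3.enc h1 h2))))))))⟩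
noncomputable def x3p : Fn2 := ⟨_, _, fun h1 h2 => (enc_norm (enc_sub (enc_nat 2 (xa.enc (sg3.enc h1 h2) h2)) (xb.enc (enc_half (sg3.enc h1 h2)))))⟩
noncomputable def kw1 : Fn2 := ⟨_, _, fun h1 h2 => (enc_norm (enc_add (enc_half h1) (enc_mul h2 (om.enc h1 h2))))⟩
noncomputable def kw2 : Fn2 := ⟨_, _, fun h1 h2 => (enc_norm (enc_add (enc_scale 3 2 h1) (enc_mul h2 (om.enc h1 h2))))⟩
noncomputable def kw3 : Fn2 := ⟨_, _, fun h1 h2 => (enc_norm (enc_sub (enc_mul h2 (om.enc h1 h2)) (enc_half h1)))⟩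
noncomputable def gf1 : Fn2 := ⟨_, _, fun h1 h2 => (enc_norm (enc_sub h2 (enc_half h1)))⟩
noncomputable def xi_T1AP1m : Fn3 := ⟨_, _, fun h1 h2 h3 => (enc_norm (enc_sub (zx.enc h1 h3) (xi1.enc h2 h3)))⟩
noncomputable def u_T1AP1mP1Wc : Fn3 := ⟨_, _, fun h1 h2 h3 => (enc_norm (enc_sub (xi_T1AP1m.enc h1 h2 h3) (xi1.enc (enc_norm (enc_add h1 h2)) h3)))⟩
noncomputable def k1m_zn : Fn4 := ⟨_, _, fun h1 h2 h3 h4 => (enc_neg (k1m.enc h2 h4))⟩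
noncomputable def k_P1Wc : Fn3 := ⟨_, _, fun h1 h2 h3 => (enc_norm (enc_add (k1p.enc h2 h3) (enc_mul h1 (su.enc h2 h3))))⟩
noncomputable def k_P1Wc_tp : Fn4 := ⟨_, _, fun h1 h2 h3 h4 => (k_P1Wc.enc h1 h3 h4)⟩
noncomputable def x1m_zn : Fn4 := ⟨_, _, fun h1 h2 h3 h4 => (enc_neg (x1m.enc h2 h4))⟩
noncomputable def slp_12 : Fn2 := ⟨_, _, fun h1 h2 => (enc_scale 3 4 (enc_mul (enc_norm (enc_add (enc_pnc _ 2) (enc_mul h2 h1))) (enc_inv (enc_add (enc_rat _ 1 2) (cc1.enc h1 h2)))))⟩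
noncomputable def slp_13 : Fn2 := ⟨_, _, fun h1 h2 => (enc_add (enc_rat _ 1 2) (slp_12.enc h1 h2))⟩
noncomputable def slp_14 : Fn2 := ⟨_, _, fun h1 h2 => (enc_mul (enc_norm (slp_13.enc h1 h2)) h1)⟩
noncomputable def slp_16 : Fn2 := ⟨_, _, fun h1 h2 => (enc_sub (enc_nat 2 (ch.enc h2)) (mm.enc h2))⟩
noncomputable def slp_17 : Fn2 := ⟨_, _, fun h1 h2 => (enc_sub (mm.enc h2) (ch.enc h2))⟩
noncomputable def slp : Fn2 := ⟨_, _, fun h1 h2 => (enc_norm (enc_case (enc_subr 2 5 h1) (enc_mul (enc_norm (enc_add (enc_sub (enc_add (slp_16.enc h1 h2) (enc_mul (enc_norm (slp_17.enc h1 h2)) h1)) (enc_mul (enc_norm (slp_13.enc h1 h2)) (enc_norm (enc_add (slp_16.enc h1 h2) (enc_mul (enc_norm (slp_17.enc h1 h2)) (enc_norm (slp_14.enc h1 h2))))))) (enc_mul (enc_norm (enc_half (slp_13.enc h1 h2))) (enc_norm (enc_add (enc_rat _ 181 500) (enc_scale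 209 2000 (slp_14.enc h1 h2))))))) (enc_inv (enc_sub (slp_12.enc h1 h2) (enc_mul h2 (enc_norm (enc_scale 3 4 (enc_mul h1 (enc_inv (enc_add (enc_pnc _ 1) (qw.enc h1 h2)))))))))) (enc_mul (enc_norm (enc_sub (xw.enc h1 h2) (x1p.enc h1 h2))) (enc_inv (enc_sub (xiw.enc h1 h2) (xi1.enc h1 h2))))))⟩
noncomputable def c_P1Wc : Fn3 := ⟨_, _, fun h1 h2 h3 => (enc_norm (enc_add (x1p.enc h2 h3) (enc_mul h1 (slp.enc h2 h3))))⟩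
noncomputable def c_P1Wc_tp : Fn4 := ⟨_, _, fun h1 h2 h3 h4 => (c_P1Wc.enc h1 h3 h4)⟩
noncomputable def vf1 : Fn7 := ⟨_, _, fun h1 h2 h3 h4 h5 h6 h7 => (enc_norm (enc_neg (enc_half (enc_sub (enc_add h5 h6) h7))))⟩
noncomputable def vf2 : Fn7 := ⟨_, _, fun h1 h2 h3 h4 h5 h6 h7 => (enc_norm (enc_half (enc_sub (enc_add h5 h6) h7)))⟩
noncomputable def lw : Fn3 := ⟨_, _, fun h1 h2 h3 => h1⟩
noncomputable def lt : Fn3 := ⟨_, _, fun h1 h2 h3 => h3⟩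
noncomputable def lnz : Fn3 := ⟨_, _, fun h1 h2 h3 => (enc_neg h2)⟩
noncomputable def gm2 : Fn5 := ⟨_, _, fun h1 h2 h3 h4 h5 => (enc_norm (enc_sub (enc_sub (enc_mul h2 h3) (enc_mul h1 h4)) (enc_mul h2 h5)))⟩
noncomputable def u_T1AP1mP1Ww : Fn3 := ⟨_, _, fun h1 h2 h3 => (enc_norm (enc_sub (xiw.enc (enc_norm (enc_add h1 h2)) h3) (xi_T1AP1m.enc h1 h2 h3)))⟩
noncomputable def k_P1Ww : Fn3 := ⟨_, _, fun h1 h2 h3 => (enc_norm (enc_sub (kwu.enc h2 h3) (enc_mul h1 (su.enc h2 h3))))⟩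
noncomputable def k_P1Ww_tp : Fn4 := ⟨_, _, fun h1 h2 h3 h4 => (k_P1Ww.enc h1 h3 h4)⟩
noncomputable def c_P1Ww : Fn3 := ⟨_, _, fun h1 h2 h3 => (enc_norm (enc_sub (xw.enc h2 h3) (enc_mul h1 (slp.enc h2 h3))))⟩
noncomputable def c_P1Ww_tp : Fn4 := ⟨_, _, fun h1 h2 h3 h4 => (c_P1Ww.enc h1 h3 h4)⟩
noncomputable def k12n : Fn2 := ⟨_, _, fun h1 h2 => (nkf.enc h2 (ka.enc h1 h2) (enc_pnc _ 1) (r2a.enc h1 h2))⟩
noncomputable def k1m_zn_m1_2_o : Fn4 := ⟨_, _, fun h1 h2 h3 h4 => (nk0.enc h4 (k1m_zn.enc h1 h2 h3 h4) (enc_neg (enc_rat _ 1 2)))⟩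
noncomputable def slr : Fn2 := ⟨_, _, fun h1 h2 => (enc_norm (enc_case (enc_subr 2 5 h1) (enc_mul (rwu.enc h2) (enc_inv (enc_sub (enc_scale 3 4 (enc_mul (enc_norm (enc_add (enc_pnc _ 2) (enc_mul h2 h1))) (enc_inv (enc_add (enc_rat _ 1 2) (cc1.enc h1 h2))))) (enc_mul h2 (enc_norm (enc_scale 3 4 (enc_mul h1 (enc_inv (enc_add (enc_pnc _ 1) (qw.enc h1 h2)))))))))) (enc_mul (r2u.enc h1 h2) (enc_inv (enc_sub (xiw.enc h1 h2) (xi1.enc h1 h2))))))⟩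
noncomputable def r_P1Wc : Fn3 := ⟨_, _, fun h1 h2 h3 => (enc_norm (enc_mul h1 (slr.enc h2 h3)))⟩
noncomputable def r_P1Wc_tp : Fn4 := ⟨_, _, fun h1 h2 h3 h4 => (r_P1Wc.enc h1 h3 h4)⟩
noncomputable def k_P1Wc_tp_1_2_i : Fn4 := ⟨_, _, fun h1 h2 h3 h4 => (nkf.enc h4 (k_P1Wc_tp.enc h1 h2 h3 h4) (enc_rat _ 1 2) (r_P1Wc_tp.enc h1 h2 h3 h4))⟩
noncomputable def ml1_9 : Fn7 := ⟨_, _, fun h1 h2 h3 h4 h5 h6 h7 => (enc_mul h4 h1)⟩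
noncomputable def ml1 : Fn7 := ⟨_, _, fun h1 h2 h3 h4 h5 h6 h7 => (enc_norm (enc_mul (mu.enc h4) (enc_norm (enc_sub (enc_half (enc_mul (enc_norm (enc_add (enc_pnc _ 3) h4)) (enc_norm (enc_sub (enc_add h5 h6) h7)))) (enc_half (enc_sub (enc_add (enc_mul (enc_norm (ml1_9.enc h1 h2 h3 h4 h5 h6 h7)) h5) (enc_mul (enc_norm (enc_add (enc_add (enc_pnc _ 1) (enc_nat 2 (ml1_9.enc h1 h2 h3 h4 h5 h6 h7))) (enc_mul h4 h2))) h6)) (enc_mul (enc_norm (enc_add (enc_pnc _ 1) (enc_mul h4 h3))) h7)))))))⟩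
noncomputable def ml2_12 : Fn7 := ⟨_, _, fun h1 h2 h3 h4 h5 h6 h7 => (enc_add (enc_pnc _ 1) (enc_mul h4 h2))⟩
noncomputable def ml2 : Fn7 := ⟨_, _, fun h1 h2 h3 h4 h5 h6 h7 => (enc_norm (enc_mul (mu.enc h4) (enc_norm (enc_sub (enc_half (enc_sub (enc_add (enc_mul (enc_norm (ml2_12.enc h1 h2 h3 h4 h5 h6 h7)) h6) (enc_mul (enc_norm (enc_add (enc_nat 2 (ml2_12.enc h1 h2 h3 h4 h5 h6 h7)) (enc_mul h4 h1))) h5)) (enc_mul (enc_norm (enc_add (enc_pnc _ 1) (enc_mul h4 h3))) h7))) (enc_half (enc_mul (enc_norm (enc_add (enc_pnc _ 3) h4)) (enc_norm (enc_sub (enc_add h5 h6) h7))))))))⟩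
noncomputable def k12m : Fn2 := ⟨_, _, fun h1 h2 => (nk0.enc h2 (ka.enc h1 h2) (enc_pnc _ 1))⟩
noncomputable def k_P1Wc_tp_1_2_o : Fn4 := ⟨_, _, fun h1 h2 h3 h4 => (nk0.enc h4 (k_P1Wc_tp.enc h1 h2 h3 h4) (enc_rat _ 1 2))⟩
noncomputable def r_P1Ww : Fn3 := ⟨_, _, fun h1 h2 h3 => (enc_norm (enc_sub (r2u.enc h2 h3) (enc_mul h1 (slr.enc h2 h3))))⟩
noncomputable def r_P1Ww_tp : Fn4 := ⟨_, _, fun h1 h2 h3 h4 => (r_P1Ww.enc h1 h3 h4)⟩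
noncomputable def k_P1Ww_tp_1_2_i : Fn4 := ⟨_, _, fun h1 h2 h3 h4 => (nkf.enc h4 (k_P1Ww_tp.enc h1 h2 h3 h4) (enc_rat _ 1 2) (r_P1Ww_tp.enc h1 h2 h3 h4))⟩
noncomputable def xi_T1AP1p : Fn3 := ⟨_, _, fun h1 h2 h3 => (enc_norm (enc_sub (zx.enc h1 h3) (xi1.enc h2 h3)))⟩
noncomputable def u_T1AP1pPWbc : Fn3 := ⟨_, _, fun h1 h2 h3 => (enc_norm (enc_sub (xi_T1AP1p.enc h1 h2 h3) (xiw.enc (enc_norm (enc_add h1 h2)) h3)))⟩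
noncomputable def k1p_zn : Fn4 := ⟨_, _, fun h1 h2 h3 h4 => (enc_neg (k1p.enc h2 h4))⟩
noncomputable def k_PWb : Fn3 := ⟨_, _, fun h1 h2 h3 => (enc_norm (enc_add (kwu.enc h2 h3) (enc_scale 353 500 h1)))⟩
noncomputable def k_PWb_tp : Fn4 := ⟨_, _, fun h1 h2 h3 h4 => (k_PWb.enc h1 h3 h4)⟩
noncomputable def x1p_zn : Fn4 := ⟨_, _, fun h1 h2 h3 h4 => (enc_neg (x1p.enc h2 h4))⟩
noncomputable def xw_tp : Fn4 := ⟨_, _, fun h1 h2 h3 h4 => (xw.enc h3 h4)⟩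
noncomputable def lz : Fn3 := ⟨_, _, fun h1 h2 h3 => h2⟩
noncomputable def gm1 : Fn4 := ⟨_, _, fun h1 h2 h3 h4 => (enc_norm (enc_sub (enc_mul h2 h3) (enc_mul h1 h4)))⟩
noncomputable def gq1 : Fn5 := ⟨_, _, fun h1 h2 h3 h4 h5 => (gm1.enc h1 h2 h3 h4)⟩
noncomputable def k1p_zn_m1_2_o : Fn4 := ⟨_, _, fun h1 h2 h3 h4 => (nk0.enc h4 (k1p_zn.enc h1 h2 h3 h4) (enc_neg (enc_rat _ 1 2)))⟩
noncomputable def r2u_tp : Fn4 := ⟨_, _, fun h1 h2 h3 h4 => (r2u.enc h3 h4)⟩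
noncomputable def k_PWb_tp_1_2_i : Fn4 := ⟨_, _, fun h1 h2 h3 h4 => (nkf.enc h4 (k_PWb_tp.enc h1 h2 h3 h4) (enc_rat _ 1 2) (r2u_tp.enc h1 h2 h3 h4))⟩
noncomputable def xi_T1APW : Fn3 := ⟨_, _, fun h1 h2 h3 => (enc_norm (enc_sub (zx.enc h1 h3) (xiw.enc h2 h3)))⟩
noncomputable def u_T1APWPWbc : Fn3 := ⟨_, _, fun h1 h2 h3 => (enc_norm (enc_sub (xi_T1APW.enc h1 h2 h3) (xiw.enc (enc_norm (enc_add h1 h2)) h3)))⟩
noncomputable def kwu_zn : Fn4 := ⟨_, _, fun h1 h2 h3 h4 => (enc_neg (kwu.enc h2 h4))⟩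
noncomputable def xw_zn : Fn4 := ⟨_, _, fun h1 h2 h3 h4 => (enc_neg (xw.enc h2 h4))⟩
noncomputable def r2u_zn : Fn4 := ⟨_, _, fun h1 h2 h3 h4 => (enc_neg (r2u.enc h2 h4))⟩
noncomputable def kwu_zn_m1_2_i : Fn4 := ⟨_, _, fun h1 h2 h3 h4 => (nkf.enc h4 (kwu_zn.enc h1 h2 h3 h4) (enc_neg (enc_rat _ 1 2)) (r2u_zn.enc h1 h2 h3 h4))⟩
noncomputable def xi_T1BP1p : Fn3 := ⟨_, _, fun h1 h2 h3 => (xi1.enc (enc_norm (enc_add h1 h2)) h3)⟩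
noncomputable def u_T1BP1pP1ac : Fn3 := ⟨_, _, fun h1 h2 h3 => (enc_norm (enc_sub (enc_sub (zx.enc h1 h3) (xi_T1BP1p.enc h1 h2 h3)) (xi1.enc h2 h3)))⟩
noncomputable def k_P1a : Fn3 := ⟨_, _, fun h1 h2 h3 => (enc_norm (enc_add (k1m.enc h2 h3) (enc_scale 353 500 h1)))⟩
noncomputable def k_P1a_zn : Fn4 := ⟨_, _, fun h1 h2 h3 h4 => (enc_neg (k_P1a.enc h1 h2 h4))⟩
noncomputable def k1p_tp : Fn4 := ⟨_, _, fun h1 h2 h3 h4 => (k1p.enc h3 h4)⟩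
noncomputable def x1p_tp : Fn4 := ⟨_, _, fun h1 h2 h3 h4 => (x1p.enc h3 h4)⟩
noncomputable def k_P1a_zn_m1_2_o : Fn4 := ⟨_, _, fun h1 h2 h3 h4 => (nk0.enc h4 (k_P1a_zn.enc h1 h2 h3 h4) (enc_neg (enc_rat _ 1 2)))⟩
noncomputable def k1p_tp_1_2_o : Fn4 := ⟨_, _, fun h1 h2 h3 h4 => (nk0.enc h4 (k1p_tp.enc h1 h2 h3 h4) (enc_rat _ 1 2))⟩
noncomputable def zr4 : Fn4 := ⟨_, _, fun h1 h2 h3 h4 => (enc_pnc _ 0)⟩
noncomputable def u_T1BP1pPWbc : Fn3 := ⟨_, _, fun h1 h2 h3 => (enc_norm (enc_sub (enc_sub (zx.enc h1 h3) (xi_T1BP1p.enc h1 h2 h3)) (xiw.enc h2 h3)))⟩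
noncomputable def k_PWb_zn : Fn4 := ⟨_, _, fun h1 h2 h3 h4 => (enc_neg (k_PWb.enc h1 h2 h4))⟩
noncomputable def k_PWb_zn_m1_2_i : Fn4 := ⟨_, _, fun h1 h2 h3 h4 => (nkf.enc h4 (k_PWb_zn.enc h1 h2 h3 h4) (enc_neg (enc_rat _ 1 2)) (r2u_zn.enc h1 h2 h3 h4))⟩
noncomputable def xi_T1BPW : Fn3 := ⟨_, _, fun h1 h2 h3 => (xiw.enc (enc_norm (enc_add h1 h2)) h3)⟩
noncomputable def u_T1BPWPWbc : Fn3 := ⟨_, _, fun h1 h2 h3 => (enc_norm (enc_sub (enc_sub (zx.enc h1 h3) (xi_T1BPW.enc h1 h2 h3)) (xiw.enc h2 h3)))⟩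
noncomputable def kwu_tp : Fn4 := ⟨_, _, fun h1 h2 h3 h4 => (kwu.enc h3 h4)⟩
noncomputable def kwu_tp_1_2_i : Fn4 := ⟨_, _, fun h1 h2 h3 h4 => (nkf.enc h4 (kwu_tp.enc h1 h2 h3 h4) (enc_rat _ 1 2) (r2u_tp.enc h1 h2 h3 h4))⟩
noncomputable def gf2 : Fn2 := ⟨_, _, fun h1 h2 => (enc_norm (enc_add h2 (enc_half h1)))⟩
noncomputable def xi_T2AQW : Fn3 := ⟨_, _, fun h1 h2 h3 => (enc_norm (enc_sub (zx.enc h1 h3) (xiw.enc h2 h3)))⟩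
noncomputable def u_T2AQWPWbc : Fn3 := ⟨_, _, fun h1 h2 h3 => (enc_norm (enc_sub (enc_neg (xi_T2AQW.enc h1 h2 h3)) (xiw.enc (enc_norm (enc_add h1 h2)) h3)))⟩
noncomputable def kwl_zn : Fn4 := ⟨_, _, fun h1 h2 h3 h4 => (enc_neg (kwl.enc h2 h4))⟩
noncomputable def k_PWb_tn : Fn4 := ⟨_, _, fun h1 h2 h3 h4 => (enc_neg (k_PWb.enc h1 h3 h4))⟩
noncomputable def xwl_zn : Fn4 := ⟨_, _, fun h1 h2 h3 h4 => (enc_neg (xwl.enc h2 h4))⟩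
noncomputable def xw_tn : Fn4 := ⟨_, _, fun h1 h2 h3 h4 => (enc_neg (xw.enc h3 h4))⟩
noncomputable def r2l_zn : Fn4 := ⟨_, _, fun h1 h2 h3 h4 => (enc_neg (r2l.enc h2 h4))⟩
noncomputable def kwl_zn_m3_2_i : Fn4 := ⟨_, _, fun h1 h2 h3 h4 => (nkf.enc h4 (kwl_zn.enc h1 h2 h3 h4) (enc_neg (enc_rat _ 3 2)) (r2l_zn.enc h1 h2 h3 h4))⟩
noncomputable def r2u_tn : Fn4 := ⟨_, _, fun h1 h2 h3 h4 => (enc_neg (r2u.enc h3 h4))⟩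
noncomputable def k_PWb_tn_m1_2_i : Fn4 := ⟨_, _, fun h1 h2 h3 h4 => (nkf.enc h4 (k_PWb_tn.enc h1 h2 h3 h4) (enc_neg (enc_rat _ 1 2)) (r2u_tn.enc h1 h2 h3 h4))⟩
noncomputable def xi_T2AQ3m : Fn3 := ⟨_, _, fun h1 h2 h3 => (enc_norm (enc_sub (zx.enc h1 h3) (xi3.enc h2 h3)))⟩
noncomputable def u_T2AQ3mP1ac : Fn3 := ⟨_, _, fun h1 h2 h3 => (enc_norm (enc_sub (enc_neg (xi_T2AQ3m.enc h1 h2 h3)) (xi1.enc (enc_norm (enc_add h1 h2)) h3)))⟩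
noncomputable def k3m_zn : Fn4 := ⟨_, _, fun h1 h2 h3 h4 => (enc_neg (k3m.enc h2 h4))⟩
noncomputable def k_P1a_tn : Fn4 := ⟨_, _, fun h1 h2 h3 h4 => (enc_neg (k_P1a.enc h1 h3 h4))⟩
noncomputable def x3m_zn : Fn4 := ⟨_, _, fun h1 h2 h3 h4 => (enc_neg (x3m.enc h2 h4))⟩
noncomputable def x1m_tn : Fn4 := ⟨_, _, fun h1 h2 h3 h4 => (enc_neg (x1m.enc h3 h4))⟩
noncomputable def lnt : Fn3 := ⟨_, _, fun h1 h2 h3 => (enc_neg h3)⟩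
noncomputable def gm3 : Fn5 := ⟨_, _, fun h1 h2 h3 h4 h5 => (enc_norm (enc_add (enc_sub (enc_mul h2 h3) (enc_mul h1 h4)) (enc_mul h1 h5)))⟩
noncomputable def k3m_zn_m3_2_o : Fn4 := ⟨_, _, fun h1 h2 h3 h4 => (nk0.enc h4 (k3m_zn.enc h1 h2 h3 h4) (enc_neg (enc_rat _ 3 2)))⟩
noncomputable def k_P1a_tn_m1_2_o : Fn4 := ⟨_, _, fun h1 h2 h3 h4 => (nk0.enc h4 (k_P1a_tn.enc h1 h2 h3 h4) (enc_neg (enc_rat _ 1 2)))⟩
noncomputable def u_T2AQ3mPWbc : Fn3 := ⟨_, _, fun h1 h2 h3 => (enc_norm (enc_sub (enc_neg (xi_T2AQ3m.enc h1 h2 h3)) (xiw.enc (enc_norm (enc_add h1 h2)) h3)))⟩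
noncomputable def xi_T2AQ3p : Fn3 := ⟨_, _, fun h1 h2 h3 => (enc_norm (enc_sub (zx.enc h1 h3) (xi3.enc h2 h3)))⟩
noncomputable def u_T2AQ3pP1Wc : Fn3 := ⟨_, _, fun h1 h2 h3 => (enc_norm (enc_sub (enc_neg (xi_T2AQ3p.enc h1 h2 h3)) (xi1.enc (enc_norm (enc_add h1 h2)) h3)))⟩
noncomputable def k3p_zn : Fn4 := ⟨_, _, fun h1 h2 h3 h4 => (enc_neg (k3p.enc h2 h4))⟩
noncomputable def k_P1Wc_tn : Fn4 := ⟨_, _, fun h1 h2 h3 h4 => (enc_neg (k_P1Wc.enc h1 h3 h4))⟩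
noncomputable def x3p_zn : Fn4 := ⟨_, _, fun h1 h2 h3 h4 => (enc_neg (x3p.enc h2 h4))⟩
noncomputable def c_P1Wc_tn : Fn4 := ⟨_, _, fun h1 h2 h3 h4 => (enc_neg (c_P1Wc.enc h1 h3 h4))⟩
noncomputable def u_T2AQ3pP1Wg : Fn3 := ⟨_, _, fun h1 h2 h3 => (enc_norm (enc_add (xiw.enc (enc_norm (enc_add h1 h2)) h3) (xi_T2AQ3p.enc h1 h2 h3)))⟩
noncomputable def k_P1Wg : Fn3 := ⟨_, _, fun h1 h2 h3 => (enc_norm (enc_add (enc_sub (kwu.enc h2 h3) (enc_mul (enc_pos h1) (su.enc h2 h3))) (enc_scale 353 500 (enc_pos (enc_neg h1)))))⟩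
noncomputable def k_P1Wg_tn : Fn4 := ⟨_, _, fun h1 h2 h3 h4 => (enc_neg (k_P1Wg.enc h1 h3 h4))⟩
noncomputable def c_P1Wg : Fn3 := ⟨_, _, fun h1 h2 h3 => (enc_norm (enc_sub (xw.enc h2 h3) (enc_mul (enc_pos h1) (slp.enc h2 h3))))⟩
noncomputable def c_P1Wg_tn : Fn4 := ⟨_, _, fun h1 h2 h3 h4 => (enc_neg (c_P1Wg.enc h1 h3 h4))⟩
noncomputable def k3p_zn_m3_2_o : Fn4 := ⟨_, _, fun h1 h2 h3 h4 => (nk0.enc h4 (k3p_zn.enc h1 h2 h3 h4) (enc_neg (enc_rat _ 3 2)))⟩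
noncomputable def r_P1Wc_tn : Fn4 := ⟨_, _, fun h1 h2 h3 h4 => (enc_neg (r_P1Wc.enc h1 h3 h4))⟩
noncomputable def k_P1Wc_tn_m1_2_i : Fn4 := ⟨_, _, fun h1 h2 h3 h4 => (nkf.enc h4 (k_P1Wc_tn.enc h1 h2 h3 h4) (enc_neg (enc_rat _ 1 2)) (r_P1Wc_tn.enc h1 h2 h3 h4))⟩
noncomputable def u_T2AQ3pPWbc : Fn3 := ⟨_, _, fun h1 h2 h3 => (enc_norm (enc_sub (enc_neg (xi_T2AQ3p.enc h1 h2 h3)) (xiw.enc (enc_norm (enc_add h1 h2)) h3)))⟩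
noncomputable def xi_T2BP1m : Fn3 := ⟨_, _, fun h1 h2 h3 => (enc_neg (xi1.enc (enc_norm (enc_add h1 h2)) h3))⟩
noncomputable def u_T2BP1mQW3c : Fn3 := ⟨_, _, fun h1 h2 h3 => (enc_norm (enc_sub (xi3.enc h2 h3) (enc_sub (zx.enc h1 h3) (xi_T2BP1m.enc h1 h2 h3))))⟩
noncomputable def k_QW3c : Fn3 := ⟨_, _, fun h1 h2 h3 => (enc_norm (enc_sub (k3m.enc h2 h3) (enc_mul h1 (sl.enc h2 h3))))⟩
noncomputable def k_QW3c_zn : Fn4 := ⟨_, _, fun h1 h2 h3 h4 => (enc_neg (k_QW3c.enc h1 h2 h4))⟩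
noncomputable def k1m_tn : Fn4 := ⟨_, _, fun h1 h2 h3 h4 => (enc_neg (k1m.enc h3 h4))⟩
noncomputable def slq_2 : Fn2 := ⟨_, _, fun h1 h2 => (enc_neg h1)⟩
noncomputable def slq_12 : Fn2 := ⟨_, _, fun h1 h2 => (enc_mul (enc_norm (enc_add (enc_pnc _ 2) (enc_mul h2 h1))) (enc_inv (enc_add (enc_rat _ 3 2) (cc3.enc h1 h2))))⟩
noncomputable def slq_16 : Fn2 := ⟨_, _, fun h1 h2 => (enc_add (enc_rat _ 1 2) (enc_scale 1 4 (slq_12.enc h1 h2)))⟩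
noncomputable def slq_17 : Fn2 := ⟨_, _, fun h1 h2 => (enc_mul (enc_norm (slq_16.enc h1 h2)) h1)⟩
noncomputable def slq_20 : Fn2 := ⟨_, _, fun h1 h2 => (enc_sub (enc_nat 2 (ch.enc h2)) (mm.enc h2))⟩
noncomputable def slq_21 : Fn2 := ⟨_, _, fun h1 h2 => (enc_sub (mm.enc h2) (ch.enc h2))⟩
noncomputable def slq : Fn2 := ⟨_, _, fun h1 h2 => (enc_norm (enc_case (enc_subr 2 5 (slq_2.enc h1 h2)) (enc_mul (enc_norm (enc_sub (enc_add (enc_mul (enc_norm (slq_16.enc h1 h2)) (enc_norm (enc_sub (slq_20.enc h1 h2) (enc_mul (enc_norm (slq_21.enc h1 h2)) (enc_norm (slq_17.enc h1 h2)))))) (enc_mul (enc_norm (enc_half (slq_16.enc h1 h2))) (enc_norm (enc_sub (enc_rat _ 181 500) (enc_scale 209 2000 (slq_17.enc h1 h2)))))) (enc_sub (slq_20.enc h1 h2) (enc_mul (enc_norm (slq_21.enc h1 h2)) h1)))) (enc_inv (enc_sub (enc_scale 3 4 (slq_12.enc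 h1 h2)) (enc_mul h2 (enc_norm (enc_scale 3 4 (enc_mul h1 (enc_inv (enc_add (enc_pnc _ 1) (qw.enc h1 h2)))))))))) (enc_mul (enc_norm (enc_sub (x3m.enc h1 h2) (xw.enc (slq_2.enc h1 h2) h2))) (enc_inv (enc_sub (xi3.enc h1 h2) (xiw.enc h1 h2))))))⟩
noncomputable def c_QW3c : Fn3 := ⟨_, _, fun h1 h2 h3 => (enc_norm (enc_sub (x3m.enc h2 h3) (enc_mul h1 (slq.enc h2 h3))))⟩
noncomputable def c_QW3c_zn : Fn4 := ⟨_, _, fun h1 h2 h3 h4 => (enc_neg (c_QW3c.enc h1 h2 h4))⟩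
noncomputable def u_T2BP1mQW3w : Fn3 := ⟨_, _, fun h1 h2 h3 => (enc_norm (enc_sub (enc_sub (zx.enc h1 h3) (xi_T2BP1m.enc h1 h2 h3)) (xiw.enc h2 h3)))⟩
noncomputable def k_QW3w : Fn3 := ⟨_, _, fun h1 h2 h3 => (enc_norm (enc_add (kwl.enc h2 h3) (enc_mul h1 (sl.enc h2 h3))))⟩
noncomputable def k_QW3w_zn : Fn4 := ⟨_, _, fun h1 h2 h3 h4 => (enc_neg (k_QW3w.enc h1 h2 h4))⟩
noncomputable def c_QW3w : Fn3 := ⟨_, _, fun h1 h2 h3 => (enc_norm (enc_add (xwl.enc h2 h3) (enc_mul h1 (slq.enc h2 h3))))⟩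
noncomputable def c_QW3w_zn : Fn4 := ⟨_, _, fun h1 h2 h3 h4 => (enc_neg (c_QW3w.enc h1 h2 h4))⟩
noncomputable def sls : Fn2 := ⟨_, _, fun h1 h2 => (enc_norm (enc_case (enc_subr 2 5 (enc_neg h1)) (enc_mul (rwl.enc h2) (enc_inv (enc_sub (enc_scale 3 4 (enc_mul (enc_norm (enc_add (enc_pnc _ 2) (enc_mul h2 h1))) (enc_inv (enc_add (enc_rat _ 3 2) (cc3.enc h1 h2))))) (enc_mul h2 (enc_norm (enc_scale 3 4 (enc_mul h1 (enc_inv (enc_add (enc_pnc _ 1) (qw.enc h1 h2)))))))))) (enc_mul (r2l.enc h1 h2) (enc_inv (enc_sub (xi3.enc h1 h2) (xiw.enc h1 h2))))))⟩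
noncomputable def r_QW3c : Fn3 := ⟨_, _, fun h1 h2 h3 => (enc_norm (enc_mul h1 (sls.enc h2 h3)))⟩
noncomputable def r_QW3c_zn : Fn4 := ⟨_, _, fun h1 h2 h3 h4 => (enc_neg (r_QW3c.enc h1 h2 h4))⟩
noncomputable def k_QW3c_zn_m3_2_i : Fn4 := ⟨_, _, fun h1 h2 h3 h4 => (nkf.enc h4 (k_QW3c_zn.enc h1 h2 h3 h4) (enc_neg (enc_rat _ 3 2)) (r_QW3c_zn.enc h1 h2 h3 h4))⟩
noncomputable def k1m_tn_m1_2_o : Fn4 := ⟨_, _, fun h1 h2 h3 h4 => (nk0.enc h4 (k1m_tn.enc h1 h2 h3 h4) (enc_neg (enc_rat _ 1 2)))⟩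
noncomputable def k_QW3c_zn_m3_2_o : Fn4 := ⟨_, _, fun h1 h2 h3 h4 => (nk0.enc h4 (k_QW3c_zn.enc h1 h2 h3 h4) (enc_neg (enc_rat _ 3 2)))⟩
noncomputable def r_QW3w : Fn3 := ⟨_, _, fun h1 h2 h3 => (enc_norm (enc_sub (r2l.enc h2 h3) (enc_mul h1 (sls.enc h2 h3))))⟩
noncomputable def r_QW3w_zn : Fn4 := ⟨_, _, fun h1 h2 h3 h4 => (enc_neg (r_QW3w.enc h1 h2 h4))⟩
noncomputable def k_QW3w_zn_m3_2_i : Fn4 := ⟨_, _, fun h1 h2 h3 h4 => (nkf.enc h4 (k_QW3w_zn.enc h1 h2 h3 h4) (enc_neg (enc_rat _ 3 2)) (r_QW3w_zn.enc h1 h2 h3 h4))⟩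
noncomputable def xi_T2BP1p : Fn3 := ⟨_, _, fun h1 h2 h3 => (enc_neg (xi1.enc (enc_norm (enc_add h1 h2)) h3))⟩
noncomputable def u_T2BP1pQaWc : Fn3 := ⟨_, _, fun h1 h2 h3 => (enc_norm (enc_sub (enc_sub (zx.enc h1 h3) (xi_T2BP1p.enc h1 h2 h3)) (xiw.enc h2 h3)))⟩
noncomputable def saw_7 : Fn2 := ⟨_, _, fun h1 h2 => (enc_add (enc_pnc _ 1) (enc_mul h2 (enc_norm (enc_sub (xiw.enc h1 h2) (xi1.enc h1 h2)))))⟩
noncomputable def saw : Fn2 := ⟨_, _, fun h1 h2 => (enc_norm (enc_scale 3 2 (enc_mul (enc_norm (enc_sub (enc_add (enc_pnc _ 1) (enc_mul h2 (enc_norm (enc_sub (kwl.enc h1 h2) (k1m.enc h1 h2))))) (enc_scale 353 1500 (saw_7.enc h1 h2)))) (enc_inv (saw_7.enc h1 h2)))))⟩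
noncomputable def k_QaW : Fn3 := ⟨_, _, fun h1 h2 h3 => (enc_norm (enc_add (kwl.enc h2 h3) (enc_mul h1 (saw.enc h2 h3))))⟩
noncomputable def k_QaW_zn : Fn4 := ⟨_, _, fun h1 h2 h3 h4 => (enc_neg (k_QaW.enc h1 h2 h4))⟩
noncomputable def k1p_tn : Fn4 := ⟨_, _, fun h1 h2 h3 h4 => (enc_neg (k1p.enc h3 h4))⟩
noncomputable def dwl : Fn2 := ⟨_, _, fun h1 h2 => (enc_norm (enc_add (enc_pnc _ 1) (enc_mul h2 (enc_norm (enc_sub (xiw.enc h1 h2) (xi1.enc h1 h2))))))⟩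
noncomputable def ql : Fn2 := ⟨_, _, fun h1 h2 => (enc_norm (enc_mul h2 (enc_inv (enc_scale 2 3 (dwl.enc h1 h2)))))⟩
noncomputable def c_QaW : Fn3 := ⟨_, _, fun h1 h2 h3 => (enc_norm (enc_add (xwl.enc h2 h3) (enc_mul h1 (enc_norm (enc_mul (enc_norm (enc_sub (xwl.enc h2 h3) (x1m.enc h2 h3))) (ql.enc h2 h3))))))⟩
noncomputable def c_QaW_zn : Fn4 := ⟨_, _, fun h1 h2 h3 h4 => (enc_neg (c_QaW.enc h1 h2 h4))⟩
noncomputable def x1p_tn : Fn4 := ⟨_, _, fun h1 h2 h3 h4 => (enc_neg (x1p.enc h3 h4))⟩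
noncomputable def r_QaW : Fn3 := ⟨_, _, fun h1 h2 h3 => (enc_norm (enc_add (r2l.enc h2 h3) (enc_mul h1 (enc_norm (enc_mul (ql.enc h2 h3) (r2l.enc h2 h3))))))⟩
noncomputable def r_QaW_zn : Fn4 := ⟨_, _, fun h1 h2 h3 h4 => (enc_neg (r_QaW.enc h1 h2 h4))⟩
noncomputable def k_QaW_zn_m3_2_i : Fn4 := ⟨_, _, fun h1 h2 h3 h4 => (nkf.enc h4 (k_QaW_zn.enc h1 h2 h3 h4) (enc_neg (enc_rat _ 3 2)) (r_QaW_zn.enc h1 h2 h3 h4))⟩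
noncomputable def k1p_tn_m1_2_o : Fn4 := ⟨_, _, fun h1 h2 h3 h4 => (nk0.enc h4 (k1p_tn.enc h1 h2 h3 h4) (enc_neg (enc_rat _ 1 2)))⟩
noncomputable def u_T2BP1pQb3c : Fn3 := ⟨_, _, fun h1 h2 h3 => (enc_norm (enc_sub (enc_sub (zx.enc h1 h3) (xi_T2BP1p.enc h1 h2 h3)) (xi3.enc h2 h3)))⟩
noncomputable def sbc : Fn2 := ⟨_, _, fun h1 h2 => (enc_norm (enc_scale 20 17 (enc_subr 1059 10000 (enc_mul (enc_norm (enc_add (enc_pnc _ 1) (enc_mul h2 (enc_norm (enc_sub (k3p.enc h1 h2) (kwu.enc h1 h2)))))) (enc_inv (enc_add (enc_pnc _ 1) (enc_mul h2 (enc_norm (enc_sub (xi3.enc h1 h2) (xiw.enc h1 h2))))))))))⟩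
noncomputable def k_Qb3 : Fn3 := ⟨_, _, fun h1 h2 h3 => (enc_norm (enc_add (k3p.enc h2 h3) (enc_mul h1 (sbc.enc h2 h3))))⟩
noncomputable def k_Qb3_zn : Fn4 := ⟨_, _, fun h1 h2 h3 h4 => (enc_neg (k_Qb3.enc h1 h2 h4))⟩
noncomputable def dwu : Fn2 := ⟨_, _, fun h1 h2 => (enc_norm (enc_add (enc_pnc _ 1) (enc_mul h2 (enc_norm (enc_sub (xi3.enc h1 h2) (xiw.enc h1 h2))))))⟩
noncomputable def qu : Fn2 := ⟨_, _, fun h1 h2 => (enc_norm (enc_mul h2 (enc_inv (enc_scale 17 20 (dwu.enc h1 h2)))))⟩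
noncomputable def c_Qb3 : Fn3 := ⟨_, _, fun h1 h2 h3 => (enc_norm (enc_add (x3p.enc h2 h3) (enc_mul h1 (enc_norm (enc_mul (enc_norm (enc_sub (x3p.enc h2 h3) (xw.enc h2 h3))) (qu.enc h2 h3))))))⟩
noncomputable def c_Qb3_zn : Fn4 := ⟨_, _, fun h1 h2 h3 h4 => (enc_neg (c_Qb3.enc h1 h2 h4))⟩
noncomputable def r_Qb3 : Fn3 := ⟨_, _, fun h1 h2 h3 => (enc_norm (enc_neg (enc_mul h1 (enc_norm (enc_mul (r2u.enc h2 h3) (qu.enc h2 h3))))))⟩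
noncomputable def r_Qb3_zn : Fn4 := ⟨_, _, fun h1 h2 h3 h4 => (enc_neg (r_Qb3.enc h1 h2 h4))⟩
noncomputable def k_Qb3_zn_m3_2_i : Fn4 := ⟨_, _, fun h1 h2 h3 h4 => (nkf.enc h4 (k_Qb3_zn.enc h1 h2 h3 h4) (enc_neg (enc_rat _ 3 2)) (r_Qb3_zn.enc h1 h2 h3 h4))⟩
noncomputable def xi_T2BPW : Fn3 := ⟨_, _, fun h1 h2 h3 => (enc_neg (xiw.enc (enc_norm (enc_add h1 h2)) h3))⟩
noncomputable def u_T2BPWQaWc : Fn3 := ⟨_, _, fun h1 h2 h3 => (enc_norm (enc_sub (enc_sub (zx.enc h1 h3) (xi_T2BPW.enc h1 h2 h3)) (xiw.enc h2 h3)))⟩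
noncomputable def kwu_tn : Fn4 := ⟨_, _, fun h1 h2 h3 h4 => (enc_neg (kwu.enc h3 h4))⟩
noncomputable def kwu_tn_m1_2_i : Fn4 := ⟨_, _, fun h1 h2 h3 h4 => (nkf.enc h4 (kwu_tn.enc h1 h2 h3 h4) (enc_neg (enc_rat _ 1 2)) (r2u_tn.enc h1 h2 h3 h4))⟩
noncomputable def u_T2BPWQb3c : Fn3 := ⟨_, _, fun h1 h2 h3 => (enc_norm (enc_sub (enc_sub (zx.enc h1 h3) (xi_T2BPW.enc h1 h2 h3)) (xi3.enc h2 h3)))⟩
noncomputable def gf3 : Fn2 := ⟨_, _, fun h1 h2 => (enc_norm (enc_sub h2 (enc_scale 3 2 h1)))⟩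
noncomputable def xi_T2pAP1p : Fn3 := ⟨_, _, fun h1 h2 h3 => (enc_norm (enc_add (zx.enc h1 h3) (xi1.enc h2 h3)))⟩
noncomputable def u_T2pAP1pQb3c : Fn3 := ⟨_, _, fun h1 h2 h3 => (enc_norm (enc_sub (xi_T2pAP1p.enc h1 h2 h3) (xi3.enc (enc_norm (enc_add h1 h2)) h3)))⟩
noncomputable def k1p_zp : Fn4 := ⟨_, _, fun h1 h2 h3 h4 => (k1p.enc h2 h4)⟩
noncomputable def k_Qb3_tp : Fn4 := ⟨_, _, fun h1 h2 h3 h4 => (k_Qb3.enc h1 h3 h4)⟩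
noncomputable def x1p_zp : Fn4 := ⟨_, _, fun h1 h2 h3 h4 => (x1p.enc h2 h4)⟩
noncomputable def c_Qb3_tp : Fn4 := ⟨_, _, fun h1 h2 h3 h4 => (c_Qb3.enc h1 h3 h4)⟩
noncomputable def k1p_zp_1_2_o : Fn4 := ⟨_, _, fun h1 h2 h3 h4 => (nk0.enc h4 (k1p_zp.enc h1 h2 h3 h4) (enc_rat _ 1 2))⟩
noncomputable def r_Qb3_tp : Fn4 := ⟨_, _, fun h1 h2 h3 h4 => (r_Qb3.enc h1 h3 h4)⟩
noncomputable def k_Qb3_tp_3_2_i : Fn4 := ⟨_, _, fun h1 h2 h3 h4 => (nkf.enc h4 (k_Qb3_tp.enc h1 h2 h3 h4) (enc_rat _ 3 2) (r_Qb3_tp.enc h1 h2 h3 h4))⟩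
noncomputable def k_Qb3_tp_3_2_o : Fn4 := ⟨_, _, fun h1 h2 h3 h4 => (nk0.enc h4 (k_Qb3_tp.enc h1 h2 h3 h4) (enc_rat _ 3 2))⟩
noncomputable def xi_T2pBQ3p : Fn3 := ⟨_, _, fun h1 h2 h3 => (xi3.enc (enc_norm (enc_add h1 h2)) h3)⟩
noncomputable def u_T2pBQ3pP1Wc : Fn3 := ⟨_, _, fun h1 h2 h3 => (enc_norm (enc_sub (enc_sub (xi_T2pBQ3p.enc h1 h2 h3) (zx.enc h1 h3)) (xi1.enc h2 h3)))⟩
noncomputable def k_P1Wc_zp : Fn4 := ⟨_, _, fun h1 h2 h3 h4 => (k_P1Wc.enc h1 h2 h4)⟩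
noncomputable def k3p_tp : Fn4 := ⟨_, _, fun h1 h2 h3 h4 => (k3p.enc h3 h4)⟩
noncomputable def c_P1Wc_zp : Fn4 := ⟨_, _, fun h1 h2 h3 h4 => (c_P1Wc.enc h1 h2 h4)⟩
noncomputable def x3p_tp : Fn4 := ⟨_, _, fun h1 h2 h3 h4 => (x3p.enc h3 h4)⟩
noncomputable def r_P1Wc_zp : Fn4 := ⟨_, _, fun h1 h2 h3 h4 => (r_P1Wc.enc h1 h2 h4)⟩
noncomputable def k_P1Wc_zp_1_2_i : Fn4 := ⟨_, _, fun h1 h2 h3 h4 => (nkf.enc h4 (k_P1Wc_zp.enc h1 h2 h3 h4) (enc_rat _ 1 2) (r_P1Wc_zp.enc h1 h2 h3 h4))⟩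
noncomputable def k3p_tp_3_2_o : Fn4 := ⟨_, _, fun h1 h2 h3 h4 => (nk0.enc h4 (k3p_tp.enc h1 h2 h3 h4) (enc_rat _ 3 2))⟩
noncomputable def k_P1Wc_zp_1_2_o : Fn4 := ⟨_, _, fun h1 h2 h3 h4 => (nk0.enc h4 (k_P1Wc_zp.enc h1 h2 h3 h4) (enc_rat _ 1 2))⟩
noncomputable def kwui : Fn2 := ⟨_, _, fun h1 h2 => (enc_norm (enc_add (k1p.enc h1 h2) (enc_mul (enc_norm (enc_add (enc_rat _ 92 125) (enc_mul (enc_norm (enc_subr 92 125 (pu.enc h2))) h1))) (enc_norm (enc_sub (xiw.enc h1 h2) (xi1.enc h1 h2))))))⟩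
noncomputable def d1fi : Fn2 := ⟨_, _, fun h1 h2 => (enc_norm (enc_add (enc_mul h1 (enc_norm (enc_add (enc_scale 111 1000 h1) (enc_rat _ 13 40)))) (kwui.enc h1 h2)))⟩
noncomputable def pf : Fn2 := ⟨_, _, fun h1 h2 => (enc_norm (enc_mul (enc_norm (enc_mul (enc_norm (enc_mul h1 (ic.enc h2))) (enc_inv (enc_add (enc_pnc _ 1) (qw.enc h1 h2))))) (enc_norm (enc_add (enc_pnc _ 1) (enc_mul (enc_norm (enc_add (enc_pnc _ 1) h1)) (enc_inv (enc_add (qw.enc h1 h2) (enc_mul h1 (gs.enc h2)))))))))⟩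
noncomputable def bi1f : Fn2 := ⟨_, _, fun h1 h2 => (enc_norm (enc_sub (enc_scale 3 8 (pf.enc h1 h2)) (enc_mul (ei.enc h2) (enc_norm (enc_mul (enc_norm (enc_sub (enc_pnc _ 1) (enc_mul h2 h1))) (d1fi.enc h1 h2))))))⟩
noncomputable def kwuo : Fn2 := ⟨_, _, fun h1 h2 => (enc_norm (enc_add (k1p.enc h1 h2) (enc_mul (pu.enc h2) (enc_norm (enc_sub (xiw.enc h1 h2) (xi1.enc h1 h2))))))⟩
noncomputable def d1fo : Fn2 := ⟨_, _, fun h1 h2 => (enc_norm (enc_add (enc_subr 37 500 (enc_scale 51 100 h1)) (kwuo.enc h1 h2)))⟩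
noncomputable def opf_9 : Fn2 := ⟨_, _, fun h1 h2 => (enc_add (enc_pnc _ 1) h1)⟩
noncomputable def opf : Fn2 := ⟨_, _, fun h1 h2 => (enc_norm (enc_scale 3 8 (enc_mul (enc_norm (enc_mul (ic.enc h2) (enc_inv (enc_add (enc_pnc _ 1) (qw.enc h1 h2))))) (enc_norm (enc_add (enc_add (opf_9.enc h1 h2) (qw.enc h1 h2)) (enc_mul (enc_norm (enc_mul h1 (enc_norm (opf_9.enc h1 h2)))) (enc_inv (enc_add (qw.enc h1 h2) (enc_mul h1 (gs.enc h2))))))))))⟩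
noncomputable def bo1f_2 : Fn2 := ⟨_, _, fun h1 h2 => (enc_inv h1)⟩
noncomputable def bo1f : Fn2 := ⟨_, _, fun h1 h2 => (enc_norm (enc_add (enc_sub (enc_sub (enc_add (enc_half (enc_mul (kx.enc h2) (enc_norm (enc_mul (enc_norm (enc_mul (enc_norm (enc_sub (enc_pnc _ 1) (enc_mul h2 h1))) (d1fo.enc h1 h2))) (bo1f_2.enc h1 h2))))) (enc_scale 1 4 (kx.enc h2))) (enc_scale 1 4 (enc_mul (et.enc h2) (bo1f_2.enc h1 h2)))) (opf.enc h1 h2)) (enc_scale 1 4 (enc_mul (enc_norm (enc_subn 1 h1)) (bo1f_2.enc h1 h2)))))⟩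
noncomputable def kwli_2 : Fn2 := ⟨_, _, fun h1 h2 => (enc_neg h1)⟩
noncomputable def kwli : Fn2 := ⟨_, _, fun h1 h2 => (enc_norm (enc_sub (k3m.enc (kwli_2.enc h1 h2) h2) (enc_mul (enc_norm (enc_mul (pl.enc h2) h1)) (enc_norm (enc_sub (xi3.enc (kwli_2.enc h1 h2) h2) (xiw.enc (kwli_2.enc h1 h2) h2))))))⟩
noncomputable def d3fi : Fn2 := ⟨_, _, fun h1 h2 => (enc_norm (enc_sub (enc_neg (enc_mul h1 (enc_norm (enc_add (enc_scale 111 1000 h1) (enc_rat _ 13 40))))) (kwli.enc h1 h2)))⟩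
noncomputable def bi3f : Fn2 := ⟨_, _, fun h1 h2 => (enc_norm (enc_sub (enc_scale 3 8 (pf.enc h1 h2)) (enc_mul (ei.enc h2) (enc_norm (enc_mul (enc_norm (enc_sub (enc_pnc _ 1) (enc_mul h2 h1))) (d3fi.enc h1 h2))))))⟩
noncomputable def kwlo_2 : Fn2 := ⟨_, _, fun h1 h2 => (enc_neg h1)⟩
noncomputable def kwlo : Fn2 := ⟨_, _, fun h1 h2 => (enc_norm (enc_sub (k3m.enc (kwlo_2.enc h1 h2) h2) (enc_mul (pl.enc h2) (enc_norm (enc_sub (xi3.enc (kwlo_2.enc h1 h2) h2) (xiw.enc (kwlo_2.enc h1 h2) h2))))))⟩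
noncomputable def d3fo : Fn2 := ⟨_, _, fun h1 h2 => (enc_norm (enc_sub (enc_sub (enc_rat _ 37 500) (enc_scale 51 100 h1)) (kwlo.enc h1 h2)))⟩
noncomputable def bo3f_2 : Fn2 := ⟨_, _, fun h1 h2 => (enc_inv h1)⟩
noncomputable def bo3f : Fn2 := ⟨_, _, fun h1 h2 => (enc_norm (enc_add (enc_sub (enc_sub (enc_add (enc_half (enc_mul (kx.enc h2) (enc_norm (enc_mul (enc_norm (enc_mul (enc_norm (enc_sub (enc_pnc _ 1) (enc_mul h2 h1))) (d3fo.enc h1 h2))) (bo3f_2.enc h1 h2))))) (enc_scale 1 4 (kx.enc h2))) (enc_scale 1 4 (enc_mul (et.enc h2) (bo3f_2.enc h1 h2)))) (opf.enc h1 h2)) (enc_scale 1 4 (enc_mul (enc_norm (enc_subn 1 h1)) (bo3f_2.enc h1 h2)))))⟩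
noncomputable def adni : Fn2 := ⟨_, _, fun h1 h2 => (enc_norm (enc_mul (enc_norm (enc_mul (lb.enc h2) h1)) (enc_norm (enc_sub (pp2.enc h2) (enc_half (enc_mul (mm.enc h2) (enc_inv (ch.enc h2))))))))⟩
noncomputable def d1ni : Fn2 := ⟨_, _, fun h1 h2 => (enc_norm (enc_add (enc_mul (enc_norm (enc_add (enc_pnc _ 1) (enc_mul h2 (lb.enc h2)))) (d1fi.enc h1 h2)) (adni.enc h1 h2)))⟩
noncomputable def bi1n : Fn2 := ⟨_, _, fun h1 h2 => (enc_norm (enc_sub (enc_sub (enc_scale 3 8 (pf.enc h1 h2)) (enc_mul (ei.enc h2) (enc_norm (enc_mul (enc_norm (enc_sub (enc_pnc _ 1) (enc_mul h2 h1))) (d1ni.enc h1 h2))))) (enc_half (enc_mul (mu.enc h2) (enc_norm (enc_mul (enc_norm (enc_sub (mm.enc h2) (ch.enc h2))) h1))))))⟩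
noncomputable def adno : Fn2 := ⟨_, _, fun h1 h2 => (enc_norm (enc_mul (enc_norm (enc_mul (lb.enc h2) (enc_norm (enc_scale 1 3 (enc_sub (enc_pnc _ 4) h1))))) (enc_norm (enc_sub (pp2.enc h2) (enc_half (enc_mul (mm.enc h2) (enc_inv (ch.enc h2))))))))⟩
noncomputable def d1no : Fn2 := ⟨_, _, fun h1 h2 => (enc_norm (enc_add (enc_mul (enc_norm (enc_add (enc_pnc _ 1) (enc_mul h2 (lb.enc h2)))) (d1fo.enc h1 h2)) (adno.enc h1 h2)))⟩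
noncomputable def bo1n_2 : Fn2 := ⟨_, _, fun h1 h2 => (enc_inv h1)⟩
noncomputable def bo1n : Fn2 := ⟨_, _, fun h1 h2 => (enc_norm (enc_add (enc_add (enc_sub (enc_sub (enc_sub (enc_add (enc_half (enc_mul (kx.enc h2) (enc_norm (enc_mul (enc_norm (enc_mul (enc_norm (enc_sub (enc_pnc _ 1) (enc_mul h2 h1))) (d1no.enc h1 h2))) (bo1n_2.enc h1 h2))))) (enc_scale 1 4 (kx.enc h2))) (enc_scale 1 4 (enc_mul (et.enc h2) (bo1n_2.enc h1 h2)))) (opf.enc h1 h2)) (enc_scale 1 4 (enc_mul (enc_norm (enc_mul (kx.enc h2) (lb.enc h2))) (enc_norm (enc_sub (bo1n_2.enc h1 h2) h2))))) (enc_half (enc_mul (mu.enc h2) (mm.enc h2)))) (enc_scale 1 4 (enc_mul (enc_norm (enc_subn 1 h1)) (bo1n_2.enc h1 h2)))))⟩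
noncomputable def d3ni : Fn2 := ⟨_, _, fun h1 h2 => (enc_norm (enc_add (enc_mul (enc_norm (enc_add (enc_pnc _ 1) (enc_mul h2 (lb.enc h2)))) (d3fi.enc h1 h2)) (adni.enc h1 h2)))⟩
noncomputable def bi3n : Fn2 := ⟨_, _, fun h1 h2 => (enc_norm (enc_sub (enc_sub (enc_scale 3 8 (pf.enc h1 h2)) (enc_mul (ei.enc h2) (enc_norm (enc_mul (enc_norm (enc_sub (enc_pnc _ 1) (enc_mul h2 h1))) (d3ni.enc h1 h2))))) (enc_half (enc_mul (mu.enc h2) (enc_norm (enc_mul (enc_norm (enc_sub (mm.enc h2) (ch.enc h2))) h1))))))⟩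
noncomputable def d3no : Fn2 := ⟨_, _, fun h1 h2 => (enc_norm (enc_add (enc_mul (enc_norm (enc_add (enc_pnc _ 1) (enc_mul h2 (lb.enc h2)))) (d3fo.enc h1 h2)) (adno.enc h1 h2)))⟩
noncomputable def bo3n_2 : Fn2 := ⟨_, _, fun h1 h2 => (enc_inv h1)⟩
noncomputable def bo3n : Fn2 := ⟨_, _, fun h1 h2 => (enc_norm (enc_add (enc_add (enc_sub (enc_sub (enc_sub (enc_add (enc_half (enc_mul (kx.enc h2) (enc_norm (enc_mul (enc_norm (enc_mul (enc_norm (enc_sub (enc_pnc _ 1) (enc_mul h2 h1))) (d3no.enc h1 h2))) (bo3n_2.enc h1 h2))))) (enc_scale 1 4 (kx.enc h2))) (enc_scale 1 4 (enc_mul (et.enc h2) (bo3n_2.enc h1 h2)))) (opf.enc h1 h2)) (enc_scale 1 4 (enc_mul (enc_norm (enc_mul (kx.enc h2) (lb.enc h2))) (enc_norm (enc_sub (bo3n_2.enc h1 h2) h2))))) (enc_half (enc_mul (mu.enc h2) (mm.enc h2)))) (enc_scale 1 4 (enc_mul (enc_norm (enc_subn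 1 h1)) (bo3n_2.enc h1 h2)))))⟩
noncomputable def xom : Fn2 := ⟨_, _, fun h1 h2 => (enc_norm (enc_mul h2 (om.enc h1 h2)))⟩
noncomputable def d5fi : Fn2 := ⟨_, _, fun h1 h2 => (enc_norm (enc_sub (enc_neg (enc_nat 2 (kwui.enc h1 h2))) (enc_scale 353 250 (xom.enc h1 h2))))⟩
noncomputable def bi5f : Fn2 := ⟨_, _, fun h1 h2 => (enc_norm (enc_sub (enc_mul (enc_norm (enc_sub (mm.enc h2) (ch.enc h2))) h1) (enc_mul (ei.enc h2) (enc_norm (enc_mul (enc_norm (enc_sub (enc_pnc _ 1) (enc_mul h2 h1))) (d5fi.enc h1 h2))))))⟩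
noncomputable def d5fo : Fn2 := ⟨_, _, fun h1 h2 => (enc_norm (enc_sub (enc_neg (enc_nat 2 (kwuo.enc h1 h2))) (enc_scale 353 250 (xom.enc h1 h2))))⟩
noncomputable def bo5f_2 : Fn2 := ⟨_, _, fun h1 h2 => (enc_inv h1)⟩
noncomputable def bo5f : Fn2 := ⟨_, _, fun h1 h2 => (enc_norm (enc_add (enc_sub (enc_sub (enc_add (enc_half (enc_mul (kx.enc h2) (enc_norm (enc_mul (enc_norm (enc_mul (enc_norm (enc_sub (enc_pnc _ 1) (enc_mul h2 h1))) (d5fo.enc h1 h2))) (bo5f_2.enc h1 h2))))) (enc_half (kx.enc h2))) (enc_half (enc_mul (et.enc h2) (bo5f_2.enc h1 h2)))) (mm.enc h2)) (enc_half (enc_mul (enc_norm (enc_subn 1 h1)) (bo5f_2.enc h1 h2)))))⟩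
noncomputable def d8ai : Fn2 := ⟨_, _, fun h1 h2 => (enc_norm (enc_sub (enc_sub (enc_mul h1 (enc_norm (enc_add (enc_scale 111 1000 h1) (enc_rat _ 13 40)))) (kwui.enc h1 h2)) (enc_scale 353 250 (xom.enc h1 h2))))⟩
noncomputable def bi8a : Fn2 := ⟨_, _, fun h1 h2 => (enc_norm (enc_add (enc_sub (enc_scale 3 8 (pf.enc h1 h2)) (enc_mul (ei.enc h2) (enc_norm (enc_mul (enc_norm (enc_sub (enc_pnc _ 1) (enc_mul h2 h1))) (d8ai.enc h1 h2))))) (enc_mul (enc_norm (enc_sub (mm.enc h2) (ch.enc h2))) h1)))⟩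
noncomputable def d8ao : Fn2 := ⟨_, _, fun h1 h2 => (enc_norm (enc_sub (enc_sub (enc_subr 37 500 (enc_scale 51 100 h1)) (kwuo.enc h1 h2)) (enc_scale 353 250 (xom.enc h1 h2))))⟩
noncomputable def bo8a_2 : Fn2 := ⟨_, _, fun h1 h2 => (enc_inv h1)⟩
noncomputable def bo8a_15 : Fn2 := ⟨_, _, fun h1 h2 => (enc_mul (et.enc h2) (bo8a_2.enc h1 h2))⟩
noncomputable def bo8a : Fn2 := ⟨_, _, fun h1 h2 => (enc_norm (enc_add (enc_sub (enc_sub (enc_add (enc_sub (enc_sub (enc_add (enc_half (enc_mul (kx.enc h2) (enc_norm (enc_mul (enc_norm (enc_mul (enc_norm (enc_sub (enc_pnc _ 1) (enc_mul h2 h1))) (d8ao.enc h1 h2))) (bo8a_2.enc h1 h2))))) (enc_scale 1 4 (kx.enc h2))) (enc_scale 1 4 (bo8a_15.enc h1 h2))) (opf.enc h1 h2)) (enc_half (kx.enc h2))) (enc_half (bo8a_15.enc h1 h2))) (mm.enc h2)) (enc_scale 3 4 (enc_mul (enc_norm (enc_subn 1 h1))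 (bo8a_2.enc h1 h2)))))⟩
noncomputable def d8di : Fn2 := ⟨_, _, fun h1 h2 => (enc_norm (enc_sub (enc_sub (enc_mul h1 (enc_norm (enc_add (enc_scale 111 1000 h1) (enc_rat _ 13 40)))) (kwui.enc h1 h2)) (enc_nat 2 (enc_mul (xom.enc h1 h2) (saw.enc (enc_pnc _ 0) h2)))))⟩
noncomputable def bi8d : Fn2 := ⟨_, _, fun h1 h2 => (enc_norm (enc_add (enc_sub (enc_scale 3 8 (pf.enc h1 h2)) (enc_mul (ei.enc h2) (enc_norm (enc_mul (enc_norm (enc_sub (enc_pnc _ 1) (enc_mul h2 h1))) (d8di.enc h1 h2))))) (enc_mul (enc_norm (enc_sub (mm.enc h2) (ch.enc h2))) h1)))⟩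
noncomputable def d8do : Fn2 := ⟨_, _, fun h1 h2 => (enc_norm (enc_sub (enc_sub (enc_subr 37 500 (enc_scale 51 100 h1)) (kwuo.enc h1 h2)) (enc_nat 2 (enc_mul (xom.enc h1 h2) (saw.enc (enc_pnc _ 0) h2)))))⟩
noncomputable def bo8d_2 : Fn2 := ⟨_, _, fun h1 h2 => (enc_inv h1)⟩
noncomputable def bo8d_15 : Fn2 := ⟨_, _, fun h1 h2 => (enc_mul (et.enc h2) (bo8d_2.enc h1 h2))⟩
noncomputable def bo8d : Fn2 := ⟨_, _, fun h1 h2 => (enc_norm (enc_add (enc_sub (enc_sub (enc_add (enc_sub (enc_sub (enc_add (enc_half (enc_mul (kx.enc h2) (enc_norm (enc_mul (enc_norm (enc_mul (enc_norm (enc_sub (enc_pnc _ 1) (enc_mul h2 h1))) (d8do.enc h1 h2))) (bo8d_2.enc h1 h2))))) (enc_scale 1 4 (kx.enc h2))) (enc_scale 1 4 (bo8d_15.enc h1 h2))) (opf.enc h1 h2)) (enc_half (kx.enc h2))) (enc_half (bo8d_15.enc h1 h2))) (mm.enc h2)) (enc_scale 3 4 (enc_mul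 (enc_norm (enc_subn 1 h1)) (bo8d_2.enc h1 h2)))))⟩
noncomputable def d8ui : Fn2 := ⟨_, _, fun h1 h2 => (enc_norm (enc_sub (enc_sub (enc_mul h1 (enc_norm (enc_add (enc_scale 111 1000 h1) (enc_rat _ 13 40)))) (kwui.enc h1 h2)) (enc_nat 2 (enc_mul (xom.enc h1 h2) (sbc.enc (enc_pnc _ 0) h2)))))⟩
noncomputable def bi8u : Fn2 := ⟨_, _, fun h1 h2 => (enc_norm (enc_add (enc_sub (enc_scale 3 8 (pf.enc h1 h2)) (enc_mul (ei.enc h2) (enc_norm (enc_mul (enc_norm (enc_sub (enc_pnc _ 1) (enc_mul h2 h1))) (d8ui.enc h1 h2))))) (enc_mul (enc_norm (enc_sub (mm.enc h2) (ch.enc h2))) h1)))⟩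
noncomputable def d8uo : Fn2 := ⟨_, _, fun h1 h2 => (enc_norm (enc_sub (enc_sub (enc_subr 37 500 (enc_scale 51 100 h1)) (kwuo.enc h1 h2)) (enc_nat 2 (enc_mul (xom.enc h1 h2) (sbc.enc (enc_pnc _ 0) h2)))))⟩
noncomputable def bo8u_2 : Fn2 := ⟨_, _, fun h1 h2 => (enc_inv h1)⟩
noncomputable def bo8u_15 : Fn2 := ⟨_, _, fun h1 h2 => (enc_mul (et.enc h2) (bo8u_2.enc h1 h2))⟩
noncomputable def bo8u : Fn2 := ⟨_, _, fun h1 h2 => (enc_norm (enc_add (enc_sub (enc_sub (enc_add (enc_sub (enc_sub (enc_add (enc_half (enc_mul (kx.enc h2) (enc_norm (enc_mul (enc_norm (enc_mul (enc_norm (enc_sub (enc_pnc _ 1) (enc_mul h2 h1))) (d8uo.enc h1 h2))) (bo8u_2.enc h1 h2))))) (enc_scale 1 4 (kx.enc h2))) (enc_scale 1 4 (bo8u_15.enc h1 h2))) (opf.enc h1 h2)) (enc_half (kx.enc h2))) (enc_half (bo8u_15.enc h1 h2))) (mm.enc h2)) (enc_scale 3 4 (enc_mul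 (enc_norm (enc_subn 1 h1)) (bo8u_2.enc h1 h2)))))⟩
noncomputable def ex8d : Fn2 := ⟨_, _, fun h1 h2 => (enc_norm (enc_sub (enc_mul (enc_norm (enc_mul (kx.enc h2) (saw.enc (enc_pnc _ 0) h2))) (enc_norm (enc_sub (enc_sub (enc_pnc _ 2) (enc_inv h1)) (enc_mul h2 h1)))) h1))⟩
noncomputable def ex8u : Fn2 := ⟨_, _, fun h1 h2 => (enc_norm (enc_sub (enc_mul (enc_norm (enc_mul (kx.enc h2) (sbc.enc (enc_pnc _ 0) h2))) (enc_norm (enc_sub (enc_sub (enc_pnc _ 2) (enc_inv h1)) (enc_mul h2 h1)))) h1))⟩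
noncomputable def vb5_5 : Fn4 := ⟨_, _, fun h1 h2 h3 h4 => (enc_sq (ic.enc h2))⟩
noncomputable def vb5 : Fn4 := ⟨_, _, fun h1 h2 h3 h4 => (enc_norm (enc_add (enc_sub (enc_scale 9 8 (enc_mul (vb5_5.enc h1 h2 h3 h4) h3)) (enc_mul h1 (enc_norm (enc_add (enc_mul (ic.enc h2) (enc_norm (enc_sub (enc_rat _ 3 4) (enc_scale 1059 1000 (ep.enc h2))))) (enc_scale 9 8 (enc_mul (vb5_5.enc h1 h2 h3 h4) (enc_norm (enc_mul h2 (enc_inv (gs.enc h2)))))))))) (enc_mul (enc_sq h1) h4)))⟩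
noncomputable def bw1f : Fn2 := ⟨_, _, fun h1 h2 => (enc_norm (enc_sub (enc_rat _ 1 16) (enc_sub (enc_scale 3 8 (pf.enc h1 h2)) (enc_mul (ei.enc h2) (enc_norm (enc_mul (enc_norm (enc_sub (enc_pnc _ 1) (enc_mul h2 h1))) (d1fo.enc h1 h2)))))))⟩
noncomputable def bw1n : Fn2 := ⟨_, _, fun h1 h2 => (enc_norm (enc_sub (enc_rat _ 1 16) (enc_sub (enc_sub (enc_scale 3 8 (pf.enc h1 h2)) (enc_mul (ei.enc h2) (enc_norm (enc_mul (enc_norm (enc_sub (enc_pnc _ 1) (enc_mul h2 h1))) (d1no.enc h1 h2))))) (enc_half (enc_mul (mu.enc h2) (enc_norm (enc_sub (mm.enc h2) (ch.enc h2))))))))⟩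
noncomputable def bw3f : Fn2 := ⟨_, _, fun h1 h2 => (enc_norm (enc_sub (enc_rat _ 1 16) (enc_sub (enc_scale 3 8 (pf.enc h1 h2)) (enc_mul (ei.enc h2) (enc_norm (enc_mul (enc_norm (enc_sub (enc_pnc _ 1) (enc_mul h2 h1))) (d3fo.enc h1 h2)))))))⟩
noncomputable def bw3n : Fn2 := ⟨_, _, fun h1 h2 => (enc_norm (enc_sub (enc_rat _ 1 16) (enc_sub (enc_sub (enc_scale 3 8 (pf.enc h1 h2)) (enc_mul (ei.enc h2) (enc_norm (enc_mul (enc_norm (enc_sub (enc_pnc _ 1) (enc_mul h2 h1))) (d3no.enc h1 h2))))) (enc_half (enc_mul (mu.enc h2) (enc_norm (enc_sub (mm.enc h2) (ch.enc h2))))))))⟩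
noncomputable def bw8a : Fn2 := ⟨_, _, fun h1 h2 => (enc_norm (enc_sub (enc_rat _ 1 16) (enc_sub (enc_sub (enc_scale 3 8 (pf.enc h1 h2)) (enc_mul (ei.enc h2) (enc_norm (enc_mul (enc_norm (enc_sub (enc_pnc _ 1) (enc_mul h2 h1))) (d8ao.enc h1 h2))))) (enc_sub (enc_scale 3 4 (ic.enc h2)) (mm.enc h2)))))⟩
noncomputable def bw8d : Fn2 := ⟨_, _, fun h1 h2 => (enc_norm (enc_sub (enc_rat _ 1 16) (enc_sub (enc_sub (enc_scale 3 8 (pf.enc h1 h2)) (enc_mul (ei.enc h2) (enc_norm (enc_mul (enc_norm (enc_sub (enc_pnc _ 1) (enc_mul h2 h1))) (d8do.enc h1 h2))))) (enc_sub (enc_scale 3 4 (ic.enc h2)) (mm.enc h2)))))⟩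

end Pool.Agent.Strip051.LC.E0.Ch
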