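import Pool.Agent.Strip051.LC.E0.Ch.Val
import Pool.Agent.Strip051.LC.E0.BaseP

/-! # Small rests: the functions of the third side -/

set_option linter.unusedVariables false

namespace Pool.Agent.Strip051.LC.E0.Ch

open Pool.Agent.Strip051.PB

/-- `-xi1 / z` -/
noncomputable def d1 (z x : ℝ) : ℝ := 3 / 4 * ((2 + x * z) * (1 / 2 + G.cc1 z x)⁻¹)

/-- `-xi3 / z` -/
noncomputable def d3 (z x : ℝ) : ℝ := 3 / 4 * ((2 + x * z) * (3 / 2 + G.cc3 z x)⁻¹)

/-- `om / z` -/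
noncomputable def dw (z x : ℝ) : ℝ := 3 / 4 * (z * (1 + G.qw z x)⁻¹)

theorem xi1_d (z x : ℝ) : G.xi1 z x = -(z * d1 z x) := by unfold G.xi1 d1; ring

theorem xi3_d (z x : ℝ) : G.xi3 z x = -(z * d3 z x) := by unfold G.xi3 d3; ring

theorem om_d (z x : ℝ) : G.om z x = z * dw z x := by unfold G.om dw; ring

theorem sg1_d (z x : ℝ) : G.sg1 z x = (1 / 2 + d1 z x) * z := by
  unfold G.sg1; rw [xi1_d]; ring

theorem sg3_d (z x : ℝ) : G.sg3 z x = (1 / 2 + d3 z x / 3) * z := by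
  unfold G.sg3; rw [xi3_d]; ring

theorem gapu_d (z x : ℝ) : G.xiw z x - G.xi1 z x = z * (d1 z x - x * dw z x) := by
  unfold G.xiw; rw [xi1_d, om_d]; ring

theorem gapl_d (z x : ℝ) : G.xi3 z x - G.xiw z x = -(z * (d3 z x - x * dw z x)) := by
  unfold G.xiw; rw [xi3_d, om_d]; ring

section

variable {z x : ℝ}

theorem d1_ge (hx : 0 < x) (h0 : 0 ≤ z) : 3 / 2 ≤ d1 z x := by
  have hxz : 0 ≤ x * z := mul_nonneg hx.le h0
  have h1 : G.cc1 z x ≤ 1 / 2 := by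
    unfold G.cc1
    rw [Real.sqrt_le_left (by norm_num)]
    nlinarith
  have h2 : 0 ≤ G.cc1 z x := Real.sqrt_nonneg _
  have h3 : 1 ≤ (1 / 2 + G.cc1 z x)⁻¹ := by
    rw [one_le_inv₀ (by linarith)]
    linarith
  unfold d1
  nlinarith

theorem xdw_le (hx : 0 < x) (h0 : 0 ≤ z) (h1 : x * z ≤ 3 / 25) : x * dw z x ≤ 9 / 100 := by
  have hxz : 0 ≤ x * z := mul_nonneg hx.le h0
  have h2 : 0 ≤ G.qw z x := Real.sqrt_nonneg _
  have h3 : (1 + G.qw z x)⁻¹ ≤ 1 := inv_le_one_of_one_le₀ (by linarith)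
  have h4 : 0 < (1 + G.qw z x)⁻¹ := by positivity
  have e : x * dw z x = 3 / 4 * (x * z * (1 + G.qw z x)⁻¹) := by unfold dw; ring
  rw [e]
  nlinarith

theorem denu_pos (hx : 0 < x) (h0 : 0 ≤ z) (h1 : x * z ≤ 3 / 25) : 0 < d1 z x - x * dw z x := by
  have := d1_ge hx h0
  have := xdw_le hx h0 h1
  linarith

theorem denl_pos (hx : 0 < x) (hx1 : x ≤ 4 / 125) (h0 : z ≤ 0) (h1 : -z ≤ 10) :
    0 < d3 z x - x * dw z x := by
  have hxz : -(x * z) ≤ 8 / 25 := by nlinarith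
  have h2 : 0 ≤ G.qw z x := Real.sqrt_nonneg _
  have h4 : 0 < (1 + G.qw z x)⁻¹ := by positivity
  have h5 : 0 ≤ G.cc3 z x := Real.sqrt_nonneg _
  have h6 : 0 < (3 / 2 + G.cc3 z x)⁻¹ := by positivity
  have h7 : x * dw z x ≤ 0 := by
    have e : x * dw z x = -(3 / 4 * (x * -z * (1 + G.qw z x)⁻¹)) := by unfold dw; ring
    have : 0 ≤ x * -z := mul_nonneg hx.le (by linarith)
    rw [e]
    have : 0 ≤ x * -z * (1 + G.qw z x)⁻¹ := by positivity
    linarith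
  have h8 : 0 < d3 z x := by
    unfold d3
    have : 0 < 2 + x * z := by linarith
    positivity
  linarith

theorem slp_gap (hx : 0 < x) (hx1 : x ≤ 4 / 125) (h0 : 0 ≤ z) (h1 : x * z ≤ 3 / 25) :
    slp.v z x * (G.xiw z x - G.xi1 z x) = G.xw z x - G.x1p z x := by
  have gd := denu_pos hx h0 h1
  simp only [slp, slp_12, slp_13, slp_14, slp_16, slp_17, ch_val, mm_val, cc1_val, qw_val, xw_val,
    x1p_val, xiw_val, xi1_val]
  push_cast
  rcases le_or_gt (z - 2 / 5) 0 with h | h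
  · rw [if_pos h, gapu_d]
    have hxz : 0 ≤ x * z := mul_nonneg hx.le h0
    have hxz1 : x * z ≤ 2 / 125 := by nlinarith
    have hc : 2 / 5 ≤ G.cc1 z x := by
      unfold G.cc1
      apply Real.le_sqrt_of_sq_le
      nlinarith
    have hc1 : (1 / 2 + G.cc1 z x)⁻¹ ≤ 10 / 9 := by
      rw [inv_le_comm₀ (by linarith) (by norm_num)]
      linarith
    have hc2 : 0 < (1 / 2 + G.cc1 z x)⁻¹ := by
      have : 0 < 1 / 2 + G.cc1 z x := by linarith
      positivity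
    have hd : d1 z x ≤ 17 / 10 := by unfold d1; nlinarith
    have hd0 := d1_ge hx h0
    have hs : G.sg1 z x - 1 ≤ 0 := by
      rw [sg1_d]
      nlinarith
    have hs2 : G.sg1 z x / 2 - 1 ≤ 0 := by
      have : 0 ≤ G.sg1 z x := by rw [sg1_d]; positivity
      linarith
    have e1 : G.xw z x = z * (2 * G.ch x - G.mm x + (G.mm x - G.ch x) * z) := by
      unfold G.xw G.q1
      rw [BaseP.cse_le (by linarith)]
    have e2 : G.x1p z x = G.sg1 z x * (2 * G.ch x - G.mm x + (G.mm x - G.ch x) * G.sg1 z x) -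
        G.sg1 z x / 2 * (181 / 500 + 209 / 1000 * (G.sg1 z x / 2)) := by
      unfold G.x1p G.xa G.xb G.q1
      rw [BaseP.cse_le hs, BaseP.cse_le hs2]
    rw [e1, e2, sg1_d]
    have key : ∀ n : ℝ, n * (d1 z x - x * dw z x)⁻¹ * (z * (d1 z x - x * dw z x)) = n * z := by
      intro n
      have : (d1 z x - x * dw z x)⁻¹ * (d1 z x - x * dw z x) = 1 := inv_mul_cancel₀ gd.ne'
      linear_combination n * z * this
    have ed : 3 / 4 * ((2 + x * z) * (1 / 2 + G.cc1 z x)⁻¹) = d1 z x := rfl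
    have ew : 3 / 4 * (z * (1 + G.qw z x)⁻¹) = dw z x := rfl
    rw [ed, ew, key]
    ring
  · rw [if_neg h.not_ge, gapu_d]
    have hz : 0 < z := by linarith
    have : z * (d1 z x - x * dw z x) ≠ 0 := (mul_pos hz gd).ne'
    rw [inv_mul_cancel_right₀ this]

theorem slr_gap (hx : 0 < x) (hx1 : x ≤ 4 / 125) (h0 : 0 ≤ z) (h1 : x * z ≤ 3 / 25) :
    slr.v z x * (G.xiw z x - G.xi1 z x) = G.rwu x * G.gh z := by
  have gd := denu_pos hx h0 h1
  simp only [slr, cc1_val, qw_val, rwu_val, r2u_val, xiw_val, xi1_val]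
  push_cast
  rcases le_or_gt (z - 2 / 5) 0 with h | h
  · rw [if_pos h, gapu_d]
    have e1 : G.gh z = z := by
      unfold G.gh
      rw [BaseP.cse_le (by linarith)]
    have ed : 3 / 4 * ((2 + x * z) * (1 / 2 + G.cc1 z x)⁻¹) = d1 z x := rfl
    have ew : 3 / 4 * (z * (1 + G.qw z x)⁻¹) = dw z x := rfl
    rw [ed, ew, e1]
    have : (d1 z x - x * dw z x)⁻¹ * (d1 z x - x * dw z x) = 1 := inv_mul_cancel₀ gd.ne'
    linear_combination G.rwu x * z * this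
  · rw [if_neg h.not_ge, gapu_d]
    have hz : 0 < z := by linarith
    have : z * (d1 z x - x * dw z x) ≠ 0 := (mul_pos hz gd).ne'
    rw [inv_mul_cancel_right₀ this]

theorem slq_gap (hx : 0 < x) (hx1 : x ≤ 4 / 125) (h0 : z ≤ 0) (h1 : -z ≤ 10) :
    slq.v z x * (G.xi3 z x - G.xiw z x) = G.x3m z x - G.xw (-z) x := by
  have gd := denl_pos hx hx1 h0 h1
  simp only [slq, slq_2, slq_12, slq_16, slq_17, slq_20, slq_21, ch_val, mm_val, cc3_val, qw_val,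
    xw_val, x3m_val, xiw_val, xi3_val]
  push_cast
  rcases le_or_gt (-z - 2 / 5) 0 with h | h
  · rw [if_pos h, gapl_d]
    have hc : 0 ≤ G.cc3 z x := Real.sqrt_nonneg _
    have hc1 : (3 / 2 + G.cc3 z x)⁻¹ ≤ 2 / 3 := by
      rw [inv_le_comm₀ (by linarith) (by norm_num)]
      linarith
    have hc2 : 0 < (3 / 2 + G.cc3 z x)⁻¹ := by positivity
    have hxz : x * z ≤ 0 := mul_nonpos_of_nonneg_of_nonpos hx.le h0
    have hxz1 : -(x * z) ≤ 2 / 125 := by nlinarith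
    have hd : d3 z x ≤ 1 := by unfold d3; nlinarith
    have hd0 : 0 ≤ d3 z x := by
      unfold d3
      have : 0 < 2 + x * z := by linarith
      positivity
    have hs0 : 0 ≤ -G.sg3 z x := by
      rw [sg3_d]
      nlinarith
    have hs : -G.sg3 z x - 1 ≤ 0 := by
      rw [sg3_d]
      nlinarith
    have hs2 : -(G.sg3 z x / 2) - 1 ≤ 0 := by linarith
    have e1 : G.xw (-z) x = -z * (2 * G.ch x - G.mm x + (G.mm x - G.ch x) * -z) := by
      unfold G.xw G.q1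
      rw [BaseP.cse_le (by linarith)]
    have e2 : G.x3m z x =
        -G.sg3 z x * (2 * G.ch x - G.mm x + (G.mm x - G.ch x) * -G.sg3 z x) +
        -(G.sg3 z x / 2) * (181 / 500 + 209 / 1000 * -(G.sg3 z x / 2)) := by
      unfold G.x3m G.xa G.xb G.q1
      rw [BaseP.cse_le hs, BaseP.cse_le hs2]
    rw [e1, e2, sg3_d]
    have key : ∀ n : ℝ,
        n * (d3 z x - x * dw z x)⁻¹ * -(z * (d3 z x - x * dw z x)) = -(n * z) := by
      intro n
      have : (d3 z x - x * dw z x)⁻¹ * (d3 z x - x * dw z x) = 1 := inv_mul_cancel₀ gd.ne'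
      linear_combination -(n * z) * this
    have ed : 3 / 4 * ((2 + x * z) * (3 / 2 + G.cc3 z x)⁻¹) = d3 z x := rfl
    have ew : 3 / 4 * (z * (1 + G.qw z x)⁻¹) = dw z x := rfl
    have ed' : (2 + x * z) * (3 / 2 + G.cc3 z x)⁻¹ = 4 / 3 * d3 z x := by unfold d3; ring
    rw [ed, ew, key, ed']
    ring
  · rw [if_neg h.not_ge, gapl_d]
    have hz : 0 < -z := by linarith
    have : -(z * (d3 z x - x * dw z x)) ≠ 0 := by
      have := mul_pos hz gd
      rw [← neg_mul]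
      exact this.ne'
    rw [inv_mul_cancel_right₀ this]

theorem sls_gap (hx : 0 < x) (hx1 : x ≤ 4 / 125) (h0 : z ≤ 0) (h1 : -z ≤ 10) :
    sls.v z x * (G.xi3 z x - G.xiw z x) = G.rwl x * G.gh (-z) := by
  have gd := denl_pos hx hx1 h0 h1
  simp only [sls, cc3_val, qw_val, rwl_val, r2l_val, xiw_val, xi3_val]
  push_cast
  rcases le_or_gt (-z - 2 / 5) 0 with h | h
  · rw [if_pos h, gapl_d]
    have e1 : G.gh (-z) = -z := by
      unfold G.gh
      rw [BaseP.cse_le (by linarith)]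
    have ed : 3 / 4 * ((2 + x * z) * (3 / 2 + G.cc3 z x)⁻¹) = d3 z x := rfl
    have ew : 3 / 4 * (z * (1 + G.qw z x)⁻¹) = dw z x := rfl
    rw [ed, ew, e1]
    have : (d3 z x - x * dw z x)⁻¹ * (d3 z x - x * dw z x) = 1 := inv_mul_cancel₀ gd.ne'
    linear_combination -(G.rwl x * z) * this
  · rw [if_neg h.not_ge, gapl_d]
    have hz : 0 < -z := by linarith
    have : -(z * (d3 z x - x * dw z x)) ≠ 0 := by
      have := mul_pos hz gd
      rw [← neg_mul]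
      exact this.ne'
    rw [inv_mul_cancel_right₀ this]

/-- quotient by a gap -/
theorem gap_q {s g n u : ℝ} (h : s * g = n) (hu : g = 0 → u = 0) : n * (u / g) = s * u := by
  rcases eq_or_ne g 0 with hg | hg
  · rw [hu hg]; simp
  · rw [← h]
    field_simp

end

/-! ### The third side -/

section

variable {xi z x : ℝ}

/-- in `[c1, W]`, `z ≥ 0` -/
theorem th_P1Wc (hx : 0 < x) (hx1 : x ≤ 4 / 125) (h0 : 0 ≤ z) (h1 : x * z ≤ 3 / 25)
    (l : G.xi1 z x ≤ xi) (r : xi ≤ G.xiw z x) :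
    k_P1Wc.v (xi - G.xi1 z x) z x = (G.P1u xi z x).1 ∧
      c_P1Wc.v (xi - G.xi1 z x) z x = (G.P1u xi z x).2.1 ∧
      r_P1Wc.v (xi - G.xi1 z x) z x = (G.P1u xi z x).2.2 := by
  have hu : G.xiw z x - G.xi1 z x = 0 → xi - G.xi1 z x = 0 := fun h => by linarith
  have e1 := gap_q (slp_gap hx hx1 h0 h1) hu
  have e2 := gap_q (slr_gap hx hx1 h0 h1) hu
  unfold G.P1u
  refine ⟨?_, ?_, ?_⟩
  · simp only [k_P1Wc, k1p_val, su_val]; ring
  · simp only [c_P1Wc, x1p_val]; rw [e1]; ring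
  · simp only [r_P1Wc]; rw [e2]; ring

theorem th_P1Ww (hx : 0 < x) (hx1 : x ≤ 4 / 125) (h0 : 0 ≤ z) (h1 : x * z ≤ 3 / 25)
    (l : G.xi1 z x ≤ xi) (r : xi ≤ G.xiw z x) :
    k_P1Ww.v (G.xiw z x - xi) z x = (G.P1u xi z x).1 ∧
      c_P1Ww.v (G.xiw z x - xi) z x = (G.P1u xi z x).2.1 ∧
      r_P1Ww.v (G.xiw z x - xi) z x = (G.P1u xi z x).2.2 := by
  have hu : G.xiw z x - G.xi1 z x = 0 → xi - G.xi1 z x = 0 := fun h => by linarith
  have s1 := slp_gap hx hx1 h0 h1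
  have s2 := slr_gap hx hx1 h0 h1
  have e1 := gap_q s1 hu
  have e2 := gap_q s2 hu
  unfold G.P1u
  refine ⟨?_, ?_, ?_⟩
  · simp only [k_P1Ww, kwu_val, su_val, G.kwu]; ring
  · simp only [c_P1Ww, xw_val]; rw [e1]; linear_combination -s1
  · simp only [r_P1Ww, r2u_val]; rw [e2]; linear_combination -s2

theorem th_P1Wg (hx : 0 < x) (hx1 : x ≤ 4 / 125) (h0 : 0 ≤ z) (h1 : x * z ≤ 3 / 25)
    (l : G.xi1 z x ≤ xi) (r : xi ≤ G.xiw z x) :
    k_P1Wg.v (G.xiw z x - xi) z x = (G.P1u xi z x).1 ∧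
      c_P1Wg.v (G.xiw z x - xi) z x = (G.P1u xi z x).2.1 := by
  obtain ⟨e1, e2, e3⟩ := th_P1Ww hx hx1 h0 h1 l r
  have h2 : 0 ≤ G.xiw z x - xi := by linarith
  rw [← e1, ← e2]
  constructor
  · simp only [k_P1Wg, k_P1Ww]
    rw [max_eq_left h2, max_eq_right (by linarith)]
    push_cast
    ring
  · simp only [c_P1Wg, c_P1Ww]
    rw [max_eq_left h2]

/-- in `[W, b]`, `z ≥ 0` -/
theorem th_PWb : k_PWb.v (xi - G.xiw z x) z x = (G.P2u xi z x).1 := by
  simp only [k_PWb, kwu_val, G.P2u]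
  push_cast
  ring

/-- in `[b, c3]`, `z ≥ 0` -/
theorem th_Qb3 : k_Qb3.v (xi - G.xi3 z x) z x = (G.P3u xi z x).1 ∧
    c_Qb3.v (xi - G.xi3 z x) z x = (G.P3u xi z x).2.1 ∧
    r_Qb3.v (xi - G.xi3 z x) z x = (G.P3u xi z x).2.2 := by
  unfold G.P3u
  refine ⟨?_, ?_, ?_⟩
  · simp only [k_Qb3, k3p_val, sbc_val]; ring
  · simp only [c_Qb3, x3p_val, xw_val, qu, dwu_val]
    push_cast
    rw [div_eq_mul_inv]
    ring
  · simp only [r_Qb3, r2u_val, qu, dwu_val]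
    push_cast
    rw [div_eq_mul_inv]
    ring

/-- in `[c1, a]`, `z ≤ 0` -/
theorem th_P1a : k_P1a.v (xi - G.xi1 z x) z x = (G.P1d xi z x).1 := by
  simp only [k_P1a, k1m_val, G.P1d]
  push_cast
  ring

/-- in `[a, W]`, `z ≤ 0` -/
theorem th_QaW : k_QaW.v (xi - G.xiw z x) z x = (G.P2d xi z x).1 ∧
    c_QaW.v (xi - G.xiw z x) z x = (G.P2d xi z x).2.1 ∧
    r_QaW.v (xi - G.xiw z x) z x = (G.P2d xi z x).2.2 := by
  unfold G.P2d
  refine ⟨?_, ?_, ?_⟩
  · simp only [k_QaW, kwl_val, saw_val]; ring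
  · simp only [c_QaW, xwl_val, x1m_val, ql, dwl_val]
    push_cast
    rw [div_eq_mul_inv]
    ring
  · simp only [r_QaW, r2l_val, ql, dwl_val]
    push_cast
    rw [div_eq_mul_inv]
    ring

/-- in `[W, c3]`, `z ≤ 0` -/
theorem th_QW3c (hx : 0 < x) (hx1 : x ≤ 4 / 125) (h0 : z ≤ 0) (h1 : -z ≤ 10)
    (l : G.xiw z x ≤ xi) (r : xi ≤ G.xi3 z x) :
    k_QW3c.v (G.xi3 z x - xi) z x = (G.P3d xi z x).1 ∧
      c_QW3c.v (G.xi3 z x - xi) z x = (G.P3d xi z x).2.1 ∧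
      r_QW3c.v (G.xi3 z x - xi) z x = (G.P3d xi z x).2.2 := by
  have hu : G.xi3 z x - G.xiw z x = 0 → G.xi3 z x - xi = 0 := fun h => by linarith
  have s1 := slq_gap hx hx1 h0 h1
  have s2 := sls_gap hx hx1 h0 h1
  have e1 := gap_q s1 hu
  have e2 := gap_q s2 hu
  unfold G.P3d
  refine ⟨?_, ?_, ?_⟩
  · simp only [k_QW3c, k3m_val, sl_val]; ring
  · simp only [c_QW3c, x3m_val]; linear_combination e1
  · simp only [r_QW3c]; rw [e2]; ring

theorem th_QW3w (hx : 0 < x) (hx1 : x ≤ 4 / 125) (h0 : z ≤ 0) (h1 : -z ≤ 10)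
    (l : G.xiw z x ≤ xi) (r : xi ≤ G.xi3 z x) :
    k_QW3w.v (xi - G.xiw z x) z x = (G.P3d xi z x).1 ∧
      c_QW3w.v (xi - G.xiw z x) z x = (G.P3d xi z x).2.1 ∧
      r_QW3w.v (xi - G.xiw z x) z x = (G.P3d xi z x).2.2 := by
  have hu : G.xi3 z x - G.xiw z x = 0 → G.xi3 z x - xi = 0 := fun h => by linarith
  have s1 := slq_gap hx hx1 h0 h1
  have s2 := sls_gap hx hx1 h0 h1
  have e1 := gap_q s1 hu
  have e2 := gap_q s2 hu
  unfold G.P3d
  refine ⟨?_, ?_, ?_⟩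
  · simp only [k_QW3w, kwl_val, sl_val, G.kwl]; ring
  · simp only [c_QW3w, xwl_val]; linear_combination e1 + s1
  · simp only [r_QW3w, r2l_val]; rw [e2]; linear_combination -s2

end

end Pool.Agent.Strip051.LC.E0.Ch
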