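import Pool.Agent.Strip051.LC.E0.Ch.Rw
import Pool.Agent.Strip051.LC.E0.Ch.Thd

/-! # Small rests: the rows and the statements of the charts -/

set_option linter.unusedVariables false

namespace Pool.Agent.Strip051.LC.E0.Ch

open Pool.Agent.Strip051.PB

/-- The pattern of a row. -/
def PatF (P : Pat) (R : RowF) : Prop :=
  match P with
  | .pp => R.l = lt ∧ R.a = lw ∧ R.b = lz ∧ R.gm = gq1
  | .pnp => R.l = lw ∧ R.a = lt ∧ R.b = lnz ∧ R.gm = gm2
  | .pnn => R.l = lnz ∧ R.a = lnt ∧ R.b = lw ∧ R.gm = gm3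

/-- The far vertex. -/
structure FarF (R : RowF) : Prop where
  k12 : R.k12 = ka
  c12 : R.c12 = xa
  v1 : R.v1 = vf1
  v2 : R.v2 = vf2

/-- The near vertex. -/
structure NearF (R : RowF) : Prop where
  k12 : R.k12 = k12n
  c12 : R.c12 = xa
  v1 : R.v1 = ml1
  v2 : R.v2 = ml2

/-- The near vertex, without the second kernel. -/
structure NearM (R : RowF) : Prop where
  k12 : R.k12 = k12m
  c12 : R.c12 = xa
  v1 : R.v1 = ml1
  v2 : R.v2 = ml2

theorem nkf_nk (x k r : ℝ) {K K' : ℝ} (h : K' = K) : nkf.v x k K' r = nk x k K r := by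
  rw [nkf_val, h]; rfl

theorem nk0_nk (x k : ℝ) {K K' : ℝ} (h : K' = K) : nk0.v x k K' = nk x k K 0 := by
  rw [nk0_val, h]; unfold nk; ring

theorem k12n_nk (w x : ℝ) : k12n.v w x = nk x (-G.dt w) 1 (G.rf x * G.gh w) := by
  show nkf.v x (ka.v w x) _ (r2a.v w x) = _
  rw [ka_val, r2a_val]
  exact nkf_nk _ _ _ (by push_cast; norm_num)

theorem k12m_nk (w x : ℝ) : k12m.v w x = nk x (-G.dt w) 1 0 := by
  show nk0.v x (ka.v w x) _ = _
  rw [ka_val]
  exact nk0_nk _ _ (by push_cast; norm_num)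

section

variable {P : Pat} {R : RowF} {w z x K13 xi lev : ℝ}

theorem sk_slkP (hp : PatF P R) (hG : R.G w z = w + z - w * K13)
    (h : R.Sk w z x lev) :
    SlkP P x w z K13 (R.BS w z x) (R.K12 w x) (R.K23 w z x) (R.K13 w z x) lev := by
  have eD : R.DL w z x = R.K12 w x + R.K23 w z x - R.K13 w z x := by
    unfold RowF.DL; rw [dlf_val]
  unfold RowF.Sk at h
  rw [hG] at h
  unfold RowF.A RowF.B RowF.L RowF.GM at h
  rcases P with _ | _ | _
  · obtain ⟨h1, h2, h3, h4⟩ := hp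
    rw [h1, h2, h3, h4, gq1_val, eD] at h
    exact h
  · obtain ⟨h1, h2, h3, h4⟩ := hp
    rw [h1, h2, h3, h4, gm2_val, eD] at h
    exact h
  · obtain ⟨h1, h2, h3, h4⟩ := hp
    rw [h1, h2, h3, h4, gm3_val, eD] at h
    exact h

theorem bs_eq (hX : R.XI w z x = xi) :
    R.BS w z x = -(G.om w x * (1 + x * (w + z)) + xi * w) / 2 := by
  unfold RowF.BS
  rw [bsf_val, hX]
  ring

theorem dm_of {M : ℕ} {M' : ℝ} {up : Bool} (hp : PatF P R) (hok : P.Ok w z)
    (D : Dom M' x w z K13 xi) (hM : M' ≤ M) (hM' : M ≤ 16) (hG : R.G w z = w + z - w * K13)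
    (hX : R.XI w z x = xi) (hL : 0 < R.L w z) (u : up = false → 0 ≤ R.U w z x)
    (u' : up = true → R.U w z x ≤ 0) : Dm R M up w z x := by
  have hM16 : (M : ℝ) ≤ 16 := by exact_mod_cast hM'
  have h1 := D.w0
  have h2 := D.w1
  have h3 := D.z0
  have h4 := D.u1
  have hA : 0 ≤ R.A w z ∧ 0 ≤ R.B w z ∧ R.L w z ≤ 16 := by
    unfold RowF.A RowF.B RowF.L
    rcases P with _ | _ | _
    · obtain ⟨e1, e2, e3, e4⟩ := hp
      have : 0 ≤ z := hok
      rw [e1, e2, e3]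
      exact ⟨h1, this, by show w + z ≤ 16; linarith⟩
    · obtain ⟨e1, e2, e3, e4⟩ := hp
      obtain ⟨o1, o2⟩ : z ≤ 0 ∧ 0 ≤ w + z := hok
      rw [e1, e2, e3]
      exact ⟨o2, by show 0 ≤ -z; linarith, by show w ≤ 16; linarith⟩
    · obtain ⟨e1, e2, e3, e4⟩ := hp
      have o1 : w + z ≤ 0 := hok
      rw [e1, e2, e3]
      exact ⟨by show 0 ≤ -(w + z); linarith, h1, by show -z ≤ 16; linarith⟩
  refine ⟨D.x0, D.x1, hA.1, hA.2.1, hL, hA.2.2, D.xz, D.xu, by linarith, by linarith, ?_, u, u'⟩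
  rw [exv_val, hG, bs_eq hX]
  have := D.g
  linarith

theorem far_good {M : ℕ} {up : Bool} {b c : ℝ × ℝ × ℝ} (hp : PatF P R) (hf : FarF R)
    (D : Dm R M up w z x) (hG : R.G w z = w + z - w * K13) (hX : R.XI w z x = xi)
    (h23 : R.K23 w z x = b.1) (h13 : R.K13 w z x = c.1) (g23 : R.C23 w z x = b.2.1)
    (g13 : R.C13 w z x = c.2.1) :
    Good R M up w z x (RowC .far P x w z K13 xi (G.S12 w x) b c) := by
  have e12 : R.K12 w x = (G.S12 w x).1 := by
    unfold RowF.K12; rw [hf.k12, ka_val]; rfl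
  have f12 : R.C12 w x = (G.S12 w x).2.1 := by
    unfold RowF.C12; rw [hf.c12, xa_val]; rfl
  refine ⟨|(G.S12 w x).2.1 + b.2.1 - c.2.1| / 2, D, ?_, ?_⟩
  · intro F h1 h2
    unfold RowF.V1 at h1
    unfold RowF.V2 at h2
    rw [hf.v1, vf1_val, f12, g23, g13] at h1
    rw [hf.v2, vf2_val, f12, g23, g13] at h2
    rcases abs_cases ((G.S12 w x).2.1 + b.2.1 - c.2.1) with ⟨h, _⟩ | ⟨h, _⟩ <;> rw [h] <;>
      linarith
  · intro h
    have := sk_slkP hp hG h
    rw [bs_eq hX, e12, h23, h13] at this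
    exact this

/-- the level of the near vertex -/
theorem near_lev {c12 c23 c13 F : ℝ}
    (h1 : 0 ≤ F + G.mu x * ((3 + x) / 2 * (c12 + c23 - c13) -
      (x * w * c12 + (1 + 2 * x * w + x * z) * c23 - (1 + x * (w + z)) * c13) / 2))
    (h2 : 0 ≤ F + G.mu x * (-((3 + x) / 2 * (c12 + c23 - c13)) +
      ((1 + x * z) * c23 + (2 * (1 + x * z) + x * w) * c12 - (1 + x * (w + z)) * c13) / 2)) :
    0 ≤ F - -min (G.mu x * levA x w z c12 c23 c13) (G.mu x * levB x w z c12 c23 c13) := by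
  have e1 : 0 ≤ F + G.mu x * levA x w z c12 c23 c13 := h1
  have e2 : 0 ≤ F + G.mu x * levB x w z c12 c23 c13 := h2
  rcases min_choice (G.mu x * levA x w z c12 c23 c13) (G.mu x * levB x w z c12 c23 c13) with h | h
    <;> rw [h] <;> linarith

theorem near_good {M : ℕ} {up : Bool} {b c : ℝ × ℝ × ℝ} (hp : PatF P R) (hf : NearF R)
    (D : Dm R M up w z x) (hG : R.G w z = w + z - w * K13) (hX : R.XI w z x = xi)
    (h23 : R.K23 w z x = nk x b.1 (K13 - 1) b.2.2) (h13 : R.K13 w z x = nk x c.1 K13 c.2.2)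
    (g23 : R.C23 w z x = b.2.1) (g13 : R.C13 w z x = c.2.1) :
    Good R M up w z x (RowC .near P x w z K13 xi (G.S12 w x) b c) := by
  have e12 : R.K12 w x = nk x (G.S12 w x).1 1 (G.S12 w x).2.2 := by
    unfold RowF.K12; rw [hf.k12, k12n_nk]; rfl
  have f12 : R.C12 w x = (G.S12 w x).2.1 := by
    unfold RowF.C12; rw [hf.c12, xa_val]; rfl
  refine ⟨-min (G.mu x * levA x w z (G.S12 w x).2.1 b.2.1 c.2.1)
    (G.mu x * levB x w z (G.S12 w x).2.1 b.2.1 c.2.1), D, ?_, ?_⟩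
  · intro F h1 h2
    unfold RowF.V1 at h1
    unfold RowF.V2 at h2
    rw [hf.v1, ml1_val, f12, g23, g13] at h1
    rw [hf.v2, ml2_val, f12, g23, g13] at h2
    exact near_lev h1 h2
  · intro h
    have := sk_slkP hp hG h
    rw [bs_eq hX, e12, h23, h13] at this
    exact Or.inl this

theorem near_goodM {m : RowM} {M : ℕ} {up : Bool} {b c : ℝ × ℝ × ℝ} (hp : PatF P R)
    (hf : NearM R) (hm : m.r12 = r2a)
    (D : Dm R M up w z x) (hG : R.G w z = w + z - w * K13) (hX : R.XI w z x = xi)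
    (h23 : R.K23 w z x = nk x b.1 (K13 - 1) 0) (h13 : R.K13 w z x = nk x c.1 K13 0)
    (g23 : R.C23 w z x = b.2.1) (g13 : R.C13 w z x = c.2.1)
    (hr : |m.rt.v (R.U w z x) z (w + z) x| = |b.2.2| + |c.2.2|) :
    GoodM R m M up w z x (RowC .near P x w z K13 xi (G.S12 w x) b c) := by
  have e12 : R.K12 w x = nk x (G.S12 w x).1 1 0 := by
    unfold RowF.K12; rw [hf.k12, k12m_nk]; rfl
  have f12 : R.C12 w x = (G.S12 w x).2.1 := by
    unfold RowF.C12; rw [hf.c12, xa_val]; rfl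
  have hc : m.C R w z x = G.ep x * G.lb x * (|(G.S12 w x).2.2| + |b.2.2| + |c.2.2|) := by
    unfold RowM.C
    rw [hm, r2a_val, hr]
    show G.ep x * G.lb x * (|G.rf x * G.gh w| + (|b.2.2| + |c.2.2|)) =
      G.ep x * G.lb x * (|G.rf x * G.gh w| + |b.2.2| + |c.2.2|)
    ring
  refine ⟨-min (G.mu x * levA x w z (G.S12 w x).2.1 b.2.1 c.2.1)
    (G.mu x * levB x w z (G.S12 w x).2.1 b.2.1 c.2.1) +
      G.ep x * G.lb x * (|(G.S12 w x).2.2| + |b.2.2| + |c.2.2|), D, ?_, ?_⟩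
  · intro F h1 h2
    rw [hc] at h1 h2
    unfold RowF.V1 at h1
    unfold RowF.V2 at h2
    rw [hf.v1, ml1_val, f12, g23, g13] at h1
    rw [hf.v2, ml2_val, f12, g23, g13] at h2
    have := near_lev (x := x) (w := w) (z := z)
      (F := F - G.ep x * G.lb x * (|(G.S12 w x).2.2| + |b.2.2| + |c.2.2|))
      (c12 := (G.S12 w x).2.1) (c23 := b.2.1) (c13 := c.2.1) (by linarith) (by linarith)
    linarith
  · intro h
    have := sk_slkP hp hG h
    rw [bs_eq hX, e12, h23, h13] at this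
    exact Or.inr this

end

end Pool.Agent.Strip051.LC.E0.Ch
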