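import Pool.Agent.Strip051.LC.E0.Ch.Cone

/-! # Small rests: leaves next to the lines through the lattice shape -/

set_option linter.unusedVariables false

namespace Pool.Agent.Strip051.LC.E0.Ch

open Pool.Agent.Strip051.PB

attribute [local irreducible] padd psub pneg pmul psq pinv psqrt psqrtg pabs pps pmax pmin pphi plam
  pcase phf pnat prat pscale pnorm pdc pnc pone ppos pnn Enc

/-- choice of a number -/
noncomputable def bc (c : Bool) (A B : ℕ) : ℕ := Bool.rec (motive := fun _ => ℕ) A B c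

/-- choice of a test -/
noncomputable def bb (c p q : Bool) : Bool := Bool.rec (motive := fun _ => Bool) p q c

/-- inside one cell -/
noncomputable def inL (m8 mar : Bool) (X La Lb Ld LF LN Na Nb Nd Da Db Dd Pa V1d V2d V2a : ℕ) :
    Bool :=
  frc (psub (lnf_cvvv.s X La Lb Ld Na Nb Nd Da Db Dd) (ltf.t X La LF Da Pa)) fun F0 =>
  frc (bc mar F0 (psub F0 (prat 1 256))) fun F =>
  band (pnn (padd F V1d)) (band (bb m8 (pnn (padd F V2d))
    (pnn (padd (finf.t X La LF Na Da Pa) V2a))) (pnn (cinf.t X LN Da Pa)))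

/-- beyond one cell; `DSa` is the defect with its sign -/
noncomputable def ouL (m8 : Bool) (X La Lb Ld Aa Ba LN Ga Gb Gd BRa BRb BRd Da Pa DSa V1d V2d V2a :
    ℕ) : Bool :=
  band (pnn Ga)
    (frc (psub (lof_cvvv.s X La Lb Ld Ga Gb Gd BRa BRb BRd) (lab.t X La LN Da Pa)) fun F =>
      band (pnn (padd F V1d)) (band (bb m8 (pnn (padd F V2d))
        (pnn (padd (outd.t X La Aa Ba Ga BRa DSa Pa) V2a))) (ppos (col.t X La Da Pa))))

/-- leaf at a line: `j = 0` inside, `j = 1` beyond, else both -/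
noncomputable def lineT {R : RowF} {q : Bool} (S : RowS R q) (fa wd m8 : Bool)
    (j Wa Wb Wd Za Zb Zd X TT NN : ℕ) : Bool :=
  band (pnn (psub TT (prat 3 5))) (band (pnn (psub (prat 11 10) TT))
    (band (pnn (psub (prat 3 50) NN))
    (pval S false Wa Wb Wd Za Zb Zd X fun Ta Tb Td Ua Ub Ud Ga Gb Gd La Lb Ld Aa Ab Ad Ba Bb Bd
      Ma Mb Md Da Db Dd Sa Sb Sd Pa Pb Pd V1a V1b V1d V2a V2b V2d Na Nb Nd =>
      frc (bc fa Da (pneg Da)) fun D1 => frc (bc fa Db (pneg Db)) fun D2 =>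
      frc (bc fa Dd (pneg Dd)) fun D3 => frc (bc fa Aa Ba) fun LF => frc (bc fa Ba Aa) fun LN =>
      band (pnn D1)
        (Bool.rec (motive := fun _ => Bool)
          (Bool.rec (motive := fun _ => Bool)
            (band (inL m8 wd X La Lb Ld LF LN Na Nb Nd D1 D2 D3 Pa V1d V2d V2a)
              (ouL m8 X La Lb Ld Aa Ba LN Ga Gb Gd (brf.t X La Aa Ba Ga Ma Da Sa)
                (brf.t X Lb Ab Bb Gb Mb Db Sb)
                (brf_cvvvvvvv.s X La Lb Ld Aa Ab Ad Ba Bb Bd Ga Gb Gd Ma Mb Md Da Db Dd Sa Sb Sd)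
                D1 Pa Da V1d V2d V2a))
            (band (pnn (psub (bc wd TT (psub TT (phf (phf (phf (phf NN)))))) pone))
              (ouL m8 X La Lb Ld Aa Ba LN Ga Gb Gd (brf.t X La Aa Ba Ga Ma Da Sa)
                (brf.t X Lb Ab Bb Gb Mb Db Sb)
                (brf_cvvvvvvv.s X La Lb Ld Aa Ab Ad Ba Bb Bd Ga Gb Gd Ma Mb Md Da Db Dd Sa Sb Sd)
                D1 Pa Da V1d V2d V2a)) (Nat.beq j 1))
          (band (pnn (psub pone TT))
            (inL m8 false X La Lb Ld LF LN Na Nb Nd D1 D2 D3 Pa V1d V2d V2a)) (Nat.beq j 0)))))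

/-- The sign of the defect. -/
noncomputable def sgd (fa : Bool) (d : ℝ) : ℝ := bif fa then -d else d

/-- What is known at the line. -/
structure LineB (R : RowF) (fa wd m8 : Bool) (t N w z w' z' x : ℝ) : Prop where
  ab : R.A w z + R.B w z = R.L w z
  lf : (bif fa then R.B w z else R.A w z) = N
  l0 : wd = false → R.L w z = t + N
  l1 : wd = true → R.L w z = t
  i1 : 3 / 5 ≤ t → t ≤ 1 →
    0 ≤ lnf.v x (R.L w' z') (R.BN w' z' x) (sgd fa (R.DS w' z' x)) + R.V1 w' z' x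
  i2 : m8 = false → 3 / 5 ≤ t → t ≤ 1 →
    0 ≤ lnf.v x (R.L w' z') (R.BN w' z' x) (sgd fa (R.DS w' z' x)) + R.V2 w' z' x
  w1 : wd = true → 1 ≤ t → t ≤ 251 / 250 → -((t - 1) / 16) ≤
    lnf.v x (R.L w' z') (R.BN w' z' x) (sgd fa (R.DS w' z' x)) + R.V1 w' z' x
  w2 : m8 = false → wd = true → 1 ≤ t → t ≤ 251 / 250 → -((t - 1) / 16) ≤
    lnf.v x (R.L w' z') (R.BN w' z' x) (sgd fa (R.DS w' z' x)) + R.V2 w' z' x
  o1 : 1 ≤ t → t ≤ 11 / 10 →
    0 ≤ lof.v x (R.L w' z') (R.G w' z') (R.BR w' z' x) + R.V1 w' z' x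
  o2 : m8 = false → 1 ≤ t → t ≤ 11 / 10 →
    0 ≤ lof.v x (R.L w' z') (R.G w' z') (R.BR w' z' x) + R.V2 w' z' x

theorem bc_enc {E : Pt} {c : Bool} {A B : ℕ} {a b : ℝ} (ha : Enc E A a) (hb : Enc E B b) :
    Enc E (bc c A B) (bif c then b else a) := by
  cases c
  · exact ha
  · exact hb

theorem bb_true {c p q : Bool} (h : bb c p q = true) :
    (c = false → p = true) ∧ (c = true → q = true) := by
  cases c
  · exact ⟨fun _ => h, fun e => absurd e Bool.false_ne_true⟩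
  · exact ⟨fun e => absurd e.symm Bool.false_ne_true, fun _ => h⟩

theorem finf_lnf (x l lf bn ds gp : ℝ) :
    finf.v x l lf bn ds gp = lnf.v x l bn ds - lf * ltf.v x l lf ds gp := by
  rw [finf_val, lnf_val, ltf_val]; ring

section

variable {E : Pt} {m8 : Bool} {X La Lb Ld LF LN Na Nb Nd Da Db Dd Pa V1d V2d V2a : ℕ}
  {N x l l' ln bn bn' ds ds' gp v1 v1' v1d v2 v2' v2d : ℝ}

theorem inL_sound {mar : Bool} (hx : Enc E X x) (hl : Pr E N La Lb Ld l l') (hf : Enc E LF N)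
    (hn : Enc E LN ln) (hb : Pr E N Na Nb Nd bn bn') (hd : Pr E N Da Db Dd ds ds')
    (hp : Enc E Pa gp) (k1 : Enc E V1d v1d) (k2 : Enc E V2d v2d) (k3 : Enc E V2a v2)
    (e1 : v1 - v1' = N * v1d) (e2 : v2 - v2' = N * v2d) (hN : 0 ≤ N)
    (h : inL m8 mar X La Lb Ld LF LN Na Nb Nd Da Db Dd Pa V1d V2d V2a = true)
    (g1 : (bif mar then -(N / 256) else 0) ≤ lnf.v x l' bn' ds' + v1')
    (g2 : m8 = false → (bif mar then -(N / 256) else 0) ≤ lnf.v x l' bn' ds' + v2') :
    InR x l N ln bn ds gp v1 v2 := by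
  unfold inL at h
  simp only [frc_eq] at h
  obtain ⟨t1, h⟩ := band_true h
  obtain ⟨t2, t3⟩ := band_true h
  obtain ⟨d, kd, ed⟩ := (lnf_cvvv.snd hx hl hb hd).d
  have kt := ltf.enc hx hl.l hf hd.l hp
  have kF := bc_enc (c := mar) (enc_sub kd kt) (enc_sub (enc_sub kd kt) (enc_rat E 1 256))
  have key : ∀ {v v' vd : ℝ} {VD : ℕ}, Enc E VD vd → v - v' = N * vd →
      pnn (padd (bc mar (psub (lnf_cvvv.s X La Lb Ld Na Nb Nd Da Db Dd) (ltf.t X La LF Da Pa))
        (psub (psub (lnf_cvvv.s X La Lb Ld Na Nb Nd Da Db Dd) (ltf.t X La LF Da Pa))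
          (prat 1 256))) VD) = true →
      (bif mar then -(N / 256) else 0) ≤ lnf.v x l' bn' ds' + v' →
      0 ≤ finf.v x l N bn ds gp + v := by
    intro v v' vd VD kv ev ht hg
    have h1 := pnn_sound (enc_add kF kv) ht
    rw [finf_lnf]
    have h2 := mul_nonneg hN h1
    cases mar
    · simp only [cond_false] at h2 hg
      nlinarith
    · simp only [cond_true] at h2 hg
      push_cast at h2
      nlinarith
  refine ⟨key k1 e1 t1 g1, ?_, pnn_sound (cinf.enc hx hn hd.l hp) t3⟩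
  obtain ⟨s1, s2⟩ := bb_true t2
  rcases m8 with _ | _
  · exact key k2 e2 (s1 rfl) (g2 rfl)
  · exact pnn_sound (enc_add (finf.enc hx hl.l hf hb.l hd.l hp) k3) (s2 rfl)

end

theorem abf_lab (x l a b ds gp : ℝ) : abf.v x l a b ds gp = a * lab.v x l b ds gp := by
  rw [abf_val, lab_val]; ring

theorem abf_lab' (x l a b ds gp : ℝ) : abf.v x l a b ds gp = b * lab.v x l a ds gp := by
  rw [abf_val, lab_val]; ring

theorem lab_neg (x l a ds gp : ℝ) : lab.v x l a (-ds) gp = lab.v x l a ds gp := by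
  rw [lab_val, lab_val]; ring

section

variable {E : Pt} {m8 : Bool} {X La Lb Ld Aa Ba LN Ga Gb Gd BRa BRb BRd Da Pa DSa V1d V2d V2a : ℕ}
  {N x l l' a b ln g g' br br' ds D gp v1 v1' v1d v2 v2' v2d : ℝ}

theorem ouL_sound (hx : Enc E X x) (hl : Pr E N La Lb Ld l l') (hA : Enc E Aa a)
    (hB : Enc E Ba b) (hn : Enc E LN ln) (hG : Pr E N Ga Gb Gd g g')
    (hb : Pr E N BRa BRb BRd br br') (hd : Enc E Da D) (hp : Enc E Pa gp) (hs : Enc E DSa ds)
    (k1 : Enc E V1d v1d) (k2 : Enc E V2d v2d) (k3 : Enc E V2a v2)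
    (e1 : v1 - v1' = N * v1d) (e2 : v2 - v2' = N * v2d) (hN : 0 ≤ N)
    (hab : abf.v x l a b ds gp = N * lab.v x l ln D gp)
    (h : ouL m8 X La Lb Ld Aa Ba LN Ga Gb Gd BRa BRb BRd Da Pa DSa V1d V2d V2a = true)
    (g1 : 0 ≤ lof.v x l' g' br' + v1') (g2 : m8 = false → 0 ≤ lof.v x l' g' br' + v2') :
    0 ≤ g ∧ 0 < gp - 17 * (x * l * D) ∧ 0 ≤ outd.v x l a b g br ds gp + v1 ∧
      0 ≤ outd.v x l a b g br ds gp + v2 := by
  unfold ouL at h
  simp only [frc_eq] at h
  obtain ⟨t0, h⟩ := band_true h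
  obtain ⟨t1, h⟩ := band_true h
  obtain ⟨t2, t3⟩ := band_true h
  have hg := pnn_sound hG.l t0
  obtain ⟨d, kd, ed⟩ := (lof_cvvv.snd hx hl hG hb).d
  have kF := enc_sub kd (lab.enc hx hl.l hn hd hp)
  have le : lof.v x l g br - N * lab.v x l ln D gp ≤ outd.v x l a b g br ds gp := by
    rw [outd_val, lof_val, hab]
    have : 0 ≤ g * (1 - l⁻¹) ^ 2 := by positivity
    linarith
  have key : ∀ {v v' vd : ℝ} {VD : ℕ}, Enc E VD vd → v - v' = N * vd →
      pnn (padd (psub (lof_cvvv.s X La Lb Ld Ga Gb Gd BRa BRb BRd) (lab.t X La LN Da Pa)) VD) =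
        true → 0 ≤ lof.v x l' g' br' + v' → 0 ≤ outd.v x l a b g br ds gp + v := by
    intro v v' vd VD kv ev ht hg
    have h1 := mul_nonneg hN (pnn_sound (enc_add kF kv) ht)
    nlinarith
  refine ⟨hg, ?_, key k1 e1 t1 g1, ?_⟩
  · have := ppos_sound (col.enc hx hl.l hd hp) t3
    rwa [col_val] at this
  obtain ⟨s1, s2⟩ := bb_true t2
  rcases m8 with _ | _
  · exact key k2 e2 (s1 rfl) (g2 rfl)
  · exact pnn_sound (enc_add (outd.enc hx hl.l hA hB hG.l hb.l hs hp) k3) (s2 rfl)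

end

section

variable {E : Pt} {R : RowF} {q : Bool} {S : RowS R q} {M : ℕ} {up fa wd m8 : Bool}
  {j Wa Wb Wd Za Zb Zd X TT NN : ℕ} {t N w z w' z' x lev : ℝ}

theorem line_in (D : Dm R M up w z x) (hlev : R.Lv w z x lev)
    (h0 : 0 ≤ sgd fa (R.DS w z x))
    (h : InR x (R.L w z) (bif fa then R.B w z else R.A w z) (bif fa then R.A w z else R.B w z)
      (R.BN w z x) (sgd fa (R.DS w z x)) (R.GP w z x) (R.V1 w z x) (R.V2 w z x)) :
    R.Sk w z x lev := by
  refine sk_of_res (q := false) D rfl rfl rfl (fun e => absurd e Bool.false_ne_true) le_rfl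
    hlev (Or.inl ?_)
  rcases fa with _ | _
  · exact Or.inr ⟨h0, h⟩
  · have : 0 ≤ -R.DS w z x := h0
    exact Or.inl ⟨by linarith, h⟩

theorem line_out (D : Dm R M up w z x) (hlev : R.Lv w z x lev)
    (h0 : 0 ≤ sgd fa (R.DS w z x)) (hN : 0 ≤ N)
    (ab : R.A w z + R.B w z = R.L w z) (lf : (bif fa then R.B w z else R.A w z) = N)
    (hl : N / 16 ≤ R.L w z - 1) (hg : 0 ≤ R.G w z)
    (hc : 0 < R.GP w z x - 17 * (x * R.L w z * sgd fa (R.DS w z x)))
    (f1 : 0 ≤ outd.v x (R.L w z) (R.A w z) (R.B w z) (R.G w z) (R.BR w z x) (R.DS w z x)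
      (R.GP w z x) + R.V1 w z x)
    (f2 : 0 ≤ outd.v x (R.L w z) (R.A w z) (R.B w z) (R.G w z) (R.BR w z x) (R.DS w z x)
      (R.GP w z x) + R.V2 w z x) : R.Sk w z x lev := by
  refine sk_of_res (q := false) D rfl rfl rfl (fun e => absurd e Bool.false_ne_true)
    (outd_le D.x0 D.x1 hg) hlev (Or.inr (Or.inr ?_))
  have hx := D.x0
  have hl1 : 1 ≤ R.L w z := by
    have : 0 ≤ N / 16 := by positivity
    linarith
  have hxs : 0 ≤ x * sgd fa (R.DS w z x) := by positivity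
  have hxl : x * sgd fa (R.DS w z x) ≤ x * R.L w z * sgd fa (R.DS w z x) := by nlinarith
  have cou : 0 ≤ couf.v x (R.L w z) N (sgd fa (R.DS w z x)) (R.GP w z x) := by
    rw [couf_val]
    have hgp : 17 * (x * sgd fa (R.DS w z x)) ≤ R.GP w z x := by linarith
    have h3 : 0 ≤ N / 16 * (R.GP w z x - 17 * (x * sgd fa (R.DS w z x))) :=
      mul_nonneg (by positivity) (by linarith)
    have h4 : 0 ≤ (R.L w z - 1 - N / 16) * R.GP w z x := mul_nonneg (by linarith) (by linarith)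
    have h5 : 0 ≤ N * (x * sgd fa (R.DS w z x)) := mul_nonneg hN hxs
    nlinarith
  have cin : ∀ ln : ℝ, ln ≤ R.L w z → 0 < cinf.v x ln (sgd fa (R.DS w z x)) (R.GP w z x) := by
    intro ln hln
    rw [cinf_val]
    have h6 : x * (sgd fa (R.DS w z x) * ln) ≤ x * R.L w z * sgd fa (R.DS w z x) := by
      have := mul_le_mul_of_nonneg_left hln hxs
      nlinarith
    have h7 : 0 ≤ x * R.L w z * sgd fa (R.DS w z x) := by linarith
    linarith
  rcases fa with _ | _
  · refine Or.inr ⟨h0, f1, f2, ?_, ?_⟩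
    · rw [show R.A w z = N from lf]; exact cou
    · exact cin _ (by have := D.a0; linarith)
  · have h1 : 0 ≤ -R.DS w z x := h0
    refine Or.inl ⟨by linarith, f1, f2, ?_, ?_⟩
    · rw [show R.B w z = N from lf]; exact cou
    · exact cin _ (by have := D.b0; linarith)

theorem lineT_sound (hw : Pr E N Wa Wb Wd w w') (hz : Pr E N Za Zb Zd z z') (hx : Enc E X x)
    (ht : Enc E TT t) (hn : Enc E NN N) (hN : 0 ≤ N) (hq : q = true → R.U w' z' x = 0)
    (D : Dm R M up w z x) (B : LineB R fa wd m8 t N w z w' z' x) (hlev : R.Lv w z x lev)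
    (h : lineT S fa wd m8 j Wa Wb Wd Za Zb Zd X TT NN = true) : R.Sk w z x lev := by
  unfold lineT at h
  obtain ⟨r1, h⟩ := band_true h
  obtain ⟨r2, h⟩ := band_true h
  obtain ⟨r3, h⟩ := band_true h
  have hr1 := pnn_sound (enc_sub ht (enc_rat E 3 5)) r1
  have hr2 := pnn_sound (enc_sub (enc_rat E 11 10) ht) r2
  have hr3 := pnn_sound (enc_sub (enc_rat E 3 50) hn) r3
  push_cast at hr1 hr2 hr3
  obtain ⟨Ta, Tb, Td, Ua, Ub, Ud, Ga, Gb, Gd, La, Lb, Ld, Aa, Ab, Ad, Ba, Bb, Bd, Ma, Mb, Md, Da,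
    Db, Dd, Sa, Sb, Sd, Pa, Pb, Pd, V1a, V1b, V1d, V2a, V2b, V2d, Na, Nb, Nd, h, F⟩ :=
    pval_sound hw hz hx hq (fun e => absurd e Bool.false_ne_true) h
  simp only [frc_eq] at h
  obtain ⟨t0, h⟩ := band_true h
  obtain ⟨v1d, k1, e1⟩ := F.v1.d
  obtain ⟨v2d, k2, e2⟩ := F.v2.d
  have hd : Pr E N (bc fa Da (pneg Da)) (bc fa Db (pneg Db)) (bc fa Dd (pneg Dd))
      (sgd fa (R.DS w z x)) (sgd fa (R.DS w' z' x)) := by
    cases fa
    · exact F.ds
    · exact pr_neg F.ds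
  have h0 := pnn_sound hd.l t0
  have hLF : Enc E (bc fa Aa Ba) N := by
    have := bc_enc (c := fa) F.a.l F.b.l
    rwa [B.lf] at this
  have hLN : Enc E (bc fa Ba Aa) (bif fa then R.A w z else R.B w z) := bc_enc F.b.l F.a.l
  have hbr := brf_cvvvvvvv.snd hx F.l F.a F.b F.g F.gm F.ds F.bs
  have hab : abf.v x (R.L w z) (R.A w z) (R.B w z) (R.DS w z x) (R.GP w z x) =
      N * lab.v x (R.L w z) (bif fa then R.A w z else R.B w z) (sgd fa (R.DS w z x))
        (R.GP w z x) := by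
    have hlf := B.lf
    cases fa
    · rw [abf_lab]
      simp only [cond_false] at hlf ⊢
      rw [hlf]; rfl
    · rw [abf_lab']
      simp only [cond_true] at hlf ⊢
      rw [hlf]
      unfold sgd
      rw [cond_true, lab_neg]
  have IN : ∀ mar : Bool, (mar = false → t ≤ 1) → (mar = true → wd = true ∧ (t - 1) ≤ N / 16) →
      inL m8 mar X La Lb Ld (bc fa Aa Ba) (bc fa Ba Aa) Na Nb Nd (bc fa Da (pneg Da))
        (bc fa Db (pneg Db)) (bc fa Dd (pneg Dd)) Pa V1d V2d V2a = true → R.Sk w z x lev := by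
    intro mar m1 m2 hi
    refine line_in D hlev h0 ?_
    rw [B.lf]
    refine inL_sound hx F.l hLF hLN F.bn hd F.gp.l k1 k2 F.v2.l e1 e2 hN hi ?_ ?_
    · cases mar
      · exact B.i1 (by linarith) (m1 rfl)
      · obtain ⟨m3, m4⟩ := m2 rfl
        simp only [cond_true]
        rcases le_or_gt t 1 with h1 | h1
        · have := B.i1 (by linarith) h1
          have : 0 ≤ N / 256 := by positivity
          linarith
        · have := B.w1 m3 h1.le (by linarith)
          linarith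
    · intro m5
      cases mar
      · exact B.i2 m5 (by linarith) (m1 rfl)
      · obtain ⟨m3, m4⟩ := m2 rfl
        simp only [cond_true]
        rcases le_or_gt t 1 with h1 | h1
        · have := B.i2 m5 (by linarith) h1
          have : 0 ≤ N / 256 := by positivity
          linarith
        · have := B.w2 m5 m3 h1.le (by linarith)
          linarith
  have OU : 1 ≤ t → (wd = true → N / 16 ≤ t - 1) →
      ouL m8 X La Lb Ld Aa Ba (bc fa Ba Aa) Ga Gb Gd (brf.t X La Aa Ba Ga Ma Da Sa)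
        (brf.t X Lb Ab Bb Gb Mb Db Sb)
        (brf_cvvvvvvv.s X La Lb Ld Aa Ab Ad Ba Bb Bd Ga Gb Gd Ma Mb Md Da Db Dd Sa Sb Sd)
        (bc fa Da (pneg Da)) Pa Da V1d V2d V2a = true → R.Sk w z x lev := by
    intro m1 m2 hi
    obtain ⟨f0, f1, f2, f3⟩ := ouL_sound (v1 := R.V1 w z x) (v2 := R.V2 w z x)
      hx F.l F.a.l F.b.l hLN F.g hbr hd.l F.gp.l F.ds.l
      k1 k2 F.v2.l e1 e2 hN hab hi (B.o1 m1 (by linarith)) (fun m5 => B.o2 m5 m1 (by linarith))
    refine line_out D hlev h0 hN B.ab B.lf ?_ f0 f1 f2 f3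
    rcases hwd : wd with _ | _
    · have := B.l0 hwd
      have : 0 ≤ N := hN
      linarith
    · have := B.l1 hwd
      have := m2 hwd
      linarith
  rcases j0 : Nat.beq j 0 with _ | _ <;> rw [j0] at h
  · rcases j1 : Nat.beq j 1 with _ | _ <;> rw [j1] at h
    · obtain ⟨q1, q2⟩ := band_true h
      rcases hwd : wd with _ | _
      · rcases le_total t 1 with h1 | h1
        · rw [hwd] at q1
          exact IN false (fun _ => h1) (fun e => absurd e Bool.false_ne_true) q1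
        · exact OU h1 (fun e => absurd (hwd.symm.trans e) Bool.false_ne_true) q2
      · rcases le_total (t - 1) (N / 16) with h1 | h1
        · rw [hwd] at q1
          exact IN true (fun e => absurd e.symm Bool.false_ne_true) (fun _ => ⟨hwd, h1⟩) q1
        · have : 0 ≤ N / 16 := by positivity
          exact OU (by linarith) (fun _ => h1) q2
    · obtain ⟨q1, q2⟩ := band_true h
      have hh : Enc E (phf (phf (phf (phf NN)))) (N / 2 / 2 / 2 / 2) :=
        enc_half (enc_half (enc_half (enc_half hn)))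
      have h1 := pnn_sound (enc_sub (bc_enc (c := wd) ht (enc_sub ht hh)) (enc_one E)) q1
      rcases hwd : wd with _ | _
      · rw [hwd, cond_false] at h1
        exact OU (by linarith) (fun e => absurd (hwd.symm.trans e) Bool.false_ne_true) q2
      · rw [hwd, cond_true] at h1
        exact OU (by linarith) (fun _ => by linarith) q2
  · obtain ⟨q1, q2⟩ := band_true h
    have h1 := pnn_sound (enc_sub (enc_one E) ht) q1
    exact IN false (fun _ => by linarith) (fun e => absurd e Bool.false_ne_true) q2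

end

end Pool.Agent.Strip051.LC.E0.Ch
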