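import Pool.Agent.Strip051.LC.E0.Ch.Fns
import Pool.Agent.Strip051.LC.E0.Def

/-! # Small rests: the functions with enclosures are the functions of the tables -/

namespace Pool.Agent.Strip051.LC.E0.Ch

open Pool.Agent.Strip051.PB

theorem gs_val (x : ℝ) : gs.v x = G.gs x := by
  unfold gs G.gs
  dsimp only
  push_cast
  rfl

theorem ic_val (x : ℝ) : ic.v x = G.ic x := by
  unfold ic G.ic
  dsimp only
  rw [gs_val]
  push_cast
  rw [one_div]

theorem ep_val (x : ℝ) : ep.v x = G.ep x := by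
  unfold ep G.ep
  dsimp only
  rw [ic_val]
  push_cast
  ring

theorem ix_val (x : ℝ) : ix.v x = (1 - x)⁻¹ := by
  unfold ix
  dsimp only
  push_cast
  rfl

theorem et_val (x : ℝ) : et.v x = G.et x := by
  unfold et G.et
  dsimp only
  rw [ic_val, ix_val]
  push_cast
  rw [div_eq_mul_inv _ (1 - x)]

theorem ch_val (x : ℝ) : ch.v x = G.ch x := by
  unfold ch G.ch
  dsimp only
  rw [gs_val, ic_val]
  push_cast
  ring

theorem mm_val (x : ℝ) : mm.v x = G.mm x := by
  unfold mm G.mm
  dsimp only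
  rw [gs_val, ic_val]
  push_cast
  ring

theorem pq_val (x : ℝ) : pq.v x = G.pq x := by
  unfold pq G.pq
  dsimp only
  rw [gs_val, ep_val]
  push_cast
  rw [div_eq_mul_inv]
  ring

theorem qw_val (w x : ℝ) : qw.v w x = G.qw w x := by
  unfold qw G.qw
  dsimp only
  push_cast
  congr 1
  ring

theorem om_val (w x : ℝ) : om.v w x = G.om w x := by
  unfold om G.om
  dsimp only
  rw [qw_val]
  push_cast
  ring

theorem mu_val (x : ℝ) : mu.v x = G.mu x := by
  unfold mu G.mu
  dsimp only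
  rw [gs_val]
  push_cast
  rw [one_div]

theorem lb_val (x : ℝ) : lb.v x = G.lb x := by
  unfold lb G.lb
  dsimp only
  rw [ch_val, mu_val, ep_val]
  rw [div_eq_mul_inv]

theorem ei_val (x : ℝ) : ei.v x = G.ep x / (1 - x) := by
  unfold ei
  dsimp only
  rw [ep_val, ix_val, div_eq_mul_inv]

theorem kx_val (x : ℝ) : kx.v x = 1 + x * G.et x := by
  unfold kx
  dsimp only
  rw [et_val]
  push_cast
  rfl

theorem dt_val (w : ℝ) : dt.v w = G.dt w := by
  simp only [dt, dt_2, dt_5, dt_8, G.dt, G.cse]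
  push_cast
  rcases le_or_gt (w - 1) 0 with h | h
  · rw [if_pos h, max_eq_right h, max_eq_right (by linarith : w - 3 / 2 ≤ 0),
      max_eq_right (by linarith : w - 5 / 2 ≤ 0), max_eq_right (by linarith : w - 4 ≤ 0)]
    ring
  rw [if_neg h.not_ge, max_eq_left h.le]
  rcases le_or_gt (w - 3 / 2) 0 with h | h
  · rw [if_pos h, max_eq_right h, max_eq_right (by linarith : w - 5 / 2 ≤ 0),
      max_eq_right (by linarith : w - 4 ≤ 0)]
    ring
  rw [if_neg h.not_ge, max_eq_left h.le]
  rcases le_or_gt (w - 5 / 2) 0 with h | h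
  · rw [if_pos h, max_eq_right h, max_eq_right (by linarith : w - 4 ≤ 0)]
    ring
  rw [if_neg h.not_ge, max_eq_left h.le]
  rcases le_or_gt (w - 4) 0 with h | h
  · rw [if_pos h, max_eq_right h]
    ring
  rw [if_neg h.not_ge, max_eq_left h.le]
  ring

theorem xa_val (w x : ℝ) : xa.v w x = G.xa w x := by
  simp only [xa, xa_8, xa_19, G.xa, G.cse, G.q1, ch_val, mm_val]
  push_cast
  rcases le_or_gt (w - 1) 0 with h | h
  · rw [if_pos h, max_eq_right h, max_eq_right (by linarith : w - 3 / 2 ≤ 0),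
      max_eq_right (by linarith : w - 5 / 2 ≤ 0), max_eq_right (by linarith : w - 4 ≤ 0)]
    ring
  rw [if_neg h.not_ge, max_eq_left h.le]
  rcases le_or_gt (w - 3 / 2) 0 with h | h
  · rw [if_pos h, max_eq_right h, max_eq_right (by linarith : w - 5 / 2 ≤ 0),
      max_eq_right (by linarith : w - 4 ≤ 0)]
    ring
  rw [if_neg h.not_ge, max_eq_left h.le]
  rcases le_or_gt (w - 5 / 2) 0 with h | h
  · rw [if_pos h, max_eq_right h, max_eq_right (by linarith : w - 4 ≤ 0)]
    ring
  rw [if_neg h.not_ge, max_eq_left h.le]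
  rcases le_or_gt (w - 4) 0 with h | h
  · rw [if_pos h, max_eq_right h]
    ring
  rw [if_neg h.not_ge, max_eq_left h.le]
  ring

theorem xw_val (w x : ℝ) : xw.v w x = G.xw w x := by
  simp only [xw, xw_5, xw_8, G.xw, G.cse, G.q1, ch_val, mm_val]
  push_cast
  rcases le_or_gt (w - 1) 0 with h | h
  · rw [if_pos h, max_eq_right h, max_eq_right (by linarith : w - 3 / 2 ≤ 0),
      max_eq_right (by linarith : w - 5 / 2 ≤ 0)]
    ring
  rw [if_neg h.not_ge, max_eq_left h.le]
  rcases le_or_gt (w - 3 / 2) 0 with h | h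
  · rw [if_pos h, max_eq_right h, max_eq_right (by linarith : w - 5 / 2 ≤ 0)]
    ring
  rw [if_neg h.not_ge, max_eq_left h.le]
  rcases le_or_gt (w - 5 / 2) 0 with h | h
  · rw [if_pos h, max_eq_right h]
    ring
  rw [if_neg h.not_ge, max_eq_left h.le]
  ring

theorem xb_val (v : ℝ) : xb.v v = G.xb v := by
  simp only [xb, xb_3, G.xb, G.cse]
  push_cast
  rcases le_or_gt (v - 1) 0 with h | h
  · rw [if_pos h, max_eq_right h, max_eq_right (by linarith : v - 5 / 2 ≤ 0)]
    ring
  rw [if_neg h.not_ge, max_eq_left h.le]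
  rcases le_or_gt (v - 5 / 2) 0 with h | h
  · rw [if_pos h, max_eq_right h]
    ring
  rw [if_neg h.not_ge, max_eq_left h.le]
  ring

theorem gh_val (w : ℝ) : gh.v w = G.gh w := by
  simp only [gh, G.gh, G.cse]
  push_cast
  rcases le_or_gt (w - 1) 0 with h | h
  · rw [if_pos h, max_eq_right h, max_eq_right (by linarith : w - 4 ≤ 0)]
    ring
  rw [if_neg h.not_ge, max_eq_left h.le]
  rcases le_or_gt (w - 4) 0 with h | h
  · rw [if_pos h, max_eq_right h]
    ring
  rw [if_neg h.not_ge, max_eq_left h.le]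
  ring

/-! ### The circles -/

theorem cc1_val (z x : ℝ) : cc1.v z x = G.cc1 z x := by
  simp only [cc1, G.cc1]
  push_cast
  rfl

theorem xi1_val (z x : ℝ) : xi1.v z x = G.xi1 z x := by
  simp only [xi1, G.xi1, cc1_val]
  push_cast
  ring

theorem sg1_val (z x : ℝ) : sg1.v z x = G.sg1 z x := by
  simp only [sg1, G.sg1, xi1_val]

theorem k1p_val (z x : ℝ) : k1p.v z x = G.k1p z x := by
  simp only [k1p, k1p_3, G.k1p, G.k1, cc1_val, sg1_val, dt_val]
  push_cast
  ring

theorem k1m_val (z x : ℝ) : k1m.v z x = G.k1m z x := by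
  simp only [k1m, k1m_4, G.k1m, G.k1, cc1_val, sg1_val, dt_val]
  push_cast
  ring

theorem x1p_val (z x : ℝ) : x1p.v z x = G.x1p z x := by
  simp only [x1p, G.x1p, sg1_val, xa_val, xb_val]

theorem x1m_val (z x : ℝ) : x1m.v z x = G.x1m z x := by
  simp only [x1m, G.x1m, sg1_val, xb_val]

theorem xiw_val (z x : ℝ) : xiw.v z x = G.xiw z x := by
  simp only [xiw, G.xiw, om_val]

theorem zx_val (w x : ℝ) : zx.v w x = -(x * G.om w x) := by
  simp only [zx, om_val]

theorem pu_val (x : ℝ) : pu.v x = G.pu x := by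
  simp only [pu, G.pu, pq_val, k1p_val, xiw_val, xi1_val]
  push_cast
  ring

theorem su_val (z x : ℝ) : su.v z x = G.su z x := by
  simp only [su, G.su, G.cse, pu_val]
  push_cast
  rcases le_or_gt (z - 1) 0 with h | h
  · rw [if_pos h, if_pos (by linarith : z - 2 ≤ 0), min_eq_left (by linarith)]
  rw [if_neg h.not_ge, min_eq_right (by linarith)]
  rcases le_or_gt (z - 2) 0 with h | h
  · rw [if_pos h, if_pos h]
    ring
  · rw [if_neg h.not_ge, if_neg h.not_ge]

theorem kwu_val (z x : ℝ) : kwu.v z x = G.kwu z x := by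
  simp only [kwu, G.kwu, k1p_val, su_val, xiw_val, xi1_val]

theorem cc3_val (z x : ℝ) : cc3.v z x = G.cc3 z x := by
  simp only [cc3, G.cc3]
  push_cast
  rfl

theorem xi3_val (z x : ℝ) : xi3.v z x = G.xi3 z x := by
  simp only [xi3, G.xi3, cc3_val]
  push_cast
  ring

theorem sg3_val (z x : ℝ) : sg3.v z x = G.sg3 z x := by
  simp only [sg3, G.sg3, xi3_val]
  push_cast
  ring

theorem k3p_val (z x : ℝ) : k3p.v z x = G.k3p z x := by
  simp only [k3p, k3p_3, G.k3p, G.k3, cc3_val, sg3_val, dt_val]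
  push_cast
  ring

theorem k3m_val (z x : ℝ) : k3m.v z x = G.k3m z x := by
  simp only [k3m, k3m_4, G.k3m, G.k3, cc3_val, sg3_val, dt_val]
  push_cast
  ring

theorem x3p_val (z x : ℝ) : x3p.v z x = G.x3p z x := by
  simp only [x3p, G.x3p, sg3_val, xa_val, xb_val]
  push_cast
  rfl

theorem x3m_val (z x : ℝ) : x3m.v z x = G.x3m z x := by
  simp only [x3m, G.x3m, sg3_val, xa_val, xb_val]

theorem pl_val (x : ℝ) : pl.v x = G.pl' x := by
  simp only [pl, pl_2, G.pl', pq_val, k3m_val, xiw_val, xi3_val]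
  push_cast
  ring

theorem sl_val (z x : ℝ) : sl.v z x = G.sl z x := by
  simp only [sl, sl_2, G.sl, G.cse, pl_val]
  push_cast
  rcases le_or_gt (-z - 1) 0 with h | h
  · rw [if_pos h, if_pos (by linarith : -z - 2 ≤ 0), min_eq_left (by linarith)]
    ring
  rw [if_neg h.not_ge, min_eq_right (by linarith)]
  rcases le_or_gt (-z - 2) 0 with h | h
  · rw [if_pos h, if_pos h]
    ring
  · rw [if_neg h.not_ge, if_neg h.not_ge]

theorem kwl_val (z x : ℝ) : kwl.v z x = G.kwl z x := by
  simp only [kwl, G.kwl, k3m_val, sl_val, xiw_val, xi3_val]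

theorem xwl_val (z x : ℝ) : xwl.v z x = G.xw (-z) x := by
  simp only [xwl, xw_val]

theorem ka_val (w x : ℝ) : ka.v w x = -G.dt w := by
  simp only [ka, dt_val]

/-! ### The slopes and the second kernel -/

theorem dwl_val (z x : ℝ) : dwl.v z x = G.dwl z x := by
  simp only [dwl, G.dwl, xiw_val, xi1_val]
  push_cast
  rfl

theorem dwu_val (z x : ℝ) : dwu.v z x = G.dwu z x := by
  simp only [dwu, G.dwu, xiw_val, xi3_val]
  push_cast
  rfl

theorem saw_val (z x : ℝ) : saw.v z x = G.saw z x := by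
  simp only [saw, saw_7, G.saw, G.dwl, xiw_val, xi1_val, kwl_val, k1m_val]
  push_cast
  ring

theorem sbc_val (z x : ℝ) : sbc.v z x = G.sbc z x := by
  simp only [sbc, G.sbc, G.dwu, xiw_val, xi3_val, kwu_val, k3p_val]
  push_cast
  ring

theorem rf_val (x : ℝ) : rf.v x = G.rf x := by
  simp only [rf, G.rf, gs_val, mm_val, ch_val]
  push_cast
  ring

theorem pp2_val (x : ℝ) : pp2.v x = G.pp2 x := by
  simp only [pp2, G.pp2, pq_val]
  push_cast
  rfl

theorem rwu_val (x : ℝ) : rwu.v x = G.rwu x := by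
  simp only [rwu, G.rwu, rf_val, pp2_val, mm_val, ch_val]
  ring

theorem rwl_val (x : ℝ) : rwl.v x = G.rwl x := by
  simp only [rwl, G.rwl, rf_val, pp2_val, mm_val, ch_val]
  ring

theorem r2a_val (w x : ℝ) : r2a.v w x = G.rf x * G.gh w := by
  simp only [r2a, rf_val, gh_val]

theorem r2u_val (z x : ℝ) : r2u.v z x = G.rwu x * G.gh z := by
  simp only [r2u, rwu_val, gh_val]

theorem r2l_val (z x : ℝ) : r2l.v z x = G.rwl x * G.gh (-z) := by
  simp only [r2l, rwl_val, gh_val]

end Pool.Agent.Strip051.LC.E0.Ch
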