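import Pool.Agent.Strip051.LC.E0.Ch.Cert.Yb

/-! # Small rests: the slack at the lines through the lattice shape -/

set_option linter.unusedVariables false
set_option linter.unusedSimpArgs false

namespace Pool.Agent.Strip051.LC.E0.Ch

open Pool.Agent.Strip051.PB BaseP

/-- inside one cell -/
noncomputable def lnR (x t g bs gm D : ℝ) : ℝ :=
  3 / 4 * (G.ic x * g) + bs - G.ep x * gm - G.ep x / (1 - x) * (D * (1 - x * t) * (1 - t))

/-- beyond one cell -/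
noncomputable def loR (x t g bs gm D : ℝ) : ℝ :=
  g * (1 - t⁻¹) ^ 2 / 2 + (g * ((1 + x * G.et x) / 2 - G.et x * ((1 - t⁻¹ / 2) * t⁻¹)) + bs -
    (1 + x * G.et x) * (gm * ((1 - t⁻¹ / 2 - x * t / 2) * t⁻¹) -
      D * (1 - x * t) * (1 - t⁻¹) / 2))

section

variable {t x : ℝ}

/-! ### Constants -/

theorem gs_sq (hx : 0 < x) (hx1 : x ≤ 4 / 125) : G.gs x ^ 2 = 1 - 3 / 4 * x ^ 2 := by
  unfold G.gs
  exact Real.sq_sqrt (by nlinarith)

theorem ic_gs (hx : 0 < x) (hx1 : x ≤ 4 / 125) : G.ic x * (1 + G.gs x) = 1 := by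
  obtain ⟨g1, g2⟩ := gs_bd hx hx1
  unfold G.ic
  rw [one_div, inv_mul_cancel₀ (by linarith)]

theorem et_mul (hx : 0 < x) (hx1 : x ≤ 4 / 125) : (1 - x) * G.et x = 1 - 3 / 2 * G.ic x := by
  unfold G.et
  rw [mul_div_cancel₀ _ (by linarith : (1 - x) ≠ 0)]

theorem kx_mul (hx : 0 < x) (hx1 : x ≤ 4 / 125) : (1 - x) * (1 + x * G.et x) = 2 * G.ep x := by
  have := et_mul hx hx1
  unfold G.ep
  linear_combination x * this

theorem ep_pq (hx : 0 < x) (hx1 : x ≤ 4 / 125) : G.ep x * G.pq x * G.gs x = 3 / 8 * G.ic x := by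
  obtain ⟨g1, g2⟩ := gs_bd hx hx1
  have he := ep_pos hx hx1
  unfold G.pq G.ic
  have : 0 < G.gs x := by linarith
  field_simp

theorem ep_lb (hx : 0 < x) (hx1 : x ≤ 4 / 125) : G.ep x * G.lb x = G.ch x * G.mu x := by
  have he := ep_pos hx hx1
  unfold G.lb
  field_simp

theorem one_gs (hx : 0 < x) (hx1 : x ≤ 4 / 125) : 1 - G.gs x = 3 / 4 * x ^ 2 * G.ic x := by
  have h1 := gs_sq hx hx1
  have h2 := ic_gs hx hx1
  linear_combination -(1 - G.gs x) * h2 - G.ic x * h1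

theorem c0_eq (hx : 0 < x) (hx1 : x ≤ 4 / 125) :
    3 / 4 * G.ic x - G.ch x = 9 / 8 * G.ic x ^ 2 * x ^ 2 := by
  have h := one_gs hx hx1
  unfold G.ch
  linear_combination 3 / 2 * G.ic x * h

/-- `β / x` -/
noncomputable def bet (c x : ℝ) : ℝ :=
  G.ic x * (3 / 4 - c * G.ep x) + 9 / 8 * G.ic x ^ 2 * (x * (G.gs x)⁻¹)

/-- The value of the functions at `t = 1`. -/
theorem bet_eq (hx : 0 < x) (hx1 : x ≤ 4 / 125) (c : ℝ) :
    2 * (G.ep x * G.pq x) - 2 * G.ep x * (109 / 250) + c * G.ep x * (x * G.ic x) + G.mm x -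
      G.ch x = -(x * bet c x) := by
  obtain ⟨g1, g2⟩ := gs_bd hx hx1
  have h1 := one_gs hx hx1
  have h2 := ic_gs hx hx1
  have h3 := ep_pq hx hx1
  have hg : G.gs x ≠ 0 := by linarith
  have h4 : G.ep x * G.pq x = 3 / 8 * G.ic x * (G.gs x)⁻¹ := by
    rw [← h3]
    field_simp
  have h5 : 3 / 2 * (3 / 2 - G.gs x) / G.gs x = 9 / 4 * (G.gs x)⁻¹ - 3 / 2 := by
    field_simp
    ring
  have h6 : G.gs x * (G.gs x)⁻¹ = 1 := mul_inv_cancel₀ hg
  set v := (G.gs x)⁻¹ with hv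
  have key : -(9 / 4 * v) + 3 / 2 + 3 / 2 * G.ic x - G.ch x + 3 / 4 * G.ic x * v =
      -(9 / 8 * G.ic x ^ 2 * x ^ 2 * v) := by
    have e1 : v * (G.ic x * (1 + G.gs x) - 1) = 0 := by rw [h2]; ring
    have e2 : v * G.ic x * (1 - G.gs x - 3 / 4 * x ^ 2 * G.ic x) = 0 := by rw [h1]; ring
    unfold G.ch
    linear_combination (-3 / 2) * e2 + 9 / 4 * e1 + (-15 / 4 * G.ic x) * h6 - 3 / 2 * h2
  unfold bet
  rw [h4]
  unfold G.mm
  rw [h5]
  unfold G.ep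
  linear_combination key

/-! ### The first quotients -/

theorem pf_val (t x : ℝ) : pf.v t x = t * G.ic x * (1 + G.qw t x)⁻¹ *
    (1 + (1 + t) * (G.qw t x + t * G.gs x)⁻¹) := by
  simp only [pf, ic_val, qw_val, gs_val]; push_cast; ring

theorem opf_val (t x : ℝ) : opf.v t x = 3 / 8 * (G.ic x * (1 + G.qw t x)⁻¹ *
    (1 + t + G.qw t x + t * (1 + t) * (G.qw t x + t * G.gs x)⁻¹)) := by
  simp only [opf, opf_9, ic_val, qw_val, gs_val]; push_cast; ring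

theorem pf_eq (hx : 0 < x) (hx1 : x ≤ 4 / 125) (h0 : 0 ≤ t) (h8 : t ≤ 8) :
    (1 - t) * (3 / 8 * pf.v t x) = 3 / 8 * G.ic x * t - G.om t x / 2 := by
  obtain ⟨g1, g2⟩ := gs_bd hx hx1
  have hq := qw_ge hx hx1 h0 h8
  have hq2 := qw_sq hx hx1 h0 h8
  have h1 := gs_sq hx hx1
  have h2 := ic_gs hx hx1
  have ho : G.om t x = 3 / 4 * t ^ 2 * (1 + G.qw t x)⁻¹ := by
    unfold G.om; rw [div_eq_mul_inv]
  rw [pf_val, ho]
  have hA : (1 + G.qw t x) * (1 + G.qw t x)⁻¹ = 1 := mul_inv_cancel₀ (by linarith)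
  have hp : 0 < G.qw t x + t * G.gs x := by
    have : 0 ≤ t * G.gs x := mul_nonneg h0 (by linarith)
    linarith
  have hB : (G.qw t x + t * G.gs x) * (G.qw t x + t * G.gs x)⁻¹ = 1 := mul_inv_cancel₀ hp.ne'
  set A := (1 + G.qw t x)⁻¹ with hAd
  set B := (G.qw t x + t * G.gs x)⁻¹ with hBd
  have e1 : (1 - t ^ 2) * B = G.qw t x - t * G.gs x := by
    have : (1 - t ^ 2) = (G.qw t x - t * G.gs x) * (G.qw t x + t * G.gs x) := by
      linear_combination -hq2 + t ^ 2 * h1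
    rw [this]
    linear_combination (G.qw t x - t * G.gs x) * hB
  linear_combination 3 / 8 * t * G.ic x * A * e1 + 3 / 8 * t * G.ic x * hA - 3 / 8 * t ^ 2 * A * h2

theorem opf_eq (hx : 0 < x) (hx1 : x ≤ 4 / 125) (h0 : 0 ≤ t) (h8 : t ≤ 8) :
    (t - 1) * opf.v t x = G.om t x / 2 - 3 / 8 * G.ic x := by
  obtain ⟨g1, g2⟩ := gs_bd hx hx1
  have hq := qw_ge hx hx1 h0 h8
  have hq2 := qw_sq hx hx1 h0 h8
  have h1 := gs_sq hx hx1
  have h2 := ic_gs hx hx1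
  have ho : G.om t x = 3 / 4 * t ^ 2 * (1 + G.qw t x)⁻¹ := by
    unfold G.om; rw [div_eq_mul_inv]
  rw [opf_val, ho]
  have hA : (1 + G.qw t x) * (1 + G.qw t x)⁻¹ = 1 := mul_inv_cancel₀ (by linarith)
  have hp : 0 < G.qw t x + t * G.gs x := by
    have : 0 ≤ t * G.gs x := mul_nonneg h0 (by linarith)
    linarith
  have hB : (G.qw t x + t * G.gs x) * (G.qw t x + t * G.gs x)⁻¹ = 1 := mul_inv_cancel₀ hp.ne'
  set A := (1 + G.qw t x)⁻¹ with hAd
  set B := (G.qw t x + t * G.gs x)⁻¹ with hBd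
  have e1 : (1 - t ^ 2) * B = G.qw t x - t * G.gs x := by
    have : (1 - t ^ 2) = (G.qw t x - t * G.gs x) * (G.qw t x + t * G.gs x) := by
      linear_combination -hq2 + t ^ 2 * h1
    rw [this]
    linear_combination (G.qw t x - t * G.gs x) * hB
  linear_combination (-3 / 8) * t * G.ic x * A * e1 - 3 / 8 * G.ic x * hA +
    3 / 8 * t ^ 2 * A * h2

/-! ### The slack as a multiple of the distance to `t = 1` -/

/-- the common part, below -/
noncomputable def cin (t x D : ℝ) : ℝ :=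
  3 / 8 * pf.v t x - G.ep x / (1 - x) * ((1 - x * t) * D)

theorem in_f (hx : 0 < x) (hx1 : x ≤ 4 / 125) (h0 : 0 ≤ t) (h8 : t ≤ 8) (D : ℝ) :
    lnR x t (t / 2) (-(G.om t x / 2)) 0 D = (1 - t) * cin t x D := by
  have P := pf_eq hx hx1 h0 h8
  unfold lnR cin
  linear_combination -P

theorem in_n (hx : 0 < x) (hx1 : x ≤ 4 / 125) (h0 : 0 ≤ t) (h8 : t ≤ 8) (D : ℝ) {c : ℝ}
    (hc : c = t * (2 * G.ch x - G.mm x + (G.mm x - G.ch x) * t)) :
    lnR x t (t / 2) (-(G.om t x / 2)) (G.lb x * t / 2) D + G.mu x * c / 2 =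
      (1 - t) * (cin t x D - G.mu x * ((G.mm x - G.ch x) * t) / 2) := by
  have P := pf_eq hx hx1 h0 h8
  have E := ep_lb hx hx1
  unfold lnR cin
  linear_combination -P - t / 2 * E + G.mu x / 2 * hc

theorem in_n' (hx : 0 < x) (hx1 : x ≤ 4 / 125) (h0 : 0 ≤ t) (h8 : t ≤ 8) (D : ℝ) {c : ℝ}
    (hc : c = G.ch x + G.mm x * (t - 1)) :
    lnR x t (t / 2) (-(G.om t x / 2)) (G.lb x * t / 2) D + G.mu x * c / 2 =
      (1 - t) * (cin t x D - G.mu x * (G.mm x - G.ch x) / 2) := by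
  have P := pf_eq hx hx1 h0 h8
  have E := ep_lb hx hx1
  unfold lnR cin
  linear_combination -P - t / 2 * E + G.mu x / 2 * hc

theorem in_5 (D : ℝ) {c : ℝ}
    (hc : c = t * (2 * G.ch x - G.mm x + (G.mm x - G.ch x) * t)) :
    lnR x t t 0 0 D - c = (3 / 4 * G.ic x - G.ch x) * t +
      (1 - t) * ((G.mm x - G.ch x) * t - G.ep x / (1 - x) * ((1 - x * t) * D)) := by
  unfold lnR
  linear_combination -hc

theorem in_8 (hx : 0 < x) (hx1 : x ≤ 4 / 125) (h0 : 0 ≤ t) (h8 : t ≤ 8) (D e s : ℝ) {c : ℝ}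
    (hc : c = t * (2 * G.ch x - G.mm x + (G.mm x - G.ch x) * t)) :
    lnR x t (3 / 2 * t) (-(G.om t x / 2) - x * t * e) (-(2 * t * (x * e) * s)) D - c =
      (3 / 4 * G.ic x - G.ch x) * t + (1 - t) * (cin t x D + (G.mm x - G.ch x) * t) +
        x * e * t * (2 * G.ep x * s - 1) := by
  have P := pf_eq hx hx1 h0 h8
  unfold lnR cin
  linear_combination -P - hc

theorem in_8' (hx : 0 < x) (hx1 : x ≤ 4 / 125) (h0 : 0 ≤ t) (h8 : t ≤ 8) (D e s : ℝ) {c : ℝ}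
    (hc : c = G.ch x + G.mm x * (t - 1)) :
    lnR x t (3 / 2 * t) (-(G.om t x / 2) - x * t * e) (-(2 * t * (x * e) * s)) D - c =
      (3 / 4 * G.ic x - G.ch x) + (1 - t) * (cin t x D - (3 / 4 * G.ic x - G.mm x)) +
        x * e * t * (2 * G.ep x * s - 1) := by
  have P := pf_eq hx hx1 h0 h8
  unfold lnR cin
  linear_combination -P - hc

/-- the common part, above; `c` is the coefficient of the gap -/
noncomputable def cou (c t x D : ℝ) : ℝ :=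
  (1 + x * G.et x) * (((1 - x * t) * D) * t⁻¹) / 2 + c / 2 * (1 + x * G.et x) -
    c / 2 * (G.et x * t⁻¹) + c / 2 * ((t - 1) * t⁻¹)

theorem ou_f (hx : 0 < x) (hx1 : x ≤ 4 / 125) (h0 : 0 < t) (h8 : t ≤ 8) (D : ℝ) :
    loR x t (t / 2) (-(G.om t x / 2)) 0 D = (t - 1) * (cou (1 / 2) t x D - opf.v t x) := by
  have O := opf_eq hx hx1 h0.le h8
  have E := et_mul hx hx1
  have T : t * t⁻¹ = 1 := mul_inv_cancel₀ h0.ne'
  unfold loR cou
  linear_combination (-(1 + x * G.et x) * (1 - x * t) * D / 2 + (t⁻¹ - t) / 4 +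
    G.et x * (t⁻¹ - 1) / 4) * T - 1 / 4 * E + O

theorem ou_n (hx : 0 < x) (hx1 : x ≤ 4 / 125) (h0 : 0 < t) (h8 : t ≤ 8) (D : ℝ) {c : ℝ}
    (hc : c = G.ch x + G.mm x * (t - 1)) :
    loR x t (t / 2) (-(G.om t x / 2)) (G.lb x * t / 2) D + G.mu x * c / 2 =
      (t - 1) * (cou (1 / 2) t x D - opf.v t x -
        (1 + x * G.et x) * G.lb x * (t⁻¹ - x) / 4 + G.mu x * G.mm x / 2) := by
  have O := opf_eq hx hx1 h0.le h8
  have E := et_mul hx hx1
  have KX := kx_mul hx hx1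
  have EL := ep_lb hx hx1
  have T : t * t⁻¹ = 1 := mul_inv_cancel₀ h0.ne'
  unfold loR cou
  linear_combination (-(1 + x * G.et x) * (1 - x * t) * D / 2 + (t⁻¹ - t) / 4 +
    G.et x * (t⁻¹ - 1) / 4 - (1 + x * G.et x) * G.lb x / 2 * (1 - t⁻¹ / 2 - x * t / 2) +
    (1 + x * G.et x) * G.lb x / 4) * T - 1 / 4 * E + O - G.lb x / 4 * KX - 1 / 2 * EL +
    G.mu x / 2 * hc

theorem ou_5 (hx : 0 < x) (hx1 : x ≤ 4 / 125) (h0 : 0 < t) (D : ℝ) {c : ℝ}
    (hc : c = G.ch x + G.mm x * (t - 1)) :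
    loR x t t 0 0 D - c = (3 / 4 * G.ic x - G.ch x) + (t - 1) * (cou 1 t x D - G.mm x) := by
  have E := et_mul hx hx1
  have T : t * t⁻¹ = 1 := mul_inv_cancel₀ h0.ne'
  unfold loR cou
  linear_combination (-(1 + x * G.et x) * (1 - x * t) * D / 2 + (t⁻¹ - t) / 2 +
    G.et x * (t⁻¹ - 1) / 2) * T - 1 / 2 * E - hc

theorem ou_8 (hx : 0 < x) (hx1 : x ≤ 4 / 125) (h0 : 0 < t) (h8 : t ≤ 8) (D e s : ℝ) {c : ℝ}
    (hc : c = G.ch x + G.mm x * (t - 1)) :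
    loR x t (3 / 2 * t) (-(G.om t x / 2) - x * t * e) (-(2 * t * (x * e) * s)) D - c =
      (3 / 4 * G.ic x - G.ch x) + (t - 1) * (cou (3 / 2) t x D - opf.v t x - G.mm x) +
        x * e * ((1 + x * G.et x) * s * (2 - t⁻¹ - x * t) - t) := by
  have O := opf_eq hx hx1 h0.le h8
  have E := et_mul hx hx1
  have T : t * t⁻¹ = 1 := mul_inv_cancel₀ h0.ne'
  unfold loR cou
  linear_combination (-(1 + x * G.et x) * (1 - x * t) * D / 2 + 3 / 4 * (t⁻¹ - t) +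
    3 / 4 * G.et x * (t⁻¹ - 1) + (1 + x * G.et x) * x * e * s * (2 - t⁻¹ - x * t)) * T -
    3 / 4 * E + O - hc

end

end Pool.Agent.Strip051.LC.E0.Ch
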