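import Pool.Agent.Strip051.LC.E0.Ch.Lr

/-! # Small rests: bounds of the functions of the lines -/

set_option linter.unusedVariables false
set_option linter.unusedSimpArgs false

namespace Pool.Agent.Strip051.LC.E0.Ch

open Pool.Agent.Strip051.PB BaseP

theorem tree_line {P1 W1 W3 : ℕ} {f : ℕ → ℕ → ℕ → ℕ → Bool} (T : Tree P1 W1 0 0 0 W3 f)
    {a b t x : ℝ} {C : Prop} (ha : a ≤ t) (hb : t ≤ b) (hx : 0 < x) (hx1 : x ≤ 4 / 125)
    (k1 : (P1 : ℝ) ≤ a * (S : ℕ)) (k2 : b * (S : ℕ) ≤ (P1 : ℝ) + W1)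
    (k3 : 4 / 125 * ((S : ℕ) : ℝ) ≤ W3)
    (hf : ∀ {E : Pt} {h A B X : ℕ}, Enc E A t → Enc E X x → f h A B X = true → C) : C := by
  refine tree_pt (p := t) (q := 0) (x := x) T (blo ha k1) (bhi hb k2) ?_ ?_ ?_ ?_
    fun hA _ hX h => hf hA hX h
  · simp
  · simp
  · simpa using hx.le
  · have := bhi (P := 0) (W := W3) hx1 (by simpa using k3)
    simpa using this

section

variable {t x : ℝ}

/-! ### Values -/

theorem xom_val (w x : ℝ) : xom.v w x = x * G.om w x := by simp only [xom, om_val]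

theorem kwui_val (h0 : 0 ≤ t) (h1 : t ≤ 1) : kwui.v t x = G.kwu t x := by
  have e : G.su t x = 92 / 125 + (G.pu x - 92 / 125) * t := by
    unfold G.su
    rw [cse_le (by linarith)]
  unfold G.kwu
  rw [e]
  simp only [kwui, k1p_val, pu_val, xiw_val, xi1_val]
  push_cast
  ring

theorem kwuo_val (h0 : 1 ≤ t) (h1 : t ≤ 2) : kwuo.v t x = G.kwu t x := by
  have e : G.su t x = G.pu x := by
    unfold G.su
    rcases eq_or_lt_of_le h0 with h | h
    · rw [cse_le (by linarith), ← h]; ring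
    · rw [cse_gt (by linarith), cse_le (by linarith)]
  unfold G.kwu
  rw [e]
  simp only [kwuo, k1p_val, pu_val, xiw_val, xi1_val]

theorem kwli_val (h0 : 0 ≤ t) (h1 : t ≤ 1) : kwli.v t x = G.kwl (-t) x := by
  have e : G.sl (-t) x = G.pl' x * t := by
    unfold G.sl
    rw [cse_le (by linarith)]
    ring
  unfold G.kwl
  rw [e]
  simp only [kwli, kwli_2, k3m_val, pl_val, xiw_val, xi3_val]

theorem kwlo_val (h0 : 1 ≤ t) (h1 : t ≤ 2) : kwlo.v t x = G.kwl (-t) x := by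
  have e : G.sl (-t) x = G.pl' x := by
    unfold G.sl
    rcases eq_or_lt_of_le h0 with h | h
    · rw [cse_le (by linarith), ← h]; ring
    · rw [cse_gt (by linarith), cse_le (by linarith)]
  unfold G.kwl
  rw [e]
  simp only [kwlo, kwlo_2, k3m_val, pl_val, xiw_val, xi3_val]

theorem dt_i (h1 : t ≤ 1) : G.dt t = t * (13 / 40 + 111 / 1000 * t) := by
  unfold G.dt
  rw [cse_le (by linarith)]

theorem dt_o (h0 : 1 ≤ t) (h1 : t ≤ 3 / 2) : G.dt t = 51 / 100 * t - 37 / 500 := by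
  unfold G.dt
  rcases eq_or_lt_of_le h0 with h | h
  · rw [cse_le (by linarith), ← h]; norm_num
  · rw [cse_gt (by linarith), cse_le (by linarith)]

theorem gh_i (h1 : t ≤ 1) : G.gh t = t := by
  unfold G.gh
  rw [cse_le (by linarith)]

theorem gh_o (h0 : 1 ≤ t) (h1 : t ≤ 4) : G.gh t = (4 - t) / 3 := by
  unfold G.gh
  rcases eq_or_lt_of_le h0 with h | h
  · rw [cse_le (by linarith), ← h]; norm_num
  · rw [cse_gt (by linarith), cse_le (by linarith)]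

theorem xw_i (h1 : t ≤ 1) :
    G.xw t x = t * (2 * G.ch x - G.mm x + (G.mm x - G.ch x) * t) := by
  unfold G.xw G.q1
  rw [cse_le (by linarith)]

theorem xw_o (h0 : 1 ≤ t) (h1 : t ≤ 3 / 2) : G.xw t x = G.ch x + G.mm x * (t - 1) := by
  unfold G.xw G.q1
  rcases eq_or_lt_of_le h0 with h | h
  · rw [cse_le (by linarith), ← h]; ring
  · rw [cse_gt (by linarith), cse_le (by linarith)]

theorem xa_xw (h1 : t ≤ 3 / 2) : G.xa t x = G.xw t x := by
  unfold G.xa G.xw G.cse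
  split_ifs <;> first | rfl | (exfalso; linarith)

/-! The distances. -/

/-- `|δ|` of the third sides of the two kinds -/
noncomputable def D1 (t x : ℝ) : ℝ := G.dt t + G.kwu t x
noncomputable def D3 (t x : ℝ) : ℝ := -G.dt t - G.kwl (-t) x
noncomputable def DN (t x D : ℝ) : ℝ :=
  (1 + x * G.lb x) * D + G.lb x * G.gh t * (G.pp2 x - G.mm x / G.ch x / 2)
noncomputable def D5 (t x : ℝ) : ℝ := -(2 * G.kwu t x) - 353 / 250 * (x * G.om t x)
noncomputable def D8 (s t x : ℝ) : ℝ := G.dt t - G.kwu t x - 2 * (x * G.om t x * s)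

theorem d1fi_val (h0 : 0 ≤ t) (h1 : t ≤ 1) : d1fi.v t x = D1 t x := by
  unfold D1
  rw [dt_i h1, ← kwui_val h0 h1]
  simp only [d1fi]
  push_cast
  ring

theorem d1fo_val (h0 : 1 ≤ t) (h1 : t ≤ 3 / 2) : d1fo.v t x = D1 t x := by
  unfold D1
  rw [dt_o h0 h1, ← kwuo_val h0 (by linarith)]
  simp only [d1fo]
  push_cast
  ring

theorem d3fi_val (h0 : 0 ≤ t) (h1 : t ≤ 1) : d3fi.v t x = D3 t x := by
  unfold D3
  rw [dt_i h1, ← kwli_val h0 h1]
  simp only [d3fi]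
  push_cast
  ring

theorem d3fo_val (h0 : 1 ≤ t) (h1 : t ≤ 3 / 2) : d3fo.v t x = D3 t x := by
  unfold D3
  rw [dt_o h0 h1, ← kwlo_val h0 (by linarith)]
  simp only [d3fo]
  push_cast
  ring

theorem adni_val (h1 : t ≤ 1) :
    adni.v t x = G.lb x * G.gh t * (G.pp2 x - G.mm x / G.ch x / 2) := by
  rw [gh_i h1]
  simp only [adni, lb_val, pp2_val, mm_val, ch_val, div_eq_mul_inv]

theorem adno_val (h0 : 1 ≤ t) (h1 : t ≤ 4) :
    adno.v t x = G.lb x * G.gh t * (G.pp2 x - G.mm x / G.ch x / 2) := by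
  rw [gh_o h0 h1]
  simp only [adno, lb_val, pp2_val, mm_val, ch_val, div_eq_mul_inv]
  push_cast
  ring

theorem d1ni_val (h0 : 0 ≤ t) (h1 : t ≤ 1) : d1ni.v t x = DN t x (D1 t x) := by
  unfold DN
  rw [← adni_val h1, ← d1fi_val h0 h1]
  simp only [d1ni, lb_val]
  push_cast
  ring

theorem d1no_val (h0 : 1 ≤ t) (h1 : t ≤ 3 / 2) : d1no.v t x = DN t x (D1 t x) := by
  unfold DN
  rw [← adno_val h0 (by linarith), ← d1fo_val h0 h1]
  simp only [d1no, lb_val]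
  push_cast
  ring

theorem d3ni_val (h0 : 0 ≤ t) (h1 : t ≤ 1) : d3ni.v t x = DN t x (D3 t x) := by
  unfold DN
  rw [← adni_val h1, ← d3fi_val h0 h1]
  simp only [d3ni, lb_val]
  push_cast
  ring

theorem d3no_val (h0 : 1 ≤ t) (h1 : t ≤ 3 / 2) : d3no.v t x = DN t x (D3 t x) := by
  unfold DN
  rw [← adno_val h0 (by linarith), ← d3fo_val h0 h1]
  simp only [d3no, lb_val]
  push_cast
  ring

theorem d5fi_val (h0 : 0 ≤ t) (h1 : t ≤ 1) : d5fi.v t x = D5 t x := by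
  unfold D5
  rw [← kwui_val h0 h1, ← xom_val]
  simp only [d5fi]
  push_cast
  ring

theorem d5fo_val (h0 : 1 ≤ t) (h1 : t ≤ 2) : d5fo.v t x = D5 t x := by
  unfold D5
  rw [← kwuo_val h0 h1, ← xom_val]
  simp only [d5fo]
  push_cast
  ring

theorem d8ai_val (h0 : 0 ≤ t) (h1 : t ≤ 1) : d8ai.v t x = D8 (353 / 500) t x := by
  unfold D8
  rw [dt_i h1, ← kwui_val h0 h1, ← xom_val]
  simp only [d8ai]
  push_cast
  ring

theorem d8ao_val (h0 : 1 ≤ t) (h1 : t ≤ 3 / 2) : d8ao.v t x = D8 (353 / 500) t x := by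
  unfold D8
  rw [dt_o h0 h1, ← kwuo_val h0 (by linarith), ← xom_val]
  simp only [d8ao]
  push_cast
  ring

theorem d8di_val (h0 : 0 ≤ t) (h1 : t ≤ 1) : d8di.v t x = D8 (G.saw 0 x) t x := by
  unfold D8
  rw [dt_i h1, ← kwui_val h0 h1, ← xom_val]
  simp only [d8di, saw_val]
  push_cast
  ring

theorem d8do_val (h0 : 1 ≤ t) (h1 : t ≤ 3 / 2) : d8do.v t x = D8 (G.saw 0 x) t x := by
  unfold D8
  rw [dt_o h0 h1, ← kwuo_val h0 (by linarith), ← xom_val]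
  simp only [d8do, saw_val]
  push_cast
  ring

theorem d8ui_val (h0 : 0 ≤ t) (h1 : t ≤ 1) : d8ui.v t x = D8 (G.sbc 0 x) t x := by
  unfold D8
  rw [dt_i h1, ← kwui_val h0 h1, ← xom_val]
  simp only [d8ui, sbc_val]
  push_cast
  ring

theorem d8uo_val (h0 : 1 ≤ t) (h1 : t ≤ 3 / 2) : d8uo.v t x = D8 (G.sbc 0 x) t x := by
  unfold D8
  rw [dt_o h0 h1, ← kwuo_val h0 (by linarith), ← xom_val]
  simp only [d8uo, sbc_val]
  push_cast
  ring

/-! The divided functions. -/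

theorem bi1f_val (t x : ℝ) : bi1f.v t x = cin t x (d1fi.v t x) := by
  simp only [bi1f, ei_val]; unfold cin; push_cast; ring

theorem bi3f_val (t x : ℝ) : bi3f.v t x = cin t x (d3fi.v t x) := by
  simp only [bi3f, ei_val]; unfold cin; push_cast; ring

theorem bi1n_val (t x : ℝ) :
    bi1n.v t x = cin t x (d1ni.v t x) - G.mu x * ((G.mm x - G.ch x) * t) / 2 := by
  simp only [bi1n, ei_val, mu_val, mm_val, ch_val]; unfold cin; push_cast; ring

theorem bi3n_val (t x : ℝ) :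
    bi3n.v t x = cin t x (d3ni.v t x) - G.mu x * ((G.mm x - G.ch x) * t) / 2 := by
  simp only [bi3n, ei_val, mu_val, mm_val, ch_val]; unfold cin; push_cast; ring

theorem bi5f_val (t x : ℝ) : bi5f.v t x =
    (G.mm x - G.ch x) * t - G.ep x / (1 - x) * ((1 - x * t) * d5fi.v t x) := by
  simp only [bi5f, ei_val, mm_val, ch_val]; push_cast; ring

theorem bi8a_val (t x : ℝ) : bi8a.v t x = cin t x (d8ai.v t x) + (G.mm x - G.ch x) * t := by
  simp only [bi8a, ei_val, mm_val, ch_val]; unfold cin; push_cast; ring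

theorem bi8d_val (t x : ℝ) : bi8d.v t x = cin t x (d8di.v t x) + (G.mm x - G.ch x) * t := by
  simp only [bi8d, ei_val, mm_val, ch_val]; unfold cin; push_cast; ring

theorem bi8u_val (t x : ℝ) : bi8u.v t x = cin t x (d8ui.v t x) + (G.mm x - G.ch x) * t := by
  simp only [bi8u, ei_val, mm_val, ch_val]; unfold cin; push_cast; ring

theorem bo1f_val (t x : ℝ) : bo1f.v t x = cou (1 / 2) t x (d1fo.v t x) - opf.v t x := by
  simp only [bo1f, bo1f_2, kx_val, et_val]; unfold cou; push_cast; ring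

theorem bo3f_val (t x : ℝ) : bo3f.v t x = cou (1 / 2) t x (d3fo.v t x) - opf.v t x := by
  simp only [bo3f, bo3f_2, kx_val, et_val]; unfold cou; push_cast; ring

theorem bo1n_val (t x : ℝ) : bo1n.v t x = cou (1 / 2) t x (d1no.v t x) - opf.v t x -
    (1 + x * G.et x) * G.lb x * (t⁻¹ - x) / 4 + G.mu x * G.mm x / 2 := by
  simp only [bo1n, bo1n_2, kx_val, et_val, lb_val, mu_val, mm_val]; unfold cou; push_cast; ring

theorem bo3n_val (t x : ℝ) : bo3n.v t x = cou (1 / 2) t x (d3no.v t x) - opf.v t x -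
    (1 + x * G.et x) * G.lb x * (t⁻¹ - x) / 4 + G.mu x * G.mm x / 2 := by
  simp only [bo3n, bo3n_2, kx_val, et_val, lb_val, mu_val, mm_val]; unfold cou; push_cast; ring

theorem bo5f_val (t x : ℝ) : bo5f.v t x = cou 1 t x (d5fo.v t x) - G.mm x := by
  simp only [bo5f, bo5f_2, kx_val, et_val, mm_val]; unfold cou; push_cast; ring

theorem bo8a_val (t x : ℝ) :
    bo8a.v t x = cou (3 / 2) t x (d8ao.v t x) - opf.v t x - G.mm x := by
  simp only [bo8a, bo8a_2, bo8a_15, kx_val, et_val, mm_val]; unfold cou; push_cast; ring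

theorem bo8d_val (t x : ℝ) :
    bo8d.v t x = cou (3 / 2) t x (d8do.v t x) - opf.v t x - G.mm x := by
  simp only [bo8d, bo8d_2, bo8d_15, kx_val, et_val, mm_val]; unfold cou; push_cast; ring

theorem bo8u_val (t x : ℝ) :
    bo8u.v t x = cou (3 / 2) t x (d8uo.v t x) - opf.v t x - G.mm x := by
  simp only [bo8u, bo8u_2, bo8u_15, kx_val, et_val, mm_val]; unfold cou; push_cast; ring

theorem ex8d_val (t x : ℝ) :
    ex8d.v t x = (1 + x * G.et x) * G.saw 0 x * (2 - t⁻¹ - x * t) - t := by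
  simp only [ex8d, kx_val, saw_val]; push_cast; ring

theorem ex8u_val (t x : ℝ) :
    ex8u.v t x = (1 + x * G.et x) * G.sbc 0 x * (2 - t⁻¹ - x * t) - t := by
  simp only [ex8u, kx_val, sbc_val]; push_cast; ring

theorem bw1f_val (t x : ℝ) : bw1f.v t x = 1 / 16 - cin t x (d1fo.v t x) := by
  simp only [bw1f, ei_val]; unfold cin; push_cast; ring

theorem bw3f_val (t x : ℝ) : bw3f.v t x = 1 / 16 - cin t x (d3fo.v t x) := by
  simp only [bw3f, ei_val]; unfold cin; push_cast; ring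

theorem bw1n_val (t x : ℝ) : bw1n.v t x =
    1 / 16 - (cin t x (d1no.v t x) - G.mu x * (G.mm x - G.ch x) / 2) := by
  simp only [bw1n, ei_val, mu_val, mm_val, ch_val]; unfold cin; push_cast; ring

theorem bw3n_val (t x : ℝ) : bw3n.v t x =
    1 / 16 - (cin t x (d3no.v t x) - G.mu x * (G.mm x - G.ch x) / 2) := by
  simp only [bw3n, ei_val, mu_val, mm_val, ch_val]; unfold cin; push_cast; ring

theorem bw8a_val (t x : ℝ) : bw8a.v t x =
    1 / 16 - (cin t x (d8ao.v t x) - (3 / 4 * G.ic x - G.mm x)) := by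
  simp only [bw8a, ei_val, ic_val, mm_val]; unfold cin; push_cast; ring

theorem bw8d_val (t x : ℝ) : bw8d.v t x =
    1 / 16 - (cin t x (d8do.v t x) - (3 / 4 * G.ic x - G.mm x)) := by
  simp only [bw8d, ei_val, ic_val, mm_val]; unfold cin; push_cast; ring

theorem vb5_val (n x t s : ℝ) : vb5.v n x t s =
    9 / 8 * (G.ic x ^ 2 * t) - n * bet (1059 / 1000) x + n ^ 2 * s := by
  simp only [vb5, vb5_5, ic_val, ep_val, gs_val]; unfold bet; push_cast; ring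

/-! ### At `t = 1` -/

theorem pf_1 (hx : 0 < x) (hx1 : x ≤ 4 / 125) : 3 / 8 * pf.v 1 x = G.ep x * G.pq x := by
  obtain ⟨g1, g2⟩ := gs_bd hx hx1
  have h2 := ic_gs hx hx1
  have h3 := ep_pq hx hx1
  have hg : G.gs x ≠ 0 := by linarith
  rw [pf_val, qw_1]
  have e1 : (G.gs x + 1 * G.gs x)⁻¹ = (G.gs x)⁻¹ / 2 := by
    rw [show G.gs x + 1 * G.gs x = 2 * G.gs x by ring, mul_inv]; ring
  have e2 : (1 + G.gs x)⁻¹ = G.ic x := by unfold G.ic; rw [one_div]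
  have e4 : G.ep x * G.pq x = 3 / 8 * G.ic x * (G.gs x)⁻¹ := by
    rw [← h3]
    field_simp
  have e5 : G.gs x * (G.gs x)⁻¹ = 1 := mul_inv_cancel₀ hg
  rw [e1, e2, e4]
  linear_combination 3 / 8 * G.ic x * (G.gs x)⁻¹ * h2 - 3 / 8 * G.ic x ^ 2 * e5

theorem opf_1 (hx : 0 < x) (hx1 : x ≤ 4 / 125) :
    opf.v 1 x = G.ep x * G.pq x + 3 / 8 * G.ic x := by
  obtain ⟨g1, g2⟩ := gs_bd hx hx1
  have h2 := ic_gs hx hx1
  have h3 := ep_pq hx hx1
  have hg : G.gs x ≠ 0 := by linarith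
  rw [opf_val, qw_1]
  have e1 : (G.gs x + 1 * G.gs x)⁻¹ = (G.gs x)⁻¹ / 2 := by
    rw [show G.gs x + 1 * G.gs x = 2 * G.gs x by ring, mul_inv]; ring
  have e2 : (1 + G.gs x)⁻¹ = G.ic x := by unfold G.ic; rw [one_div]
  have e4 : G.ep x * G.pq x = 3 / 8 * G.ic x * (G.gs x)⁻¹ := by
    rw [← h3]
    field_simp
  have e5 : G.gs x * (G.gs x)⁻¹ = 1 := mul_inv_cancel₀ hg
  rw [e1, e2, e4]
  linear_combination 3 / 8 * G.ic x * h2 + 3 / 8 * G.ic x * (G.gs x)⁻¹ * h2 -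
    3 / 8 * G.ic x ^ 2 * e5

theorem cin_1 (hx : 0 < x) (hx1 : x ≤ 4 / 125) (D : ℝ) :
    cin 1 x D = G.ep x * (G.pq x - D) := by
  have h1 : (1 - x) ≠ 0 := by linarith
  unfold cin
  rw [pf_1 hx hx1]
  field_simp

theorem cou_1 (hx : 0 < x) (hx1 : x ≤ 4 / 125) (c D : ℝ) :
    cou c 1 x D = G.ep x * D + 3 / 4 * c * G.ic x := by
  have h1 := kx_mul hx hx1
  have h2 := et_mul hx hx1
  unfold cou
  rw [inv_one]
  linear_combination D / 2 * h1 - c / 2 * h2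

theorem D1_1 (hx : 0 < x) (hx1 : x ≤ 4 / 125) : D1 1 x = G.pq x := by
  unfold D1
  rw [dt_1, kwu_1 hx hx1]
  ring

theorem D3_1 (hx : 0 < x) (hx1 : x ≤ 4 / 125) : D3 1 x = G.pq x := by
  unfold D3
  rw [dt_1, kwl_m1 hx hx1]
  ring

theorem DN_1 (hx : 0 < x) (hx1 : x ≤ 4 / 125) {D : ℝ} (h : D = G.pq x) :
    G.ep x * (G.pq x - DN 1 x D) = G.mu x * (G.mm x - G.ch x) / 2 := by
  obtain ⟨c1, c2⟩ := ch_bd hx hx1
  have EL := ep_lb hx hx1
  have hc : G.ch x * (G.mm x / G.ch x) = G.mm x := mul_div_cancel₀ _ (by linarith)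
  subst h
  unfold DN G.pp2
  rw [gh_1]
  linear_combination (G.mm x / G.ch x - 1) / 2 * EL + G.mu x / 2 * hc

theorem D5_1 (hx : 0 < x) (hx1 : x ≤ 4 / 125) :
    D5 1 x = 109 / 125 - 2 * G.pq x - 1059 / 1000 * (x * G.ic x) := by
  unfold D5
  rw [kwu_1 hx hx1, om_1]
  ring

theorem D8_1 (hx : 0 < x) (hx1 : x ≤ 4 / 125) (s : ℝ) :
    D8 s 1 x = 109 / 125 - G.pq x - 3 / 2 * s * (x * G.ic x) := by
  unfold D8
  rw [dt_1, kwu_1 hx hx1, om_1]
  ring

theorem bi1f_1 (hx : 0 < x) (hx1 : x ≤ 4 / 125) : bi1f.v 1 x = 0 := by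
  rw [bi1f_val, d1fi_val (by norm_num) le_rfl, cin_1 hx hx1, D1_1 hx hx1]; ring

theorem bi3f_1 (hx : 0 < x) (hx1 : x ≤ 4 / 125) : bi3f.v 1 x = 0 := by
  rw [bi3f_val, d3fi_val (by norm_num) le_rfl, cin_1 hx hx1, D3_1 hx hx1]; ring

theorem bi1n_1 (hx : 0 < x) (hx1 : x ≤ 4 / 125) : bi1n.v 1 x = 0 := by
  rw [bi1n_val, d1ni_val (by norm_num) le_rfl, cin_1 hx hx1, DN_1 hx hx1 (D1_1 hx hx1)]; ring

theorem bi3n_1 (hx : 0 < x) (hx1 : x ≤ 4 / 125) : bi3n.v 1 x = 0 := by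
  rw [bi3n_val, d3ni_val (by norm_num) le_rfl, cin_1 hx hx1, DN_1 hx hx1 (D3_1 hx hx1)]; ring

theorem bo1f_1 (hx : 0 < x) (hx1 : x ≤ 4 / 125) : bo1f.v 1 x = 0 := by
  rw [bo1f_val, d1fo_val le_rfl (by norm_num), cou_1 hx hx1, opf_1 hx hx1, D1_1 hx hx1]; ring

theorem bo3f_1 (hx : 0 < x) (hx1 : x ≤ 4 / 125) : bo3f.v 1 x = 0 := by
  rw [bo3f_val, d3fo_val le_rfl (by norm_num), cou_1 hx hx1, opf_1 hx hx1, D3_1 hx hx1]; ring

theorem bo1n_1 (hx : 0 < x) (hx1 : x ≤ 4 / 125) : bo1n.v 1 x = 0 := by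
  have h1 := DN_1 hx hx1 (D1_1 hx hx1)
  have h2 := kx_mul hx hx1
  have EL := ep_lb hx hx1
  rw [bo1n_val, d1no_val le_rfl (by norm_num), cou_1 hx hx1, opf_1 hx hx1, inv_one]
  linear_combination -h1 - G.lb x / 4 * h2 - 1 / 2 * EL

theorem bo3n_1 (hx : 0 < x) (hx1 : x ≤ 4 / 125) : bo3n.v 1 x = 0 := by
  have h1 := DN_1 hx hx1 (D3_1 hx hx1)
  have h2 := kx_mul hx hx1
  have EL := ep_lb hx hx1
  rw [bo3n_val, d3no_val le_rfl (by norm_num), cou_1 hx hx1, opf_1 hx hx1, inv_one]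
  linear_combination -h1 - G.lb x / 4 * h2 - 1 / 2 * EL

theorem bi5f_1 (hx : 0 < x) (hx1 : x ≤ 4 / 125) :
    bi5f.v 1 x = -(x * bet (1059 / 1000) x) := by
  have h1 : (1 - x) ≠ 0 := by linarith
  have h2 : G.ep x / (1 - x) * (1 - x * 1) = G.ep x := by field_simp
  rw [bi5f_val, d5fi_val (by norm_num) le_rfl, D5_1 hx hx1, ← bet_eq hx hx1]
  linear_combination -(109 / 125 - 2 * G.pq x - 1059 / 1000 * (x * G.ic x)) * h2

theorem bi8_1 (hx : 0 < x) (hx1 : x ≤ 4 / 125) (s : ℝ) :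
    cin 1 x (D8 s 1 x) + (G.mm x - G.ch x) * 1 = -(x * bet (3 / 2 * s) x) := by
  rw [cin_1 hx hx1, D8_1 hx hx1, ← bet_eq hx hx1]
  ring

theorem bo5f_1 (hx : 0 < x) (hx1 : x ≤ 4 / 125) :
    bo5f.v 1 x = 3 / 4 * G.ic x - G.ch x + x * bet (1059 / 1000) x := by
  rw [bo5f_val, d5fo_val le_rfl (by norm_num), cou_1 hx hx1, D5_1 hx hx1]
  linear_combination -bet_eq hx hx1 (1059 / 1000)

theorem bo8_1 (hx : 0 < x) (hx1 : x ≤ 4 / 125) (s : ℝ) :
    cou (3 / 2) 1 x (D8 s 1 x) - opf.v 1 x - G.mm x =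
      3 / 4 * G.ic x - G.ch x + x * bet (3 / 2 * s) x := by
  rw [cou_1 hx hx1, opf_1 hx hx1, D8_1 hx hx1]
  linear_combination -bet_eq hx hx1 (3 / 2 * s)

end

end Pool.Agent.Strip051.LC.E0.Ch
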