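import Pool.Agent.Strip051.LC.E0.Ch.Ls

/-! # Small rests: what is known at the lines -/

set_option linter.unusedVariables false
set_option linter.unusedSimpArgs false

namespace Pool.Agent.Strip051.LC.E0.Ch

open Pool.Agent.Strip051.PB BaseP

section

variable {t x : ℝ}

/-! ### The signs -/

theorem m1f_i (hx : 0 < x) (hx1 : x ≤ 4 / 125) (h0 : 3 / 5 ≤ t) (h1 : t ≤ 1) :
    0 ≤ cin t x (D1 t x) := by
  rw [← d1fi_val (by linarith) h1, ← bi1f_val]
  exact tree_line y_bi1f h0 h1 hx hx1 (by unfold S; norm_num) (by unfold S; norm_num)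
    (by unfold S; norm_num) fun hA hX h => tI_sound hA hX h1 (bi1f_1 hx hx1).ge h

theorem m3f_i (hx : 0 < x) (hx1 : x ≤ 4 / 125) (h0 : 3 / 5 ≤ t) (h1 : t ≤ 1) :
    0 ≤ cin t x (D3 t x) := by
  rw [← d3fi_val (by linarith) h1, ← bi3f_val]
  exact tree_line y_bi3f h0 h1 hx hx1 (by unfold S; norm_num) (by unfold S; norm_num)
    (by unfold S; norm_num) fun hA hX h => tI_sound hA hX h1 (bi3f_1 hx hx1).ge h

theorem m1n_i (hx : 0 < x) (hx1 : x ≤ 4 / 125) (h0 : 3 / 5 ≤ t) (h1 : t ≤ 1) :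
    0 ≤ cin t x (DN t x (D1 t x)) - G.mu x * ((G.mm x - G.ch x) * t) / 2 := by
  rw [← d1ni_val (by linarith) h1, ← bi1n_val]
  exact tree_line y_bi1n h0 h1 hx hx1 (by unfold S; norm_num) (by unfold S; norm_num)
    (by unfold S; norm_num) fun hA hX h => tI_sound hA hX h1 (bi1n_1 hx hx1).ge h

theorem m3n_i (hx : 0 < x) (hx1 : x ≤ 4 / 125) (h0 : 3 / 5 ≤ t) (h1 : t ≤ 1) :
    0 ≤ cin t x (DN t x (D3 t x)) - G.mu x * ((G.mm x - G.ch x) * t) / 2 := by
  rw [← d3ni_val (by linarith) h1, ← bi3n_val]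
  exact tree_line y_bi3n h0 h1 hx hx1 (by unfold S; norm_num) (by unfold S; norm_num)
    (by unfold S; norm_num) fun hA hX h => tI_sound hA hX h1 (bi3n_1 hx hx1).ge h

theorem m1f_w (hx : 0 < x) (hx1 : x ≤ 4 / 125) (h0 : 1 ≤ t) (h1 : t ≤ 251 / 250) :
    cin t x (D1 t x) ≤ 1 / 16 := by
  have := tree_line (C := 0 ≤ bw1f.v t x) y_bw1f h0 h1 hx hx1 (by unfold S; norm_num)
    (by unfold S; norm_num) (by unfold S; norm_num) fun hA hX h => tD_sound hA hX h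
  rw [bw1f_val, d1fo_val h0 (by linarith)] at this
  linarith

theorem m3f_w (hx : 0 < x) (hx1 : x ≤ 4 / 125) (h0 : 1 ≤ t) (h1 : t ≤ 251 / 250) :
    cin t x (D3 t x) ≤ 1 / 16 := by
  have := tree_line (C := 0 ≤ bw3f.v t x) y_bw3f h0 h1 hx hx1 (by unfold S; norm_num)
    (by unfold S; norm_num) (by unfold S; norm_num) fun hA hX h => tD_sound hA hX h
  rw [bw3f_val, d3fo_val h0 (by linarith)] at this
  linarith

theorem m1n_w (hx : 0 < x) (hx1 : x ≤ 4 / 125) (h0 : 1 ≤ t) (h1 : t ≤ 251 / 250) :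
    cin t x (DN t x (D1 t x)) - G.mu x * (G.mm x - G.ch x) / 2 ≤ 1 / 16 := by
  have := tree_line (C := 0 ≤ bw1n.v t x) y_bw1n h0 h1 hx hx1 (by unfold S; norm_num)
    (by unfold S; norm_num) (by unfold S; norm_num) fun hA hX h => tD_sound hA hX h
  rw [bw1n_val, d1no_val h0 (by linarith)] at this
  linarith

theorem m3n_w (hx : 0 < x) (hx1 : x ≤ 4 / 125) (h0 : 1 ≤ t) (h1 : t ≤ 251 / 250) :
    cin t x (DN t x (D3 t x)) - G.mu x * (G.mm x - G.ch x) / 2 ≤ 1 / 16 := by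
  have := tree_line (C := 0 ≤ bw3n.v t x) y_bw3n h0 h1 hx hx1 (by unfold S; norm_num)
    (by unfold S; norm_num) (by unfold S; norm_num) fun hA hX h => tD_sound hA hX h
  rw [bw3n_val, d3no_val h0 (by linarith)] at this
  linarith

theorem m8a_w (hx : 0 < x) (hx1 : x ≤ 4 / 125) (h0 : 1 ≤ t) (h1 : t ≤ 251 / 250) :
    cin t x (D8 (353 / 500) t x) - (3 / 4 * G.ic x - G.mm x) ≤ 1 / 16 := by
  have := tree_line (C := 0 ≤ bw8a.v t x) y_bw8a h0 h1 hx hx1 (by unfold S; norm_num)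
    (by unfold S; norm_num) (by unfold S; norm_num) fun hA hX h => tD_sound hA hX h
  rw [bw8a_val, d8ao_val h0 (by linarith)] at this
  linarith

theorem m8d_w (hx : 0 < x) (hx1 : x ≤ 4 / 125) (h0 : 1 ≤ t) (h1 : t ≤ 251 / 250) :
    cin t x (D8 (G.saw 0 x) t x) - (3 / 4 * G.ic x - G.mm x) ≤ 1 / 16 := by
  have := tree_line (C := 0 ≤ bw8d.v t x) y_bw8d h0 h1 hx hx1 (by unfold S; norm_num)
    (by unfold S; norm_num) (by unfold S; norm_num) fun hA hX h => tD_sound hA hX h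
  rw [bw8d_val, d8do_val h0 (by linarith)] at this
  linarith

theorem m1f_o (hx : 0 < x) (hx1 : x ≤ 4 / 125) (h0 : 1 ≤ t) (h1 : t ≤ 11 / 10) :
    0 ≤ cou (1 / 2) t x (D1 t x) - opf.v t x := by
  rw [← d1fo_val h0 (by linarith), ← bo1f_val, ← bo1f_1 hx hx1]
  exact tree_line y_bo1f h0 h1 hx hx1 (by unfold S; norm_num) (by unfold S; norm_num)
    (by unfold S; norm_num) fun hA hX h => tO_sound hA hX h0 h

theorem m3f_o (hx : 0 < x) (hx1 : x ≤ 4 / 125) (h0 : 1 ≤ t) (h1 : t ≤ 11 / 10) :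
    0 ≤ cou (1 / 2) t x (D3 t x) - opf.v t x := by
  rw [← d3fo_val h0 (by linarith), ← bo3f_val, ← bo3f_1 hx hx1]
  exact tree_line y_bo3f h0 h1 hx hx1 (by unfold S; norm_num) (by unfold S; norm_num)
    (by unfold S; norm_num) fun hA hX h => tO_sound hA hX h0 h

theorem m1n_o (hx : 0 < x) (hx1 : x ≤ 4 / 125) (h0 : 1 ≤ t) (h1 : t ≤ 11 / 10) :
    0 ≤ cou (1 / 2) t x (DN t x (D1 t x)) - opf.v t x -
      (1 + x * G.et x) * G.lb x * (t⁻¹ - x) / 4 + G.mu x * G.mm x / 2 := by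
  rw [← d1no_val h0 (by linarith), ← bo1n_val, ← bo1n_1 hx hx1]
  exact tree_line y_bo1n h0 h1 hx hx1 (by unfold S; norm_num) (by unfold S; norm_num)
    (by unfold S; norm_num) fun hA hX h => tO_sound hA hX h0 h

theorem m3n_o (hx : 0 < x) (hx1 : x ≤ 4 / 125) (h0 : 1 ≤ t) (h1 : t ≤ 11 / 10) :
    0 ≤ cou (1 / 2) t x (DN t x (D3 t x)) - opf.v t x -
      (1 + x * G.et x) * G.lb x * (t⁻¹ - x) / 4 + G.mu x * G.mm x / 2 := by
  rw [← d3no_val h0 (by linarith), ← bo3n_val, ← bo3n_1 hx hx1]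
  exact tree_line y_bo3n h0 h1 hx hx1 (by unfold S; norm_num) (by unfold S; norm_num)
    (by unfold S; norm_num) fun hA hX h => tO_sound hA hX h0 h

/-! ### The types 5 and 8 -/

theorem bet_a (hx : 0 < x) (hx1 : x ≤ 4 / 125) :
    0 ≤ bet (1059 / 1000) x ∧ bet (1059 / 1000) x ≤ 2 / 15 := by
  obtain ⟨g1, g2⟩ := gs_bd hx hx1
  obtain ⟨i1, i2⟩ := ic_bd hx hx1
  have hxi : 0 ≤ x * G.ic x := by positivity
  have hxi2 : x * G.ic x ≤ 4 / 125 * (5002 / 10000) := mul_le_mul hx1 i2 (by linarith) (by norm_num)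
  have hv : 0 ≤ (G.gs x)⁻¹ := inv_nonneg.mpr (by linarith)
  have hv2 : (G.gs x)⁻¹ ≤ 1001 / 1000 := by
    rw [inv_le_comm₀ (by linarith) (by norm_num)]
    linarith
  have hxv : x * (G.gs x)⁻¹ ≤ 4 / 125 * (1001 / 1000) := mul_le_mul hx1 hv2 hv (by norm_num)
  have hxv0 : 0 ≤ x * (G.gs x)⁻¹ := by positivity
  have hi2 : G.ic x ^ 2 ≤ (5002 / 10000) ^ 2 := by
    apply pow_le_pow_left₀ (by linarith) i2
  have he : G.ep x = 1 / 2 - 3 / 4 * (x * G.ic x) := by unfold G.ep; ring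
  unfold bet
  rw [he]
  have e1 : 0 ≤ G.ic x ^ 2 * (x * (G.gs x)⁻¹) := by positivity
  have e2 : G.ic x ^ 2 * (x * (G.gs x)⁻¹) ≤ (5002 / 10000) ^ 2 * (4 / 125 * (1001 / 1000)) :=
    mul_le_mul hi2 hxv hxv0 (by norm_num)
  constructor
  · have : 0 ≤ G.ic x * (3 / 4 - 1059 / 1000 * (1 / 2 - 3 / 4 * (x * G.ic x))) :=
      mul_nonneg (by linarith) (by linarith)
    nlinarith
  · have : G.ic x * (3 / 4 - 1059 / 1000 * (1 / 2 - 3 / 4 * (x * G.ic x))) ≤
        5002 / 10000 * (3 / 4 - 1059 / 1000 * (1 / 2 - 3 / 4 * (4 / 125 * (5002 / 10000)))) :=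
      mul_le_mul i2 (by linarith) (by linarith) (by norm_num)
    nlinarith

theorem c0_nn (hx : 0 < x) (hx1 : x ≤ 4 / 125) : 0 ≤ 3 / 4 * G.ic x - G.ch x := by
  rw [c0_eq hx hx1]
  positivity

/-- from the values and the two charts of the function -/
theorem quad_i {F : Fn2} {SF : Sl_vc F} (hx : 0 < x) (hx1 : x ≤ 4 / 125) (h0 : 3 / 5 ≤ t)
    (h1 : t ≤ 1) (b1 : F.v 1 x = -(x * bet (1059 / 1000) x))
    (Q : Tree 644245094 429496730 0 0 0 34359739 (tQ SF))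
    (B : Tree 0 8589934592 0 0 0 34359739 (tB SF)) :
    0 ≤ (3 / 4 * G.ic x - G.ch x) * t + (1 - t) * F.v t x := by
  obtain ⟨be1, be2⟩ := bet_a hx hx1
  have hc := c0_nn hx hx1
  rcases lt_or_ge (8 * x) (1 - t) with h | h
  · have := tree_line (C := 0 ≤ F.v t x ∨ F.v 1 x + (1 - t) / 60 ≤ F.v t x) Q h0 h1 hx hx1
      (by unfold S; norm_num) (by unfold S; norm_num) (by unfold S; norm_num)
      fun hA hX e => tQ_sound hA hX h1 h e
    have hF : 0 ≤ F.v t x := by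
      rcases this with e | e
      · exact e
      · have : x * bet (1059 / 1000) x ≤ x * (2 / 15) := mul_le_mul_of_nonneg_left be2 hx.le
        rw [b1] at e
        linarith
    have : 0 ≤ (3 / 4 * G.ic x - G.ch x) * t := mul_nonneg hc (by linarith)
    have : 0 ≤ (1 - t) * F.v t x := mul_nonneg (by linarith) hF
    linarith
  · have hn0 : 0 ≤ (1 - t) / x := div_nonneg (by linarith) hx.le
    have hn1 : (1 - t) / x ≤ 8 := by rw [div_le_iff₀ hx]; linarith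
    have ht : t = 1 - (1 - t) / x * x := by field_simp; ring
    have := tree_line (C := ∃ s, F.v t x - F.v 1 x = (1 - t) * s ∧
        0 ≤ vb5.v ((1 - t) / x) x t s) B hn0 hn1 hx hx1
      (by unfold S; norm_num) (by unfold S; norm_num) (by unfold S; norm_num)
      fun hA hX e => tB_sound hA hX ht e
    obtain ⟨s, e1, e2⟩ := this
    set n := (1 - t) / x with hnd
    have hnx : 1 - t = n * x := by rw [hnd]; field_simp
    rw [vb5_val] at e2
    rw [b1] at e1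
    have e3 : F.v t x = -(x * bet (1059 / 1000) x) + (1 - t) * s := by linarith
    rw [e3, c0_eq hx hx1, hnx]
    have := mul_nonneg (sq_nonneg x) e2
    nlinarith

theorem m5_i (hx : 0 < x) (hx1 : x ≤ 4 / 125) (h0 : 3 / 5 ≤ t) (h1 : t ≤ 1) :
    0 ≤ (3 / 4 * G.ic x - G.ch x) * t + (1 - t) * ((G.mm x - G.ch x) * t -
      G.ep x / (1 - x) * ((1 - x * t) * D5 t x)) := by
  rw [← d5fi_val (by linarith) h1, ← bi5f_val]
  exact quad_i hx hx1 h0 h1 (bi5f_1 hx hx1) y_bi5f y_bi5fB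

theorem m8a_i (hx : 0 < x) (hx1 : x ≤ 4 / 125) (h0 : 3 / 5 ≤ t) (h1 : t ≤ 1) :
    0 ≤ (3 / 4 * G.ic x - G.ch x) * t +
      (1 - t) * (cin t x (D8 (353 / 500) t x) + (G.mm x - G.ch x) * t) := by
  rw [← d8ai_val (by linarith) h1, ← bi8a_val]
  refine quad_i hx hx1 h0 h1 ?_ y_bi8a y_bi8aB
  rw [bi8a_val, d8ai_val (by norm_num) le_rfl, bi8_1 hx hx1]
  norm_num

theorem m5_o (hx : 0 < x) (hx1 : x ≤ 4 / 125) (h0 : 1 ≤ t) (h1 : t ≤ 11 / 10) :
    0 ≤ (3 / 4 * G.ic x - G.ch x) + (t - 1) * (cou 1 t x (D5 t x) - G.mm x) := by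
  have := tree_line (C := bo5f.v 1 x ≤ bo5f.v t x) y_bo5f h0 h1 hx hx1 (by unfold S; norm_num)
    (by unfold S; norm_num) (by unfold S; norm_num) fun hA hX h => tO_sound hA hX h0 h
  obtain ⟨be1, be2⟩ := bet_a hx hx1
  have hc := c0_nn hx hx1
  rw [bo5f_1 hx hx1, bo5f_val, d5fo_val h0 (by linarith)] at this
  have h2 : 0 ≤ x * bet (1059 / 1000) x := by positivity
  have : 0 ≤ (t - 1) * (cou 1 t x (D5 t x) - G.mm x) := mul_nonneg (by linarith) (by linarith)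
  linarith

theorem m8a_o (hx : 0 < x) (hx1 : x ≤ 4 / 125) (h0 : 1 ≤ t) (h1 : t ≤ 11 / 10) :
    0 ≤ (3 / 4 * G.ic x - G.ch x) +
      (t - 1) * (cou (3 / 2) t x (D8 (353 / 500) t x) - opf.v t x - G.mm x) := by
  have := tree_line (C := bo8a.v 1 x ≤ bo8a.v t x) y_bo8a h0 h1 hx hx1 (by unfold S; norm_num)
    (by unfold S; norm_num) (by unfold S; norm_num) fun hA hX h => tO_sound hA hX h0 h
  obtain ⟨be1, be2⟩ := bet_a hx hx1
  have hc := c0_nn hx hx1
  rw [bo8a_val, d8ao_val le_rfl (by norm_num), bo8_1 hx hx1, bo8a_val,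
    d8ao_val h0 (by linarith)] at this
  rw [show (3 / 2 * (353 / 500) : ℝ) = 1059 / 1000 by norm_num] at this
  have h2 : 0 ≤ x * bet (1059 / 1000) x := by positivity
  have : 0 ≤ (t - 1) * (cou (3 / 2) t x (D8 (353 / 500) t x) - opf.v t x - G.mm x) :=
    mul_nonneg (by linarith) (by linarith)
  linarith

/-! The types with a slope `s` -/

theorem saw_0 (x : ℝ) : G.saw 0 x = 1147 / 1000 := by
  unfold G.saw G.dwl
  rw [kwl_0, k1m_0, xiw_0, xi1_0]
  norm_num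

theorem sbc_0 (x : ℝ) : G.sbc 0 x = 8941 / 8500 := by
  unfold G.sbc G.dwu
  rw [kwu_0, k3p_0, xiw_0, xi3_0]
  norm_num

theorem bet_s (hx : 0 < x) (hx1 : x ≤ 4 / 125) {s : ℝ} (h1 : 8941 / 8500 ≤ s)
    (h2 : s ≤ 1147 / 1000) : 0 ≤ -bet (3 / 2 * s) x ∧ -bet (3 / 2 * s) x ≤ (s - 1) / 2 := by
  obtain ⟨g1, g2⟩ := gs_bd hx hx1
  obtain ⟨i1, i2⟩ := ic_bd hx hx1
  have hxi : 0 ≤ x * G.ic x := by positivity
  have hxi2 : x * G.ic x ≤ 4 / 125 * (5002 / 10000) := mul_le_mul hx1 i2 (by linarith) (by norm_num)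
  have hv : 0 ≤ (G.gs x)⁻¹ := inv_nonneg.mpr (by linarith)
  have hv2 : (G.gs x)⁻¹ ≤ 1001 / 1000 := by
    rw [inv_le_comm₀ (by linarith) (by norm_num)]
    linarith
  have e : -bet (3 / 2 * s) x = G.ic x * (3 / 4 * (s - 1) - 9 / 8 * (x * G.ic x) *
      (s + (G.gs x)⁻¹)) := by
    unfold bet G.ep
    ring
  rw [e]
  have h3 : 0 ≤ x * G.ic x * (s + (G.gs x)⁻¹) := mul_nonneg hxi (by linarith)
  have h4 : x * G.ic x * (s + (G.gs x)⁻¹) ≤ 4 / 125 * (5002 / 10000) * (s + 1001 / 1000) :=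
    mul_le_mul hxi2 (by linarith) (by linarith) (by norm_num)
  constructor
  · apply mul_nonneg (by linarith)
    linarith
  · have : G.ic x * (3 / 4 * (s - 1) - 9 / 8 * (x * G.ic x) * (s + (G.gs x)⁻¹)) ≤
        G.ic x * (3 / 4 * (s - 1)) := mul_le_mul_of_nonneg_left (by linarith) (by linarith)
    nlinarith

theorem ep2 (hx : 0 < x) (hx1 : x ≤ 4 / 125) {s : ℝ} (h1 : 8941 / 8500 ≤ s) :
    0 ≤ 2 * G.ep x * s - 1 := by
  obtain ⟨i1, i2⟩ := ic_bd hx hx1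
  have hxi2 : x * G.ic x ≤ 4 / 125 * (5002 / 10000) := mul_le_mul hx1 i2 (by linarith) (by norm_num)
  have he : G.ep x = 1 / 2 - 3 / 4 * (x * G.ic x) := by unfold G.ep; ring
  have : 97 / 100 ≤ 2 * G.ep x := by rw [he]; linarith
  nlinarith

theorem om_ge (hx : 0 < x) (hx1 : x ≤ 4 / 125) (h0 : 1 ≤ t) (h1 : t ≤ 8) :
    3 / 8 ≤ G.om t x := by
  have hq := qw_ge hx hx1 (by linarith) h1
  have hq1 : G.qw t x ≤ 1 := by
    unfold G.qw
    rw [Real.sqrt_le_one]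
    have : 0 ≤ 3 / 4 * x ^ 2 * t ^ 2 := by positivity
    linarith
  unfold G.om
  rw [le_div_iff₀ (by linarith)]
  nlinarith

theorem m8d_i (hx : 0 < x) (hx1 : x ≤ 4 / 125) (h0 : 3 / 5 ≤ t) (h1 : t ≤ 1) :
    0 ≤ cin t x (D8 (G.saw 0 x) t x) + (G.mm x - G.ch x) * t := by
  rw [← d8di_val (by linarith) h1, ← bi8d_val]
  refine tree_line y_bi8d h0 h1 hx hx1 (by unfold S; norm_num) (by unfold S; norm_num)
    (by unfold S; norm_num) fun hA hX h => tI_sound hA hX h1 ?_ h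
  rw [bi8d_val, d8di_val (by norm_num) le_rfl, bi8_1 hx hx1, ← mul_neg]
  exact mul_nonneg hx.le (bet_s hx hx1 (by rw [saw_0]; norm_num) (by rw [saw_0])).1

theorem m8u_i (hx : 0 < x) (hx1 : x ≤ 4 / 125) (h0 : 3 / 5 ≤ t) (h1 : t ≤ 1) :
    0 ≤ cin t x (D8 (G.sbc 0 x) t x) + (G.mm x - G.ch x) * t := by
  rw [← d8ui_val (by linarith) h1, ← bi8u_val]
  refine tree_line y_bi8u h0 h1 hx hx1 (by unfold S; norm_num) (by unfold S; norm_num)
    (by unfold S; norm_num) fun hA hX h => tI_sound hA hX h1 ?_ h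
  rw [bi8u_val, d8ui_val (by norm_num) le_rfl, bi8_1 hx hx1, ← mul_neg]
  exact mul_nonneg hx.le (bet_s hx hx1 (by rw [sbc_0]) (by rw [sbc_0]; norm_num)).1

theorem out_s (hx : 0 < x) (hx1 : x ≤ 4 / 125) (h0 : 1 ≤ t) (h1 : t ≤ 11 / 10) {s b q : ℝ}
    (s1 : 8941 / 8500 ≤ s) (s2 : s ≤ 1147 / 1000)
    (hb : 3 / 4 * G.ic x - G.ch x + x * bet (3 / 2 * s) x ≤ b)
    (hq : (s - 1) * 2 / 15 ≤ q) :
    0 ≤ (3 / 4 * G.ic x - G.ch x) + (t - 1) * b + x * G.om t x * q := by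
  obtain ⟨be1, be2⟩ := bet_s hx hx1 s1 s2
  have hc := c0_nn hx hx1
  have ho := om_ge hx hx1 h0 (by linarith)
  have h3 : -(x * ((s - 1) / 2)) ≤ x * bet (3 / 2 * s) x := by
    have := mul_le_mul_of_nonneg_left be2 hx.le
    linarith
  have h4 : (t - 1) * -(x * ((s - 1) / 2)) ≤ (t - 1) * b :=
    mul_le_mul_of_nonneg_left (by linarith) (by linarith)
  have h6 : x * (3 / 8) * ((s - 1) * 2 / 15) ≤ x * G.om t x * q :=
    mul_le_mul (mul_le_mul_of_nonneg_left ho hx.le) hq (by linarith)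
      (mul_nonneg hx.le (by linarith))
  have h7 : (t - 1) * (x * ((s - 1) / 2)) ≤ 1 / 10 * (x * ((s - 1) / 2)) :=
    mul_le_mul_of_nonneg_right (by linarith) (mul_nonneg hx.le (by linarith))
  linarith

theorem m8d_o (hx : 0 < x) (hx1 : x ≤ 4 / 125) (h0 : 1 ≤ t) (h1 : t ≤ 11 / 10) :
    0 ≤ (3 / 4 * G.ic x - G.ch x) +
      (t - 1) * (cou (3 / 2) t x (D8 (G.saw 0 x) t x) - opf.v t x - G.mm x) +
      x * G.om t x * ((1 + x * G.et x) * G.saw 0 x * (2 - t⁻¹ - x * t) - t) := by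
  have h2 := tree_line (C := bo8d.v 1 x ≤ bo8d.v t x) y_bo8d h0 h1 hx hx1
    (by unfold S; norm_num) (by unfold S; norm_num) (by unfold S; norm_num)
    fun hA hX h => tO_sound hA hX h0 h
  have h3 := tree_line (C := 1 / ((20 : ℕ) : ℝ) ≤ ex8d.v t x) y_ex8d h0 h1 hx hx1
    (by unfold S; norm_num) (by unfold S; norm_num) (by unfold S; norm_num)
    fun hA hX h => tE_sound hA hX h
  rw [bo8d_val, d8do_val le_rfl (by norm_num), bo8_1 hx hx1, bo8d_val,
    d8do_val h0 (by linarith)] at h2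
  rw [ex8d_val] at h3
  refine out_s hx hx1 h0 h1 (s := G.saw 0 x) (by rw [saw_0]; norm_num) (by rw [saw_0]) h2 ?_
  push_cast at h3
  refine le_trans ?_ h3
  rw [saw_0]
  norm_num

theorem m8u_o (hx : 0 < x) (hx1 : x ≤ 4 / 125) (h0 : 1 ≤ t) (h1 : t ≤ 11 / 10) :
    0 ≤ (3 / 4 * G.ic x - G.ch x) +
      (t - 1) * (cou (3 / 2) t x (D8 (G.sbc 0 x) t x) - opf.v t x - G.mm x) +
      x * G.om t x * ((1 + x * G.et x) * G.sbc 0 x * (2 - t⁻¹ - x * t) - t) := by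
  have h2 := tree_line (C := bo8u.v 1 x ≤ bo8u.v t x) y_bo8u h0 h1 hx hx1
    (by unfold S; norm_num) (by unfold S; norm_num) (by unfold S; norm_num)
    fun hA hX h => tO_sound hA hX h0 h
  have h3 := tree_line (C := 1 / ((100 : ℕ) : ℝ) ≤ ex8u.v t x) y_ex8u h0 h1 hx hx1
    (by unfold S; norm_num) (by unfold S; norm_num) (by unfold S; norm_num)
    fun hA hX h => tE_sound hA hX h
  rw [bo8u_val, d8uo_val le_rfl (by norm_num), bo8_1 hx hx1, bo8u_val,
    d8uo_val h0 (by linarith)] at h2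
  rw [ex8u_val] at h3
  refine out_s hx hx1 h0 h1 (s := G.sbc 0 x) (by rw [sbc_0]) (by rw [sbc_0]; norm_num) h2 ?_
  push_cast at h3
  refine le_trans ?_ h3
  rw [sbc_0]
  norm_num

end

/-! ### The point of a line -/

/-- The values at the point of a line. -/
structure LnP (R : RowF) (fa : Bool) (t w z x g bs gm D : ℝ) : Prop where
  l : R.L w z = t
  a : R.A w z = bif fa then t else 0
  b : R.B w z = bif fa then 0 else t
  g : R.G w z = g
  bs : R.BS w z x = bs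
  gm : R.GM w z x = gm
  dl : R.DL w z x = bif fa then -D else D

section

variable {R : RowF} {fa wd m8 : Bool} {t w z x g bs gm D : ℝ}

theorem LnP.ds (P : LnP R fa t w z x g bs gm D) :
    R.DS w z x = (bif fa then -D else D) * (1 - x * t) := by
  unfold RowF.DS
  rw [dsf_val, shf_val, P.l, P.dl]

theorem LnP.ln (P : LnP R fa t w z x g bs gm D) :
    lnf.v x (R.L w z) (R.BN w z x) (sgd fa (R.DS w z x)) = lnR x t g bs gm D := by
  have hs : sgd fa (R.DS w z x) = D * (1 - x * t) := by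
    rw [P.ds]
    cases fa
    · rfl
    · show -(-D * (1 - x * t)) = _
      ring
  unfold RowF.BN lnR
  rw [lnf_val, hs, bnf_val, P.l, P.g, P.bs, P.gm]

theorem LnP.lo (P : LnP R fa t w z x g bs gm D) (ht : t ≠ 0) :
    lof.v x (R.L w z) (R.G w z) (R.BR w z x) = loR x t g bs gm D := by
  have T : t * t⁻¹ = 1 := mul_inv_cancel₀ ht
  unfold RowF.BR loR
  rw [lof_val, brf_val, P.ds, P.l, P.g, P.bs, P.gm, P.a, P.b]
  cases fa
  · simp only [cond_false]
    linear_combination (1 + x * G.et x) * (D * (1 - x * t)) * (1 - t⁻¹) / 2 * T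
  · simp only [cond_true]
    linear_combination (1 + x * G.et x) * (D * (1 - x * t)) * (1 - t⁻¹) / 2 * T

theorem lnB_f (hx : 0 < x) (hx1 : x ≤ 4 / 125)
    (P : LnP R fa t w z x (t / 2) (-(G.om t x / 2)) 0 D)
    (V : t ≤ 3 / 2 → R.V1 w z x = 0 ∧ R.V2 w z x = 0)
    (hi : 3 / 5 ≤ t → t ≤ 1 → 0 ≤ cin t x D)
    (hw : 1 ≤ t → t ≤ 251 / 250 → cin t x D ≤ 1 / 16)
    (ho : 1 ≤ t → t ≤ 11 / 10 → 0 ≤ cou (1 / 2) t x D - opf.v t x) :
    LnB R fa wd m8 t w z x := by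
  have I : 3 / 5 ≤ t → t ≤ 1 → 0 ≤ lnR x t (t / 2) (-(G.om t x / 2)) 0 D := by
    intro a b
    rw [in_f hx hx1 (by linarith) (by linarith)]
    exact mul_nonneg (by linarith) (hi a b)
  have W : 1 ≤ t → t ≤ 251 / 250 → -((t - 1) / 16) ≤ lnR x t (t / 2) (-(G.om t x / 2)) 0 D := by
    intro a b
    rw [in_f hx hx1 (by linarith) (by linarith)]
    have := mul_le_mul_of_nonneg_left (hw a b) (by linarith : 0 ≤ t - 1)
    linarith
  have O : 1 ≤ t → t ≤ 11 / 10 → 0 ≤ loR x t (t / 2) (-(G.om t x / 2)) 0 D := by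
    intro a b
    rw [ou_f hx hx1 (by linarith) (by linarith)]
    exact mul_nonneg (by linarith) (ho a b)
  refine ⟨?_, ?_, ?_, ?_, ?_, ?_⟩
  · intro a b
    rw [P.ln, (V (by linarith)).1, add_zero]; exact I a b
  · intro _ a b
    rw [P.ln, (V (by linarith)).2, add_zero]; exact I a b
  · intro _ a b
    rw [P.ln, (V (by linarith)).1, add_zero]; exact W a b
  · intro _ _ a b
    rw [P.ln, (V (by linarith)).2, add_zero]; exact W a b
  · intro a b
    rw [P.lo (by linarith), (V (by linarith)).1, add_zero]; exact O a b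
  · intro _ a b
    rw [P.lo (by linarith), (V (by linarith)).2, add_zero]; exact O a b

theorem lnB_n (hx : 0 < x) (hx1 : x ≤ 4 / 125)
    (P : LnP R fa t w z x (t / 2) (-(G.om t x / 2)) (G.lb x * t / 2) D)
    (V : t ≤ 3 / 2 → R.V1 w z x = G.mu x * G.xw t x / 2 ∧ R.V2 w z x = G.mu x * G.xw t x / 2)
    (hi : 3 / 5 ≤ t → t ≤ 1 → 0 ≤ cin t x D - G.mu x * ((G.mm x - G.ch x) * t) / 2)
    (hw : 1 ≤ t → t ≤ 251 / 250 → cin t x D - G.mu x * (G.mm x - G.ch x) / 2 ≤ 1 / 16)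
    (ho : 1 ≤ t → t ≤ 11 / 10 → 0 ≤ cou (1 / 2) t x D - opf.v t x -
      (1 + x * G.et x) * G.lb x * (t⁻¹ - x) / 4 + G.mu x * G.mm x / 2) :
    LnB R fa wd m8 t w z x := by
  have I : 3 / 5 ≤ t → t ≤ 1 →
      0 ≤ lnR x t (t / 2) (-(G.om t x / 2)) (G.lb x * t / 2) D + G.mu x * G.xw t x / 2 := by
    intro a b
    rw [in_n hx hx1 (by linarith) (by linarith) D (xw_i b)]
    exact mul_nonneg (by linarith) (hi a b)
  have W : 1 ≤ t → t ≤ 251 / 250 → -((t - 1) / 16) ≤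
      lnR x t (t / 2) (-(G.om t x / 2)) (G.lb x * t / 2) D + G.mu x * G.xw t x / 2 := by
    intro a b
    rw [in_n' hx hx1 (by linarith) (by linarith) D (xw_o a (by linarith))]
    have := mul_le_mul_of_nonneg_left (hw a b) (by linarith : 0 ≤ t - 1)
    linarith
  have O : 1 ≤ t → t ≤ 11 / 10 →
      0 ≤ loR x t (t / 2) (-(G.om t x / 2)) (G.lb x * t / 2) D + G.mu x * G.xw t x / 2 := by
    intro a b
    rw [ou_n hx hx1 (by linarith) (by linarith) D (xw_o a (by linarith))]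
    exact mul_nonneg (by linarith) (ho a b)
  refine ⟨?_, ?_, ?_, ?_, ?_, ?_⟩
  · intro a b
    rw [P.ln, (V (by linarith)).1]; exact I a b
  · intro _ a b
    rw [P.ln, (V (by linarith)).2]; exact I a b
  · intro _ a b
    rw [P.ln, (V (by linarith)).1]; exact W a b
  · intro _ _ a b
    rw [P.ln, (V (by linarith)).2]; exact W a b
  · intro a b
    rw [P.lo (by linarith), (V (by linarith)).1]; exact O a b
  · intro _ a b
    rw [P.lo (by linarith), (V (by linarith)).2]; exact O a b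

theorem xw_nn (hx : 0 < x) (hx1 : x ≤ 4 / 125) (h0 : 0 ≤ t) (h1 : t ≤ 3 / 2) : 0 ≤ G.xw t x := by
  obtain ⟨c1, c2⟩ := ch_bd hx hx1
  obtain ⟨m1, m2⟩ := mm_bd hx hx1
  rcases le_total t 1 with h | h
  · rw [xw_i h]
    have : 0 ≤ (G.mm x - G.ch x) * t := mul_nonneg (by linarith) h0
    exact mul_nonneg h0 (by linarith)
  · rw [xw_o h h1]
    have : 0 ≤ G.mm x * (t - 1) := mul_nonneg (by linarith) (by linarith)
    linarith

theorem lnB_5 (hx : 0 < x) (hx1 : x ≤ 4 / 125) (P : LnP R false t w z x t 0 0 (D5 t x))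
    (V : t ≤ 3 / 2 → R.V1 w z x = G.xw t x ∧ R.V2 w z x = -G.xw t x) :
    LnB R false false m8 t w z x := by
  have I : 3 / 5 ≤ t → t ≤ 1 → 0 ≤ lnR x t t 0 0 (D5 t x) - G.xw t x := by
    intro a b
    rw [in_5 _ (xw_i b)]
    exact m5_i hx hx1 a b
  have O : 1 ≤ t → t ≤ 11 / 10 → 0 ≤ loR x t t 0 0 (D5 t x) - G.xw t x := by
    intro a b
    rw [ou_5 hx hx1 (by linarith) _ (xw_o a (by linarith))]
    exact m5_o hx hx1 a b
  refine ⟨?_, ?_, fun e => absurd e Bool.false_ne_true, fun _ e => absurd e Bool.false_ne_true,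
    ?_, ?_⟩
  · intro a b
    rw [P.ln, (V (by linarith)).1]
    have := I a b
    have := xw_nn hx hx1 (by linarith : 0 ≤ t) (by linarith)
    linarith
  · intro _ a b
    rw [P.ln, (V (by linarith)).2]; exact I a b
  · intro a b
    rw [P.lo (by linarith), (V (by linarith)).1]
    have := O a b
    have := xw_nn hx hx1 (by linarith : 0 ≤ t) (by linarith)
    linarith
  · intro _ a b
    rw [P.lo (by linarith), (V (by linarith)).2]; exact O a b

theorem lnB_8 (hx : 0 < x) (hx1 : x ≤ 4 / 125)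
    {e s : ℝ} (P : LnP R true t w z x (3 / 2 * t) (-(G.om t x / 2) - x * t * e)
      (-(2 * t * (x * e) * s)) D)
    (V : t ≤ 3 / 2 → R.V1 w z x = -G.xw t x)
    (hi : 3 / 5 ≤ t → t ≤ 1 → 0 ≤ (3 / 4 * G.ic x - G.ch x) * t +
      (1 - t) * (cin t x D + (G.mm x - G.ch x) * t) + x * e * t * (2 * G.ep x * s - 1))
    (hw : wd = true → 1 ≤ t → t ≤ 251 / 250 →
      cin t x D - (3 / 4 * G.ic x - G.mm x) ≤ 1 / 16 ∧ 0 ≤ x * e * t * (2 * G.ep x * s - 1))
    (ho : 1 ≤ t → t ≤ 11 / 10 → 0 ≤ (3 / 4 * G.ic x - G.ch x) +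
      (t - 1) * (cou (3 / 2) t x D - opf.v t x - G.mm x) +
      x * e * ((1 + x * G.et x) * s * (2 - t⁻¹ - x * t) - t)) :
    LnB R true wd true t w z x := by
  refine ⟨?_, fun q => absurd q.symm Bool.false_ne_true, ?_,
    fun q => absurd q.symm Bool.false_ne_true, ?_, fun q => absurd q.symm Bool.false_ne_true⟩
  · intro a b
    rw [P.ln, V (by linarith), ← sub_eq_add_neg,
      in_8 hx hx1 (by linarith) (by linarith) D e s (xw_i b)]
    exact hi a b
  · intro h a b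
    obtain ⟨h1, h2⟩ := hw h a b
    rw [P.ln, V (by linarith), ← sub_eq_add_neg,
      in_8' hx hx1 (by linarith) (by linarith) D e s (xw_o a (by linarith))]
    have := mul_le_mul_of_nonneg_left h1 (by linarith : 0 ≤ t - 1)
    have := c0_nn hx hx1
    linarith
  · intro a b
    rw [P.lo (by linarith), V (by linarith), ← sub_eq_add_neg,
      ou_8 hx hx1 (by linarith) (by linarith) D e s (xw_o a (by linarith))]
    exact ho a b

theorem lnB_8a (hx : 0 < x) (hx1 : x ≤ 4 / 125)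
    (P : LnP R true t w z x (3 / 2 * t) (-(G.om t x / 2)) 0 (D8 (353 / 500) t x))
    (V : t ≤ 3 / 2 → R.V1 w z x = -G.xw t x) : LnB R true wd true t w z x := by
  have P' : LnP R true t w z x (3 / 2 * t) (-(G.om t x / 2) - x * t * 0)
      (-(2 * t * (x * 0) * 0)) (D8 (353 / 500) t x) := by
    have e1 : -(G.om t x / 2) - x * t * 0 = -(G.om t x / 2) := by ring
    have e2 : -(2 * t * (x * 0) * 0) = 0 := by ring
    rw [e1, e2]
    exact P
  refine lnB_8 hx hx1 P' V ?_ ?_ ?_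
  · intro a b
    have := m8a_i hx hx1 a b
    linarith
  · intro _ a b
    exact ⟨m8a_w hx hx1 a b, by simp⟩
  · intro a b
    have := m8a_o hx hx1 a b
    linarith

theorem lnB_8d (hx : 0 < x) (hx1 : x ≤ 4 / 125)
    (P : LnP R true t w z x (3 / 2 * t) (-(G.om t x / 2) - x * t * G.om t x)
      (-(2 * t * (x * G.om t x) * G.saw 0 x)) (D8 (G.saw 0 x) t x))
    (V : t ≤ 3 / 2 → R.V1 w z x = -G.xw t x) : LnB R true wd true t w z x := by
  have hs := ep2 hx hx1 (s := G.saw 0 x) (by rw [saw_0]; norm_num)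
  have E : 0 ≤ t → 0 ≤ x * G.om t x * t * (2 * G.ep x * G.saw 0 x - 1) := fun h =>
    mul_nonneg (mul_nonneg (om_nn hx h) h) hs
  refine lnB_8 hx hx1 P V ?_ ?_ ?_
  · intro a b
    have h1 := mul_nonneg (by linarith : 0 ≤ 1 - t) (m8d_i hx hx1 a b)
    have h2 := mul_nonneg (c0_nn hx hx1) (by linarith : 0 ≤ t)
    have h3 := E (by linarith)
    linarith
  · intro _ a b
    exact ⟨m8d_w hx hx1 a b, E (by linarith)⟩
  · intro a b
    exact m8d_o hx hx1 a b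

theorem lnB_8u (hx : 0 < x) (hx1 : x ≤ 4 / 125)
    (P : LnP R true t w z x (3 / 2 * t) (-(G.om t x / 2) - x * t * G.om t x)
      (-(2 * t * (x * G.om t x) * G.sbc 0 x)) (D8 (G.sbc 0 x) t x))
    (V : t ≤ 3 / 2 → R.V1 w z x = -G.xw t x) : LnB R true false true t w z x := by
  have hs := ep2 hx hx1 (s := G.sbc 0 x) (by rw [sbc_0])
  have E : 0 ≤ t → 0 ≤ x * G.om t x * t * (2 * G.ep x * G.sbc 0 x - 1) := fun h =>
    mul_nonneg (mul_nonneg (om_nn hx h) h) hs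
  refine lnB_8 hx hx1 P V ?_ (fun q => absurd q Bool.false_ne_true) ?_
  · intro a b
    have h1 := mul_nonneg (by linarith : 0 ≤ 1 - t) (m8u_i hx hx1 a b)
    have h2 := mul_nonneg (c0_nn hx hx1) (by linarith : 0 ≤ t)
    have h3 := E (by linarith)
    linarith
  · intro a b
    exact m8u_o hx hx1 a b

end

end Pool.Agent.Strip051.LC.E0.Ch
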