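import Pool.Agent.Strip051.LC.E0.Ch.Lt

/-! # Small rests: the point of a line from the values of a row -/

set_option linter.unusedVariables false
set_option linter.unusedSimpArgs false

namespace Pool.Agent.Strip051.LC.E0.Ch

open Pool.Agent.Strip051.PB BaseP

theorem om_neg (t x : ℝ) : G.om (-t) x = G.om t x := by
  unfold G.om G.qw
  rw [neg_sq]

section

variable {R : RowF} {P : Pat} {t x g xi a b c bs gm D : ℝ}

/-- `w = t`, `z = 0` -/
theorem lnP_M1 (hp : PatF P R) (hP : P ≠ .pnn) (hG : R.G t 0 = g) (hX : R.XI t 0 x = xi)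
    (h12 : R.K12 t x = a) (h23 : R.K23 t 0 x = b) (h13 : R.K13 t 0 x = c)
    (hbs : -((G.om t x * (1 + x * t) + xi * t) / 2) = bs) (hgm : -(t * b) = gm)
    (hD : a + b - c = -D) : LnP R true t t 0 x g bs gm D := by
  have eD : R.DL t 0 x = -D := by
    unfold RowF.DL
    rw [dlf_val, h12, h23, h13, hD]
  have eB : R.BS t 0 x = bs := by
    unfold RowF.BS
    rw [bsf_val, hX, add_zero, hbs]
  rcases P with _ | _ | _
  · obtain ⟨e1, e2, e3, e4⟩ := hp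
    refine ⟨?_, ?_, ?_, hG, eB, ?_, eD⟩
    · unfold RowF.L; rw [e1]; show t + 0 = t; ring
    · unfold RowF.A; rw [e2]; rfl
    · unfold RowF.B; rw [e3]; rfl
    · unfold RowF.GM; rw [e4, gq1_val, h12, h23, ← hgm]; ring
  · obtain ⟨e1, e2, e3, e4⟩ := hp
    refine ⟨?_, ?_, ?_, hG, eB, ?_, eD⟩
    · unfold RowF.L; rw [e1]; rfl
    · unfold RowF.A; rw [e2]; show t + 0 = t; ring
    · unfold RowF.B; rw [e3]; show -(0 : ℝ) = 0; ring
    · unfold RowF.GM; rw [e4, gm2_val, h12, h23, ← hgm]; ring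
  · exact absurd rfl hP

/-- `w = 0`, `z = t` -/
theorem lnP_M5 (hp : PatF .pp R) (hG : R.G 0 t = g)
    (h12 : R.K12 0 x = 0) (h23 : R.K23 0 t x = b) (h13 : R.K13 0 t x = c)
    (hD : b - c = D) : LnP R false t 0 t x g 0 0 D := by
  obtain ⟨e1, e2, e3, e4⟩ := hp
  refine ⟨?_, ?_, ?_, hG, ?_, ?_, ?_⟩
  · unfold RowF.L; rw [e1]; show 0 + t = t; ring
  · unfold RowF.A; rw [e2]; rfl
  · unfold RowF.B; rw [e3]; rfl
  · unfold RowF.BS
    rw [bsf_val, om_0]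
    ring
  · unfold RowF.GM; rw [e4, gq1_val, h12]; ring
  · unfold RowF.DL
    rw [dlf_val, h12, h23, h13, ← hD]
    show 0 + b - c = b - c
    ring

/-- `w = t`, `z = -t` -/
theorem lnP_M3 (hp : PatF P R) (hP : P ≠ .pp) (hG : R.G t (-t) = g) (hX : R.XI t (-t) x = 0)
    (h12 : R.K12 t x = a) (h23 : R.K23 t (-t) x = b) (h13 : R.K13 t (-t) x = c)
    (hgm : -(t * c) = gm) (hD : a + b - c = D) :
    LnP R false t t (-t) x g (-(G.om t x / 2)) gm D := by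
  have eD : R.DL t (-t) x = D := by
    unfold RowF.DL
    rw [dlf_val, h12, h23, h13, hD]
  have eB : R.BS t (-t) x = -(G.om t x / 2) := by
    unfold RowF.BS
    rw [bsf_val, hX, add_neg_cancel]
    ring
  rcases P with _ | _ | _
  · exact absurd rfl hP
  · obtain ⟨e1, e2, e3, e4⟩ := hp
    refine ⟨?_, ?_, ?_, hG, eB, ?_, eD⟩
    · unfold RowF.L; rw [e1]; rfl
    · unfold RowF.A; rw [e2]; show t + -t = 0; ring
    · unfold RowF.B; rw [e3]; show -(-t) = t; ring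
    · unfold RowF.GM; rw [e4, gm2_val, eD, h12, h23, ← hgm, ← hD]; ring
  · obtain ⟨e1, e2, e3, e4⟩ := hp
    refine ⟨?_, ?_, ?_, hG, eB, ?_, eD⟩
    · unfold RowF.L; rw [e1]; show -(-t) = t; ring
    · unfold RowF.A; rw [e2]; show -(t + -t) = 0; ring
    · unfold RowF.B; rw [e3]; rfl
    · unfold RowF.GM; rw [e4, gm3_val, eD, h12, h23, ← hgm, ← hD]; ring

/-! ### The levels -/

theorem far_V {w z : ℝ} (hf : FarF R) (h12 : R.C12 w x = a) (h23 : R.C23 w z x = b)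
    (h13 : R.C13 w z x = c) :
    R.V1 w z x = -((a + b - c) / 2) ∧ R.V2 w z x = (a + b - c) / 2 := by
  unfold RowF.V1 RowF.V2
  rw [hf.v1, hf.v2, vf1_val, vf2_val, h12, h23, h13]
  exact ⟨rfl, rfl⟩

theorem near_V {w z : ℝ} (hf : NearF R) (h12 : R.C12 w x = a) (h23 : R.C23 w z x = b)
    (h13 : R.C13 w z x = c) :
    R.V1 w z x = G.mu x * ((3 + x) / 2 * (a + b - c) -
      (x * w * a + (1 + 2 * x * w + x * z) * b - (1 + x * (w + z)) * c) / 2) ∧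
    R.V2 w z x = G.mu x * (-((3 + x) / 2 * (a + b - c)) +
      ((1 + x * z) * b + (2 * (1 + x * z) + x * w) * a - (1 + x * (w + z)) * c) / 2) := by
  unfold RowF.V1 RowF.V2
  rw [hf.v1, hf.v2, ml1_val, ml2_val, h12, h23, h13]
  exact ⟨rfl, rfl⟩

theorem far_12 {w : ℝ} (hf : FarF R) : R.K12 w x = -G.dt w ∧ R.C12 w x = G.xa w x := by
  unfold RowF.K12 RowF.C12
  rw [hf.k12, ka_val, hf.c12, xa_val]
  exact ⟨rfl, rfl⟩

theorem near_12 {w : ℝ} (hf : NearF R) :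
    R.K12 w x = -G.dt w * (1 + x * G.lb x) + G.lb x * (1 + G.rf x * G.gh w) ∧
      R.C12 w x = G.xa w x := by
  unfold RowF.K12 RowF.C12
  rw [hf.k12, k12n_nk, hf.c12, xa_val]
  exact ⟨rfl, rfl⟩

/-! ### The types -/

theorem l1f {wd m8 : Bool} (hx : 0 < x) (hx1 : x ≤ 4 / 125) (hp : PatF P R) (hP : P ≠ .pnn)
    (hf : FarF R) (hG : R.G t 0 = t / 2) (hX : R.XI t 0 x = -(x * G.om t x))
    (h23 : R.K23 t 0 x = 0) (h13 : R.K13 t 0 x = G.kwu t x) (g23 : R.C23 t 0 x = 0)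
    (g13 : R.C13 t 0 x = G.xw t x) : LnB R true wd m8 t t 0 x := by
  obtain ⟨h12, g12⟩ := far_12 (w := t) (x := x) hf
  obtain ⟨v1, v2⟩ := far_V hf g12 g23 g13
  refine lnB_f hx hx1 (D := D1 t x) (lnP_M1 hp hP hG hX h12 h23 h13 (by ring) (by ring)
    (by unfold D1; ring)) (fun h => ?_) (fun a b => m1f_i hx hx1 a b)
    (fun a b => m1f_w hx hx1 a b) (fun a b => m1f_o hx hx1 a b)
  rw [v1, v2, xa_xw h]
  constructor <;> ring

theorem l1n {wd m8 : Bool} (hx : 0 < x) (hx1 : x ≤ 4 / 125) (hp : PatF P R) (hP : P ≠ .pnn)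
    (hf : NearF R) (hG : R.G t 0 = t / 2) (hX : R.XI t 0 x = -(x * G.om t x))
    (h23 : R.K23 t 0 x = -(G.lb x / 2))
    (h13 : R.K13 t 0 x = G.kwu t x * (1 + x * G.lb x) + G.lb x * (1 / 2 + G.rwu x * G.gh t))
    (g23 : R.C23 t 0 x = 0) (g13 : R.C13 t 0 x = G.xw t x) : LnB R true wd m8 t t 0 x := by
  obtain ⟨h12, g12⟩ := near_12 (w := t) (x := x) hf
  obtain ⟨v1, v2⟩ := near_V hf g12 g23 g13
  refine lnB_n hx hx1 (D := DN t x (D1 t x)) (lnP_M1 hp hP hG hX h12 h23 h13 (by ring)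
    (by ring) (by unfold DN D1 G.rwu; ring)) (fun h => ?_)
    (fun a b => m1n_i hx hx1 a b) (fun a b => m1n_w hx hx1 a b) (fun a b => m1n_o hx hx1 a b)
  rw [v1, v2, xa_xw h]
  constructor <;> ring

theorem l5 {m8 : Bool} (hx : 0 < x) (hx1 : x ≤ 4 / 125) (hp : PatF .pp R)
    (hf : FarF R) (hG : R.G 0 t = t) (h23 : R.K23 0 t x = b) (h13 : R.K13 0 t x = c)
    (hD : b - c = D5 t x) (g23 : R.C23 0 t x = -G.xw t x) (g13 : R.C13 0 t x = G.xw t x) :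
    LnB R false false m8 t 0 t x := by
  obtain ⟨h12, g12⟩ := far_12 (w := 0) (x := x) hf
  rw [dt_0] at h12
  rw [xa_0] at g12
  obtain ⟨v1, v2⟩ := far_V hf g12 g23 g13
  refine lnB_5 hx hx1 (lnP_M5 hp hG (by rw [h12]; ring) h23 h13 hD) (fun h => ?_)
  rw [v1, v2]
  constructor <;> ring

theorem l3f {wd m8 : Bool} (hx : 0 < x) (hx1 : x ≤ 4 / 125) (hp : PatF P R) (hP : P ≠ .pp)
    (hf : FarF R) (hG : R.G t (-t) = t / 2) (hX : R.XI t (-t) x = 0)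
    (h23 : R.K23 t (-t) x = -G.kwl (-t) x) (h13 : R.K13 t (-t) x = 0)
    (g23 : R.C23 t (-t) x = -G.xw t x)
    (g13 : R.C13 t (-t) x = 0) : LnB R false wd m8 t t (-t) x := by
  obtain ⟨h12, g12⟩ := far_12 (w := t) (x := x) hf
  obtain ⟨v1, v2⟩ := far_V hf g12 g23 g13
  refine lnB_f hx hx1 (D := D3 t x) (lnP_M3 hp hP hG hX h12 h23 h13 (by ring)
    (by unfold D3; ring)) (fun h => ?_) (fun a b => m3f_i hx hx1 a b)
    (fun a b => m3f_w hx hx1 a b) (fun a b => m3f_o hx hx1 a b)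
  rw [v1, v2, xa_xw h]
  constructor <;> ring

theorem l3n {wd m8 : Bool} (hx : 0 < x) (hx1 : x ≤ 4 / 125) (hp : PatF P R) (hP : P ≠ .pp)
    (hf : NearF R) (hG : R.G t (-t) = t / 2) (hX : R.XI t (-t) x = 0)
    (h23 : R.K23 t (-t) x =
      -G.kwl (-t) x * (1 + x * G.lb x) + G.lb x * (-(3 / 2) - G.rwl x * G.gh t))
    (h13 : R.K13 t (-t) x = -(G.lb x / 2)) (g23 : R.C23 t (-t) x = -G.xw t x)
    (g13 : R.C13 t (-t) x = 0) : LnB R false wd m8 t t (-t) x := by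
  obtain ⟨h12, g12⟩ := near_12 (w := t) (x := x) hf
  obtain ⟨v1, v2⟩ := near_V hf g12 g23 g13
  refine lnB_n hx hx1 (D := DN t x (D3 t x)) (lnP_M3 hp hP hG hX h12 h23 h13 (by ring)
    (by unfold DN D3 G.rwl; ring)) (fun h => ?_)
    (fun a b => m3n_i hx hx1 a b) (fun a b => m3n_w hx hx1 a b) (fun a b => m3n_o hx hx1 a b)
  rw [v1, v2, xa_xw h]
  constructor <;> ring

theorem l8a {wd : Bool} (hx : 0 < x) (hx1 : x ≤ 4 / 125) (hp : PatF P R) (hP : P ≠ .pnn)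
    (hf : FarF R) (hG : R.G t 0 = 3 / 2 * t) (hX : R.XI t 0 x = -(x * G.om t x))
    (h23 : R.K23 t 0 x = 0) (h13 : R.K13 t 0 x = -G.kwu t x - 353 / 250 * (x * G.om t x))
    (g23 : R.C23 t 0 x = 0) (g13 : R.C13 t 0 x = -G.xw t x) : LnB R true wd true t t 0 x := by
  obtain ⟨h12, g12⟩ := far_12 (w := t) (x := x) hf
  obtain ⟨v1, v2⟩ := far_V hf g12 g23 g13
  refine lnB_8a hx hx1 (lnP_M1 hp hP hG hX h12 h23 h13 (by ring) (by ring)
    (by unfold D8; ring)) (fun h => ?_)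
  rw [v1, xa_xw h]
  ring

theorem l8d {wd : Bool} (hx : 0 < x) (hx1 : x ≤ 4 / 125) (hp : PatF P R) (hP : P ≠ .pnn)
    (hf : FarF R) (hG : R.G t 0 = 3 / 2 * t) (hX : R.XI t 0 x = x * G.om t x)
    (h23 : R.K23 t 0 x = 2 * (x * G.om t x) * G.saw 0 x) (h13 : R.K13 t 0 x = -G.kwu t x)
    (g23 : R.C23 t 0 x = 0) (g13 : R.C13 t 0 x = -G.xw t x) : LnB R true wd true t t 0 x := by
  obtain ⟨h12, g12⟩ := far_12 (w := t) (x := x) hf
  obtain ⟨v1, v2⟩ := far_V hf g12 g23 g13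
  refine lnB_8d hx hx1 (lnP_M1 hp hP hG hX h12 h23 h13 (by ring) (by ring)
    (by unfold D8; ring)) (fun h => ?_)
  rw [v1, xa_xw h]
  ring

theorem l8u (hx : 0 < x) (hx1 : x ≤ 4 / 125) (hp : PatF P R) (hP : P ≠ .pnn)
    (hf : FarF R) (hG : R.G t 0 = 3 / 2 * t) (hX : R.XI t 0 x = x * G.om t x)
    (h23 : R.K23 t 0 x = 2 * (x * G.om t x) * G.sbc 0 x) (h13 : R.K13 t 0 x = -G.kwu t x)
    (g23 : R.C23 t 0 x = 0) (g13 : R.C13 t 0 x = -G.xw t x) :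
    LnB R true false true t t 0 x := by
  obtain ⟨h12, g12⟩ := far_12 (w := t) (x := x) hf
  obtain ⟨v1, v2⟩ := far_V hf g12 g23 g13
  refine lnB_8u hx hx1 (lnP_M1 hp hP hG hX h12 h23 h13 (by ring) (by ring)
    (by unfold D8; ring)) (fun h => ?_)
  rw [v1, xa_xw h]
  ring

end

end Pool.Agent.Strip051.LC.E0.Ch
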