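import Pool.Agent.Strip051.LC.E0.Ch.Line

/-! # Small rests: the leaves of the charts of a row -/

set_option linter.unusedVariables false

namespace Pool.Agent.Strip051.LC.E0.Ch

open Pool.Agent.Strip051.PB

attribute [local irreducible] padd psub pneg pmul psq pinv psqrt psqrtg pabs pps pmax pmin pphi plam
  pcase phf pnat prat pscale pnorm pdc pnc pone ppos pnn Enc

/-- The row `R` decides `C`. -/
def Good (R : RowF) (M : ℕ) (up : Bool) (w z x : ℝ) (C : Prop) : Prop :=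
  ∃ lev, Dm R M up w z x ∧ R.Lv w z x lev ∧ (R.Sk w z x lev → C)

/-- The row `R` with the costs `m` decides `C`. -/
def GoodM (R : RowF) (m : RowM) (M : ℕ) (up : Bool) (w z x : ℝ) (C : Prop) : Prop :=
  ∃ lev, Dm R M up w z x ∧ m.Lv R w z x lev ∧ (R.Sk w z x lev → C)

/-- one leaf of a main chart; kinds 0 - 2: direct, 3: exit, others: `ext` -/
noncomputable def mainT (R : RowF) (M cw ct : ℕ) (up : Bool) (ext : ℕ → ℕ → Bool)
    (h W Z X : ℕ) : Bool :=
  frc (Nat.mod h 16) fun k => frc (Nat.div h 16) fun s =>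
    Bool.rec (motive := fun _ => Bool)
      (Bool.rec (motive := fun _ => Bool) (ext k s) (exT R M cw ct up s W Z X) (Nat.beq k 3))
      (dirT R k s W Z X) (Nat.ble k 2)

theorem mainT_sound {E : Pt} {R : RowF} {M cw ct : ℕ} {up : Bool} {ext : ℕ → ℕ → Bool}
    {h W Z X : ℕ} {w z x : ℝ} {C : Prop} (hw : Enc E W w) (hz : Enc E Z z) (hx : Enc E X x)
    (g : Good R M up w z x C) (hcw : Nat.beq cw 1 = true → 1 / 4 < w)
    (hct : Nat.beq ct 1 = true → 1 / 4 < w + z) (he : ∀ k s, ext k s = true → C)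
    (hm : mainT R M cw ct up ext h W Z X = true) : C := by
  obtain ⟨lev, D, hl, hS⟩ := g
  unfold mainT at hm
  simp only [frc_eq] at hm
  rcases e0 : Nat.ble (Nat.mod h 16) 2 with _ | _ <;> rw [e0] at hm
  · rcases e1 : Nat.beq (Nat.mod h 16) 3 with _ | _ <;> rw [e1] at hm
    · exact he _ _ hm
    · exact (exT_sound hw hz hx D hcw hct hm).elim
  · exact hS (dirT_sound hw hz hx D hl hm)

/-! ### The lines -/

/-- What is known at the point of a line. -/
structure LnB (R : RowF) (fa wd m8 : Bool) (t w' z' x : ℝ) : Prop where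
  i1 : 3 / 5 ≤ t → t ≤ 1 →
    0 ≤ lnf.v x (R.L w' z') (R.BN w' z' x) (sgd fa (R.DS w' z' x)) + R.V1 w' z' x
  i2 : m8 = false → 3 / 5 ≤ t → t ≤ 1 →
    0 ≤ lnf.v x (R.L w' z') (R.BN w' z' x) (sgd fa (R.DS w' z' x)) + R.V2 w' z' x
  w1 : wd = true → 1 ≤ t → t ≤ 251 / 250 → -((t - 1) / 16) ≤
    lnf.v x (R.L w' z') (R.BN w' z' x) (sgd fa (R.DS w' z' x)) + R.V1 w' z' x
  w2 : m8 = false → wd = true → 1 ≤ t → t ≤ 251 / 250 → -((t - 1) / 16) ≤
    lnf.v x (R.L w' z') (R.BN w' z' x) (sgd fa (R.DS w' z' x)) + R.V2 w' z' x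
  o1 : 1 ≤ t → t ≤ 11 / 10 →
    0 ≤ lof.v x (R.L w' z') (R.G w' z') (R.BR w' z' x) + R.V1 w' z' x
  o2 : m8 = false → 1 ≤ t → t ≤ 11 / 10 →
    0 ≤ lof.v x (R.L w' z') (R.G w' z') (R.BR w' z' x) + R.V2 w' z' x

theorem LnB.line {R : RowF} {fa wd m8 : Bool} {t N w z w' z' x : ℝ} (b : LnB R fa wd m8 t w' z' x)
    (ab : R.A w z + R.B w z = R.L w z) (lf : (bif fa then R.B w z else R.A w z) = N)
    (l0 : wd = false → R.L w z = t + N) (l1 : wd = true → R.L w z = t) :
    LineB R fa wd m8 t N w z w' z' x :=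
  ⟨ab, lf, l0, l1, b.i1, b.i2, b.w1, b.w2, b.o1, b.o2⟩

/-- the line `z = 0` from below -/
noncomputable def lM1n {R : RowF} {q : Bool} (S : RowS R q) (m8 : Bool) (j W Z X : ℕ) : Bool :=
  lineT S true true m8 j W W pzero Z pzero (pneg pone) X W (pneg Z)

/-- the line `z = 0` from above -/
noncomputable def lM1p {R : RowF} {q : Bool} (S : RowS R q) (m8 : Bool) (j W Z X : ℕ) : Bool :=
  lineT S true false m8 j W W pzero Z pzero pone X W Z

/-- the line `w = 0` -/
noncomputable def lM5 {R : RowF} {q : Bool} (S : RowS R q) (m8 : Bool) (j W Z X : ℕ) : Bool :=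
  lineT S false false m8 j W pzero pone Z Z pzero X Z W

/-- the line `w + z = 0` from above -/
noncomputable def lM3p {R : RowF} {q : Bool} (S : RowS R q) (m8 : Bool) (j W Z X : ℕ) : Bool :=
  lineT S false false m8 j W (pneg Z) pone Z Z pzero X (pneg Z) (pnorm (padd W Z))

/-- the line `w + z = 0` from below -/
noncomputable def lM3n {R : RowF} {q : Bool} (S : RowS R q) (m8 : Bool) (j W Z X : ℕ) : Bool :=
  lineT S false true m8 j W (pneg Z) (pneg pone) Z Z pzero X (pneg Z)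
    (pneg (pnorm (padd W Z)))

section

variable {E : Pt} {R : RowF} {q : Bool} {S : RowS R q} {M : ℕ} {up m8 : Bool} {j W Z X : ℕ}
  {w z x : ℝ} {C : Prop}

theorem lM1n_sound (hw : Enc E W w) (hz : Enc E Z z) (hx : Enc E X x) (h0 : z ≤ 0)
    (g : Good R M up w z x C) (hu : q = true → R.U w 0 x = 0) (b : LnB R true true m8 w w 0 x)
    (eB : R.B w z = -z) (eA : R.A w z + R.B w z = R.L w z) (eL : R.L w z = w)
    (h : lM1n S m8 j W Z X = true) : C := by
  obtain ⟨lev, D, hl, hS⟩ := g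
  refine hS (lineT_sound (N := -z) (pr_const hw)
    ⟨hz, enc_zero E, -1, enc_neg (enc_one E), by ring⟩ hx hw (enc_neg hz) (by linarith) hu D
    (b.line eA eB (fun e => absurd e.symm Bool.false_ne_true) fun _ => eL) hl h)

theorem lM1p_sound (hw : Enc E W w) (hz : Enc E Z z) (hx : Enc E X x) (h0 : 0 ≤ z)
    (g : Good R M up w z x C) (hu : q = true → R.U w 0 x = 0) (b : LnB R true false m8 w w 0 x)
    (eB : R.B w z = z) (eA : R.A w z + R.B w z = R.L w z) (eL : R.L w z = w + z)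
    (h : lM1p S m8 j W Z X = true) : C := by
  obtain ⟨lev, D, hl, hS⟩ := g
  refine hS (lineT_sound (N := z) (pr_const hw)
    ⟨hz, enc_zero E, 1, enc_one E, by ring⟩ hx hw hz h0 hu D
    (b.line eA eB (fun _ => eL) fun e => absurd e Bool.false_ne_true) hl h)

theorem lM5_sound (hw : Enc E W w) (hz : Enc E Z z) (hx : Enc E X x) (h0 : 0 ≤ w)
    (g : Good R M up w z x C) (hu : q = true → R.U 0 z x = 0) (b : LnB R false false m8 z 0 z x)
    (eB : R.A w z = w) (eA : R.A w z + R.B w z = R.L w z) (eL : R.L w z = z + w)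
    (h : lM5 S m8 j W Z X = true) : C := by
  obtain ⟨lev, D, hl, hS⟩ := g
  refine hS (lineT_sound (N := w) ⟨hw, enc_zero E, 1, enc_one E, by ring⟩ (pr_const hz) hx hz hw
    h0 hu D (b.line eA eB (fun _ => eL) fun e => absurd e Bool.false_ne_true) hl h)

theorem lM3p_sound (hw : Enc E W w) (hz : Enc E Z z) (hx : Enc E X x) (h0 : 0 ≤ w + z)
    (g : Good R M up w z x C) (hu : q = true → R.U (-z) z x = 0)
    (b : LnB R false false m8 (-z) (-z) z x)
    (eB : R.A w z = w + z) (eA : R.A w z + R.B w z = R.L w z) (eL : R.L w z = -z + (w + z))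
    (h : lM3p S m8 j W Z X = true) : C := by
  obtain ⟨lev, D, hl, hS⟩ := g
  refine hS (lineT_sound (N := w + z) ⟨hw, enc_neg hz, 1, enc_one E, by ring⟩ (pr_const hz) hx
    (enc_neg hz) (enc_norm (enc_add hw hz)) h0 hu D
    (b.line eA eB (fun _ => eL) fun e => absurd e Bool.false_ne_true) hl h)

theorem lM3n_sound (hw : Enc E W w) (hz : Enc E Z z) (hx : Enc E X x) (h0 : w + z ≤ 0)
    (g : Good R M up w z x C) (hu : q = true → R.U (-z) z x = 0)
    (b : LnB R false true m8 (-z) (-z) z x)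
    (eB : R.A w z = -(w + z)) (eA : R.A w z + R.B w z = R.L w z) (eL : R.L w z = -z)
    (h : lM3n S m8 j W Z X = true) : C := by
  obtain ⟨lev, D, hl, hS⟩ := g
  refine hS (lineT_sound (N := -(w + z)) ⟨hw, enc_neg hz, -1, enc_neg (enc_one E), by ring⟩
    (pr_const hz) hx (enc_neg hz) (enc_neg (enc_norm (enc_add hw hz))) (by linarith) hu D
    (b.line eA eB (fun e => absurd e.symm Bool.false_ne_true) fun _ => eL) hl h)

end

/-- no line -/
noncomputable def noL (_ _ _ _ : ℕ) : Bool := false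

/-- two lines -/
noncomputable def twoL (l0 l1 : ℕ → ℕ → ℕ → ℕ → Bool) (k W Z X : ℕ) : Bool :=
  Bool.rec (motive := fun _ => Bool) (l1 (Nat.sub k 3) W Z X) (l0 k W Z X) (Nat.ble k 2)

theorem twoL_sound {l0 l1 : ℕ → ℕ → ℕ → ℕ → Bool} {k W Z X : ℕ} {C : Prop}
    (h0 : ∀ j, l0 j W Z X = true → C) (h1 : ∀ j, l1 j W Z X = true → C)
    (h : twoL l0 l1 k W Z X = true) : C := by
  unfold twoL at h
  rcases e : Nat.ble k 2 with _ | _ <;> rw [e] at h
  · exact h1 _ h
  · exact h0 _ h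

/-! ### The charts -/

/-- coordinates `w`, `z` -/
noncomputable def mZ (R : RowF) (M cw ct : ℕ) (up : Bool) (ln : ℕ → ℕ → ℕ → ℕ → Bool)
    (h A B X : ℕ) : Bool :=
  mainT R M cw ct up (fun k _ => ln (Nat.sub k 10) A B X) h A B X

/-- coordinates `w`, `w + z` -/
noncomputable def mU (R : RowF) (M cw ct : ℕ) (up : Bool) (ln : ℕ → ℕ → ℕ → ℕ → Bool)
    (h A B X : ℕ) : Bool :=
  frc (pnorm (psub B A)) fun Z => mainT R M cw ct up (fun k _ => ln (Nat.sub k 10) A Z X) h A Z X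

/-- coordinates `w`, `v`, far vertex -/
noncomputable def mVf {R : RowF} (S : RowS R true) (kw : Fn2) (M : ℕ) (up : Bool)
    (ln : ℕ → ℕ → ℕ → ℕ → Bool) (h A B X : ℕ) : Bool :=
  frc (kw.t A X) fun K => frc (pnorm (psub B K)) fun Z =>
    mainT R M 0 0 up (fun k s => Bool.rec (motive := fun _ => Bool) (ln (Nat.sub k 10) A Z X)
      (strF S kw (Nat.sub k 4) s A B X) (Nat.ble k 6)) h A Z X

/-- coordinates `w`, `v`, near vertex; `Rm` is the row with the costs -/
noncomputable def mVn (R : RowF) {Rm : RowF} (Sm : RowS Rm true) (m : RowM) (ms : RowMS m true)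
    (kw : Fn2) (M cw ct : ℕ) (up : Bool) (ln : ℕ → ℕ → ℕ → ℕ → Bool) (h A B X : ℕ) : Bool :=
  frc (kw.t A X) fun K => frc (pnorm (psub B K)) fun Z =>
    mainT R M cw ct up (fun k s => Bool.rec (motive := fun _ => Bool)
      (Bool.rec (motive := fun _ => Bool) (ln (Nat.sub k 10) A Z X)
        (strM Sm m ms kw true (Nat.sub k 7) s A B X) (Nat.ble k 9))
      (strM Sm m ms kw false (Nat.sub k 4) s A B X) (Nat.ble k 6)) h A Z X

section

variable {E : Pt} {R Rm : RowF} {M cw ct : ℕ} {up upm : Bool} {ln : ℕ → ℕ → ℕ → ℕ → Bool}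
  {kw : Fn2} {h A B X : ℕ} {w z v x : ℝ} {C : Prop}

theorem mZ_sound (hw : Enc E A w) (hz : Enc E B z) (hx : Enc E X x) (g : Good R M up w z x C)
    (hcw : Nat.beq cw 1 = true → 1 / 4 < w) (hct : Nat.beq ct 1 = true → 1 / 4 < w + z)
    (hl : ∀ {Z : ℕ}, Enc E Z z → ∀ k, ln k A Z X = true → C)
    (hm : mZ R M cw ct up ln h A B X = true) : C :=
  mainT_sound hw hz hx g hcw hct (fun _ _ e => hl hz _ e) hm

theorem mU_sound (hw : Enc E A w) (ht : Enc E B (w + z)) (hx : Enc E X x)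
    (g : Good R M up w z x C) (hcw : Nat.beq cw 1 = true → 1 / 4 < w)
    (hct : Nat.beq ct 1 = true → 1 / 4 < w + z)
    (hl : ∀ {Z : ℕ}, Enc E Z z → ∀ k, ln k A Z X = true → C)
    (hm : mU R M cw ct up ln h A B X = true) : C := by
  unfold mU at hm
  rw [frc_eq] at hm
  have hZ : Enc E (pnorm (psub B A)) z := by
    have := enc_norm (enc_sub ht hw)
    rwa [show w + z - w = z by ring] at this
  exact mainT_sound hw hZ hx g hcw hct (fun _ _ e => hl hZ _ e) hm

theorem enc_z {E : Pt} {kw : Fn2} {A B X : ℕ} {w z x : ℝ} (hw : Enc E A w)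
    (hv : Enc E B (z + kw.v w x)) (hx : Enc E X x) : Enc E (pnorm (psub B (kw.t A X))) z := by
  have := enc_norm (enc_sub hv (kw.enc hw hx))
  rwa [show z + kw.v w x - kw.v w x = z by ring] at this

theorem mVf_sound {S : RowS R true} (hw : Enc E A w) (hv : Enc E B (z + kw.v w x))
    (hx : Enc E X x) (h0 : 0 ≤ z + kw.v w x) (g : Good R M up w z x C)
    (SB : SBase R w (-kw.v w x) x) (hg : R.G w z = R.G w (-kw.v w x) + (z + kw.v w x))
    (b1 : 0 ≤ R.V1 w (-kw.v w x) x) (b2 : 0 ≤ R.V2 w (-kw.v w x) x)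
    (hl : ∀ {Z : ℕ}, Enc E Z z → ∀ k, ln k A Z X = true → C)
    (hm : mVf S kw M up ln h A B X = true) : C := by
  unfold mVf at hm
  simp only [frc_eq] at hm
  have hZ := enc_z hw hv hx
  refine mainT_sound hw hZ hx g (fun e => absurd e (by decide)) (fun e => absurd e (by decide))
    (fun k s e => ?_) hm
  rcases e0 : Nat.ble k 6 with _ | _ <;> rw [e0] at e
  · exact hl hZ _ e
  · obtain ⟨lev, D, hlv, hS⟩ := g
    refine hS ?_
    have ez : z + kw.v w x - kw.v w x = z := by ring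
    have := strF_sound (S := S) hw hv hx h0 (by rwa [ez]) SB (by rwa [ez]) b1 b2
      (lev := lev) (by rwa [ez]) e
    rwa [ez] at this

theorem mVn_sound {Sm : RowS Rm true} {m : RowM} {ms : RowMS m true} (hw : Enc E A w)
    (hv : Enc E B (z + kw.v w x)) (hx : Enc E X x) (h0 : 0 ≤ z + kw.v w x)
    (g : Good R M up w z x C) (gm : GoodM Rm m M upm w z x C)
    (SB : SBase Rm w (-kw.v w x) x) (hg : Rm.G w z = Rm.G w (-kw.v w x) + (z + kw.v w x))
    (hr : m.rt.v (Rm.U w (-kw.v w x) x) (-kw.v w x) (w + -kw.v w x) x = 0)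
    (b1 : G.ep x * G.lb x * |m.r12.v w x| ≤ Rm.V1 w (-kw.v w x) x)
    (b2 : G.ep x * G.lb x * |m.r12.v w x| ≤ Rm.V2 w (-kw.v w x) x)
    (hcw : Nat.beq cw 1 = true → 1 / 4 < w) (hct : Nat.beq ct 1 = true → 1 / 4 < w + z)
    (hl : ∀ {Z : ℕ}, Enc E Z z → ∀ k, ln k A Z X = true → C)
    (hm : mVn R Sm m ms kw M cw ct up ln h A B X = true) : C := by
  unfold mVn at hm
  simp only [frc_eq] at hm
  have hZ := enc_z hw hv hx
  have ez : z + kw.v w x - kw.v w x = z := by ring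
  have str : ∀ b k s, strM Sm m ms kw b k s A B X = true → C := by
    intro b k s e
    obtain ⟨lev, D, hlv, hS⟩ := gm
    refine hS ?_
    have := strM_sound (S := Sm) hw hv hx h0 (by rwa [ez]) SB (by rwa [ez]) hr b1 b2
      (lev := lev) (by rwa [ez]) e
    rwa [ez] at this
  refine mainT_sound hw hZ hx g hcw hct (fun k s e => ?_) hm
  rcases e0 : Nat.ble k 6 with _ | _ <;> rw [e0] at e
  · rcases e1 : Nat.ble k 9 with _ | _ <;> rw [e1] at e
    · exact hl hZ _ e
    · exact str _ _ _ e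
  · exact str _ _ _ e

end

/-! ### The corner charts -/

/-- without the row with the costs -/
noncomputable def noC (_ _ _ _ _ _ _ : ℕ) : Bool := false

section

variable {E : Pt} {R : RowF} {S : RowS R true} {M : ℕ} {up pp : Bool}
  {f : ℕ → ℕ → ℕ → ℕ → ℕ → ℕ → ℕ → Bool} {c A B X : ℕ} {N p x w z : ℝ} {C : Prop}

theorem corT_good (hA : Enc E A N) (hB : Enc E B p) (hx : Enc E X x) (hN : 0 < N)
    (CB : CBase R x)
    (hwz : (pp = true ∧ w = N * (1 - p) ∧ z = N * p) ∨ (pp = false ∧ w = N ∧ z = -(N * p)))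
    (g : Good R M up w z x C)
    (hf : ∀ {k s Wa Wd Za Zd : ℕ}, Pr E N Wa pzero Wd w 0 → Pr E N Za pzero Zd z 0 →
      f k s Wa Wd Za Zd X = true → C)
    (h : corT S M up pp f c A B X = true) : C := by
  obtain ⟨lev, D, hl, hS⟩ := g
  unfold corT at h
  simp only [frc_eq] at h
  have h1 : Enc E (psub pone B) (1 - p) := enc_sub (enc_one E) hB
  have hW : Pr E N (Bool.rec (motive := fun _ => ℕ) A (pmul A (psub pone B)) pp) pzero
      (Bool.rec (motive := fun _ => ℕ) pone (psub pone B) pp) w 0 := by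
    rcases hwz with ⟨rfl, rfl, rfl⟩ | ⟨rfl, rfl, rfl⟩
    · exact ⟨enc_mul hA h1, enc_zero E, 1 - p, h1, by ring⟩
    · exact ⟨hA, enc_zero E, 1, enc_one E, by ring⟩
  have hZ : Pr E N (Bool.rec (motive := fun _ => ℕ) (pneg (pmul A B)) (pmul A B) pp) pzero
      (Bool.rec (motive := fun _ => ℕ) (pneg B) B pp) z 0 := by
    rcases hwz with ⟨rfl, rfl, rfl⟩ | ⟨rfl, rfl, rfl⟩
    · exact ⟨enc_mul hA hB, enc_zero E, p, hB, by ring⟩
    · exact ⟨enc_neg (enc_mul hA hB), enc_zero E, -p, enc_neg hB, by ring⟩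
  rcases e0 : Nat.ble (Nat.mod c 16) 1 with _ | _ <;> rw [e0] at h
  · rcases e1 : Nat.beq (Nat.mod c 16) 3 with _ | _ <;> rw [e1] at h
    · exact hf hW hZ h
    · exfalso
      rcases e2 : Nat.beq (Nat.div c 16) 7 with _ | _ <;> rw [e2] at h
      · exact ex0_sound hW.l hZ.l hx D (fun e => absurd e (by decide))
          (fun e => absurd e (by decide)) h
      · exact cex_sound hW hZ hx hN D CB h
  · exact hS (conT_sound hW hZ hx hN D CB hl h)

theorem conM_good {Rm : RowF} {Sm : RowS Rm true} {upm : Bool} {m : RowM} {ms : RowMS m true}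
    {k s Wa Wd Za Zd : ℕ} (hw : Pr E N Wa pzero Wd w 0) (hz : Pr E N Za pzero Zd z 0)
    (hx : Enc E X x) (hN : 0 < N) (CB : CBase Rm x) (hgp : 0 ≤ Rm.GP w z x)
    (r1 : m.r12.v 0 x = 0) (r2 : m.rt.v (Rm.U 0 0 x) 0 (0 + 0) x = 0)
    (g : GoodM Rm m M upm w z x C) (h : conM Sm m ms k s Wa Wd Za Zd X = true) : C := by
  obtain ⟨lev, D, hl, hS⟩ := g
  exact hS (conM_sound hw hz hx hN D CB hgp r1 r2 hl h)

end

end Pool.Agent.Strip051.LC.E0.Ch
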