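import Pool.Agent.Strip051.PB.Pair

/-! # Small rests: functions of several variables and their slopes

`FnN` are functions with an enclosure in the packed arithmetic; `Sl_pat F` is a companion which
computes the quotient of differences: arguments of the kind `c` are constant, arguments of the kind
`v` are pairs, arguments of the kind `z` are pairs whose second value is zero. -/

namespace Pool.Agent.Strip051.PB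

attribute [local irreducible] padd psub pneg pmul psq pinv psqrt psqrtg pabs pps pmax pmin pphi plam
  pcase phf pnat prat pscale pnorm pdc pnc pone ppos pnn Enc

section

variable {E : Pt} {N : ℝ} {A B D A' B' D' : ℕ} {a b a' b' : ℝ}

theorem zb_neg {b : ℝ} (h : b = 0) : -b = 0 := by rw [h, neg_zero]
theorem zb_mul {b c : ℝ} (h : b = 0) : b * c = 0 := by rw [h, zero_mul]
theorem zb_mul2 {b c : ℝ} (h : b = 0) : c * b = 0 := by rw [h, mul_zero]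

/-- product, the first factor vanishes at the second point -/
theorem pr_mz (z : b = 0) (h : Pr E N A B D a b) (h' : Pr E N A' B' D' a' b') :
    Pr E N (pmul A A') (pmul B B') (pmul D A') (a * a') (b * b') := by
  obtain ⟨d, k, e⟩ := h.d
  refine ⟨enc_mul h.l h'.l, enc_mul h.r h'.r, d * a', enc_mul k h'.l, ?_⟩
  rw [z] at e ⊢
  linear_combination a' * e

/-- product, the second factor vanishes at the second point -/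
theorem pr_mz2 (z : b' = 0) (h : Pr E N A B D a b) (h' : Pr E N A' B' D' a' b') :
    Pr E N (pmul A A') (pmul B B') (pmul A D') (a * a') (b * b') := by
  obtain ⟨d, k, e⟩ := h'.d
  refine ⟨enc_mul h.l h'.l, enc_mul h.r h'.r, a * d, enc_mul h.l k, ?_⟩
  rw [z] at e ⊢
  linear_combination a * e

/-- slope of the positive part -/
noncomputable def pchh (A B D : ℕ) : ℕ :=
  Bool.rec (motive := fun _ => ℕ)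
    (Bool.rec (motive := fun _ => ℕ) (pmul (pflat 1073741824) (pnorm D)) D (band (ppos A) (ppos B)))
    pzero (band (pnp A) (pnp B))

theorem enc_unit {w : ℝ} (h0 : 0 ≤ w) (h1 : w ≤ 1) : Enc E (pflat 1073741824) w := by
  refine enc_flat (by norm_num) (by positivity) ?_
  unfold S
  push_cast
  nlinarith

theorem pos_slope {a b N d : ℝ} (e : a - b = N * d) :
    ∃ θ, 0 ≤ θ ∧ θ ≤ 1 ∧ max a 0 - max b 0 = N * (θ * d) := by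
  rcases le_total a 0 with ha | ha <;> rcases le_total b 0 with hb | hb
  · exact ⟨0, le_rfl, zero_le_one, by rw [max_eq_right ha, max_eq_right hb]; ring⟩
  · rw [max_eq_right ha, max_eq_left hb]
    rcases (sub_nonneg.2 (ha.trans hb)).eq_or_lt with h | h
    · exact ⟨0, le_rfl, zero_le_one, by nlinarith⟩
    · refine ⟨b / (b - a), by positivity, (div_le_one h).2 (by linarith), ?_⟩
      have e2 : N * (b / (b - a) * d) = b / (b - a) * (a - b) := by rw [e]; ring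
      rw [e2]
      field_simp
      ring
  · rw [max_eq_left ha, max_eq_right hb]
    rcases (sub_nonneg.2 (hb.trans ha)).eq_or_lt with h | h
    · exact ⟨0, le_rfl, zero_le_one, by nlinarith⟩
    · refine ⟨a / (a - b), by positivity, (div_le_one h).2 (by linarith), ?_⟩
      have e2 : N * (a / (a - b) * d) = a / (a - b) * (a - b) := by rw [e]; ring
      rw [e2]
      field_simp
      ring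
  · exact ⟨1, zero_le_one, le_rfl, by rw [max_eq_left ha, max_eq_left hb, e]; ring⟩

/-- positive part, any signs -/
theorem pr_posh (h : Pr E N A B D a b) :
    Pr E N (pps A) (pps B) (pchh A B D) (max a 0) (max b 0) := by
  obtain ⟨d, k, e⟩ := h.d
  refine ⟨enc_pos h.l, enc_pos h.r, ?_⟩
  unfold pchh
  rcases h1 : band (pnp A) (pnp B) with _ | _
  · rcases h2 : band (ppos A) (ppos B) with _ | _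
    · obtain ⟨θ, t0, t1, e'⟩ := pos_slope e
      exact ⟨θ * d, enc_mul (enc_unit t0 t1) (enc_norm k), e'⟩
    · obtain ⟨t1, t2⟩ := band_true h2
      refine ⟨d, k, ?_⟩
      rw [max_eq_left (ppos_sound h.l t1).le, max_eq_left (ppos_sound h.r t2).le, e]
  · obtain ⟨t1, t2⟩ := band_true h1
    refine ⟨0, enc_zero E, ?_⟩
    rw [max_eq_right (pnp_sound h.l t1), max_eq_right (pnp_sound h.r t2)]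
    ring

theorem pr_maxh (h : Pr E N A B D a b) (h' : Pr E N A' B' D' a' b') :
    Pr E N (pmax A A') (pmax B B') (padd D' (pchh (psub A A') (psub B B') (psub D D'))) (max a a')
      (max b b') := by
  have k := pr_add h' (pr_posh (pr_sub h h'))
  obtain ⟨d, k1, e⟩ := k.d
  have e0 : ∀ u v : ℝ, v + max (u - v) 0 = max u v := fun u v => by
    rcases le_total u v with h | h
    · rw [max_eq_right (by linarith), max_eq_right h, add_zero]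
    · rw [max_eq_left (by linarith), max_eq_left h]; ring
  rw [e0, e0] at e
  exact ⟨enc_max h.l h'.l, enc_max h.r h'.r, d, k1, e⟩

theorem pr_minh (h : Pr E N A B D a b) (h' : Pr E N A' B' D' a' b') :
    Pr E N (pmin A A') (pmin B B') (psub D (pchh (psub A A') (psub B B') (psub D D'))) (min a a')
      (min b b') := by
  have k := pr_sub h (pr_posh (pr_sub h h'))
  obtain ⟨d, k1, e⟩ := k.d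
  have e0 : ∀ u v : ℝ, u - max (u - v) 0 = min u v := fun u v => by
    rcases le_total u v with h | h
    · rw [max_eq_right (by linarith), min_eq_left h, sub_zero]
    · rw [max_eq_left (by linarith), min_eq_right h]; ring
  rw [e0, e0] at e
  exact ⟨enc_min h.l h'.l, enc_min h.r h'.r, d, k1, e⟩

end

/-- A function of 4 variables with its enclosure. -/
structure Fn4 where
  t : ℕ → ℕ → ℕ → ℕ → ℕ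
  v : ℝ → ℝ → ℝ → ℝ → ℝ
  enc : ∀ {E : Pt} {A1 A2 A3 A4 : ℕ} {a1 a2 a3 a4 : ℝ}, Enc E A1 a1 → Enc E A2 a2 → Enc E A3 a3 → Enc E A4 a4 →
    Enc E (t A1 A2 A3 A4) (v a1 a2 a3 a4)

/-- A function of 5 variables with its enclosure. -/
structure Fn5 where
  t : ℕ → ℕ → ℕ → ℕ → ℕ → ℕ
  v : ℝ → ℝ → ℝ → ℝ → ℝ → ℝ
  enc : ∀ {E : Pt} {A1 A2 A3 A4 A5 : ℕ} {a1 a2 a3 a4 a5 : ℝ}, Enc E A1 a1 → Enc E A2 a2 → Enc E A3 a3 → Enc E A4 a4 → Enc E A5 a5 →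
    Enc E (t A1 A2 A3 A4 A5) (v a1 a2 a3 a4 a5)

/-- A function of 6 variables with its enclosure. -/
structure Fn6 where
  t : ℕ → ℕ → ℕ → ℕ → ℕ → ℕ → ℕ
  v : ℝ → ℝ → ℝ → ℝ → ℝ → ℝ → ℝ
  enc : ∀ {E : Pt} {A1 A2 A3 A4 A5 A6 : ℕ} {a1 a2 a3 a4 a5 a6 : ℝ}, Enc E A1 a1 → Enc E A2 a2 → Enc E A3 a3 → Enc E A4 a4 → Enc E A5 a5 → Enc E A6 a6 →
    Enc E (t A1 A2 A3 A4 A5 A6) (v a1 a2 a3 a4 a5 a6)

/-- A function of 7 variables with its enclosure. -/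
structure Fn7 where
  t : ℕ → ℕ → ℕ → ℕ → ℕ → ℕ → ℕ → ℕ
  v : ℝ → ℝ → ℝ → ℝ → ℝ → ℝ → ℝ → ℝ
  enc : ∀ {E : Pt} {A1 A2 A3 A4 A5 A6 A7 : ℕ} {a1 a2 a3 a4 a5 a6 a7 : ℝ}, Enc E A1 a1 → Enc E A2 a2 → Enc E A3 a3 → Enc E A4 a4 → Enc E A5 a5 → Enc E A6 a6 → Enc E A7 a7 →
    Enc E (t A1 A2 A3 A4 A5 A6 A7) (v a1 a2 a3 a4 a5 a6 a7)

/-- A function of 8 variables with its enclosure. -/
structure Fn8 where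
  t : ℕ → ℕ → ℕ → ℕ → ℕ → ℕ → ℕ → ℕ → ℕ
  v : ℝ → ℝ → ℝ → ℝ → ℝ → ℝ → ℝ → ℝ → ℝ
  enc : ∀ {E : Pt} {A1 A2 A3 A4 A5 A6 A7 A8 : ℕ} {a1 a2 a3 a4 a5 a6 a7 a8 : ℝ}, Enc E A1 a1 → Enc E A2 a2 → Enc E A3 a3 → Enc E A4 a4 → Enc E A5 a5 → Enc E A6 a6 → Enc E A7 a7 → Enc E A8 a8 →
    Enc E (t A1 A2 A3 A4 A5 A6 A7 A8) (v a1 a2 a3 a4 a5 a6 a7 a8)

/-- A function of 9 variables with its enclosure. -/
structure Fn9 where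
  t : ℕ → ℕ → ℕ → ℕ → ℕ → ℕ → ℕ → ℕ → ℕ → ℕ
  v : ℝ → ℝ → ℝ → ℝ → ℝ → ℝ → ℝ → ℝ → ℝ → ℝ
  enc : ∀ {E : Pt} {A1 A2 A3 A4 A5 A6 A7 A8 A9 : ℕ} {a1 a2 a3 a4 a5 a6 a7 a8 a9 : ℝ}, Enc E A1 a1 → Enc E A2 a2 → Enc E A3 a3 → Enc E A4 a4 → Enc E A5 a5 → Enc E A6 a6 → Enc E A7 a7 → Enc E A8 a8 → Enc E A9 a9 →
    Enc E (t A1 A2 A3 A4 A5 A6 A7 A8 A9) (v a1 a2 a3 a4 a5 a6 a7 a8 a9)

/-- slopes; the kinds of the arguments are `v` -/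
structure Sl_v (F : Fn1) where
  s : ℕ → ℕ → ℕ → ℕ
  snd : ∀ {E : Pt} {N : ℝ} {A1 B1 D1 : ℕ} {a1 b1 : ℝ}, Pr E N A1 B1 D1 a1 b1 →
    Pr E N (F.t A1) (F.t B1) (s A1 B1 D1) (F.v a1) (F.v b1)

/-- slopes; the kinds of the arguments are `cv` -/
structure Sl_cv (F : Fn2) where
  s : ℕ → ℕ → ℕ → ℕ → ℕ
  snd : ∀ {E : Pt} {N : ℝ} {C1 A2 B2 D2 : ℕ} {c1 a2 b2 : ℝ}, Enc E C1 c1 → Pr E N A2 B2 D2 a2 b2 →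
    Pr E N (F.t C1 A2) (F.t C1 B2) (s C1 A2 B2 D2) (F.v c1 a2) (F.v c1 b2)

/-- slopes; the kinds of the arguments are `vc` -/
structure Sl_vc (F : Fn2) where
  s : ℕ → ℕ → ℕ → ℕ → ℕ
  snd : ∀ {E : Pt} {N : ℝ} {A1 B1 D1 C2 : ℕ} {a1 b1 c2 : ℝ}, Pr E N A1 B1 D1 a1 b1 → Enc E C2 c2 →
    Pr E N (F.t A1 C2) (F.t B1 C2) (s A1 B1 D1 C2) (F.v a1 c2) (F.v b1 c2)

/-- slopes; the kinds of the arguments are `vv` -/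
structure Sl_vv (F : Fn2) where
  s : ℕ → ℕ → ℕ → ℕ → ℕ → ℕ → ℕ
  snd : ∀ {E : Pt} {N : ℝ} {A1 B1 D1 A2 B2 D2 : ℕ} {a1 b1 a2 b2 : ℝ}, Pr E N A1 B1 D1 a1 b1 → Pr E N A2 B2 D2 a2 b2 →
    Pr E N (F.t A1 A2) (F.t B1 B2) (s A1 B1 D1 A2 B2 D2) (F.v a1 a2) (F.v b1 b2)

/-- slopes; the kinds of the arguments are `zv` -/
structure Sl_zv (F : Fn2) where
  s : ℕ → ℕ → ℕ → ℕ → ℕ → ℕ → ℕ
  snd : ∀ {E : Pt} {N : ℝ} {A1 B1 D1 A2 B2 D2 : ℕ} {a1 b1 a2 b2 : ℝ}, Pr E N A1 B1 D1 a1 b1 → b1 = 0 → Pr E N A2 B2 D2 a2 b2 →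
    Pr E N (F.t A1 A2) (F.t B1 B2) (s A1 B1 D1 A2 B2 D2) (F.v a1 a2) (F.v b1 b2)

/-- slopes; the kinds of the arguments are `cvc` -/
structure Sl_cvc (F : Fn3) where
  s : ℕ → ℕ → ℕ → ℕ → ℕ → ℕ
  snd : ∀ {E : Pt} {N : ℝ} {C1 A2 B2 D2 C3 : ℕ} {c1 a2 b2 c3 : ℝ}, Enc E C1 c1 → Pr E N A2 B2 D2 a2 b2 → Enc E C3 c3 →
    Pr E N (F.t C1 A2 C3) (F.t C1 B2 C3) (s C1 A2 B2 D2 C3) (F.v c1 a2 c3) (F.v c1 b2 c3)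

/-- slopes; the kinds of the arguments are `cvv` -/
structure Sl_cvv (F : Fn3) where
  s : ℕ → ℕ → ℕ → ℕ → ℕ → ℕ → ℕ → ℕ
  snd : ∀ {E : Pt} {N : ℝ} {C1 A2 B2 D2 A3 B3 D3 : ℕ} {c1 a2 b2 a3 b3 : ℝ}, Enc E C1 c1 → Pr E N A2 B2 D2 a2 b2 → Pr E N A3 B3 D3 a3 b3 →
    Pr E N (F.t C1 A2 A3) (F.t C1 B2 B3) (s C1 A2 B2 D2 A3 B3 D3) (F.v c1 a2 a3) (F.v c1 b2 b3)

/-- slopes; the kinds of the arguments are `vvc` -/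
structure Sl_vvc (F : Fn3) where
  s : ℕ → ℕ → ℕ → ℕ → ℕ → ℕ → ℕ → ℕ
  snd : ∀ {E : Pt} {N : ℝ} {A1 B1 D1 A2 B2 D2 C3 : ℕ} {a1 b1 a2 b2 c3 : ℝ}, Pr E N A1 B1 D1 a1 b1 → Pr E N A2 B2 D2 a2 b2 → Enc E C3 c3 →
    Pr E N (F.t A1 A2 C3) (F.t B1 B2 C3) (s A1 B1 D1 A2 B2 D2 C3) (F.v a1 a2 c3) (F.v b1 b2 c3)

/-- slopes; the kinds of the arguments are `vvv` -/
structure Sl_vvv (F : Fn3) where
  s : ℕ → ℕ → ℕ → ℕ → ℕ → ℕ → ℕ → ℕ → ℕ → ℕ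
  snd : ∀ {E : Pt} {N : ℝ} {A1 B1 D1 A2 B2 D2 A3 B3 D3 : ℕ} {a1 b1 a2 b2 a3 b3 : ℝ}, Pr E N A1 B1 D1 a1 b1 → Pr E N A2 B2 D2 a2 b2 → Pr E N A3 B3 D3 a3 b3 →
    Pr E N (F.t A1 A2 A3) (F.t B1 B2 B3) (s A1 B1 D1 A2 B2 D2 A3 B3 D3) (F.v a1 a2 a3) (F.v b1 b2 b3)

/-- slopes; the kinds of the arguments are `zvc` -/
structure Sl_zvc (F : Fn3) where
  s : ℕ → ℕ → ℕ → ℕ → ℕ → ℕ → ℕ → ℕ
  snd : ∀ {E : Pt} {N : ℝ} {A1 B1 D1 A2 B2 D2 C3 : ℕ} {a1 b1 a2 b2 c3 : ℝ}, Pr E N A1 B1 D1 a1 b1 → b1 = 0 → Pr E N A2 B2 D2 a2 b2 → Enc E C3 c3 →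
    Pr E N (F.t A1 A2 C3) (F.t B1 B2 C3) (s A1 B1 D1 A2 B2 D2 C3) (F.v a1 a2 c3) (F.v b1 b2 c3)

/-- slopes; the kinds of the arguments are `cvcv` -/
structure Sl_cvcv (F : Fn4) where
  s : ℕ → ℕ → ℕ → ℕ → ℕ → ℕ → ℕ → ℕ → ℕ
  snd : ∀ {E : Pt} {N : ℝ} {C1 A2 B2 D2 C3 A4 B4 D4 : ℕ} {c1 a2 b2 c3 a4 b4 : ℝ}, Enc E C1 c1 → Pr E N A2 B2 D2 a2 b2 → Enc E C3 c3 → Pr E N A4 B4 D4 a4 b4 →
    Pr E N (F.t C1 A2 C3 A4) (F.t C1 B2 C3 B4) (s C1 A2 B2 D2 C3 A4 B4 D4) (F.v c1 a2 c3 a4) (F.v c1 b2 c3 b4)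

/-- slopes; the kinds of the arguments are `cvvv` -/
structure Sl_cvvv (F : Fn4) where
  s : ℕ → ℕ → ℕ → ℕ → ℕ → ℕ → ℕ → ℕ → ℕ → ℕ → ℕ
  snd : ∀ {E : Pt} {N : ℝ} {C1 A2 B2 D2 A3 B3 D3 A4 B4 D4 : ℕ} {c1 a2 b2 a3 b3 a4 b4 : ℝ}, Enc E C1 c1 → Pr E N A2 B2 D2 a2 b2 → Pr E N A3 B3 D3 a3 b3 → Pr E N A4 B4 D4 a4 b4 →
    Pr E N (F.t C1 A2 A3 A4) (F.t C1 B2 B3 B4) (s C1 A2 B2 D2 A3 B3 D3 A4 B4 D4) (F.v c1 a2 a3 a4) (F.v c1 b2 b3 b4)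

/-- slopes; the kinds of the arguments are `vcvv` -/
structure Sl_vcvv (F : Fn4) where
  s : ℕ → ℕ → ℕ → ℕ → ℕ → ℕ → ℕ → ℕ → ℕ → ℕ → ℕ
  snd : ∀ {E : Pt} {N : ℝ} {A1 B1 D1 C2 A3 B3 D3 A4 B4 D4 : ℕ} {a1 b1 c2 a3 b3 a4 b4 : ℝ}, Pr E N A1 B1 D1 a1 b1 → Enc E C2 c2 → Pr E N A3 B3 D3 a3 b3 → Pr E N A4 B4 D4 a4 b4 →
    Pr E N (F.t A1 C2 A3 A4) (F.t B1 C2 B3 B4) (s A1 B1 D1 C2 A3 B3 D3 A4 B4 D4) (F.v a1 c2 a3 a4) (F.v b1 c2 b3 b4)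

/-- slopes; the kinds of the arguments are `vvcv` -/
structure Sl_vvcv (F : Fn4) where
  s : ℕ → ℕ → ℕ → ℕ → ℕ → ℕ → ℕ → ℕ → ℕ → ℕ → ℕ
  snd : ∀ {E : Pt} {N : ℝ} {A1 B1 D1 A2 B2 D2 C3 A4 B4 D4 : ℕ} {a1 b1 a2 b2 c3 a4 b4 : ℝ}, Pr E N A1 B1 D1 a1 b1 → Pr E N A2 B2 D2 a2 b2 → Enc E C3 c3 → Pr E N A4 B4 D4 a4 b4 →
    Pr E N (F.t A1 A2 C3 A4) (F.t B1 B2 C3 B4) (s A1 B1 D1 A2 B2 D2 C3 A4 B4 D4) (F.v a1 a2 c3 a4) (F.v b1 b2 c3 b4)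

/-- slopes; the kinds of the arguments are `vvvc` -/
structure Sl_vvvc (F : Fn4) where
  s : ℕ → ℕ → ℕ → ℕ → ℕ → ℕ → ℕ → ℕ → ℕ → ℕ → ℕ
  snd : ∀ {E : Pt} {N : ℝ} {A1 B1 D1 A2 B2 D2 A3 B3 D3 C4 : ℕ} {a1 b1 a2 b2 a3 b3 c4 : ℝ}, Pr E N A1 B1 D1 a1 b1 → Pr E N A2 B2 D2 a2 b2 → Pr E N A3 B3 D3 a3 b3 → Enc E C4 c4 →
    Pr E N (F.t A1 A2 A3 C4) (F.t B1 B2 B3 C4) (s A1 B1 D1 A2 B2 D2 A3 B3 D3 C4) (F.v a1 a2 a3 c4) (F.v b1 b2 b3 c4)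

/-- slopes; the kinds of the arguments are `vvvv` -/
structure Sl_vvvv (F : Fn4) where
  s : ℕ → ℕ → ℕ → ℕ → ℕ → ℕ → ℕ → ℕ → ℕ → ℕ → ℕ → ℕ → ℕ
  snd : ∀ {E : Pt} {N : ℝ} {A1 B1 D1 A2 B2 D2 A3 B3 D3 A4 B4 D4 : ℕ} {a1 b1 a2 b2 a3 b3 a4 b4 : ℝ}, Pr E N A1 B1 D1 a1 b1 → Pr E N A2 B2 D2 a2 b2 → Pr E N A3 B3 D3 a3 b3 → Pr E N A4 B4 D4 a4 b4 →
    Pr E N (F.t A1 A2 A3 A4) (F.t B1 B2 B3 B4) (s A1 B1 D1 A2 B2 D2 A3 B3 D3 A4 B4 D4) (F.v a1 a2 a3 a4) (F.v b1 b2 b3 b4)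

/-- slopes; the kinds of the arguments are `zvvc` -/
structure Sl_zvvc (F : Fn4) where
  s : ℕ → ℕ → ℕ → ℕ → ℕ → ℕ → ℕ → ℕ → ℕ → ℕ → ℕ
  snd : ∀ {E : Pt} {N : ℝ} {A1 B1 D1 A2 B2 D2 A3 B3 D3 C4 : ℕ} {a1 b1 a2 b2 a3 b3 c4 : ℝ}, Pr E N A1 B1 D1 a1 b1 → b1 = 0 → Pr E N A2 B2 D2 a2 b2 → Pr E N A3 B3 D3 a3 b3 → Enc E C4 c4 →
    Pr E N (F.t A1 A2 A3 C4) (F.t B1 B2 B3 C4) (s A1 B1 D1 A2 B2 D2 A3 B3 D3 C4) (F.v a1 a2 a3 c4) (F.v b1 b2 b3 c4)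

/-- slopes; the kinds of the arguments are `vvvvv` -/
structure Sl_vvvvv (F : Fn5) where
  s : ℕ → ℕ → ℕ → ℕ → ℕ → ℕ → ℕ → ℕ → ℕ → ℕ → ℕ → ℕ → ℕ → ℕ → ℕ → ℕ
  snd : ∀ {E : Pt} {N : ℝ} {A1 B1 D1 A2 B2 D2 A3 B3 D3 A4 B4 D4 A5 B5 D5 : ℕ} {a1 b1 a2 b2 a3 b3 a4 b4 a5 b5 : ℝ}, Pr E N A1 B1 D1 a1 b1 → Pr E N A2 B2 D2 a2 b2 → Pr E N A3 B3 D3 a3 b3 → Pr E N A4 B4 D4 a4 b4 → Pr E N A5 B5 D5 a5 b5 →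
    Pr E N (F.t A1 A2 A3 A4 A5) (F.t B1 B2 B3 B4 B5) (s A1 B1 D1 A2 B2 D2 A3 B3 D3 A4 B4 D4 A5 B5 D5) (F.v a1 a2 a3 a4 a5) (F.v b1 b2 b3 b4 b5)

/-- slopes; the kinds of the arguments are `vvvcvvv` -/
structure Sl_vvvcvvv (F : Fn7) where
  s : ℕ → ℕ → ℕ → ℕ → ℕ → ℕ → ℕ → ℕ → ℕ → ℕ → ℕ → ℕ → ℕ → ℕ → ℕ → ℕ → ℕ → ℕ → ℕ → ℕ
  snd : ∀ {E : Pt} {N : ℝ} {A1 B1 D1 A2 B2 D2 A3 B3 D3 C4 A5 B5 D5 A6 B6 D6 A7 B7 D7 : ℕ} {a1 b1 a2 b2 a3 b3 c4 a5 b5 a6 b6 a7 b7 : ℝ}, Pr E N A1 B1 D1 a1 b1 → Pr E N A2 B2 D2 a2 b2 → Pr E N A3 B3 D3 a3 b3 → Enc E C4 c4 → Pr E N A5 B5 D5 a5 b5 → Pr E N A6 B6 D6 a6 b6 → Pr E N A7 B7 D7 a7 b7 →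
    Pr E N (F.t A1 A2 A3 C4 A5 A6 A7) (F.t B1 B2 B3 C4 B5 B6 B7) (s A1 B1 D1 A2 B2 D2 A3 B3 D3 C4 A5 B5 D5 A6 B6 D6 A7 B7 D7) (F.v a1 a2 a3 c4 a5 a6 a7) (F.v b1 b2 b3 c4 b5 b6 b7)

/-- slopes; the kinds of the arguments are `cvvvvvvv` -/
structure Sl_cvvvvvvv (F : Fn8) where
  s : ℕ → ℕ → ℕ → ℕ → ℕ → ℕ → ℕ → ℕ → ℕ → ℕ → ℕ → ℕ → ℕ → ℕ → ℕ → ℕ → ℕ → ℕ → ℕ → ℕ → ℕ → ℕ → ℕ
  snd : ∀ {E : Pt} {N : ℝ} {C1 A2 B2 D2 A3 B3 D3 A4 B4 D4 A5 B5 D5 A6 B6 D6 A7 B7 D7 A8 B8 D8 : ℕ} {c1 a2 b2 a3 b3 a4 b4 a5 b5 a6 b6 a7 b7 a8 b8 : ℝ}, Enc E C1 c1 → Pr E N A2 B2 D2 a2 b2 → Pr E N A3 B3 D3 a3 b3 → Pr E N A4 B4 D4 a4 b4 → Pr E N A5 B5 D5 a5 b5 → Pr E N A6 B6 D6 a6 b6 → Pr E N A7 B7 D7 a7 b7 → Pr E N A8 B8 D8 a8 b8 →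
    Pr E N (F.t C1 A2 A3 A4 A5 A6 A7 A8) (F.t C1 B2 B3 B4 B5 B6 B7 B8) (s C1 A2 B2 D2 A3 B3 D3 A4 B4 D4 A5 B5 D5 A6 B6 D6 A7 B7 D7 A8 B8 D8) (F.v c1 a2 a3 a4 a5 a6 a7 a8) (F.v c1 b2 b3 b4 b5 b6 b7 b8)

end Pool.Agent.Strip051.PB
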