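import Pool.Agent.Strip051.LC.E0.Ch.Good

/-! # Small rests: the base points of the strips -/

set_option linter.unusedVariables false

namespace Pool.Agent.Strip051.LC.E0.Ch

open Pool.Agent.Strip051.PB BaseP

theorem kw1_val (w x : ℝ) : kw1.v w x = w / 2 + x * G.om w x := by
  simp only [kw1, om_val]

theorem kw2_val (w x : ℝ) : kw2.v w x = 3 / 2 * w + x * G.om w x := by
  simp only [kw2, om_val]; push_cast; ring

theorem kw3_val (w x : ℝ) : kw3.v w x = x * G.om w x - w / 2 := by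
  simp only [kw3, om_val]

section

variable {R : RowF} {w z x c L : ℝ}

/-- First type. -/
theorem sb_T1 (hx : 0 < x) (hx1 : x ≤ 4 / 125) (hw : 0 ≤ w) (hw1 : w ≤ 8)
    (hz : z = -(w / 2) - x * G.om w x) (hc : c - x * L = 1) (hl : R.l = lw) (hm : R.gm = gm2)
    (w0 : w ≠ 0) (hG : R.G w z = w + z - w * (1 / 2)) (hX : R.XI w z x = G.xi1 (w + z) x)
    (hU : R.U w z x = 0) (h12 : R.K12 w x = c * -G.dt w + L)
    (h23 : R.K23 w z x = c * -G.k1m z x - L / 2) (h13 : R.K13 w z x = c * G.k1p (w + z) x + L / 2) :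
    SBase R w z x := by
  have hq := qw_ge hx hx1 hw hw1
  have ho := om_mul hx hx1 hw hw1
  have ht : w + z = w / 2 - x * G.om w x := by rw [hz]; ring
  have e1 := E1_k1p hx hx1 hw hw1
  have e2 := E2_k1m hx hx1 hw hw1
  have e3 := E1_xi1 hx hx1 hw hw1
  have e4 := E1_h hx hx1 hw hw1
  rw [← ht] at e1 e3 e4
  rw [← hz] at e2
  have hW : 3 / 4 * w * w * (1 - x * G.dt w) / (1 + G.qw w x) = G.om w x * (1 - x * G.dt w) := by
    rw [div_eq_iff (by linarith)]
    linear_combination -(1 - x * G.dt w) * ho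
  set W := 3 / 4 * w * (1 - x * G.dt w) / (1 + G.qw w x) with hWd
  have hWw : w * W = G.om w x * (1 - x * G.dt w) := by
    rw [← hW, hWd]; ring
  have hD : R.DL w z x = 0 := by
    unfold RowF.DL
    rw [dlf_val, h12, h23, h13, e1, e2]
    ring
  refine ⟨hU, by rw [hG, ht]; ring, ?_, ?_, hD, Or.inl ?_⟩
  · unfold RowF.GM
    rw [hm, gm2_val, hD, h12, h23, e2]
    linear_combination (-w - z) * L + c * hWw + (-(c * G.dt w) + L) * hz + w * L / 2 +
      G.om w x * hc + (z - z) * L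
  · rw [bs_eq hX, e3, e4]
    linear_combination (-1 / 2) * ho
  · unfold RowF.L
    rw [hl]
    exact w0

/-- Second type. -/
theorem sb_T2 (hx : 0 < x) (hx1 : x ≤ 4 / 125) (hw : 0 ≤ w) (hw1 : w ≤ 8)
    (hz : z = -(3 / 2 * w) - x * G.om w x) (hc : c - x * L = 1) (hl : R.l = lnz)
    (hm : R.gm = gm3) (w0 : w ≠ 0) (hG : R.G w z = w + z - w * -(1 / 2))
    (hX : R.XI w z x = -G.xi1 (w + z) x)
    (hU : R.U w z x = 0) (h12 : R.K12 w x = c * -G.dt w + L)
    (h23 : R.K23 w z x = c * -G.k3m z x - 3 / 2 * L)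
    (h13 : R.K13 w z x = c * -G.k1m (w + z) x - L / 2) : SBase R w z x := by
  have hq := qw_ge hx hx1 hw hw1
  have ho := om_mul hx hx1 hw hw1
  have ht : w + z = -(w / 2) - x * G.om w x := by rw [hz]; ring
  have e1 := E3_k3m hx hx1 hw hw1
  have e2 := E2_k1m hx hx1 hw hw1
  have e3 := E2_xi1 hx hx1 hw hw1
  have e4 := E2_h hx hx1 hw hw1
  rw [← ht] at e2 e3 e4
  rw [← hz] at e1
  have hW : 3 / 4 * w * w * (1 - x * G.dt w) / (1 + G.qw w x) = G.om w x * (1 - x * G.dt w) := by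
    rw [div_eq_iff (by linarith)]
    linear_combination -(1 - x * G.dt w) * ho
  set W := 3 / 4 * w * (1 - x * G.dt w) / (1 + G.qw w x) with hWd
  have hWw : w * W = G.om w x * (1 - x * G.dt w) := by
    rw [← hW, hWd]; ring
  have hD : R.DL w z x = 0 := by
    unfold RowF.DL
    rw [dlf_val, h12, h23, h13, e1, e2]
    ring
  refine ⟨hU, by rw [hG, ht]; ring, ?_, ?_, hD, Or.inl ?_⟩
  · unfold RowF.GM
    rw [hm, gm3_val, hD, h12, h23, e1]
    linear_combination c * hWw + (-(c * G.dt w) + L) * hz + G.om w x * hc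
  · rw [bs_eq hX, e3, e4]
    linear_combination (-1 / 2) * ho
  · unfold RowF.L
    rw [hl]
    show -z ≠ 0
    rw [hz]
    have h1 : 0 < w := lt_of_le_of_ne hw w0.symm
    have h2 : 0 ≤ G.om w x := by unfold G.om; positivity
    have h3 : 0 ≤ x * G.om w x := by positivity
    intro h
    linarith

/-- Second type, above. -/
theorem sb_T3 (hx : 0 < x) (hx1 : x ≤ 4 / 125) (hw : 0 ≤ w) (hw1 : w ≤ 8)
    (hz : z = w / 2 - x * G.om w x) (hc : c - x * L = 1) (hl : R.l = lt)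
    (hm : R.gm = gq1) (hG : R.G w z = w + z - w * (3 / 2))
    (hX : R.XI w z x = G.xi3 (w + z) x)
    (hU : R.U w z x = 0) (h12 : R.K12 w x = c * -G.dt w + L)
    (h23 : R.K23 w z x = c * G.k1p z x + L / 2)
    (h13 : R.K13 w z x = c * G.k3p (w + z) x + 3 / 2 * L) : SBase R w z x := by
  have hq := qw_ge hx hx1 hw hw1
  have ho := om_mul hx hx1 hw hw1
  have ht : w + z = 3 / 2 * w - x * G.om w x := by rw [hz]; ring
  have e1 := E1_k1p hx hx1 hw hw1
  have e2 := E4_k3p hx hx1 hw hw1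
  have e3 := E4_xi3 hx hx1 hw hw1
  have e4 := E4_h hx hx1 hw hw1
  rw [← ht] at e2 e3 e4
  rw [← hz] at e1
  have hW : 3 / 4 * w * w * (1 - x * G.dt w) / (1 + G.qw w x) = G.om w x * (1 - x * G.dt w) := by
    rw [div_eq_iff (by linarith)]
    linear_combination -(1 - x * G.dt w) * ho
  set W := 3 / 4 * w * (1 - x * G.dt w) / (1 + G.qw w x) with hWd
  have hWw : w * W = G.om w x * (1 - x * G.dt w) := by
    rw [← hW, hWd]; ring
  have hD : R.DL w z x = 0 := by
    unfold RowF.DL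
    rw [dlf_val, h12, h23, h13, e1, e2]
    ring
  have hxo : x * (x * G.om w x) = 1 - G.qw w x := by
    have := xxom hx hx1 hw hw1
    linear_combination this
  refine ⟨hU, by rw [hG, ht]; ring, ?_, ?_, hD, ?_⟩
  · unfold RowF.GM
    rw [hm, gq1_val, h12, h23, e1]
    linear_combination c * hWw + (-(c * G.dt w) + L) * hz + G.om w x * hc
  · rw [bs_eq hX, e3, e4]
    linear_combination (-1 / 2) * ho
  · rcases eq_or_ne w 0 with h | h
    · right
      rw [h, om_0]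
    · left
      unfold RowF.L
      rw [hl]
      show w + z ≠ 0
      have h1 : 0 < w := lt_of_le_of_ne hw h.symm
      have h2 : G.om w x ≤ 3 / 4 * w ^ 2 := by
        rw [← ho]
        have : 0 ≤ G.om w x := by unfold G.om; positivity
        nlinarith
      have h3 : x * G.om w x ≤ 4 / 125 * (3 / 4 * w ^ 2) := by
        have : 0 ≤ G.om w x := by unfold G.om; positivity
        nlinarith
      intro h4
      rw [ht] at h4
      nlinarith

/-! ### The levels at the strips, near vertex -/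

theorem vb_T1 (hx : 0 < x) (hx1 : x ≤ 4 / 125) (hw : 0 ≤ w) (hw1 : w ≤ 8)
    (hz : z = -(w / 2) - x * G.om w x) (a b : ℝ) :
    G.mu x * ((3 + x) / 2 * (a + -b - (a - b)) -
      (x * w * a + (1 + 2 * x * w + x * z) * -b - (1 + x * (w + z)) * (a - b)) / 2) =
      G.mu x * ((G.qw w x - x * w / 2) * a + x * w * b) / 2 ∧
    G.mu x * (-((3 + x) / 2 * (a + -b - (a - b))) +
      ((1 + x * z) * -b + (2 * (1 + x * z) + x * w) * a - (1 + x * (w + z)) * (a - b)) / 2) =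
      G.mu x * ((G.qw w x - x * w / 2) * a + x * w * b) / 2 := by
  have e := E2_h hx hx1 hw hw1
  rw [← hz] at e
  constructor
  · linear_combination (G.mu x * a / 2) * e
  · linear_combination (G.mu x * a / 2) * e

theorem vb_T2 (hx : 0 < x) (hx1 : x ≤ 4 / 125) (hw : 0 ≤ w) (hw1 : w ≤ 8)
    (hz : z = -(3 / 2 * w) - x * G.om w x) (a b : ℝ) :
    G.mu x * ((3 + x) / 2 * (a + -(a + b) - -b) -
      (x * w * a + (1 + 2 * x * w + x * z) * -(a + b) - (1 + x * (w + z)) * -b) / 2) =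
      G.mu x * ((G.qw w x - x * w / 2) * a + x * w * b) / 2 ∧
    G.mu x * (-((3 + x) / 2 * (a + -(a + b) - -b)) +
      ((1 + x * z) * -(a + b) + (2 * (1 + x * z) + x * w) * a - (1 + x * (w + z)) * -b) / 2) =
      G.mu x * ((G.qw w x - x * w / 2) * a + x * w * b) / 2 := by
  have e := E3_h hx hx1 hw hw1
  rw [← hz] at e
  constructor
  · linear_combination (G.mu x * a / 2) * e
  · linear_combination (G.mu x * a / 2) * e

theorem vb_T3 (hx : 0 < x) (hx1 : x ≤ 4 / 125) (hw : 0 ≤ w) (hw1 : w ≤ 8)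
    (hz : z = w / 2 - x * G.om w x) (a b : ℝ) :
    G.mu x * ((3 + x) / 2 * (a + (a - b) - (2 * a - b)) -
      (x * w * a + (1 + 2 * x * w + x * z) * (a - b) - (1 + x * (w + z)) * (2 * a - b)) / 2) =
      G.mu x * ((G.qw w x - x * w / 2) * a + x * w * b) / 2 ∧
    G.mu x * (-((3 + x) / 2 * (a + (a - b) - (2 * a - b))) +
      ((1 + x * z) * (a - b) + (2 * (1 + x * z) + x * w) * a -
        (1 + x * (w + z)) * (2 * a - b)) / 2) =
      G.mu x * ((G.qw w x - x * w / 2) * a + x * w * b) / 2 := by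
  have e := E1_h hx hx1 hw hw1
  rw [← hz] at e
  constructor
  · linear_combination (G.mu x * a / 2) * e
  · linear_combination (G.mu x * a / 2) * e

end

/-! ### Bounds of the constants -/

section

variable {w x : ℝ}

theorem gs_bd (h0 : 0 < x) (h1 : x ≤ 4 / 125) : 9996 / 10000 ≤ G.gs x ∧ G.gs x ≤ 1 := by
  unfold G.gs
  constructor
  · apply Real.le_sqrt_of_sq_le
    nlinarith
  · rw [Real.sqrt_le_one]
    nlinarith

theorem ic_bd (h0 : 0 < x) (h1 : x ≤ 4 / 125) : 1 / 2 ≤ G.ic x ∧ G.ic x ≤ 5002 / 10000 := by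
  obtain ⟨g1, g2⟩ := gs_bd h0 h1
  unfold G.ic
  constructor
  · rw [div_le_div_iff₀ (by norm_num) (by linarith)]
    linarith
  · rw [div_le_div_iff₀ (by linarith) (by norm_num)]
    linarith

theorem ch_bd (h0 : 0 < x) (h1 : x ≤ 4 / 125) : 37 / 100 ≤ G.ch x ∧ G.ch x ≤ 376 / 1000 := by
  obtain ⟨g1, g2⟩ := gs_bd h0 h1
  obtain ⟨i1, i2⟩ := ic_bd h0 h1
  unfold G.ch
  constructor <;> nlinarith

theorem mm_bd (h0 : 0 < x) (h1 : x ≤ 4 / 125) : 41 / 100 ≤ G.mm x ∧ G.mm x ≤ 438 / 1000 := by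
  obtain ⟨g1, g2⟩ := gs_bd h0 h1
  obtain ⟨i1, i2⟩ := ic_bd h0 h1
  have hd : 1 / 2 ≤ (3 / 2 - G.gs x) / G.gs x ∧ (3 / 2 - G.gs x) / G.gs x ≤ 501 / 1000 := by
    constructor
    · rw [div_le_div_iff₀ (by norm_num) (by linarith)]
      linarith
    · rw [div_le_div_iff₀ (by linarith) (by norm_num)]
      linarith
  have e : 3 / 2 * (3 / 2 - G.gs x) / G.gs x = 3 / 2 * ((3 / 2 - G.gs x) / G.gs x) := by ring
  have hxi : 0 ≤ x * G.ic x := by positivity
  have hxi2 : x * G.ic x ≤ 4 / 125 * (5002 / 10000) := mul_le_mul h1 i2 (by linarith) (by norm_num)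
  unfold G.mm
  rw [e]
  obtain ⟨d1, d2⟩ := hd
  constructor <;> nlinarith

theorem rf_bd (h0 : 0 < x) (h1 : x ≤ 4 / 125) : |G.rf x| ≤ 1 / 4 := by
  obtain ⟨g1, g2⟩ := gs_bd h0 h1
  obtain ⟨c1, c2⟩ := ch_bd h0 h1
  obtain ⟨m1, m2⟩ := mm_bd h0 h1
  have hq : 1 ≤ G.gs x * G.mm x / G.ch x ∧ G.gs x * G.mm x / G.ch x ≤ 1184 / 1000 := by
    constructor
    · rw [le_div_iff₀ (by linarith)]
      nlinarith
    · rw [div_le_iff₀ (by linarith)]
      nlinarith
  have h2 : 0 ≤ 3 / 4 * x ^ 2 / G.gs x ∧ 3 / 4 * x ^ 2 / G.gs x ≤ 1 / 1000 := by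
    have : 0 < G.gs x := by linarith
    constructor
    · positivity
    · rw [div_le_iff₀ this]
      nlinarith
  unfold G.rf
  obtain ⟨q1, q2⟩ := hq
  obtain ⟨q3, q4⟩ := h2
  rw [abs_le]
  constructor <;> linarith

theorem gh_nn (hw : 0 ≤ w) : 0 ≤ G.gh w := by
  unfold G.gh G.cse
  split_ifs <;> linarith

theorem xb_nn {v : ℝ} (hv : 0 ≤ v) : 0 ≤ G.xb v := by
  unfold G.xb G.cse
  split_ifs with h1 h2
  · positivity
  · linarith
  · exact le_rfl

theorem xa_gh (h0 : 0 < x) (h1 : x ≤ 4 / 125) (hw : 0 ≤ w) : 3 / 10 * G.gh w ≤ G.xa w x := by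
  obtain ⟨c1, c2⟩ := ch_bd h0 h1
  obtain ⟨m1, m2⟩ := mm_bd h0 h1
  unfold G.gh G.xa G.cse G.q1
  split_ifs with h2 h3 h4 h5 h6 h7
  · have : 0 ≤ (G.mm x - G.ch x) * w := mul_nonneg (by linarith) hw
    nlinarith
  · nlinarith
  · nlinarith
  · linarith
  · linarith
  · linarith
  · linarith

/-- the base value at a strip is at least the cost -/
theorem vb_ge (hx : 0 < x) (hx1 : x ≤ 4 / 125) (hw : 0 ≤ w) (hw1 : w ≤ 6) :
    G.ep x * G.lb x * |r2a.v w x| ≤
      G.mu x * ((G.qw w x - x * w / 2) * G.xa w x + x * w * G.xb (w / 2)) / 2 := by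
  obtain ⟨g1, g2⟩ := gs_bd hx hx1
  obtain ⟨c1, c2⟩ := ch_bd hx hx1
  have he := ep_pos hx hx1
  have hr := rf_bd hx hx1
  have hgh := gh_nn hw
  have hxa := xa_gh hx hx1 hw
  have hxb := xb_nn (v := w / 2) (by linarith)
  have hq := qw_ge hx hx1 hw (by linarith : w ≤ 8)
  have hmu : 0 < G.mu x := by
    unfold G.mu
    have : 0 < 2 * G.gs x + 3 := by linarith
    positivity
  have e : G.ep x * G.lb x = G.ch x * G.mu x := by
    unfold G.lb
    field_simp
  have hxw : x * w ≤ 4 / 125 * 6 := mul_le_mul hx1 hw1 hw (by norm_num)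
  have hxw0 : 0 ≤ x * w := mul_nonneg hx.le hw
  rw [e, r2a_val, abs_mul, abs_of_nonneg hgh]
  have h3 : G.ch x * (|G.rf x| * G.gh w) ≤ 1 / 10 * G.gh w := by
    have h4 : G.ch x * |G.rf x| ≤ 376 / 1000 * (1 / 4) :=
      mul_le_mul c2 hr (abs_nonneg _) (by norm_num)
    nlinarith
  have h5 : 1 / 10 * G.gh w ≤ ((G.qw w x - x * w / 2) * G.xa w x + x * w * G.xb (w / 2)) / 2 := by
    have h6 : 0 ≤ x * w * G.xb (w / 2) := by positivity
    have h7 : 0 ≤ G.xa w x := by linarith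
    have h8 : 7 / 10 * G.xa w x ≤ (G.qw w x - x * w / 2) * G.xa w x :=
      mul_le_mul_of_nonneg_right (by linarith) h7
    linarith
  nlinarith

/-! ### The corner -/

theorem cb_of {R : RowF} (hm : R.gm = gq1 ∨ R.gm = gm2 ∨ R.gm = gm3)
    (hG : R.G 0 0 = 0) (hU : R.U 0 0 x = 0)
    (hK : R.K12 0 x + R.K23 0 0 x - R.K13 0 0 x = 0)
    (h1 : R.V1 0 0 x = 0) (h2 : R.V2 0 0 x = 0) : CBase R x := by
  have hD : R.DL 0 0 x = 0 := by
    unfold RowF.DL
    rw [dlf_val]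
    exact hK
  have hM : R.GM 0 0 x = 0 := by
    unfold RowF.GM
    rcases hm with h | h | h <;> rw [h]
    · rw [gq1_val]; ring
    · rw [gm2_val]; ring
    · rw [gm3_val]; ring
  have hB : R.BS 0 0 x = 0 := by
    unfold RowF.BS
    rw [bsf_val, om_0]
    ring
  refine ⟨hU, hD, ?_, ?_, h1, h2⟩
  · unfold RowF.GP
    rw [gpf_val, hG, hM]
    ring
  · unfold RowF.BN
    rw [bnf_val, hG, hM, hB]
    ring

end

end Pool.Agent.Strip051.LC.E0.Ch
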