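import Pool.Agent.Strip051.LC.E0.Ch.Te
import Pool.Agent.Strip051.LC.E0.Ch.Sb
import Pool.Agent.Strip051.LC.E0.BaseV

/-! # Small rests: a chart at one point -/

set_option linter.unusedVariables false

namespace Pool.Agent.Strip051.LC.E0.Ch

open Pool.Agent.Strip051.PB BaseP

theorem tree_pt {P1 W1 P2 W2 P3 W3 : ℕ} {f : ℕ → ℕ → ℕ → ℕ → Bool}
    (T : Tree P1 W1 P2 W2 P3 W3 f) {p q x : ℝ} {C : Prop} (hp : (P1 : ℝ) / S ≤ p)
    (hp' : p ≤ ((P1 : ℝ) + W1) / S) (hq : (P2 : ℝ) / S ≤ q) (hq' : q ≤ ((P2 : ℝ) + W2) / S)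
    (hx : (P3 : ℝ) / S ≤ x) (hx' : x ≤ ((P3 : ℝ) + W3) / S)
    (hf : ∀ {E : Pt} {h A B X : ℕ}, Enc E A p → Enc E B q → Enc E X x → f h A B X = true → C) :
    C := by
  refine Tree.sound (Q := fun p' q' x' => p' = p → q' = q → x' = x → C) T ?_ hp hp' hq hq' hx hx'
    rfl rfl rfl
  intro E h A B X p' q' x' hA hB hX ht e1 e2 e3
  subst e1 e2 e3
  exact hf hA hB hX ht

theorem S_pos' : (0 : ℝ) < (S : ℕ) := by unfold S; norm_num

theorem blo {P : ℕ} {m p : ℝ} (h : m ≤ p) (hP : (P : ℝ) ≤ m * (S : ℕ)) : (P : ℝ) / (S : ℕ) ≤ p := by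
  rw [div_le_iff₀ S_pos']
  have := mul_le_mul_of_nonneg_right h S_pos'.le
  linarith

theorem bhi {P W : ℕ} {m p : ℝ} (h : p ≤ m) (hP : m * (S : ℕ) ≤ (P : ℝ) + W) :
    p ≤ ((P : ℝ) + W) / (S : ℕ) := by
  rw [le_div_iff₀ S_pos']
  have := mul_le_mul_of_nonneg_right h S_pos'.le
  linarith

section

variable {w z x : ℝ}

theorem om_le (hx : 0 < x) (hw : 0 ≤ w) : G.om w x ≤ 3 / 4 * w ^ 2 := by
  unfold G.om
  have h1 : 0 ≤ G.qw w x := Real.sqrt_nonneg _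
  rw [div_le_iff₀ (by linarith)]
  have : 0 ≤ w ^ 2 * G.qw w x := by positivity
  linarith

theorem om_nn (hx : 0 < x) (hw : 0 ≤ w) : 0 ≤ x * G.om w x := by
  have h1 : 0 ≤ G.qw w x := Real.sqrt_nonneg _
  unfold G.om
  positivity

/-- `x om` is small next to the corner. -/
theorem om_sm (hx : 0 < x) (hx1 : x ≤ 4 / 125) (hw : 0 ≤ w) (hw1 : w ≤ 1 / 4) :
    x * G.om w x ≤ w / 50 := by
  have h1 := om_le hx hw
  have h2 : G.om w x ≤ 3 / 16 * w := by nlinarith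
  have h3 : x * G.om w x ≤ x * (3 / 16 * w) := mul_le_mul_of_nonneg_left h2 hx.le
  nlinarith

theorem ndec {P : Prop} (h : Nat.beq 0 1 = true) : P := absurd h (by decide)

theorem nol {P : Prop} {k A Z X : ℕ} (h : noL k A Z X = true) : P := absurd h Bool.false_ne_true

theorem noc {P : Prop} {a b c d e f g : ℕ} (h : noC a b c d e f g = true) : P :=
  absurd h Bool.false_ne_true

end

end Pool.Agent.Strip051.LC.E0.Ch
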