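import Pool.Agent.Strip051.LC.E0.Ch.Fns
import Pool.Agent.Strip051.LC.E0.Def

/-! # Small rests: the tests of a leaf -/

namespace Pool.Agent.Strip051.LC.E0.Ch

open Pool.Agent.Strip051.PB

attribute [local irreducible] padd psub pneg pmul psq pinv psqrt psqrtg pabs pps pmax pmin pphi plam
  pcase phf pnat prat pscale pnorm pdc pnc pone ppos pnn Enc

/-! ### Tests -/

/-- the test inside one cell for one sign of the defect -/
noncomputable def inS (X L lf ln BN DS GP V1 V2 : ℕ) : Bool :=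
  frc (finf.t X L lf BN DS GP) fun F =>
    band (pnn (padd F V1)) (band (pnn (padd F V2)) (pnn (cinf.t X ln DS GP)))

/-- the crude test for one sign of the defect -/
noncomputable def crS (X BN DS V1 V2 : ℕ) : Bool :=
  frc (fcrf.t X BN DS) fun F => band (pnn (padd F V1)) (pnn (padd F V2))

/-- the test beyond one cell for one sign of the defect -/
noncomputable def ouS (X L lf ln F DS GP V1 V2 : ℕ) : Bool :=
  frc F fun F => band (pnn (padd F V1)) (band (pnn (padd F V2))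
    (band (pnn (couf.t X L lf DS GP)) (ppos (cinf.t X ln DS GP))))

/-- `s = 0`: the defect is not positive, `s = 1`: not negative, else both signs are tested -/
noncomputable def sgS (s DS : ℕ) (n p : Bool) : Bool :=
  Bool.rec (motive := fun _ => Bool) (Bool.rec (motive := fun _ => Bool) (band n p)
    (band (pnn DS) p) (Nat.beq s 1)) (band (pnn (pneg DS)) n) (Nat.beq s 0)

/-- kind `k = 0`: inside one cell, `1`: crude, else beyond one cell; `g`: the sign of `GP` is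
known -/
noncomputable def tst (g : Bool) (k s X L A B BN FO DS GP V1 V2 : ℕ) : Bool :=
  Bool.rec (motive := fun _ => Bool) (Bool.rec (motive := fun _ => Bool)
    (sgS s DS (ouS X L B A FO (pneg DS) GP V1 V2) (ouS X L A B FO DS GP V1 V2))
    (band (sgS s DS (crS X BN (pneg DS) V1 V2) (crS X BN DS V1 V2))
      (Bool.rec (motive := fun _ => Bool) (pnn GP) true g))
    (Nat.beq k 1))
    (sgS s DS (inS X L B A BN (pneg DS) GP V1 V2) (inS X L A B BN DS GP V1 V2)) (Nat.beq k 0)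

/-! ### What the tests give -/

def InR (x l lf ln bn ds gp v1 v2 : ℝ) : Prop :=
  0 ≤ finf.v x l lf bn ds gp + v1 ∧ 0 ≤ finf.v x l lf bn ds gp + v2 ∧ 0 ≤ cinf.v x ln ds gp

def CrR (x bn ds v1 v2 : ℝ) : Prop := 0 ≤ fcrf.v x bn ds + v1 ∧ 0 ≤ fcrf.v x bn ds + v2

def OuR (x l lf ln f ds gp v1 v2 : ℝ) : Prop :=
  0 ≤ f + v1 ∧ 0 ≤ f + v2 ∧ 0 ≤ couf.v x l lf ds gp ∧ 0 < cinf.v x ln ds gp

/-- The alternatives. -/
def Res (g : Bool) (x l a b bn fo ds gp v1 v2 : ℝ) : Prop :=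
  ((ds ≤ 0 ∧ InR x l b a bn (-ds) gp v1 v2) ∨ (0 ≤ ds ∧ InR x l a b bn ds gp v1 v2)) ∨
    (((ds ≤ 0 ∧ CrR x bn (-ds) v1 v2) ∨ (0 ≤ ds ∧ CrR x bn ds v1 v2)) ∧ (g = false → 0 ≤ gp)) ∨
    ((ds ≤ 0 ∧ OuR x l b a fo (-ds) gp v1 v2) ∨ (0 ≤ ds ∧ OuR x l a b fo ds gp v1 v2))

section

variable {E : Pt} {X L A B BN FO DS GP V1 V2 : ℕ} {x l a b bn fo ds gp v1 v2 : ℝ}

theorem inS_sound (hx : Enc E X x) (hl : Enc E L l) (ha : Enc E A a) (hb : Enc E B b)
    (hn : Enc E BN bn) (hd : Enc E DS ds) (hg : Enc E GP gp) (h1 : Enc E V1 v1) (h2 : Enc E V2 v2)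
    (h : inS X L A B BN DS GP V1 V2 = true) : InR x l a b bn ds gp v1 v2 := by
  unfold inS at h
  rw [frc_eq] at h
  obtain ⟨t1, h⟩ := band_true h
  obtain ⟨t2, t3⟩ := band_true h
  have k := finf.enc hx hl ha hn hd hg
  exact ⟨pnn_sound (enc_add k h1) t1, pnn_sound (enc_add k h2) t2,
    pnn_sound (cinf.enc hx hb hd hg) t3⟩

theorem crS_sound (hx : Enc E X x) (hn : Enc E BN bn) (hd : Enc E DS ds) (h1 : Enc E V1 v1)
    (h2 : Enc E V2 v2) (h : crS X BN DS V1 V2 = true) : CrR x bn ds v1 v2 := by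
  unfold crS at h
  rw [frc_eq] at h
  obtain ⟨t1, t2⟩ := band_true h
  have k := fcrf.enc hx hn hd
  exact ⟨pnn_sound (enc_add k h1) t1, pnn_sound (enc_add k h2) t2⟩

theorem ouS_sound (hx : Enc E X x) (hl : Enc E L l) (ha : Enc E A a) (hb : Enc E B b)
    (hf : Enc E FO fo) (hd : Enc E DS ds) (hg : Enc E GP gp) (h1 : Enc E V1 v1)
    (h2 : Enc E V2 v2) (h : ouS X L A B FO DS GP V1 V2 = true) :
    OuR x l a b fo ds gp v1 v2 := by
  unfold ouS at h
  rw [frc_eq] at h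
  obtain ⟨t1, h⟩ := band_true h
  obtain ⟨t2, h⟩ := band_true h
  obtain ⟨t3, t4⟩ := band_true h
  exact ⟨pnn_sound (enc_add hf h1) t1, pnn_sound (enc_add hf h2) t2,
    pnn_sound (couf.enc hx hl ha hd hg) t3, ppos_sound (cinf.enc hx hb hd hg) t4⟩

theorem sgS_sound {s : ℕ} {n p : Bool} {P Q : Prop} (hd : Enc E DS ds)
    (hn : n = true → P) (hp : p = true → Q) (h : sgS s DS n p = true) :
    (ds ≤ 0 ∧ P) ∨ (0 ≤ ds ∧ Q) := by
  unfold sgS at h
  rcases e0 : Nat.beq s 0 with _ | _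
  · rw [e0] at h
    rcases e1 : Nat.beq s 1 with _ | _
    · rw [e1] at h
      obtain ⟨t1, t2⟩ := band_true h
      rcases le_total ds 0 with h3 | h3
      · exact Or.inl ⟨h3, hn t1⟩
      · exact Or.inr ⟨h3, hp t2⟩
    · rw [e1] at h
      obtain ⟨t1, t2⟩ := band_true h
      exact Or.inr ⟨pnn_sound hd t1, hp t2⟩
  · rw [e0] at h
    obtain ⟨t1, t2⟩ := band_true h
    have := pnn_sound (enc_neg hd) t1
    exact Or.inl ⟨by linarith, hn t2⟩

theorem tst_sound {g : Bool} {k s : ℕ} (hx : Enc E X x) (hl : Enc E L l) (ha : Enc E A a)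
    (hb : Enc E B b) (hn : Enc E BN bn) (hf : Enc E FO fo) (hd : Enc E DS ds) (hg : Enc E GP gp)
    (h1 : Enc E V1 v1) (h2 : Enc E V2 v2) (h : tst g k s X L A B BN FO DS GP V1 V2 = true) :
    Res g x l a b bn fo ds gp v1 v2 := by
  unfold tst at h
  rcases e0 : Nat.beq k 0 with _ | _
  · rw [e0] at h
    rcases e1 : Nat.beq k 1 with _ | _
    · rw [e1] at h
      exact Or.inr (Or.inr (sgS_sound hd (ouS_sound hx hl hb ha hf (enc_neg hd) hg h1 h2)
        (ouS_sound hx hl ha hb hf hd hg h1 h2) h))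
    · rw [e1] at h
      obtain ⟨t1, t2⟩ := band_true h
      refine Or.inr (Or.inl ⟨sgS_sound hd (crS_sound hx hn (enc_neg hd) h1 h2)
        (crS_sound hx hn hd h1 h2) t1, fun e => ?_⟩)
      rw [e] at t2
      exact pnn_sound hg t2
  · rw [e0] at h
    exact Or.inl (sgS_sound hd (inS_sound hx hl hb ha hn (enc_neg hd) hg h1 h2)
      (inS_sound hx hl ha hb hn hd hg h1 h2) h)

end

end Pool.Agent.Strip051.LC.E0.Ch
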