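import Pool.Agent.Strip051.LC.E0.Ch.Sls
import Pool.Agent.Strip051.LC.E0.Ch.Tst

/-! # Small rests: the functions of a row, values and pairs of values -/

set_option linter.unusedVariables false

namespace Pool.Agent.Strip051.LC.E0.Ch

open Pool.Agent.Strip051.PB

attribute [local irreducible] padd psub pneg pmul psq pinv psqrt psqrtg pabs pps pmax pmin pphi plam
  pcase phf pnat prat pscale pnorm pdc pnc pone ppos pnn Enc

/-- The functions of a row: `gf w t`, `xi w z x`, `u w z x`, `k12 w x`, `k23 u z t x`, .. -/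
structure RowF where
  gf : Fn2
  xi : Fn3
  u : Fn3
  k12 : Fn2
  k23 : Fn4
  k13 : Fn4
  c12 : Fn2
  c23 : Fn4
  c13 : Fn4
  v1 : Fn7
  v2 : Fn7
  l : Fn3
  a : Fn3
  b : Fn3
  gm : Fn5

namespace RowF

variable (R : RowF)

noncomputable def XI (w z x : ℝ) : ℝ := R.xi.v w z x
noncomputable def U (w z x : ℝ) : ℝ := R.u.v w z x
noncomputable def K12 (w x : ℝ) : ℝ := R.k12.v w x
noncomputable def K23 (w z x : ℝ) : ℝ := R.k23.v (R.U w z x) z (w + z) x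
noncomputable def K13 (w z x : ℝ) : ℝ := R.k13.v (R.U w z x) z (w + z) x
noncomputable def C12 (w x : ℝ) : ℝ := R.c12.v w x
noncomputable def C23 (w z x : ℝ) : ℝ := R.c23.v (R.U w z x) z (w + z) x
noncomputable def C13 (w z x : ℝ) : ℝ := R.c13.v (R.U w z x) z (w + z) x
noncomputable def DL (w z x : ℝ) : ℝ := dlf.v (R.K12 w x) (R.K23 w z x) (R.K13 w z x)
noncomputable def G (w z : ℝ) : ℝ := R.gf.v w (w + z)
noncomputable def L (w z : ℝ) : ℝ := R.l.v w z (w + z)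
noncomputable def A (w z : ℝ) : ℝ := R.a.v w z (w + z)
noncomputable def B (w z : ℝ) : ℝ := R.b.v w z (w + z)
noncomputable def GM (w z x : ℝ) : ℝ := R.gm.v w z (R.K12 w x) (R.K23 w z x) (R.DL w z x)
noncomputable def DS (w z x : ℝ) : ℝ := dsf.v (R.DL w z x) (shf.v x (R.L w z))
noncomputable def BS (w z x : ℝ) : ℝ := bsf.v w (w + z) x (R.XI w z x)
noncomputable def GP (w z x : ℝ) : ℝ := gpf.v x (R.G w z) (R.GM w z x)
noncomputable def V1 (w z x : ℝ) : ℝ := R.v1.v w z (w + z) x (R.C12 w x) (R.C23 w z x) (R.C13 w z x)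
noncomputable def V2 (w z x : ℝ) : ℝ := R.v2.v w z (w + z) x (R.C12 w x) (R.C23 w z x) (R.C13 w z x)
noncomputable def BN (w z x : ℝ) : ℝ := bnf.v x (R.G w z) (R.BS w z x) (R.GM w z x)
noncomputable def BR (w z x : ℝ) : ℝ :=
  brf.v x (R.L w z) (R.A w z) (R.B w z) (R.G w z) (R.GM w z x) (R.DS w z x) (R.BS w z x)

end RowF

/-! ### Values -/

/-- the values of a row, handed to `f` -/
noncomputable def dval (R : RowF) (W Z X : ℕ)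
    (f : (XI U G L A B GM DS BS GP V1 V2 BN : ℕ) → Bool) : Bool :=
  frc (pnorm (padd W Z)) fun T => frc (R.xi.t W Z X) fun XI => frc (R.u.t W Z X) fun U =>
  frc (R.k12.t W X) fun K12 => frc (R.k23.t U Z T X) fun K23 => frc (R.k13.t U Z T X) fun K13 =>
  frc (dlf.t K12 K23 K13) fun DL => frc (R.gf.t W T) fun G => frc (R.l.t W Z T) fun L =>
  frc (R.a.t W Z T) fun A => frc (R.b.t W Z T) fun B =>
  frc (R.gm.t W Z K12 K23 DL) fun GM => frc (dsf.t DL (shf.t X L)) fun DS =>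
  frc (bsf.t W T X XI) fun BS => frc (gpf.t X G GM) fun GP =>
  frc (R.c12.t W X) fun C12 => frc (R.c23.t U Z T X) fun C23 => frc (R.c13.t U Z T X) fun C13 =>
  frc (R.v1.t W Z T X C12 C23 C13) fun V1 => frc (R.v2.t W Z T X C12 C23 C13) fun V2 =>
  frc (bnf.t X G BS GM) fun BN => f XI U G L A B GM DS BS GP V1 V2 BN

/-- what the values are -/
structure DF (E : Pt) (R : RowF) (w z x : ℝ) (XI U G L A B GM DS BS GP V1 V2 BN : ℕ) : Prop where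
  xi : Enc E XI (R.XI w z x)
  u : Enc E U (R.U w z x)
  g : Enc E G (R.G w z)
  l : Enc E L (R.L w z)
  a : Enc E A (R.A w z)
  b : Enc E B (R.B w z)
  gm : Enc E GM (R.GM w z x)
  ds : Enc E DS (R.DS w z x)
  bs : Enc E BS (R.BS w z x)
  gp : Enc E GP (R.GP w z x)
  v1 : Enc E V1 (R.V1 w z x)
  v2 : Enc E V2 (R.V2 w z x)
  bn : Enc E BN (R.BN w z x)

theorem dval_sound {E : Pt} {R : RowF} {W Z X : ℕ} {w z x : ℝ}
    {f : (XI U G L A B GM DS BS GP V1 V2 BN : ℕ) → Bool} (hw : Enc E W w) (hz : Enc E Z z)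
    (hx : Enc E X x) (h : dval R W Z X f = true) :
    ∃ XI U G L A B GM DS BS GP V1 V2 BN : ℕ, f XI U G L A B GM DS BS GP V1 V2 BN = true ∧
      DF E R w z x XI U G L A B GM DS BS GP V1 V2 BN := by
  unfold dval at h
  simp only [frc_eq] at h
  have hT : Enc E (pnorm (padd W Z)) (w + z) := enc_norm (enc_add hw hz)
  have hXI := R.xi.enc hw hz hx
  have hU := R.u.enc hw hz hx
  have h12 := R.k12.enc hw hx
  have h23 := R.k23.enc hU hz hT hx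
  have h13 := R.k13.enc hU hz hT hx
  have hD := dlf.enc h12 h23 h13
  have hG := R.gf.enc hw hT
  have hL := R.l.enc hw hz hT
  have hA := R.a.enc hw hz hT
  have hB := R.b.enc hw hz hT
  have hM := R.gm.enc hw hz h12 h23 hD
  have hDS := dsf.enc hD (shf.enc hx hL)
  have hBS := bsf.enc hw hT hx hXI
  have hGP := gpf.enc hx hG hM
  have c12 := R.c12.enc hw hx
  have c23 := R.c23.enc hU hz hT hx
  have c13 := R.c13.enc hU hz hT hx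
  exact ⟨_, _, _, _, _, _, _, _, _, _, _, _, _, h, hXI, hU, hG, hL, hA, hB, hM, hDS, hBS, hGP,
    R.v1.enc hw hz hT hx c12 c23 c13, R.v2.enc hw hz hT hx c12 c23 c13, bnf.enc hx hG hBS hM⟩

/-! ### Pairs of values -/

/-- slopes of a function of `u`, `z`, `t`, `x`; for `b = true` the second value of `u` is zero -/
structure SlU (q : Bool) (F : Fn4) where
  s : ℕ → ℕ → ℕ → ℕ → ℕ → ℕ → ℕ → ℕ → ℕ → ℕ → ℕ
  snd : ∀ {E : Pt} {N : ℝ} {A1 B1 D1 A2 B2 D2 A3 B3 D3 C4 : ℕ} {a1 b1 a2 b2 a3 b3 c4 : ℝ},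
    Pr E N A1 B1 D1 a1 b1 → (q = true → b1 = 0) → Pr E N A2 B2 D2 a2 b2 → Pr E N A3 B3 D3 a3 b3 →
      Enc E C4 c4 → Pr E N (F.t A1 A2 A3 C4) (F.t B1 B2 B3 C4)
        (s A1 B1 D1 A2 B2 D2 A3 B3 D3 C4) (F.v a1 a2 a3 c4) (F.v b1 b2 b3 c4)

noncomputable def slz {F : Fn4} (S : Sl_zvvc F) : SlU true F :=
  ⟨S.s, fun h1 z h2 h3 h4 => S.snd h1 (z rfl) h2 h3 h4⟩

noncomputable def slv {F : Fn4} (S : Sl_vvvc F) : SlU false F :=
  ⟨S.s, fun h1 _ h2 h3 h4 => S.snd h1 h2 h3 h4⟩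

/-- The slopes of the functions of a row. -/
structure RowS (R : RowF) (q : Bool) where
  gf : Sl_vv R.gf
  xi : Sl_vvc R.xi
  u : Sl_vvc R.u
  k12 : Sl_vc R.k12
  k23 : SlU q R.k23
  k13 : SlU q R.k13
  c12 : Sl_vc R.c12
  c23 : SlU q R.c23
  c13 : SlU q R.c13
  v1 : Sl_vvvcvvv R.v1
  v2 : Sl_vvvcvvv R.v2
  l : Sl_vvv R.l
  a : Sl_vvv R.a
  b : Sl_vvv R.b
  gm : Sl_vvvvv R.gm

/-- the pairs of a row, handed to `f` -/
noncomputable def pval {q : Bool} {R : RowF} (S : RowS R q) (dz : Bool)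
    (Wa Wb Wd Za Zb Zd X : ℕ)
    (f : (Ta Tb Td Ua Ub Ud Ga Gb Gd La Lb Ld Aa Ab Ad Ba Bb Bd Ma Mb Md Da Db Dd Sa Sb Sd
      Pa Pb Pd V1a V1b V1d V2a V2b V2d Na Nb Nd : ℕ) → Bool) : Bool :=
  frc (pnorm (padd Wa Za)) fun Ta => frc (pnorm (padd Wb Zb)) fun Tb =>
  frc (pnorm (padd Wd Zd)) fun Td =>
  frc (R.xi.t Wa Za X) fun Xa => frc (R.xi.t Wb Zb X) fun Xb =>
  frc (S.xi.s Wa Wb Wd Za Zb Zd X) fun Xd =>
  frc (R.u.t Wa Za X) fun Ua => frc (R.u.t Wb Zb X) fun Ub =>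
  frc (S.u.s Wa Wb Wd Za Zb Zd X) fun Ud =>
  frc (R.k12.t Wa X) fun K12a => frc (R.k12.t Wb X) fun K12b =>
  frc (S.k12.s Wa Wb Wd X) fun K12d =>
  frc (R.k23.t Ua Za Ta X) fun K23a => frc (R.k23.t Ub Zb Tb X) fun K23b =>
  frc (S.k23.s Ua Ub Ud Za Zb Zd Ta Tb Td X) fun K23d =>
  frc (R.k13.t Ua Za Ta X) fun K13a => frc (R.k13.t Ub Zb Tb X) fun K13b =>
  frc (S.k13.s Ua Ub Ud Za Zb Zd Ta Tb Td X) fun K13d =>
  frc (dlf.t K12a K23a K13a) fun DLa => frc (dlf.t K12b K23b K13b) fun DLb =>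
  frc (dlf_vvv.s K12a K12b K12d K23a K23b K23d K13a K13b K13d) fun DLd =>
  frc (R.gf.t Wa Ta) fun Ga => frc (R.gf.t Wb Tb) fun Gb =>
  frc (S.gf.s Wa Wb Wd Ta Tb Td) fun Gd =>
  frc (R.l.t Wa Za Ta) fun La => frc (R.l.t Wb Zb Tb) fun Lb =>
  frc (S.l.s Wa Wb Wd Za Zb Zd Ta Tb Td) fun Ld =>
  frc (R.a.t Wa Za Ta) fun Aa => frc (R.a.t Wb Zb Tb) fun Ab =>
  frc (S.a.s Wa Wb Wd Za Zb Zd Ta Tb Td) fun Ad =>
  frc (R.b.t Wa Za Ta) fun Ba => frc (R.b.t Wb Zb Tb) fun Bb =>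
  frc (S.b.s Wa Wb Wd Za Zb Zd Ta Tb Td) fun Bd =>
  frc (R.gm.t Wa Za K12a K23a DLa) fun Ma => frc (R.gm.t Wb Zb K12b K23b DLb) fun Mb =>
  frc (S.gm.s Wa Wb Wd Za Zb Zd K12a K12b K12d K23a K23b K23d DLa DLb DLd) fun Md =>
  frc (shf.t X La) fun Ha => frc (shf.t X Lb) fun Hb => frc (shf_cv.s X La Lb Ld) fun Hd =>
  frc (dsf.t DLa Ha) fun Da => frc (dsf.t DLb Hb) fun Db =>
  frc (Bool.rec (motive := fun _ => ℕ) (dsf_vv.s DLa DLb DLd Ha Hb Hd)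
    (dsf_zv.s DLa DLb DLd Ha Hb Hd) dz) fun Dd =>
  frc (bsf.t Wa Ta X Xa) fun Sa => frc (bsf.t Wb Tb X Xb) fun Sb =>
  frc (bsf_vvcv.s Wa Wb Wd Ta Tb Td X Xa Xb Xd) fun Sd =>
  frc (gpf.t X Ga Ma) fun Pa => frc (gpf.t X Gb Mb) fun Pb =>
  frc (gpf_cvv.s X Ga Gb Gd Ma Mb Md) fun Pd =>
  frc (R.c12.t Wa X) fun C12a => frc (R.c12.t Wb X) fun C12b =>
  frc (S.c12.s Wa Wb Wd X) fun C12d =>
  frc (R.c23.t Ua Za Ta X) fun C23a => frc (R.c23.t Ub Zb Tb X) fun C23b =>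
  frc (S.c23.s Ua Ub Ud Za Zb Zd Ta Tb Td X) fun C23d =>
  frc (R.c13.t Ua Za Ta X) fun C13a => frc (R.c13.t Ub Zb Tb X) fun C13b =>
  frc (S.c13.s Ua Ub Ud Za Zb Zd Ta Tb Td X) fun C13d =>
  frc (R.v1.t Wa Za Ta X C12a C23a C13a) fun V1a => frc (R.v1.t Wb Zb Tb X C12b C23b C13b) fun V1b =>
  frc (S.v1.s Wa Wb Wd Za Zb Zd Ta Tb Td X C12a C12b C12d C23a C23b C23d C13a C13b C13d) fun V1d =>
  frc (R.v2.t Wa Za Ta X C12a C23a C13a) fun V2a => frc (R.v2.t Wb Zb Tb X C12b C23b C13b) fun V2b =>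
  frc (S.v2.s Wa Wb Wd Za Zb Zd Ta Tb Td X C12a C12b C12d C23a C23b C23d C13a C13b C13d) fun V2d =>
  frc (bnf.t X Ga Sa Ma) fun Na => frc (bnf.t X Gb Sb Mb) fun Nb =>
  frc (bnf_cvvv.s X Ga Gb Gd Sa Sb Sd Ma Mb Md) fun Nd =>
  f Ta Tb Td Ua Ub Ud Ga Gb Gd La Lb Ld Aa Ab Ad Ba Bb Bd Ma Mb Md Da Db Dd Sa Sb Sd
    Pa Pb Pd V1a V1b V1d V2a V2b V2d Na Nb Nd

/-- what the pairs are -/
structure PF (E : Pt) (N : ℝ) (R : RowF) (w z w' z' x : ℝ)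
    (Ta Tb Td Ua Ub Ud Ga Gb Gd La Lb Ld Aa Ab Ad Ba Bb Bd Ma Mb Md Da Db Dd Sa Sb Sd
      Pa Pb Pd V1a V1b V1d V2a V2b V2d Na Nb Nd : ℕ) : Prop where
  t : Pr E N Ta Tb Td (w + z) (w' + z')
  u : Pr E N Ua Ub Ud (R.U w z x) (R.U w' z' x)
  g : Pr E N Ga Gb Gd (R.G w z) (R.G w' z')
  l : Pr E N La Lb Ld (R.L w z) (R.L w' z')
  a : Pr E N Aa Ab Ad (R.A w z) (R.A w' z')
  b : Pr E N Ba Bb Bd (R.B w z) (R.B w' z')
  gm : Pr E N Ma Mb Md (R.GM w z x) (R.GM w' z' x)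
  ds : Pr E N Da Db Dd (R.DS w z x) (R.DS w' z' x)
  bs : Pr E N Sa Sb Sd (R.BS w z x) (R.BS w' z' x)
  gp : Pr E N Pa Pb Pd (R.GP w z x) (R.GP w' z' x)
  v1 : Pr E N V1a V1b V1d (R.V1 w z x) (R.V1 w' z' x)
  v2 : Pr E N V2a V2b V2d (R.V2 w z x) (R.V2 w' z' x)
  bn : Pr E N Na Nb Nd (R.BN w z x) (R.BN w' z' x)

set_option maxRecDepth 4000 in
theorem pval_sound {E : Pt} {N : ℝ} {R : RowF} {q : Bool} {S : RowS R q} {dz : Bool}
    {Wa Wb Wd Za Zb Zd X : ℕ} {w z w' z' x : ℝ}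
    {f : (Ta Tb Td Ua Ub Ud Ga Gb Gd La Lb Ld Aa Ab Ad Ba Bb Bd Ma Mb Md Da Db Dd Sa Sb Sd
      Pa Pb Pd V1a V1b V1d V2a V2b V2d Na Nb Nd : ℕ) → Bool}
    (hw : Pr E N Wa Wb Wd w w') (hz : Pr E N Za Zb Zd z z') (hx : Enc E X x)
    (hq : q = true → R.U w' z' x = 0) (hd : dz = true → R.DL w' z' x = 0)
    (h : pval S dz Wa Wb Wd Za Zb Zd X f = true) :
    ∃ Ta Tb Td Ua Ub Ud Ga Gb Gd La Lb Ld Aa Ab Ad Ba Bb Bd Ma Mb Md Da Db Dd Sa Sb Sd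
      Pa Pb Pd V1a V1b V1d V2a V2b V2d Na Nb Nd : ℕ,
      f Ta Tb Td Ua Ub Ud Ga Gb Gd La Lb Ld Aa Ab Ad Ba Bb Bd Ma Mb Md Da Db Dd Sa Sb Sd
        Pa Pb Pd V1a V1b V1d V2a V2b V2d Na Nb Nd = true ∧
      PF E N R w z w' z' x Ta Tb Td Ua Ub Ud Ga Gb Gd La Lb Ld Aa Ab Ad Ba Bb Bd Ma Mb Md
        Da Db Dd Sa Sb Sd Pa Pb Pd V1a V1b V1d V2a V2b V2d Na Nb Nd := by
  unfold pval at h
  simp only [frc_eq] at h
  have hT : Pr E N (pnorm (padd Wa Za)) (pnorm (padd Wb Zb)) (pnorm (padd Wd Zd)) (w + z)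
      (w' + z') := pr_norm (pr_add hw hz)
  have hXI := S.xi.snd hw hz hx
  have hU := S.u.snd hw hz hx
  have h12 := S.k12.snd hw hx
  have h23 := S.k23.snd hU hq hz hT hx
  have h13 := S.k13.snd hU hq hz hT hx
  have hD := dlf_vvv.snd h12 h23 h13
  have hG := S.gf.snd hw hT
  have hL := S.l.snd hw hz hT
  have hA := S.a.snd hw hz hT
  have hB := S.b.snd hw hz hT
  have hM := S.gm.snd hw hz h12 h23 hD
  have hH := shf_cv.snd hx hL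
  have hBS := bsf_vvcv.snd hw hT hx hXI
  have hGP := gpf_cvv.snd hx hG hM
  have c12 := S.c12.snd hw hx
  have c23 := S.c23.snd hU hq hz hT hx
  have c13 := S.c13.snd hU hq hz hT hx
  have hv1 := S.v1.snd hw hz hT hx c12 c23 c13
  have hv2 := S.v2.snd hw hz hT hx c12 c23 c13
  have hBN := bnf_cvvv.snd hx hG hBS hM
  rcases dz with _ | _
  · exact ⟨_, _, _, _, _, _, _, _, _, _, _, _, _, _, _, _, _, _, _, _, _, _, _, _, _, _, _,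
      _, _, _, _, _, _, _, _, _, _, _, _, h, hT, hU, hG, hL, hA, hB, hM, dsf_vv.snd hD hH, hBS,
      hGP, hv1, hv2, hBN⟩
  · exact ⟨_, _, _, _, _, _, _, _, _, _, _, _, _, _, _, _, _, _, _, _, _, _, _, _, _, _, _,
      _, _, _, _, _, _, _, _, _, _, _, _, h, hT, hU, hG, hL, hA, hB, hM,
      dsf_zv.snd hD (hd rfl) hH, hBS, hGP, hv1, hv2, hBN⟩

end Pool.Agent.Strip051.LC.E0.Ch
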