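import Pool.Agent.Strip051.LC.E0.Ch.Val
import Pool.Agent.Strip051.LC.E0.Ch.Row

/-! # Small rests: the result of a leaf gives the slack -/

namespace Pool.Agent.Strip051.LC.E0.Ch

open Pool.Agent.Strip051.PB

section

variable {x l a b g gam del bs lev v1 v2 fo : ℝ}

theorem fin_eq (x l a b g gam del bs lev : ℝ) :
    finf.v x l (if del ≤ 0 then b else a) (bnf.v x g bs gam) (|del| * (1 - x * l))
      (g + x * gam) - lev = G.FinE x a b l g gam del bs lev := by
  unfold G.FinE
  rw [finf_val, bnf_val, ← sq_abs del]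
  generalize (if del ≤ 0 then b else a) = lf
  have e : g + x * gam + x * (|del| * (1 - x * l)) * lf =
      g + x * gam + x * lf * |del| * (1 - x * l) := by ring
  rw [e]
  simp only [div_eq_mul_inv, mul_inv]
  generalize (g + x * gam + x * lf * |del| * (1 - x * l))⁻¹ = q
  ring

theorem fcr_eq (x l g gam del bs lev : ℝ) :
    fcrf.v x (bnf.v x g bs gam) (|del| * (1 - x * l)) - lev = G.FcE x l g gam del bs lev := by
  unfold G.FcE
  rw [fcrf_val, bnf_val]
  ring

theorem fout_eq (x l a b g gam del bs lev : ℝ) :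
    g / (2 * x) * (1 - 1 / l) ^ 2 + brf.v x l a b g gam (del * (1 - x * l)) bs -
      abf.v x l a b (del * (1 - x * l)) (g + x * gam) - lev =
      G.FoutE x a b l g gam del bs lev := by
  unfold G.FoutE
  rw [brf_val, abf_val]
  simp only [one_div, div_eq_mul_inv, mul_inv, one_mul]
  generalize (g + x * gam)⁻¹ = q
  ring

theorem abf_neg (x l a b ds gp : ℝ) : abf.v x l a b (-ds) gp = abf.v x l a b ds gp := by
  rw [abf_val, abf_val]; ring

/-- The result of a leaf gives the slack. -/
theorem slk_of_res {q : Bool} (hx : 0 < x) (hx1 : x ≤ 4 / 125) (ha : 0 ≤ a) (hb : 0 ≤ b)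
    (hl : 0 < l) (hl1 : l ≤ 16) (hq : q = true → 0 ≤ g + x * gam)
    (hfo : fo ≤ g / (2 * x) * (1 - 1 / l) ^ 2 + brf.v x l a b g gam (del * (1 - x * l)) bs -
      abf.v x l a b (del * (1 - x * l)) (g + x * gam))
    (hlev : ∀ F : ℝ, 0 ≤ F + v1 → 0 ≤ F + v2 → 0 ≤ F - lev)
    (h : Res q x l a b (bnf.v x g bs gam) fo (del * (1 - x * l)) (g + x * gam) v1 v2) :
    G.Slk x a b l g gam del bs lev := by
  have hxl : x * l < 1 := by nlinarith
  have h1 : 0 < 1 - x * l := by linarith
  have neg : del * (1 - x * l) ≤ 0 → del ≤ 0 := fun h => by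
    by_contra hc
    push Not at hc
    have := mul_pos hc h1
    linarith
  have ps : 0 ≤ del * (1 - x * l) → 0 ≤ del := fun h => by
    by_contra hc
    push Not at hc
    have := mul_neg_of_neg_of_pos hc h1
    linarith
  rcases h with h | h | h
  · -- inside
    refine Or.inl ?_
    rcases h with ⟨hd, f1, f2, c⟩ | ⟨hd, f1, f2, c⟩
    · have hn := neg hd
      have ea : -(del * (1 - x * l)) = |del| * (1 - x * l) := by rw [abs_of_nonpos hn]; ring
      rw [ea] at f1 f2 c
      refine ⟨⟨ha, hb, hl, hxl, ?_⟩, ?_⟩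
      · rw [if_pos hn]
        rw [cinf_val] at c
        nlinarith
      · rw [← fin_eq, if_pos hn]
        exact hlev _ f1 f2
    · have hn := ps hd
      rcases hn.eq_or_lt with h0 | h0
      · rw [← h0] at f1 f2 c ⊢
        have k : ∀ lf : ℝ, finf.v x l lf (bnf.v x g bs gam) (0 * (1 - x * l)) (g + x * gam) =
            finf.v x l a (bnf.v x g bs gam) (0 * (1 - x * l)) (g + x * gam) := fun lf => by
          rw [finf_val, finf_val]; simp
        refine ⟨⟨ha, hb, hl, hxl, ?_⟩, ?_⟩
        · rw [cinf_val] at c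
          simp at c ⊢
          exact c
        · rw [← fin_eq, abs_zero, k]
          exact hlev _ f1 f2
      · have ea : del * (1 - x * l) = |del| * (1 - x * l) := by rw [abs_of_pos h0]
        rw [ea] at f1 f2 c
        refine ⟨⟨ha, hb, hl, hxl, ?_⟩, ?_⟩
        · rw [if_neg h0.not_ge]
          rw [cinf_val] at c
          nlinarith
        · rw [← fin_eq, if_neg h0.not_ge]
          exact hlev _ f1 f2
  · -- crude
    refine Or.inr (Or.inr ?_)
    obtain ⟨h, hg⟩ := h
    have hgp : 0 ≤ g + x * gam := by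
      rcases q with _ | _
      · exact hg rfl
      · exact hq rfl
    refine ⟨⟨ha, hb, hl, hxl, hgp⟩, ?_⟩
    rw [← fcr_eq]
    rcases h with ⟨hd, f1, f2⟩ | ⟨hd, f1, f2⟩
    · rw [show -(del * (1 - x * l)) = |del| * (1 - x * l) by
        rw [abs_of_nonpos (neg hd)]; ring] at f1 f2
      exact hlev _ f1 f2
    · rw [show del * (1 - x * l) = |del| * (1 - x * l) by rw [abs_of_nonneg (ps hd)]] at f1 f2
      exact hlev _ f1 f2
  · -- beyond
    refine Or.inr (Or.inl ?_)
    have key : 0 ≤ fo + v1 → 0 ≤ fo + v2 → 0 ≤ G.FoutE x a b l g gam del bs lev := fun f1 f2 => by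
      rw [← fout_eq]
      have := hlev fo f1 f2
      linarith
    rcases h with ⟨hd, f1, f2, c1, c2⟩ | ⟨hd, f1, f2, c1, c2⟩
    · refine ⟨?_, key f1 f2⟩
      rw [couf_val] at c1
      rw [cinf_val] at c2
      have hm : 0 ≤ x * (-(del * (1 - x * l)) * a) := by
        have : 0 ≤ -(del * (1 - x * l)) := by linarith
        positivity
      have hm2 : 0 ≤ x * (-(del * (1 - x * l)) * b) := by
        have : 0 ≤ -(del * (1 - x * l)) := by linarith
        positivity
      have hgp : 0 < g + x * gam := by linarith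
      have e1 : x * a * del * (1 - x * l) = -(x * (-(del * (1 - x * l)) * a)) := by ring
      have e2 : x * b * del * (1 - x * l) = -(x * (-(del * (1 - x * l)) * b)) := by ring
      exact ⟨ha, hb, hl, hgp, by rw [e1]; linarith, by rw [e2]; linarith, by rw [e1]; nlinarith,
        by rw [e2]; nlinarith⟩
    · refine ⟨?_, key f1 f2⟩
      rw [couf_val] at c1
      rw [cinf_val] at c2
      have hm : 0 ≤ x * (del * (1 - x * l) * a) := by positivity
      have hm2 : 0 ≤ x * (del * (1 - x * l) * b) := by positivity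
      have hgp : 0 < g + x * gam := by linarith
      have e1 : x * a * del * (1 - x * l) = x * (del * (1 - x * l) * a) := by ring
      have e2 : x * b * del * (1 - x * l) = x * (del * (1 - x * l) * b) := by ring
      exact ⟨ha, hb, hl, hgp, by rw [e1]; linarith, by rw [e2]; linarith, by rw [e1]; nlinarith,
        by rw [e2]; nlinarith⟩

end

end Pool.Agent.Strip051.LC.E0.Ch
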