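import Pool.Agent.Strip051.LC.E0.Ch.Main

/-! # Small rests: the rows -/

set_option linter.unusedVariables false

namespace Pool.Agent.Strip051.LC.E0.Ch

open Pool.Agent.Strip051.PB

noncomputable def R_t1a_c1_d_f : RowF :=
  ⟨gf1, xi_T1AP1m, u_T1AP1mP1Wc, ka, k1m_zn, k_P1Wc_tp, xa, x1m_zn, c_P1Wc_tp, vf1, vf2, lw, lt,
    lnz, gm2⟩

noncomputable def S_t1a_c1_d_f_z : RowS R_t1a_c1_d_f true :=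
  ⟨gf1_vv, xi_T1AP1m_vvc, u_T1AP1mP1Wc_vvc, ka_vc, slz k1m_zn_zvvc, slz k_P1Wc_tp_zvvc, xa_vc,
    slz x1m_zn_zvvc, slz c_P1Wc_tp_zvvc, vf1_vvvcvvv, vf2_vvvcvvv, lw_vvv, lt_vvv, lnz_vvv,
    gm2_vvvvv⟩

noncomputable def R_t1a_c1_d_fw : RowF :=
  ⟨gf1, xi_T1AP1m, u_T1AP1mP1Ww, ka, k1m_zn, k_P1Ww_tp, xa, x1m_zn, c_P1Ww_tp, vf1, vf2, lw, lt,
    lnz, gm2⟩

noncomputable def S_t1a_c1_d_fw_z : RowS R_t1a_c1_d_fw true :=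
  ⟨gf1_vv, xi_T1AP1m_vvc, u_T1AP1mP1Ww_vvc, ka_vc, slz k1m_zn_zvvc, slz k_P1Ww_tp_zvvc, xa_vc,
    slz x1m_zn_zvvc, slz c_P1Ww_tp_zvvc, vf1_vvvcvvv, vf2_vvvcvvv, lw_vvv, lt_vvv, lnz_vvv,
    gm2_vvvvv⟩

noncomputable def R_t1a_c1_d_n : RowF :=
  ⟨gf1, xi_T1AP1m, u_T1AP1mP1Wc, k12n, k1m_zn_m1_2_o, k_P1Wc_tp_1_2_i, xa, x1m_zn, c_P1Wc_tp,
    ml1, ml2, lw, lt, lnz, gm2⟩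

noncomputable def S_t1a_c1_d_n_z : RowS R_t1a_c1_d_n true :=
  ⟨gf1_vv, xi_T1AP1m_vvc, u_T1AP1mP1Wc_vvc, k12n_vc, slz k1m_zn_m1_2_o_zvvc, slz
    k_P1Wc_tp_1_2_i_zvvc, xa_vc, slz x1m_zn_zvvc, slz c_P1Wc_tp_zvvc, ml1_vvvcvvv, ml2_vvvcvvv,
    lw_vvv, lt_vvv, lnz_vvv, gm2_vvvvv⟩

noncomputable def R_t1a_c1_d_m : RowF :=
  ⟨gf1, xi_T1AP1m, u_T1AP1mP1Wc, k12m, k1m_zn_m1_2_o, k_P1Wc_tp_1_2_o, xa, x1m_zn, c_P1Wc_tp,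
    ml1, ml2, lw, lt, lnz, gm2⟩

noncomputable def S_t1a_c1_d_m_z : RowS R_t1a_c1_d_m true :=
  ⟨gf1_vv, xi_T1AP1m_vvc, u_T1AP1mP1Wc_vvc, k12m_vc, slz k1m_zn_m1_2_o_zvvc, slz
    k_P1Wc_tp_1_2_o_zvvc, xa_vc, slz x1m_zn_zvvc, slz c_P1Wc_tp_zvvc, ml1_vvvcvvv, ml2_vvvcvvv,
    lw_vvv, lt_vvv, lnz_vvv, gm2_vvvvv⟩

noncomputable def M_t1a_c1_d_m : RowM := ⟨r2a, r_P1Wc_tp⟩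

noncomputable def N_t1a_c1_d_m : RowMS M_t1a_c1_d_m true := ⟨r2a_vc, slz r_P1Wc_tp_zvvc⟩

noncomputable def R_t1a_c1_d_nw : RowF :=
  ⟨gf1, xi_T1AP1m, u_T1AP1mP1Ww, k12n, k1m_zn_m1_2_o, k_P1Ww_tp_1_2_i, xa, x1m_zn, c_P1Ww_tp,
    ml1, ml2, lw, lt, lnz, gm2⟩

noncomputable def S_t1a_c1_d_nw_z : RowS R_t1a_c1_d_nw true :=
  ⟨gf1_vv, xi_T1AP1m_vvc, u_T1AP1mP1Ww_vvc, k12n_vc, slz k1m_zn_m1_2_o_zvvc, slz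
    k_P1Ww_tp_1_2_i_zvvc, xa_vc, slz x1m_zn_zvvc, slz c_P1Ww_tp_zvvc, ml1_vvvcvvv, ml2_vvvcvvv,
    lw_vvv, lt_vvv, lnz_vvv, gm2_vvvvv⟩

noncomputable def R_t1a_c1_u_f : RowF :=
  ⟨gf1, xi_T1AP1p, u_T1AP1pPWbc, ka, k1p_zn, k_PWb_tp, xa, x1p_zn, xw_tp, vf1, vf2, lt, lw, lz,
    gq1⟩

noncomputable def S_t1a_c1_u_f_z : RowS R_t1a_c1_u_f true :=
  ⟨gf1_vv, xi_T1AP1p_vvc, u_T1AP1pPWbc_vvc, ka_vc, slz k1p_zn_zvvc, slz k_PWb_tp_zvvc, xa_vc, slz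
    x1p_zn_zvvc, slz xw_tp_zvvc, vf1_vvvcvvv, vf2_vvvcvvv, lt_vvv, lw_vvv, lz_vvv, gq1_vvvvv⟩

noncomputable def S_t1a_c1_u_f_v : RowS R_t1a_c1_u_f false :=
  ⟨gf1_vv, xi_T1AP1p_vvc, u_T1AP1pPWbc_vvc, ka_vc, slv k1p_zn_vvvc, slv k_PWb_tp_vvvc, xa_vc, slv
    x1p_zn_vvvc, slv xw_tp_vvvc, vf1_vvvcvvv, vf2_vvvcvvv, lt_vvv, lw_vvv, lz_vvv, gq1_vvvvv⟩

noncomputable def R_t1a_c1_u_n : RowF :=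
  ⟨gf1, xi_T1AP1p, u_T1AP1pPWbc, k12n, k1p_zn_m1_2_o, k_PWb_tp_1_2_i, xa, x1p_zn, xw_tp, ml1,
    ml2, lt, lw, lz, gq1⟩

noncomputable def S_t1a_c1_u_n_z : RowS R_t1a_c1_u_n true :=
  ⟨gf1_vv, xi_T1AP1p_vvc, u_T1AP1pPWbc_vvc, k12n_vc, slz k1p_zn_m1_2_o_zvvc, slz
    k_PWb_tp_1_2_i_zvvc, xa_vc, slz x1p_zn_zvvc, slz xw_tp_zvvc, ml1_vvvcvvv, ml2_vvvcvvv,
    lt_vvv, lw_vvv, lz_vvv, gq1_vvvvv⟩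

noncomputable def S_t1a_c1_u_n_v : RowS R_t1a_c1_u_n false :=
  ⟨gf1_vv, xi_T1AP1p_vvc, u_T1AP1pPWbc_vvc, k12n_vc, slv k1p_zn_m1_2_o_vvvc, slv
    k_PWb_tp_1_2_i_vvvc, xa_vc, slv x1p_zn_vvvc, slv xw_tp_vvvc, ml1_vvvcvvv, ml2_vvvcvvv,
    lt_vvv, lw_vvv, lz_vvv, gq1_vvvvv⟩

noncomputable def R_t1a_W_f : RowF :=
  ⟨gf1, xi_T1APW, u_T1APWPWbc, ka, kwu_zn, k_PWb_tp, xa, xw_zn, xw_tp, vf1, vf2, lt, lw, lz, gq1⟩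

noncomputable def S_t1a_W_f_z : RowS R_t1a_W_f true :=
  ⟨gf1_vv, xi_T1APW_vvc, u_T1APWPWbc_vvc, ka_vc, slz kwu_zn_zvvc, slz k_PWb_tp_zvvc, xa_vc, slz
    xw_zn_zvvc, slz xw_tp_zvvc, vf1_vvvcvvv, vf2_vvvcvvv, lt_vvv, lw_vvv, lz_vvv, gq1_vvvvv⟩

noncomputable def S_t1a_W_f_v : RowS R_t1a_W_f false :=
  ⟨gf1_vv, xi_T1APW_vvc, u_T1APWPWbc_vvc, ka_vc, slv kwu_zn_vvvc, slv k_PWb_tp_vvvc, xa_vc, slv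
    xw_zn_vvvc, slv xw_tp_vvvc, vf1_vvvcvvv, vf2_vvvcvvv, lt_vvv, lw_vvv, lz_vvv, gq1_vvvvv⟩

noncomputable def R_t1a_W_n : RowF :=
  ⟨gf1, xi_T1APW, u_T1APWPWbc, k12n, kwu_zn_m1_2_i, k_PWb_tp_1_2_i, xa, xw_zn, xw_tp, ml1, ml2,
    lt, lw, lz, gq1⟩

noncomputable def S_t1a_W_n_z : RowS R_t1a_W_n true :=
  ⟨gf1_vv, xi_T1APW_vvc, u_T1APWPWbc_vvc, k12n_vc, slz kwu_zn_m1_2_i_zvvc, slz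
    k_PWb_tp_1_2_i_zvvc, xa_vc, slz xw_zn_zvvc, slz xw_tp_zvvc, ml1_vvvcvvv, ml2_vvvcvvv, lt_vvv,
    lw_vvv, lz_vvv, gq1_vvvvv⟩

noncomputable def S_t1a_W_n_v : RowS R_t1a_W_n false :=
  ⟨gf1_vv, xi_T1APW_vvc, u_T1APWPWbc_vvc, k12n_vc, slv kwu_zn_m1_2_i_vvvc, slv
    k_PWb_tp_1_2_i_vvvc, xa_vc, slv xw_zn_vvvc, slv xw_tp_vvvc, ml1_vvvcvvv, ml2_vvvcvvv, lt_vvv,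
    lw_vvv, lz_vvv, gq1_vvvvv⟩

noncomputable def R_t1b_c1_d_f : RowF :=
  ⟨gf1, xi_T1BP1p, u_T1BP1pP1ac, ka, k_P1a_zn, k1p_tp, xa, x1m_zn, x1p_tp, vf1, vf2, lw, lt, lnz,
    gm2⟩

noncomputable def S_t1b_c1_d_f_z : RowS R_t1b_c1_d_f true :=
  ⟨gf1_vv, xi_T1BP1p_vvc, u_T1BP1pP1ac_vvc, ka_vc, slz k_P1a_zn_zvvc, slz k1p_tp_zvvc, xa_vc, slz
    x1m_zn_zvvc, slz x1p_tp_zvvc, vf1_vvvcvvv, vf2_vvvcvvv, lw_vvv, lt_vvv, lnz_vvv, gm2_vvvvv⟩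

noncomputable def R_t1b_c1_d_n : RowF :=
  ⟨gf1, xi_T1BP1p, u_T1BP1pP1ac, k12n, k_P1a_zn_m1_2_o, k1p_tp_1_2_o, xa, x1m_zn, x1p_tp, ml1,
    ml2, lw, lt, lnz, gm2⟩

noncomputable def S_t1b_c1_d_n_z : RowS R_t1b_c1_d_n true :=
  ⟨gf1_vv, xi_T1BP1p_vvc, u_T1BP1pP1ac_vvc, k12n_vc, slz k_P1a_zn_m1_2_o_zvvc, slz
    k1p_tp_1_2_o_zvvc, xa_vc, slz x1m_zn_zvvc, slz x1p_tp_zvvc, ml1_vvvcvvv, ml2_vvvcvvv, lw_vvv,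
    lt_vvv, lnz_vvv, gm2_vvvvv⟩

noncomputable def R_t1b_c1_d_m : RowF :=
  ⟨gf1, xi_T1BP1p, u_T1BP1pP1ac, k12m, k_P1a_zn_m1_2_o, k1p_tp_1_2_o, xa, x1m_zn, x1p_tp, ml1,
    ml2, lw, lt, lnz, gm2⟩

noncomputable def S_t1b_c1_d_m_z : RowS R_t1b_c1_d_m true :=
  ⟨gf1_vv, xi_T1BP1p_vvc, u_T1BP1pP1ac_vvc, k12m_vc, slz k_P1a_zn_m1_2_o_zvvc, slz
    k1p_tp_1_2_o_zvvc, xa_vc, slz x1m_zn_zvvc, slz x1p_tp_zvvc, ml1_vvvcvvv, ml2_vvvcvvv, lw_vvv,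
    lt_vvv, lnz_vvv, gm2_vvvvv⟩

noncomputable def M_t1b_c1_d_m : RowM := ⟨r2a, zr4⟩

noncomputable def N_t1b_c1_d_m : RowMS M_t1b_c1_d_m true := ⟨r2a_vc, slz zr4_zvvc⟩

noncomputable def R_t1b_c1_u_f : RowF :=
  ⟨gf1, xi_T1BP1p, u_T1BP1pPWbc, ka, k_PWb_zn, k1p_tp, xa, xw_zn, x1p_tp, vf1, vf2, lt, lw, lz,
    gq1⟩

noncomputable def S_t1b_c1_u_f_z : RowS R_t1b_c1_u_f true :=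
  ⟨gf1_vv, xi_T1BP1p_vvc, u_T1BP1pPWbc_vvc, ka_vc, slz k_PWb_zn_zvvc, slz k1p_tp_zvvc, xa_vc, slz
    xw_zn_zvvc, slz x1p_tp_zvvc, vf1_vvvcvvv, vf2_vvvcvvv, lt_vvv, lw_vvv, lz_vvv, gq1_vvvvv⟩

noncomputable def R_t1b_c1_u_n : RowF :=
  ⟨gf1, xi_T1BP1p, u_T1BP1pPWbc, k12n, k_PWb_zn_m1_2_i, k1p_tp_1_2_o, xa, xw_zn, x1p_tp, ml1,
    ml2, lt, lw, lz, gq1⟩

noncomputable def S_t1b_c1_u_n_z : RowS R_t1b_c1_u_n true :=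
  ⟨gf1_vv, xi_T1BP1p_vvc, u_T1BP1pPWbc_vvc, k12n_vc, slz k_PWb_zn_m1_2_i_zvvc, slz
    k1p_tp_1_2_o_zvvc, xa_vc, slz xw_zn_zvvc, slz x1p_tp_zvvc, ml1_vvvcvvv, ml2_vvvcvvv, lt_vvv,
    lw_vvv, lz_vvv, gq1_vvvvv⟩

noncomputable def R_t1b_W_f : RowF :=
  ⟨gf1, xi_T1BPW, u_T1BPWPWbc, ka, k_PWb_zn, kwu_tp, xa, xw_zn, xw_tp, vf1, vf2, lt, lw, lz, gq1⟩

noncomputable def S_t1b_W_f_z : RowS R_t1b_W_f true :=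
  ⟨gf1_vv, xi_T1BPW_vvc, u_T1BPWPWbc_vvc, ka_vc, slz k_PWb_zn_zvvc, slz kwu_tp_zvvc, xa_vc, slz
    xw_zn_zvvc, slz xw_tp_zvvc, vf1_vvvcvvv, vf2_vvvcvvv, lt_vvv, lw_vvv, lz_vvv, gq1_vvvvv⟩

noncomputable def S_t1b_W_f_v : RowS R_t1b_W_f false :=
  ⟨gf1_vv, xi_T1BPW_vvc, u_T1BPWPWbc_vvc, ka_vc, slv k_PWb_zn_vvvc, slv kwu_tp_vvvc, xa_vc, slv
    xw_zn_vvvc, slv xw_tp_vvvc, vf1_vvvcvvv, vf2_vvvcvvv, lt_vvv, lw_vvv, lz_vvv, gq1_vvvvv⟩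

noncomputable def R_t1b_W_n : RowF :=
  ⟨gf1, xi_T1BPW, u_T1BPWPWbc, k12n, k_PWb_zn_m1_2_i, kwu_tp_1_2_i, xa, xw_zn, xw_tp, ml1, ml2,
    lt, lw, lz, gq1⟩

noncomputable def S_t1b_W_n_z : RowS R_t1b_W_n true :=
  ⟨gf1_vv, xi_T1BPW_vvc, u_T1BPWPWbc_vvc, k12n_vc, slz k_PWb_zn_m1_2_i_zvvc, slz
    kwu_tp_1_2_i_zvvc, xa_vc, slz xw_zn_zvvc, slz xw_tp_zvvc, ml1_vvvcvvv, ml2_vvvcvvv, lt_vvv,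
    lw_vvv, lz_vvv, gq1_vvvvv⟩

noncomputable def S_t1b_W_n_v : RowS R_t1b_W_n false :=
  ⟨gf1_vv, xi_T1BPW_vvc, u_T1BPWPWbc_vvc, k12n_vc, slv k_PWb_zn_m1_2_i_vvvc, slv
    kwu_tp_1_2_i_vvvc, xa_vc, slv xw_zn_vvvc, slv xw_tp_vvvc, ml1_vvvcvvv, ml2_vvvcvvv, lt_vvv,
    lw_vvv, lz_vvv, gq1_vvvvv⟩

noncomputable def R_t2a_W_f : RowF :=
  ⟨gf2, xi_T2AQW, u_T2AQWPWbc, ka, kwl_zn, k_PWb_tn, xa, xwl_zn, xw_tn, vf1, vf2, lw, lt, lnz,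
    gm2⟩

noncomputable def S_t2a_W_f_z : RowS R_t2a_W_f true :=
  ⟨gf2_vv, xi_T2AQW_vvc, u_T2AQWPWbc_vvc, ka_vc, slz kwl_zn_zvvc, slz k_PWb_tn_zvvc, xa_vc, slz
    xwl_zn_zvvc, slz xw_tn_zvvc, vf1_vvvcvvv, vf2_vvvcvvv, lw_vvv, lt_vvv, lnz_vvv, gm2_vvvvv⟩

noncomputable def S_t2a_W_f_v : RowS R_t2a_W_f false :=
  ⟨gf2_vv, xi_T2AQW_vvc, u_T2AQWPWbc_vvc, ka_vc, slv kwl_zn_vvvc, slv k_PWb_tn_vvvc, xa_vc, slv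
    xwl_zn_vvvc, slv xw_tn_vvvc, vf1_vvvcvvv, vf2_vvvcvvv, lw_vvv, lt_vvv, lnz_vvv, gm2_vvvvv⟩

noncomputable def R_t2a_W_n : RowF :=
  ⟨gf2, xi_T2AQW, u_T2AQWPWbc, k12n, kwl_zn_m3_2_i, k_PWb_tn_m1_2_i, xa, xwl_zn, xw_tn, ml1, ml2,
    lw, lt, lnz, gm2⟩

noncomputable def S_t2a_W_n_z : RowS R_t2a_W_n true :=
  ⟨gf2_vv, xi_T2AQW_vvc, u_T2AQWPWbc_vvc, k12n_vc, slz kwl_zn_m3_2_i_zvvc, slz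
    k_PWb_tn_m1_2_i_zvvc, xa_vc, slz xwl_zn_zvvc, slz xw_tn_zvvc, ml1_vvvcvvv, ml2_vvvcvvv,
    lw_vvv, lt_vvv, lnz_vvv, gm2_vvvvv⟩

noncomputable def S_t2a_W_n_v : RowS R_t2a_W_n false :=
  ⟨gf2_vv, xi_T2AQW_vvc, u_T2AQWPWbc_vvc, k12n_vc, slv kwl_zn_m3_2_i_vvvc, slv
    k_PWb_tn_m1_2_i_vvvc, xa_vc, slv xwl_zn_vvvc, slv xw_tn_vvvc, ml1_vvvcvvv, ml2_vvvcvvv,
    lw_vvv, lt_vvv, lnz_vvv, gm2_vvvvv⟩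

noncomputable def R_t2a_c3_dd_f : RowF :=
  ⟨gf2, xi_T2AQ3m, u_T2AQ3mP1ac, ka, k3m_zn, k_P1a_tn, xa, x3m_zn, x1m_tn, vf1, vf2, lnz, lnt,
    lw, gm3⟩

noncomputable def S_t2a_c3_dd_f_z : RowS R_t2a_c3_dd_f true :=
  ⟨gf2_vv, xi_T2AQ3m_vvc, u_T2AQ3mP1ac_vvc, ka_vc, slz k3m_zn_zvvc, slz k_P1a_tn_zvvc, xa_vc, slz
    x3m_zn_zvvc, slz x1m_tn_zvvc, vf1_vvvcvvv, vf2_vvvcvvv, lnz_vvv, lnt_vvv, lw_vvv, gm3_vvvvv⟩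

noncomputable def R_t2a_c3_dd_n : RowF :=
  ⟨gf2, xi_T2AQ3m, u_T2AQ3mP1ac, k12n, k3m_zn_m3_2_o, k_P1a_tn_m1_2_o, xa, x3m_zn, x1m_tn, ml1,
    ml2, lnz, lnt, lw, gm3⟩

noncomputable def S_t2a_c3_dd_n_z : RowS R_t2a_c3_dd_n true :=
  ⟨gf2_vv, xi_T2AQ3m_vvc, u_T2AQ3mP1ac_vvc, k12n_vc, slz k3m_zn_m3_2_o_zvvc, slz
    k_P1a_tn_m1_2_o_zvvc, xa_vc, slz x3m_zn_zvvc, slz x1m_tn_zvvc, ml1_vvvcvvv, ml2_vvvcvvv,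
    lnz_vvv, lnt_vvv, lw_vvv, gm3_vvvvv⟩

noncomputable def R_t2a_c3_dd_m : RowF :=
  ⟨gf2, xi_T2AQ3m, u_T2AQ3mP1ac, k12m, k3m_zn_m3_2_o, k_P1a_tn_m1_2_o, xa, x3m_zn, x1m_tn, ml1,
    ml2, lnz, lnt, lw, gm3⟩

noncomputable def S_t2a_c3_dd_m_z : RowS R_t2a_c3_dd_m true :=
  ⟨gf2_vv, xi_T2AQ3m_vvc, u_T2AQ3mP1ac_vvc, k12m_vc, slz k3m_zn_m3_2_o_zvvc, slz
    k_P1a_tn_m1_2_o_zvvc, xa_vc, slz x3m_zn_zvvc, slz x1m_tn_zvvc, ml1_vvvcvvv, ml2_vvvcvvv,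
    lnz_vvv, lnt_vvv, lw_vvv, gm3_vvvvv⟩

noncomputable def M_t2a_c3_dd_m : RowM := ⟨r2a, zr4⟩

noncomputable def N_t2a_c3_dd_m : RowMS M_t2a_c3_dd_m true := ⟨r2a_vc, slz zr4_zvvc⟩

noncomputable def R_t2a_c3_du_f : RowF :=
  ⟨gf2, xi_T2AQ3m, u_T2AQ3mPWbc, ka, k3m_zn, k_PWb_tn, xa, x3m_zn, xw_tn, vf1, vf2, lw, lt, lnz,
    gm2⟩

noncomputable def S_t2a_c3_du_f_z : RowS R_t2a_c3_du_f true :=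
  ⟨gf2_vv, xi_T2AQ3m_vvc, u_T2AQ3mPWbc_vvc, ka_vc, slz k3m_zn_zvvc, slz k_PWb_tn_zvvc, xa_vc, slz
    x3m_zn_zvvc, slz xw_tn_zvvc, vf1_vvvcvvv, vf2_vvvcvvv, lw_vvv, lt_vvv, lnz_vvv, gm2_vvvvv⟩

noncomputable def S_t2a_c3_du_f_v : RowS R_t2a_c3_du_f false :=
  ⟨gf2_vv, xi_T2AQ3m_vvc, u_T2AQ3mPWbc_vvc, ka_vc, slv k3m_zn_vvvc, slv k_PWb_tn_vvvc, xa_vc, slv
    x3m_zn_vvvc, slv xw_tn_vvvc, vf1_vvvcvvv, vf2_vvvcvvv, lw_vvv, lt_vvv, lnz_vvv, gm2_vvvvv⟩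

noncomputable def R_t2a_c3_du_n : RowF :=
  ⟨gf2, xi_T2AQ3m, u_T2AQ3mPWbc, k12n, k3m_zn_m3_2_o, k_PWb_tn_m1_2_i, xa, x3m_zn, xw_tn, ml1,
    ml2, lw, lt, lnz, gm2⟩

noncomputable def S_t2a_c3_du_n_z : RowS R_t2a_c3_du_n true :=
  ⟨gf2_vv, xi_T2AQ3m_vvc, u_T2AQ3mPWbc_vvc, k12n_vc, slz k3m_zn_m3_2_o_zvvc, slz
    k_PWb_tn_m1_2_i_zvvc, xa_vc, slz x3m_zn_zvvc, slz xw_tn_zvvc, ml1_vvvcvvv, ml2_vvvcvvv,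
    lw_vvv, lt_vvv, lnz_vvv, gm2_vvvvv⟩

noncomputable def R_t2a_c3_u1_f : RowF :=
  ⟨gf2, xi_T2AQ3p, u_T2AQ3pP1Wc, ka, k3p_zn, k_P1Wc_tn, xa, x3p_zn, c_P1Wc_tn, vf1, vf2, lt, lw,
    lz, gq1⟩

noncomputable def S_t2a_c3_u1_f_z : RowS R_t2a_c3_u1_f true :=
  ⟨gf2_vv, xi_T2AQ3p_vvc, u_T2AQ3pP1Wc_vvc, ka_vc, slz k3p_zn_zvvc, slz k_P1Wc_tn_zvvc, xa_vc,
    slz x3p_zn_zvvc, slz c_P1Wc_tn_zvvc, vf1_vvvcvvv, vf2_vvvcvvv, lt_vvv, lw_vvv, lz_vvv,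
    gq1_vvvvv⟩

noncomputable def R_t2a_c3_u1_fg : RowF :=
  ⟨gf2, xi_T2AQ3p, u_T2AQ3pP1Wg, ka, k3p_zn, k_P1Wg_tn, xa, x3p_zn, c_P1Wg_tn, vf1, vf2, lt, lw,
    lz, gq1⟩

noncomputable def S_t2a_c3_u1_fg_v : RowS R_t2a_c3_u1_fg false :=
  ⟨gf2_vv, xi_T2AQ3p_vvc, u_T2AQ3pP1Wg_vvc, ka_vc, slv k3p_zn_vvvc, slv k_P1Wg_tn_vvvc, xa_vc,
    slv x3p_zn_vvvc, slv c_P1Wg_tn_vvvc, vf1_vvvcvvv, vf2_vvvcvvv, lt_vvv, lw_vvv, lz_vvv,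
    gq1_vvvvv⟩

noncomputable def R_t2a_c3_u1_n : RowF :=
  ⟨gf2, xi_T2AQ3p, u_T2AQ3pP1Wc, k12n, k3p_zn_m3_2_o, k_P1Wc_tn_m1_2_i, xa, x3p_zn, c_P1Wc_tn,
    ml1, ml2, lt, lw, lz, gq1⟩

noncomputable def S_t2a_c3_u1_n_z : RowS R_t2a_c3_u1_n true :=
  ⟨gf2_vv, xi_T2AQ3p_vvc, u_T2AQ3pP1Wc_vvc, k12n_vc, slz k3p_zn_m3_2_o_zvvc, slz
    k_P1Wc_tn_m1_2_i_zvvc, xa_vc, slz x3p_zn_zvvc, slz c_P1Wc_tn_zvvc, ml1_vvvcvvv, ml2_vvvcvvv,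
    lt_vvv, lw_vvv, lz_vvv, gq1_vvvvv⟩

noncomputable def R_t2a_c3_u2_f : RowF :=
  ⟨gf2, xi_T2AQ3p, u_T2AQ3pPWbc, ka, k3p_zn, k_PWb_tn, xa, x3p_zn, xw_tn, vf1, vf2, lt, lw, lz,
    gq1⟩

noncomputable def S_t2a_c3_u2_f_z : RowS R_t2a_c3_u2_f true :=
  ⟨gf2_vv, xi_T2AQ3p_vvc, u_T2AQ3pPWbc_vvc, ka_vc, slz k3p_zn_zvvc, slz k_PWb_tn_zvvc, xa_vc, slz
    x3p_zn_zvvc, slz xw_tn_zvvc, vf1_vvvcvvv, vf2_vvvcvvv, lt_vvv, lw_vvv, lz_vvv, gq1_vvvvv⟩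

noncomputable def S_t2a_c3_u2_f_v : RowS R_t2a_c3_u2_f false :=
  ⟨gf2_vv, xi_T2AQ3p_vvc, u_T2AQ3pPWbc_vvc, ka_vc, slv k3p_zn_vvvc, slv k_PWb_tn_vvvc, xa_vc, slv
    x3p_zn_vvvc, slv xw_tn_vvvc, vf1_vvvcvvv, vf2_vvvcvvv, lt_vvv, lw_vvv, lz_vvv, gq1_vvvvv⟩

noncomputable def R_t2a_c3_u2_n : RowF :=
  ⟨gf2, xi_T2AQ3p, u_T2AQ3pPWbc, k12n, k3p_zn_m3_2_o, k_PWb_tn_m1_2_i, xa, x3p_zn, xw_tn, ml1,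
    ml2, lt, lw, lz, gq1⟩

noncomputable def S_t2a_c3_u2_n_z : RowS R_t2a_c3_u2_n true :=
  ⟨gf2_vv, xi_T2AQ3p_vvc, u_T2AQ3pPWbc_vvc, k12n_vc, slz k3p_zn_m3_2_o_zvvc, slz
    k_PWb_tn_m1_2_i_zvvc, xa_vc, slz x3p_zn_zvvc, slz xw_tn_zvvc, ml1_vvvcvvv, ml2_vvvcvvv,
    lt_vvv, lw_vvv, lz_vvv, gq1_vvvvv⟩

noncomputable def R_t2b_c1_dd_f : RowF :=
  ⟨gf2, xi_T2BP1m, u_T2BP1mQW3c, ka, k_QW3c_zn, k1m_tn, xa, c_QW3c_zn, x1m_tn, vf1, vf2, lnz,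
    lnt, lw, gm3⟩

noncomputable def S_t2b_c1_dd_f_z : RowS R_t2b_c1_dd_f true :=
  ⟨gf2_vv, xi_T2BP1m_vvc, u_T2BP1mQW3c_vvc, ka_vc, slz k_QW3c_zn_zvvc, slz k1m_tn_zvvc, xa_vc,
    slz c_QW3c_zn_zvvc, slz x1m_tn_zvvc, vf1_vvvcvvv, vf2_vvvcvvv, lnz_vvv, lnt_vvv, lw_vvv,
    gm3_vvvvv⟩

noncomputable def R_t2b_c1_dd_fw : RowF :=
  ⟨gf2, xi_T2BP1m, u_T2BP1mQW3w, ka, k_QW3w_zn, k1m_tn, xa, c_QW3w_zn, x1m_tn, vf1, vf2, lnz,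
    lnt, lw, gm3⟩

noncomputable def S_t2b_c1_dd_fw_z : RowS R_t2b_c1_dd_fw true :=
  ⟨gf2_vv, xi_T2BP1m_vvc, u_T2BP1mQW3w_vvc, ka_vc, slz k_QW3w_zn_zvvc, slz k1m_tn_zvvc, xa_vc,
    slz c_QW3w_zn_zvvc, slz x1m_tn_zvvc, vf1_vvvcvvv, vf2_vvvcvvv, lnz_vvv, lnt_vvv, lw_vvv,
    gm3_vvvvv⟩

noncomputable def R_t2b_c1_dd_n : RowF :=
  ⟨gf2, xi_T2BP1m, u_T2BP1mQW3c, k12n, k_QW3c_zn_m3_2_i, k1m_tn_m1_2_o, xa, c_QW3c_zn, x1m_tn,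
    ml1, ml2, lnz, lnt, lw, gm3⟩

noncomputable def S_t2b_c1_dd_n_z : RowS R_t2b_c1_dd_n true :=
  ⟨gf2_vv, xi_T2BP1m_vvc, u_T2BP1mQW3c_vvc, k12n_vc, slz k_QW3c_zn_m3_2_i_zvvc, slz
    k1m_tn_m1_2_o_zvvc, xa_vc, slz c_QW3c_zn_zvvc, slz x1m_tn_zvvc, ml1_vvvcvvv, ml2_vvvcvvv,
    lnz_vvv, lnt_vvv, lw_vvv, gm3_vvvvv⟩

noncomputable def R_t2b_c1_dd_m : RowF :=
  ⟨gf2, xi_T2BP1m, u_T2BP1mQW3c, k12m, k_QW3c_zn_m3_2_o, k1m_tn_m1_2_o, xa, c_QW3c_zn, x1m_tn,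
    ml1, ml2, lnz, lnt, lw, gm3⟩

noncomputable def S_t2b_c1_dd_m_z : RowS R_t2b_c1_dd_m true :=
  ⟨gf2_vv, xi_T2BP1m_vvc, u_T2BP1mQW3c_vvc, k12m_vc, slz k_QW3c_zn_m3_2_o_zvvc, slz
    k1m_tn_m1_2_o_zvvc, xa_vc, slz c_QW3c_zn_zvvc, slz x1m_tn_zvvc, ml1_vvvcvvv, ml2_vvvcvvv,
    lnz_vvv, lnt_vvv, lw_vvv, gm3_vvvvv⟩

noncomputable def M_t2b_c1_dd_m : RowM := ⟨r2a, r_QW3c_zn⟩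

noncomputable def N_t2b_c1_dd_m : RowMS M_t2b_c1_dd_m true := ⟨r2a_vc, slz r_QW3c_zn_zvvc⟩

noncomputable def R_t2b_c1_dd_nw : RowF :=
  ⟨gf2, xi_T2BP1m, u_T2BP1mQW3w, k12n, k_QW3w_zn_m3_2_i, k1m_tn_m1_2_o, xa, c_QW3w_zn, x1m_tn,
    ml1, ml2, lnz, lnt, lw, gm3⟩

noncomputable def S_t2b_c1_dd_nw_z : RowS R_t2b_c1_dd_nw true :=
  ⟨gf2_vv, xi_T2BP1m_vvc, u_T2BP1mQW3w_vvc, k12n_vc, slz k_QW3w_zn_m3_2_i_zvvc, slz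
    k1m_tn_m1_2_o_zvvc, xa_vc, slz c_QW3w_zn_zvvc, slz x1m_tn_zvvc, ml1_vvvcvvv, ml2_vvvcvvv,
    lnz_vvv, lnt_vvv, lw_vvv, gm3_vvvvv⟩

noncomputable def R_t2b_c1_du_f : RowF :=
  ⟨gf2, xi_T2BP1p, u_T2BP1pQaWc, ka, k_QaW_zn, k1p_tn, xa, c_QaW_zn, x1p_tn, vf1, vf2, lw, lt,
    lnz, gm2⟩

noncomputable def S_t2b_c1_du_f_z : RowS R_t2b_c1_du_f true :=
  ⟨gf2_vv, xi_T2BP1p_vvc, u_T2BP1pQaWc_vvc, ka_vc, slz k_QaW_zn_zvvc, slz k1p_tn_zvvc, xa_vc, slz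
    c_QaW_zn_zvvc, slz x1p_tn_zvvc, vf1_vvvcvvv, vf2_vvvcvvv, lw_vvv, lt_vvv, lnz_vvv, gm2_vvvvv⟩

noncomputable def R_t2b_c1_du_n : RowF :=
  ⟨gf2, xi_T2BP1p, u_T2BP1pQaWc, k12n, k_QaW_zn_m3_2_i, k1p_tn_m1_2_o, xa, c_QaW_zn, x1p_tn, ml1,
    ml2, lw, lt, lnz, gm2⟩

noncomputable def S_t2b_c1_du_n_z : RowS R_t2b_c1_du_n true :=
  ⟨gf2_vv, xi_T2BP1p_vvc, u_T2BP1pQaWc_vvc, k12n_vc, slz k_QaW_zn_m3_2_i_zvvc, slz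
    k1p_tn_m1_2_o_zvvc, xa_vc, slz c_QaW_zn_zvvc, slz x1p_tn_zvvc, ml1_vvvcvvv, ml2_vvvcvvv,
    lw_vvv, lt_vvv, lnz_vvv, gm2_vvvvv⟩

noncomputable def R_t2b_c1_u_f : RowF :=
  ⟨gf2, xi_T2BP1p, u_T2BP1pQb3c, ka, k_Qb3_zn, k1p_tn, xa, c_Qb3_zn, x1p_tn, vf1, vf2, lt, lw,
    lz, gq1⟩

noncomputable def S_t2b_c1_u_f_z : RowS R_t2b_c1_u_f true :=
  ⟨gf2_vv, xi_T2BP1p_vvc, u_T2BP1pQb3c_vvc, ka_vc, slz k_Qb3_zn_zvvc, slz k1p_tn_zvvc, xa_vc, slz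
    c_Qb3_zn_zvvc, slz x1p_tn_zvvc, vf1_vvvcvvv, vf2_vvvcvvv, lt_vvv, lw_vvv, lz_vvv, gq1_vvvvv⟩

noncomputable def R_t2b_c1_u_n : RowF :=
  ⟨gf2, xi_T2BP1p, u_T2BP1pQb3c, k12n, k_Qb3_zn_m3_2_i, k1p_tn_m1_2_o, xa, c_Qb3_zn, x1p_tn, ml1,
    ml2, lt, lw, lz, gq1⟩

noncomputable def S_t2b_c1_u_n_z : RowS R_t2b_c1_u_n true :=
  ⟨gf2_vv, xi_T2BP1p_vvc, u_T2BP1pQb3c_vvc, k12n_vc, slz k_Qb3_zn_m3_2_i_zvvc, slz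
    k1p_tn_m1_2_o_zvvc, xa_vc, slz c_Qb3_zn_zvvc, slz x1p_tn_zvvc, ml1_vvvcvvv, ml2_vvvcvvv,
    lt_vvv, lw_vvv, lz_vvv, gq1_vvvvv⟩

noncomputable def R_t2b_W_d_f : RowF :=
  ⟨gf2, xi_T2BPW, u_T2BPWQaWc, ka, k_QaW_zn, kwu_tn, xa, c_QaW_zn, xw_tn, vf1, vf2, lw, lt, lnz,
    gm2⟩

noncomputable def S_t2b_W_d_f_z : RowS R_t2b_W_d_f true :=
  ⟨gf2_vv, xi_T2BPW_vvc, u_T2BPWQaWc_vvc, ka_vc, slz k_QaW_zn_zvvc, slz kwu_tn_zvvc, xa_vc, slz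
    c_QaW_zn_zvvc, slz xw_tn_zvvc, vf1_vvvcvvv, vf2_vvvcvvv, lw_vvv, lt_vvv, lnz_vvv, gm2_vvvvv⟩

noncomputable def S_t2b_W_d_f_v : RowS R_t2b_W_d_f false :=
  ⟨gf2_vv, xi_T2BPW_vvc, u_T2BPWQaWc_vvc, ka_vc, slv k_QaW_zn_vvvc, slv kwu_tn_vvvc, xa_vc, slv
    c_QaW_zn_vvvc, slv xw_tn_vvvc, vf1_vvvcvvv, vf2_vvvcvvv, lw_vvv, lt_vvv, lnz_vvv, gm2_vvvvv⟩

noncomputable def R_t2b_W_d_n : RowF :=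
  ⟨gf2, xi_T2BPW, u_T2BPWQaWc, k12n, k_QaW_zn_m3_2_i, kwu_tn_m1_2_i, xa, c_QaW_zn, xw_tn, ml1,
    ml2, lw, lt, lnz, gm2⟩

noncomputable def S_t2b_W_d_n_z : RowS R_t2b_W_d_n true :=
  ⟨gf2_vv, xi_T2BPW_vvc, u_T2BPWQaWc_vvc, k12n_vc, slz k_QaW_zn_m3_2_i_zvvc, slz
    kwu_tn_m1_2_i_zvvc, xa_vc, slz c_QaW_zn_zvvc, slz xw_tn_zvvc, ml1_vvvcvvv, ml2_vvvcvvv,
    lw_vvv, lt_vvv, lnz_vvv, gm2_vvvvv⟩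

noncomputable def R_t2b_W_u_f : RowF :=
  ⟨gf2, xi_T2BPW, u_T2BPWQb3c, ka, k_Qb3_zn, kwu_tn, xa, c_Qb3_zn, xw_tn, vf1, vf2, lt, lw, lz,
    gq1⟩

noncomputable def S_t2b_W_u_f_z : RowS R_t2b_W_u_f true :=
  ⟨gf2_vv, xi_T2BPW_vvc, u_T2BPWQb3c_vvc, ka_vc, slz k_Qb3_zn_zvvc, slz kwu_tn_zvvc, xa_vc, slz
    c_Qb3_zn_zvvc, slz xw_tn_zvvc, vf1_vvvcvvv, vf2_vvvcvvv, lt_vvv, lw_vvv, lz_vvv, gq1_vvvvv⟩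

noncomputable def S_t2b_W_u_f_v : RowS R_t2b_W_u_f false :=
  ⟨gf2_vv, xi_T2BPW_vvc, u_T2BPWQb3c_vvc, ka_vc, slv k_Qb3_zn_vvvc, slv kwu_tn_vvvc, xa_vc, slv
    c_Qb3_zn_vvvc, slv xw_tn_vvvc, vf1_vvvcvvv, vf2_vvvcvvv, lt_vvv, lw_vvv, lz_vvv, gq1_vvvvv⟩

noncomputable def R_t2b_W_u_n : RowF :=
  ⟨gf2, xi_T2BPW, u_T2BPWQb3c, k12n, k_Qb3_zn_m3_2_i, kwu_tn_m1_2_i, xa, c_Qb3_zn, xw_tn, ml1,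
    ml2, lt, lw, lz, gq1⟩

noncomputable def S_t2b_W_u_n_z : RowS R_t2b_W_u_n true :=
  ⟨gf2_vv, xi_T2BPW_vvc, u_T2BPWQb3c_vvc, k12n_vc, slz k_Qb3_zn_m3_2_i_zvvc, slz
    kwu_tn_m1_2_i_zvvc, xa_vc, slz c_Qb3_zn_zvvc, slz xw_tn_zvvc, ml1_vvvcvvv, ml2_vvvcvvv,
    lt_vvv, lw_vvv, lz_vvv, gq1_vvvvv⟩

noncomputable def R_t3a_c1_f : RowF :=
  ⟨gf3, xi_T2pAP1p, u_T2pAP1pQb3c, ka, k1p_zp, k_Qb3_tp, xa, x1p_zp, c_Qb3_tp, vf1, vf2, lt, lw,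
    lz, gq1⟩

noncomputable def S_t3a_c1_f_z : RowS R_t3a_c1_f true :=
  ⟨gf3_vv, xi_T2pAP1p_vvc, u_T2pAP1pQb3c_vvc, ka_vc, slz k1p_zp_zvvc, slz k_Qb3_tp_zvvc, xa_vc,
    slz x1p_zp_zvvc, slz c_Qb3_tp_zvvc, vf1_vvvcvvv, vf2_vvvcvvv, lt_vvv, lw_vvv, lz_vvv,
    gq1_vvvvv⟩

noncomputable def R_t3a_c1_n : RowF :=
  ⟨gf3, xi_T2pAP1p, u_T2pAP1pQb3c, k12n, k1p_zp_1_2_o, k_Qb3_tp_3_2_i, xa, x1p_zp, c_Qb3_tp, ml1,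
    ml2, lt, lw, lz, gq1⟩

noncomputable def S_t3a_c1_n_z : RowS R_t3a_c1_n true :=
  ⟨gf3_vv, xi_T2pAP1p_vvc, u_T2pAP1pQb3c_vvc, k12n_vc, slz k1p_zp_1_2_o_zvvc, slz
    k_Qb3_tp_3_2_i_zvvc, xa_vc, slz x1p_zp_zvvc, slz c_Qb3_tp_zvvc, ml1_vvvcvvv, ml2_vvvcvvv,
    lt_vvv, lw_vvv, lz_vvv, gq1_vvvvv⟩

noncomputable def R_t3a_c1_m : RowF :=
  ⟨gf3, xi_T2pAP1p, u_T2pAP1pQb3c, k12m, k1p_zp_1_2_o, k_Qb3_tp_3_2_o, xa, x1p_zp, c_Qb3_tp, ml1,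
    ml2, lt, lw, lz, gq1⟩

noncomputable def S_t3a_c1_m_z : RowS R_t3a_c1_m true :=
  ⟨gf3_vv, xi_T2pAP1p_vvc, u_T2pAP1pQb3c_vvc, k12m_vc, slz k1p_zp_1_2_o_zvvc, slz
    k_Qb3_tp_3_2_o_zvvc, xa_vc, slz x1p_zp_zvvc, slz c_Qb3_tp_zvvc, ml1_vvvcvvv, ml2_vvvcvvv,
    lt_vvv, lw_vvv, lz_vvv, gq1_vvvvv⟩

noncomputable def M_t3a_c1_m : RowM := ⟨r2a, r_Qb3_tp⟩

noncomputable def N_t3a_c1_m : RowMS M_t3a_c1_m true := ⟨r2a_vc, slz r_Qb3_tp_zvvc⟩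

noncomputable def R_t3b_c3_f : RowF :=
  ⟨gf3, xi_T2pBQ3p, u_T2pBQ3pP1Wc, ka, k_P1Wc_zp, k3p_tp, xa, c_P1Wc_zp, x3p_tp, vf1, vf2, lt,
    lw, lz, gq1⟩

noncomputable def S_t3b_c3_f_z : RowS R_t3b_c3_f true :=
  ⟨gf3_vv, xi_T2pBQ3p_vvc, u_T2pBQ3pP1Wc_vvc, ka_vc, slz k_P1Wc_zp_zvvc, slz k3p_tp_zvvc, xa_vc,
    slz c_P1Wc_zp_zvvc, slz x3p_tp_zvvc, vf1_vvvcvvv, vf2_vvvcvvv, lt_vvv, lw_vvv, lz_vvv,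
    gq1_vvvvv⟩

noncomputable def R_t3b_c3_n : RowF :=
  ⟨gf3, xi_T2pBQ3p, u_T2pBQ3pP1Wc, k12n, k_P1Wc_zp_1_2_i, k3p_tp_3_2_o, xa, c_P1Wc_zp, x3p_tp,
    ml1, ml2, lt, lw, lz, gq1⟩

noncomputable def S_t3b_c3_n_z : RowS R_t3b_c3_n true :=
  ⟨gf3_vv, xi_T2pBQ3p_vvc, u_T2pBQ3pP1Wc_vvc, k12n_vc, slz k_P1Wc_zp_1_2_i_zvvc, slz
    k3p_tp_3_2_o_zvvc, xa_vc, slz c_P1Wc_zp_zvvc, slz x3p_tp_zvvc, ml1_vvvcvvv, ml2_vvvcvvv,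
    lt_vvv, lw_vvv, lz_vvv, gq1_vvvvv⟩

noncomputable def R_t3b_c3_m : RowF :=
  ⟨gf3, xi_T2pBQ3p, u_T2pBQ3pP1Wc, k12m, k_P1Wc_zp_1_2_o, k3p_tp_3_2_o, xa, c_P1Wc_zp, x3p_tp,
    ml1, ml2, lt, lw, lz, gq1⟩

noncomputable def S_t3b_c3_m_z : RowS R_t3b_c3_m true :=
  ⟨gf3_vv, xi_T2pBQ3p_vvc, u_T2pBQ3pP1Wc_vvc, k12m_vc, slz k_P1Wc_zp_1_2_o_zvvc, slz
    k3p_tp_3_2_o_zvvc, xa_vc, slz c_P1Wc_zp_zvvc, slz x3p_tp_zvvc, ml1_vvvcvvv, ml2_vvvcvvv,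
    lt_vvv, lw_vvv, lz_vvv, gq1_vvvvv⟩

noncomputable def M_t3b_c3_m : RowM := ⟨r2a, r_P1Wc_zp⟩

noncomputable def N_t3b_c3_m : RowMS M_t3b_c3_m true := ⟨r2a_vc, slz r_P1Wc_zp_zvvc⟩

end Pool.Agent.Strip051.LC.E0.Ch
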