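import Pool.Agent.Strip051.LC.E0.Ch.Dir

/-! # Small rests: leaves which test slopes -/

set_option linter.unusedVariables false

namespace Pool.Agent.Strip051.LC.E0.Ch

open Pool.Agent.Strip051.PB

attribute [local irreducible] padd psub pneg pmul psq pinv psqrt psqrtg pabs pps pmax pmin pphi plam
  pcase phf pnat prat pscale pnorm pdc pnc pone ppos pnn Enc

/-! ### Homogeneity -/

section

variable {x l lf ln a b bn fo ds gp v1 v2 N : ℝ}

theorem inv_scale (hN : 0 < N) (y : ℝ) : N * N * (N * y)⁻¹ = N * y⁻¹ := by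
  rw [mul_inv]
  have : N * N⁻¹ = 1 := mul_inv_cancel₀ hN.ne'
  calc N * N * (N⁻¹ * y⁻¹) = N * (N * N⁻¹) * y⁻¹ := by ring
    _ = N * y⁻¹ := by rw [this]; ring

theorem finf_scale (hN : 0 < N) :
    finf.v x l lf (N * bn) (N * ds) (N * gp) = N * finf.v x l lf bn ds gp := by
  rw [finf_val, finf_val]
  have e : N * gp + x * (N * ds) * lf = N * (gp + x * ds * lf) := by ring
  rw [e]
  have k := inv_scale hN (gp + x * ds * lf)
  linear_combination (-(G.ep x / (1 - x) * l * (lf * (x * ds * ds)))) * k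

theorem cinf_scale : cinf.v x ln (N * ds) (N * gp) = N * cinf.v x ln ds gp := by
  rw [cinf_val, cinf_val]; ring

theorem fcrf_scale : fcrf.v x (N * bn) (N * ds) = N * fcrf.v x bn ds := by
  rw [fcrf_val, fcrf_val]; ring

theorem couf_scale : couf.v x l lf (N * ds) (N * gp) = N * couf.v x l lf ds gp := by
  rw [couf_val, couf_val]; ring

theorem abf_scale (hN : 0 < N) :
    abf.v x l a b (N * ds) (N * gp) = N * abf.v x l a b ds gp := by
  rw [abf_val, abf_val]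
  have k := inv_scale hN gp
  linear_combination ((1 + x * G.et x) * (a * l⁻¹ * (b * l⁻¹)) * (x * ds ^ 2) / 2) * k

theorem InR.scale (hN : 0 < N) (h : InR x l lf ln bn ds gp v1 v2) :
    InR x l lf ln (N * bn) (N * ds) (N * gp) (N * v1) (N * v2) := by
  obtain ⟨h1, h2, h3⟩ := h
  refine ⟨?_, ?_, ?_⟩
  · rw [finf_scale hN, ← mul_add]; exact mul_nonneg hN.le h1
  · rw [finf_scale hN, ← mul_add]; exact mul_nonneg hN.le h2
  · rw [cinf_scale]; exact mul_nonneg hN.le h3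

theorem CrR.scale (hN : 0 < N) (h : CrR x bn ds v1 v2) :
    CrR x (N * bn) (N * ds) (N * v1) (N * v2) := by
  obtain ⟨h1, h2⟩ := h
  refine ⟨?_, ?_⟩
  · rw [fcrf_scale, ← mul_add]; exact mul_nonneg hN.le h1
  · rw [fcrf_scale, ← mul_add]; exact mul_nonneg hN.le h2

theorem OuR.scale (hN : 0 < N) (h : OuR x l lf ln fo ds gp v1 v2) :
    OuR x l lf ln (N * fo) (N * ds) (N * gp) (N * v1) (N * v2) := by
  obtain ⟨h1, h2, h3, h4⟩ := h
  refine ⟨?_, ?_, ?_, ?_⟩
  · rw [← mul_add]; exact mul_nonneg hN.le h1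
  · rw [← mul_add]; exact mul_nonneg hN.le h2
  · rw [couf_scale]; exact mul_nonneg hN.le h3
  · rw [cinf_scale]; exact mul_pos hN h4

theorem sgn_scale {P Q P' Q' : Prop} (hN : 0 < N) (hp : P → P') (hq : Q → Q')
    (h : (ds ≤ 0 ∧ P) ∨ (0 ≤ ds ∧ Q)) : (N * ds ≤ 0 ∧ P') ∨ (0 ≤ N * ds ∧ Q') := by
  rcases h with ⟨h1, h2⟩ | ⟨h1, h2⟩
  · exact Or.inl ⟨mul_nonpos_of_nonneg_of_nonpos hN.le h1, hp h2⟩
  · exact Or.inr ⟨mul_nonneg hN.le h1, hq h2⟩

theorem Res.scale {q : Bool} (hN : 0 < N) (h : Res q x l a b bn fo ds gp v1 v2) :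
    Res q x l a b (N * bn) (N * fo) (N * ds) (N * gp) (N * v1) (N * v2) := by
  have e : -(N * ds) = N * -ds := by ring
  unfold Res
  rw [e]
  rcases h with h | ⟨h, hg⟩ | h
  · exact Or.inl (sgn_scale hN (InR.scale hN) (InR.scale hN) h)
  · exact Or.inr (Or.inl ⟨sgn_scale hN (CrR.scale hN) (CrR.scale hN) h,
      fun e => mul_nonneg hN.le (hg e)⟩)
  · exact Or.inr (Or.inr (sgn_scale hN (OuR.scale hN) (OuR.scale hN) h))

end

/-! ### The test with base values -/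

section

/-- value at the base point plus `N` times the slope -/
noncomputable def vbT (F V Vb N : ℕ) : Bool := pnn (padd Vb (pmul N (pnorm (padd F V))))

noncomputable def inB (X L lf ln BN DS GP V1 V2 B1 B2 N : ℕ) : Bool :=
  frc (finf.t X L lf BN DS GP) fun F =>
    band (vbT F V1 B1 N) (band (vbT F V2 B2 N) (pnn (cinf.t X ln DS GP)))

noncomputable def crB (X BN DS V1 V2 B1 B2 N : ℕ) : Bool :=
  frc (fcrf.t X BN DS) fun F => band (vbT F V1 B1 N) (vbT F V2 B2 N)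

noncomputable def ouB (X L lf ln F DS GP V1 V2 B1 B2 N : ℕ) : Bool :=
  frc F fun F => band (vbT F V1 B1 N) (band (vbT F V2 B2 N)
    (band (pnn (couf.t X L lf DS GP)) (ppos (cinf.t X ln DS GP))))

noncomputable def tstB (k s X L A B BN FO DS GP V1 V2 B1 B2 N : ℕ) : Bool :=
  Bool.rec (motive := fun _ => Bool) (Bool.rec (motive := fun _ => Bool)
    (sgS s DS (ouB X L B A FO (pneg DS) GP V1 V2 B1 B2 N) (ouB X L A B FO DS GP V1 V2 B1 B2 N))
    (band (sgS s DS (crB X BN (pneg DS) V1 V2 B1 B2 N) (crB X BN DS V1 V2 B1 B2 N)) (pnn GP))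
    (Nat.beq k 1))
    (sgS s DS (inB X L B A BN (pneg DS) GP V1 V2 B1 B2 N)
      (inB X L A B BN DS GP V1 V2 B1 B2 N)) (Nat.beq k 0)

variable {E : Pt} {X L A B BN FO DS GP V1 V2 B1 B2 NN F : ℕ}
  {x l a b bn fo ds gp v1 v2 b1 b2 n f : ℝ}

theorem vbT_sound (hf : Enc E F f) (h1 : Enc E V1 v1) (hb : Enc E B1 b1) (hn : Enc E NN n)
    (h : vbT F V1 B1 NN = true) : 0 ≤ n * f + (b1 + n * v1) := by
  have := pnn_sound (enc_add hb (enc_mul hn (enc_norm (enc_add hf h1)))) h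
  linarith

theorem inB_sound (hN : 0 < n) (hx : Enc E X x) (hl : Enc E L l) (ha : Enc E A a)
    (hb : Enc E B b) (hn : Enc E BN bn) (hd : Enc E DS ds) (hg : Enc E GP gp) (h1 : Enc E V1 v1)
    (h2 : Enc E V2 v2) (k1 : Enc E B1 b1) (k2 : Enc E B2 b2) (kn : Enc E NN n)
    (h : inB X L A B BN DS GP V1 V2 B1 B2 NN = true) :
    InR x l a b (n * bn) (n * ds) (n * gp) (b1 + n * v1) (b2 + n * v2) := by
  unfold inB at h
  rw [frc_eq] at h
  obtain ⟨t1, h⟩ := band_true h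
  obtain ⟨t2, t3⟩ := band_true h
  have k := finf.enc hx hl ha hn hd hg
  refine ⟨?_, ?_, ?_⟩
  · rw [finf_scale hN]; exact vbT_sound k h1 k1 kn t1
  · rw [finf_scale hN]; exact vbT_sound k h2 k2 kn t2
  · rw [cinf_scale]; exact mul_nonneg hN.le (pnn_sound (cinf.enc hx hb hd hg) t3)

theorem crB_sound (hN : 0 < n) (hx : Enc E X x) (hn : Enc E BN bn) (hd : Enc E DS ds)
    (h1 : Enc E V1 v1) (h2 : Enc E V2 v2) (k1 : Enc E B1 b1) (k2 : Enc E B2 b2)
    (kn : Enc E NN n) (h : crB X BN DS V1 V2 B1 B2 NN = true) :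
    CrR x (n * bn) (n * ds) (b1 + n * v1) (b2 + n * v2) := by
  unfold crB at h
  rw [frc_eq] at h
  obtain ⟨t1, t2⟩ := band_true h
  have k := fcrf.enc hx hn hd
  refine ⟨?_, ?_⟩
  · rw [fcrf_scale]; exact vbT_sound k h1 k1 kn t1
  · rw [fcrf_scale]; exact vbT_sound k h2 k2 kn t2

theorem ouB_sound (hN : 0 < n) (hx : Enc E X x) (hl : Enc E L l) (ha : Enc E A a)
    (hb : Enc E B b) (hf : Enc E FO fo) (hd : Enc E DS ds) (hg : Enc E GP gp) (h1 : Enc E V1 v1)
    (h2 : Enc E V2 v2) (k1 : Enc E B1 b1) (k2 : Enc E B2 b2) (kn : Enc E NN n)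
    (h : ouB X L A B FO DS GP V1 V2 B1 B2 NN = true) :
    OuR x l a b (n * fo) (n * ds) (n * gp) (b1 + n * v1) (b2 + n * v2) := by
  unfold ouB at h
  rw [frc_eq] at h
  obtain ⟨t1, h⟩ := band_true h
  obtain ⟨t2, h⟩ := band_true h
  obtain ⟨t3, t4⟩ := band_true h
  refine ⟨?_, ?_, ?_, ?_⟩
  · exact vbT_sound hf h1 k1 kn t1
  · exact vbT_sound hf h2 k2 kn t2
  · rw [couf_scale]; exact mul_nonneg hN.le (pnn_sound (couf.enc hx hl ha hd hg) t3)
  · rw [cinf_scale]; exact mul_pos hN (ppos_sound (cinf.enc hx hb hd hg) t4)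

theorem tstB_sound {k s : ℕ} (hN : 0 < n) (hx : Enc E X x) (hl : Enc E L l) (ha : Enc E A a)
    (hb : Enc E B b) (hn : Enc E BN bn) (hf : Enc E FO fo) (hd : Enc E DS ds) (hg : Enc E GP gp)
    (h1 : Enc E V1 v1) (h2 : Enc E V2 v2) (k1 : Enc E B1 b1) (k2 : Enc E B2 b2)
    (kn : Enc E NN n) (h : tstB k s X L A B BN FO DS GP V1 V2 B1 B2 NN = true) :
    Res false x l a b (n * bn) (n * fo) (n * ds) (n * gp) (b1 + n * v1) (b2 + n * v2) := by
  have e : -(n * ds) = n * -ds := by ring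
  unfold Res
  rw [e]
  unfold tstB at h
  rcases e0 : Nat.beq k 0 with _ | _
  · rw [e0] at h
    rcases e1 : Nat.beq k 1 with _ | _
    · rw [e1] at h
      exact Or.inr (Or.inr (sgn_scale hN id id (sgS_sound hd
        (ouB_sound hN hx hl hb ha hf (enc_neg hd) hg h1 h2 k1 k2 kn)
        (ouB_sound hN hx hl ha hb hf hd hg h1 h2 k1 k2 kn) h)))
    · rw [e1] at h
      obtain ⟨t1, t2⟩ := band_true h
      exact Or.inr (Or.inl ⟨sgn_scale hN id id (sgS_sound hd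
        (crB_sound hN hx hn (enc_neg hd) h1 h2 k1 k2 kn)
        (crB_sound hN hx hn hd h1 h2 k1 k2 kn) t1),
        fun _ => mul_nonneg hN.le (pnn_sound hg t2)⟩)
  · rw [e0] at h
    exact Or.inl (sgn_scale hN id id (sgS_sound hd
      (inB_sound hN hx hl hb ha hn (enc_neg hd) hg h1 h2 k1 k2 kn)
      (inB_sound hN hx hl ha hb hn hd hg h1 h2 k1 k2 kn) h))

end

/-! ### The slack from a result with scaled values -/

theorem sk_of_res {R : RowF} {M : ℕ} {up q : Bool} {w z x lev bn ds gp v1 v2 fo : ℝ}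
    (D : Dm R M up w z x) (e1 : R.BN w z x = bn) (e2 : R.DS w z x = ds) (e3 : R.GP w z x = gp)
    (hq : q = true → 0 ≤ R.GP w z x)
    (hfo : fo ≤ R.G w z / (2 * x) * (1 - 1 / R.L w z) ^ 2 + R.BR w z x -
      abf.v x (R.L w z) (R.A w z) (R.B w z) (R.DS w z x) (R.GP w z x))
    (hlev : ∀ F : ℝ, 0 ≤ F + v1 → 0 ≤ F + v2 → 0 ≤ F - lev)
    (h : Res q x (R.L w z) (R.A w z) (R.B w z) bn fo ds gp v1 v2) : R.Sk w z x lev := by
  subst e1 e2 e3
  have e1 : R.DS w z x = R.DL w z x * (1 - x * R.L w z) := by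
    unfold RowF.DS; rw [dsf_val, shf_val]
  have e2 : R.GP w z x = R.G w z + x * R.GM w z x := by unfold RowF.GP; rw [gpf_val]
  have e3 : R.BR w z x = brf.v x (R.L w z) (R.A w z) (R.B w z) (R.G w z) (R.GM w z x)
      (R.DS w z x) (R.BS w z x) := rfl
  rw [e3] at hfo
  rw [e1, e2] at hfo h
  rw [e2] at hq
  exact slk_of_res D.x0 D.x1 D.a0 D.b0 D.l0 D.l8 hq hfo hlev h

/-- At a point where everything vanishes. -/
theorem sk_zero {R : RowF} {M : ℕ} {up : Bool} {w z x lev : ℝ}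
    (D : Dm R M up w z x) (e1 : R.BN w z x = 0) (e2 : R.DS w z x = 0) (e3 : R.GP w z x = 0)
    (hlev : 0 ≤ -lev) : R.Sk w z x lev := by
  refine sk_of_res (q := false) (v1 := -lev) (v2 := -lev) D e1 e2 e3
    (fun e => absurd e Bool.false_ne_true) le_rfl (fun F h1 _ => by linarith) ?_
  refine Or.inl (Or.inl ⟨le_rfl, ?_, ?_, ?_⟩)
  · rw [finf_val]; simp; linarith
  · rw [finf_val]; simp; linarith
  · rw [cinf_val]; simp

end Pool.Agent.Strip051.LC.E0.Ch
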