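import Pool.Agent.Strip051.LC.E0.Ch.Fns

/-! # Small rests: slopes of the functions -/

namespace Pool.Agent.Strip051.LC.E0.Ch

open Pool.Agent.Strip051.PB

attribute [local irreducible] padd psub pneg pmul psq pinv psqrt psqrtg pabs pps pmax pmin pphi plam
  pcase phf pnat prat pscale pnorm pdc pnc pone ppos pnn Enc

noncomputable def dlf_vvv : Sl_vvv dlf := ⟨_, fun h1 h2 h3 => (pr_norm (pr_sub (pr_add h1 h2) h3))⟩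
noncomputable def shf_cv : Sl_cv shf := ⟨_, fun h1 h2 => (pr_norm (pr_csub (enc_pnc _ 1) (pr_cmul h1 h2)))⟩
noncomputable def dsf_zv : Sl_zv dsf := ⟨_, fun h1 z1 h2 => (pr_norm (pr_mz z1 h1 h2))⟩
noncomputable def dsf_vv : Sl_vv dsf := ⟨_, fun h1 h2 => (pr_norm (pr_mul h1 h2))⟩
noncomputable def qw_vc : Sl_vc qw := ⟨_, fun h1 h2 => (pr_sqrt (pr_csub (enc_pnc _ 1) (pr_scale 3 4 (pr_cmul (enc_sq h2) (pr_nd (pr_sq h1))))))⟩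
noncomputable def om_vc : Sl_vc om := ⟨_, fun h1 h2 => (pr_norm (pr_scale 3 4 (pr_mul (pr_nd (pr_sq h1)) (pr_nd (pr_inv (pr_cadd (enc_pnc _ 1) (qw_vc.snd h1 h2)))))))⟩
noncomputable def bsf_vvcv : Sl_vvcv bsf := ⟨_, fun h1 h2 h3 h4 => (pr_norm (pr_neg (pr_half (pr_add (pr_mul (om_vc.snd h1 h3) (pr_norm (pr_cadd (enc_pnc _ 1) (pr_cmul h3 h2)))) (pr_mul h4 h1)))))⟩
noncomputable def bnf_cvvv : Sl_cvvv bnf := ⟨_, fun h1 h2 h3 h4 => (pr_norm (pr_sub (pr_add (pr_scale 3 4 (pr_cmul (ic.enc h1) h2)) h3) (pr_cmul (ep.enc h1) h4)))⟩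
noncomputable def gpf_cvv : Sl_cvv gpf := ⟨_, fun h1 h2 h3 => (pr_norm (pr_add h2 (pr_cmul h1 h3)))⟩
noncomputable def brf_8_cvvvvvvv : Sl_cvvvvvvv brf_8 := ⟨_, fun h1 h2 h3 h4 h5 h6 h7 h8 => (pr_inv h2)⟩
noncomputable def brf_12_cvvvvvvv : Sl_cvvvvvvv brf_12 := ⟨_, fun h1 h2 h3 h4 h5 h6 h7 h8 => (pr_csub (enc_pnc _ 1) (pr_half (brf_8_cvvvvvvv.snd h1 h2 h3 h4 h5 h6 h7 h8)))⟩
noncomputable def brf_cvvvvvvv : Sl_cvvvvvvv brf := ⟨_, fun h1 h2 h3 h4 h5 h6 h7 h8 => (pr_norm (pr_sub (pr_add (pr_mul h5 (pr_norm (pr_csub (enc_half (kx.enc h1)) (pr_cmul (et.enc h1) (pr_norm (pr_mul (pr_norm (brf_12_cvvvvvvv.snd h1 h2 h3 h4 h5 h6 h7 h8)) (pr_nd (brf_8_cvvvvvvv.snd h1 h2 h3 h4 h5 h6 h7 h8)))))))) h8) (pr_cmul (kx.enc h1) (pr_norm (pr_add (pr_mul h6 (pr_norm (pr_mul (pr_norm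 (pr_sub (brf_12_cvvvvvvv.snd h1 h2 h3 h4 h5 h6 h7 h8) (pr_half (pr_cmul h1 h2)))) (pr_nd (brf_8_cvvvvvvv.snd h1 h2 h3 h4 h5 h6 h7 h8))))) (pr_half (pr_mul (pr_norm (pr_mul (pr_norm (pr_sub h3 h4)) (pr_nd (brf_8_cvvvvvvv.snd h1 h2 h3 h4 h5 h6 h7 h8)))) (pr_norm (pr_mul h7 (pr_norm (pr_csub (enc_pnc _ 1) (brf_8_cvvvvvvv.snd h1 h2 h3 h4 h5 h6 h7 h8))))))))))))⟩
noncomputable def m2f_v : Sl_v m2f := ⟨_, fun h1 => (pr_sq (pr_norm (pr_csub (enc_pnc _ 1) (pr_inv h1))))⟩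
noncomputable def brs_vcvv : Sl_vcvv brs := ⟨_, fun h1 h2 h3 h4 => (pr_norm (pr_sub h4 (pr_half (pr_mul (om_vc.snd h1 h2) (pr_nd (m2f_v.snd h3))))))⟩
noncomputable def lnf_cvvv : Sl_cvvv lnf := ⟨_, fun h1 h2 h3 h4 => (pr_norm (pr_sub h3 (pr_cmul (ei.enc h1) (pr_norm (pr_mul h4 (pr_norm (pr_csub (enc_pnc _ 1) h2)))))))⟩
noncomputable def lof_cvvv : Sl_cvvv lof := ⟨_, fun h1 h2 h3 h4 => (pr_norm (pr_add (pr_half (pr_mul h3 (pr_nd (m2f_v.snd h2)))) h4))⟩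
noncomputable def gf1_vv : Sl_vv gf1 := ⟨_, fun h1 h2 => (pr_norm (pr_sub h2 (pr_half h1)))⟩
noncomputable def cc1_vc : Sl_vc cc1 := ⟨_, fun h1 h2 => (pr_sqrt (pr_csub (enc_pnc _ 1) (pr_scale 3 4 (pr_sq (pr_norm (pr_cadd (enc_pnc _ 1) (pr_cmul h2 h1)))))))⟩
noncomputable def xi1_vc : Sl_vc xi1 := ⟨_, fun h1 h2 => (pr_norm (pr_neg (pr_scale 3 4 (pr_mul (pr_norm (pr_mul h1 (pr_norm (pr_cadd (enc_pnc _ 2) (pr_cmul h2 h1))))) (pr_nd (pr_inv (pr_cadd (enc_rat _ 1 2) (cc1_vc.snd h1 h2))))))))⟩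
noncomputable def zx_vc : Sl_vc zx := ⟨_, fun h1 h2 => (pr_norm (pr_neg (pr_cmul h2 (om_vc.snd h1 h2))))⟩
noncomputable def xi_T1AP1m_vvc : Sl_vvc xi_T1AP1m := ⟨_, fun h1 h2 h3 => (pr_norm (pr_sub (zx_vc.snd h1 h3) (xi1_vc.snd h2 h3)))⟩
noncomputable def u_T1AP1mP1Wc_vvc : Sl_vvc u_T1AP1mP1Wc := ⟨_, fun h1 h2 h3 => (pr_norm (pr_sub (xi_T1AP1m_vvc.snd h1 h2 h3) (xi1_vc.snd (pr_norm (pr_add h1 h2)) h3)))⟩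
noncomputable def dt_5_v : Sl_v dt_5 := ⟨_, fun h1 => (pr_posh (pr_subn 1 h1))⟩
noncomputable def dt_v : Sl_v dt := ⟨_, fun h1 => (pr_norm (pr_add (pr_add (pr_add (pr_sub (pr_mul h1 (pr_norm (pr_addc (pr_scale 111 1000 h1) (enc_rat _ 13 40)))) (pr_mul (pr_nd (dt_5_v.snd h1)) (pr_norm (pr_addc (pr_scale 111 1000 (dt_5_v.snd h1)) (enc_rat _ 37 1000))))) (pr_scale 1 8 (pr_posh (pr_subr 3 2 h1)))) (pr_mulc (pr_nd (pr_posh (pr_subr 5 2 h1))) (enc_norm (enc_subr 127 200 (dt_8.enc h1.l))))) (pr_mulc (pr_nd (pr_posh (pr_subn 4 h1))) (enc_norm (enc_sub (dt_2.enc h1.l) (dt_8.enc h1.l))))))⟩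
noncomputable def ka_vc : Sl_vc ka := ⟨_, fun h1 h2 => (pr_neg (dt_v.snd h1))⟩
noncomputable def sg1_vc : Sl_vc sg1 := ⟨_, fun h1 h2 => (pr_norm (pr_sub (pr_half h1) (xi1_vc.snd h1 h2)))⟩
noncomputable def k1m_4_vc : Sl_vc k1m_4 := ⟨_, fun h1 h2 => (dt_v.snd (pr_nd (pr_neg (sg1_vc.snd h1 h2))))⟩
noncomputable def k1m_vc : Sl_vc k1m := ⟨_, fun h1 h2 => (pr_norm (pr_sub (pr_neg (pr_half (k1m_4_vc.snd h1 h2))) (pr_scale 3 4 (pr_mul (pr_norm (pr_mul (sg1_vc.snd h1 h2) (pr_nd (pr_inv (pr_cadd (enc_pnc _ 1) (pr_add (pr_half (cc1_vc.snd h1 h2)) (pr_scale 3 4 (pr_cadd (enc_pnc _ 1) (pr_cmul h2 h1))))))))) (pr_norm (pr_csub (enc_pnc _ 1) (pr_cmul h2 (k1m_4_vc.snd h1 h2))))))))⟩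
noncomputable def k1m_zn_zvvc : Sl_zvvc k1m_zn := ⟨_, fun h1 z1 h2 h3 h4 => (pr_neg (k1m_vc.snd h2 h4))⟩
noncomputable def k1p_3_vc : Sl_vc k1p_3 := ⟨_, fun h1 h2 => (dt_v.snd (sg1_vc.snd h1 h2))⟩
noncomputable def k1p_vc : Sl_vc k1p := ⟨_, fun h1 h2 => (pr_norm (pr_sub (pr_neg (pr_half (k1p_3_vc.snd h1 h2))) (pr_scale 3 4 (pr_mul (pr_norm (pr_mul (sg1_vc.snd h1 h2) (pr_nd (pr_inv (pr_cadd (enc_pnc _ 1) (pr_add (pr_half (cc1_vc.snd h1 h2)) (pr_scale 3 4 (pr_cadd (enc_pnc _ 1) (pr_cmul h2 h1))))))))) (pr_norm (pr_csub (enc_pnc _ 1) (pr_cmul h2 (k1p_3_vc.snd h1 h2))))))))⟩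
noncomputable def su_vc : Sl_vc su := ⟨_, fun h1 h2 => (pr_norm (pr_case (pr_subn 2 h1) (pr_cadd (enc_rat _ 92 125) (pr_cmul (enc_norm (enc_subr 92 125 (pu.enc h2))) (pr_norm (pr_minh h1 (pr_const (enc_pnc _ 1)))))) (pr_const (enc_subn 3 (enc_nat 2 (enc_sqrt (enc_pnc _ 3)))))))⟩
noncomputable def k_P1Wc_zvc : Sl_zvc k_P1Wc := ⟨_, fun h1 z1 h2 h3 => (pr_norm (pr_add (k1p_vc.snd h2 h3) (pr_mz z1 h1 (su_vc.snd h2 h3))))⟩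
noncomputable def k_P1Wc_tp_zvvc : Sl_zvvc k_P1Wc_tp := ⟨_, fun h1 z1 h2 h3 h4 => (k_P1Wc_zvc.snd h1 z1 h3 h4)⟩
noncomputable def xa_vc : Sl_vc xa := ⟨_, fun h1 h2 => (pr_norm (pr_add (pr_add (pr_add (pr_sub (pr_mul h1 (pr_norm (pr_cadd (enc_sub (enc_nat 2 (ch.enc h2)) (mm.enc h2)) (pr_cmul (enc_norm (xa_8.enc h1.l h2)) h1)))) (pr_cmul (enc_norm (xa_8.enc h1.l h2)) (pr_nd (pr_sq (pr_nd (pr_posh (pr_subn 1 h1))))))) (pr_mulc (pr_nd (pr_posh (pr_subr 3 2 h1))) (enc_norm (enc_sub (xa_19.enc h1.l h2) (mm.enc h2))))) (pr_mulc (pr_nd (pr_posh (pr_subr 5 2 h1))) (enc_norm (enc_sub (enc_neg (enc_rat _ 319 500)) (xa_19.enc h1.l h2))))) (pr_scale 319 500 (pr_posh (pr_subn 4 h1)))))⟩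
noncomputable def xb_3_v : Sl_v xb_3 := ⟨_, fun h1 => (pr_posh (pr_subn 1 h1))⟩
noncomputable def xb_v : Sl_v xb := ⟨_, fun h1 => (pr_norm (pr_add (pr_sub (pr_mul h1 (pr_norm (pr_addc (pr_scale 209 1000 h1) (enc_rat _ 181 500)))) (pr_mul (pr_nd (xb_3_v.snd h1)) (pr_norm (pr_addc (pr_scale 209 1000 (xb_3_v.snd h1)) (enc_rat _ 1741 1500))))) (pr_scale 571 1500 (pr_posh (pr_subr 5 2 h1)))))⟩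
noncomputable def x1m_vc : Sl_vc x1m := ⟨_, fun h1 h2 => (xb_v.snd (pr_nd (pr_neg (pr_half (sg1_vc.snd h1 h2)))))⟩
noncomputable def x1m_zn_zvvc : Sl_zvvc x1m_zn := ⟨_, fun h1 z1 h2 h3 h4 => (pr_neg (x1m_vc.snd h2 h4))⟩
noncomputable def x1p_vc : Sl_vc x1p := ⟨_, fun h1 h2 => (pr_norm (pr_sub (xa_vc.snd (sg1_vc.snd h1 h2) h2) (xb_v.snd (pr_nd (pr_half (sg1_vc.snd h1 h2))))))⟩
noncomputable def xiw_vc : Sl_vc xiw := ⟨_, fun h1 h2 => (pr_norm (pr_neg (pr_cmul h2 (om_vc.snd h1 h2))))⟩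
noncomputable def xw_vc : Sl_vc xw := ⟨_, fun h1 h2 => (pr_norm (pr_add (pr_sub (pr_sub (pr_mul h1 (pr_norm (pr_cadd (enc_sub (enc_nat 2 (ch.enc h2)) (mm.enc h2)) (pr_cmul (enc_norm (xw_8.enc h1.l h2)) h1)))) (pr_cmul (enc_norm (xw_8.enc h1.l h2)) (pr_nd (pr_sq (pr_nd (pr_posh (pr_subn 1 h1))))))) (pr_mulc (pr_nd (pr_posh (pr_subr 3 2 h1))) (enc_norm (enc_add (xw_5.enc h1.l h2) (mm.enc h2))))) (pr_mulc (pr_nd (pr_posh (pr_subr 5 2 h1))) (enc_norm (xw_5.enc h1.l h2)))))⟩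
noncomputable def slp_12_vc : Sl_vc slp_12 := ⟨_, fun h1 h2 => (pr_scale 3 4 (pr_mul (pr_norm (pr_cadd (enc_pnc _ 2) (pr_cmul h2 h1))) (pr_nd (pr_inv (pr_cadd (enc_rat _ 1 2) (cc1_vc.snd h1 h2))))))⟩
noncomputable def slp_13_vc : Sl_vc slp_13 := ⟨_, fun h1 h2 => (pr_cadd (enc_rat _ 1 2) (slp_12_vc.snd h1 h2))⟩
noncomputable def slp_14_vc : Sl_vc slp_14 := ⟨_, fun h1 h2 => (pr_mul (pr_norm (slp_13_vc.snd h1 h2)) h1)⟩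
noncomputable def slp_vc : Sl_vc slp := ⟨_, fun h1 h2 => (pr_norm (pr_case (pr_subr 2 5 h1) (pr_mul (pr_norm (pr_add (pr_sub (pr_cadd (slp_16.enc h1.l h2) (pr_cmul (enc_norm (slp_17.enc h1.l h2)) h1)) (pr_mul (pr_norm (slp_13_vc.snd h1 h2)) (pr_norm (pr_cadd (slp_16.enc h1.l h2) (pr_cmul (enc_norm (slp_17.enc h1.l h2)) (pr_norm (slp_14_vc.snd h1 h2))))))) (pr_mul (pr_norm (pr_half (slp_13_vc.snd h1 h2))) (pr_norm (pr_cadd (enc_rat _ 181 500) (pr_scale 209 2000 (slp_14_vc.snd h1 h2))))))) (pr_nd (pr_inv (pr_sub (slp_12_vc.snd h1 h2) (pr_cmul h2 (pr_norm (pr_scale 3 4 (pr_mul h1 (pr_nd (pr_inv (pr_cadd (enc_pnc _ 1) (qw_vc.snd h1 h2)))))))))))) (pr_mul (pr_norm (pr_sub (xw_vc.snd h1 h2) (x1p_vc.snd h1 h2))) (pr_nd (pr_inv (pr_sub (xiw_vc.snd h1 h2) (xi1_vc.snd h1 h2)))))))⟩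
noncomputable def c_P1Wc_zvc : Sl_zvc c_P1Wc := ⟨_, fun h1 z1 h2 h3 => (pr_norm (pr_add (x1p_vc.snd h2 h3) (pr_mz z1 h1 (slp_vc.snd h2 h3))))⟩
noncomputable def c_P1Wc_tp_zvvc : Sl_zvvc c_P1Wc_tp := ⟨_, fun h1 z1 h2 h3 h4 => (c_P1Wc_zvc.snd h1 z1 h3 h4)⟩
noncomputable def vf1_vvvcvvv : Sl_vvvcvvv vf1 := ⟨_, fun h1 h2 h3 h4 h5 h6 h7 => (pr_norm (pr_neg (pr_half (pr_sub (pr_add h5 h6) h7))))⟩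
noncomputable def vf2_vvvcvvv : Sl_vvvcvvv vf2 := ⟨_, fun h1 h2 h3 h4 h5 h6 h7 => (pr_norm (pr_half (pr_sub (pr_add h5 h6) h7)))⟩
noncomputable def lw_vvv : Sl_vvv lw := ⟨_, fun h1 h2 h3 => h1⟩
noncomputable def lt_vvv : Sl_vvv lt := ⟨_, fun h1 h2 h3 => h3⟩
noncomputable def lnz_vvv : Sl_vvv lnz := ⟨_, fun h1 h2 h3 => (pr_neg h2)⟩
noncomputable def gm2_vvvvv : Sl_vvvvv gm2 := ⟨_, fun h1 h2 h3 h4 h5 => (pr_norm (pr_sub (pr_sub (pr_mul h2 h3) (pr_mul h1 h4)) (pr_mul h2 h5)))⟩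
noncomputable def u_T1AP1mP1Ww_vvc : Sl_vvc u_T1AP1mP1Ww := ⟨_, fun h1 h2 h3 => (pr_norm (pr_sub (xiw_vc.snd (pr_norm (pr_add h1 h2)) h3) (xi_T1AP1m_vvc.snd h1 h2 h3)))⟩
noncomputable def kwu_vc : Sl_vc kwu := ⟨_, fun h1 h2 => (pr_norm (pr_add (k1p_vc.snd h1 h2) (pr_mul (su_vc.snd h1 h2) (pr_norm (pr_sub (xiw_vc.snd h1 h2) (xi1_vc.snd h1 h2))))))⟩
noncomputable def k_P1Ww_zvc : Sl_zvc k_P1Ww := ⟨_, fun h1 z1 h2 h3 => (pr_norm (pr_sub (kwu_vc.snd h2 h3) (pr_mz z1 h1 (su_vc.snd h2 h3))))⟩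
noncomputable def k_P1Ww_tp_zvvc : Sl_zvvc k_P1Ww_tp := ⟨_, fun h1 z1 h2 h3 h4 => (k_P1Ww_zvc.snd h1 z1 h3 h4)⟩
noncomputable def c_P1Ww_zvc : Sl_zvc c_P1Ww := ⟨_, fun h1 z1 h2 h3 => (pr_norm (pr_sub (xw_vc.snd h2 h3) (pr_mz z1 h1 (slp_vc.snd h2 h3))))⟩
noncomputable def c_P1Ww_tp_zvvc : Sl_zvvc c_P1Ww_tp := ⟨_, fun h1 z1 h2 h3 h4 => (c_P1Ww_zvc.snd h1 z1 h3 h4)⟩
noncomputable def nkf_cvcv : Sl_cvcv nkf := ⟨_, fun h1 h2 h3 h4 => (pr_norm (pr_add (pr_mulc h2 (enc_norm (enc_add (enc_pnc _ 1) (enc_mul h1 (lb.enc h1))))) (pr_cmul (lb.enc h1) (pr_norm (pr_cadd h3 h4)))))⟩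
noncomputable def gh_v : Sl_v gh := ⟨_, fun h1 => (pr_norm (pr_add (pr_sub h1 (pr_scale 4 3 (pr_posh (pr_subn 1 h1)))) (pr_scale 1 3 (pr_posh (pr_subn 4 h1)))))⟩
noncomputable def r2a_vc : Sl_vc r2a := ⟨_, fun h1 h2 => (pr_norm (pr_cmul (rf.enc h2) (gh_v.snd h1)))⟩
noncomputable def k12n_vc : Sl_vc k12n := ⟨_, fun h1 h2 => (nkf_cvcv.snd h2 (pr_nd (ka_vc.snd h1 h2)) (enc_pnc _ 1) (r2a_vc.snd h1 h2))⟩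
noncomputable def k1m_zn_vvvc : Sl_vvvc k1m_zn := ⟨_, fun h1 h2 h3 h4 => (pr_neg (k1m_vc.snd h2 h4))⟩
noncomputable def nk0_cvc : Sl_cvc nk0 := ⟨_, fun h1 h2 h3 => (pr_norm (pr_addc (pr_mulc h2 (enc_norm (enc_add (enc_pnc _ 1) (enc_mul h1 (lb.enc h1))))) (enc_mul (lb.enc h1) h3)))⟩
noncomputable def k1m_zn_m1_2_o_zvvc : Sl_zvvc k1m_zn_m1_2_o := ⟨_, fun h1 z1 h2 h3 h4 => (nk0_cvc.snd h4 (pr_nd (k1m_zn_vvvc.snd h1 h2 h3 h4)) (enc_neg (enc_rat _ 1 2)))⟩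
noncomputable def r2u_vc : Sl_vc r2u := ⟨_, fun h1 h2 => (pr_norm (pr_cmul (rwu.enc h2) (gh_v.snd h1)))⟩
noncomputable def slr_vc : Sl_vc slr := ⟨_, fun h1 h2 => (pr_norm (pr_case (pr_subr 2 5 h1) (pr_cmul (rwu.enc h2) (pr_nd (pr_inv (pr_sub (pr_scale 3 4 (pr_mul (pr_norm (pr_cadd (enc_pnc _ 2) (pr_cmul h2 h1))) (pr_nd (pr_inv (pr_cadd (enc_rat _ 1 2) (cc1_vc.snd h1 h2)))))) (pr_cmul h2 (pr_norm (pr_scale 3 4 (pr_mul h1 (pr_nd (pr_inv (pr_cadd (enc_pnc _ 1) (qw_vc.snd h1 h2)))))))))))) (pr_mul (r2u_vc.snd h1 h2) (pr_nd (pr_inv (pr_sub (xiw_vc.snd h1 h2) (xi1_vc.snd h1 h2)))))))⟩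
noncomputable def r_P1Wc_zvc : Sl_zvc r_P1Wc := ⟨_, fun h1 z1 h2 h3 => (pr_norm (pr_mz z1 h1 (slr_vc.snd h2 h3)))⟩
noncomputable def r_P1Wc_tp_zvvc : Sl_zvvc r_P1Wc_tp := ⟨_, fun h1 z1 h2 h3 h4 => (r_P1Wc_zvc.snd h1 z1 h3 h4)⟩
noncomputable def k_P1Wc_tp_1_2_i_zvvc : Sl_zvvc k_P1Wc_tp_1_2_i := ⟨_, fun h1 z1 h2 h3 h4 => (nkf_cvcv.snd h4 (pr_nd (k_P1Wc_tp_zvvc.snd h1 z1 h2 h3 h4)) (enc_rat _ 1 2) (pr_nd (r_P1Wc_tp_zvvc.snd h1 z1 h2 h3 h4)))⟩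
noncomputable def ml1_9_vvvcvvv : Sl_vvvcvvv ml1_9 := ⟨_, fun h1 h2 h3 h4 h5 h6 h7 => (pr_cmul h4 h1)⟩
noncomputable def ml1_vvvcvvv : Sl_vvvcvvv ml1 := ⟨_, fun h1 h2 h3 h4 h5 h6 h7 => (pr_norm (pr_cmul (mu.enc h4) (pr_norm (pr_sub (pr_half (pr_cmul (enc_norm (enc_add (enc_pnc _ 3) h4)) (pr_norm (pr_sub (pr_add h5 h6) h7)))) (pr_half (pr_sub (pr_add (pr_mul (pr_norm (ml1_9_vvvcvvv.snd h1 h2 h3 h4 h5 h6 h7)) h5) (pr_mul (pr_norm (pr_add (pr_cadd (enc_pnc _ 1) (pr_nat 2 (ml1_9_vvvcvvv.snd h1 h2 h3 h4 h5 h6 h7))) (pr_cmul h4 h2))) h6)) (pr_mul (pr_norm (pr_cadd (enc_pnc _ 1) (pr_cmul h4 h3))) h7)))))))⟩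
noncomputable def ml2_12_vvvcvvv : Sl_vvvcvvv ml2_12 := ⟨_, fun h1 h2 h3 h4 h5 h6 h7 => (pr_cadd (enc_pnc _ 1) (pr_cmul h4 h2))⟩
noncomputable def ml2_vvvcvvv : Sl_vvvcvvv ml2 := ⟨_, fun h1 h2 h3 h4 h5 h6 h7 => (pr_norm (pr_cmul (mu.enc h4) (pr_norm (pr_sub (pr_half (pr_sub (pr_add (pr_mul (pr_norm (ml2_12_vvvcvvv.snd h1 h2 h3 h4 h5 h6 h7)) h6) (pr_mul (pr_norm (pr_add (pr_nat 2 (ml2_12_vvvcvvv.snd h1 h2 h3 h4 h5 h6 h7)) (pr_cmul h4 h1))) h5)) (pr_mul (pr_norm (pr_cadd (enc_pnc _ 1) (pr_cmul h4 h3))) h7))) (pr_half (pr_cmul (enc_norm (enc_add (enc_pnc _ 3) h4)) (pr_norm (pr_sub (pr_add h5 h6) h7))))))))⟩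
noncomputable def k12m_vc : Sl_vc k12m := ⟨_, fun h1 h2 => (nk0_cvc.snd h2 (pr_nd (ka_vc.snd h1 h2)) (enc_pnc _ 1))⟩
noncomputable def k_P1Wc_tp_1_2_o_zvvc : Sl_zvvc k_P1Wc_tp_1_2_o := ⟨_, fun h1 z1 h2 h3 h4 => (nk0_cvc.snd h4 (pr_nd (k_P1Wc_tp_zvvc.snd h1 z1 h2 h3 h4)) (enc_rat _ 1 2))⟩
noncomputable def r_P1Ww_zvc : Sl_zvc r_P1Ww := ⟨_, fun h1 z1 h2 h3 => (pr_norm (pr_sub (r2u_vc.snd h2 h3) (pr_mz z1 h1 (slr_vc.snd h2 h3))))⟩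
noncomputable def r_P1Ww_tp_zvvc : Sl_zvvc r_P1Ww_tp := ⟨_, fun h1 z1 h2 h3 h4 => (r_P1Ww_zvc.snd h1 z1 h3 h4)⟩
noncomputable def k_P1Ww_tp_1_2_i_zvvc : Sl_zvvc k_P1Ww_tp_1_2_i := ⟨_, fun h1 z1 h2 h3 h4 => (nkf_cvcv.snd h4 (pr_nd (k_P1Ww_tp_zvvc.snd h1 z1 h2 h3 h4)) (enc_rat _ 1 2) (pr_nd (r_P1Ww_tp_zvvc.snd h1 z1 h2 h3 h4)))⟩
noncomputable def xi_T1AP1p_vvc : Sl_vvc xi_T1AP1p := ⟨_, fun h1 h2 h3 => (pr_norm (pr_sub (zx_vc.snd h1 h3) (xi1_vc.snd h2 h3)))⟩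
noncomputable def u_T1AP1pPWbc_vvc : Sl_vvc u_T1AP1pPWbc := ⟨_, fun h1 h2 h3 => (pr_norm (pr_sub (xi_T1AP1p_vvc.snd h1 h2 h3) (xiw_vc.snd (pr_norm (pr_add h1 h2)) h3)))⟩
noncomputable def k1p_zn_zvvc : Sl_zvvc k1p_zn := ⟨_, fun h1 z1 h2 h3 h4 => (pr_neg (k1p_vc.snd h2 h4))⟩
noncomputable def k_PWb_zvc : Sl_zvc k_PWb := ⟨_, fun h1 z1 h2 h3 => (pr_norm (pr_add (kwu_vc.snd h2 h3) (pr_scale 353 500 h1)))⟩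
noncomputable def k_PWb_tp_zvvc : Sl_zvvc k_PWb_tp := ⟨_, fun h1 z1 h2 h3 h4 => (k_PWb_zvc.snd h1 z1 h3 h4)⟩
noncomputable def x1p_zn_zvvc : Sl_zvvc x1p_zn := ⟨_, fun h1 z1 h2 h3 h4 => (pr_neg (x1p_vc.snd h2 h4))⟩
noncomputable def xw_tp_zvvc : Sl_zvvc xw_tp := ⟨_, fun h1 z1 h2 h3 h4 => (xw_vc.snd h3 h4)⟩
noncomputable def lz_vvv : Sl_vvv lz := ⟨_, fun h1 h2 h3 => h2⟩
noncomputable def gm1_vvvv : Sl_vvvv gm1 := ⟨_, fun h1 h2 h3 h4 => (pr_norm (pr_sub (pr_mul h2 h3) (pr_mul h1 h4)))⟩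
noncomputable def gq1_vvvvv : Sl_vvvvv gq1 := ⟨_, fun h1 h2 h3 h4 h5 => (gm1_vvvv.snd h1 h2 h3 h4)⟩
noncomputable def k1p_zn_vvvc : Sl_vvvc k1p_zn := ⟨_, fun h1 h2 h3 h4 => (pr_neg (k1p_vc.snd h2 h4))⟩
noncomputable def k_PWb_vvc : Sl_vvc k_PWb := ⟨_, fun h1 h2 h3 => (pr_norm (pr_add (kwu_vc.snd h2 h3) (pr_scale 353 500 h1)))⟩
noncomputable def k_PWb_tp_vvvc : Sl_vvvc k_PWb_tp := ⟨_, fun h1 h2 h3 h4 => (k_PWb_vvc.snd h1 h3 h4)⟩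
noncomputable def x1p_zn_vvvc : Sl_vvvc x1p_zn := ⟨_, fun h1 h2 h3 h4 => (pr_neg (x1p_vc.snd h2 h4))⟩
noncomputable def xw_tp_vvvc : Sl_vvvc xw_tp := ⟨_, fun h1 h2 h3 h4 => (xw_vc.snd h3 h4)⟩
noncomputable def k1p_zn_m1_2_o_zvvc : Sl_zvvc k1p_zn_m1_2_o := ⟨_, fun h1 z1 h2 h3 h4 => (nk0_cvc.snd h4 (pr_nd (k1p_zn_vvvc.snd h1 h2 h3 h4)) (enc_neg (enc_rat _ 1 2)))⟩
noncomputable def r2u_tp_vvvc : Sl_vvvc r2u_tp := ⟨_, fun h1 h2 h3 h4 => (r2u_vc.snd h3 h4)⟩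
noncomputable def k_PWb_tp_1_2_i_zvvc : Sl_zvvc k_PWb_tp_1_2_i := ⟨_, fun h1 z1 h2 h3 h4 => (nkf_cvcv.snd h4 (pr_nd (k_PWb_tp_zvvc.snd h1 z1 h2 h3 h4)) (enc_rat _ 1 2) (pr_nd (r2u_tp_vvvc.snd h1 h2 h3 h4)))⟩
noncomputable def k1p_zn_m1_2_o_vvvc : Sl_vvvc k1p_zn_m1_2_o := ⟨_, fun h1 h2 h3 h4 => (nk0_cvc.snd h4 (pr_nd (k1p_zn_vvvc.snd h1 h2 h3 h4)) (enc_neg (enc_rat _ 1 2)))⟩
noncomputable def k_PWb_tp_1_2_i_vvvc : Sl_vvvc k_PWb_tp_1_2_i := ⟨_, fun h1 h2 h3 h4 => (nkf_cvcv.snd h4 (pr_nd (k_PWb_tp_vvvc.snd h1 h2 h3 h4)) (enc_rat _ 1 2) (pr_nd (r2u_tp_vvvc.snd h1 h2 h3 h4)))⟩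
noncomputable def xi_T1APW_vvc : Sl_vvc xi_T1APW := ⟨_, fun h1 h2 h3 => (pr_norm (pr_sub (zx_vc.snd h1 h3) (xiw_vc.snd h2 h3)))⟩
noncomputable def u_T1APWPWbc_vvc : Sl_vvc u_T1APWPWbc := ⟨_, fun h1 h2 h3 => (pr_norm (pr_sub (xi_T1APW_vvc.snd h1 h2 h3) (xiw_vc.snd (pr_norm (pr_add h1 h2)) h3)))⟩
noncomputable def kwu_zn_zvvc : Sl_zvvc kwu_zn := ⟨_, fun h1 z1 h2 h3 h4 => (pr_neg (kwu_vc.snd h2 h4))⟩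
noncomputable def xw_zn_zvvc : Sl_zvvc xw_zn := ⟨_, fun h1 z1 h2 h3 h4 => (pr_neg (xw_vc.snd h2 h4))⟩
noncomputable def kwu_zn_vvvc : Sl_vvvc kwu_zn := ⟨_, fun h1 h2 h3 h4 => (pr_neg (kwu_vc.snd h2 h4))⟩
noncomputable def xw_zn_vvvc : Sl_vvvc xw_zn := ⟨_, fun h1 h2 h3 h4 => (pr_neg (xw_vc.snd h2 h4))⟩
noncomputable def r2u_zn_vvvc : Sl_vvvc r2u_zn := ⟨_, fun h1 h2 h3 h4 => (pr_neg (r2u_vc.snd h2 h4))⟩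
noncomputable def kwu_zn_m1_2_i_zvvc : Sl_zvvc kwu_zn_m1_2_i := ⟨_, fun h1 z1 h2 h3 h4 => (nkf_cvcv.snd h4 (pr_nd (kwu_zn_vvvc.snd h1 h2 h3 h4)) (enc_neg (enc_rat _ 1 2)) (pr_nd (r2u_zn_vvvc.snd h1 h2 h3 h4)))⟩
noncomputable def kwu_zn_m1_2_i_vvvc : Sl_vvvc kwu_zn_m1_2_i := ⟨_, fun h1 h2 h3 h4 => (nkf_cvcv.snd h4 (pr_nd (kwu_zn_vvvc.snd h1 h2 h3 h4)) (enc_neg (enc_rat _ 1 2)) (pr_nd (r2u_zn_vvvc.snd h1 h2 h3 h4)))⟩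
noncomputable def xi_T1BP1p_vvc : Sl_vvc xi_T1BP1p := ⟨_, fun h1 h2 h3 => (xi1_vc.snd (pr_norm (pr_add h1 h2)) h3)⟩
noncomputable def u_T1BP1pP1ac_vvc : Sl_vvc u_T1BP1pP1ac := ⟨_, fun h1 h2 h3 => (pr_norm (pr_sub (pr_sub (zx_vc.snd h1 h3) (xi_T1BP1p_vvc.snd h1 h2 h3)) (xi1_vc.snd h2 h3)))⟩
noncomputable def k_P1a_zvc : Sl_zvc k_P1a := ⟨_, fun h1 z1 h2 h3 => (pr_norm (pr_add (k1m_vc.snd h2 h3) (pr_scale 353 500 h1)))⟩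
noncomputable def k_P1a_zn_zvvc : Sl_zvvc k_P1a_zn := ⟨_, fun h1 z1 h2 h3 h4 => (pr_neg (k_P1a_zvc.snd h1 z1 h2 h4))⟩
noncomputable def k1p_tp_zvvc : Sl_zvvc k1p_tp := ⟨_, fun h1 z1 h2 h3 h4 => (k1p_vc.snd h3 h4)⟩
noncomputable def x1p_tp_zvvc : Sl_zvvc x1p_tp := ⟨_, fun h1 z1 h2 h3 h4 => (x1p_vc.snd h3 h4)⟩
noncomputable def k_P1a_zn_m1_2_o_zvvc : Sl_zvvc k_P1a_zn_m1_2_o := ⟨_, fun h1 z1 h2 h3 h4 => (nk0_cvc.snd h4 (pr_nd (k_P1a_zn_zvvc.snd h1 z1 h2 h3 h4)) (enc_neg (enc_rat _ 1 2)))⟩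
noncomputable def k1p_tp_vvvc : Sl_vvvc k1p_tp := ⟨_, fun h1 h2 h3 h4 => (k1p_vc.snd h3 h4)⟩
noncomputable def k1p_tp_1_2_o_zvvc : Sl_zvvc k1p_tp_1_2_o := ⟨_, fun h1 z1 h2 h3 h4 => (nk0_cvc.snd h4 (pr_nd (k1p_tp_vvvc.snd h1 h2 h3 h4)) (enc_rat _ 1 2))⟩
noncomputable def zr4_zvvc : Sl_zvvc zr4 := ⟨_, fun h1 z1 h2 h3 h4 => pr_const ((enc_pnc _ 0))⟩
noncomputable def u_T1BP1pPWbc_vvc : Sl_vvc u_T1BP1pPWbc := ⟨_, fun h1 h2 h3 => (pr_norm (pr_sub (pr_sub (zx_vc.snd h1 h3) (xi_T1BP1p_vvc.snd h1 h2 h3)) (xiw_vc.snd h2 h3)))⟩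
noncomputable def k_PWb_zn_zvvc : Sl_zvvc k_PWb_zn := ⟨_, fun h1 z1 h2 h3 h4 => (pr_neg (k_PWb_zvc.snd h1 z1 h2 h4))⟩
noncomputable def k_PWb_zn_m1_2_i_zvvc : Sl_zvvc k_PWb_zn_m1_2_i := ⟨_, fun h1 z1 h2 h3 h4 => (nkf_cvcv.snd h4 (pr_nd (k_PWb_zn_zvvc.snd h1 z1 h2 h3 h4)) (enc_neg (enc_rat _ 1 2)) (pr_nd (r2u_zn_vvvc.snd h1 h2 h3 h4)))⟩
noncomputable def xi_T1BPW_vvc : Sl_vvc xi_T1BPW := ⟨_, fun h1 h2 h3 => (xiw_vc.snd (pr_norm (pr_add h1 h2)) h3)⟩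
noncomputable def u_T1BPWPWbc_vvc : Sl_vvc u_T1BPWPWbc := ⟨_, fun h1 h2 h3 => (pr_norm (pr_sub (pr_sub (zx_vc.snd h1 h3) (xi_T1BPW_vvc.snd h1 h2 h3)) (xiw_vc.snd h2 h3)))⟩
noncomputable def kwu_tp_zvvc : Sl_zvvc kwu_tp := ⟨_, fun h1 z1 h2 h3 h4 => (kwu_vc.snd h3 h4)⟩
noncomputable def k_PWb_zn_vvvc : Sl_vvvc k_PWb_zn := ⟨_, fun h1 h2 h3 h4 => (pr_neg (k_PWb_vvc.snd h1 h2 h4))⟩
noncomputable def kwu_tp_vvvc : Sl_vvvc kwu_tp := ⟨_, fun h1 h2 h3 h4 => (kwu_vc.snd h3 h4)⟩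
noncomputable def kwu_tp_1_2_i_zvvc : Sl_zvvc kwu_tp_1_2_i := ⟨_, fun h1 z1 h2 h3 h4 => (nkf_cvcv.snd h4 (pr_nd (kwu_tp_vvvc.snd h1 h2 h3 h4)) (enc_rat _ 1 2) (pr_nd (r2u_tp_vvvc.snd h1 h2 h3 h4)))⟩
noncomputable def k_PWb_zn_m1_2_i_vvvc : Sl_vvvc k_PWb_zn_m1_2_i := ⟨_, fun h1 h2 h3 h4 => (nkf_cvcv.snd h4 (pr_nd (k_PWb_zn_vvvc.snd h1 h2 h3 h4)) (enc_neg (enc_rat _ 1 2)) (pr_nd (r2u_zn_vvvc.snd h1 h2 h3 h4)))⟩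
noncomputable def kwu_tp_1_2_i_vvvc : Sl_vvvc kwu_tp_1_2_i := ⟨_, fun h1 h2 h3 h4 => (nkf_cvcv.snd h4 (pr_nd (kwu_tp_vvvc.snd h1 h2 h3 h4)) (enc_rat _ 1 2) (pr_nd (r2u_tp_vvvc.snd h1 h2 h3 h4)))⟩
noncomputable def gf2_vv : Sl_vv gf2 := ⟨_, fun h1 h2 => (pr_norm (pr_add h2 (pr_half h1)))⟩
noncomputable def xi_T2AQW_vvc : Sl_vvc xi_T2AQW := ⟨_, fun h1 h2 h3 => (pr_norm (pr_sub (zx_vc.snd h1 h3) (xiw_vc.snd h2 h3)))⟩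
noncomputable def u_T2AQWPWbc_vvc : Sl_vvc u_T2AQWPWbc := ⟨_, fun h1 h2 h3 => (pr_norm (pr_sub (pr_neg (xi_T2AQW_vvc.snd h1 h2 h3)) (xiw_vc.snd (pr_norm (pr_add h1 h2)) h3)))⟩
noncomputable def cc3_vc : Sl_vc cc3 := ⟨_, fun h1 h2 => (pr_sqrt (pr_csub (enc_pnc _ 3) (pr_scale 3 4 (pr_sq (pr_norm (pr_cadd (enc_pnc _ 1) (pr_cmul h2 h1)))))))⟩
noncomputable def xi3_vc : Sl_vc xi3 := ⟨_, fun h1 h2 => (pr_norm (pr_neg (pr_scale 3 4 (pr_mul (pr_norm (pr_mul h1 (pr_norm (pr_cadd (enc_pnc _ 2) (pr_cmul h2 h1))))) (pr_nd (pr_inv (pr_cadd (enc_rat _ 3 2) (cc3_vc.snd h1 h2))))))))⟩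
noncomputable def sg3_vc : Sl_vc sg3 := ⟨_, fun h1 h2 => (pr_norm (pr_sub (pr_half h1) (pr_scale 1 3 (xi3_vc.snd h1 h2))))⟩
noncomputable def k3m_4_vc : Sl_vc k3m_4 := ⟨_, fun h1 h2 => (dt_v.snd (pr_nd (pr_neg (sg3_vc.snd h1 h2))))⟩
noncomputable def k3m_vc : Sl_vc k3m := ⟨_, fun h1 h2 => (pr_norm (pr_sub (pr_neg (pr_scale 3 2 (k3m_4_vc.snd h1 h2))) (pr_scale 3 4 (pr_mul (pr_norm (pr_mul (sg3_vc.snd h1 h2) (pr_nd (pr_inv (pr_cadd (enc_pnc _ 1) (pr_add (pr_half (cc3_vc.snd h1 h2)) (pr_scale 1 4 (pr_cadd (enc_pnc _ 1) (pr_cmul h2 h1))))))))) (pr_norm (pr_csub (enc_pnc _ 1) (pr_cmul h2 (k3m_4_vc.snd h1 h2))))))))⟩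
noncomputable def sl_2_vc : Sl_vc sl_2 := ⟨_, fun h1 h2 => (pr_neg h1)⟩
noncomputable def sl_vc : Sl_vc sl := ⟨_, fun h1 h2 => (pr_norm (pr_case (pr_subn 2 (sl_2_vc.snd h1 h2)) (pr_cmul (pl.enc h2) (pr_norm (pr_minh (sl_2_vc.snd h1 h2) (pr_const (enc_pnc _ 1))))) (pr_const (enc_rat _ 27 20))))⟩
noncomputable def kwl_vc : Sl_vc kwl := ⟨_, fun h1 h2 => (pr_norm (pr_sub (k3m_vc.snd h1 h2) (pr_mul (sl_vc.snd h1 h2) (pr_norm (pr_sub (xi3_vc.snd h1 h2) (xiw_vc.snd h1 h2))))))⟩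
noncomputable def kwl_zn_zvvc : Sl_zvvc kwl_zn := ⟨_, fun h1 z1 h2 h3 h4 => (pr_neg (kwl_vc.snd h2 h4))⟩
noncomputable def k_PWb_tn_zvvc : Sl_zvvc k_PWb_tn := ⟨_, fun h1 z1 h2 h3 h4 => (pr_neg (k_PWb_zvc.snd h1 z1 h3 h4))⟩
noncomputable def xwl_vc : Sl_vc xwl := ⟨_, fun h1 h2 => (xw_vc.snd (pr_nd (pr_neg h1)) h2)⟩
noncomputable def xwl_zn_zvvc : Sl_zvvc xwl_zn := ⟨_, fun h1 z1 h2 h3 h4 => (pr_neg (xwl_vc.snd h2 h4))⟩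
noncomputable def xw_tn_zvvc : Sl_zvvc xw_tn := ⟨_, fun h1 z1 h2 h3 h4 => (pr_neg (xw_vc.snd h3 h4))⟩
noncomputable def kwl_zn_vvvc : Sl_vvvc kwl_zn := ⟨_, fun h1 h2 h3 h4 => (pr_neg (kwl_vc.snd h2 h4))⟩
noncomputable def k_PWb_tn_vvvc : Sl_vvvc k_PWb_tn := ⟨_, fun h1 h2 h3 h4 => (pr_neg (k_PWb_vvc.snd h1 h3 h4))⟩
noncomputable def xwl_zn_vvvc : Sl_vvvc xwl_zn := ⟨_, fun h1 h2 h3 h4 => (pr_neg (xwl_vc.snd h2 h4))⟩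
noncomputable def xw_tn_vvvc : Sl_vvvc xw_tn := ⟨_, fun h1 h2 h3 h4 => (pr_neg (xw_vc.snd h3 h4))⟩
noncomputable def r2l_vc : Sl_vc r2l := ⟨_, fun h1 h2 => (pr_norm (pr_cmul (rwl.enc h2) (gh_v.snd (pr_nd (pr_neg h1)))))⟩
noncomputable def r2l_zn_vvvc : Sl_vvvc r2l_zn := ⟨_, fun h1 h2 h3 h4 => (pr_neg (r2l_vc.snd h2 h4))⟩
noncomputable def kwl_zn_m3_2_i_zvvc : Sl_zvvc kwl_zn_m3_2_i := ⟨_, fun h1 z1 h2 h3 h4 => (nkf_cvcv.snd h4 (pr_nd (kwl_zn_vvvc.snd h1 h2 h3 h4)) (enc_neg (enc_rat _ 3 2)) (pr_nd (r2l_zn_vvvc.snd h1 h2 h3 h4)))⟩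
noncomputable def r2u_tn_vvvc : Sl_vvvc r2u_tn := ⟨_, fun h1 h2 h3 h4 => (pr_neg (r2u_vc.snd h3 h4))⟩
noncomputable def k_PWb_tn_m1_2_i_zvvc : Sl_zvvc k_PWb_tn_m1_2_i := ⟨_, fun h1 z1 h2 h3 h4 => (nkf_cvcv.snd h4 (pr_nd (k_PWb_tn_zvvc.snd h1 z1 h2 h3 h4)) (enc_neg (enc_rat _ 1 2)) (pr_nd (r2u_tn_vvvc.snd h1 h2 h3 h4)))⟩
noncomputable def kwl_zn_m3_2_i_vvvc : Sl_vvvc kwl_zn_m3_2_i := ⟨_, fun h1 h2 h3 h4 => (nkf_cvcv.snd h4 (pr_nd (kwl_zn_vvvc.snd h1 h2 h3 h4)) (enc_neg (enc_rat _ 3 2)) (pr_nd (r2l_zn_vvvc.snd h1 h2 h3 h4)))⟩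
noncomputable def k_PWb_tn_m1_2_i_vvvc : Sl_vvvc k_PWb_tn_m1_2_i := ⟨_, fun h1 h2 h3 h4 => (nkf_cvcv.snd h4 (pr_nd (k_PWb_tn_vvvc.snd h1 h2 h3 h4)) (enc_neg (enc_rat _ 1 2)) (pr_nd (r2u_tn_vvvc.snd h1 h2 h3 h4)))⟩
noncomputable def xi_T2AQ3m_vvc : Sl_vvc xi_T2AQ3m := ⟨_, fun h1 h2 h3 => (pr_norm (pr_sub (zx_vc.snd h1 h3) (xi3_vc.snd h2 h3)))⟩
noncomputable def u_T2AQ3mP1ac_vvc : Sl_vvc u_T2AQ3mP1ac := ⟨_, fun h1 h2 h3 => (pr_norm (pr_sub (pr_neg (xi_T2AQ3m_vvc.snd h1 h2 h3)) (xi1_vc.snd (pr_norm (pr_add h1 h2)) h3)))⟩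
noncomputable def k3m_zn_zvvc : Sl_zvvc k3m_zn := ⟨_, fun h1 z1 h2 h3 h4 => (pr_neg (k3m_vc.snd h2 h4))⟩
noncomputable def k_P1a_tn_zvvc : Sl_zvvc k_P1a_tn := ⟨_, fun h1 z1 h2 h3 h4 => (pr_neg (k_P1a_zvc.snd h1 z1 h3 h4))⟩
noncomputable def x3m_vc : Sl_vc x3m := ⟨_, fun h1 h2 => (pr_norm (pr_add (xa_vc.snd (pr_nd (pr_neg (sg3_vc.snd h1 h2))) h2) (xb_v.snd (pr_nd (pr_neg (pr_half (sg3_vc.snd h1 h2)))))))⟩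
noncomputable def x3m_zn_zvvc : Sl_zvvc x3m_zn := ⟨_, fun h1 z1 h2 h3 h4 => (pr_neg (x3m_vc.snd h2 h4))⟩
noncomputable def x1m_tn_zvvc : Sl_zvvc x1m_tn := ⟨_, fun h1 z1 h2 h3 h4 => (pr_neg (x1m_vc.snd h3 h4))⟩
noncomputable def lnt_vvv : Sl_vvv lnt := ⟨_, fun h1 h2 h3 => (pr_neg h3)⟩
noncomputable def gm3_vvvvv : Sl_vvvvv gm3 := ⟨_, fun h1 h2 h3 h4 h5 => (pr_norm (pr_add (pr_sub (pr_mul h2 h3) (pr_mul h1 h4)) (pr_mul h1 h5)))⟩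
noncomputable def k3m_zn_vvvc : Sl_vvvc k3m_zn := ⟨_, fun h1 h2 h3 h4 => (pr_neg (k3m_vc.snd h2 h4))⟩
noncomputable def k3m_zn_m3_2_o_zvvc : Sl_zvvc k3m_zn_m3_2_o := ⟨_, fun h1 z1 h2 h3 h4 => (nk0_cvc.snd h4 (pr_nd (k3m_zn_vvvc.snd h1 h2 h3 h4)) (enc_neg (enc_rat _ 3 2)))⟩
noncomputable def k_P1a_tn_m1_2_o_zvvc : Sl_zvvc k_P1a_tn_m1_2_o := ⟨_, fun h1 z1 h2 h3 h4 => (nk0_cvc.snd h4 (pr_nd (k_P1a_tn_zvvc.snd h1 z1 h2 h3 h4)) (enc_neg (enc_rat _ 1 2)))⟩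
noncomputable def u_T2AQ3mPWbc_vvc : Sl_vvc u_T2AQ3mPWbc := ⟨_, fun h1 h2 h3 => (pr_norm (pr_sub (pr_neg (xi_T2AQ3m_vvc.snd h1 h2 h3)) (xiw_vc.snd (pr_norm (pr_add h1 h2)) h3)))⟩
noncomputable def x3m_zn_vvvc : Sl_vvvc x3m_zn := ⟨_, fun h1 h2 h3 h4 => (pr_neg (x3m_vc.snd h2 h4))⟩
noncomputable def xi_T2AQ3p_vvc : Sl_vvc xi_T2AQ3p := ⟨_, fun h1 h2 h3 => (pr_norm (pr_sub (zx_vc.snd h1 h3) (xi3_vc.snd h2 h3)))⟩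
noncomputable def u_T2AQ3pP1Wc_vvc : Sl_vvc u_T2AQ3pP1Wc := ⟨_, fun h1 h2 h3 => (pr_norm (pr_sub (pr_neg (xi_T2AQ3p_vvc.snd h1 h2 h3)) (xi1_vc.snd (pr_norm (pr_add h1 h2)) h3)))⟩
noncomputable def k3p_3_vc : Sl_vc k3p_3 := ⟨_, fun h1 h2 => (dt_v.snd (sg3_vc.snd h1 h2))⟩
noncomputable def k3p_vc : Sl_vc k3p := ⟨_, fun h1 h2 => (pr_norm (pr_sub (pr_neg (pr_scale 3 2 (k3p_3_vc.snd h1 h2))) (pr_scale 3 4 (pr_mul (pr_norm (pr_mul (sg3_vc.snd h1 h2) (pr_nd (pr_inv (pr_cadd (enc_pnc _ 1) (pr_add (pr_half (cc3_vc.snd h1 h2)) (pr_scale 1 4 (pr_cadd (enc_pnc _ 1) (pr_cmul h2 h1))))))))) (pr_norm (pr_csub (enc_pnc _ 1) (pr_cmul h2 (k3p_3_vc.snd h1 h2))))))))⟩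
noncomputable def k3p_zn_zvvc : Sl_zvvc k3p_zn := ⟨_, fun h1 z1 h2 h3 h4 => (pr_neg (k3p_vc.snd h2 h4))⟩
noncomputable def k_P1Wc_tn_zvvc : Sl_zvvc k_P1Wc_tn := ⟨_, fun h1 z1 h2 h3 h4 => (pr_neg (k_P1Wc_zvc.snd h1 z1 h3 h4))⟩
noncomputable def x3p_vc : Sl_vc x3p := ⟨_, fun h1 h2 => (pr_norm (pr_sub (pr_nat 2 (xa_vc.snd (sg3_vc.snd h1 h2) h2)) (xb_v.snd (pr_nd (pr_half (sg3_vc.snd h1 h2))))))⟩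
noncomputable def x3p_zn_zvvc : Sl_zvvc x3p_zn := ⟨_, fun h1 z1 h2 h3 h4 => (pr_neg (x3p_vc.snd h2 h4))⟩
noncomputable def c_P1Wc_tn_zvvc : Sl_zvvc c_P1Wc_tn := ⟨_, fun h1 z1 h2 h3 h4 => (pr_neg (c_P1Wc_zvc.snd h1 z1 h3 h4))⟩
noncomputable def u_T2AQ3pP1Wg_vvc : Sl_vvc u_T2AQ3pP1Wg := ⟨_, fun h1 h2 h3 => (pr_norm (pr_add (xiw_vc.snd (pr_norm (pr_add h1 h2)) h3) (xi_T2AQ3p_vvc.snd h1 h2 h3)))⟩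
noncomputable def k3p_zn_vvvc : Sl_vvvc k3p_zn := ⟨_, fun h1 h2 h3 h4 => (pr_neg (k3p_vc.snd h2 h4))⟩
noncomputable def k_P1Wg_vvc : Sl_vvc k_P1Wg := ⟨_, fun h1 h2 h3 => (pr_norm (pr_add (pr_sub (kwu_vc.snd h2 h3) (pr_mul (pr_nd (pr_posh h1)) (su_vc.snd h2 h3))) (pr_scale 353 500 (pr_posh (pr_neg h1)))))⟩
noncomputable def k_P1Wg_tn_vvvc : Sl_vvvc k_P1Wg_tn := ⟨_, fun h1 h2 h3 h4 => (pr_neg (k_P1Wg_vvc.snd h1 h3 h4))⟩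
noncomputable def x3p_zn_vvvc : Sl_vvvc x3p_zn := ⟨_, fun h1 h2 h3 h4 => (pr_neg (x3p_vc.snd h2 h4))⟩
noncomputable def c_P1Wg_vvc : Sl_vvc c_P1Wg := ⟨_, fun h1 h2 h3 => (pr_norm (pr_sub (xw_vc.snd h2 h3) (pr_mul (pr_nd (pr_posh h1)) (slp_vc.snd h2 h3))))⟩
noncomputable def c_P1Wg_tn_vvvc : Sl_vvvc c_P1Wg_tn := ⟨_, fun h1 h2 h3 h4 => (pr_neg (c_P1Wg_vvc.snd h1 h3 h4))⟩
noncomputable def k3p_zn_m3_2_o_zvvc : Sl_zvvc k3p_zn_m3_2_o := ⟨_, fun h1 z1 h2 h3 h4 => (nk0_cvc.snd h4 (pr_nd (k3p_zn_vvvc.snd h1 h2 h3 h4)) (enc_neg (enc_rat _ 3 2)))⟩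
noncomputable def r_P1Wc_tn_zvvc : Sl_zvvc r_P1Wc_tn := ⟨_, fun h1 z1 h2 h3 h4 => (pr_neg (r_P1Wc_zvc.snd h1 z1 h3 h4))⟩
noncomputable def k_P1Wc_tn_m1_2_i_zvvc : Sl_zvvc k_P1Wc_tn_m1_2_i := ⟨_, fun h1 z1 h2 h3 h4 => (nkf_cvcv.snd h4 (pr_nd (k_P1Wc_tn_zvvc.snd h1 z1 h2 h3 h4)) (enc_neg (enc_rat _ 1 2)) (pr_nd (r_P1Wc_tn_zvvc.snd h1 z1 h2 h3 h4)))⟩
noncomputable def u_T2AQ3pPWbc_vvc : Sl_vvc u_T2AQ3pPWbc := ⟨_, fun h1 h2 h3 => (pr_norm (pr_sub (pr_neg (xi_T2AQ3p_vvc.snd h1 h2 h3)) (xiw_vc.snd (pr_norm (pr_add h1 h2)) h3)))⟩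
noncomputable def xi_T2BP1m_vvc : Sl_vvc xi_T2BP1m := ⟨_, fun h1 h2 h3 => (pr_neg (xi1_vc.snd (pr_norm (pr_add h1 h2)) h3))⟩
noncomputable def u_T2BP1mQW3c_vvc : Sl_vvc u_T2BP1mQW3c := ⟨_, fun h1 h2 h3 => (pr_norm (pr_sub (xi3_vc.snd h2 h3) (pr_sub (zx_vc.snd h1 h3) (xi_T2BP1m_vvc.snd h1 h2 h3))))⟩
noncomputable def k_QW3c_zvc : Sl_zvc k_QW3c := ⟨_, fun h1 z1 h2 h3 => (pr_norm (pr_sub (k3m_vc.snd h2 h3) (pr_mz z1 h1 (sl_vc.snd h2 h3))))⟩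
noncomputable def k_QW3c_zn_zvvc : Sl_zvvc k_QW3c_zn := ⟨_, fun h1 z1 h2 h3 h4 => (pr_neg (k_QW3c_zvc.snd h1 z1 h2 h4))⟩
noncomputable def k1m_tn_zvvc : Sl_zvvc k1m_tn := ⟨_, fun h1 z1 h2 h3 h4 => (pr_neg (k1m_vc.snd h3 h4))⟩
noncomputable def slq_2_vc : Sl_vc slq_2 := ⟨_, fun h1 h2 => (pr_neg h1)⟩
noncomputable def slq_12_vc : Sl_vc slq_12 := ⟨_, fun h1 h2 => (pr_mul (pr_norm (pr_cadd (enc_pnc _ 2) (pr_cmul h2 h1))) (pr_nd (pr_inv (pr_cadd (enc_rat _ 3 2) (cc3_vc.snd h1 h2)))))⟩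
noncomputable def slq_16_vc : Sl_vc slq_16 := ⟨_, fun h1 h2 => (pr_cadd (enc_rat _ 1 2) (pr_scale 1 4 (slq_12_vc.snd h1 h2)))⟩
noncomputable def slq_17_vc : Sl_vc slq_17 := ⟨_, fun h1 h2 => (pr_mul (pr_norm (slq_16_vc.snd h1 h2)) h1)⟩
noncomputable def slq_vc : Sl_vc slq := ⟨_, fun h1 h2 => (pr_norm (pr_case (pr_subr 2 5 (slq_2_vc.snd h1 h2)) (pr_mul (pr_norm (pr_sub (pr_add (pr_mul (pr_norm (slq_16_vc.snd h1 h2)) (pr_norm (pr_csub (slq_20.enc h1.l h2) (pr_cmul (enc_norm (slq_21.enc h1.l h2)) (pr_norm (slq_17_vc.snd h1 h2)))))) (pr_mul (pr_norm (pr_half (slq_16_vc.snd h1 h2))) (pr_norm (pr_csub (enc_rat _ 181 500) (pr_scale 209 2000 (slq_17_vc.snd h1 h2)))))) (pr_csub (slq_20.enc h1.l h2) (pr_cmul (enc_norm (slq_21.enc h1.l h2)) h1)))) (pr_nd (pr_inv (pr_sub (pr_scale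 3 4 (slq_12_vc.snd h1 h2)) (pr_cmul h2 (pr_norm (pr_scale 3 4 (pr_mul h1 (pr_nd (pr_inv (pr_cadd (enc_pnc _ 1) (qw_vc.snd h1 h2)))))))))))) (pr_mul (pr_norm (pr_sub (x3m_vc.snd h1 h2) (xw_vc.snd (pr_nd (slq_2_vc.snd h1 h2)) h2))) (pr_nd (pr_inv (pr_sub (xi3_vc.snd h1 h2) (xiw_vc.snd h1 h2)))))))⟩
noncomputable def c_QW3c_zvc : Sl_zvc c_QW3c := ⟨_, fun h1 z1 h2 h3 => (pr_norm (pr_sub (x3m_vc.snd h2 h3) (pr_mz z1 h1 (slq_vc.snd h2 h3))))⟩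
noncomputable def c_QW3c_zn_zvvc : Sl_zvvc c_QW3c_zn := ⟨_, fun h1 z1 h2 h3 h4 => (pr_neg (c_QW3c_zvc.snd h1 z1 h2 h4))⟩
noncomputable def u_T2BP1mQW3w_vvc : Sl_vvc u_T2BP1mQW3w := ⟨_, fun h1 h2 h3 => (pr_norm (pr_sub (pr_sub (zx_vc.snd h1 h3) (xi_T2BP1m_vvc.snd h1 h2 h3)) (xiw_vc.snd h2 h3)))⟩
noncomputable def k_QW3w_zvc : Sl_zvc k_QW3w := ⟨_, fun h1 z1 h2 h3 => (pr_norm (pr_add (kwl_vc.snd h2 h3) (pr_mz z1 h1 (sl_vc.snd h2 h3))))⟩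
noncomputable def k_QW3w_zn_zvvc : Sl_zvvc k_QW3w_zn := ⟨_, fun h1 z1 h2 h3 h4 => (pr_neg (k_QW3w_zvc.snd h1 z1 h2 h4))⟩
noncomputable def c_QW3w_zvc : Sl_zvc c_QW3w := ⟨_, fun h1 z1 h2 h3 => (pr_norm (pr_add (xwl_vc.snd h2 h3) (pr_mz z1 h1 (slq_vc.snd h2 h3))))⟩
noncomputable def c_QW3w_zn_zvvc : Sl_zvvc c_QW3w_zn := ⟨_, fun h1 z1 h2 h3 h4 => (pr_neg (c_QW3w_zvc.snd h1 z1 h2 h4))⟩
noncomputable def sls_vc : Sl_vc sls := ⟨_, fun h1 h2 => (pr_norm (pr_case (pr_subr 2 5 (pr_neg h1)) (pr_cmul (rwl.enc h2) (pr_nd (pr_inv (pr_sub (pr_scale 3 4 (pr_mul (pr_norm (pr_cadd (enc_pnc _ 2) (pr_cmul h2 h1))) (pr_nd (pr_inv (pr_cadd (enc_rat _ 3 2) (cc3_vc.snd h1 h2)))))) (pr_cmul h2 (pr_norm (pr_scale 3 4 (pr_mul h1 (pr_nd (pr_inv (pr_cadd (enc_pnc _ 1) (qw_vc.snd h1 h2))))))))))))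 (pr_mul (r2l_vc.snd h1 h2) (pr_nd (pr_inv (pr_sub (xi3_vc.snd h1 h2) (xiw_vc.snd h1 h2)))))))⟩
noncomputable def r_QW3c_zvc : Sl_zvc r_QW3c := ⟨_, fun h1 z1 h2 h3 => (pr_norm (pr_mz z1 h1 (sls_vc.snd h2 h3)))⟩
noncomputable def r_QW3c_zn_zvvc : Sl_zvvc r_QW3c_zn := ⟨_, fun h1 z1 h2 h3 h4 => (pr_neg (r_QW3c_zvc.snd h1 z1 h2 h4))⟩
noncomputable def k_QW3c_zn_m3_2_i_zvvc : Sl_zvvc k_QW3c_zn_m3_2_i := ⟨_, fun h1 z1 h2 h3 h4 => (nkf_cvcv.snd h4 (pr_nd (k_QW3c_zn_zvvc.snd h1 z1 h2 h3 h4)) (enc_neg (enc_rat _ 3 2)) (pr_nd (r_QW3c_zn_zvvc.snd h1 z1 h2 h3 h4)))⟩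
noncomputable def k1m_tn_vvvc : Sl_vvvc k1m_tn := ⟨_, fun h1 h2 h3 h4 => (pr_neg (k1m_vc.snd h3 h4))⟩
noncomputable def k1m_tn_m1_2_o_zvvc : Sl_zvvc k1m_tn_m1_2_o := ⟨_, fun h1 z1 h2 h3 h4 => (nk0_cvc.snd h4 (pr_nd (k1m_tn_vvvc.snd h1 h2 h3 h4)) (enc_neg (enc_rat _ 1 2)))⟩
noncomputable def k_QW3c_zn_m3_2_o_zvvc : Sl_zvvc k_QW3c_zn_m3_2_o := ⟨_, fun h1 z1 h2 h3 h4 => (nk0_cvc.snd h4 (pr_nd (k_QW3c_zn_zvvc.snd h1 z1 h2 h3 h4)) (enc_neg (enc_rat _ 3 2)))⟩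
noncomputable def r_QW3w_zvc : Sl_zvc r_QW3w := ⟨_, fun h1 z1 h2 h3 => (pr_norm (pr_sub (r2l_vc.snd h2 h3) (pr_mz z1 h1 (sls_vc.snd h2 h3))))⟩
noncomputable def r_QW3w_zn_zvvc : Sl_zvvc r_QW3w_zn := ⟨_, fun h1 z1 h2 h3 h4 => (pr_neg (r_QW3w_zvc.snd h1 z1 h2 h4))⟩
noncomputable def k_QW3w_zn_m3_2_i_zvvc : Sl_zvvc k_QW3w_zn_m3_2_i := ⟨_, fun h1 z1 h2 h3 h4 => (nkf_cvcv.snd h4 (pr_nd (k_QW3w_zn_zvvc.snd h1 z1 h2 h3 h4)) (enc_neg (enc_rat _ 3 2)) (pr_nd (r_QW3w_zn_zvvc.snd h1 z1 h2 h3 h4)))⟩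
noncomputable def xi_T2BP1p_vvc : Sl_vvc xi_T2BP1p := ⟨_, fun h1 h2 h3 => (pr_neg (xi1_vc.snd (pr_norm (pr_add h1 h2)) h3))⟩
noncomputable def u_T2BP1pQaWc_vvc : Sl_vvc u_T2BP1pQaWc := ⟨_, fun h1 h2 h3 => (pr_norm (pr_sub (pr_sub (zx_vc.snd h1 h3) (xi_T2BP1p_vvc.snd h1 h2 h3)) (xiw_vc.snd h2 h3)))⟩
noncomputable def saw_7_vc : Sl_vc saw_7 := ⟨_, fun h1 h2 => (pr_cadd (enc_pnc _ 1) (pr_cmul h2 (pr_norm (pr_sub (xiw_vc.snd h1 h2) (xi1_vc.snd h1 h2)))))⟩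
noncomputable def saw_vc : Sl_vc saw := ⟨_, fun h1 h2 => (pr_norm (pr_scale 3 2 (pr_mul (pr_norm (pr_sub (pr_cadd (enc_pnc _ 1) (pr_cmul h2 (pr_norm (pr_sub (kwl_vc.snd h1 h2) (k1m_vc.snd h1 h2))))) (pr_scale 353 1500 (saw_7_vc.snd h1 h2)))) (pr_nd (pr_inv (saw_7_vc.snd h1 h2))))))⟩
noncomputable def k_QaW_zvc : Sl_zvc k_QaW := ⟨_, fun h1 z1 h2 h3 => (pr_norm (pr_add (kwl_vc.snd h2 h3) (pr_mz z1 h1 (saw_vc.snd h2 h3))))⟩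
noncomputable def k_QaW_zn_zvvc : Sl_zvvc k_QaW_zn := ⟨_, fun h1 z1 h2 h3 h4 => (pr_neg (k_QaW_zvc.snd h1 z1 h2 h4))⟩
noncomputable def k1p_tn_zvvc : Sl_zvvc k1p_tn := ⟨_, fun h1 z1 h2 h3 h4 => (pr_neg (k1p_vc.snd h3 h4))⟩
noncomputable def dwl_vc : Sl_vc dwl := ⟨_, fun h1 h2 => (pr_norm (pr_cadd (enc_pnc _ 1) (pr_cmul h2 (pr_norm (pr_sub (xiw_vc.snd h1 h2) (xi1_vc.snd h1 h2))))))⟩
noncomputable def ql_vc : Sl_vc ql := ⟨_, fun h1 h2 => (pr_norm (pr_cmul h2 (pr_nd (pr_inv (pr_scale 2 3 (dwl_vc.snd h1 h2))))))⟩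
noncomputable def c_QaW_zvc : Sl_zvc c_QaW := ⟨_, fun h1 z1 h2 h3 => (pr_norm (pr_add (xwl_vc.snd h2 h3) (pr_mz z1 h1 (pr_norm (pr_mul (pr_norm (pr_sub (xwl_vc.snd h2 h3) (x1m_vc.snd h2 h3))) (ql_vc.snd h2 h3))))))⟩
noncomputable def c_QaW_zn_zvvc : Sl_zvvc c_QaW_zn := ⟨_, fun h1 z1 h2 h3 h4 => (pr_neg (c_QaW_zvc.snd h1 z1 h2 h4))⟩
noncomputable def x1p_tn_zvvc : Sl_zvvc x1p_tn := ⟨_, fun h1 z1 h2 h3 h4 => (pr_neg (x1p_vc.snd h3 h4))⟩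
noncomputable def r_QaW_zvc : Sl_zvc r_QaW := ⟨_, fun h1 z1 h2 h3 => (pr_norm (pr_add (r2l_vc.snd h2 h3) (pr_mz z1 h1 (pr_norm (pr_mul (ql_vc.snd h2 h3) (r2l_vc.snd h2 h3))))))⟩
noncomputable def r_QaW_zn_zvvc : Sl_zvvc r_QaW_zn := ⟨_, fun h1 z1 h2 h3 h4 => (pr_neg (r_QaW_zvc.snd h1 z1 h2 h4))⟩
noncomputable def k_QaW_zn_m3_2_i_zvvc : Sl_zvvc k_QaW_zn_m3_2_i := ⟨_, fun h1 z1 h2 h3 h4 => (nkf_cvcv.snd h4 (pr_nd (k_QaW_zn_zvvc.snd h1 z1 h2 h3 h4)) (enc_neg (enc_rat _ 3 2)) (pr_nd (r_QaW_zn_zvvc.snd h1 z1 h2 h3 h4)))⟩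
noncomputable def k1p_tn_vvvc : Sl_vvvc k1p_tn := ⟨_, fun h1 h2 h3 h4 => (pr_neg (k1p_vc.snd h3 h4))⟩
noncomputable def k1p_tn_m1_2_o_zvvc : Sl_zvvc k1p_tn_m1_2_o := ⟨_, fun h1 z1 h2 h3 h4 => (nk0_cvc.snd h4 (pr_nd (k1p_tn_vvvc.snd h1 h2 h3 h4)) (enc_neg (enc_rat _ 1 2)))⟩
noncomputable def u_T2BP1pQb3c_vvc : Sl_vvc u_T2BP1pQb3c := ⟨_, fun h1 h2 h3 => (pr_norm (pr_sub (pr_sub (zx_vc.snd h1 h3) (xi_T2BP1p_vvc.snd h1 h2 h3)) (xi3_vc.snd h2 h3)))⟩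
noncomputable def sbc_vc : Sl_vc sbc := ⟨_, fun h1 h2 => (pr_norm (pr_scale 20 17 (pr_subr 1059 10000 (pr_mul (pr_norm (pr_cadd (enc_pnc _ 1) (pr_cmul h2 (pr_norm (pr_sub (k3p_vc.snd h1 h2) (kwu_vc.snd h1 h2)))))) (pr_nd (pr_inv (pr_cadd (enc_pnc _ 1) (pr_cmul h2 (pr_norm (pr_sub (xi3_vc.snd h1 h2) (xiw_vc.snd h1 h2)))))))))))⟩
noncomputable def k_Qb3_zvc : Sl_zvc k_Qb3 := ⟨_, fun h1 z1 h2 h3 => (pr_norm (pr_add (k3p_vc.snd h2 h3) (pr_mz z1 h1 (sbc_vc.snd h2 h3))))⟩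
noncomputable def k_Qb3_zn_zvvc : Sl_zvvc k_Qb3_zn := ⟨_, fun h1 z1 h2 h3 h4 => (pr_neg (k_Qb3_zvc.snd h1 z1 h2 h4))⟩
noncomputable def dwu_vc : Sl_vc dwu := ⟨_, fun h1 h2 => (pr_norm (pr_cadd (enc_pnc _ 1) (pr_cmul h2 (pr_norm (pr_sub (xi3_vc.snd h1 h2) (xiw_vc.snd h1 h2))))))⟩
noncomputable def qu_vc : Sl_vc qu := ⟨_, fun h1 h2 => (pr_norm (pr_cmul h2 (pr_nd (pr_inv (pr_scale 17 20 (dwu_vc.snd h1 h2))))))⟩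
noncomputable def c_Qb3_zvc : Sl_zvc c_Qb3 := ⟨_, fun h1 z1 h2 h3 => (pr_norm (pr_add (x3p_vc.snd h2 h3) (pr_mz z1 h1 (pr_norm (pr_mul (pr_norm (pr_sub (x3p_vc.snd h2 h3) (xw_vc.snd h2 h3))) (qu_vc.snd h2 h3))))))⟩
noncomputable def c_Qb3_zn_zvvc : Sl_zvvc c_Qb3_zn := ⟨_, fun h1 z1 h2 h3 h4 => (pr_neg (c_Qb3_zvc.snd h1 z1 h2 h4))⟩
noncomputable def r_Qb3_zvc : Sl_zvc r_Qb3 := ⟨_, fun h1 z1 h2 h3 => (pr_norm (pr_neg (pr_mz z1 h1 (pr_norm (pr_mul (r2u_vc.snd h2 h3) (qu_vc.snd h2 h3))))))⟩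
noncomputable def r_Qb3_zn_zvvc : Sl_zvvc r_Qb3_zn := ⟨_, fun h1 z1 h2 h3 h4 => (pr_neg (r_Qb3_zvc.snd h1 z1 h2 h4))⟩
noncomputable def k_Qb3_zn_m3_2_i_zvvc : Sl_zvvc k_Qb3_zn_m3_2_i := ⟨_, fun h1 z1 h2 h3 h4 => (nkf_cvcv.snd h4 (pr_nd (k_Qb3_zn_zvvc.snd h1 z1 h2 h3 h4)) (enc_neg (enc_rat _ 3 2)) (pr_nd (r_Qb3_zn_zvvc.snd h1 z1 h2 h3 h4)))⟩
noncomputable def xi_T2BPW_vvc : Sl_vvc xi_T2BPW := ⟨_, fun h1 h2 h3 => (pr_neg (xiw_vc.snd (pr_norm (pr_add h1 h2)) h3))⟩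
noncomputable def u_T2BPWQaWc_vvc : Sl_vvc u_T2BPWQaWc := ⟨_, fun h1 h2 h3 => (pr_norm (pr_sub (pr_sub (zx_vc.snd h1 h3) (xi_T2BPW_vvc.snd h1 h2 h3)) (xiw_vc.snd h2 h3)))⟩
noncomputable def kwu_tn_zvvc : Sl_zvvc kwu_tn := ⟨_, fun h1 z1 h2 h3 h4 => (pr_neg (kwu_vc.snd h3 h4))⟩
noncomputable def k_QaW_vvc : Sl_vvc k_QaW := ⟨_, fun h1 h2 h3 => (pr_norm (pr_add (kwl_vc.snd h2 h3) (pr_mul h1 (saw_vc.snd h2 h3))))⟩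
noncomputable def k_QaW_zn_vvvc : Sl_vvvc k_QaW_zn := ⟨_, fun h1 h2 h3 h4 => (pr_neg (k_QaW_vvc.snd h1 h2 h4))⟩
noncomputable def kwu_tn_vvvc : Sl_vvvc kwu_tn := ⟨_, fun h1 h2 h3 h4 => (pr_neg (kwu_vc.snd h3 h4))⟩
noncomputable def c_QaW_vvc : Sl_vvc c_QaW := ⟨_, fun h1 h2 h3 => (pr_norm (pr_add (xwl_vc.snd h2 h3) (pr_mul h1 (pr_norm (pr_mul (pr_norm (pr_sub (xwl_vc.snd h2 h3) (x1m_vc.snd h2 h3))) (ql_vc.snd h2 h3))))))⟩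
noncomputable def c_QaW_zn_vvvc : Sl_vvvc c_QaW_zn := ⟨_, fun h1 h2 h3 h4 => (pr_neg (c_QaW_vvc.snd h1 h2 h4))⟩
noncomputable def kwu_tn_m1_2_i_zvvc : Sl_zvvc kwu_tn_m1_2_i := ⟨_, fun h1 z1 h2 h3 h4 => (nkf_cvcv.snd h4 (pr_nd (kwu_tn_vvvc.snd h1 h2 h3 h4)) (enc_neg (enc_rat _ 1 2)) (pr_nd (r2u_tn_vvvc.snd h1 h2 h3 h4)))⟩
noncomputable def u_T2BPWQb3c_vvc : Sl_vvc u_T2BPWQb3c := ⟨_, fun h1 h2 h3 => (pr_norm (pr_sub (pr_sub (zx_vc.snd h1 h3) (xi_T2BPW_vvc.snd h1 h2 h3)) (xi3_vc.snd h2 h3)))⟩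
noncomputable def k_Qb3_vvc : Sl_vvc k_Qb3 := ⟨_, fun h1 h2 h3 => (pr_norm (pr_add (k3p_vc.snd h2 h3) (pr_mul h1 (sbc_vc.snd h2 h3))))⟩
noncomputable def k_Qb3_zn_vvvc : Sl_vvvc k_Qb3_zn := ⟨_, fun h1 h2 h3 h4 => (pr_neg (k_Qb3_vvc.snd h1 h2 h4))⟩
noncomputable def c_Qb3_vvc : Sl_vvc c_Qb3 := ⟨_, fun h1 h2 h3 => (pr_norm (pr_add (x3p_vc.snd h2 h3) (pr_mul h1 (pr_norm (pr_mul (pr_norm (pr_sub (x3p_vc.snd h2 h3) (xw_vc.snd h2 h3))) (qu_vc.snd h2 h3))))))⟩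
noncomputable def c_Qb3_zn_vvvc : Sl_vvvc c_Qb3_zn := ⟨_, fun h1 h2 h3 h4 => (pr_neg (c_Qb3_vvc.snd h1 h2 h4))⟩
noncomputable def gf3_vv : Sl_vv gf3 := ⟨_, fun h1 h2 => (pr_norm (pr_sub h2 (pr_scale 3 2 h1)))⟩
noncomputable def xi_T2pAP1p_vvc : Sl_vvc xi_T2pAP1p := ⟨_, fun h1 h2 h3 => (pr_norm (pr_add (zx_vc.snd h1 h3) (xi1_vc.snd h2 h3)))⟩
noncomputable def u_T2pAP1pQb3c_vvc : Sl_vvc u_T2pAP1pQb3c := ⟨_, fun h1 h2 h3 => (pr_norm (pr_sub (xi_T2pAP1p_vvc.snd h1 h2 h3) (xi3_vc.snd (pr_norm (pr_add h1 h2)) h3)))⟩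
noncomputable def k1p_zp_zvvc : Sl_zvvc k1p_zp := ⟨_, fun h1 z1 h2 h3 h4 => (k1p_vc.snd h2 h4)⟩
noncomputable def k_Qb3_tp_zvvc : Sl_zvvc k_Qb3_tp := ⟨_, fun h1 z1 h2 h3 h4 => (k_Qb3_zvc.snd h1 z1 h3 h4)⟩
noncomputable def x1p_zp_zvvc : Sl_zvvc x1p_zp := ⟨_, fun h1 z1 h2 h3 h4 => (x1p_vc.snd h2 h4)⟩
noncomputable def c_Qb3_tp_zvvc : Sl_zvvc c_Qb3_tp := ⟨_, fun h1 z1 h2 h3 h4 => (c_Qb3_zvc.snd h1 z1 h3 h4)⟩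
noncomputable def k1p_zp_vvvc : Sl_vvvc k1p_zp := ⟨_, fun h1 h2 h3 h4 => (k1p_vc.snd h2 h4)⟩
noncomputable def k1p_zp_1_2_o_zvvc : Sl_zvvc k1p_zp_1_2_o := ⟨_, fun h1 z1 h2 h3 h4 => (nk0_cvc.snd h4 (pr_nd (k1p_zp_vvvc.snd h1 h2 h3 h4)) (enc_rat _ 1 2))⟩
noncomputable def r_Qb3_tp_zvvc : Sl_zvvc r_Qb3_tp := ⟨_, fun h1 z1 h2 h3 h4 => (r_Qb3_zvc.snd h1 z1 h3 h4)⟩
noncomputable def k_Qb3_tp_3_2_i_zvvc : Sl_zvvc k_Qb3_tp_3_2_i := ⟨_, fun h1 z1 h2 h3 h4 => (nkf_cvcv.snd h4 (pr_nd (k_Qb3_tp_zvvc.snd h1 z1 h2 h3 h4)) (enc_rat _ 3 2) (pr_nd (r_Qb3_tp_zvvc.snd h1 z1 h2 h3 h4)))⟩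
noncomputable def k_Qb3_tp_3_2_o_zvvc : Sl_zvvc k_Qb3_tp_3_2_o := ⟨_, fun h1 z1 h2 h3 h4 => (nk0_cvc.snd h4 (pr_nd (k_Qb3_tp_zvvc.snd h1 z1 h2 h3 h4)) (enc_rat _ 3 2))⟩
noncomputable def xi_T2pBQ3p_vvc : Sl_vvc xi_T2pBQ3p := ⟨_, fun h1 h2 h3 => (xi3_vc.snd (pr_norm (pr_add h1 h2)) h3)⟩
noncomputable def u_T2pBQ3pP1Wc_vvc : Sl_vvc u_T2pBQ3pP1Wc := ⟨_, fun h1 h2 h3 => (pr_norm (pr_sub (pr_sub (xi_T2pBQ3p_vvc.snd h1 h2 h3) (zx_vc.snd h1 h3)) (xi1_vc.snd h2 h3)))⟩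
noncomputable def k_P1Wc_zp_zvvc : Sl_zvvc k_P1Wc_zp := ⟨_, fun h1 z1 h2 h3 h4 => (k_P1Wc_zvc.snd h1 z1 h2 h4)⟩
noncomputable def k3p_tp_zvvc : Sl_zvvc k3p_tp := ⟨_, fun h1 z1 h2 h3 h4 => (k3p_vc.snd h3 h4)⟩
noncomputable def c_P1Wc_zp_zvvc : Sl_zvvc c_P1Wc_zp := ⟨_, fun h1 z1 h2 h3 h4 => (c_P1Wc_zvc.snd h1 z1 h2 h4)⟩
noncomputable def x3p_tp_zvvc : Sl_zvvc x3p_tp := ⟨_, fun h1 z1 h2 h3 h4 => (x3p_vc.snd h3 h4)⟩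
noncomputable def r_P1Wc_zp_zvvc : Sl_zvvc r_P1Wc_zp := ⟨_, fun h1 z1 h2 h3 h4 => (r_P1Wc_zvc.snd h1 z1 h2 h4)⟩
noncomputable def k_P1Wc_zp_1_2_i_zvvc : Sl_zvvc k_P1Wc_zp_1_2_i := ⟨_, fun h1 z1 h2 h3 h4 => (nkf_cvcv.snd h4 (pr_nd (k_P1Wc_zp_zvvc.snd h1 z1 h2 h3 h4)) (enc_rat _ 1 2) (pr_nd (r_P1Wc_zp_zvvc.snd h1 z1 h2 h3 h4)))⟩
noncomputable def k3p_tp_vvvc : Sl_vvvc k3p_tp := ⟨_, fun h1 h2 h3 h4 => (k3p_vc.snd h3 h4)⟩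
noncomputable def k3p_tp_3_2_o_zvvc : Sl_zvvc k3p_tp_3_2_o := ⟨_, fun h1 z1 h2 h3 h4 => (nk0_cvc.snd h4 (pr_nd (k3p_tp_vvvc.snd h1 h2 h3 h4)) (enc_rat _ 3 2))⟩
noncomputable def k_P1Wc_zp_1_2_o_zvvc : Sl_zvvc k_P1Wc_zp_1_2_o := ⟨_, fun h1 z1 h2 h3 h4 => (nk0_cvc.snd h4 (pr_nd (k_P1Wc_zp_zvvc.snd h1 z1 h2 h3 h4)) (enc_rat _ 1 2))⟩
noncomputable def kwui_vc : Sl_vc kwui := ⟨_, fun h1 h2 => (pr_norm (pr_add (k1p_vc.snd h1 h2) (pr_mul (pr_norm (pr_cadd (enc_rat _ 92 125) (pr_cmul (enc_norm (enc_subr 92 125 (pu.enc h2))) h1))) (pr_norm (pr_sub (xiw_vc.snd h1 h2) (xi1_vc.snd h1 h2))))))⟩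
noncomputable def d1fi_vc : Sl_vc d1fi := ⟨_, fun h1 h2 => (pr_norm (pr_add (pr_mul h1 (pr_norm (pr_addc (pr_scale 111 1000 h1) (enc_rat _ 13 40)))) (kwui_vc.snd h1 h2)))⟩
noncomputable def pf_vc : Sl_vc pf := ⟨_, fun h1 h2 => (pr_norm (pr_mul (pr_norm (pr_mul (pr_norm (pr_mulc h1 (ic.enc h2))) (pr_nd (pr_inv (pr_cadd (enc_pnc _ 1) (qw_vc.snd h1 h2)))))) (pr_norm (pr_cadd (enc_pnc _ 1) (pr_mul (pr_norm (pr_cadd (enc_pnc _ 1) h1)) (pr_nd (pr_inv (pr_add (qw_vc.snd h1 h2) (pr_mulc h1 (gs.enc h2))))))))))⟩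
noncomputable def bi1f_vc : Sl_vc bi1f := ⟨_, fun h1 h2 => (pr_norm (pr_sub (pr_scale 3 8 (pf_vc.snd h1 h2)) (pr_cmul (ei.enc h2) (pr_norm (pr_mul (pr_norm (pr_csub (enc_pnc _ 1) (pr_cmul h2 h1))) (d1fi_vc.snd h1 h2))))))⟩
noncomputable def kwuo_vc : Sl_vc kwuo := ⟨_, fun h1 h2 => (pr_norm (pr_add (k1p_vc.snd h1 h2) (pr_cmul (pu.enc h2) (pr_norm (pr_sub (xiw_vc.snd h1 h2) (xi1_vc.snd h1 h2))))))⟩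
noncomputable def d1fo_vc : Sl_vc d1fo := ⟨_, fun h1 h2 => (pr_norm (pr_add (pr_subr 37 500 (pr_scale 51 100 h1)) (kwuo_vc.snd h1 h2)))⟩
noncomputable def opf_9_vc : Sl_vc opf_9 := ⟨_, fun h1 h2 => (pr_cadd (enc_pnc _ 1) h1)⟩
noncomputable def opf_vc : Sl_vc opf := ⟨_, fun h1 h2 => (pr_norm (pr_scale 3 8 (pr_mul (pr_norm (pr_cmul (ic.enc h2) (pr_nd (pr_inv (pr_cadd (enc_pnc _ 1) (qw_vc.snd h1 h2)))))) (pr_norm (pr_add (pr_add (opf_9_vc.snd h1 h2) (qw_vc.snd h1 h2)) (pr_mul (pr_norm (pr_mul h1 (pr_norm (opf_9_vc.snd h1 h2)))) (pr_nd (pr_inv (pr_add (qw_vc.snd h1 h2) (pr_mulc h1 (gs.enc h2)))))))))))⟩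
noncomputable def bo1f_2_vc : Sl_vc bo1f_2 := ⟨_, fun h1 h2 => (pr_inv h1)⟩
noncomputable def bo1f_vc : Sl_vc bo1f := ⟨_, fun h1 h2 => (pr_norm (pr_add (pr_sub (pr_sub (pr_addc (pr_half (pr_cmul (kx.enc h2) (pr_norm (pr_mul (pr_norm (pr_mul (pr_norm (pr_csub (enc_pnc _ 1) (pr_cmul h2 h1))) (d1fo_vc.snd h1 h2))) (pr_nd (bo1f_2_vc.snd h1 h2)))))) (enc_scale 1 4 (kx.enc h2))) (pr_scale 1 4 (pr_cmul (et.enc h2) (pr_nd (bo1f_2_vc.snd h1 h2))))) (opf_vc.snd h1 h2)) (pr_scale 1 4 (pr_mul (pr_norm (pr_subn 1 h1)) (pr_nd (bo1f_2_vc.snd h1 h2))))))⟩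
noncomputable def kwli_2_vc : Sl_vc kwli_2 := ⟨_, fun h1 h2 => (pr_neg h1)⟩
noncomputable def kwli_vc : Sl_vc kwli := ⟨_, fun h1 h2 => (pr_norm (pr_sub (k3m_vc.snd (pr_nd (kwli_2_vc.snd h1 h2)) h2) (pr_mul (pr_norm (pr_cmul (pl.enc h2) h1)) (pr_norm (pr_sub (xi3_vc.snd (pr_nd (kwli_2_vc.snd h1 h2)) h2) (xiw_vc.snd (pr_nd (kwli_2_vc.snd h1 h2)) h2))))))⟩
noncomputable def d3fi_vc : Sl_vc d3fi := ⟨_, fun h1 h2 => (pr_norm (pr_sub (pr_neg (pr_mul h1 (pr_norm (pr_addc (pr_scale 111 1000 h1) (enc_rat _ 13 40))))) (kwli_vc.snd h1 h2)))⟩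
noncomputable def bi3f_vc : Sl_vc bi3f := ⟨_, fun h1 h2 => (pr_norm (pr_sub (pr_scale 3 8 (pf_vc.snd h1 h2)) (pr_cmul (ei.enc h2) (pr_norm (pr_mul (pr_norm (pr_csub (enc_pnc _ 1) (pr_cmul h2 h1))) (d3fi_vc.snd h1 h2))))))⟩
noncomputable def kwlo_2_vc : Sl_vc kwlo_2 := ⟨_, fun h1 h2 => (pr_neg h1)⟩
noncomputable def kwlo_vc : Sl_vc kwlo := ⟨_, fun h1 h2 => (pr_norm (pr_sub (k3m_vc.snd (pr_nd (kwlo_2_vc.snd h1 h2)) h2) (pr_cmul (pl.enc h2) (pr_norm (pr_sub (xi3_vc.snd (pr_nd (kwlo_2_vc.snd h1 h2)) h2) (xiw_vc.snd (pr_nd (kwlo_2_vc.snd h1 h2)) h2))))))⟩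
noncomputable def d3fo_vc : Sl_vc d3fo := ⟨_, fun h1 h2 => (pr_norm (pr_sub (pr_csub (enc_rat _ 37 500) (pr_scale 51 100 h1)) (kwlo_vc.snd h1 h2)))⟩
noncomputable def bo3f_2_vc : Sl_vc bo3f_2 := ⟨_, fun h1 h2 => (pr_inv h1)⟩
noncomputable def bo3f_vc : Sl_vc bo3f := ⟨_, fun h1 h2 => (pr_norm (pr_add (pr_sub (pr_sub (pr_addc (pr_half (pr_cmul (kx.enc h2) (pr_norm (pr_mul (pr_norm (pr_mul (pr_norm (pr_csub (enc_pnc _ 1) (pr_cmul h2 h1))) (d3fo_vc.snd h1 h2))) (pr_nd (bo3f_2_vc.snd h1 h2)))))) (enc_scale 1 4 (kx.enc h2))) (pr_scale 1 4 (pr_cmul (et.enc h2) (pr_nd (bo3f_2_vc.snd h1 h2))))) (opf_vc.snd h1 h2)) (pr_scale 1 4 (pr_mul (pr_norm (pr_subn 1 h1)) (pr_nd (bo3f_2_vc.snd h1 h2))))))⟩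
noncomputable def adni_vc : Sl_vc adni := ⟨_, fun h1 h2 => (pr_norm (pr_mulc (pr_norm (pr_cmul (lb.enc h2) h1)) (enc_norm (enc_sub (pp2.enc h2) (enc_half (enc_mul (mm.enc h2) (enc_inv (ch.enc h2))))))))⟩
noncomputable def d1ni_vc : Sl_vc d1ni := ⟨_, fun h1 h2 => (pr_norm (pr_add (pr_cmul (enc_norm (enc_add (enc_pnc _ 1) (enc_mul h2 (lb.enc h2)))) (d1fi_vc.snd h1 h2)) (adni_vc.snd h1 h2)))⟩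
noncomputable def bi1n_vc : Sl_vc bi1n := ⟨_, fun h1 h2 => (pr_norm (pr_sub (pr_sub (pr_scale 3 8 (pf_vc.snd h1 h2)) (pr_cmul (ei.enc h2) (pr_norm (pr_mul (pr_norm (pr_csub (enc_pnc _ 1) (pr_cmul h2 h1))) (d1ni_vc.snd h1 h2))))) (pr_half (pr_cmul (mu.enc h2) (pr_norm (pr_cmul (enc_norm (enc_sub (mm.enc h2) (ch.enc h2))) h1))))))⟩
noncomputable def adno_vc : Sl_vc adno := ⟨_, fun h1 h2 => (pr_norm (pr_mulc (pr_norm (pr_cmul (lb.enc h2) (pr_norm (pr_scale 1 3 (pr_csub (enc_pnc _ 4) h1))))) (enc_norm (enc_sub (pp2.enc h2) (enc_half (enc_mul (mm.enc h2) (enc_inv (ch.enc h2))))))))⟩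
noncomputable def d1no_vc : Sl_vc d1no := ⟨_, fun h1 h2 => (pr_norm (pr_add (pr_cmul (enc_norm (enc_add (enc_pnc _ 1) (enc_mul h2 (lb.enc h2)))) (d1fo_vc.snd h1 h2)) (adno_vc.snd h1 h2)))⟩
noncomputable def bo1n_2_vc : Sl_vc bo1n_2 := ⟨_, fun h1 h2 => (pr_inv h1)⟩
noncomputable def bo1n_vc : Sl_vc bo1n := ⟨_, fun h1 h2 => (pr_norm (pr_add (pr_addc (pr_sub (pr_sub (pr_sub (pr_addc (pr_half (pr_cmul (kx.enc h2) (pr_norm (pr_mul (pr_norm (pr_mul (pr_norm (pr_csub (enc_pnc _ 1) (pr_cmul h2 h1))) (d1no_vc.snd h1 h2))) (pr_nd (bo1n_2_vc.snd h1 h2)))))) (enc_scale 1 4 (kx.enc h2))) (pr_scale 1 4 (pr_cmul (et.enc h2) (pr_nd (bo1n_2_vc.snd h1 h2))))) (opf_vc.snd h1 h2)) (pr_scale 1 4 (pr_cmul (enc_norm (enc_mul (kx.enc h2) (lb.enc h2))) (pr_norm (pr_subc (bo1n_2_vc.snd h1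 h2) h2))))) (enc_half (enc_mul (mu.enc h2) (mm.enc h2)))) (pr_scale 1 4 (pr_mul (pr_norm (pr_subn 1 h1)) (pr_nd (bo1n_2_vc.snd h1 h2))))))⟩
noncomputable def d3ni_vc : Sl_vc d3ni := ⟨_, fun h1 h2 => (pr_norm (pr_add (pr_cmul (enc_norm (enc_add (enc_pnc _ 1) (enc_mul h2 (lb.enc h2)))) (d3fi_vc.snd h1 h2)) (adni_vc.snd h1 h2)))⟩
noncomputable def bi3n_vc : Sl_vc bi3n := ⟨_, fun h1 h2 => (pr_norm (pr_sub (pr_sub (pr_scale 3 8 (pf_vc.snd h1 h2)) (pr_cmul (ei.enc h2) (pr_norm (pr_mul (pr_norm (pr_csub (enc_pnc _ 1) (pr_cmul h2 h1))) (d3ni_vc.snd h1 h2))))) (pr_half (pr_cmul (mu.enc h2) (pr_norm (pr_cmul (enc_norm (enc_sub (mm.enc h2) (ch.enc h2))) h1))))))⟩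
noncomputable def d3no_vc : Sl_vc d3no := ⟨_, fun h1 h2 => (pr_norm (pr_add (pr_cmul (enc_norm (enc_add (enc_pnc _ 1) (enc_mul h2 (lb.enc h2)))) (d3fo_vc.snd h1 h2)) (adno_vc.snd h1 h2)))⟩
noncomputable def bo3n_2_vc : Sl_vc bo3n_2 := ⟨_, fun h1 h2 => (pr_inv h1)⟩
noncomputable def bo3n_vc : Sl_vc bo3n := ⟨_, fun h1 h2 => (pr_norm (pr_add (pr_addc (pr_sub (pr_sub (pr_sub (pr_addc (pr_half (pr_cmul (kx.enc h2) (pr_norm (pr_mul (pr_norm (pr_mul (pr_norm (pr_csub (enc_pnc _ 1) (pr_cmul h2 h1))) (d3no_vc.snd h1 h2))) (pr_nd (bo3n_2_vc.snd h1 h2)))))) (enc_scale 1 4 (kx.enc h2))) (pr_scale 1 4 (pr_cmul (et.enc h2) (pr_nd (bo3n_2_vc.snd h1 h2))))) (opf_vc.snd h1 h2)) (pr_scale 1 4 (pr_cmul (enc_norm (enc_mul (kx.enc h2) (lb.enc h2))) (pr_norm (pr_subc (bo3n_2_vc.snd h1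 h2) h2))))) (enc_half (enc_mul (mu.enc h2) (mm.enc h2)))) (pr_scale 1 4 (pr_mul (pr_norm (pr_subn 1 h1)) (pr_nd (bo3n_2_vc.snd h1 h2))))))⟩
noncomputable def xom_vc : Sl_vc xom := ⟨_, fun h1 h2 => (pr_norm (pr_cmul h2 (om_vc.snd h1 h2)))⟩
noncomputable def d5fi_vc : Sl_vc d5fi := ⟨_, fun h1 h2 => (pr_norm (pr_sub (pr_neg (pr_nat 2 (kwui_vc.snd h1 h2))) (pr_scale 353 250 (xom_vc.snd h1 h2))))⟩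
noncomputable def bi5f_vc : Sl_vc bi5f := ⟨_, fun h1 h2 => (pr_norm (pr_sub (pr_cmul (enc_norm (enc_sub (mm.enc h2) (ch.enc h2))) h1) (pr_cmul (ei.enc h2) (pr_norm (pr_mul (pr_norm (pr_csub (enc_pnc _ 1) (pr_cmul h2 h1))) (d5fi_vc.snd h1 h2))))))⟩
noncomputable def d5fo_vc : Sl_vc d5fo := ⟨_, fun h1 h2 => (pr_norm (pr_sub (pr_neg (pr_nat 2 (kwuo_vc.snd h1 h2))) (pr_scale 353 250 (xom_vc.snd h1 h2))))⟩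
noncomputable def bo5f_2_vc : Sl_vc bo5f_2 := ⟨_, fun h1 h2 => (pr_inv h1)⟩
noncomputable def bo5f_vc : Sl_vc bo5f := ⟨_, fun h1 h2 => (pr_norm (pr_add (pr_subc (pr_sub (pr_addc (pr_half (pr_cmul (kx.enc h2) (pr_norm (pr_mul (pr_norm (pr_mul (pr_norm (pr_csub (enc_pnc _ 1) (pr_cmul h2 h1))) (d5fo_vc.snd h1 h2))) (pr_nd (bo5f_2_vc.snd h1 h2)))))) (enc_half (kx.enc h2))) (pr_half (pr_cmul (et.enc h2) (pr_nd (bo5f_2_vc.snd h1 h2))))) (mm.enc h2)) (pr_half (pr_mul (pr_norm (pr_subn 1 h1)) (pr_nd (bo5f_2_vc.snd h1 h2))))))⟩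
noncomputable def d8ai_vc : Sl_vc d8ai := ⟨_, fun h1 h2 => (pr_norm (pr_sub (pr_sub (pr_mul h1 (pr_norm (pr_addc (pr_scale 111 1000 h1) (enc_rat _ 13 40)))) (kwui_vc.snd h1 h2)) (pr_scale 353 250 (xom_vc.snd h1 h2))))⟩
noncomputable def bi8a_vc : Sl_vc bi8a := ⟨_, fun h1 h2 => (pr_norm (pr_add (pr_sub (pr_scale 3 8 (pf_vc.snd h1 h2)) (pr_cmul (ei.enc h2) (pr_norm (pr_mul (pr_norm (pr_csub (enc_pnc _ 1) (pr_cmul h2 h1))) (d8ai_vc.snd h1 h2))))) (pr_cmul (enc_norm (enc_sub (mm.enc h2) (ch.enc h2))) h1)))⟩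
noncomputable def d8ao_vc : Sl_vc d8ao := ⟨_, fun h1 h2 => (pr_norm (pr_sub (pr_sub (pr_subr 37 500 (pr_scale 51 100 h1)) (kwuo_vc.snd h1 h2)) (pr_scale 353 250 (xom_vc.snd h1 h2))))⟩
noncomputable def bo8a_2_vc : Sl_vc bo8a_2 := ⟨_, fun h1 h2 => (pr_inv h1)⟩
noncomputable def bo8a_15_vc : Sl_vc bo8a_15 := ⟨_, fun h1 h2 => (pr_cmul (et.enc h2) (pr_nd (bo8a_2_vc.snd h1 h2)))⟩
noncomputable def bo8a_vc : Sl_vc bo8a := ⟨_, fun h1 h2 => (pr_norm (pr_add (pr_subc (pr_sub (pr_addc (pr_sub (pr_sub (pr_addc (pr_half (pr_cmul (kx.enc h2) (pr_norm (pr_mul (pr_norm (pr_mul (pr_norm (pr_csub (enc_pnc _ 1) (pr_cmul h2 h1))) (d8ao_vc.snd h1 h2))) (pr_nd (bo8a_2_vc.snd h1 h2)))))) (enc_scale 1 4 (kx.enc h2))) (pr_scale 1 4 (bo8a_15_vc.snd h1 h2))) (opf_vc.snd h1 h2)) (enc_half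 (kx.enc h2))) (pr_half (bo8a_15_vc.snd h1 h2))) (mm.enc h2)) (pr_scale 3 4 (pr_mul (pr_norm (pr_subn 1 h1)) (pr_nd (bo8a_2_vc.snd h1 h2))))))⟩
noncomputable def d8di_vc : Sl_vc d8di := ⟨_, fun h1 h2 => (pr_norm (pr_sub (pr_sub (pr_mul h1 (pr_norm (pr_addc (pr_scale 111 1000 h1) (enc_rat _ 13 40)))) (kwui_vc.snd h1 h2)) (pr_nat 2 (pr_mulc (xom_vc.snd h1 h2) (saw.enc (enc_pnc _ 0) h2)))))⟩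
noncomputable def bi8d_vc : Sl_vc bi8d := ⟨_, fun h1 h2 => (pr_norm (pr_add (pr_sub (pr_scale 3 8 (pf_vc.snd h1 h2)) (pr_cmul (ei.enc h2) (pr_norm (pr_mul (pr_norm (pr_csub (enc_pnc _ 1) (pr_cmul h2 h1))) (d8di_vc.snd h1 h2))))) (pr_cmul (enc_norm (enc_sub (mm.enc h2) (ch.enc h2))) h1)))⟩
noncomputable def d8do_vc : Sl_vc d8do := ⟨_, fun h1 h2 => (pr_norm (pr_sub (pr_sub (pr_subr 37 500 (pr_scale 51 100 h1)) (kwuo_vc.snd h1 h2)) (pr_nat 2 (pr_mulc (xom_vc.snd h1 h2) (saw.enc (enc_pnc _ 0) h2)))))⟩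
noncomputable def bo8d_2_vc : Sl_vc bo8d_2 := ⟨_, fun h1 h2 => (pr_inv h1)⟩
noncomputable def bo8d_15_vc : Sl_vc bo8d_15 := ⟨_, fun h1 h2 => (pr_cmul (et.enc h2) (pr_nd (bo8d_2_vc.snd h1 h2)))⟩
noncomputable def bo8d_vc : Sl_vc bo8d := ⟨_, fun h1 h2 => (pr_norm (pr_add (pr_subc (pr_sub (pr_addc (pr_sub (pr_sub (pr_addc (pr_half (pr_cmul (kx.enc h2) (pr_norm (pr_mul (pr_norm (pr_mul (pr_norm (pr_csub (enc_pnc _ 1) (pr_cmul h2 h1))) (d8do_vc.snd h1 h2))) (pr_nd (bo8d_2_vc.snd h1 h2)))))) (enc_scale 1 4 (kx.enc h2))) (pr_scale 1 4 (bo8d_15_vc.snd h1 h2))) (opf_vc.snd h1 h2)) (enc_half (kx.enc h2))) (pr_half (bo8d_15_vc.snd h1 h2))) (mm.enc h2)) (pr_scale 3 4 (pr_mul (pr_norm (pr_subn 1 h1)) (pr_nd (bo8d_2_vc.snd h1 h2))))))⟩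
noncomputable def d8ui_vc : Sl_vc d8ui := ⟨_, fun h1 h2 => (pr_norm (pr_sub (pr_sub (pr_mul h1 (pr_norm (pr_addc (pr_scale 111 1000 h1) (enc_rat _ 13 40)))) (kwui_vc.snd h1 h2)) (pr_nat 2 (pr_mulc (xom_vc.snd h1 h2) (sbc.enc (enc_pnc _ 0) h2)))))⟩
noncomputable def bi8u_vc : Sl_vc bi8u := ⟨_, fun h1 h2 => (pr_norm (pr_add (pr_sub (pr_scale 3 8 (pf_vc.snd h1 h2)) (pr_cmul (ei.enc h2) (pr_norm (pr_mul (pr_norm (pr_csub (enc_pnc _ 1) (pr_cmul h2 h1))) (d8ui_vc.snd h1 h2))))) (pr_cmul (enc_norm (enc_sub (mm.enc h2) (ch.enc h2))) h1)))⟩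
noncomputable def d8uo_vc : Sl_vc d8uo := ⟨_, fun h1 h2 => (pr_norm (pr_sub (pr_sub (pr_subr 37 500 (pr_scale 51 100 h1)) (kwuo_vc.snd h1 h2)) (pr_nat 2 (pr_mulc (xom_vc.snd h1 h2) (sbc.enc (enc_pnc _ 0) h2)))))⟩
noncomputable def bo8u_2_vc : Sl_vc bo8u_2 := ⟨_, fun h1 h2 => (pr_inv h1)⟩
noncomputable def bo8u_15_vc : Sl_vc bo8u_15 := ⟨_, fun h1 h2 => (pr_cmul (et.enc h2) (pr_nd (bo8u_2_vc.snd h1 h2)))⟩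
noncomputable def bo8u_vc : Sl_vc bo8u := ⟨_, fun h1 h2 => (pr_norm (pr_add (pr_subc (pr_sub (pr_addc (pr_sub (pr_sub (pr_addc (pr_half (pr_cmul (kx.enc h2) (pr_norm (pr_mul (pr_norm (pr_mul (pr_norm (pr_csub (enc_pnc _ 1) (pr_cmul h2 h1))) (d8uo_vc.snd h1 h2))) (pr_nd (bo8u_2_vc.snd h1 h2)))))) (enc_scale 1 4 (kx.enc h2))) (pr_scale 1 4 (bo8u_15_vc.snd h1 h2))) (opf_vc.snd h1 h2)) (enc_half (kx.enc h2))) (pr_half (bo8u_15_vc.snd h1 h2))) (mm.enc h2)) (pr_scale 3 4 (pr_mul (pr_norm (pr_subn 1 h1)) (pr_nd (bo8u_2_vc.snd h1 h2))))))⟩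

end Pool.Agent.Strip051.LC.E0.Ch
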