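import Pool.Agent.Strip051.LC.E0.Ch.Slp

/-! # Small rests: leaves at the strips -/

set_option linter.unusedVariables false

namespace Pool.Agent.Strip051.LC.E0.Ch

open Pool.Agent.Strip051.PB

attribute [local irreducible] padd psub pneg pmul psq pinv psqrt psqrtg pabs pps pmax pmin pphi plam
  pcase phf pnat prat pscale pnorm pdc pnc pone ppos pnn Enc

/-- The base point of a strip. -/
structure SBase (R : RowF) (w z x : ℝ) : Prop where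
  u : R.U w z x = 0
  g : R.G w z = -(x * G.om w x)
  gm : R.GM w z x = G.om w x
  bs : R.BS w z x = G.om w x / 2
  d : R.DL w z x = 0
  l : R.L w z ≠ 0 ∨ G.om w x = 0

theorem SBase.ds {R : RowF} {w z x : ℝ} (h : SBase R w z x) : R.DS w z x = 0 := by
  unfold RowF.DS
  rw [h.d, dsf_val, zero_mul]

theorem SBase.gp {R : RowF} {w z x : ℝ} (h : SBase R w z x) : R.GP w z x = 0 := by
  unfold RowF.GP
  rw [gpf_val, h.g, h.gm]
  ring

theorem SBase.bn {R : RowF} {w z x : ℝ} (h : SBase R w z x) : R.BN w z x = 0 := by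
  unfold RowF.BN
  rw [bnf_val, h.g, h.gm, h.bs, G.ep]
  ring

theorem SBase.brs {R : RowF} {w z x : ℝ} (h : SBase R w z x) :
    brs.v w x (R.L w z) (R.BR w z x) = 0 := by
  unfold RowF.BR
  rw [brs_val, brf_val, h.g, h.gm, h.bs, h.ds]
  rcases h.l with hl | hl
  · field_simp
    ring
  · rw [hl]
    ring

/-- the slope of the bound beyond one cell -/
noncomputable def foT (X Wa Wb Wd La Lb Ld Aa Ab Ad Ba Bb Bd Ga Gb Gd Ma Mb Md Da Db Dd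
    Sa Sb Sd Pd : ℕ) : ℕ :=
  outs.t X La Aa Ba (brs_vcvv.s Wa Wb Wd X La Lb Ld (brf.t X La Aa Ba Ga Ma Da Sa)
    (brf.t X Lb Ab Bb Gb Mb Db Sb)
    (brf_cvvvvvvv.s X La Lb Ld Aa Ab Ad Ba Bb Bd Ga Gb Gd Ma Mb Md Da Db Dd Sa Sb Sd)) Dd Pd

theorem foT_sound {E : Pt} {N : ℝ} {R : RowF} {w z w' z' x : ℝ}
    {X Wa Wb Wd La Lb Ld Aa Ab Ad Ba Bb Bd Ga Gb Gd Ma Mb Md Da Db Dd Sa Sb Sd Pd : ℕ}
    {dsd gpd : ℝ} (hx : Enc E X x) (hw : Pr E N Wa Wb Wd w w')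
    (hl : Pr E N La Lb Ld (R.L w z) (R.L w' z')) (ha : Pr E N Aa Ab Ad (R.A w z) (R.A w' z'))
    (hb : Pr E N Ba Bb Bd (R.B w z) (R.B w' z')) (hg : Pr E N Ga Gb Gd (R.G w z) (R.G w' z'))
    (hm : Pr E N Ma Mb Md (R.GM w z x) (R.GM w' z' x))
    (hd : Pr E N Da Db Dd (R.DS w z x) (R.DS w' z' x))
    (hs : Pr E N Sa Sb Sd (R.BS w z x) (R.BS w' z' x)) (kd : Enc E Dd dsd) (kp : Enc E Pd gpd) :
    ∃ bd : ℝ, brs.v w x (R.L w z) (R.BR w z x) - brs.v w' x (R.L w' z') (R.BR w' z' x) = N * bd ∧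
      Enc E (foT X Wa Wb Wd La Lb Ld Aa Ab Ad Ba Bb Bd Ga Gb Gd Ma Mb Md Da Db Dd Sa Sb Sd Pd)
        (outs.v x (R.L w z) (R.A w z) (R.B w z) bd dsd gpd) := by
  have k := brs_vcvv.snd hw hx hl (brf_cvvvvvvv.snd hx hl ha hb hg hm hd hs)
  obtain ⟨bd, k1, e⟩ := k.d
  exact ⟨bd, e, outs.enc hx hl.l ha.l hb.l k1 kd kp⟩

theorem fo_le {R : RowF} {w z x N bd dsd gpd : ℝ} (hx : 0 < x) (hx1 : x ≤ 4 / 125) (hN : 0 < N)
    (hg : R.G w z = -(x * G.om w x) + N) (e1 : brs.v w x (R.L w z) (R.BR w z x) = N * bd)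
    (e2 : R.DS w z x = N * dsd) (e3 : R.GP w z x = N * gpd) :
    N * outs.v x (R.L w z) (R.A w z) (R.B w z) bd dsd gpd ≤
      R.G w z / (2 * x) * (1 - 1 / R.L w z) ^ 2 + R.BR w z x -
        abf.v x (R.L w z) (R.A w z) (R.B w z) (R.DS w z x) (R.GP w z x) := by
  rw [e2, e3, abf_scale hN, outs_val, one_div]
  rw [brs_val] at e1
  have e4 : R.G w z / (2 * x) * (1 - (R.L w z)⁻¹) ^ 2 =
      N * (1 / (2 * x) * (1 - (R.L w z)⁻¹) ^ 2) - G.om w x * (1 - (R.L w z)⁻¹) ^ 2 / 2 := by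
    rw [hg]
    field_simp
    ring
  have h2 : 125 / 8 ≤ 1 / (2 * x) := by
    rw [le_div_iff₀ (by positivity)]
    linarith
  have h3 : N * (125 / 8 * (1 - (R.L w z)⁻¹) ^ 2) ≤
      N * (1 / (2 * x) * (1 - (R.L w z)⁻¹) ^ 2) :=
    mul_le_mul_of_nonneg_left (mul_le_mul_of_nonneg_right h2 (by positivity)) hN.le
  rw [e4]
  nlinarith

/-- leaf at a strip, far vertex -/
noncomputable def strF {R : RowF} (S : RowS R true) (kw : Fn2) (k s W B X : ℕ) : Bool :=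
  frc (kw.t W X) fun K => frc (pnorm (psub B K)) fun Z => frc (pneg K) fun Zb =>
  pval S true W W pzero Z Zb pone X fun Ta Tb Td Ua Ub Ud Ga Gb Gd La Lb Ld Aa Ab Ad Ba Bb Bd
      Ma Mb Md Da Db Dd Sa Sb Sd Pa Pb Pd V1a V1b V1d V2a V2b V2d Na Nb Nd =>
    tst false k s X La Aa Ba Nd (foT X W W pzero La Lb Ld Aa Ab Ad Ba Bb Bd Ga Gb Gd Ma Mb Md
      Da Db Dd Sa Sb Sd Pd) Dd Pd V1d V2d

theorem strF_sound {E : Pt} {R : RowF} {S : RowS R true} {kw : Fn2} {M : ℕ} {up : Bool}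
    {k s W B X : ℕ} {w v x lev : ℝ} (hw : Enc E W w) (hv : Enc E B v) (hx : Enc E X x)
    (h0 : 0 ≤ v) (D : Dm R M up w (v - kw.v w x) x) (SB : SBase R w (-kw.v w x) x)
    (hg : R.G w (v - kw.v w x) = R.G w (-kw.v w x) + v)
    (b1 : 0 ≤ R.V1 w (-kw.v w x) x) (b2 : 0 ≤ R.V2 w (-kw.v w x) x)
    (hlev : R.Lv w (v - kw.v w x) x lev) (h : strF S kw k s W B X = true) :
    R.Sk w (v - kw.v w x) x lev := by
  rcases h0.eq_or_lt with h00 | hN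
  · subst h00
    rw [zero_sub] at D hlev ⊢
    refine sk_zero D SB.bn SB.ds SB.gp ?_
    have := hlev 0 (by linarith) (by linarith)
    linarith
  unfold strF at h
  simp only [frc_eq] at h
  have hK := kw.enc hw hx
  have hZ : Pr E v (pnorm (psub B (kw.t W X))) (pneg (kw.t W X)) pone (v - kw.v w x)
      (-kw.v w x) := ⟨enc_norm (enc_sub hv hK), enc_neg hK, 1, enc_one E, by ring⟩
  have hW : Pr E v W W pzero w w := pr_const hw
  obtain ⟨Ta, Tb, Td, Ua, Ub, Ud, Ga, Gb, Gd, La, Lb, Ld, Aa, Ab, Ad, Ba, Bb, Bd, Ma, Mb, Md, Da,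
    Db, Dd, Sa, Sb, Sd, Pa, Pb, Pd, V1a, V1b, V1d, V2a, V2b, V2d, Na, Nb, Nd, h, F⟩ :=
    pval_sound hW hZ hx (fun _ => SB.u) (fun _ => SB.d) h
  obtain ⟨dsd, kd, ed⟩ := F.ds.d
  obtain ⟨gpd, kp, ep⟩ := F.gp.d
  obtain ⟨bnd, kn, en⟩ := F.bn.d
  obtain ⟨v1d, k1, e1⟩ := F.v1.d
  obtain ⟨v2d, k2, e2⟩ := F.v2.d
  obtain ⟨bd, eb, kf⟩ := foT_sound hx hW F.l F.a F.b F.g F.gm F.ds F.bs kd kp
  rw [SB.ds, sub_zero] at ed
  rw [SB.gp, sub_zero] at ep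
  rw [SB.bn, sub_zero] at en
  rw [SB.brs, sub_zero] at eb
  have r := (tst_sound hx F.l.l F.a.l F.b.l kn kf kd kp k1 k2 h).scale hN
  refine sk_of_res D en ed ep (fun e => absurd e Bool.false_ne_true)
    (fo_le D.x0 D.x1 hN (by rw [hg, SB.g]) eb ed ep) (fun F' g1 g2 => ?_) r
  exact hlev F' (by linarith) (by linarith)

end Pool.Agent.Strip051.LC.E0.Ch
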