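import Pool.Agent.Strip051.LC.E0.Ch.Strip

/-! # Small rests: leaves at the strips, near vertex -/

set_option linter.unusedVariables false

namespace Pool.Agent.Strip051.LC.E0.Ch

open Pool.Agent.Strip051.PB

attribute [local irreducible] padd psub pneg pmul psq pinv psqrt psqrtg pabs pps pmax pmin pphi plam
  pcase phf pnat prat pscale pnorm pdc pnc pone ppos pnn Enc

/-- The second kernel of a row: the side 12 and the third side. -/
structure RowM where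
  r12 : Fn2
  rt : Fn4

/-- its slopes -/
structure RowMS (m : RowM) (q : Bool) where
  s12 : Sl_vc m.r12
  st : SlU q m.rt

noncomputable def RowM.C (m : RowM) (R : RowF) (w z x : ℝ) : ℝ :=
  G.ep x * G.lb x * (|m.r12.v w x| + |m.rt.v (R.U w z x) z (w + z) x|)

/-- The level is at most the two bounds with the cost of the second kernel. -/
def RowM.Lv (m : RowM) (R : RowF) (w z x lev : ℝ) : Prop :=
  ∀ F : ℝ, 0 ≤ F + (R.V1 w z x - m.C R w z x) → 0 ≤ F + (R.V2 w z x - m.C R w z x) → 0 ≤ F - lev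

/-- leaf at a strip, near vertex: `b = false` without, `b = true` with base values -/
noncomputable def strM {R : RowF} (S : RowS R true) (m : RowM) (ms : RowMS m true) (kw : Fn2)
    (b : Bool) (k s W B X : ℕ) : Bool :=
  frc (kw.t W X) fun K => frc (pnorm (psub B K)) fun Z => frc (pneg K) fun Zb =>
  pval S true W W pzero Z Zb pone X fun Ta Tb Td Ua Ub Ud Ga Gb Gd La Lb Ld Aa Ab Ad Ba Bb Bd
      Ma Mb Md Da Db Dd Sa Sb Sd Pa Pb Pd V1a V1b V1d V2a V2b V2d Na Nb Nd =>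
    frc (pmul (ep.t X) (lb.t X)) fun EX =>
    frc (pmul EX (pnorm (pabs (ms.st.s Ua Ub Ud Z Zb pone Ta Tb Td X)))) fun EC =>
    frc (psub V1d EC) fun V1 => frc (psub V2d EC) fun V2 =>
    Bool.rec (motive := fun _ => Bool)
      (tst false k s X La Aa Ba Nd (foT X W W pzero La Lb Ld Aa Ab Ad Ba Bb Bd Ga Gb Gd Ma Mb Md
        Da Db Dd Sa Sb Sd Pd) Dd Pd V1 V2)
      (frc (pmul EX (pabs (m.r12.t W X))) fun E12 =>
        frc (psub V1b E12) fun B1 => frc (psub V2b E12) fun B2 =>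
        tstB k s X La Aa Ba Nd (foT X W W pzero La Lb Ld Aa Ab Ad Ba Bb Bd Ga Gb Gd Ma Mb Md
          Da Db Dd Sa Sb Sd Pd) Dd Pd V1 V2 B1 B2 B) b

theorem epl (x : ℝ) : ep.v x * lb.v x = G.ep x * G.lb x := by rw [ep_val, lb_val]

theorem ep_pos {x : ℝ} (h0 : 0 < x) (h1 : x ≤ 4 / 125) : 0 < G.ep x := by
  unfold G.ep G.ic G.gs
  have h2 : 0 ≤ Real.sqrt (1 - 3 / 4 * x ^ 2) := Real.sqrt_nonneg _
  have h3 : 1 / (1 + Real.sqrt (1 - 3 / 4 * x ^ 2)) ≤ 1 := by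
    rw [div_le_one (by linarith)]
    linarith
  nlinarith

theorem half_gs {x : ℝ} (h0 : 0 < x) (h1 : x ≤ 4 / 125) : 99 / 100 ≤ G.gs x ∧ G.gs x ≤ 1 := by
  unfold G.gs
  constructor
  · apply Real.le_sqrt_of_sq_le
    nlinarith
  · rw [Real.sqrt_le_one]
    nlinarith

theorem lb_nn {x : ℝ} (h0 : 0 < x) (h1 : x ≤ 4 / 125) : 0 ≤ G.lb x := by
  obtain ⟨g1, g2⟩ := half_gs h0 h1
  have h2 := ep_pos h0 h1
  unfold G.lb G.ch G.mu G.ic
  have : 0 ≤ 2 * G.gs x - 1 := by linarith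
  positivity

theorem strM_sound {E : Pt} {R : RowF} {S : RowS R true} {m : RowM} {ms : RowMS m true} {kw : Fn2}
    {M : ℕ} {up b : Bool} {k s W B X : ℕ} {w v x lev : ℝ} (hw : Enc E W w) (hv : Enc E B v)
    (hx : Enc E X x) (h0 : 0 ≤ v) (D : Dm R M up w (v - kw.v w x) x)
    (SB : SBase R w (-kw.v w x) x) (hg : R.G w (v - kw.v w x) = R.G w (-kw.v w x) + v)
    (hr : m.rt.v (R.U w (-kw.v w x) x) (-kw.v w x) (w + -kw.v w x) x = 0)
    (b1 : G.ep x * G.lb x * |m.r12.v w x| ≤ R.V1 w (-kw.v w x) x)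
    (b2 : G.ep x * G.lb x * |m.r12.v w x| ≤ R.V2 w (-kw.v w x) x)
    (hlev : m.Lv R w (v - kw.v w x) x lev) (h : strM S m ms kw b k s W B X = true) :
    R.Sk w (v - kw.v w x) x lev := by
  rcases h0.eq_or_lt with h00 | hN
  · subst h00
    rw [zero_sub] at D hlev ⊢
    refine sk_zero D SB.bn SB.ds SB.gp ?_
    unfold RowM.Lv RowM.C at hlev
    rw [hr, abs_zero, add_zero] at hlev
    have := hlev 0 (by linarith) (by linarith)
    linarith
  unfold strM at h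
  simp only [frc_eq] at h
  have hK := kw.enc hw hx
  have hZ : Pr E v (pnorm (psub B (kw.t W X))) (pneg (kw.t W X)) pone (v - kw.v w x)
      (-kw.v w x) := ⟨enc_norm (enc_sub hv hK), enc_neg hK, 1, enc_one E, by ring⟩
  have hW : Pr E v W W pzero w w := pr_const hw
  obtain ⟨Ta, Tb, Td, Ua, Ub, Ud, Ga, Gb, Gd, La, Lb, Ld, Aa, Ab, Ad, Ba, Bb, Bd, Ma, Mb, Md, Da,
    Db, Dd, Sa, Sb, Sd, Pa, Pb, Pd, V1a, V1b, V1d, V2a, V2b, V2d, Na, Nb, Nd, h, F⟩ :=
    pval_sound hW hZ hx (fun _ => SB.u) (fun _ => SB.d) h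
  obtain ⟨dsd, kd, ed⟩ := F.ds.d
  obtain ⟨gpd, kp, eg⟩ := F.gp.d
  obtain ⟨bnd, kn, en⟩ := F.bn.d
  obtain ⟨v1d, k1, e1⟩ := F.v1.d
  obtain ⟨v2d, k2, e2⟩ := F.v2.d
  obtain ⟨bd, eb, kf⟩ := foT_sound hx hW F.l F.a F.b F.g F.gm F.ds F.bs kd kp
  obtain ⟨rd, kr, er⟩ := (ms.st.snd F.u (fun _ => SB.u) hZ F.t hx).d
  rw [SB.ds, sub_zero] at ed
  rw [SB.gp, sub_zero] at eg
  rw [SB.bn, sub_zero] at en
  rw [SB.brs, sub_zero] at eb
  rw [hr, sub_zero] at er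
  have hEX := enc_mul (ep.enc hx) (lb.enc hx)
  have hEC := enc_mul hEX (enc_norm (enc_abs kr))
  have j1 := enc_sub k1 hEC
  have j2 := enc_sub k2 hEC
  have hc : m.C R w (v - kw.v w x) x = G.ep x * G.lb x * |m.r12.v w x| +
      v * (G.ep x * G.lb x * |rd|) := by
    unfold RowM.C
    rw [er, abs_mul, abs_of_pos hN]
    ring
  unfold RowM.Lv at hlev
  rw [hc] at hlev
  rcases b with _ | _
  · have r := (tst_sound hx F.l.l F.a.l F.b.l kn kf kd kp j1 j2 h).scale hN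
    refine sk_of_res D en ed eg (fun e => absurd e Bool.false_ne_true)
      (fo_le D.x0 D.x1 hN (by rw [hg, SB.g]) eb ed eg) (fun F' g1 g2 => ?_) r
    rw [epl] at g1 g2
    exact hlev F' (by linarith) (by linarith)
  · have hE12 := enc_mul hEX (enc_abs (m.r12.enc hw hx))
    have r := tstB_sound hN hx F.l.l F.a.l F.b.l kn kf kd kp j1 j2 (enc_sub F.v1.r hE12)
      (enc_sub F.v2.r hE12) hv h
    refine sk_of_res D en ed eg (fun e => absurd e Bool.false_ne_true)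
      (fo_le D.x0 D.x1 hN (by rw [hg, SB.g]) eb ed eg) (fun F' g1 g2 => ?_) r
    rw [epl] at g1 g2
    exact hlev F' (by linarith) (by linarith)

/-- the sign of `g + x gam` near a strip -/
noncomputable def gpT {R : RowF} (S : RowS R true) (kw : Fn2) (h W B X : ℕ) : Bool :=
  frc (kw.t W X) fun K => frc (pnorm (psub B K)) fun Z => frc (pneg K) fun Zb =>
  pval S true W W pzero Z Zb pone X fun Ta Tb Td Ua Ub Ud Ga Gb Gd La Lb Ld Aa Ab Ad Ba Bb Bd
      Ma Mb Md Da Db Dd Sa Sb Sd Pa Pb Pd V1a V1b V1d V2a V2b V2d Na Nb Nd => pnn Pd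

theorem gpT_sound {E : Pt} {R : RowF} {S : RowS R true} {kw : Fn2} {h W B X : ℕ} {w v x : ℝ}
    (hw : Enc E W w) (hv : Enc E B v) (hx : Enc E X x) (h0 : 0 ≤ v)
    (SB : SBase R w (-kw.v w x) x) (h : gpT S kw h W B X = true) :
    0 ≤ R.GP w (v - kw.v w x) x := by
  unfold gpT at h
  simp only [frc_eq] at h
  have hK := kw.enc hw hx
  have hZ : Pr E v (pnorm (psub B (kw.t W X))) (pneg (kw.t W X)) pone (v - kw.v w x)
      (-kw.v w x) := ⟨enc_norm (enc_sub hv hK), enc_neg hK, 1, enc_one E, by ring⟩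
  have hW : Pr E v W W pzero w w := pr_const hw
  obtain ⟨Ta, Tb, Td, Ua, Ub, Ud, Ga, Gb, Gd, La, Lb, Ld, Aa, Ab, Ad, Ba, Bb, Bd, Ma, Mb, Md, Da,
    Db, Dd, Sa, Sb, Sd, Pa, Pb, Pd, V1a, V1b, V1d, V2a, V2b, V2d, Na, Nb, Nd, h, F⟩ :=
    pval_sound hW hZ hx (fun _ => SB.u) (fun _ => SB.d) h
  obtain ⟨gpd, kp, eg⟩ := F.gp.d
  rw [SB.gp, sub_zero] at eg
  rw [eg]
  exact mul_nonneg h0 (pnn_sound kp h)

end Pool.Agent.Strip051.LC.E0.Ch
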