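import Pool.Agent.Strip051.LC.E0.Ch.Rw

/-! # Small rests: the leaves of the charts of all rows -/

set_option linter.unusedVariables false

namespace Pool.Agent.Strip051.LC.E0.Ch

open Pool.Agent.Strip051.PB

noncomputable def T_t1a_c1_d_f : ℕ → ℕ → ℕ → ℕ → Bool :=
  mVf S_t1a_c1_d_f_z kw1 6 false (twoL (lM1n S_t1a_c1_d_fw_z false) noL)

noncomputable def T_t1a_c1_d_n : ℕ → ℕ → ℕ → ℕ → Bool :=
  mVn R_t1a_c1_d_n S_t1a_c1_d_m_z M_t1a_c1_d_m N_t1a_c1_d_m kw1 6 1 0 false (twoL (lM1n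
    S_t1a_c1_d_nw_z false) noL)

noncomputable def C_t1a_c1_d_n : ℕ → ℕ → ℕ → ℕ → Bool :=
  corT S_t1a_c1_d_n_z 6 false false (conM S_t1a_c1_d_m_z M_t1a_c1_d_m N_t1a_c1_d_m)

noncomputable def G_t1a_c1_d_n : ℕ → ℕ → ℕ → ℕ → Bool :=
  gpT S_t1a_c1_d_m_z kw1

noncomputable def T_t1a_c1_u_f : ℕ → ℕ → ℕ → ℕ → Bool :=
  mZ R_t1a_c1_u_f 6 0 1 false (twoL (lM1p S_t1a_c1_u_f_v false) noL)

noncomputable def C_t1a_c1_u_f : ℕ → ℕ → ℕ → ℕ → Bool :=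
  corT S_t1a_c1_u_f_z 6 false true noC

noncomputable def T_t1a_c1_u_n : ℕ → ℕ → ℕ → ℕ → Bool :=
  mZ R_t1a_c1_u_n 6 0 1 false (twoL (lM1p S_t1a_c1_u_n_v false) noL)

noncomputable def C_t1a_c1_u_n : ℕ → ℕ → ℕ → ℕ → Bool :=
  corT S_t1a_c1_u_n_z 6 false true noC

noncomputable def T_t1a_W_f : ℕ → ℕ → ℕ → ℕ → Bool :=
  mZ R_t1a_W_f 8 0 1 false (twoL (lM1p S_t1a_W_f_v false) (lM5 S_t1a_W_f_v false))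

noncomputable def C_t1a_W_f : ℕ → ℕ → ℕ → ℕ → Bool :=
  corT S_t1a_W_f_z 8 false true noC

noncomputable def T_t1a_W_n : ℕ → ℕ → ℕ → ℕ → Bool :=
  mZ R_t1a_W_n 8 0 1 false (twoL (lM1p S_t1a_W_n_v false) noL)

noncomputable def C_t1a_W_n : ℕ → ℕ → ℕ → ℕ → Bool :=
  corT S_t1a_W_n_z 8 false true noC

noncomputable def T_t1b_c1_d_f : ℕ → ℕ → ℕ → ℕ → Bool :=
  mVf S_t1b_c1_d_f_z kw1 6 false noL

noncomputable def T_t1b_c1_d_n : ℕ → ℕ → ℕ → ℕ → Bool :=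
  mVn R_t1b_c1_d_n S_t1b_c1_d_m_z M_t1b_c1_d_m N_t1b_c1_d_m kw1 6 1 0 false noL

noncomputable def C_t1b_c1_d_n : ℕ → ℕ → ℕ → ℕ → Bool :=
  corT S_t1b_c1_d_n_z 6 false false (conM S_t1b_c1_d_m_z M_t1b_c1_d_m N_t1b_c1_d_m)

noncomputable def G_t1b_c1_d_n : ℕ → ℕ → ℕ → ℕ → Bool :=
  gpT S_t1b_c1_d_m_z kw1

noncomputable def T_t1b_c1_u_f : ℕ → ℕ → ℕ → ℕ → Bool :=
  mZ R_t1b_c1_u_f 6 0 1 false noL

noncomputable def C_t1b_c1_u_f : ℕ → ℕ → ℕ → ℕ → Bool :=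
  corT S_t1b_c1_u_f_z 6 false true noC

noncomputable def T_t1b_c1_u_n : ℕ → ℕ → ℕ → ℕ → Bool :=
  mZ R_t1b_c1_u_n 6 0 1 false noL

noncomputable def C_t1b_c1_u_n : ℕ → ℕ → ℕ → ℕ → Bool :=
  corT S_t1b_c1_u_n_z 6 false true noC

noncomputable def T_t1b_W_f : ℕ → ℕ → ℕ → ℕ → Bool :=
  mZ R_t1b_W_f 8 0 1 false (twoL (lM1p S_t1b_W_f_v false) (lM5 S_t1b_W_f_v false))

noncomputable def C_t1b_W_f : ℕ → ℕ → ℕ → ℕ → Bool :=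
  corT S_t1b_W_f_z 8 false true noC

noncomputable def T_t1b_W_n : ℕ → ℕ → ℕ → ℕ → Bool :=
  mZ R_t1b_W_n 8 0 1 false (twoL (lM1p S_t1b_W_n_v false) noL)

noncomputable def C_t1b_W_n : ℕ → ℕ → ℕ → ℕ → Bool :=
  corT S_t1b_W_n_z 8 false true noC

noncomputable def T_t2a_W_f : ℕ → ℕ → ℕ → ℕ → Bool :=
  mU R_t2a_W_f 8 1 0 false (twoL (lM3p S_t2a_W_f_v false) (lM1n S_t2a_W_f_v true))

noncomputable def C_t2a_W_f : ℕ → ℕ → ℕ → ℕ → Bool :=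
  corT S_t2a_W_f_z 8 false false noC

noncomputable def T_t2a_W_n : ℕ → ℕ → ℕ → ℕ → Bool :=
  mU R_t2a_W_n 8 1 0 false (twoL (lM3p S_t2a_W_n_v false) noL)

noncomputable def C_t2a_W_n : ℕ → ℕ → ℕ → ℕ → Bool :=
  corT S_t2a_W_n_z 8 false false noC

noncomputable def T_t2a_c3_dd_f : ℕ → ℕ → ℕ → ℕ → Bool :=
  mVf S_t2a_c3_dd_f_z kw2 6 false noL

noncomputable def T_t2a_c3_dd_n : ℕ → ℕ → ℕ → ℕ → Bool :=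
  mVn R_t2a_c3_dd_n S_t2a_c3_dd_m_z M_t2a_c3_dd_m N_t2a_c3_dd_m kw2 6 1 0 false noL

noncomputable def C_t2a_c3_dd_n : ℕ → ℕ → ℕ → ℕ → Bool :=
  corT S_t2a_c3_dd_n_z 6 false false (conM S_t2a_c3_dd_m_z M_t2a_c3_dd_m N_t2a_c3_dd_m)

noncomputable def G_t2a_c3_dd_n : ℕ → ℕ → ℕ → ℕ → Bool :=
  gpT S_t2a_c3_dd_m_z kw2

noncomputable def T_t2a_c3_du_f : ℕ → ℕ → ℕ → ℕ → Bool :=
  mU R_t2a_c3_du_f 6 1 0 false (twoL (lM1n S_t2a_c3_du_f_v true) noL)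

noncomputable def C_t2a_c3_du_f : ℕ → ℕ → ℕ → ℕ → Bool :=
  corT S_t2a_c3_du_f_z 6 false false noC

noncomputable def T_t2a_c3_du_n : ℕ → ℕ → ℕ → ℕ → Bool :=
  mU R_t2a_c3_du_n 6 1 0 false noL

noncomputable def C_t2a_c3_du_n : ℕ → ℕ → ℕ → ℕ → Bool :=
  corT S_t2a_c3_du_n_z 6 false false noC

noncomputable def T_t2a_c3_u1_f : ℕ → ℕ → ℕ → ℕ → Bool :=
  mZ R_t2a_c3_u1_f 6 0 1 false (twoL (lM1p S_t2a_c3_u1_fg_v true) noL)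

noncomputable def C_t2a_c3_u1_f : ℕ → ℕ → ℕ → ℕ → Bool :=
  corT S_t2a_c3_u1_f_z 6 false true noC

noncomputable def T_t2a_c3_u1_n : ℕ → ℕ → ℕ → ℕ → Bool :=
  mZ R_t2a_c3_u1_n 6 0 1 false noL

noncomputable def C_t2a_c3_u1_n : ℕ → ℕ → ℕ → ℕ → Bool :=
  corT S_t2a_c3_u1_n_z 6 false true noC

noncomputable def T_t2a_c3_u2_f : ℕ → ℕ → ℕ → ℕ → Bool :=
  mZ R_t2a_c3_u2_f 6 0 1 false (twoL (lM1p S_t2a_c3_u2_f_v true) noL)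

noncomputable def C_t2a_c3_u2_f : ℕ → ℕ → ℕ → ℕ → Bool :=
  corT S_t2a_c3_u2_f_z 6 false true noC

noncomputable def T_t2a_c3_u2_n : ℕ → ℕ → ℕ → ℕ → Bool :=
  mZ R_t2a_c3_u2_n 6 0 1 false noL

noncomputable def C_t2a_c3_u2_n : ℕ → ℕ → ℕ → ℕ → Bool :=
  corT S_t2a_c3_u2_n_z 6 false true noC

noncomputable def T_t2b_c1_dd_f : ℕ → ℕ → ℕ → ℕ → Bool :=
  mVf S_t2b_c1_dd_f_z kw2 6 false (twoL (lM3n S_t2b_c1_dd_fw_z false) noL)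

noncomputable def T_t2b_c1_dd_n : ℕ → ℕ → ℕ → ℕ → Bool :=
  mVn R_t2b_c1_dd_n S_t2b_c1_dd_m_z M_t2b_c1_dd_m N_t2b_c1_dd_m kw2 6 1 0 false (twoL (lM3n
    S_t2b_c1_dd_nw_z false) noL)

noncomputable def C_t2b_c1_dd_n : ℕ → ℕ → ℕ → ℕ → Bool :=
  corT S_t2b_c1_dd_n_z 6 false false (conM S_t2b_c1_dd_m_z M_t2b_c1_dd_m N_t2b_c1_dd_m)

noncomputable def G_t2b_c1_dd_n : ℕ → ℕ → ℕ → ℕ → Bool :=
  gpT S_t2b_c1_dd_m_z kw2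

noncomputable def T_t2b_c1_du_f : ℕ → ℕ → ℕ → ℕ → Bool :=
  mU R_t2b_c1_du_f 6 1 0 true (twoL (lM3p S_t2b_c1_du_f_z false) noL)

noncomputable def C_t2b_c1_du_f : ℕ → ℕ → ℕ → ℕ → Bool :=
  corT S_t2b_c1_du_f_z 6 true false noC

noncomputable def T_t2b_c1_du_n : ℕ → ℕ → ℕ → ℕ → Bool :=
  mU R_t2b_c1_du_n 6 1 0 true (twoL (lM3p S_t2b_c1_du_n_z false) noL)

noncomputable def C_t2b_c1_du_n : ℕ → ℕ → ℕ → ℕ → Bool :=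
  corT S_t2b_c1_du_n_z 6 true false noC

noncomputable def T_t2b_c1_u_f : ℕ → ℕ → ℕ → ℕ → Bool :=
  mZ R_t2b_c1_u_f 6 0 1 true noL

noncomputable def C_t2b_c1_u_f : ℕ → ℕ → ℕ → ℕ → Bool :=
  corT S_t2b_c1_u_f_z 6 true true noC

noncomputable def T_t2b_c1_u_n : ℕ → ℕ → ℕ → ℕ → Bool :=
  mZ R_t2b_c1_u_n 6 0 1 true noL

noncomputable def C_t2b_c1_u_n : ℕ → ℕ → ℕ → ℕ → Bool :=
  corT S_t2b_c1_u_n_z 6 true true noC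

noncomputable def T_t2b_W_d_f : ℕ → ℕ → ℕ → ℕ → Bool :=
  mU R_t2b_W_d_f 8 1 0 true (twoL (lM3p S_t2b_W_d_f_z false) (lM1n S_t2b_W_d_f_v true))

noncomputable def C_t2b_W_d_f : ℕ → ℕ → ℕ → ℕ → Bool :=
  corT S_t2b_W_d_f_z 8 true false noC

noncomputable def T_t2b_W_d_n : ℕ → ℕ → ℕ → ℕ → Bool :=
  mU R_t2b_W_d_n 8 1 0 true (twoL (lM3p S_t2b_W_d_n_z false) noL)

noncomputable def C_t2b_W_d_n : ℕ → ℕ → ℕ → ℕ → Bool :=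
  corT S_t2b_W_d_n_z 8 true false noC

noncomputable def T_t2b_W_u_f : ℕ → ℕ → ℕ → ℕ → Bool :=
  mZ R_t2b_W_u_f 8 0 1 true (twoL (lM1p S_t2b_W_u_f_v true) noL)

noncomputable def C_t2b_W_u_f : ℕ → ℕ → ℕ → ℕ → Bool :=
  corT S_t2b_W_u_f_z 8 true true noC

noncomputable def T_t2b_W_u_n : ℕ → ℕ → ℕ → ℕ → Bool :=
  mZ R_t2b_W_u_n 8 0 1 true noL

noncomputable def C_t2b_W_u_n : ℕ → ℕ → ℕ → ℕ → Bool :=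
  corT S_t2b_W_u_n_z 8 true true noC

noncomputable def T_t3a_c1_f : ℕ → ℕ → ℕ → ℕ → Bool :=
  mVf S_t3a_c1_f_z kw3 6 true noL

noncomputable def T_t3a_c1_n : ℕ → ℕ → ℕ → ℕ → Bool :=
  mVn R_t3a_c1_n S_t3a_c1_m_z M_t3a_c1_m N_t3a_c1_m kw3 6 0 1 true noL

noncomputable def C_t3a_c1_n : ℕ → ℕ → ℕ → ℕ → Bool :=
  corT S_t3a_c1_n_z 6 true true (conM S_t3a_c1_m_z M_t3a_c1_m N_t3a_c1_m)

noncomputable def G_t3a_c1_n : ℕ → ℕ → ℕ → ℕ → Bool :=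
  gpT S_t3a_c1_m_z kw3

noncomputable def T_t3b_c3_f : ℕ → ℕ → ℕ → ℕ → Bool :=
  mVf S_t3b_c3_f_z kw3 6 false noL

noncomputable def T_t3b_c3_n : ℕ → ℕ → ℕ → ℕ → Bool :=
  mVn R_t3b_c3_n S_t3b_c3_m_z M_t3b_c3_m N_t3b_c3_m kw3 6 0 1 false noL

noncomputable def C_t3b_c3_n : ℕ → ℕ → ℕ → ℕ → Bool :=
  corT S_t3b_c3_n_z 6 false true (conM S_t3b_c3_m_z M_t3b_c3_m N_t3b_c3_m)

noncomputable def G_t3b_c3_n : ℕ → ℕ → ℕ → ℕ → Bool :=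
  gpT S_t3b_c3_m_z kw3

noncomputable def T_t3a_c1_x_f : ℕ → ℕ → ℕ → ℕ → Bool :=
  mVf S_t3a_c1_f_z kw3 10 true noL

noncomputable def T_t3a_c1_x_n : ℕ → ℕ → ℕ → ℕ → Bool :=
  mVn R_t3a_c1_n S_t3a_c1_m_z M_t3a_c1_m N_t3a_c1_m kw3 10 0 1 true noL

end Pool.Agent.Strip051.LC.E0.Ch
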