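import Pool.Agent.Strip051.LC.E0.Ch.Lnk
import Pool.Agent.Strip051.LC.E0.Ch.Tst

/-! # Small rests: the values of the test functions -/

namespace Pool.Agent.Strip051.LC.E0.Ch

open Pool.Agent.Strip051.PB

theorem dlf_val (a b c : ℝ) : dlf.v a b c = a + b - c := by simp only [dlf]

theorem shf_val (x l : ℝ) : shf.v x l = 1 - x * l := by
  simp only [shf] <;> push_cast <;> rfl

theorem dsf_val (a b : ℝ) : dsf.v a b = a * b := by simp only [dsf]

theorem gpf_val (x g m : ℝ) : gpf.v x g m = g + x * m := by simp only [gpf]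

theorem bsf_val (w t x xi : ℝ) : bsf.v w t x xi = -((G.om w x * (1 + x * t) + xi * w) / 2) := by
  simp only [bsf, om_val] <;> push_cast <;> ring

theorem bnf_val (x g bs gam : ℝ) :
    bnf.v x g bs gam = 3 / 4 * (G.ic x * g) + bs - G.ep x * gam := by
  simp only [bnf, ic_val, ep_val] <;> push_cast <;> ring

theorem exv_val (x g bs : ℝ) : exv.v x g bs = g + 2 * (x * bs) := by
  simp only [exv] <;> push_cast <;> ring

theorem finf_val (x l lf bn ds gp : ℝ) : finf.v x l lf bn ds gp =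
    bn - G.ep x / (1 - x) * (ds * (1 - l)) -
      G.ep x / (1 - x) * l * (lf * (x * ds * ds)) * (gp + x * ds * lf)⁻¹ := by
  simp only [finf, finf_7, ei_val] <;> push_cast <;> ring

theorem cinf_val (x ln ds gp : ℝ) : cinf.v x ln ds gp = gp - x * (ds * ln) := by
  simp only [cinf]

theorem fcrf_val (x bn ds : ℝ) : fcrf.v x bn ds = bn - G.ep x / (1 - x) * ds := by
  simp only [fcrf, ei_val]

theorem couf_val (x l lf ds gp : ℝ) : couf.v x l lf ds gp = (l - 1) * gp - x * (ds * lf) := by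
  simp only [couf] <;> push_cast <;> ring

theorem m2f_val (l : ℝ) : m2f.v l = (1 - l⁻¹) ^ 2 := by
  simp only [m2f] <;> push_cast <;> ring

theorem abf_val (x l a b ds gp : ℝ) : abf.v x l a b ds gp =
    (1 + x * G.et x) * (a * l⁻¹ * (b * l⁻¹)) * (x * ds ^ 2 * gp⁻¹) / 2 := by
  simp only [abf, abf_6, kx_val] <;> push_cast <;> ring

theorem outd_val (x l a b g br ds gp : ℝ) : outd.v x l a b g br ds gp =
    125 / 8 * (g * (1 - l⁻¹) ^ 2) + br - abf.v x l a b ds gp := by
  simp only [outd, m2f_val] <;> push_cast <;> ring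

theorem outs_val (x l a b br ds gp : ℝ) : outs.v x l a b br ds gp =
    125 / 8 * (1 - l⁻¹) ^ 2 + br - abf.v x l a b ds gp := by
  simp only [outs, m2f_val] <;> push_cast <;> ring

theorem brf_val (x l a b g gam ds bs : ℝ) : brf.v x l a b g gam ds bs =
    g * ((1 + x * G.et x) / 2 - G.et x * ((1 - l⁻¹ / 2) * l⁻¹)) + bs -
      (1 + x * G.et x) * (gam * ((1 - l⁻¹ / 2 - x * l / 2) * l⁻¹) +
        (a - b) * l⁻¹ * (ds * (1 - l⁻¹)) / 2) := by
  simp only [brf, brf_8, brf_12, kx_val, et_val] <;> push_cast <;> ring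

theorem brs_val (w x l br : ℝ) : brs.v w x l br = br - G.om w x * (1 - l⁻¹) ^ 2 / 2 := by
  simp only [brs, om_val, m2f_val] <;> push_cast <;> ring

theorem lnf_val (x l bn ds : ℝ) : lnf.v x l bn ds = bn - G.ep x / (1 - x) * (ds * (1 - l)) := by
  simp only [lnf, ei_val] <;> push_cast <;> ring

theorem ltf_val (x l lf ds gp : ℝ) : ltf.v x l lf ds gp =
    G.ep x / (1 - x) * l * (x * ds * ds) * (gp + x * ds * lf)⁻¹ := by
  simp only [ltf, ltf_7, ei_val]

theorem lof_val (x l g br : ℝ) : lof.v x l g br = g * (1 - l⁻¹) ^ 2 / 2 + br := by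
  simp only [lof, m2f_val] <;> push_cast <;> ring

theorem lab_val (x l ot ds gp : ℝ) : lab.v x l ot ds gp =
    (1 + x * G.et x) * (ot * l⁻¹ * l⁻¹) * (x * ds ^ 2 * gp⁻¹) / 2 := by
  simp only [lab, lab_6, kx_val] <;> push_cast <;> ring

theorem col_val (x l ds gp : ℝ) : col.v x l ds gp = gp - 17 * (x * l * ds) := by
  simp only [col] <;> push_cast <;> ring

theorem nkf_val (x k K r : ℝ) : nkf.v x k K r = k * (1 + x * G.lb x) + G.lb x * (K + r) := by
  simp only [nkf, lb_val] <;> push_cast <;> ring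

theorem nk0_val (x k K : ℝ) : nk0.v x k K = k * (1 + x * G.lb x) + G.lb x * K := by
  simp only [nk0, lb_val] <;> push_cast <;> ring

theorem vf1_val (w z t x a b c : ℝ) : vf1.v w z t x a b c = -((a + b - c) / 2) := by
  simp only [vf1] <;> push_cast <;> ring

theorem vf2_val (w z t x a b c : ℝ) : vf2.v w z t x a b c = (a + b - c) / 2 := by
  simp only [vf2] <;> push_cast <;> ring

theorem ml1_val (w z t x a b c : ℝ) : ml1.v w z t x a b c =
    G.mu x * ((3 + x) / 2 * (a + b - c) -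
      (x * w * a + (1 + 2 * x * w + x * z) * b - (1 + x * t) * c) / 2) := by
  simp only [ml1, ml1_9, mu_val] <;> push_cast <;> ring

theorem ml2_val (w z t x a b c : ℝ) : ml2.v w z t x a b c =
    G.mu x * (-((3 + x) / 2 * (a + b - c)) +
      ((1 + x * z) * b + (2 * (1 + x * z) + x * w) * a - (1 + x * t) * c) / 2) := by
  simp only [ml2, ml2_12, mu_val] <;> push_cast <;> ring

theorem gq1_val (w z k12 k23 dl : ℝ) : gq1.v w z k12 k23 dl = z * k12 - w * k23 := by
  simp only [gq1, gm1]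

theorem gm2_val (w z k12 k23 dl : ℝ) : gm2.v w z k12 k23 dl = z * k12 - w * k23 - z * dl := by
  simp only [gm2]

theorem gm3_val (w z k12 k23 dl : ℝ) : gm3.v w z k12 k23 dl = z * k12 - w * k23 + w * dl := by
  simp only [gm3]

theorem gf1_val (w t : ℝ) : gf1.v w t = t - w / 2 := by
  simp only [gf1] <;> push_cast <;> ring

theorem gf2_val (w t : ℝ) : gf2.v w t = t + w / 2 := by
  simp only [gf2] <;> push_cast <;> ring

theorem gf3_val (w t : ℝ) : gf3.v w t = t - 3 / 2 * w := by
  simp only [gf3] <;> push_cast <;> ring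

theorem lt_val (w z t : ℝ) : lt.v w z t = t := rfl
theorem lw_val (w z t : ℝ) : lw.v w z t = w := rfl
theorem lz_val (w z t : ℝ) : lz.v w z t = z := rfl
theorem lnt_val (w z t : ℝ) : lnt.v w z t = -t := rfl
theorem lnz_val (w z t : ℝ) : lnz.v w z t = -z := rfl

end Pool.Agent.Strip051.LC.E0.Ch
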